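import Pool.Agent.JT.UC
import Pool.Agent.CUT.Defs

/-!
# [J2L] the central value of `y² = x³ + D` over `ℚ(ω)` at the prime `2`: definitions

The mathematics is in `J2.md` (team-store). `x = xw`, `y = yw`, `y² = 4 x³ + 1`, `e = xw(1/2)`, `e³ = -1/4`, `y' = (y - 1)/2`, `y'² + y' = x³`.
`D = 2^v D₀`, `D₀ ≡ ζ (1 + 2 δ) mod 4`, `ζ³ = 1`, `j = 1 - v` in `ZMod 3`. The Hecke character is `ψ(x) = (D/x)_2 (4 D/x')_3 x'`, `x'` the primary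
generator of `(x)`, and `conj (ψ(x)/x) = q(x) k(x) r2(x)` for `x` prime to `2 f`, with `q`, `k` modulo an odd `f` and `r2` modulo a power of `2`.
-/

set_option autoImplicit false

open NumberField IsDedekindDomain Filter Topology
open scoped Classical ComplexConjugate

namespace J2L

open CM27 JZ
open CU (la eE)
open CUL (Nl ez DS Cont LV IsRep rp cr mn mo zw GalU)

/-! ## levels -/

/-- An odd modulus `f`, a quadratic character `q` and a cubic character `k` (the conjugate of the cubic character of `ℚ(ω, ∛D)`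
away from `2`) modulo `f`, `q ω = 1`, `k ω = ω ^ (1 - j)`. -/
structure Lv where
  f : Eis
  q : Eis → ℤ
  k : Eis → ℂ
  j : ZMod 3
  hf : f ≠ 0
  hf2 : ¬ (2 : Eis) ∣ f
  q_zero : ∀ x, ¬ IsCoprime x f → q x = 0
  q_pm : ∀ x, IsCoprime x f → q x = 1 ∨ q x = -1
  q_mul : ∀ x y, q (x * y) = q x * q y
  q_per : ∀ x y, f ∣ x - y → q x = q y
  q_om : q CU.om = 1
  k_zero : ∀ x, ¬ IsCoprime x f → k x = 0
  k_cube : ∀ x, IsCoprime x f → ∃ i : ZMod 3, k x = zw i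
  k_mul : ∀ x y, k (x * y) = k x * k y
  k_per : ∀ x y, f ∣ x - y → k x = k y
  k_om : k CU.om = zw (1 - j)
  k_non : ∃ x, IsCoprime x f ∧ k x ≠ 1

/-- the point `c / f` -/
noncomputable def pt (L : Lv) (c : Eis) : ℂ := emb c / emb L.f

/-! ## the part at `2` -/

/-- `x ω ^ (- i)` for `x ≡ ω ^ i mod 2` -/
noncomputable def x1 (x : Eis) : Eis :=
  if (2 : Eis) ∣ x - 1 then x else if (2 : Eis) ∣ x - CU.om then CU.om ^ 2 * x else CU.om * x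

/-- `y` for `x = ω ^ i (1 + 2 y)` -/
noncomputable def y1 (x : Eis) : Eis := ⟨(x1 x).re / 2, (x1 x).im / 2⟩

/-- `(-1) ^ Tr(z)` for `z` modulo `2` -/
def sT (z : Eis) : ℤ := if (2 : ℤ) ∣ z.im then 1 else -1

/-- `(2 / N x)` -/
def s8 (x : Eis) : ℤ := if x.norm % 8 = 1 ∨ x.norm % 8 = 7 then 1 else -1

/-- the quadratic character at `2`: `(2 / N x) ^ v (-1) ^ Tr(y δ)` for `x = ω ^ i (1 + 2 y)` -/
noncomputable def q2 (v : ℕ) (δ x : Eis) : ℤ := if (2 : Eis) ∣ x then 0 else s8 x ^ v * sT (y1 x * δ)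

/-- the character at `2`: `q2(x) (x mod 2) ^ j` -/
noncomputable def r2 (v : ℕ) (δ : Eis) (j : ZMod 3) (x : Eis) : ℂ := (q2 v δ x : ℂ) * cr (-2) x ^ j.val

/-- the exponent of the conductor at `2` -/
noncomputable def n2 (v : ℕ) (δ : Eis) : ℕ :=
  if v % 2 = 1 then 3 else if (2 : Eis) ∣ δ then (if v = 4 then 0 else 1) else 2

/-- the value: the sum over the classes modulo `2 ^ n f` -/
noncomputable def V (L : Lv) (v : ℕ) (δ : Eis) : ℂ :=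
  if n2 v δ = 0 then ∑ c ∈ rp L.f, (L.q c : ℂ) * L.k c * ez (pt L c)
  else ∑ c ∈ rp L.f, (L.q c : ℂ) * L.k c * ∑ d ∈ rp (2 ^ n2 v δ), r2 v δ L.j d * ez (pt L c + emb d / 2 ^ n2 v δ)

/-! ## the cubic character of `ℚ(ω, ∛D)` -/

/-- The primitive cubic character `kp` (an ideal character) of `ℚ(ω, ∛D)` with conductor `g`. -/
structure Cub (D : Eis) where
  g : Eis
  kp : Eis → ℂ
  hg : g ≠ 0
  kp_zero : ∀ x, ¬ IsCoprime x g → kp x = 0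
  kp_cube : ∀ x, IsCoprime x g → ∃ i : ZMod 3, kp x = zw i
  kp_mul : ∀ x y, kp (x * y) = kp x * kp y
  kp_per : ∀ x y, g ∣ x - y → kp x = kp y
  kp_unit : ∀ u, IsUnit u → kp u = 1
  kp_non : ∃ x, IsCoprime x g ∧ kp x ≠ 1
  prim : ∀ p m : Eis, Prime p → p * m = g → ∃ u, IsCoprime u g ∧ m ∣ u - 1 ∧ kp u ≠ 1
  /-- ramification and decomposition at the primes `p` not over `3` -/
  ram : ∀ (p c : Eis) (n : ℕ), Prime p → ¬ p ∣ 3 → D = p ^ n * c → ¬ p ∣ c →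
    (p ∣ g ↔ ¬ 3 ∣ n) ∧ (3 ∣ n → (kp p = 1 ↔ ∃ y : Eis, p ∣ y ^ 3 - c))
  /-- ramification and decomposition at `λ` -/
  ramL : ∀ (c : Eis) (n : ℕ), D = la ^ n * c → ¬ la ∣ c →
    (la ∣ g ↔ ¬ (3 ∣ n ∧ ∃ η : Eis, (η = 1 ∨ η = -1) ∧ la ^ 3 ∣ c - η)) ∧
    (3 ∣ n → (∃ η : Eis, (η = 1 ∨ η = -1) ∧ la ^ 3 ∣ c - η) →
      (kp la = 1 ↔ ∃ η : Eis, (η = 1 ∨ η = -1) ∧ la ^ 4 ∣ c - η))

/-- `L(σ, kp) = (1/6) ∑_b kp(b) N(b) ^ (-σ)`, `σ > 1` -/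
noncomputable def LC {D : Eis} (C : Cub D) (σ : ℝ) : ℂ := (1 / 6) * ∑' b : Eis, C.kp b * (((b.norm : ℝ) ^ (-σ) : ℝ) : ℂ)

/-! ## the field `ℚ(ω, ∛D)` -/

/-- `u` is (the complex value of) a unit of `ℚ(ω, ∛D)` -/
def IsU (D : Eis) (u : ℂ) : Prop := u ∈ JT.KM D ∧ u ≠ 0 ∧ IsIntegral ℤ u ∧ IsIntegral ℤ u⁻¹

/-! ## the elliptic unit -/

/-- `x(1/2)` -/
noncomputable def e2 : ℂ := xw (1 / 2)

/-- `h(z) = (x² - 2 e x - 2 e²) / y`, `h(z)² = x(2 z) - e` -/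
noncomputable def hT (z : ℂ) : ℂ := (xw z ^ 2 - 2 * e2 * xw z - 2 * e2 ^ 2) / yw z

/-- `y(c/f)` for `j = 1`, `h(c/f)` for `j ≠ 1` -/
noncomputable def Ph (L : Lv) (c : Eis) : ℂ := if L.j = 1 then yw (pt L c) else hT (pt L c)

/-- `R` represents the classes `c` modulo `f` with `k c = 1` up to sign. -/
def IsR (L : Lv) (R : Finset Eis) : Prop :=
  (∀ c ∈ R, IsCoprime c L.f ∧ L.k c = 1) ∧
  ∀ α : Eis, IsCoprime α L.f → L.k α = 1 → ∃! c, c ∈ R ∧ (L.f ∣ α - c ∨ L.f ∣ α + c)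

/-- `k a = ω²`, `q a = 1` -/
def IsA (L : Lv) (a : Eis) : Prop := IsCoprime a L.f ∧ L.k a = zw 2 ∧ L.q a = 1

/-- `g_i = ∏_{c ∈ R} Φ(a ^ i c)` -/
noncomputable def gE (L : Lv) (R : Finset Eis) (a : Eis) (i : ℕ) : ℂ := ∏ c ∈ R, Ph L (a ^ i * c)

/-- the elliptic unit `g_0 / g_1` -/
noncomputable def uE (L : Lv) (R : Finset Eis) (a : Eis) : ℂ := gE L R a 0 / gE L R a 1

/-- `∑_{i < 3} ω ^ i ∑_{c ∈ R} log |Φ(a ^ i c)|` -/
noncomputable def Lam (L : Lv) (R : Finset Eis) (a : Eis) : ℂ :=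
  ∑ i ∈ Finset.range 3, w ^ i * ∑ c ∈ R, ((Real.log ‖Ph L (a ^ i * c)‖ : ℝ) : ℂ)

/-- The moment `∑ k(c) g(c/f)` over the classes `c` modulo `± 1`. -/
noncomputable def Ms (L : Lv) (R : Finset Eis) (a : Eis) (g : ℂ → ℂ) : ℂ :=
  ∑ i ∈ Finset.range 3, w ^ (2 * i) * ∑ c ∈ R, g (pt L (a ^ i * c))

/-- `(y - 1) / 2` -/
noncomputable def yh (z : ℂ) : ℂ := (yw z - 1) / 2

/-- The function whose moment is the leading digit of the value. -/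
noncomputable def gM (v : ℕ) (δ : Eis) (z : ℂ) : ℂ :=
  if v = 0 then
    (if (2 : Eis) ∣ δ then yh z
      else if (2 : Eis) ∣ δ - 1 then yh z + xw z ^ 6
      else if (2 : Eis) ∣ δ - CU.om then w ^ 2 * xw z ^ 6 + xw z ^ 3
      else w * xw z ^ 6 + xw z ^ 3)
  else if v = 1 then
    (if (2 : Eis) ∣ δ then xw z ^ 5 + xw z ^ 8 + xw z ^ 14 + xw z ^ 20
      else if (2 : Eis) ∣ δ - 1 then xw z ^ 2 + xw z ^ 5 + xw z ^ 14 + xw z ^ 20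
      else if (2 : Eis) ∣ δ - CU.om then w * xw z ^ 2 + xw z ^ 5 + w * xw z ^ 8 + xw z ^ 14 + xw z ^ 20
      else w ^ 2 * xw z ^ 2 + xw z ^ 5 + w ^ 2 * xw z ^ 8 + xw z ^ 14 + xw z ^ 20)
  else if v = 2 then
    (if (2 : Eis) ∣ δ then xw z
      else if (2 : Eis) ∣ δ - 1 then xw z + xw z ^ 4
      else if (2 : Eis) ∣ δ - CU.om then xw z + w * xw z ^ 4
      else xw z + w ^ 2 * xw z ^ 4)
  else if v = 3 then xw z ^ 6 + xw z ^ 12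
  else if v = 4 then xw z ^ 2
  else xw z ^ 4

/-! ## the data of `D` -/

/-- The level of `D` and its relation to the cubic field. -/
structure Dt (D : Eis) where
  L : Lv
  C : Cub D
  v : ℕ
  D₀ : Eis
  ζ : Eis
  δ : Eis
  hv : v < 6
  hD : D = 2 ^ v * D₀
  hD₀ : ¬ (2 : Eis) ∣ D₀
  hζ : ζ ^ 3 = 1
  hδ : (4 : Eis) ∣ D₀ - ζ * (1 + 2 * δ)
  hj : L.j = 1 - (v : ZMod 3)
  hq : L.q (-1) * q2 v δ (-1) = -1
  /-- the value of `k` at `2` -/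
  k2 : L.k 2 * emb ζ = 1
  /-- the cubic character of the field -/
  kpk : ∀ x : Eis, IsCoprime x (2 * L.f) → C.kp x = conj (L.k x) * cr (-2) x ^ (1 - L.j).val
  gdvd : C.g ∣ (if L.j = 1 then L.f else 2 * L.f)
  /-- the Tamagawa condition -/
  tam : ∀ p : Eis, Prime p → p ∣ L.f → C.kp p ≠ 1
  /-- the Galois action on `∛D` -/
  gal : ∃ M₀ : Eis, M₀ ≠ 0 ∧ ∀ σ : ℂ ≃+* ℂ, σ w = w → ∀ M g : Eis, M ≠ 0 → M₀ ∣ M → GalU σ M g → σ (JT.cD D) = C.kp g * JT.cD D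

end J2L
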