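import Pool.Agent.J2L.Defs
import Pool.Agent.Q3V.A5
import Pool.Agent.Q3V.B4
import Pool.Agent.MP_9ab903_nt.TH.C2a

/-!
# [J2L-A0] the constants `e = x(1/2)`, `ϕ = 2 e`, `ϕ³ = -2`, and the function `h`
-/

set_option autoImplicit false

open scoped Classical

namespace J2L

open CM27
open CUL (Nl ez)
open Q3V (kq aa k1 k2 OT)

theorem e2_eq : e2 = Q3V.x1 := rfl

theorem e2_cube : e2 ^ 3 = -(1 / 4) := Q3V.x1_cube

theorem e2_ne : e2 ≠ 0 := Q3V.x1_ne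

/-- `2 x(1/2)` -/
noncomputable def ph : ℂ := 2 * e2

theorem ph_cube : ph ^ 3 = -2 := by
  have h := e2_cube
  unfold ph
  linear_combination 8 * h

theorem ph_ne : ph ≠ 0 := mul_ne_zero two_ne_zero e2_ne

/-- `1 + T X² - T² X`, `T³ = -2` -/
noncomputable def D2 (T X : ℂ) : ℂ := 1 + T * X ^ 2 - T ^ 2 * X

/-- `w T` for `T³ = -2` -/
theorem wph_cube : (w * ph) ^ 3 = -2 := by
  have h := ph_cube
  have h3 := CUL.w3
  linear_combination w ^ 3 * h - 2 * h3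

theorem w2ph_cube : (w ^ 2 * ph) ^ 3 = -2 := by
  have h := ph_cube
  have h3 := CUL.w3
  linear_combination w ^ 6 * h - 2 * (w ^ 3 + 1) * h3

/-- the numerator of `h`: `X² - T X + 1/T`, `T = 2 e`, `T³ = -2` -/
theorem num_eq {T X : ℂ} (hT : T ^ 3 = -2) : T * (X ^ 2 - 2 * (T / 2) * X - 2 * (T / 2) ^ 2) = D2 T X := by
  unfold D2
  linear_combination (-(1 / 2 : ℂ)) * hT

theorem hT_eq {z : ℂ} (h : Nl (2 * z)) : hT z = D2 ph (xw z) / (ph * yw z) := by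
  have hy := Q3V.off_y h
  have hp := ph_ne
  have h1 := num_eq (X := xw z) ph_cube
  have e : ph / 2 = e2 := by unfold ph; ring
  rw [e] at h1
  rw [hT, ← h1]
  field_simp

theorem kq_hT {z : ℂ} (h : Nl (2 * z)) : kq z = -2 * hT z := by
  rw [Q3V.kq_eq h, hT, e2_eq]
  ring

theorem hT_sq {z : ℂ} (h : Nl (2 * z)) : hT z ^ 2 = xw (2 * z) - e2 := by
  have h1 := Q3V.kq_sq h
  rw [kq_hT h, ← e2_eq] at h1
  linear_combination h1 / 4

/-- `y⁴ D₂(x(2z)) = y⁴ + ϕ x² (x³ - 2)² - ϕ² x (x³ - 2) y²` -/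
theorem xw_two_eq {z : ℂ} (h : Nl (2 * z)) : xw (2 * z) = xw z * (xw z ^ 3 - 2) / yw z ^ 2 := by
  have h1 := xw_two z h
  have hy := Q3V.off_y h
  rw [← weq z (Q3V.off_nl h)] at h1
  rw [eq_div_iff (pow_ne_zero 2 hy), h1]

/-- the product of the conjugates of `D₂` -/
theorem D2_norm (X : ℂ) : D2 ph X * (D2 (w * ph) X * D2 (w ^ 2 * ph) X) = 1 - 10 * X ^ 3 - 2 * X ^ 6 := by
  have h := ph_cube
  have h2 := CUL.w2
  have h3 := CUL.w3
  have e : D2 (w * ph) X * D2 (w ^ 2 * ph) X = 1 - ph * X ^ 2 + ph ^ 2 * X + ph ^ 3 * X ^ 3 + ph ^ 2 * X ^ 4 + ph ^ 4 * X ^ 2 := by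
    unfold D2
    have hw2 : w ^ 2 = -1 - w := h2
    have e4 : w ^ 4 = w := by linear_combination w * h3
    have e5 : w ^ 5 = -1 - w := by linear_combination w ^ 2 * h3 + h2
    have e6 : w ^ 6 = 1 := by linear_combination (w ^ 3 + 1) * h3
    ring_nf
    simp only [e4, e5, e6, h3, hw2]
    ring
  rw [e]
  unfold D2
  linear_combination (X ^ 6 + ph ^ 3 * (-X ^ 3) + 2 * X ^ 3 + 3 * X ^ 3) * h

end J2L
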