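import Pool.Agent.J2L.A0

/-!
# [J2L-C2] closed forms for `n = 1, 2`

`x(u + T) = e_T + 3 e_T²/(x(u) - e_T)` for `T = 1/2, w/2, w²/2`, `e_T = e, w e, w² e` (`Q3V.xw_add_half`). `kq z = ez z + ez (z + 1/2) - ez (z + w/2) - ez (z + w²/2)`,
`kq = -2 h`, `kq(z)² = 4 (x(2z) - e)` (`Q3V.kq_sq`), `kq z kq (z + 1/4) = -k1²`, `k1 = kq (1/8)` (`Q3V.kq_quart`), `k1⁴ = 48 e²` (`Q3V.k1_four`).
Connectedness: `Q3V.nl4_open`, `Q3V.nl4_preconnected`, `Q3V.kq_diff`, `Q3V.kq_ne`, and Mathlib `IsPreconnected.eq_or_eq_neg_of_sq_eq`.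
-/

set_option autoImplicit false

open scoped Classical

namespace J2L

open CM27
open CU (om)
open CUL (Nl ez)
open Q3V (OT kq k1)

/-- [C2.0] a torsion point of odd order: `8 z` is not in the lattice. -/
theorem ot_nl8 {z : ℂ} (h : OT z) : Nl (8 * z) := by
  have h3 := (h.pow 3).1
  norm_num at h3
  exact h3

theorem ot_nl4 {z : ℂ} (h : OT z) : Nl (4 * z) := by
  have h3 := (h.pow 2).1
  norm_num at h3
  exact h3

theorem ot_nl2 {z : ℂ} (h : OT z) : Nl (2 * z) := by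
  have h3 := (h.pow 1).1
  norm_num at h3
  exact h3

/-- [C2.1] `Q3V.ez_add_half` and `y² = 4 (x³ - e³)` -/
theorem ez_half {z : ℂ} (h : Nl (2 * z)) :
    ez (z + 1 / 2) = (ez z + 2 * xw z ^ 2 / yw z) + 2 * e2 * (xw z / yw z) + 2 * e2 ^ 2 * (yw z)⁻¹ := by
  have hv := Q3V.off_nl h
  have hy := Q3V.off_y h
  have ha := Q3V.off_half h Q3V.two_half
  have hd := Q3V.half_ne hv Q3V.nl_half Q3V.two_half ha
  rw [Q3V.ez_add_half hv Q3V.nl_half Q3V.two_half ha]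
  rw [← Q3V.x1, ← e2_eq] at hd ⊢
  have hw := weq z hv
  have h3 := e2_cube
  field_simp
  linear_combination hw + 4 * h3

theorem c2a_kq_eq {z : ℂ} (h : Nl (2 * z)) : kq z * (ph * yw z) = -2 * D2 ph (xw z) := by
  have hy := Q3V.off_y h
  have hp := ph_ne
  rw [kq_hT h, hT_eq h]
  field_simp

theorem c2a_D2_ne {z : ℂ} (h : Nl (4 * z)) : D2 ph (xw z) ≠ 0 := by
  have h2 : Nl (2 * z) := Q3V.nl_half_eis h
  have h1 := c2a_kq_eq h2
  have h3 := Q3V.kq_ne h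
  have hy := Q3V.off_y h2
  have hp := ph_ne
  intro h0
  rw [h0, mul_zero] at h1
  exact mul_ne_zero h3 (mul_ne_zero hp hy) h1

/-- [C2.2] `W(z) = kq (z + 1/4)` (`r/4 = 1/4 + w/2`, `- r/4 ≡ 1/4 + w²/2`, `- 1/4 ≡ 1/4 + 1/2` modulo the lattice) `= - k1²/kq(z)`, `kq = - 2 h`. -/
theorem W2_one : ∃ C : ℂ, C ^ 2 = 3 * ph ^ 4 ∧ ∀ z, Nl (4 * z) →
    ez (z + 1 / 4) + ez (z - 1 / 4) - ez (z + (1 + 2 * w) / 4) - ez (z - (1 + 2 * w) / 4) = C * (yw z * (D2 ph (xw z))⁻¹) := by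
  refine ⟨Q3V.k1 ^ 2 * ph / 2, ?_, ?_⟩
  · have h4 := Q3V.k1_four
    have hp : ph = 2 * Q3V.x1 := rfl
    linear_combination (ph ^ 2 / 4) * h4 - 3 * ph ^ 2 * (ph + 2 * Q3V.x1) * hp
  · intro z h
    have h2 : Nl (2 * z) := Q3V.nl_half_eis h
    have e1 : ez (z + 1 / 4) + ez (z - 1 / 4) - ez (z + (1 + 2 * w) / 4) - ez (z - (1 + 2 * w) / 4) = kq (z + 1 / 4) := by
      unfold kq
      rw [show z + 1 / 4 + 1 / 2 = z - 1 / 4 + emb 1 by rw [map_one]; ring,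
        show z + 1 / 4 + w / 2 = z + (1 + 2 * w) / 4 by ring,
        show z + 1 / 4 + w ^ 2 / 2 = z - (1 + 2 * w) / 4 by linear_combination CUL.w2 / 2, CUL.ez_add_emb]
    rw [e1]
    have hk := Q3V.kq_quart h
    have h1 := c2a_kq_eq h2
    have h3 := Q3V.kq_ne h
    have hD := c2a_D2_ne h
    have hy := Q3V.off_y h2
    have hp := ph_ne
    apply mul_left_cancel₀ h3
    rw [hk]
    field_simp
    linear_combination (-Q3V.k1 ^ 2) * h1

theorem c2b_nl_w {v : ℂ} (h : Nl v) : Nl (w * v) := by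
  rintro ⟨a, ha⟩
  apply h
  refine ⟨om * om * a, ?_⟩
  rw [map_mul, map_mul, CUL.emb_om, ha]
  linear_combination v * CUL.w3

theorem c2b_x {v : ℂ} (h : Nl (4 * v)) : xw (2 * v) - w * e2 ≠ 0 ∧ xw (2 * v) - w ^ 2 * e2 ≠ 0 := by
  have h4 : Nl (2 * (2 * v)) := by rw [← mul_assoc]; norm_num; exact h
  have h2 : Nl (2 * v) := Q3V.off_nl h4
  have h5 := Q3V.half_ne h2 Q3V.nl_hw Q3V.two_hw (Q3V.off_half h4 Q3V.two_hw)
  have h6 := Q3V.half_ne h2 Q3V.nl_hw2 Q3V.two_hw2 (Q3V.off_half h4 Q3V.two_hw2)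
  rw [Q3V.x1_w] at h5
  rw [Q3V.x1_w2] at h6
  exact ⟨h5, h6⟩

theorem c2b_kw {v : ℂ} (h : Nl (4 * v)) : kq (w * v) ^ 2 = 4 * w * (xw (2 * v) - w ^ 2 * e2) := by
  have h1 : Nl (2 * v) := Q3V.nl_half_eis h
  have h2 : Nl (2 * (w * v)) := by
    have := c2b_nl_w h1
    rwa [show w * (2 * v) = 2 * (w * v) by ring] at this
  rw [Q3V.kq_sq h2, show 2 * (w * v) = w * (2 * v) by ring, xw_w, ← e2_eq]
  linear_combination (4 * e2) * CUL.w3

theorem c2b_kw2 {v : ℂ} (h : Nl (4 * v)) : kq (w ^ 2 * v) ^ 2 = 4 * w ^ 2 * (xw (2 * v) - w * e2) := by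
  have h1 : Nl (4 * (w * v)) := by
    have := c2b_nl_w h
    rwa [show w * (4 * v) = 4 * (w * v) by ring] at this
  have h2 := c2b_kw h1
  rw [show w * (w * v) = w ^ 2 * v by ring, show 2 * (w * v) = w * (2 * v) by ring, xw_w] at h2
  rw [h2]
  ring

theorem c2b_off {v : ℂ} {h : ℂ} (hv : Nl (4 * v)) (h2 : 4 * h ∈ Set.range emb) : Nl (4 * (v + h)) := by
  obtain ⟨a, ha⟩ := h2
  rw [mul_add, ← ha]
  exact hv.add_emb a

theorem c2b_four_w : 4 * (w / 4) ∈ Set.range emb := ⟨om, by rw [CUL.emb_om]; ring⟩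

theorem c2b_four_w2 : 4 * (w ^ 2 / 4) ∈ Set.range emb := ⟨om * om, by rw [map_mul, CUL.emb_om]; ring⟩

theorem c2b_alg {A B P R : ℂ} (hA : A ≠ 0) : (4 * (4 * (P * A * B) / (4 * A ^ 2) - R)) * A = 4 * P * B - 4 * R * A := by
  field_simp

theorem c2b_quart {v : ℂ} (h : Nl (4 * v)) :
    kq (v + w / 4) ^ 2 * (xw (2 * v) - w * e2) = 4 * e2 * (w - 1) * (xw (2 * v) - w ^ 2 * e2) := by
  have h4 : Nl (2 * (2 * v)) := by rw [← mul_assoc]; norm_num; exact h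
  have h2 : Nl (2 * v) := Q3V.off_nl h4
  obtain ⟨h5, h6⟩ := c2b_x h
  have h7 : Nl (2 * (v + w / 4)) := Q3V.nl_half_eis (c2b_off h c2b_four_w)
  rw [Q3V.kq_sq h7, show 2 * (v + w / 4) = 2 * v + w / 2 by ring,
    Q3V.xw_add_half h2 Q3V.nl_hw Q3V.two_hw (Q3V.off_half h4 Q3V.two_hw), weq _ h2, Q3V.fac, Q3V.x1_w, ← e2_eq]
  generalize xw (2 * v) = x at h5 h6 ⊢
  have h8 := c2b_alg (P := x - e2) (B := x - w ^ 2 * e2) (R := x + w * e2 + e2) h5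
  linear_combination h8 + (-(4 * x * e2)) * CUL.w2 + (4 * e2 ^ 2) * CUL.w2 + (4 * e2 ^ 2) * CUL.w3

theorem c2b_quart2 {v : ℂ} (h : Nl (4 * v)) :
    kq (v + w ^ 2 / 4) ^ 2 * (xw (2 * v) - w ^ 2 * e2) = 4 * e2 * (w ^ 2 - 1) * (xw (2 * v) - w * e2) := by
  have h4 : Nl (2 * (2 * v)) := by rw [← mul_assoc]; norm_num; exact h
  have h2 : Nl (2 * v) := Q3V.off_nl h4
  obtain ⟨h5, h6⟩ := c2b_x h
  have h7 : Nl (2 * (v + w ^ 2 / 4)) := Q3V.nl_half_eis (c2b_off h c2b_four_w2)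
  rw [Q3V.kq_sq h7, show 2 * (v + w ^ 2 / 4) = 2 * v + w ^ 2 / 2 by ring,
    Q3V.xw_add_half h2 Q3V.nl_hw2 Q3V.two_hw2 (Q3V.off_half h4 Q3V.two_hw2), weq _ h2, Q3V.fac, Q3V.x1_w2, ← e2_eq]
  generalize xw (2 * v) = x at h5 h6 ⊢
  have h8 := c2b_alg (P := x - e2) (B := x - w * e2) (R := x + w ^ 2 * e2 + e2) h6
  linear_combination h8 + (-(4 * x * e2)) * CUL.w2 + (4 * e2 ^ 2) * CUL.w2 + (4 * e2 ^ 2 * (1 + w)) * CUL.w3

theorem c2b_cont_w : ContinuousOn (fun v => kq (w * v)) {v : ℂ | Nl (4 * v)} := by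
  intro v hv
  have h1 : Nl (2 * (w * v)) := by
    have := c2b_nl_w (Q3V.nl_half_eis hv)
    rwa [show w * (2 * v) = 2 * (w * v) by ring] at this
  have h2 : ContinuousAt kq (w * v) := (Q3V.kq_diff h1).continuousAt
  exact (ContinuousAt.comp (g := kq) (f := fun v => w * v) h2 (by fun_prop)).continuousWithinAt

theorem c2b_cont_w2 : ContinuousOn (fun v => kq (w ^ 2 * v)) {v : ℂ | Nl (4 * v)} := by
  intro v hv
  have h0 := c2b_nl_w (c2b_nl_w (Q3V.nl_half_eis hv))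
  have h1 : Nl (2 * (w ^ 2 * v)) := by
    rwa [show w * (w * (2 * v)) = 2 * (w ^ 2 * v) by ring] at h0
  have h2 : ContinuousAt kq (w ^ 2 * v) := (Q3V.kq_diff h1).continuousAt
  exact (ContinuousAt.comp (g := kq) (f := fun v => w ^ 2 * v) h2 (by fun_prop)).continuousWithinAt

theorem c2b_cont_add {h : ℂ} (h2 : 4 * h ∈ Set.range emb) : ContinuousOn (fun v => kq (v + h)) {v : ℂ | Nl (4 * v)} := by
  intro v hv
  have h1 : Nl (2 * (v + h)) := Q3V.nl_half_eis (c2b_off hv h2)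
  have h3 : ContinuousAt kq (v + h) := (Q3V.kq_diff h1).continuousAt
  exact (ContinuousAt.comp (g := kq) (f := fun v => v + h) h3 (by fun_prop)).continuousWithinAt

theorem c2b_ne_w {v : ℂ} (h : Nl (4 * v)) : kq (w * v) ≠ 0 := by
  have h1 := c2b_nl_w h
  rw [show w * (4 * v) = 4 * (w * v) by ring] at h1
  exact Q3V.kq_ne h1

theorem c2b_ne_w2 {v : ℂ} (h : Nl (4 * v)) : kq (w ^ 2 * v) ≠ 0 := by
  have h1 := c2b_nl_w (c2b_nl_w h)
  rw [show w * (w * (4 * v)) = 4 * (w ^ 2 * v) by ring] at h1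
  exact Q3V.kq_ne h1

theorem c2b_const {f g : ℂ → ℂ} {c : ℂ} (hc : c ≠ 0) (hf : ContinuousOn f {v : ℂ | Nl (4 * v)})
    (hg : ContinuousOn g {v : ℂ | Nl (4 * v)}) (hg0 : ∀ v, Nl (4 * v) → g v ≠ 0)
    (hfg : ∀ v, Nl (4 * v) → f v ^ 2 = c * g v ^ 2) :
    ∃ C : ℂ, C ^ 2 = c ∧ ∀ v, Nl (4 * v) → f v = C * g v := by
  obtain ⟨C, hC⟩ : ∃ C : ℂ, C ^ 2 = c := IsAlgClosed.exists_pow_nat_eq c (by norm_num)
  have hC0 : C ≠ 0 := by
    rintro rfl
    apply hc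
    rw [← hC]
    ring
  have h1 := Q3V.nl4_preconnected.eq_or_eq_neg_of_sq_eq (f := f) (g := fun v => C * g v) hf (hg.const_smul C |>.congr (fun v _ => by simp))
    (fun v hv => by
      have := hfg v hv
      simp only [Pi.pow_apply]
      rw [this, ← hC]
      ring)
    (fun {v} hv => mul_ne_zero hC0 (hg0 v hv))
  rcases h1 with h1 | h1
  · exact ⟨C, hC, fun v hv => h1 hv⟩
  · refine ⟨-C, by rw [← hC]; ring, fun v hv => ?_⟩
    have := h1 hv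
    simp only [Pi.neg_apply] at this
    rw [this]
    ring

theorem c2b_w1 : w - 1 ≠ 0 := by
  intro h
  have h1 : w = 1 := by linear_combination h
  have h2 := CUL.w2
  rw [h1] at h2
  norm_num at h2

theorem c2b_w21 : w ^ 2 - 1 ≠ 0 := by
  intro h
  have h2 := CUL.w2
  have h3 := CUL.w3
  have h1 : w = 1 := by linear_combination h3 - w * h
  rw [h1] at h2
  norm_num at h2

/-- [C2.3] `(kq (v + w/4) kq(w² v) / kq(w v))² = 4 e w (w - 1)` (a constant): `kq (v + w/4)² = 4 (x(2v + w/2) - e) = 4 (w e - e) (x(2v) - w² e)/(x(2v) - w e)`,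
`kq(w v)² = 4 (w x(2v) - e)`, `kq(w² v)² = 4 (w² x(2v) - e)`; the sign is constant on the connected set `{Nl (4 v)}`. -/
theorem kq_w4 : ∃ C : ℂ, C ^ 2 = 4 * e2 * w * (w - 1) ∧ ∀ v, Nl (4 * v) → kq (v + w / 4) * kq (w ^ 2 * v) = C * kq (w * v) := by
  refine c2b_const (f := fun v => kq (v + w / 4) * kq (w ^ 2 * v)) (g := fun v => kq (w * v))
    (mul_ne_zero (mul_ne_zero (mul_ne_zero (by norm_num) e2_ne) Q3V.w_ne) c2b_w1)
    ((c2b_cont_add c2b_four_w).mul c2b_cont_w2) c2b_cont_w (fun v hv => c2b_ne_w hv) ?_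
  intro v hv
  have h1 := c2b_quart hv
  have h2 := c2b_kw hv
  have h3 := c2b_kw2 hv
  rw [mul_pow, h3, h2]
  linear_combination (4 * w ^ 2) * h1

/-- `kq (v + w²/4)² = 4 (w² e - e) (x(2v) - w e)/(x(2v) - w² e)` -/
theorem kq_w24 : ∃ C : ℂ, C ^ 2 = 4 * e2 * (w ^ 2 - 1) * w ^ 2 ∧ ∀ v, Nl (4 * v) → kq (v + w ^ 2 / 4) * kq (w * v) = C * kq (w ^ 2 * v) := by
  refine c2b_const (f := fun v => kq (v + w ^ 2 / 4) * kq (w * v)) (g := fun v => kq (w ^ 2 * v))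
    (mul_ne_zero (mul_ne_zero (mul_ne_zero (by norm_num) e2_ne) c2b_w21) (pow_ne_zero 2 Q3V.w_ne))
    ((c2b_cont_add c2b_four_w2).mul c2b_cont_w) c2b_cont_w2 (fun v hv => c2b_ne_w2 hv) ?_
  intro v hv
  have h1 := c2b_quart2 hv
  have h2 := c2b_kw hv
  have h3 := c2b_kw2 hv
  rw [mul_pow, h3, h2]
  linear_combination (4 * w) * h1 - (16 * e2 * (w ^ 2 - 1) * w * (xw (2 * v) - w * e2)) * CUL.w3

/-- [C2.4] `W(z) = w kq (w z + w/4)` (`ez (w z) = w² ez z`), `kq_w4` with `v = w z`; `kq (w² z) = - 2 D₂(w ϕ, x)/(ϕ y)`, `kq z = - 2 D₂(ϕ, x)/(ϕ y)`; `C² = 4 e (w - 1)`. -/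
theorem W2_w : ∃ C : ℂ, C ^ 2 = ph ^ 4 * (1 - w) ∧ ∀ z, Nl (4 * z) →
    ez (z + 1 / 4) - ez (z - 1 / 4) - ez (z + (1 + 2 * w) / 4) + ez (z - (1 + 2 * w) / 4) = C * (D2 (w * ph) (xw z) / D2 ph (xw z)) := by
  obtain ⟨C, hC, h⟩ := kq_w4
  refine ⟨w * C, ?_, ?_⟩
  · have h3 := CUL.w3
    have hp : ph = 2 * e2 := rfl
    have hc := ph_cube
    rw [mul_pow, hC]
    linear_combination (4 * e2 * (w - 1)) * h3 + 2 * (1 - w) * hp - ph * (1 - w) * hc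
  · intro z hz
    have h2 : Nl (2 * z) := Q3V.nl_half_eis hz
    have e1 : ez (z + 1 / 4) - ez (z - 1 / 4) - ez (z + (1 + 2 * w) / 4) + ez (z - (1 + 2 * w) / 4) =
        w * kq (w * z + w / 4) := by
      unfold kq
      rw [show w * z + w / 4 + 1 / 2 = w * (z - (1 + 2 * w) / 4) by
          linear_combination (1 / 2 : ℂ) * CUL.w2,
        show w * z + w / 4 + w / 2 = w * (z - 1 / 4 + emb 1) by rw [map_one]; ring,
        show w * z + w / 4 + w ^ 2 / 2 = w * (z + (1 + 2 * w) / 4) by ring,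
        show w * z + w / 4 = w * (z + 1 / 4) by ring, CUL.ez_w, CUL.ez_w, CUL.ez_w, CUL.ez_w, CUL.ez_add_emb]
      linear_combination (-(ez (z + 1 / 4) - ez (z - 1 / 4) - ez (z + (1 + 2 * w) / 4) + ez (z - (1 + 2 * w) / 4))) * CUL.w3
    rw [e1]
    have h4 : Nl (4 * (w * z)) := by
      have := c2b_nl_w hz
      rwa [show w * (4 * z) = 4 * (w * z) by ring] at this
    have h5 := h (w * z) h4
    rw [show w ^ 2 * (w * z) = z by linear_combination z * CUL.w3, show w * (w * z) = w ^ 2 * z by ring] at h5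
    have h6 : Nl (2 * (w ^ 2 * z)) := by
      have := c2b_nl_w (c2b_nl_w h2)
      rwa [show w * (w * (2 * z)) = 2 * (w ^ 2 * z) by ring] at this
    have h7 := c2a_kq_eq h6
    have h8 := c2a_kq_eq h2
    have ex : xw (w ^ 2 * z) = w ^ 2 * xw z := by
      rw [show w ^ 2 * z = w * (w * z) by ring, xw_w, xw_w]
      ring
    have ey : yw (w ^ 2 * z) = yw z := by
      rw [show w ^ 2 * z = w * (w * z) by ring, yw_w, yw_w]
    have eD : D2 ph (w ^ 2 * xw z) = D2 (w * ph) (xw z) := by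
      unfold D2
      linear_combination (ph * xw z ^ 2 * w) * CUL.w3
    rw [ex, ey, eD] at h7
    have hD := c2a_D2_ne hz
    have hy := Q3V.off_y h2
    have hp := ph_ne
    have hk := Q3V.kq_ne hz
    have h9 : kq (w * z + w / 4) * D2 ph (xw z) = C * D2 (w * ph) (xw z) := by
      linear_combination (-1 / 2 : ℂ) * ((ph * yw z) * h5 - kq (w * z + w / 4) * h8 + C * h7)
    rw [← mul_div_assoc, eq_div_iff hD]
    linear_combination w * h9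

/-- [C2.5] `W(z) = w² kq (w² z + w²/4)`, `kq_w24` with `v = w² z`; `kq (w z) = - 2 D₂(w² ϕ, x)/(ϕ y)`; `C² = 4 e (w² - 1)`. -/
theorem W2_w2 : ∃ C : ℂ, C ^ 2 = ph ^ 4 * (1 - w ^ 2) ∧ ∀ z, Nl (4 * z) →
    ez (z + 1 / 4) - ez (z - 1 / 4) + ez (z + (1 + 2 * w) / 4) - ez (z - (1 + 2 * w) / 4) = C * (D2 (w ^ 2 * ph) (xw z) / D2 ph (xw z)) := by
  obtain ⟨C, hC, h⟩ := kq_w24
  refine ⟨w ^ 2 * C, ?_, ?_⟩
  · have h3 := CUL.w3
    have hp : ph = 2 * e2 := rfl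
    have hc := ph_cube
    rw [mul_pow, hC]
    linear_combination (4 * e2 * (w ^ 2 - 1) * (w ^ 3 + 1)) * h3 + 2 * (1 - w ^ 2) * hp - ph * (1 - w ^ 2) * hc
  · intro z hz
    have h2 : Nl (2 * z) := Q3V.nl_half_eis hz
    have ezw2 : ∀ u, ez (w ^ 2 * u) = w * ez u := by
      intro u
      rw [show w ^ 2 * u = w * (w * u) by ring, CUL.ez_w, CUL.ez_w]
      linear_combination (w * ez u) * CUL.w3
    have e1 : ez (z + 1 / 4) - ez (z - 1 / 4) + ez (z + (1 + 2 * w) / 4) - ez (z - (1 + 2 * w) / 4) =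
        w ^ 2 * kq (w ^ 2 * z + w ^ 2 / 4) := by
      unfold kq
      rw [show w ^ 2 * z + w ^ 2 / 4 + 1 / 2 = w ^ 2 * (z + (1 + 2 * w) / 4) by
          linear_combination (-1 / 2 : ℂ) * CUL.w3,
        show w ^ 2 * z + w ^ 2 / 4 + w / 2 = w ^ 2 * (z - (1 + 2 * w) / 4) by
          linear_combination (1 / 2 : ℂ) * CUL.w2 + (1 / 2 : ℂ) * CUL.w3,
        show w ^ 2 * z + w ^ 2 / 4 + w ^ 2 / 2 = w ^ 2 * (z - 1 / 4 + emb 1) by rw [map_one]; ring,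
        show w ^ 2 * z + w ^ 2 / 4 = w ^ 2 * (z + 1 / 4) by ring, ezw2, ezw2, ezw2, ezw2, CUL.ez_add_emb]
      linear_combination (-(ez (z + 1 / 4) - ez (z - 1 / 4) + ez (z + (1 + 2 * w) / 4) - ez (z - (1 + 2 * w) / 4))) * CUL.w3
    rw [e1]
    have h4 : Nl (4 * (w ^ 2 * z)) := by
      have := c2b_nl_w (c2b_nl_w hz)
      rwa [show w * (w * (4 * z)) = 4 * (w ^ 2 * z) by ring] at this
    have h5 := h (w ^ 2 * z) h4
    rw [show w * (w ^ 2 * z) = z by linear_combination z * CUL.w3,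
      show w ^ 2 * (w ^ 2 * z) = w * z by linear_combination (w * z) * CUL.w3] at h5
    have h6 : Nl (2 * (w * z)) := by
      have := c2b_nl_w h2
      rwa [show w * (2 * z) = 2 * (w * z) by ring] at this
    have h7 := c2a_kq_eq h6
    have h8 := c2a_kq_eq h2
    have eD : D2 ph (w * xw z) = D2 (w ^ 2 * ph) (xw z) := by
      unfold D2
      linear_combination (-(ph ^ 2 * xw z * w)) * CUL.w3 * (-1)
    rw [xw_w, yw_w, eD] at h7
    have hD := c2a_D2_ne hz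
    have h9 : kq (w ^ 2 * z + w ^ 2 / 4) * D2 ph (xw z) = C * D2 (w ^ 2 * ph) (xw z) := by
      linear_combination (-1 / 2 : ℂ) * ((ph * yw z) * h5 - kq (w ^ 2 * z + w ^ 2 / 4) * h8 + C * h7)
    rw [← mul_div_assoc, eq_div_iff hD]
    linear_combination w ^ 2 * h9

end J2L
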