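import Pool.Agent.J2L.C2

/-!
# [J2L-C3] closed forms for `n = 3`

`c = x(1/4) = e (1 + aa)`, `c' = x(r/4) = e (1 - aa)`, `aa² = 3`, `r = 1 + 2 w`; `k1 = kq (1/8)`, `k2 = kq (r/8)`, `k1² = 4 e aa`, `k2² = - k1²`, `k1 k2 = - 4 r e` (`Q3V.th_eq'`).
`X = x(2z)`. Result:
 `kq (z + 1/8) + kq (z - 1/8) = μ c h/(X - c)`, `kq (z + r/8) + kq (z - r/8) = μ c' h/(X - c')`, `μ² = 24`;
 `kq (z + 1/8) - kq (z - 1/8) = 2 ε k1 h' h''/(X - c)`, `kq (z + r/8) - kq (z - r/8) = 2 ε k2 h' h''/(X - c')`, `ε = ± 1`,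
with `h = hT z`, `h' h'' = D₂(wϕ, x) D₂(w²ϕ, x)/(ϕ² y²)`, `(h' h'')² = (X - w e)(X - w² e)`.
-/

set_option autoImplicit false

open scoped Classical

namespace J2L

open CM27

open CU (om)

open CUL (Nl ez)

open Q3V (OT kq k1 k2 aa)

/-- `h' h''` -/
noncomputable def hh (z : ℂ) : ℂ := D2 (w * ph) (xw z) * D2 (w ^ 2 * ph) (xw z) / (ph ^ 2 * yw z ^ 2)

/-- [C3.0] constants -/
theorem x_r4 : xw ((1 + 2 * w) / 4) = e2 * (1 - aa) := by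
  have a1 := Q3V.off_half Q3V.nl_quart Q3V.two_hw
  have hv := Q3V.off_nl Q3V.nl_quart
  have d1 := Q3V.half_ne hv Q3V.nl_hw Q3V.two_hw a1
  have h := Q3V.xw_add_half hv Q3V.nl_hw Q3V.two_hw a1
  have h2 := CUL.w2
  have h3 := Q3V.x1_cube
  have h4 := Q3V.aa_sq
  have e : (1 + 2 * w) / 4 = 1 / 4 + w / 2 := by ring
  rw [e, h, e2_eq]
  rw [Q3V.x1_w, Q3V.x4_eq] at d1 ⊢
  rw [Q3V.y4_sq]
  have d2 : 4 * (Q3V.x1 * (1 + aa) - w * Q3V.x1) ^ 2 ≠ 0 := mul_ne_zero (by norm_num) (pow_ne_zero 2 d1)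
  have key : -(9 + 6 * aa) = 4 * (Q3V.x1 * (1 + aa) - w * Q3V.x1) ^ 2 * (Q3V.x1 * (1 - aa) + Q3V.x1 * (1 + aa) + w * Q3V.x1) := by
    have e1 : 4 * (Q3V.x1 * (1 + aa) - w * Q3V.x1) ^ 2 * (Q3V.x1 * (1 - aa) + Q3V.x1 * (1 + aa) + w * Q3V.x1) =
        4 * Q3V.x1 ^ 3 * ((1 + aa - w) ^ 2 * (2 + w)) := by ring
    have e2' : (1 + aa - w) ^ 2 * (2 + w) = 9 + 6 * aa := by
      have e3 : w ^ 3 = 1 := CUL.w3
      linear_combination (2 + w) * h4 + (-2 * aa) * h2 + e3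
    rw [e1, e2', h3]
    ring
  have h5 : -(9 + 6 * aa) / (4 * (Q3V.x1 * (1 + aa) - w * Q3V.x1) ^ 2) = Q3V.x1 * (1 - aa) + Q3V.x1 * (1 + aa) + w * Q3V.x1 := by
    rw [div_eq_iff d2, key]
    ring
  rw [h5]
  ring

theorem k1_sq : k1 ^ 2 = 4 * e2 * aa := by
  have h0 : Nl (2 * (1 / 8 : ℂ)) := Q3V.off_nl (by
    rw [← mul_assoc]
    norm_num
    exact Q3V.nl_half)
  have h := Q3V.kq_sq h0
  rw [show (2 : ℂ) * (1 / 8) = 1 / 4 by norm_num, Q3V.x4_eq] at h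
  have e : k1 ^ 2 = kq (1 / 8) ^ 2 := rfl
  rw [e, h, e2_eq]
  ring

theorem k12 : k1 * k2 = -4 * (1 + 2 * w) * e2 := Q3V.th_eq'

theorem k2_sq' : k2 ^ 2 = -(4 * e2 * aa) := by
  have h := Q3V.k2_sq
  rw [← Q3V.k1, ← Q3V.k2, k1_sq] at h
  exact h

theorem c3a_r : (1 + 2 * w : ℂ) ^ 2 = -3 := Q3V.s3_sq

theorem c3a_ne : (1 + 2 * w : ℂ) ≠ 0 := by
  intro h
  have := c3a_r
  rw [h] at this
  norm_num at this

theorem c3a_k12_ne : k1 * k2 ≠ 0 := mul_ne_zero Q3V.k1_ne Q3V.k2_ne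

theorem c3a_add : k1 + k2 ≠ 0 := by
  intro h
  have h1 := k1_sq
  have h2 := k2_sq'
  have h3 : (k1 + k2) ^ 2 = 2 * (k1 * k2) := by linear_combination h1 + h2
  rw [h] at h3
  apply c3a_k12_ne
  linear_combination -h3 / 2

theorem c3a_sub : k1 - k2 ≠ 0 := by
  intro h
  have h1 := k1_sq
  have h2 := k2_sq'
  have h3 : (k1 - k2) ^ 2 = -2 * (k1 * k2) := by linear_combination h1 + h2
  rw [h] at h3
  apply c3a_k12_ne
  linear_combination h3 / 2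

/-- `aa (k1 - k2) = r (k1 + k2)`, `aa (k1 + k2) = - r (k1 - k2)`: multiply by `k1 + k2`, resp. `k1 - k2` (not `0`: `(k1 + k2)² = 2 k1 k2`). -/
theorem k_rel1 : aa * (k1 - k2) = (1 + 2 * w) * (k1 + k2) := by
  have h1 := k1_sq
  have h2 := k2_sq'
  have h3 := k12
  have h4 := Q3V.aa_sq
  have h5 := c3a_r
  apply mul_right_cancel₀ c3a_add
  linear_combination (aa - (1 + 2 * w)) * h1 - (aa + (1 + 2 * w)) * h2 - 2 * (1 + 2 * w) * h3 + 8 * e2 * h4 + 8 * e2 * h5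

theorem k_rel2 : aa * (k1 + k2) = -(1 + 2 * w) * (k1 - k2) := by
  have h1 := k1_sq
  have h2 := k2_sq'
  have h3 := k12
  have h4 := Q3V.aa_sq
  have h5 := c3a_r
  apply mul_right_cancel₀ c3a_sub
  linear_combination (aa + (1 + 2 * w)) * h1 + ((1 + 2 * w) - aa) * h2 - 2 * (1 + 2 * w) * h3 + 8 * e2 * h4 + 8 * e2 * h5

/-- the square of `D2` -/
theorem c3a_D2 {T z : ℂ} (hT : T ^ 3 = -2) (h : Nl (2 * z)) :
    D2 T (xw z) ^ 2 = T ^ 2 * yw z ^ 2 * (xw (2 * z) - T / 2) := by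
  have h1 := xw_two_eq h
  have hy := Q3V.off_y h
  have hw := weq z (Q3V.off_nl h)
  have h2 : yw z ^ 2 * xw (2 * z) = xw z * (xw z ^ 3 - 2) := by
    rw [h1]
    field_simp
  have e : T ^ 2 * yw z ^ 2 * (xw (2 * z) - T / 2) = T ^ 2 * (yw z ^ 2 * xw (2 * z)) - T ^ 3 / 2 * yw z ^ 2 := by ring
  rw [e, h2, hw, hT]
  unfold D2
  linear_combination (T * xw z ^ 2 - 2 * xw z ^ 3) * hT

/-- [C3.1] `(h' h'')² = (X - w e)(X - w² e)`: rotate `hT_sq`, or directly with `xw_two_eq`, `weq`. -/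
theorem hh_sq {z : ℂ} (h : Nl (2 * z)) : hh z ^ 2 = (xw (2 * z) - w * e2) * (xw (2 * z) - w ^ 2 * e2) := by
  have h1 := c3a_D2 wph_cube h
  have h2 := c3a_D2 w2ph_cube h
  have hy := Q3V.off_y h
  have hp := ph_ne
  have h3 := CUL.w3
  have e1 : w * ph / 2 = w * e2 := by unfold ph; ring
  have e2' : w ^ 2 * ph / 2 = w ^ 2 * e2 := by unfold ph; ring
  rw [e1] at h1
  rw [e2'] at h2
  have hd : ph ^ 2 * yw z ^ 2 ≠ 0 := mul_ne_zero (pow_ne_zero 2 hp) (pow_ne_zero 2 hy)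
  rw [hh, div_pow, mul_pow, h1, h2, div_eq_iff (pow_ne_zero 2 hd)]
  linear_combination (ph ^ 4 * yw z ^ 4 * (xw (2 * z) - w * e2) * (xw (2 * z) - w ^ 2 * e2) * (w ^ 3 + 1)) * h3

/-- `h h' h'' = - y(2z)/2`, up to sign (`D2_norm`, `yw_two'`): `D₂ D₂' D₂''= 1 - 10 x³ - 2 x⁶`, `ϕ³ = -2` -/
theorem h_hh {z : ℂ} (h : Nl (2 * z)) : 2 * (hT z * hh z) = yw (2 * z) := by
  have hy := Q3V.off_y h
  have hp := ph_ne
  have h3 := ph_cube
  have hN := D2_norm (xw z)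
  have h1 : yw (2 * z) = (2 * xw z ^ 6 + 10 * xw z ^ 3 - 1) / yw z ^ 3 := TH.yw_two' z h
  rw [h1, hT_eq h, hh]
  have e : 2 * (D2 ph (xw z) / (ph * yw z) * (D2 (w * ph) (xw z) * D2 (w ^ 2 * ph) (xw z) / (ph ^ 2 * yw z ^ 2))) =
      2 * (D2 ph (xw z) * (D2 (w * ph) (xw z) * D2 (w ^ 2 * ph) (xw z))) / (ph ^ 3 * yw z ^ 3) := by
    field_simp
  rw [e, hN, h3, div_eq_div_iff (mul_ne_zero (by norm_num) (pow_ne_zero 3 hy)) (pow_ne_zero 3 hy)]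
  ring

private theorem c3b_countable : (Set.range (emb : Eis → ℂ)).Countable := by
  have h : Set.range (emb : Eis → ℂ) ⊆ Set.range (fun p : ℤ × ℤ => emb ⟨p.1, p.2⟩) := by
    rintro _ ⟨a, rfl⟩
    exact ⟨(a.re, a.im), rfl⟩
  exact (Set.countable_range _).mono h

private theorem c3b_dense : Dense {v : ℂ | Nl (4 * v)} := by
  have h : ({v : ℂ | 4 * v ∈ Set.range (emb : Eis → ℂ)} : Set ℂ).Countable :=
    c3b_countable.preimage_of_injOn (f := fun v : ℂ => 4 * v) (by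
      intro x _ y _ hxy
      exact mul_left_cancel₀ (by norm_num : (4 : ℂ) ≠ 0) hxy)
  have h2 := h.dense_compl ℂ
  exact h2

/-- [C3.2] `kq v kq (v + 1/4) = - k1²` also at the points with `4 v ∈ ℤ[w]` (from `Q3V.kq_quart` by continuity (`Q3V.kq_diff`); the set `{Nl (4 v)}` is dense:
its complement is countable). Also `kq (v + r/4) = - kq (v + 1/4)` (`Q3V.kq_hw`). -/
theorem kq_quart' {v : ℂ} (h1 : Nl (2 * v)) (h2 : Nl (2 * v + 1 / 2)) : kq v * kq (v + 1 / 4) = -k1 ^ 2 := by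
  have hc1 : ContinuousAt kq v := (Q3V.kq_diff h1).continuousAt
  have h3 : Nl (2 * (v + 1 / 4)) := by
    have e : 2 * (v + 1 / 4) = 2 * v + 1 / 2 := by ring
    rw [e]; exact h2
  have hc2 : ContinuousAt (fun u : ℂ => kq (u + 1 / 4)) v := by
    have h4 : ContinuousAt kq (v + 1 / 4) := (Q3V.kq_diff h3).continuousAt
    exact ContinuousAt.comp (f := fun u : ℂ => u + 1 / 4) h4 (continuousAt_id.add continuousAt_const)
  have hc : ContinuousAt (fun u : ℂ => kq u * kq (u + 1 / 4)) v := hc1.mul hc2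
  have hne : (nhdsWithin v {u : ℂ | Nl (4 * u)}).NeBot :=
    mem_closure_iff_nhdsWithin_neBot.mp (c3b_dense v)
  have ht1 : Filter.Tendsto (fun u : ℂ => kq u * kq (u + 1 / 4)) (nhdsWithin v {u : ℂ | Nl (4 * u)})
      (nhds (kq v * kq (v + 1 / 4))) := hc.tendsto.mono_left nhdsWithin_le_nhds
  have ht2 : Filter.Tendsto (fun u : ℂ => kq u * kq (u + 1 / 4)) (nhdsWithin v {u : ℂ | Nl (4 * u)})
      (nhds (-k1 ^ 2)) := by
    refine Filter.Tendsto.congr' ?_ tendsto_const_nhds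
    filter_upwards [self_mem_nhdsWithin] with u hu
    exact (Q3V.kq_quart hu).symm
  exact tendsto_nhds_unique ht1 ht2

/-- [C3.3] `x(u + v) + x(u - v) = (1 + 2 x(v) x(u)² + 2 x(v)² x(u))/(x(u) - x(v))²` (`CUL.xw_sum`, `weq`). -/
theorem x_pm {u v : ℂ} (hu : Nl u) (hv : Nl v) (h1 : Nl (u + v)) (h2 : Nl (u - v)) :
    (xw (u + v) + xw (u - v)) * (xw u - xw v) ^ 2 = 1 + 2 * xw v * xw u ^ 2 + 2 * xw v ^ 2 * xw u := by
  have hne : xw u ≠ xw v := by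
    intro h
    rcases (xw_eq_iff u v hu hv).mp h with h' | h'
    · exact h2 h'
    · exact h1 h'
  have hne' : xw u ≠ xw (-v) := by rwa [xw_neg]
  have e1 := CUL.xw_sum hu hv h1 hne
  have e2 := CUL.xw_sum hu hv.neg (by rwa [← sub_eq_add_neg]) hne'
  rw [← sub_eq_add_neg, xw_neg, yw_neg] at e2
  have hu2 := weq u hu
  have hv2 := weq v hv
  have hd : xw u - xw v ≠ 0 := sub_ne_zero.mpr hne
  rw [e1, e2]
  field_simp
  linear_combination 2 * hu2 + 2 * hv2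

/-- the domains -/
def U1 (z : ℂ) : Prop := Nl (4 * z) ∧ Nl (2 * z + 1 / 4) ∧ Nl (2 * z - 1 / 4)

def Ur (z : ℂ) : Prop := Nl (4 * z) ∧ Nl (2 * z + (1 + 2 * w) / 4) ∧ Nl (2 * z - (1 + 2 * w) / 4)

/-- the data at `z ± 1/8` -/
theorem c3c_one {z : ℂ} (h : U1 z) : kq (z + 1 / 8) ^ 2 = 4 * (xw (2 * z + 1 / 4) - e2) ∧
    kq (z - 1 / 8) ^ 2 = 4 * (xw (2 * z - 1 / 4) - e2) ∧ kq (z + 1 / 8) * kq (z - 1 / 8) = -k1 ^ 2 ∧
    (xw (2 * z + 1 / 4) + xw (2 * z - 1 / 4)) * (xw (2 * z) - xw (1 / 4)) ^ 2 =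
      1 + 2 * xw (1 / 4) * xw (2 * z) ^ 2 + 2 * xw (1 / 4) ^ 2 * xw (2 * z) := by
  obtain ⟨h4, hp, hm⟩ := h
  have ep : 2 * (z + 1 / 8) = 2 * z + 1 / 4 := by ring
  have em : 2 * (z - 1 / 8) = 2 * z - 1 / 4 := by ring
  refine ⟨?_, ?_, ?_, ?_⟩
  · have := Q3V.kq_sq (v := z + 1 / 8) (by rw [ep]; exact hp)
    rwa [ep] at this
  · have := Q3V.kq_sq (v := z - 1 / 8) (by rw [em]; exact hm)
    rwa [em] at this
  · have := kq_quart' (v := z - 1 / 8) (by rw [em]; exact hm)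
      (by rw [em, show 2 * z - 1 / 4 + 1 / 2 = 2 * z + 1 / 4 by ring]; exact hp)
    rw [show z - 1 / 8 + 1 / 4 = z + 1 / 8 by ring] at this
    rw [mul_comm]
    exact this
  · exact x_pm (Q3V.nl_half_eis h4) (Q3V.off_nl Q3V.nl_quart) hp hm

/-- the data at `z ± r/8` -/
theorem c3c_r {z : ℂ} (h : Ur z) : kq (z + (1 + 2 * w) / 8) ^ 2 = 4 * (xw (2 * z + (1 + 2 * w) / 4) - e2) ∧
    kq (z - (1 + 2 * w) / 8) ^ 2 = 4 * (xw (2 * z - (1 + 2 * w) / 4) - e2) ∧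
    kq (z + (1 + 2 * w) / 8) * kq (z - (1 + 2 * w) / 8) = k1 ^ 2 ∧
    (xw (2 * z + (1 + 2 * w) / 4) + xw (2 * z - (1 + 2 * w) / 4)) * (xw (2 * z) - xw ((1 + 2 * w) / 4)) ^ 2 =
      1 + 2 * xw ((1 + 2 * w) / 4) * xw (2 * z) ^ 2 + 2 * xw ((1 + 2 * w) / 4) ^ 2 * xw (2 * z) := by
  obtain ⟨h4, hp, hm⟩ := h
  have ep : 2 * (z + (1 + 2 * w) / 8) = 2 * z + (1 + 2 * w) / 4 := by ring
  have em : 2 * (z - (1 + 2 * w) / 8) = 2 * z - (1 + 2 * w) / 4 := by ring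
  refine ⟨?_, ?_, ?_, ?_⟩
  · have := Q3V.kq_sq (v := z + (1 + 2 * w) / 8) (by rw [ep]; exact hp)
    rwa [ep] at this
  · have := Q3V.kq_sq (v := z - (1 + 2 * w) / 8) (by rw [em]; exact hm)
    rwa [em] at this
  · have e1 : 2 * z - (1 + 2 * w) / 4 + 1 / 2 = 2 * z + (1 + 2 * w) / 4 + emb (-om) := by
      rw [map_neg, CUL.emb_om]
      ring
    have := kq_quart' (v := z - (1 + 2 * w) / 8) (by rw [em]; exact hm)
      (by rw [em, e1]; exact hp.add_emb _)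
    have h5 := Q3V.kq_hw (z - (1 + 2 * w) / 8 + 1 / 4)
    rw [show z - (1 + 2 * w) / 8 + 1 / 4 + w / 2 = z + (1 + 2 * w) / 8 by ring] at h5
    rw [h5]
    linear_combination -this
  · have hr : Nl ((1 + 2 * w) / 4) := by
      have := Q3V.off_half Q3V.nl_quart Q3V.two_hw
      rwa [show (1 / 4 : ℂ) + w / 2 = (1 + 2 * w) / 4 by ring] at this
    exact x_pm (Q3V.nl_half_eis h4) hr hp hm

theorem c3c_quart : xw (1 / 4) = e2 * (1 + aa) := Q3V.x4_eq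

theorem c3c_alg {a e X P : ℂ} (ha : a ^ 2 = 3) (he : e ^ 3 = -(1 / 4))
    (h : P * (X - e * (1 + a)) ^ 2 = 1 + 2 * (e * (1 + a)) * X ^ 2 + 2 * (e * (1 + a)) ^ 2 * X) :
    (4 * P - 8 * e - 8 * e * a) * (X - e * (1 + a)) ^ 2 = 24 * (e * (1 + a)) ^ 2 * (X - e) ∧
    (4 * P - 8 * e + 8 * e * a) * (X - e * (1 + a)) ^ 2 = 4 * (4 * e * a) * ((X - w * e) * (X - w ^ 2 * e)) := by
  have h2 : w ^ 2 = -1 - w := CUL.w2
  have h3 : w ^ 3 = 1 := CUL.w3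
  constructor
  · linear_combination 4 * h + (-8 * (1 + a) ^ 3 + 24 * (1 + a) ^ 2) * he + 2 * (a + 0) * ha
  · linear_combination 4 * h + (-8 * (1 - a) * (1 + a) ^ 2 - 16 * a) * he + (-8 * e ^ 2 * X - 2 * (1 + a)) * ha +
      16 * e ^ 2 * a * X * h2 - 16 * e ^ 3 * a * h3

/-- [C3.4] the squares: `kq (z ± 1/8)² = 4 (x(2z ± 1/4) - e)` (`Q3V.kq_sq`), `kq (z + 1/8) kq (z - 1/8) = - k1²` (`kq_quart'` with `v = z - 1/8`), `x_pm`, `k1_sq`, `e³ = -1/4`. -/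
theorem sq_p {z : ℂ} (h : U1 z) : (kq (z + 1 / 8) + kq (z - 1 / 8)) ^ 2 * (xw (2 * z) - xw (1 / 4)) ^ 2 =
    24 * xw (1 / 4) ^ 2 * (xw (2 * z) - e2) := by
  obtain ⟨h1, h2, h3, h4⟩ := c3c_one h
  have e : (kq (z + 1 / 8) + kq (z - 1 / 8)) ^ 2 = 4 * (xw (2 * z + 1 / 4) + xw (2 * z - 1 / 4)) - 8 * e2 - 8 * e2 * aa := by
    have h5 := k1_sq
    linear_combination h1 + h2 + 2 * h3 - 2 * h5
  rw [e, c3c_quart]
  rw [c3c_quart] at h4
  exact (c3c_alg Q3V.aa_sq e2_cube h4).1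

theorem sq_m {z : ℂ} (h : U1 z) : (kq (z + 1 / 8) - kq (z - 1 / 8)) ^ 2 * (xw (2 * z) - xw (1 / 4)) ^ 2 =
    4 * k1 ^ 2 * ((xw (2 * z) - w * e2) * (xw (2 * z) - w ^ 2 * e2)) := by
  obtain ⟨h1, h2, h3, h4⟩ := c3c_one h
  have h5 := k1_sq
  have e : (kq (z + 1 / 8) - kq (z - 1 / 8)) ^ 2 = 4 * (xw (2 * z + 1 / 4) + xw (2 * z - 1 / 4)) - 8 * e2 + 8 * e2 * aa := by
    linear_combination h1 + h2 - 2 * h3 + 2 * h5
  rw [e, c3c_quart, h5]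
  rw [c3c_quart] at h4
  exact (c3c_alg Q3V.aa_sq e2_cube h4).2

/-- `kq (z + r/8) kq (z - r/8) = + k1² = - k2²` (`kq (v + r/4) = - kq (v + 1/4)`), `x_r4` -/
theorem sq_pr {z : ℂ} (h : Ur z) :
    (kq (z + (1 + 2 * w) / 8) + kq (z - (1 + 2 * w) / 8)) ^ 2 * (xw (2 * z) - xw ((1 + 2 * w) / 4)) ^ 2 =
    24 * xw ((1 + 2 * w) / 4) ^ 2 * (xw (2 * z) - e2) := by
  obtain ⟨h1, h2, h3, h4⟩ := c3c_r h
  have h5 := k1_sq
  have e : (kq (z + (1 + 2 * w) / 8) + kq (z - (1 + 2 * w) / 8)) ^ 2 =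
      4 * (xw (2 * z + (1 + 2 * w) / 4) + xw (2 * z - (1 + 2 * w) / 4)) - 8 * e2 - 8 * e2 * (-aa) := by
    linear_combination h1 + h2 + 2 * h3 + 2 * h5
  rw [x_r4, sub_eq_add_neg 1 aa] at h4 ⊢
  rw [e]
  exact (c3c_alg (by rw [neg_sq]; exact Q3V.aa_sq) e2_cube h4).1

theorem sq_mr {z : ℂ} (h : Ur z) :
    (kq (z + (1 + 2 * w) / 8) - kq (z - (1 + 2 * w) / 8)) ^ 2 * (xw (2 * z) - xw ((1 + 2 * w) / 4)) ^ 2 =
    4 * k2 ^ 2 * ((xw (2 * z) - w * e2) * (xw (2 * z) - w ^ 2 * e2)) := by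
  obtain ⟨h1, h2, h3, h4⟩ := c3c_r h
  have h5 := k1_sq
  have e : (kq (z + (1 + 2 * w) / 8) - kq (z - (1 + 2 * w) / 8)) ^ 2 =
      4 * (xw (2 * z + (1 + 2 * w) / 4) + xw (2 * z - (1 + 2 * w) / 4)) - 8 * e2 + 8 * e2 * (-aa) := by
    linear_combination h1 + h2 - 2 * h3 - 2 * h5
  rw [x_r4, sub_eq_add_neg 1 aa] at h4 ⊢
  rw [e, k2_sq']
  have h6 := (c3c_alg (by rw [neg_sq]; exact Q3V.aa_sq) e2_cube h4).2
  rw [h6]
  ring

theorem c3d_pre {a b c : ℂ} {u v x : ℂ} (ha : a ≠ 0) (hb : b ≠ 0) (hc : c ≠ 0) :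
    IsPreconnected {z : ℂ | Nl (a * z + u) ∧ Nl (b * z + v) ∧ Nl (c * z + x)} := by
  have h1 := Q3V.nlc_countable ha u
  have h2 := Q3V.nlc_countable hb v
  have h3 := Q3V.nlc_countable hc x
  have h4 := a2_preconnected (h1.union (h2.union h3))
  convert h4 using 1
  ext z
  simp only [Set.mem_ofPred_eq, Set.mem_compl_iff, Set.mem_union, not_or, not_not]

theorem c3d_preU : IsPreconnected {z : ℂ | U1 z} := by
  have h := c3d_pre (a := 4) (b := 2) (c := 2) (u := 0) (v := 1 / 4) (x := -(1 / 4)) (by norm_num) (by norm_num) (by norm_num)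
  convert h using 1
  ext z
  simp only [U1, Set.mem_ofPred_eq, add_zero, sub_eq_add_neg]

theorem c3d_preR : IsPreconnected {z : ℂ | Ur z} := by
  have h := c3d_pre (a := 4) (b := 2) (c := 2) (u := 0) (v := (1 + 2 * w) / 4) (x := -((1 + 2 * w) / 4)) (by norm_num)
    (by norm_num) (by norm_num)
  convert h using 1
  ext z
  simp only [Ur, Set.mem_ofPred_eq, add_zero, sub_eq_add_neg]

theorem c3d_x {z : ℂ} (h : Nl (2 * z)) : ContinuousAt (fun z => xw (2 * z)) z := by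
  have h1 := (xw_deriv (2 * z) h).continuousAt
  exact h1.comp (f := fun z : ℂ => 2 * z) (by fun_prop)

theorem c3d_kq {z a : ℂ} (h : Nl (2 * (z + a))) : ContinuousAt (fun z => kq (z + a)) z := by
  have h1 := (Q3V.kq_diff h).continuousAt
  exact h1.comp (f := fun z : ℂ => z + a) (by fun_prop)

theorem c3d_hT {z : ℂ} (h : Nl (2 * z)) : ContinuousAt hT z := by
  have hv := Q3V.off_nl h
  have hx := (xw_deriv z hv).continuousAt
  have hy := (yw_deriv z hv).continuousAt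
  have e : hT = fun z => (xw z ^ 2 - 2 * e2 * xw z - 2 * e2 ^ 2) / yw z := rfl
  rw [e]
  exact ContinuousAt.div (((hx.pow 2).sub (hx.const_mul _)).sub continuousAt_const) hy (Q3V.off_y h)

theorem c3d_hh {z : ℂ} (h : Nl (2 * z)) : ContinuousAt hh z := by
  have hv := Q3V.off_nl h
  have hx := (xw_deriv z hv).continuousAt
  have hy := (yw_deriv z hv).continuousAt
  have hD : ∀ T : ℂ, ContinuousAt (fun z => D2 T (xw z)) z := fun T => by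
    have e : (fun z => D2 T (xw z)) = fun z => 1 + T * xw z ^ 2 - T ^ 2 * xw z := rfl
    rw [e]
    exact (continuousAt_const.add ((hx.pow 2).const_mul _)).sub (hx.const_mul _)
  have e : hh = fun z => D2 (w * ph) (xw z) * D2 (w ^ 2 * ph) (xw z) / (ph ^ 2 * yw z ^ 2) := rfl
  rw [e]
  exact ContinuousAt.div ((hD _).mul (hD _)) ((hy.pow 2).const_mul _)
    (mul_ne_zero (pow_ne_zero 2 ph_ne) (pow_ne_zero 2 (Q3V.off_y h)))

theorem c3d_hT_ne {z : ℂ} (h : Nl (4 * z)) : hT z ≠ 0 := by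
  have h1 := Q3V.kq_ne h
  rw [kq_hT (Q3V.nl_half_eis h)] at h1
  exact right_ne_zero_of_mul h1

theorem c3d_hh_ne {z : ℂ} (h : Nl (4 * z)) : hh z ≠ 0 := by
  have h1 := h_hh (Q3V.nl_half_eis h)
  have h4 : Nl (2 * (2 * z)) := by
    rw [← mul_assoc]
    norm_num
    exact h
  have h2 := Q3V.off_y h4
  rw [← h1] at h2
  exact right_ne_zero_of_mul (right_ne_zero_of_mul h2)

theorem c3d_ne {u v : ℂ} (hu : Nl u) (hv : Nl v) (h1 : Nl (u + v)) (h2 : Nl (u - v)) : xw u - xw v ≠ 0 := by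
  intro h
  rcases (xw_eq_iff u v hu hv).1 (sub_eq_zero.1 h) with h3 | h3
  · exact h2 h3
  · exact h1 h3

/-- the sign is constant -/
theorem c3d_main {S : Set ℂ} (hS : IsPreconnected S) {a c q : ℂ} {G : ℂ → ℂ} {sg : ℂ} (hsg : sg = 1 ∨ sg = -1)
    (h4 : ∀ z ∈ S, Nl (4 * z)) (hp : ∀ z ∈ S, Nl (2 * (z + a))) (hm : ∀ z ∈ S, Nl (2 * (z + -a)))
    (hc : ∀ z ∈ S, xw (2 * z) - c ≠ 0) (hG : ∀ z ∈ S, ContinuousAt G z) (hG0 : ∀ z ∈ S, G z ≠ 0) (hq : q ≠ 0)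
    (hsq : ∀ z ∈ S, (kq (z + a) + sg * kq (z + -a)) ^ 2 * (xw (2 * z) - c) ^ 2 = (q * G z) ^ 2) :
    ∃ m : ℂ, m ^ 2 = 1 ∧ ∀ z ∈ S, kq (z + a) + sg * kq (z + -a) = m * q * G z / (xw (2 * z) - c) := by
  have h1 := hS.eq_or_eq_neg_of_sq_eq (f := fun z => (kq (z + a) + sg * kq (z + -a)) * (xw (2 * z) - c))
    (g := fun z => q * G z) ?_ ?_ ?_ ?_
  · rcases h1 with h1 | h1
    · refine ⟨1, by norm_num, fun z hz => ?_⟩
      rw [eq_div_iff (hc z hz), one_mul]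
      exact h1 hz
    · refine ⟨-1, by norm_num, fun z hz => ?_⟩
      rw [eq_div_iff (hc z hz)]
      have h2 : (kq (z + a) + sg * kq (z + -a)) * (xw (2 * z) - c) = -(q * G z) := h1 hz
      rw [h2]
      ring
  · intro z hz
    refine ContinuousAt.continuousWithinAt ?_
    exact ((c3d_kq (hp z hz)).add ((c3d_kq (hm z hz)).const_mul sg)).mul
      ((c3d_x (Q3V.nl_half_eis (h4 z hz))).sub continuousAt_const)
  · intro z hz
    exact ((hG z hz).const_mul q).continuousWithinAt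
  · intro z hz
    change ((kq (z + a) + sg * kq (z + -a)) * (xw (2 * z) - c)) ^ 2 = (q * G z) ^ 2
    rw [mul_pow]
    exact hsq z hz
  · intro z hz
    exact mul_ne_zero hq (hG0 z hz)

theorem c3d_U {z : ℂ} (h : U1 z) : Nl (4 * z) ∧ Nl (2 * (z + 1 / 8)) ∧ Nl (2 * (z + -(1 / 8))) ∧
    xw (2 * z) - xw (1 / 4) ≠ 0 := by
  obtain ⟨h4, hp, hm⟩ := h
  refine ⟨h4, ?_, ?_, c3d_ne (Q3V.nl_half_eis h4) (Q3V.off_nl Q3V.nl_quart) hp hm⟩
  · rw [show 2 * (z + 1 / 8) = 2 * z + 1 / 4 by ring]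
    exact hp
  · rw [show 2 * (z + -(1 / 8)) = 2 * z - 1 / 4 by ring]
    exact hm

theorem c3d_R {z : ℂ} (h : Ur z) : Nl (4 * z) ∧ Nl (2 * (z + (1 + 2 * w) / 8)) ∧ Nl (2 * (z + -((1 + 2 * w) / 8))) ∧
    xw (2 * z) - xw ((1 + 2 * w) / 4) ≠ 0 := by
  obtain ⟨h4, hp, hm⟩ := h
  have hr : Nl ((1 + 2 * w) / 4) := by
    have := Q3V.off_half Q3V.nl_quart Q3V.two_hw
    rwa [show (1 / 4 : ℂ) + w / 2 = (1 + 2 * w) / 4 by ring] at this
  refine ⟨h4, ?_, ?_, c3d_ne (Q3V.nl_half_eis h4) hr hp hm⟩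
  · rw [show 2 * (z + (1 + 2 * w) / 8) = 2 * z + (1 + 2 * w) / 4 by ring]
    exact hp
  · rw [show 2 * (z + -((1 + 2 * w) / 8)) = 2 * z - (1 + 2 * w) / 4 by ring]
    exact hm

theorem c3d_c_ne : xw (1 / 4) ≠ 0 ∧ xw ((1 + 2 * w) / 4) ≠ 0 := by
  have h := Q3V.aa_sq
  have h1 := e2_ne
  constructor
  · rw [c3c_quart]
    refine mul_ne_zero h1 fun h2 => ?_
    have h3 : aa = -1 := by linear_combination h2
    rw [h3] at h
    norm_num at h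
  · rw [x_r4]
    refine mul_ne_zero h1 fun h2 => ?_
    have h3 : aa = 1 := by linear_combination -h2
    rw [h3] at h
    norm_num at h

theorem c3d_root {c : ℂ} (hc : c ≠ 0) : ∃ q : ℂ, q ^ 2 = 24 * c ^ 2 ∧ q ≠ 0 := by
  obtain ⟨q, hq⟩ := IsAlgClosed.exists_pow_nat_eq (24 * c ^ 2 : ℂ) (n := 2) (by norm_num)
  refine ⟨q, hq, ?_⟩
  rintro rfl
  have : (24 * c ^ 2 : ℂ) ≠ 0 := mul_ne_zero (by norm_num) (pow_ne_zero 2 hc)
  apply this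
  rw [← hq]
  norm_num

/-- [C3.5] The domains are open and preconnected (the complements are countable), `x(2z) ≠ c`, `h ≠ 0`, `h' h'' ≠ 0` there, everything is continuous;
so the square root is constant up to sign (`IsPreconnected.eq_or_eq_neg_of_sq_eq`). -/
theorem ex_p : ∃ m : ℂ, m ^ 2 = 24 * xw (1 / 4) ^ 2 ∧
    ∀ z, U1 z → kq (z + 1 / 8) + kq (z - 1 / 8) = m * hT z / (xw (2 * z) - xw (1 / 4)) := by
  obtain ⟨q, hq, hq0⟩ := c3d_root c3d_c_ne.1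
  obtain ⟨m, hm, h⟩ := c3d_main c3d_preU (a := 1 / 8) (c := xw (1 / 4)) (q := q) (G := hT) (sg := 1) (Or.inl rfl)
    (fun z hz => (c3d_U hz).1) (fun z hz => (c3d_U hz).2.1) (fun z hz => (c3d_U hz).2.2.1) (fun z hz => (c3d_U hz).2.2.2)
    (fun z hz => c3d_hT (Q3V.nl_half_eis (c3d_U hz).1)) (fun z hz => c3d_hT_ne (c3d_U hz).1) hq0 (fun z hz => by
      rw [one_mul, ← sub_eq_add_neg, sq_p hz, mul_pow, hq, hT_sq (Q3V.nl_half_eis (c3d_U hz).1)])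
  refine ⟨m * q, by rw [mul_pow, hm, hq, one_mul], fun z hz => ?_⟩
  have h1 := h z hz
  rw [one_mul, ← sub_eq_add_neg] at h1
  exact h1

theorem ex_m : ∃ m : ℂ, m ^ 2 = 1 ∧
    ∀ z, U1 z → kq (z + 1 / 8) - kq (z - 1 / 8) = m * (2 * k1) * hh z / (xw (2 * z) - xw (1 / 4)) := by
  obtain ⟨m, hm, h⟩ := c3d_main c3d_preU (a := 1 / 8) (c := xw (1 / 4)) (q := 2 * k1) (G := hh) (sg := -1) (Or.inr rfl)
    (fun z hz => (c3d_U hz).1) (fun z hz => (c3d_U hz).2.1) (fun z hz => (c3d_U hz).2.2.1) (fun z hz => (c3d_U hz).2.2.2)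
    (fun z hz => c3d_hh (Q3V.nl_half_eis (c3d_U hz).1)) (fun z hz => c3d_hh_ne (c3d_U hz).1)
    (mul_ne_zero two_ne_zero Q3V.k1_ne) (fun z hz => by
      rw [neg_one_mul, ← sub_eq_add_neg, ← sub_eq_add_neg, sq_m hz, mul_pow, mul_pow,
        hh_sq (Q3V.nl_half_eis (c3d_U hz).1)]
      ring)
  refine ⟨m, hm, fun z hz => ?_⟩
  have h1 := h z hz
  rw [neg_one_mul, ← sub_eq_add_neg, ← sub_eq_add_neg] at h1
  exact h1

theorem ex_pr : ∃ m : ℂ, m ^ 2 = 24 * xw ((1 + 2 * w) / 4) ^ 2 ∧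
    ∀ z, Ur z → kq (z + (1 + 2 * w) / 8) + kq (z - (1 + 2 * w) / 8) = m * hT z / (xw (2 * z) - xw ((1 + 2 * w) / 4)) := by
  obtain ⟨q, hq, hq0⟩ := c3d_root c3d_c_ne.2
  obtain ⟨m, hm, h⟩ := c3d_main c3d_preR (a := (1 + 2 * w) / 8) (c := xw ((1 + 2 * w) / 4)) (q := q) (G := hT) (sg := 1)
    (Or.inl rfl)
    (fun z hz => (c3d_R hz).1) (fun z hz => (c3d_R hz).2.1) (fun z hz => (c3d_R hz).2.2.1) (fun z hz => (c3d_R hz).2.2.2)
    (fun z hz => c3d_hT (Q3V.nl_half_eis (c3d_R hz).1)) (fun z hz => c3d_hT_ne (c3d_R hz).1) hq0 (fun z hz => by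
      rw [one_mul, ← sub_eq_add_neg, sq_pr hz, mul_pow, hq, hT_sq (Q3V.nl_half_eis (c3d_R hz).1)])
  refine ⟨m * q, by rw [mul_pow, hm, hq, one_mul], fun z hz => ?_⟩
  have h1 := h z hz
  rw [one_mul, ← sub_eq_add_neg] at h1
  exact h1

theorem ex_mr : ∃ m : ℂ, m ^ 2 = 1 ∧
    ∀ z, Ur z → kq (z + (1 + 2 * w) / 8) - kq (z - (1 + 2 * w) / 8) = m * (2 * k2) * hh z / (xw (2 * z) - xw ((1 + 2 * w) / 4)) := by
  obtain ⟨m, hm, h⟩ := c3d_main c3d_preR (a := (1 + 2 * w) / 8) (c := xw ((1 + 2 * w) / 4)) (q := 2 * k2) (G := hh) (sg := -1)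
    (Or.inr rfl)
    (fun z hz => (c3d_R hz).1) (fun z hz => (c3d_R hz).2.1) (fun z hz => (c3d_R hz).2.2.1) (fun z hz => (c3d_R hz).2.2.2)
    (fun z hz => c3d_hh (Q3V.nl_half_eis (c3d_R hz).1)) (fun z hz => c3d_hh_ne (c3d_R hz).1)
    (mul_ne_zero two_ne_zero Q3V.k2_ne) (fun z hz => by
      rw [neg_one_mul, ← sub_eq_add_neg, ← sub_eq_add_neg, sq_mr hz, mul_pow, mul_pow,
        hh_sq (Q3V.nl_half_eis (c3d_R hz).1)]
      ring)
  refine ⟨m, hm, fun z hz => ?_⟩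
  have h1 := h z hz
  rw [neg_one_mul, ← sub_eq_add_neg, ← sub_eq_add_neg] at h1
  exact h1

private theorem c3e_nl {c : Eis} (h : ¬ (2 : Eis) ∣ c) : Nl (emb c / 2) := by
  have h2 : emb (2 : Eis) = 2 := by rw [map_ofNat]
  have h3 := (CUL.nl_div_iff (M := (2 : Eis)) (by decide) c).mpr h
  rwa [h2] at h3

private theorem c3e_two (x y : ℤ) (h : ¬ (2 ∣ x ∧ 2 ∣ y)) : ¬ (2 : Eis) ∣ ⟨x, y⟩ := by
  rintro ⟨a, ha⟩
  apply h
  have h2 : (2 : Eis) = ⟨2, 0⟩ := by decide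
  rw [h2] at ha
  have hr := congrArg QuadraticAlgebra.re ha
  have hi := congrArg QuadraticAlgebra.im ha
  simp at hr hi
  exact ⟨⟨a.re, hr⟩, ⟨a.im, hi⟩⟩

private theorem c3e_nl_half : Nl (1 / 2 : ℂ) := by
  have h := c3e_nl (c3e_two 1 0 (by norm_num))
  have e : emb (⟨1, 0⟩ : Eis) = 1 := by rw [CM27.emb_apply]; push_cast; ring
  rwa [e] at h

private theorem c3e_nl_w : Nl (w / 2) := by
  have h := c3e_nl (c3e_two 0 1 (by norm_num))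
  have e : emb (⟨0, 1⟩ : Eis) = w := by rw [CM27.emb_apply]; push_cast; ring
  rwa [e] at h

private theorem c3e_nl_w2 : Nl (w ^ 2 / 2) := by
  have h := c3e_nl (c3e_two (-1) (-1) (by norm_num))
  have e : emb (⟨-1, -1⟩ : Eis) = w ^ 2 := by
    rw [CM27.emb_apply, CUL.w2]; push_cast; ring
  rwa [e] at h

private theorem c3e_nl_r : Nl ((1 + 2 * w) / 2) := by
  have h := c3e_nl (c3e_two 1 2 (by norm_num))
  have e : emb (⟨1, 2⟩ : Eis) = 1 + 2 * w := by rw [CM27.emb_apply]; push_cast; ring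
  rwa [e] at h

/-- [C3.6] the signs. `z = r/8` is in `U1`, `z = 1/8` is in `Ur`: `r/8 + 1/8 = - w²/4`, `r/8 - 1/8 = w/4`. With `p = kq (w/4)`, `p' = kq (w²/4)`:
`p² = 4 e (w - 1)`, `p'² = 4 e (w² - 1)`, `p p' = k1²` (`kq_quart'` with `v = w/4`, `w/4 + 1/4 = - w²/4`).
`ex_p` at `r/8`: `p - p' = m hT(r/8)/(c' - c) = m (- k2/2)/(- 2 e aa)`; `ex_pr` at `1/8`: `- p - p' = m' (- k1/2)/(2 e aa)`. So
`m' / m = - (p + p')/(- (p - p')) ...`; the ratio is `c'/c`: `(p + p')/(p - p') = (2 aa - 3)/r`, `k2/k1 = - r/aa`. -/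
theorem sign_p : ∃ μ : ℂ, μ ^ 2 = 24 ∧
    (∀ z, U1 z → kq (z + 1 / 8) + kq (z - 1 / 8) = μ * xw (1 / 4) * hT z / (xw (2 * z) - xw (1 / 4))) ∧
    (∀ z, Ur z → kq (z + (1 + 2 * w) / 8) + kq (z - (1 + 2 * w) / 8) =
      μ * xw ((1 + 2 * w) / 4) * hT z / (xw (2 * z) - xw ((1 + 2 * w) / 4))) := by
  obtain ⟨m, hm, hp⟩ := ex_p
  obtain ⟨m', hm', hp'⟩ := ex_pr
  have hw2 : w ^ 2 = -1 - w := CUL.w2
  have ha : aa ^ 2 = 3 := Q3V.aa_sq
  have hen : e2 ≠ 0 := e2_ne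
  have hc : xw (1 / 4) = e2 * (1 + aa) := by
    have h : aa = xw (1 / 4) / e2 - 1 := rfl
    rw [h]
    field_simp
    ring
  have hc' := x_r4
  have hk1 := k1_sq
  have hk12 := k12
  have hk1n : k1 ≠ 0 := Q3V.k1_ne
  have han : aa ≠ 0 := by
    intro h
    rw [h] at ha
    norm_num at ha
  have ha1 : 1 + aa ≠ 0 := by
    intro h
    have h1 : aa = -1 := by linear_combination h
    rw [h1] at ha
    norm_num at ha
  have ha3 : 3 + 2 * aa ≠ 0 := by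
    intro h
    have h1 : aa = -(3 / 2) := by linear_combination h / 2
    rw [h1] at ha
    norm_num at ha
  have hcn : xw (1 / 4) ≠ 0 := by
    rw [hc]
    exact mul_ne_zero hen ha1
  have hU1 : U1 ((1 + 2 * w) / 8) := by
    refine ⟨?_, ?_, ?_⟩
    · have e : 4 * ((1 + 2 * w) / 8) = (1 + 2 * w) / 2 := by ring
      rw [e]
      exact c3e_nl_r
    · have e : 2 * ((1 + 2 * w) / 8) + 1 / 4 = -(w ^ 2 / 2) := by rw [hw2]; ring
      rw [e]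
      exact c3e_nl_w2.neg
    · have e : 2 * ((1 + 2 * w) / 8) - 1 / 4 = w / 2 := by ring
      rw [e]
      exact c3e_nl_w
  have hUr : Ur (1 / 8) := by
    refine ⟨?_, ?_, ?_⟩
    · have e : 4 * (1 / 8 : ℂ) = 1 / 2 := by ring
      rw [e]
      exact c3e_nl_half
    · have e : 2 * (1 / 8 : ℂ) + (1 + 2 * w) / 4 = -(w ^ 2 / 2) := by rw [hw2]; ring
      rw [e]
      exact c3e_nl_w2.neg
    · have e : 2 * (1 / 8 : ℂ) - (1 + 2 * w) / 4 = -(w / 2) := by ring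
      rw [e]
      exact c3e_nl_w.neg
  have hT1 : hT (1 / 8) = -(k1 / 2) := by
    have h : kq (1 / 8) = -2 * hT (1 / 8) := kq_hT (by
      apply Q3V.off_nl
      have e : 2 * (2 * (1 / 8 : ℂ)) = 1 / 2 := by ring
      rw [e]
      exact c3e_nl_half)
    have h' : k1 = -2 * hT (1 / 8) := h
    linear_combination (1 / 2 : ℂ) * h'
  have hTr : hT ((1 + 2 * w) / 8) = -(k2 / 2) := by
    have h : kq ((1 + 2 * w) / 8) = -2 * hT ((1 + 2 * w) / 8) := kq_hT (by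
      apply Q3V.off_nl
      have e : 2 * (2 * ((1 + 2 * w) / 8)) = (1 + 2 * w) / 2 := by ring
      rw [e]
      exact c3e_nl_r)
    have h' : k2 = -2 * hT ((1 + 2 * w) / 8) := h
    linear_combination (1 / 2 : ℂ) * h'
  -- p, p'
  have hpsq : kq (w / 4) ^ 2 = 4 * e2 * (w - 1) := by
    have e : 2 * (w / 4) = w / 2 := by ring
    have h := Q3V.kq_sq (v := w / 4) (by rw [e]; exact c3e_nl_w)
    rw [e, Q3V.x1_w, ← e2_eq] at h
    rw [h]; ring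
  have hp'sq : kq (w ^ 2 / 4) ^ 2 = 4 * e2 * (w ^ 2 - 1) := by
    have e : 2 * (w ^ 2 / 4) = w ^ 2 / 2 := by ring
    have h := Q3V.kq_sq (v := w ^ 2 / 4) (by rw [e]; exact c3e_nl_w2)
    rw [e, Q3V.x1_w2, ← e2_eq] at h
    rw [h]; ring
  have hpp : kq (w / 4) * kq (w ^ 2 / 4) = 4 * e2 * aa := by
    have e1 : 2 * (w / 4) = w / 2 := by ring
    have e3 : 2 * (w / 4) + 1 / 2 = -(w ^ 2 / 2) := by rw [hw2]; ring
    have h := kq_quart' (v := w / 4) (by rw [e1]; exact c3e_nl_w) (by rw [e3]; exact c3e_nl_w2.neg)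
    have e4 : w / 4 + 1 / 4 = -(w ^ 2 / 4) := by rw [hw2]; ring
    rw [e4, Q3V.kq_neg] at h
    rw [← hk1]
    linear_combination -h
  have h1 := hp _ hU1
  have h2 := hp' _ hUr
  have e1 : (1 + 2 * w) / 8 + 1 / 8 = -(w ^ 2 / 4) := by rw [hw2]; ring
  have e3 : (1 + 2 * w) / 8 - 1 / 8 = w / 4 := by ring
  have e4 : 2 * ((1 + 2 * w) / 8) = (1 + 2 * w) / 4 := by ring
  have e5 : 1 / 8 + (1 + 2 * w) / 8 = -(w ^ 2 / 4) := by rw [hw2]; ring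
  have e6 : 1 / 8 - (1 + 2 * w) / 8 = -(w / 4) := by ring
  have e7 : 2 * (1 / 8 : ℂ) = 1 / 4 := by ring
  rw [e1, e3, e4, hTr, hc, hc', Q3V.kq_neg] at h1
  rw [e5, e6, e7, hT1, hc, hc', Q3V.kq_neg, Q3V.kq_neg] at h2
  have hd1 : e2 * (1 - aa) - e2 * (1 + aa) ≠ 0 := by
    have : e2 * (1 - aa) - e2 * (1 + aa) = -(2 * (e2 * aa)) := by ring
    rw [this]
    exact neg_ne_zero.mpr (mul_ne_zero two_ne_zero (mul_ne_zero hen han))
  have hd2 : e2 * (1 + aa) - e2 * (1 - aa) ≠ 0 := by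
    have : e2 * (1 + aa) - e2 * (1 - aa) = 2 * (e2 * aa) := by ring
    rw [this]
    exact mul_ne_zero two_ne_zero (mul_ne_zero hen han)
  rw [eq_div_iff hd1] at h1
  rw [eq_div_iff hd2] at h2
  generalize kq (w / 4) = P at *
  generalize kq (w ^ 2 / 4) = P' at *
  have hPP : P - P' ≠ 0 := by
    intro h
    have h3 : (P - P') ^ 2 = -4 * e2 * (3 + 2 * aa) := by
      have : (P - P') ^ 2 = P ^ 2 + P' ^ 2 - 2 * (P * P') := by ring
      rw [this, hpsq, hp'sq, hpp, hw2]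
      ring
    rw [h] at h3
    have : e2 * (3 + 2 * aa) = 0 := by linear_combination (1 / 4 : ℂ) * h3
    exact (mul_ne_zero hen ha3) this
  -- m' c = m c'
  have hsq : (P - P') ^ 2 = -4 * e2 * (3 + 2 * aa) := by
    have h3 : (P - P') ^ 2 = P ^ 2 + P' ^ 2 - 2 * (P * P') := by ring
    rw [h3, hpsq, hp'sq, hpp, hw2]
    ring
  have hsub : (P - P') * (P + P') = 4 * e2 * (1 + 2 * w) := by
    have h3 : (P - P') * (P + P') = P ^ 2 - P' ^ 2 := by ring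
    rw [h3, hpsq, hp'sq, hw2]
    ring
  have hrk : (1 + 2 * w) * k2 = aa * k1 := by
    apply mul_left_cancel₀ hk1n
    linear_combination (1 + 2 * w) * hk12 - aa * hk1 - 4 * e2 * (4 * hw2) - 4 * e2 * ha
  have h1' : m * k2 = 4 * e2 * aa * (P - P') := by linear_combination 2 * h1
  have h2' : m' * k1 = 4 * e2 * aa * (P + P') := by linear_combination 2 * h2
  have hk2n : k2 ≠ 0 := Q3V.k2_ne
  have key : m' * (1 + aa) = m * (1 - aa) := by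
    apply mul_right_cancel₀ (mul_ne_zero (mul_ne_zero hk1n hk2n) hPP)
    linear_combination (1 + aa) * k2 * (P - P') * h2' - (1 - aa) * k1 * (P - P') * h1' +
      (1 + aa) * k2 * 4 * e2 * aa * hsub - (1 - aa) * k1 * 4 * e2 * aa * hsq +
      16 * e2 ^ 2 * aa * (1 + aa) * hrk - 16 * e2 ^ 2 * aa * k1 * ha
  refine ⟨m / xw (1 / 4), ?_, ?_, ?_⟩
  · rw [div_pow, hm]
    field_simp
  · intro z hz
    rw [hp z hz, div_mul_cancel₀ _ hcn]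
  · intro z hz
    rw [hp' z hz]
    congr 2
    rw [hc', hc]
    field_simp
    linear_combination key

theorem c3f_r2 : (1 + 2 * w) ^ 2 = -3 := by
  linear_combination 4 * CUL.w2

theorem c3f_r_ne : (1 + 2 * w : ℂ) ≠ 0 := by
  intro h
  have h1 := c3f_r2
  rw [h] at h1
  norm_num at h1

theorem c3f_hu : Nl (2 * (w / 4)) := by
  have h := Q3V.nl_hw
  rwa [show w / 2 = 2 * (w / 4) by ring] at h

theorem c3f_q : Nl (1 / 4 : ℂ) := Q3V.off_nl Q3V.nl_quart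

theorem c3f_r2nl : Nl (2 * ((1 + 2 * w) / 8)) := by
  have h := Q3V.nl_s3_eighth
  rw [show 4 * ((1 + 2 * w) / 8) = 2 * (2 * ((1 + 2 * w) / 8)) by ring] at h
  exact Q3V.off_nl h

theorem c3f_qr : Nl ((1 + 2 * w) / 4) := by
  have h := c3f_r2nl
  rwa [show 2 * ((1 + 2 * w) / 8) = (1 + 2 * w) / 4 by ring] at h

theorem c3f_nlneg {z : ℂ} (h : Nl z) : Nl (-z) := h.neg

theorem c3f_U1 : U1 ((1 + 2 * w) / 8) := by
  refine ⟨Q3V.nl_s3_eighth, ?_, ?_⟩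
  · have h := c3f_nlneg Q3V.nl_hw2
    rwa [show -(w ^ 2 / 2) = 2 * ((1 + 2 * w) / 8) + 1 / 4 by linear_combination (-(1 / 2) : ℂ) * CUL.w2] at h
  · have h := Q3V.nl_hw
    rwa [show w / 2 = 2 * ((1 + 2 * w) / 8) - 1 / 4 by ring] at h

theorem c3f_Ur : Ur (1 / 8) := by
  refine ⟨Q3V.b_nl_eighth, ?_, ?_⟩
  · have h := c3f_nlneg Q3V.nl_hw2
    rwa [show -(w ^ 2 / 2) = 2 * (1 / 8) + (1 + 2 * w) / 4 by linear_combination (-(1 / 2) : ℂ) * CUL.w2] at h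
  · have h := c3f_nlneg Q3V.nl_hw
    rwa [show -(w / 2) = 2 * (1 / 8) - (1 + 2 * w) / 4 by ring] at h

/-- `r y(r/4) = (3 - 2 aa) y(1/4)` -/
theorem c3f_y : (1 + 2 * w) * yw ((1 + 2 * w) / 4) = (3 - 2 * aa) * yw (1 / 4) := by
  have hv := c3f_q
  have hu := c3f_qr
  have e : (1 : ℂ) / 4 + w / 2 = (1 + 2 * w) / 4 := by ring
  have hvh : Nl (1 / 4 + w / 2) := by rw [e]; exact hu
  have h1 := Q3V.ez_add_half hv Q3V.nl_hw Q3V.two_hw hvh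
  rw [e] at h1
  have e2' : (1 + 2 * w) / 4 + w / 2 = 1 / 4 + emb om := by rw [CU.emb_om]; ring
  have huh : Nl ((1 + 2 * w) / 4 + w / 2) := by
    rw [e2']
    exact hv.add_emb _
  have h2 := Q3V.ez_add_half hu Q3V.nl_hw Q3V.two_hw huh
  rw [e2', CUL.ez_add_emb] at h2
  have n1 := Q3V.half_ne hv Q3V.nl_hw Q3V.two_hw hvh
  have n2 := Q3V.half_ne hu Q3V.nl_hw Q3V.two_hw huh
  have x1' : xw (1 / 4) = e2 * (1 + aa) := Q3V.x4_eq
  have x2' := x_r4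
  have x3' : xw (w / 2) = w * e2 := Q3V.x1_w
  have he := e2_ne
  rw [x1', x3'] at h1 n1
  rw [x2', x3'] at h2 n2
  have h3 : yw (1 / 4) / (2 * (e2 * (1 + aa) - w * e2)) + yw ((1 + 2 * w) / 4) / (2 * (e2 * (1 - aa) - w * e2)) = 0 := by
    linear_combination -h1 - h2
  have m1 : (1 + aa - w) ≠ 0 := by
    intro h
    apply n1
    linear_combination e2 * h
  have m2 : (1 - aa - w) ≠ 0 := by
    intro h
    apply n2
    linear_combination e2 * h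
  have h4 : yw (1 / 4) * (1 - aa - w) + yw ((1 + 2 * w) / 4) * (1 + aa - w) = 0 := by
    have e5 : e2 * (1 + aa) - w * e2 = e2 * (1 + aa - w) := by ring
    have e6 : e2 * (1 - aa) - w * e2 = e2 * (1 - aa - w) := by ring
    rw [e5, e6] at h3
    field_simp at h3
    linear_combination h3
  have h5 := Q3V.aa_sq
  have h6 := CUL.w2
  apply mul_left_cancel₀ m1
  linear_combination (1 + 2 * w) * h4 + (2 * yw (1 / 4)) * h5 + (2 * yw (1 / 4)) * h6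

/-- [C3.7] `ex_m` at `r/8`: `- p' - p = m 2 k1 hh(r/8)/(c' - c)`, `ex_mr` at `1/8`: `- p' + p = m' 2 k2 hh(1/8)/(c - c')`; `2 hT(1/8) hh(1/8) = y(1/4)`, `2 hT(r/8) hh(r/8) = y(r/4)`,
`hT(1/8) = - k1/2`, `hT(r/8) = - k2/2`, `y(r/4) = y(1/4 + w/2) = - 3 w² e² y(1/4)/(c - w e)² = y(1/4) (3 - 2 aa)/r`. -/
theorem sign_m : ∃ ε : ℂ, ε ^ 2 = 1 ∧
    (∀ z, U1 z → kq (z + 1 / 8) - kq (z - 1 / 8) = ε * (2 * k1) * hh z / (xw (2 * z) - xw (1 / 4))) ∧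
    (∀ z, Ur z → kq (z + (1 + 2 * w) / 8) - kq (z - (1 + 2 * w) / 8) =
      ε * (2 * k2) * hh z / (xw (2 * z) - xw ((1 + 2 * w) / 4))) := by
  obtain ⟨m, hm, h1⟩ := ex_m
  obtain ⟨m', hm', h2⟩ := ex_mr
  have he := e2_ne
  have hr := c3f_r_ne
  have haa : aa ≠ 0 := by
    intro h
    have h3 := Q3V.aa_sq
    rw [h] at h3
    norm_num at h3
  have E1 := h1 _ c3f_U1
  have E2 := h2 _ c3f_Ur
  have g1 : (1 + 2 * w) / 8 + 1 / 8 = -(w ^ 2 / 4) := by linear_combination (1 / 4 : ℂ) * CUL.w2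
  have g2 : (1 + 2 * w) / 8 - 1 / 8 = w / 4 := by ring
  have g3 : 1 / 8 + (1 + 2 * w) / 8 = -(w ^ 2 / 4) := by linear_combination (1 / 4 : ℂ) * CUL.w2
  have g4 : 1 / 8 - (1 + 2 * w) / 8 = -(w / 4) := by ring
  have g5 : 2 * ((1 + 2 * w) / 8) = (1 + 2 * w) / 4 := by ring
  have g6 : 2 * (1 / 8 : ℂ) = 1 / 4 := by norm_num
  have H1 := h_hh c3f_r2nl
  have H2 := h_hh (Q3V.nl_half_eis Q3V.b_nl_eighth)
  have K1 := kq_hT c3f_r2nl
  have K2 := kq_hT (Q3V.nl_half_eis Q3V.b_nl_eighth)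
  rw [g1, g2, g5, Q3V.kq_neg] at E1
  rw [g3, g4, g6, Q3V.kq_neg, Q3V.kq_neg] at E2
  rw [g5] at H1
  rw [g6] at H2
  have K1' : k2 = -2 * hT ((1 + 2 * w) / 8) := K1
  have K2' : k1 = -2 * hT (1 / 8) := K2
  have P : kq (w / 4) ^ 2 = 4 * (w * e2 - e2) := by
    have h := Q3V.kq_sq c3f_hu
    rw [show 2 * (w / 4) = w / 2 by ring, Q3V.x1_w] at h
    exact h
  have hu2 : Nl (2 * (w ^ 2 / 4)) := by
    have h := Q3V.nl_hw2
    rwa [show w ^ 2 / 2 = 2 * (w ^ 2 / 4) by ring] at h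
  have P' : kq (w ^ 2 / 4) ^ 2 = 4 * (w ^ 2 * e2 - e2) := by
    have h := Q3V.kq_sq hu2
    rw [show 2 * (w ^ 2 / 4) = w ^ 2 / 2 by ring, Q3V.x1_w2] at h
    exact h
  have PP : kq (w / 4) * kq (w ^ 2 / 4) = 4 * e2 * aa := by
    have h3 : Nl (2 * (w / 4) + 1 / 2) := by
      have h := c3f_nlneg Q3V.nl_hw2
      rwa [show -(w ^ 2 / 2) = 2 * (w / 4) + 1 / 2 by linear_combination (-(1 / 2) : ℂ) * CUL.w2] at h
    have h := kq_quart' c3f_hu h3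
    rw [show w / 4 + 1 / 4 = -(w ^ 2 / 4) by linear_combination (1 / 4 : ℂ) * CUL.w2, Q3V.kq_neg, k1_sq] at h
    linear_combination -h
  have Yr := c3f_y
  have Y0 := Q3V.y4_ne
  have hk1 := Q3V.k1_ne
  have x1' : xw (1 / 4) = e2 * (1 + aa) := Q3V.x4_eq
  rw [x1', x_r4] at E1 E2
  have hd : 2 * e2 * aa ≠ 0 := mul_ne_zero (mul_ne_zero two_ne_zero he) haa
  have d1 : e2 * (1 - aa) - e2 * (1 + aa) = -(2 * e2 * aa) := by ring
  have d2 : e2 * (1 + aa) - e2 * (1 - aa) = 2 * e2 * aa := by ring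
  rw [d1, eq_div_iff (neg_ne_zero.2 hd)] at E1
  rw [d2, eq_div_iff hd] at E2
  generalize kq (w / 4) = p at *
  generalize kq (w ^ 2 / 4) = q at *
  generalize yw ((1 + 2 * w) / 4) = Z at *
  generalize yw (1 / 4) = Y at *
  generalize hh ((1 + 2 * w) / 8) = a at *
  generalize hh (1 / 8) = b at *
  generalize hT ((1 + 2 * w) / 8) = t at *
  generalize hT (1 / 8) = u at *
  have c1 := k1_sq
  have c2 := k2_sq'
  have S1 : (p + q) ^ 2 = 4 * e2 * (2 * aa - 3) := by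
    linear_combination P + P' + 2 * PP + 4 * e2 * CUL.w2
  have S2 : (p + q) * (p - q) = 4 * e2 * (1 + 2 * w) := by
    linear_combination P - P' - 4 * e2 * CUL.w2
  have hpq : p + q ≠ 0 := by
    intro h
    rw [h, zero_mul] at S2
    exact mul_ne_zero (mul_ne_zero (by norm_num) he) hr S2.symm
  have S3 : (2 * aa - 3) * (p - q) = (1 + 2 * w) * (p + q) := by
    apply mul_left_cancel₀ hpq
    linear_combination (2 * aa - 3) * S2 - (1 + 2 * w) * S1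
  -- `(p + q) d k2 = - 2 m k1 Z`, `(p - q) d k1 = - 2 m' k2 Y`
  have F1 : (p + q) * (2 * e2 * aa) * k2 = -(2 * m * k1 * Z) := by
    linear_combination k2 * E1 + (2 * m * k1 * a) * K1' - (2 * m * k1) * H1
  have F2 : (p - q) * (2 * e2 * aa) * k1 = -(2 * m' * k2 * Y) := by
    linear_combination k1 * E2 + (2 * m' * k2 * b) * K2' - (2 * m' * k2) * H2
  have F3 : m' * Y * (p + q) = -(m * Z * (p - q)) := by
    have h3 : (2 * e2 * aa) * (4 * e2 * aa) ≠ 0 :=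
      mul_ne_zero hd (mul_ne_zero (mul_ne_zero (by norm_num) he) haa)
    apply mul_left_cancel₀ h3
    linear_combination -(m' * k2 * Y) * F1 + (m * k1 * Z) * F2 + ((p + q) * (2 * e2 * aa) * m' * Y) * c2 -
      ((p - q) * (2 * e2 * aa) * m * Z) * c1
  have F4 : m' = m := by
    have h3 : (1 + 2 * w) * Y * (p + q) ≠ 0 := mul_ne_zero (mul_ne_zero hr Y0) hpq
    apply mul_left_cancel₀ h3
    linear_combination (1 + 2 * w) * F3 + (-m * (p - q)) * Yr + (m * Y) * S3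
  subst F4
  exact ⟨m', hm', h1, h2⟩

theorem c3g_nl {z t : ℂ} (h : Nl (8 * z)) (ht : ∃ b : Eis, emb b = 4 * t) : Nl (2 * z + t) := by
  rintro ⟨a, ha⟩
  obtain ⟨b, hb⟩ := ht
  refine h ⟨4 * a - b, ?_⟩
  rw [map_sub, map_mul, ha, hb]
  have e : emb 4 = 4 := map_ofNat emb 4
  rw [e]
  ring

theorem c3g_nl0 {t : ℂ} {n : ℂ} (hn : ∃ b : Eis, emb b = n) (h : Nl (n * t)) : Nl t := by
  rintro ⟨a, ha⟩
  obtain ⟨b, hb⟩ := hn
  exact h ⟨b * a, by rw [map_mul, ha, hb]⟩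

theorem c3g_one : ∃ b : Eis, emb b = 4 * (1 / 4 : ℂ) := ⟨1, by rw [map_one]; norm_num⟩

theorem c3g_mone : ∃ b : Eis, emb b = 4 * (-(1 / 4) : ℂ) := ⟨-1, by rw [map_neg, map_one]; norm_num⟩

theorem c3g_r : ∃ b : Eis, emb b = 4 * ((1 + 2 * w) / 4 : ℂ) := ⟨1 + 2 * om, by
  have e : emb 2 = 2 := map_ofNat emb 2
  rw [map_add, map_one, map_mul, CU.emb_om, e]
  ring⟩

theorem c3g_mr : ∃ b : Eis, emb b = 4 * (-((1 + 2 * w) / 4) : ℂ) := ⟨-(1 + 2 * om), by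
  have e : emb 2 = 2 := map_ofNat emb 2
  rw [map_neg, map_add, map_one, map_mul, CU.emb_om, e]
  ring⟩

theorem c3g_nl4 {z : ℂ} (h : Nl (8 * z)) : Nl (4 * z) := by
  apply Q3V.off_nl
  rw [← mul_assoc]
  norm_num
  exact h

theorem c3g_U1 {z : ℂ} (h : Nl (8 * z)) : U1 z :=
  ⟨c3g_nl4 h, c3g_nl h c3g_one, c3g_nl h c3g_mone⟩

theorem c3g_Ur {z : ℂ} (h : Nl (8 * z)) : Ur z :=
  ⟨c3g_nl4 h, c3g_nl h c3g_r, c3g_nl h c3g_mr⟩

theorem c3g_q : Nl (1 / 4 : ℂ) := Q3V.off_nl Q3V.nl_quart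

theorem c3g_qr : Nl ((1 + 2 * w) / 4) := by
  have h := Q3V.nl_s3_eighth
  rw [show 4 * ((1 + 2 * w) / 8) = 2 * ((1 + 2 * w) / 4) by ring] at h
  exact Q3V.off_nl h

theorem c3g_ne {z t : ℂ} (h : Nl (4 * z)) (ht : Nl t) (h1 : Nl (2 * z + t)) (h2 : Nl (2 * z - t)) :
    xw (2 * z) - xw t ≠ 0 := by
  intro h3
  have h0 : Nl (2 * z) := Q3V.nl_half_eis h
  rcases (xw_eq_iff (2 * z) t h0 ht).1 (sub_eq_zero.1 h3) with h4 | h4
  · exact h2 h4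
  · exact h1 h4

theorem c3g_prod (X : ℂ) : ph * ((X - xw (1 / 4)) * (X - xw ((1 + 2 * w) / 4))) = D2 ph X := by
  have h1 : xw (1 / 4) = e2 * (1 + aa) := Q3V.x4_eq
  have h2 := x_r4
  have h3 := Q3V.aa_sq
  have h4 := e2_cube
  rw [h1, h2]
  unfold D2 ph
  linear_combination (-2 * e2 ^ 3) * h3 - 4 * h4

theorem c3g_hh {z : ℂ} : hh z = D2 (w * ph) (xw z) * D2 (w ^ 2 * ph) (xw z) / (ph ^ 2 * yw z ^ 2) := rfl

/-- [C3.8] the closed forms; `(X - c)(X - c') = X² - 2 e X - 2 e² = D₂(ϕ, X)/ϕ`, `hT z = D₂(ϕ, x)/(ϕ y)` -/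
theorem W3_zero : ∃ C : ℂ, C ^ 2 = 72 * ph ^ 2 ∧ ∀ z, Nl (8 * z) →
    (kq (z + 1 / 8) + kq (z - 1 / 8)) - (kq (z + (1 + 2 * w) / 8) + kq (z - (1 + 2 * w) / 8)) =
      C * (yw z * (D2 ph (xw z) * xw (2 * z) / (yw z ^ 2 * D2 ph (xw (2 * z))))) := by
  obtain ⟨μ, h1, h2, h3⟩ := sign_p
  refine ⟨μ * ph * aa, ?_, fun z hz => ?_⟩
  · linear_combination (ph ^ 2 * aa ^ 2) * h1 + (24 * ph ^ 2) * Q3V.aa_sq
  · have a1 := c3g_ne (c3g_nl4 hz) c3g_q (c3g_U1 hz).2.1 (c3g_U1 hz).2.2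
    have a2 := c3g_ne (c3g_nl4 hz) c3g_qr (c3g_Ur hz).2.1 (c3g_Ur hz).2.2
    have a3 := c3g_prod (xw (2 * z))
    have a4 : Nl (2 * z) := Q3V.nl_half_eis (c3g_nl4 hz)
    have a5 := Q3V.off_y a4
    have a6 := ph_ne
    rw [h2 z (c3g_U1 hz), h3 z (c3g_Ur hz), hT_eq a4, ← a3]
    have b1 : xw (1 / 4) = e2 * (1 + aa) := Q3V.x4_eq
    have b2 := x_r4
    have b3 : ph = 2 * e2 := rfl
    field_simp
    rw [b3, b1, b2]
    ring

theorem W3_one : ∃ C : ℂ, C ^ 2 = 24 * ph ^ 2 ∧ ∀ z, Nl (8 * z) →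
    (kq (z + 1 / 8) + kq (z - 1 / 8)) + (kq (z + (1 + 2 * w) / 8) + kq (z - (1 + 2 * w) / 8)) =
      C * (yw z * (D2 ph (xw z) * (xw (2 * z) + ph) / (yw z ^ 2 * D2 ph (xw (2 * z))))) := by
  obtain ⟨μ, h1, h2, h3⟩ := sign_p
  refine ⟨μ * ph, ?_, fun z hz => ?_⟩
  · linear_combination (ph ^ 2) * h1
  · have a1 := c3g_ne (c3g_nl4 hz) c3g_q (c3g_U1 hz).2.1 (c3g_U1 hz).2.2
    have a2 := c3g_ne (c3g_nl4 hz) c3g_qr (c3g_Ur hz).2.1 (c3g_Ur hz).2.2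
    have a3 := c3g_prod (xw (2 * z))
    have a4 : Nl (2 * z) := Q3V.nl_half_eis (c3g_nl4 hz)
    have a5 := Q3V.off_y a4
    have a6 := ph_ne
    rw [h2 z (c3g_U1 hz), h3 z (c3g_Ur hz), hT_eq a4, ← a3]
    have b1 : xw (1 / 4) = e2 * (1 + aa) := Q3V.x4_eq
    have b2 := x_r4
    have b3 : ph = 2 * e2 := rfl
    have b4 := Q3V.aa_sq
    have key : xw (1 / 4) * (xw (2 * z) - xw ((1 + 2 * w) / 4)) + xw ((1 + 2 * w) / 4) * (xw (2 * z) - xw (1 / 4)) =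
        ph * (xw (2 * z) + ph) := by
      rw [b1, b2, b3]
      linear_combination (2 * e2 ^ 2) * b4
    have e : ∀ A B p q H : ℂ, A ≠ 0 → B ≠ 0 → μ * p * H / A + μ * q * H / B = μ * H * (p * B + q * A) / (A * B) := by
      intro A B p q H hA hB
      field_simp
    rw [e _ _ _ _ _ a1 a2, key]
    field_simp

/-- `2 ε (k1 + k2)/ϕ`, `(k1 + k2)² = 2 k1 k2 = - 8 r e` -/
theorem W3_w : ∃ C : ℂ, C ^ 2 * ph = -16 * (1 + 2 * w) ∧ ∀ z, Nl (8 * z) →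
    (kq (z + 1 / 8) - kq (z - 1 / 8)) + (kq (z + (1 + 2 * w) / 8) - kq (z - (1 + 2 * w) / 8)) =
      C * (D2 (w * ph) (xw z) * D2 (w ^ 2 * ph) (xw z) * (xw (2 * z) + w * ph) / (yw z ^ 2 * D2 ph (xw (2 * z)))) := by
  obtain ⟨ε, h1, h2, h3⟩ := sign_m
  have a6 := ph_ne
  have b3 : ph = 2 * e2 := rfl
  refine ⟨2 * ε * (k1 + k2) / ph, ?_, fun z hz => ?_⟩
  · have c1 := k1_sq
    have c2 := k2_sq'
    have c3 := k12
    have e : (2 * ε * (k1 + k2) / ph) ^ 2 * ph = 4 * ε ^ 2 * (k1 + k2) ^ 2 / ph := by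
      field_simp
      ring
    rw [e, h1, div_eq_iff a6, b3]
    linear_combination 4 * c1 + 4 * c2 + 8 * c3
  · have a1 := c3g_ne (c3g_nl4 hz) c3g_q (c3g_U1 hz).2.1 (c3g_U1 hz).2.2
    have a2 := c3g_ne (c3g_nl4 hz) c3g_qr (c3g_Ur hz).2.1 (c3g_Ur hz).2.2
    have a3 := c3g_prod (xw (2 * z))
    have a4 : Nl (2 * z) := Q3V.nl_half_eis (c3g_nl4 hz)
    have a5 := Q3V.off_y a4
    rw [h2 z (c3g_U1 hz), h3 z (c3g_Ur hz), hh, ← a3]
    have b1 : xw (1 / 4) = e2 * (1 + aa) := Q3V.x4_eq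
    have b2 := x_r4
    have key : k1 * (xw (2 * z) - xw ((1 + 2 * w) / 4)) + k2 * (xw (2 * z) - xw (1 / 4)) =
        (k1 + k2) * (xw (2 * z) + w * ph) := by
      rw [b1, b2, b3]
      linear_combination e2 * k_rel1
    have e : ∀ A B p q H : ℂ, A ≠ 0 → B ≠ 0 → ε * (2 * p) * H / A + ε * (2 * q) * H / B = 2 * ε * H * (p * B + q * A) / (A * B) := by
      intro A B p q H hA hB
      field_simp
    rw [e _ _ _ _ _ a1 a2, key]
    field_simp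

theorem W3_w2 : ∃ C : ℂ, C ^ 2 * ph = 16 * (1 + 2 * w) ∧ ∀ z, Nl (8 * z) →
    (kq (z + 1 / 8) - kq (z - 1 / 8)) - (kq (z + (1 + 2 * w) / 8) - kq (z - (1 + 2 * w) / 8)) =
      C * (D2 (w * ph) (xw z) * D2 (w ^ 2 * ph) (xw z) * (xw (2 * z) + w ^ 2 * ph) / (yw z ^ 2 * D2 ph (xw (2 * z)))) := by
  obtain ⟨ε, h1, h2, h3⟩ := sign_m
  have a6 := ph_ne
  have b3 : ph = 2 * e2 := rfl
  refine ⟨2 * ε * (k1 - k2) / ph, ?_, fun z hz => ?_⟩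
  · have c1 := k1_sq
    have c2 := k2_sq'
    have c3 := k12
    have e : (2 * ε * (k1 - k2) / ph) ^ 2 * ph = 4 * ε ^ 2 * (k1 - k2) ^ 2 / ph := by
      field_simp
      ring
    rw [e, h1, div_eq_iff a6, b3]
    linear_combination 4 * c1 + 4 * c2 - 8 * c3
  · have a1 := c3g_ne (c3g_nl4 hz) c3g_q (c3g_U1 hz).2.1 (c3g_U1 hz).2.2
    have a2 := c3g_ne (c3g_nl4 hz) c3g_qr (c3g_Ur hz).2.1 (c3g_Ur hz).2.2
    have a3 := c3g_prod (xw (2 * z))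
    have a4 : Nl (2 * z) := Q3V.nl_half_eis (c3g_nl4 hz)
    have a5 := Q3V.off_y a4
    rw [h2 z (c3g_U1 hz), h3 z (c3g_Ur hz), hh, ← a3]
    have b1 : xw (1 / 4) = e2 * (1 + aa) := Q3V.x4_eq
    have b2 := x_r4
    have key : k1 * (xw (2 * z) - xw ((1 + 2 * w) / 4)) - k2 * (xw (2 * z) - xw (1 / 4)) =
        (k1 - k2) * (xw (2 * z) + w ^ 2 * ph) := by
      rw [b1, b2, b3]
      linear_combination e2 * k_rel2 - (2 * e2 * (k1 - k2)) * CUL.w2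
    have e : ∀ A B p q H : ℂ, A ≠ 0 → B ≠ 0 → ε * (2 * p) * H / A - ε * (2 * q) * H / B = 2 * ε * H * (p * B - q * A) / (A * B) := by
      intro A B p q H hA hB
      field_simp
    rw [e _ _ _ _ _ a1 a2, key]
    field_simp

end J2L
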