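import Pool.Agent.J2L.G1
import Pool.Agent.J2E.X

/-!
# [J2L-E1] the elliptic unit of `ℚ(ω, ∛D)`: assembly of J2E (helper92) and J2N (helper73) for the data `d : Dt D`
-/

set_option autoImplicit false

open NumberField IsDedekindDomain Filter Topology
open scoped Classical ComplexConjugate

namespace J2L

open CM27 JZ
open CU (la eE om)
open CUL (Nl ez IsRep rp cr zw GalU)
open JGL (GalP)

variable {D : Eis}

/-- The properties of the elliptic unit `e₀ = g₀/g₁` and its conjugates `e₁ = g₁/g₂`, `e₂ = g₂/g₀`. -/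
structure EUn (D : Eis) (e₀ e₁ e₂ : ℂ) : Prop where
  rep : ∃ u₀ u₁ u₂ : ℂ, u₀ ∈ CF.KK ∧ u₁ ∈ CF.KK ∧ u₂ ∈ CF.KK ∧ u₀ + u₁ * JT.cD D + u₂ * JT.cD D ^ 2 = e₀ ∧
    u₀ + u₁ * (w * JT.cD D) + u₂ * (w * JT.cD D) ^ 2 = e₁ ∧ u₀ + u₁ * (w ^ 2 * JT.cD D) + u₂ * (w ^ 2 * JT.cD D) ^ 2 = e₂
  prod : e₀ * e₁ * e₂ = 1
  int0 : IsIntegral ℤ e₀ ∧ IsIntegral ℤ e₀⁻¹
  int1 : IsIntegral ℤ e₁ ∧ IsIntegral ℤ e₁⁻¹
  int2 : IsIntegral ℤ e₂ ∧ IsIntegral ℤ e₂⁻¹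
  odd : Odd (classNumber (JT.KM D)) → ∀ v : ℂ, IsU D v → ∃ (n m : ℕ) (b c : ℤ) (z : ℂ), Odd n ∧ Odd m ∧ z ^ (2 * m) = 1 ∧
    v ^ n = z * e₀ ^ b * e₁ ^ c
  even : ¬ Odd (classNumber (JT.KM D)) → ∃ (y z : ℂ) (m : ℕ), IsU D y ∧ Odd m ∧ z ^ (2 * m) = 1 ∧ e₀ = z * y ^ 2

theorem per_yw' : Per yw := fun z e => yw_add z e

theorem per_hT : Per hT := fun z e => by
  unfold hT
  rw [xw_add, yw_add]

theorem hT_neg (z : ℂ) : hT (-z) = -hT z := by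
  unfold hT
  rw [xw_neg, yw_neg, div_neg]

/-- `g₃ = g₀` -/
theorem gE_three {L : Lv} {R : Finset Eis} {a : Eis} (hR : IsR L R) (ha : IsA L a) (ho : OddO L a) : gE L R a 3 = gE L R a 0 := by
  unfold gE
  by_cases hj : L.j = 1
  · have h := prod_three hR ha ho per_yw' yw_neg 0
    rw [zero_add] at h
    have e : ∀ c, Ph L c = yw (pt L c) := fun c => by unfold Ph; rw [if_pos hj]
    simp only [e]
    exact h
  · have h := prod_three hR ha ho per_hT hT_neg 0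
    rw [zero_add] at h
    have e : ∀ c, Ph L c = hT (pt L c) := fun c => by unfold Ph; rw [if_neg hj]
    simp only [e]
    exact h

theorem unit_main (h : JT.Cl2 D) (d : Dt D) {R : Finset Eis} {a : Eis} (hR : IsR d.L R) (ha : IsA d.L a) (ho : OddO d.L a) :
    EUn D (gE d.L R a 0 / gE d.L R a 1) (gE d.L R a 1 / gE d.L R a 2) (gE d.L R a 2 / gE d.L R a 0) := by
  have hM := J2E.main d hR ha
  have h3 := gE_three hR ha ho
  have hi := hM.int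
  have i0 := hi 0 (by norm_num)
  have i1 := hi 1 (by norm_num)
  have i2 := hi 2 (by norm_num)
  rw [zero_add] at i0
  norm_num at i1 i2
  rw [h3] at i2
  obtain ⟨u₀, u₁, u₂, h0, h1, h2, e0, e1, e2⟩ := hM.c3
  rw [h3] at e2
  have hc := J2E.clg h.ncube d hR ha
  have n0 := hM.ne 0
  have n1 := hM.ne 1
  have n2 := hM.ne 2
  refine ⟨⟨u₀, u₁, u₂, h0, h1, h2, e0.symm, e1.symm, e2.symm⟩, ?_, i0, ?_, ?_, hc.1, hc.2⟩
  · field_simp
  · simpa using i1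
  · simpa using i2

end J2L
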