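import Pool.Agent.J2L.I0

/-!
# [J2L-G1] multiplication of a half system, the moments under duplication and rotation

`R` a half system of `ker k` modulo `± 1`, `k a = ω²`. For `g` with `k g = ω^(2m)`: `g c = ± a^m π(c)`, `π` a permutation of `R`.
-/

set_option autoImplicit false

open scoped Classical

namespace J2L

open CM27

open CU (om)

open CUL (Nl ez IsRep rp cr zw)

open Q3V (OT)

/-- `a` has odd order modulo `f` -/
def OddO (L : Lv) (a : Eis) : Prop := ∃ n : ℕ, Odd n ∧ L.f ∣ a ^ n - 1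

variable {L : Lv} {R : Finset Eis} {a : Eis}

theorem g1a_kpow (L : Lv) (x : Eis) (m : ℕ) : L.k (x ^ m) = L.k x ^ m := by
  induction m with
  | zero => rw [pow_zero, pow_zero]; exact k_one L
  | succ n ih => rw [pow_succ, L.k_mul, ih, pow_succ]

theorem g1a_w3 : w ^ 3 = 1 := CUL.w3

theorem g1a_ka (ha : IsA L a) (m : ℕ) : L.k (a ^ m) = w ^ (2 * m) := by
  rw [g1a_kpow, ha.2.1, CUL.zw_two, ← pow_mul]

/-- the point of `π c` -/
theorem g1a_one (hR : IsR L R) (ha : IsA L a) {g : Eis} (hg : IsCoprime g L.f) {m : ℕ}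
    (hk : L.k g = w ^ (2 * m)) {c : Eis} (hc : c ∈ R) :
    ∃ (d : Eis) (ε : ℤ), d ∈ R ∧ (ε = 1 ∨ ε = -1) ∧ L.f ∣ g * c - (ε : Eis) * (a ^ m * d) := by
  obtain ⟨hc1, hc2⟩ := hR.1 c hc
  obtain ⟨b, b', hb⟩ := ha.1.pow_left (m := m)
  have hab : L.k b * w ^ (2 * m) = 1 := by
    rw [← g1a_ka ha, ← L.k_mul, ← k_one L]
    apply L.k_per
    exact ⟨-b', by linear_combination hb⟩
  have hbc : IsCoprime b L.f := ⟨a ^ m, b', by linear_combination hb⟩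
  have hα : IsCoprime (g * c * b) L.f := (hg.mul_left hc1).mul_left hbc
  have hkα : L.k (g * c * b) = 1 := by
    rw [L.k_mul, L.k_mul, hk, hc2, mul_one, mul_comm]
    exact hab
  obtain ⟨d, ⟨hd, hd'⟩, -⟩ := hR.2 _ hα hkα
  rcases hd' with ⟨t, ht⟩ | ⟨t, ht⟩
  · refine ⟨d, 1, hd, Or.inl rfl, g * c * b' + a ^ m * t, ?_⟩
    push_cast
    linear_combination a ^ m * ht - g * c * hb
  · refine ⟨d, -1, hd, Or.inr rfl, g * c * b' + a ^ m * t, ?_⟩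
    push_cast
    linear_combination a ^ m * ht - g * c * hb

theorem g1a_dvd_of {x y g : Eis} (hg : IsCoprime g L.f) (h : L.f ∣ g * x - g * y) : L.f ∣ x - y := by
  rw [← mul_sub] at h
  exact hg.symm.dvd_of_dvd_mul_left h

theorem g1a_dvd_of' {x y g : Eis} (hg : IsCoprime g L.f) (h : L.f ∣ g * x + g * y) : L.f ∣ x + y := by
  rw [← mul_add] at h
  exact hg.symm.dvd_of_dvd_mul_left h

theorem g1b_f (L : Lv) : emb L.f ≠ 0 := by
  rw [Ne, ← map_zero emb, emb_injective.eq_iff]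
  exact L.hf

theorem g1b_per {φ : ℂ → ℂ} (hφ : Per φ) {x y : Eis} (h : L.f ∣ x - y) : φ (pt L x) = φ (pt L y) := by
  obtain ⟨d, hd⟩ := h
  have e : pt L x = pt L y + emb d := by
    unfold pt
    have h1 : x = y + L.f * d := by rw [← hd]; ring
    have h2 := g1b_f L
    rw [h1, map_add, map_mul]
    field_simp
  rw [e, hφ]

theorem g1b_cop (ha : IsA L a) (i : ℕ) {c : Eis} (hc : IsCoprime c L.f) : IsCoprime (a ^ i * c) L.f :=
  IsCoprime.mul_left (ha.1.pow_left) hc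

theorem g1b_cube (ha : IsA L a) : IsCoprime (a ^ 3) L.f ∧ L.k (a ^ 3) = w ^ (2 * 0) ∧ L.k (a ^ 3) = 1 := by
  have h : L.k (a ^ 3) = 1 := by
    rw [pow_succ, pow_two, L.k_mul, L.k_mul, ha.2.1, CUL.zw_two]
    have hw3 : w ^ 3 = 1 := CUL.w3
    linear_combination (w ^ 3 + 1) * hw3
  exact ⟨ha.1.pow_left, by rw [h, mul_zero, pow_zero], h⟩

theorem g1b_ord {n : ℕ} (hn : L.f ∣ a ^ n - 1) (c : Eis) : L.f ∣ a ^ (3 * n) * c - a ^ 0 * c := by
  have e : a ^ (3 * n) * c - a ^ 0 * c = (a ^ n - 1) * ((a ^ n) ^ 2 + a ^ n + 1) * c := by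
    rw [mul_comm 3 n, pow_mul, pow_zero]
    ring
  rw [e, mul_assoc]
  exact Dvd.dvd.mul_right hn _

theorem g1b_yh_neg (z : ℂ) : yh (-z) = -1 - yh z := by
  unfold yh
  rw [yw_neg]
  ring

theorem g1c_two (i : ℕ) (c : Eis) : 2 * pt L (a ^ i * c) = pt L (a ^ i * (2 * c)) := by
  unfold pt
  rw [map_mul, map_mul, map_mul, map_ofNat]
  ring

theorem g1c_k2 (L : Lv) : ∃ m : ℕ, m < 3 ∧ L.k 2 = w ^ (2 * m) ∧ IsCoprime (2 : Eis) L.f := by
  have := eis_isDomain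
  have := eis_pid
  have hcop : IsCoprime (2 : Eis) L.f := (Q3.prime_two.irreducible.coprime_iff_not_dvd).2 L.hf2
  obtain ⟨i, hi⟩ := L.k_cube 2 hcop
  have hw3 : w ^ 3 = 1 := CUL.w3
  have hcases : ∀ m : ZMod 3, m = 0 ∨ m = 1 ∨ m = 2 := by decide
  rcases hcases i with h | h | h
  · exact ⟨0, by norm_num, by rw [hi, h, CUL.zw_zero, mul_zero, pow_zero], hcop⟩
  · refine ⟨2, by norm_num, ?_, hcop⟩
    rw [hi, h, CUL.zw_one]
    linear_combination -w * hw3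
  · exact ⟨1, by norm_num, by rw [hi, h, CUL.zw_two, mul_one], hcop⟩

/-- [G1.1] `α = g c a^(-m)` has `k α = 1`. -/
theorem perm (hR : IsR L R) (ha : IsA L a) {g : Eis} (hg : IsCoprime g L.f) {m : ℕ} (hk : L.k g = w ^ (2 * m)) :
    ∃ (π : Eis → Eis) (ε : Eis → ℤ), Set.BijOn π R R ∧ ∀ c ∈ R, (ε c = 1 ∨ ε c = -1) ∧ L.f ∣ g * c - (ε c : Eis) * (a ^ m * π c) := by
  have h1 : ∀ c : Eis, ∃ (d : Eis) (ε : ℤ), c ∈ R → d ∈ R ∧ (ε = 1 ∨ ε = -1) ∧
      L.f ∣ g * c - (ε : Eis) * (a ^ m * d) := by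
    intro c
    by_cases hc : c ∈ R
    · obtain ⟨d, ε, h⟩ := g1a_one hR ha hg hk hc
      exact ⟨d, ε, fun _ => h⟩
    · exact ⟨0, 1, fun h => absurd h hc⟩
  choose π ε hπ using h1
  have hmaps : Set.MapsTo π R R := fun c hc => (hπ c hc).1
  have hinj : Set.InjOn π R := by
    intro c hc d hd hcd
    obtain ⟨-, e1, f1⟩ := hπ c hc
    obtain ⟨-, e2, f2⟩ := hπ d hd
    rw [← hcd] at f2
    have key : L.f ∣ c - d ∨ L.f ∣ c + d := by
      rcases e1 with e1 | e1 <;> rcases e2 with e2 | e2 <;> rw [e1] at f1 <;> rw [e2] at f2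
      · left
        apply g1a_dvd_of hg
        have := dvd_sub f1 f2
        convert this using 1
        ring
      · right
        apply g1a_dvd_of' hg
        have := dvd_add f1 f2
        convert this using 1
        push_cast
        ring
      · right
        apply g1a_dvd_of' hg
        have := dvd_add f1 f2
        convert this using 1
        push_cast
        ring
      · left
        apply g1a_dvd_of hg
        have := dvd_sub f1 f2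
        convert this using 1
        ring
    obtain ⟨hc1, hc2⟩ := hR.1 c hc
    obtain ⟨x, -, hx⟩ := hR.2 c hc1 hc2
    rw [hx c ⟨hc, Or.inl (by rw [sub_self]; exact dvd_zero _)⟩, ← hx d ⟨hd, key⟩]
  refine ⟨π, ε, ⟨hmaps, hinj, Finset.surjOn_of_injOn_of_card_le π hmaps hinj le_rfl⟩, ?_⟩
  intro c hc
  exact (hπ c hc).2

theorem g1a_pt {g : Eis} {m : ℕ} {c d : Eis} {ε : ℤ} (h : L.f ∣ g * c - (ε : Eis) * (a ^ m * d))
    (i : ℕ) : ∃ t : Eis, pt L (a ^ i * (g * c)) = (ε : ℂ) * pt L (a ^ (i + m) * d) + emb t := by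
  obtain ⟨t, ht⟩ := h
  have hf : emb L.f ≠ 0 := by
    intro h0
    apply L.hf
    apply emb_injective
    rw [h0, map_zero]
  refine ⟨a ^ i * t, ?_⟩
  have h1 : a ^ i * (g * c) = (ε : Eis) * (a ^ (i + m) * d) + L.f * (a ^ i * t) := by
    rw [pow_add]
    linear_combination a ^ i * ht
  unfold pt
  rw [h1, map_add, map_mul emb L.f, add_div, mul_div_cancel_left₀ _ hf, map_mul emb (ε : Eis),
    map_intCast, mul_div_assoc]

theorem g1a_even {φ : ℂ → ℂ} (hφ : Per φ) (he : ∀ z, φ (-z) = φ z) {g : Eis} {m : ℕ} {c d : Eis}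
    {ε : ℤ} (hε : ε = 1 ∨ ε = -1) (h : L.f ∣ g * c - (ε : Eis) * (a ^ m * d)) (i : ℕ) :
    φ (pt L (a ^ i * (g * c))) = φ (pt L (a ^ (i + m) * d)) := by
  obtain ⟨t, ht⟩ := g1a_pt (a := a) h i
  rw [ht, hφ]
  rcases hε with rfl | rfl
  · rw [Int.cast_one, one_mul]
  · rw [Int.cast_neg, Int.cast_one, neg_one_mul, he]

theorem g1a_odd {φ : ℂ → ℂ} (hφ : Per φ) (he : ∀ z, φ (-z) = -φ z) {g : Eis} {m : ℕ} {c d : Eis}
    {ε : ℤ} (hε : ε = 1 ∨ ε = -1) (h : L.f ∣ g * c - (ε : Eis) * (a ^ m * d)) (i : ℕ) :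
    φ (pt L (a ^ i * (g * c))) = (ε : ℂ) * φ (pt L (a ^ (i + m) * d)) := by
  obtain ⟨t, ht⟩ := g1a_pt (a := a) h i
  rw [ht, hφ]
  rcases hε with rfl | rfl
  · rw [Int.cast_one, one_mul, one_mul]
  · rw [Int.cast_neg, Int.cast_one, neg_one_mul, he, neg_one_mul]

/-- [G1.2] even functions -/
theorem sum_perm (hR : IsR L R) (ha : IsA L a) {g : Eis} (hg : IsCoprime g L.f) {m : ℕ} (hk : L.k g = w ^ (2 * m))
    {φ : ℂ → ℂ} (hφ : Per φ) (he : ∀ z, φ (-z) = φ z) (i : ℕ) :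
    ∑ c ∈ R, φ (pt L (a ^ i * (g * c))) = ∑ c ∈ R, φ (pt L (a ^ (i + m) * c)) := by
  obtain ⟨π, ε, hb, hπ⟩ := perm hR ha hg hk
  refine Finset.sum_nbij π hb.mapsTo hb.injOn hb.surjOn fun c hc => ?_
  exact g1a_even hφ he (hπ c hc).1 (hπ c hc).2 i

/-- `S_{i+3} = S_i` (`k (a³) = 1`) -/
theorem sum_three (hR : IsR L R) (ha : IsA L a) {φ : ℂ → ℂ} (hφ : Per φ) (he : ∀ z, φ (-z) = φ z) (i : ℕ) :
    ∑ c ∈ R, φ (pt L (a ^ (i + 3) * c)) = ∑ c ∈ R, φ (pt L (a ^ i * c)) := by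
  have hk : L.k (a ^ 3) = w ^ (2 * 0) := by
    rw [g1a_ka ha]
    have h3 := g1a_w3
    linear_combination (w ^ 3 + 1) * h3
  have h1 := sum_perm hR ha (ha.1.pow_left (m := 3)) hk hφ he i
  rw [add_zero] at h1
  rw [← h1]
  refine Finset.sum_congr rfl fun c _ => ?_
  rw [← mul_assoc, ← pow_add]

/-- [G1.3] odd functions: the product of the signs does not depend on the function and on `i`. -/
theorem prod_perm (hR : IsR L R) (ha : IsA L a) {g : Eis} (hg : IsCoprime g L.f) {m : ℕ} (hk : L.k g = w ^ (2 * m)) :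
    ∃ η : ℂ, (η = 1 ∨ η = -1) ∧ ∀ ψ : ℂ → ℂ, Per ψ → (∀ z, ψ (-z) = -ψ z) → ∀ i : ℕ,
      ∏ c ∈ R, ψ (pt L (a ^ i * (g * c))) = η * ∏ c ∈ R, ψ (pt L (a ^ (i + m) * c)) := by
  obtain ⟨π, ε, hb, hπ⟩ := perm hR ha hg hk
  refine ⟨∏ c ∈ R, (ε c : ℂ), ?_, ?_⟩
  · have h1 : ∀ S : Finset Eis, S ⊆ R → (∏ c ∈ S, (ε c : ℂ)) = 1 ∨ (∏ c ∈ S, (ε c : ℂ)) = -1 := by
      intro S
      induction S using Finset.induction_on with
      | empty => intro _; left; simp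
      | insert c S hc ih =>
        intro hS
        rw [Finset.prod_insert hc]
        rcases ih ((Finset.subset_insert _ _).trans hS) with h | h <;>
          rcases (hπ c (hS (Finset.mem_insert_self _ _))).1 with h' | h' <;> rw [h, h'] <;> simp
    exact h1 R (Finset.Subset.refl _)
  · intro ψ hψ hodd i
    have h2 : ∏ c ∈ R, ψ (pt L (a ^ (i + m) * π c)) = ∏ c ∈ R, ψ (pt L (a ^ (i + m) * c)) :=
      Finset.prod_nbij π hb.mapsTo hb.injOn hb.surjOn fun c _ => rfl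
    rw [← h2, ← Finset.prod_mul_distrib]
    exact Finset.prod_congr rfl fun c hc => g1a_odd hψ hodd (hπ c hc).1 (hπ c hc).2 i

/-- [G1.4] `a³`: the sign is `1`, because `a` has odd order: with `P_j = ∏ yw(a^j c)`, `P_{j+3} = η P_j`, `P_{3n} = P_0 ≠ 0`, `η^n = 1`. -/
theorem prod_three (hR : IsR L R) (ha : IsA L a) (ho : OddO L a) {ψ : ℂ → ℂ} (hψ : Per ψ) (hodd : ∀ z, ψ (-z) = -ψ z) (i : ℕ) :
    ∏ c ∈ R, ψ (pt L (a ^ (i + 3) * c)) = ∏ c ∈ R, ψ (pt L (a ^ i * c)) := by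
  obtain ⟨hcop, hk, -⟩ := g1b_cube ha
  obtain ⟨η, hη, hP⟩ := prod_perm hR ha hcop (m := 0) hk
  have hstep : ∀ φ : ℂ → ℂ, Per φ → (∀ z, φ (-z) = -φ z) → ∀ i : ℕ,
      ∏ c ∈ R, φ (pt L (a ^ (i + 3) * c)) = η * ∏ c ∈ R, φ (pt L (a ^ i * c)) := by
    intro φ hφ ho' i
    have h := hP φ hφ ho' i
    rw [add_zero] at h
    rw [← h]
    refine Finset.prod_congr rfl fun c _ => ?_
    rw [pow_add, mul_assoc]
  suffices hη1 : η = 1 by
    rw [hstep ψ hψ hodd i, hη1, one_mul]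
  obtain ⟨n, hn, hna⟩ := ho
  have hpow : ∀ k : ℕ, ∏ c ∈ R, yw (pt L (a ^ (3 * k) * c)) = η ^ k * ∏ c ∈ R, yw (pt L (a ^ 0 * c)) := by
    intro k
    induction k with
    | zero => rw [mul_zero, pow_zero η, one_mul]
    | succ k ih =>
      rw [show 3 * (k + 1) = 3 * k + 3 by ring, hstep yw per_yw yw_neg, ih, pow_succ]
      ring
  have h1 := hpow n
  have h2 : ∏ c ∈ R, yw (pt L (a ^ (3 * n) * c)) = ∏ c ∈ R, yw (pt L (a ^ 0 * c)) := by
    refine Finset.prod_congr rfl fun c _ => ?_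
    exact g1b_per per_yw (g1b_ord hna c)
  obtain ⟨A, hA⟩ := CM27.exists_val
  have h3 : ∏ c ∈ R, yw (pt L (a ^ 0 * c)) ≠ 0 := by
    refine Finset.prod_ne_zero_iff.2 fun c hc h0 => ?_
    have h4 := y_val A hA (ot_pt L (g1b_cop ha 0 (hR.1 c hc).1))
    rw [h0, map_zero] at h4
    exact zero_ne_one h4
  rw [h2] at h1
  have h4 : η ^ n = 1 := (mul_eq_right₀ h3).1 h1.symm
  rcases hη with h5 | h5
  · exact h5
  · exfalso
    rw [h5, hn.neg_one_pow] at h4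
    norm_num at h4

/-- [G1.5] the same for sums of `yh` modulo `2`: `yh(-z) = -1 - yh(z) ≡ 1 + yh(z)`; the number of signs `-1` in `perm` is even iff `η = 1`. -/
theorem yh_perm (A : ValuationSubring ℂ) (hA : A.valuation 2 < 1) (hR : IsR L R) (ha : IsA L a) {g : Eis} (hg : IsCoprime g L.f)
    {m : ℕ} (hk : L.k g = w ^ (2 * m)) : ∃ n : ℕ, ∀ i : ℕ,
      A.valuation (∑ c ∈ R, yh (pt L (a ^ i * (g * c))) - (∑ c ∈ R, yh (pt L (a ^ (i + m) * c)) + n)) ≤ A.valuation 2 := by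
  obtain ⟨π, ε, hπ, hε⟩ := perm hR ha hg hk
  refine ⟨∑ c ∈ R, (if ε c = -1 then 1 else 0), fun i => ?_⟩
  have h1 : ∑ c ∈ R, yh (pt L (a ^ (i + m) * c)) = ∑ c ∈ R, yh (pt L (a ^ (i + m) * π c)) := by
    symm
    refine Finset.sum_nbij π (fun c hc => ?_) hπ.injOn hπ.surjOn (fun c _ => rfl)
    exact hπ.mapsTo hc
  rw [h1]
  push_cast
  rw [← Finset.sum_add_distrib, ← Finset.sum_sub_distrib]
  refine Valuation.map_sum_le _ fun c hc => ?_
  obtain ⟨h2, h3⟩ := hε c hc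
  have h4 : L.f ∣ a ^ i * (g * c) - (ε c : Eis) * (a ^ (i + m) * π c) := by
    have e : a ^ i * (g * c) - (ε c : Eis) * (a ^ (i + m) * π c) = a ^ i * (g * c - (ε c : Eis) * (a ^ m * π c)) := by
      rw [pow_add]
      ring
    rw [e]
    exact Dvd.dvd.mul_left h3 _
  have h5 := g1b_per per_yh h4
  have hc' : π c ∈ R := hπ.mapsTo hc
  have hot := ot_pt L (g1b_cop ha (i + m) (hR.1 _ hc').1)
  rw [h5]
  rcases h2 with h6 | h6
  · rw [h6, Int.cast_one, one_mul, if_neg (by norm_num)]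
    simp
  · rw [h6, if_pos rfl]
    have e : pt L (((-1 : ℤ) : Eis) * (a ^ (i + m) * π c)) = -pt L (a ^ (i + m) * π c) := by
      unfold pt
      rw [Int.cast_neg, Int.cast_one, neg_one_mul, map_neg, neg_div]
    rw [e, g1b_yh_neg]
    have e2 : -1 - yh (pt L (a ^ (i + m) * π c)) - (yh (pt L (a ^ (i + m) * π c)) + 1) =
        -(2 * (1 + yh (pt L (a ^ (i + m) * π c)))) := by ring
    rw [e2, Valuation.map_neg, map_mul]
    refine mul_le_of_le_one_right' ((A.valuation.map_add _ _).trans (max_le ?_ (yh_int A hA hot)))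
    rw [map_one]

theorem yh_three (A : ValuationSubring ℂ) (hA : A.valuation 2 < 1) (hR : IsR L R) (ha : IsA L a) (ho : OddO L a) (i : ℕ) :
    A.valuation (∑ c ∈ R, yh (pt L (a ^ (i + 3) * c)) - ∑ c ∈ R, yh (pt L (a ^ i * c))) ≤ A.valuation 2 := by
  obtain ⟨hcop, hk, -⟩ := g1b_cube ha
  obtain ⟨n, hn⟩ := yh_perm A hA hR ha hcop (m := 0) hk
  have hstep : ∀ i : ℕ, A.valuation (∑ c ∈ R, yh (pt L (a ^ (i + 3) * c)) - (∑ c ∈ R, yh (pt L (a ^ i * c)) + n)) ≤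
      A.valuation 2 := by
    intro i
    have h := hn i
    rw [add_zero] at h
    have e : ∑ c ∈ R, yh (pt L (a ^ (i + 3) * c)) = ∑ c ∈ R, yh (pt L (a ^ i * (a ^ 3 * c))) := by
      refine Finset.sum_congr rfl fun c _ => ?_
      rw [pow_add, mul_assoc]
    rw [e]
    exact h
  obtain ⟨N, hN, hNa⟩ := ho
  have hpow : ∀ k : ℕ, A.valuation (∑ c ∈ R, yh (pt L (a ^ (3 * k) * c)) - (∑ c ∈ R, yh (pt L (a ^ 0 * c)) + (k * n : ℕ))) ≤
      A.valuation 2 := by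
    intro k
    induction k with
    | zero => simp
    | succ k ih =>
      have h1 := hstep (3 * k)
      have e : ∑ c ∈ R, yh (pt L (a ^ (3 * (k + 1)) * c)) - (∑ c ∈ R, yh (pt L (a ^ 0 * c)) + ((k + 1) * n : ℕ)) =
          (∑ c ∈ R, yh (pt L (a ^ (3 * k + 3) * c)) - (∑ c ∈ R, yh (pt L (a ^ (3 * k) * c)) + n)) +
          (∑ c ∈ R, yh (pt L (a ^ (3 * k) * c)) - (∑ c ∈ R, yh (pt L (a ^ 0 * c)) + (k * n : ℕ))) := by
        rw [show 3 * (k + 1) = 3 * k + 3 by ring]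
        push_cast
        ring
      rw [e]
      exact (A.valuation.map_add _ _).trans (max_le h1 ih)
  have h2 := hpow N
  have h3 : ∑ c ∈ R, yh (pt L (a ^ (3 * N) * c)) = ∑ c ∈ R, yh (pt L (a ^ 0 * c)) := by
    refine Finset.sum_congr rfl fun c _ => ?_
    exact g1b_per per_yh (g1b_ord hNa c)
  rw [h3, sub_add_cancel_left, Valuation.map_neg] at h2
  have h4 : Even n := by
    by_contra hcon
    rw [Nat.not_even_iff_odd] at hcon
    have h5 := CM27.val_odd A hA ((N * n : ℕ) : ℤ) (by exact_mod_cast hN.mul hcon)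
    rw [Int.cast_natCast] at h5
    rw [h5] at h2
    exact absurd hA (not_lt.2 h2)
  obtain ⟨n', hn'⟩ := h4
  have e : ∑ c ∈ R, yh (pt L (a ^ (i + 3) * c)) - ∑ c ∈ R, yh (pt L (a ^ i * c)) =
      (∑ c ∈ R, yh (pt L (a ^ (i + 3) * c)) - (∑ c ∈ R, yh (pt L (a ^ i * c)) + n)) + 2 * (n' : ℂ) := by
    rw [hn']
    push_cast
    ring
  rw [e]
  refine (A.valuation.map_add _ _).trans (max_le (hstep i) ?_)
  rw [map_mul]
  refine mul_le_of_le_one_right' ?_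
  have := i1_val_int A n'
  exact_mod_cast this

/-- [G1.6] duplication: `k 2 = ω^(2m)` for some `m < 3`. -/
theorem Ms_two (hR : IsR L R) (ha : IsA L a) {φ : ℂ → ℂ} (hφ : Per φ) (he : ∀ z, φ (-z) = φ z) :
    Ms L R a (fun z => φ (2 * z)) * L.k 2 = Ms L R a φ := by
  obtain ⟨m, hm, hk, hcop⟩ := g1c_k2 L
  have hw3 : w ^ 3 = 1 := CUL.w3
  have hT : ∀ i : ℕ, ∑ c ∈ R, φ (2 * pt L (a ^ i * c)) = ∑ c ∈ R, φ (pt L (a ^ (i + m) * c)) := by
    intro i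
    rw [← sum_perm hR ha hcop hk hφ he i]
    refine Finset.sum_congr rfl fun c _ => ?_
    rw [g1c_two]
  have h3 := sum_three hR ha hφ he
  unfold Ms
  rw [hk]
  simp only [Finset.sum_range_succ, Finset.sum_range_zero, zero_add, hT]
  generalize hS : (fun i : ℕ => ∑ c ∈ R, φ (pt L (a ^ i * c))) = S at *
  have hS' : ∀ i : ℕ, ∑ c ∈ R, φ (pt L (a ^ i * c)) = S i := fun i => congrFun hS i
  simp only [hS'] at h3 ⊢
  have e3 := h3 0
  have e4 := h3 1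
  interval_cases m
  · norm_num
  · norm_num at e3 e4 ⊢
    rw [e3]
    linear_combination (S 0 * (w ^ 3 + 1)) * hw3
  · norm_num at e3 e4 ⊢
    rw [e3, e4]
    linear_combination (S 0 * (w ^ 3 + 1) + S 1 * w ^ 2 * (w ^ 3 + 1)) * hw3

theorem Ms_two_yh (A : ValuationSubring ℂ) (hA : A.valuation 2 < 1) (hR : IsR L R) (ha : IsA L a) (ho : OddO L a) :
    A.valuation (Ms L R a (fun z => yh (2 * z)) * L.k 2 - Ms L R a yh) ≤ A.valuation 2 := by
  obtain ⟨m, hm, hk, hcop⟩ := g1c_k2 L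
  have hw3 : w ^ 3 = 1 := CUL.w3
  have hw2 : w ^ 2 + w + 1 = 0 := by rw [CUL.w2]; ring
  obtain ⟨n, hn⟩ := yh_perm A hA hR ha hcop hk
  have hT : ∀ i : ℕ, ∑ c ∈ R, yh (2 * pt L (a ^ i * c)) = ∑ c ∈ R, yh (pt L (a ^ i * (2 * c))) := by
    intro i
    refine Finset.sum_congr rfl fun c _ => ?_
    rw [g1c_two]
  have h3 := yh_three A hA hR ha ho
  unfold Ms
  rw [hk]
  simp only [Finset.sum_range_succ, Finset.sum_range_zero, zero_add, hT]
  obtain ⟨S, hS⟩ : ∃ S : ℕ → ℂ, ∀ i, ∑ c ∈ R, yh (pt L (a ^ i * c)) = S i := ⟨_, fun _ => rfl⟩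
  obtain ⟨T, hT⟩ : ∃ T : ℕ → ℂ, ∀ i, ∑ c ∈ R, yh (pt L (a ^ i * (2 * c))) = T i := ⟨_, fun _ => rfl⟩
  simp only [hS, hT] at h3 hn ⊢
  have hb : ∀ (k : ℕ) {x : ℂ}, A.valuation x ≤ A.valuation 2 → A.valuation (w ^ k * x) ≤ A.valuation 2 := by
    intro k x hx
    rw [map_mul, map_pow, w_val, one_pow, one_mul]
    exact hx
  have hadd : ∀ {x y : ℂ}, A.valuation x ≤ A.valuation 2 → A.valuation y ≤ A.valuation 2 → A.valuation (x + y) ≤ A.valuation 2 :=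
    fun hx hy => (A.valuation.map_add _ _).trans (max_le hx hy)
  have n0 := hn 0
  have n1 := hn 1
  have n2 := hn 2
  have f0 := h3 0
  have f1 := h3 1
  interval_cases m
  · norm_num at n0 n1 n2 ⊢
    have e : T 0 + w ^ 2 * T 1 + w ^ 4 * T 2 - (S 0 + w ^ 2 * S 1 + w ^ 4 * S 2) =
        w ^ 0 * (T 0 - (S 0 + n)) + w ^ 2 * (T 1 - (S 1 + n)) + w ^ 4 * (T 2 - (S 2 + n)) := by
      linear_combination (n * (w ^ 2 - w + 1)) * hw2
    rw [e]
    exact hadd (hadd (hb _ n0) (hb _ n1)) (hb _ n2)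
  · norm_num at n0 n1 n2 f0 ⊢
    have e : (T 0 + w ^ 2 * T 1 + w ^ 4 * T 2) * w ^ 2 - (S 0 + w ^ 2 * S 1 + w ^ 4 * S 2) =
        w ^ 2 * (T 0 - (S 1 + n)) + w ^ 4 * (T 1 - (S 2 + n)) + w ^ 6 * (T 2 - (S 3 + n)) + w ^ 6 * (S 3 - S 0) := by
      linear_combination (n * w ^ 2 * (w ^ 2 - w + 1)) * hw2 + S 0 * (w ^ 3 + 1) * hw3
    rw [e]
    exact hadd (hadd (hadd (hb _ n0) (hb _ n1)) (hb _ n2)) (hb _ f0)
  · norm_num at n0 n1 n2 f0 f1 ⊢
    have e : (T 0 + w ^ 2 * T 1 + w ^ 4 * T 2) * w ^ 4 - (S 0 + w ^ 2 * S 1 + w ^ 4 * S 2) =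
        w ^ 4 * (T 0 - (S 2 + n)) + w ^ 6 * (T 1 - (S 3 + n)) + w ^ 8 * (T 2 - (S 4 + n)) + w ^ 6 * (S 3 - S 0) +
          w ^ 8 * (S 4 - S 1) := by
      linear_combination (n * w ^ 4 * (w ^ 2 - w + 1)) * hw2 + (S 0 * (w ^ 3 + 1) + S 1 * w ^ 2 * (w ^ 3 + 1)) * hw3
    rw [e]
    exact hadd (hadd (hadd (hadd (hb _ n0) (hb _ n1)) (hb _ n2)) (hb _ f0)) (hb _ f1)

/-- [G1.7] rotation: `j = 0`: `k ω = ω`, so `a ~ ω²`; `j = 2`: `k ω = ω²`, `a ~ ω` modulo `ker k` (`sum_perm` with `g = ω²`, `ω`). -/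
theorem rot_zero (hR : IsR L R) (ha : IsA L a) (hj : L.j = 0) {φ : ℂ → ℂ} (hφ : Per φ) (he : ∀ z, φ (-z) = φ z) {l : ℕ}
    (hw : ∀ z, φ (w * z) = w ^ l * φ z) (i : ℕ) : ∑ c ∈ R, φ (pt L (a ^ (i + 1) * c)) = w ^ (2 * l) * ∑ c ∈ R, φ (pt L (a ^ i * c)) := by
  have hk1 : L.k CU.om = w := by
    rw [L.k_om, hj, sub_zero, CUL.zw_one]
  have hcop : IsCoprime (CU.om ^ 2) L.f := ⟨CU.om, 0, by rw [zero_mul, add_zero, ← pow_succ', CU.om_cube]⟩
  have hk : L.k (CU.om ^ 2) = w ^ (2 * 1) := by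
    rw [pow_two, L.k_mul, hk1, mul_one, pow_two]
  have h := sum_perm hR ha hcop hk hφ he i
  rw [← h, Finset.mul_sum]
  refine Finset.sum_congr rfl fun c _ => ?_
  have e : pt L (a ^ i * (CU.om ^ 2 * c)) = w * (w * pt L (a ^ i * c)) := by
    unfold pt
    simp only [map_mul, map_pow, CU.emb_om]
    ring
  rw [e, hw, hw, ← mul_assoc, ← pow_add, two_mul]

theorem rot_two (hR : IsR L R) (ha : IsA L a) (hj : L.j = 2) {φ : ℂ → ℂ} (hφ : Per φ) (he : ∀ z, φ (-z) = φ z) {l : ℕ}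
    (hw : ∀ z, φ (w * z) = w ^ l * φ z) (i : ℕ) : ∑ c ∈ R, φ (pt L (a ^ (i + 1) * c)) = w ^ l * ∑ c ∈ R, φ (pt L (a ^ i * c)) := by
  have hk1 : L.k CU.om = w ^ (2 * 1) := by
    rw [L.k_om, hj, show (1 : ZMod 3) - 2 = 2 by decide, CUL.zw_two, mul_one]
  have hcop : IsCoprime CU.om L.f := ⟨CU.om ^ 2, 0, by rw [zero_mul, add_zero, ← pow_succ, CU.om_cube]⟩
  have h := sum_perm hR ha hcop hk1 hφ he i
  rw [← h, Finset.mul_sum]
  refine Finset.sum_congr rfl fun c _ => ?_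
  have e : pt L (a ^ i * (CU.om * c)) = w * pt L (a ^ i * c) := by
    unfold pt
    rw [map_mul, map_mul, CU.emb_om, map_mul]
    ring
  rw [e, hw]

theorem Ms_zero (hR : IsR L R) (ha : IsA L a) (hj : L.j = 0) {φ : ℂ → ℂ} (hφ : Per φ) (he : ∀ z, φ (-z) = φ z)
    (hw : ∀ z, φ (w * z) = w ^ 2 * φ z) : Ms L R a φ = 3 * ∑ c ∈ R, φ (pt L c) := by
  have h := rot_zero hR ha hj hφ he hw
  have h1 := h 0
  have h2 := h 1
  have hw3 : w ^ 3 = 1 := CUL.w3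
  have h0 : ∑ c ∈ R, φ (pt L (a ^ 0 * c)) = ∑ c ∈ R, φ (pt L c) := by
    refine Finset.sum_congr rfl fun c _ => ?_
    rw [pow_zero, one_mul]
  unfold Ms
  simp only [Finset.sum_range_succ, Finset.sum_range_zero, zero_add] at h1 h2 ⊢
  norm_num at h1 h2 h0 ⊢
  rw [h2, h1]
  linear_combination (∑ c ∈ R, φ (pt L c)) * (w ^ 3 + 1 + (w ^ 9 + w ^ 6 + w ^ 3 + 1)) * hw3

theorem Ms_j2 (hR : IsR L R) (ha : IsA L a) (hj : L.j = 2) {φ : ℂ → ℂ} (hφ : Per φ) (he : ∀ z, φ (-z) = φ z)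
    (hw : ∀ z, φ (w * z) = w * φ z) : Ms L R a φ = 3 * ∑ c ∈ R, φ (pt L c) := by
  have h := rot_two hR ha hj hφ he (l := 1) (fun z => by rw [hw, pow_one])
  have h1 := h 0
  have h2 := h 1
  have hw3 : w ^ 3 = 1 := CUL.w3
  unfold Ms
  simp only [Finset.sum_range_succ, Finset.sum_range_zero, zero_add] at h1 h2 ⊢
  norm_num at h1 h2 ⊢
  rw [h2, h1]
  linear_combination (∑ c ∈ R, φ (pt L c)) * (1 + (w ^ 3 + 1)) * hw3

end J2L
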