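import Pool.Agent.J2L.JTi

/-!
# [J2L-G3] the digits of the elliptic unit, `v = 0, 3` (`j = 1`), and the moments `Ms (gM v δ)`

`m₁ = Ms yh`, `m₂ = Ms yh²`; everything modulo `2`. Duplication: `yh(2z) ≡ yh⁴ + 1`, `x(2z) ≡ x⁴` (`yh2_two`, `x2_two`), `emb ζ * k 2 = 1` (`d.k2`), `Ms_two`, `Ms_two_yh`,
`x³ = yh² + yh` (`yh_sq`), `Ms_const`, `Ms_int`.
-/

set_option autoImplicit false

open scoped Classical

namespace J2L

open CM27

open CU (om)

open CUL (Nl ez IsRep rp cr zw)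

open Q3V (OT)

variable {D : Eis} (A : ValuationSubring ℂ) (hA : A.valuation 2 < 1) (d : Dt D) {R : Finset Eis} {a : Eis}

theorem g3a_zeta : A.valuation (emb d.ζ) ≤ 1 := by
  have h1 : emb d.ζ ^ 3 = 1 := by rw [← map_pow, d.hζ, map_one]
  have h2 : A.valuation (emb d.ζ) ^ 3 = 1 := by rw [← map_pow, h1, map_one]
  exact (pow_le_one_iff (by norm_num)).mp h2.le

theorem g3a_sub {L : Lv} {R : Finset Eis} {a : Eis} (g g' : ℂ → ℂ) :
    Ms L R a (fun z => g z - g' z) = Ms L R a g - Ms L R a g' := by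
  have h1 := Ms_add (L := L) (R := R) (a := a) g (fun z => (-1) * g' z)
  rw [Ms_smul] at h1
  have e : (fun z => g z - g' z) = fun z => g z + (-1) * g' z := by funext z; ring
  rw [e, h1]
  ring

include d in
theorem g3a_unit {R : Finset Eis} {a : Eis} (hR : IsR d.L R) (ha : IsA d.L a) {φ : ℂ → ℂ}
    (hφ : Per φ) (he : ∀ z, φ (-z) = φ z) :
    Ms d.L R a (fun z => φ (2 * z)) = emb d.ζ * Ms d.L R a φ := by
  have h1 := Ms_two hR ha hφ he
  have h2 := d.k2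
  rw [← h1]
  linear_combination (-(Ms d.L R a (fun z => φ (2 * z)))) * h2

theorem g3a_key (hR : IsR d.L R) (ha : IsA d.L a) {φ g : ℂ → ℂ}
    (hφ : Per φ) (he : ∀ z, φ (-z) = φ z)
    (hg : ∀ z, OT z → A.valuation (g z - φ (2 * z)) ≤ A.valuation 2) :
    A.valuation (Ms d.L R a g - emb d.ζ * Ms d.L R a φ) ≤ A.valuation 2 := by
  rw [← g3a_unit d hR ha hφ he, ← g3a_sub]
  exact Ms_int A hR ha hg

theorem g3a_per_pow {φ : ℂ → ℂ} (hφ : Per φ) (n : ℕ) : Per (fun z => φ z ^ n) := by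
  intro z e
  change φ (z + emb e) ^ n = φ z ^ n
  rw [hφ]

include hA in
theorem g3a_x2_int {z : ℂ} (h : OT z) : A.valuation (xw (2 * z)) ≤ 1 := x_int A hA h.two

include hA in
/-- [G3.1] -/
theorem mom_x4 (hR : IsR d.L R) (ha : IsA d.L a) :
    A.valuation (Ms d.L R a (fun z => xw z ^ 4) - emb d.ζ * Ms d.L R a xw) ≤ A.valuation 2 := by
  refine g3a_key A d hR ha per_xw xw_neg fun z hz => ?_
  rw [← Valuation.map_neg, neg_sub]
  exact x2_two A hA hz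

include hA in
theorem mom_x8 (hR : IsR d.L R) (ha : IsA d.L a) :
    A.valuation (Ms d.L R a (fun z => xw z ^ 8) - emb d.ζ * Ms d.L R a (fun z => xw z ^ 2)) ≤ A.valuation 2 := by
  refine g3a_key A d hR ha (g3a_per_pow per_xw 2) (fun z => by rw [xw_neg]) fun z hz => ?_
  have h1 := x2_two A hA hz
  have h2 := g3a_x2_int A hA hz
  have h3 : A.valuation (xw z ^ 4) ≤ 1 := by
    rw [map_pow]
    exact pow_le_one₀ zero_le (x_int A hA hz)
  have e : xw z ^ 8 - xw (2 * z) ^ 2 = -((xw (2 * z) - xw z ^ 4) * (xw (2 * z) + xw z ^ 4)) := by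
    ring
  rw [e, Valuation.map_neg, map_mul]
  exact (mul_le_mul' h1 ((A.valuation.map_add _ _).trans (max_le h2 h3))).trans (mul_one _).le

include hA in
theorem g3a_yh2 (hR : IsR d.L R) (ha : IsA d.L a) (ho : OddO d.L a) :
    A.valuation (Ms d.L R a (fun z => yh (2 * z)) - emb d.ζ * Ms d.L R a yh) ≤ A.valuation 2 := by
  have h1 := Ms_two_yh A hA hR ha ho
  have e : Ms d.L R a (fun z => yh (2 * z)) - emb d.ζ * Ms d.L R a yh =
      emb d.ζ * (Ms d.L R a (fun z => yh (2 * z)) * d.L.k 2 - Ms d.L R a yh) := by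
    have h2 := d.k2
    linear_combination (-(Ms d.L R a (fun z => yh (2 * z)))) * h2
  rw [e, map_mul]
  exact (mul_le_mul' (g3a_zeta A d) h1).trans (one_mul _).le

include hA in
theorem mom_y4 (hR : IsR d.L R) (ha : IsA d.L a) (ho : OddO d.L a) :
    A.valuation (Ms d.L R a (fun z => yh z ^ 4) - emb d.ζ * Ms d.L R a yh) ≤ A.valuation 2 := by
  have h1 := g3a_yh2 A hA d hR ha ho
  have h2 : A.valuation (Ms d.L R a (fun z => yh z ^ 4 + 1 - yh (2 * z))) ≤ A.valuation 2 := by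
    refine Ms_int A hR ha fun z hz => ?_
    rw [← Valuation.map_neg, neg_sub]
    exact yh2_two A hA hz
  rw [g3a_sub (fun z => yh z ^ 4 + 1), Ms_add (fun z => yh z ^ 4) (fun _ => 1), Ms_const,
    add_zero] at h2
  have e : Ms d.L R a (fun z => yh z ^ 4) - emb d.ζ * Ms d.L R a yh =
      (Ms d.L R a (fun z => yh z ^ 4) - Ms d.L R a (fun z => yh (2 * z))) +
        (Ms d.L R a (fun z => yh (2 * z)) - emb d.ζ * Ms d.L R a yh) := by ring
  rw [e]
  exact (A.valuation.map_add _ _).trans (max_le h2 h1)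

include hA in
/-- `Ms (yh(2·)²) k 2 ≡ Ms yh²`: from `yh² = x³ - yh`. -/
theorem mom_y8 (hR : IsR d.L R) (ha : IsA d.L a) (ho : OddO d.L a) :
    A.valuation (Ms d.L R a (fun z => yh z ^ 8) - emb d.ζ * Ms d.L R a (fun z => yh z ^ 2)) ≤ A.valuation 2 := by
  have h1 := g3a_yh2 A hA d hR ha ho
  have h2 : A.valuation (Ms d.L R a (fun z => yh z ^ 8 + yh (2 * z) + 1) -
      emb d.ζ * Ms d.L R a (fun z => xw z ^ 3)) ≤ A.valuation 2 := by
    refine g3a_key A d hR ha (g3a_per_pow per_xw 3) (fun z => by rw [xw_neg]) fun z hz => ?_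
    have h3 := yh2_two A hA hz
    have h4 := yh_sq hz.two
    have h5 := yh_int A hA hz
    have h6 := yh_int A hA hz.two
    have h7 : A.valuation (yh z ^ 4) ≤ 1 := by
      rw [map_pow]
      exact pow_le_one₀ zero_le h5
    have e : yh z ^ 8 + yh (2 * z) + 1 - xw (2 * z) ^ 3 =
        -((yh (2 * z) - (yh z ^ 4 + 1)) * (yh (2 * z) + (yh z ^ 4 + 1))) - 2 * yh z ^ 4 := by
      linear_combination h4
    rw [e]
    refine (A.valuation.map_sub _ _).trans (max_le ?_ ?_)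
    · rw [Valuation.map_neg, map_mul]
      refine (mul_le_mul' h3 ((A.valuation.map_add _ _).trans (max_le h6
        ((A.valuation.map_add _ _).trans (max_le h7 (by rw [map_one])))))).trans (mul_one _).le
    · rw [map_mul]
      exact (mul_le_mul' le_rfl h7).trans (mul_one _).le
  have h3 : Ms d.L R a (fun z => yh z ^ 8 + yh (2 * z) + 1) =
      Ms d.L R a (fun z => yh z ^ 8) + Ms d.L R a (fun z => yh (2 * z)) := by
    rw [Ms_add (fun z => yh z ^ 8 + yh (2 * z)) (fun _ => 1), Ms_const, add_zero,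
      Ms_add (fun z => yh z ^ 8) (fun z => yh (2 * z))]
  have h4 : Ms d.L R a (fun z => xw z ^ 3) =
      Ms d.L R a (fun z => yh z ^ 2) + Ms d.L R a yh := by
    rw [← Ms_add (fun z => yh z ^ 2) yh]
    exact Ms_congr hR ha fun z hz => (yh_sq hz).symm
  rw [h3, h4] at h2
  have e : Ms d.L R a (fun z => yh z ^ 8) - emb d.ζ * Ms d.L R a (fun z => yh z ^ 2) =
      (Ms d.L R a (fun z => yh z ^ 8) + Ms d.L R a (fun z => yh (2 * z)) -
        emb d.ζ * (Ms d.L R a (fun z => yh z ^ 2) + Ms d.L R a yh)) -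
        (Ms d.L R a (fun z => yh (2 * z)) - emb d.ζ * Ms d.L R a yh) := by ring
  rw [e]
  exact (A.valuation.map_sub _ _).trans (max_le h2 h1)

/-! ### helpers of row G3b -/

theorem g3b_mul (A : ValuationSubring ℂ) {c x : ℂ} (hc : c ∈ A) (hx : A.valuation x ≤ A.valuation 2) : A.valuation (c * x) ≤ A.valuation 2 := by
  rw [map_mul]
  calc A.valuation c * A.valuation x ≤ 1 * A.valuation 2 := mul_le_mul' ((ValuationSubring.valuation_le_one_iff A _).2 hc) hx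
    _ = A.valuation 2 := one_mul _

theorem g3b_two (A : ValuationSubring ℂ) {J : ℂ} (hJ : J ∈ A) : A.valuation (2 * J) ≤ A.valuation 2 := by
  rw [mul_comm]
  exact g3b_mul A hJ le_rfl

theorem g3b_add (A : ValuationSubring ℂ) {x y : ℂ} (hx : A.valuation x ≤ A.valuation 2) (hy : A.valuation y ≤ A.valuation 2) :
    A.valuation (x + y) ≤ A.valuation 2 := (Valuation.map_add A.valuation _ _).trans (max_le hx hy)

theorem g3b_w (A : ValuationSubring ℂ) : w ∈ A := (ValuationSubring.valuation_le_one_iff A _).1 (Q3V.v_w A).le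

theorem g3b_int (A : ValuationSubring ℂ) (n : ℤ) : (n : ℂ) ∈ A := intCast_mem A n

theorem g3b_emb (A : ValuationSubring ℂ) (x : Eis) : emb x ∈ A := by
  have h : emb x = (x.re : ℂ) + (x.im : ℂ) * w := by
    rw [emb_apply]
  rw [h]
  exact add_mem (g3b_int A _) (mul_mem (g3b_int A _) (g3b_w A))

/-- the four classes of `δ` modulo `2`, in `ℂ` -/
theorem g3b_del (A : ValuationSubring ℂ) (δ : Eis) : (2 : Eis) ∣ δ ∧ (∃ k ∈ A, emb δ = 2 * k) ∨
    ¬ (2 : Eis) ∣ δ ∧ (2 : Eis) ∣ δ - 1 ∧ (∃ k ∈ A, emb δ = 1 + 2 * k) ∨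
    ¬ (2 : Eis) ∣ δ ∧ ¬ (2 : Eis) ∣ δ - 1 ∧ (2 : Eis) ∣ δ - om ∧ (∃ k ∈ A, emb δ = w + 2 * k) ∨
    ¬ (2 : Eis) ∣ δ ∧ ¬ (2 : Eis) ∣ δ - 1 ∧ ¬ (2 : Eis) ∣ δ - om ∧ (∃ k ∈ A, emb δ = w ^ 2 + 2 * k) := by
  have key : ∀ r : Eis, (2 : Eis) ∣ δ - r → ∃ k ∈ A, emb δ = emb r + 2 * k := by
    rintro r ⟨k, hk⟩
    refine ⟨emb k, g3b_emb A k, ?_⟩
    have h1 : δ = r + 2 * k := by rw [← hk]; ring
    rw [h1, map_add, map_mul, map_ofNat]
  by_cases h0 : (2 : Eis) ∣ δ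
  · left
    refine ⟨h0, ?_⟩
    obtain ⟨k, hk, h⟩ := key 0 (by rwa [sub_zero])
    exact ⟨k, hk, by rw [h, map_zero, zero_add]⟩
  right
  by_cases h1 : (2 : Eis) ∣ δ - 1
  · left
    refine ⟨h0, h1, ?_⟩
    obtain ⟨k, hk, h⟩ := key 1 h1
    exact ⟨k, hk, by rw [h, map_one]⟩
  right
  by_cases h2 : (2 : Eis) ∣ δ - om
  · left
    refine ⟨h0, h1, h2, ?_⟩
    obtain ⟨k, hk, h⟩ := key om h2
    exact ⟨k, hk, by rw [h, CU.emb_om]⟩
  · right
    refine ⟨h0, h1, h2, ?_⟩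
    have h3 : (2 : Eis) ∣ δ - om ^ 2 := by
      have e0 : ∀ x : Eis, (2 : Eis) ∣ x ↔ (2 : ℤ) ∣ x.re ∧ (2 : ℤ) ∣ x.im := by
        intro x
        have e1 : (2 : Eis).re = 2 := rfl
        have e2 : (2 : Eis).im = 0 := rfl
        constructor
        · rintro ⟨k, rfl⟩
          rw [QuadraticAlgebra.re_mul, QuadraticAlgebra.im_mul, e1, e2]
          constructor <;> omega
        · rintro ⟨⟨u, hu⟩, ⟨v, hv⟩⟩
          refine ⟨⟨u, v⟩, ?_⟩
          apply QuadraticAlgebra.ext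
          · rw [QuadraticAlgebra.re_mul, e1, e2, hu]
            ring
          · rw [QuadraticAlgebra.im_mul, e1, e2, hv]
            ring
      have e5 : (om : Eis) ^ 2 = ⟨-1, -1⟩ := by decide
      rw [e5]
      rw [e0] at h0 h1 h2 ⊢
      simp only [QuadraticAlgebra.re_sub, QuadraticAlgebra.im_sub] at h0 h1 h2 ⊢
      have e1 : (1 : Eis).re = 1 := rfl
      have e2 : (1 : Eis).im = 0 := rfl
      have e3 : (om : Eis).re = 0 := rfl
      have e4 : (om : Eis).im = 1 := rfl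
      rw [e1, e2] at h1
      rw [e3, e4] at h2
      omega
    obtain ⟨k, hk, h⟩ := key (om ^ 2) h3
    exact ⟨k, hk, by rw [h, map_pow, CU.emb_om]⟩

/-- congruence of moments -/
theorem g3b_Ms (A : ValuationSubring ℂ) {L : Lv} {R : Finset Eis} {a : Eis} (hR : IsR L R) (ha : IsA L a) {g g' : ℂ → ℂ}
    (h : ∀ z, OT z → A.valuation (g z - g' z) ≤ A.valuation 2) : A.valuation (Ms L R a g - Ms L R a g') ≤ A.valuation 2 := by
  have e : Ms L R a g - Ms L R a g' = Ms L R a (fun z => g z - g' z) := by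
    have h1 : Ms L R a g = Ms L R a (fun z => (fun z => g z - g' z) z + g' z) := Ms_congr hR ha (fun z _ => by ring)
    rw [h1, Ms_add]
    ring
  rw [e]
  exact Ms_int A hR ha h

theorem g3b_mem (A : ValuationSubring ℂ) {L : Lv} {R : Finset Eis} {a : Eis} (hR : IsR L R) (ha : IsA L a) {g : ℂ → ℂ}
    (h : ∀ z, OT z → A.valuation (g z) ≤ 1) : Ms L R a g ∈ A :=
  (ValuationSubring.valuation_le_one_iff A _).1 (Ms_int A hR ha h)


include hA in
theorem g3b_x3 (hR : IsR d.L R) (ha : IsA d.L a) :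
    Ms d.L R a (fun z => xw z ^ 3) = Ms d.L R a yh + Ms d.L R a (fun z => yh z ^ 2) := by
  rw [← Ms_add]
  refine Ms_congr hR ha (fun z hz => ?_)
  rw [← yh_sq hz]
  ring

include hA in
theorem g3b_x6 (hR : IsR d.L R) (ha : IsA d.L a) (ho : OddO d.L a) :
    A.valuation (Ms d.L R a (fun z => xw z ^ 6) - (emb d.ζ * Ms d.L R a yh + Ms d.L R a (fun z => yh z ^ 2))) ≤ A.valuation 2 := by
  have h1 : A.valuation (Ms d.L R a (fun z => xw z ^ 6) - Ms d.L R a (fun z => yh z ^ 4 + yh z ^ 2)) ≤ A.valuation 2 := by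
    refine g3b_Ms A hR ha (fun z hz => ?_)
    have hy : yh z ∈ A := (ValuationSubring.valuation_le_one_iff A _).1 (yh_int A hA hz)
    have e : xw z ^ 6 - (yh z ^ 4 + yh z ^ 2) = 2 * yh z ^ 3 := by
      have h2 := yh_sq hz
      have h3 : xw z ^ 6 = (xw z ^ 3) ^ 2 := by ring
      rw [h3, ← h2]
      ring
    rw [e]
    exact g3b_two A (pow_mem hy 3)
  have h2 : Ms d.L R a (fun z => yh z ^ 4 + yh z ^ 2) = Ms d.L R a (fun z => yh z ^ 4) + Ms d.L R a (fun z => yh z ^ 2) := Ms_add _ _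
  rw [h2] at h1
  have h3 := mom_y4 A hA d hR ha ho
  have e : Ms d.L R a (fun z => xw z ^ 6) - (emb d.ζ * Ms d.L R a yh + Ms d.L R a (fun z => yh z ^ 2)) =
      (Ms d.L R a (fun z => xw z ^ 6) - (Ms d.L R a (fun z => yh z ^ 4) + Ms d.L R a (fun z => yh z ^ 2))) +
      (Ms d.L R a (fun z => yh z ^ 4) - emb d.ζ * Ms d.L R a yh) := by ring
  rw [e]
  exact g3b_add A h1 h3

include hA in
theorem g3b_x12 (hR : IsR d.L R) (ha : IsA d.L a) (ho : OddO d.L a) :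
    A.valuation (Ms d.L R a (fun z => xw z ^ 12) - (emb d.ζ * Ms d.L R a (fun z => yh z ^ 2) + emb d.ζ * Ms d.L R a yh)) ≤ A.valuation 2 := by
  have h1 : A.valuation (Ms d.L R a (fun z => xw z ^ 12) - Ms d.L R a (fun z => yh z ^ 8 + yh z ^ 4)) ≤ A.valuation 2 := by
    refine g3b_Ms A hR ha (fun z hz => ?_)
    have hy : yh z ∈ A := (ValuationSubring.valuation_le_one_iff A _).1 (yh_int A hA hz)
    have e : xw z ^ 12 - (yh z ^ 8 + yh z ^ 4) = 2 * (2 * yh z ^ 7 + 3 * yh z ^ 6 + 2 * yh z ^ 5) := by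
      have h2 := yh_sq hz
      have h3 : xw z ^ 12 = (xw z ^ 3) ^ 4 := by ring
      rw [h3, ← h2]
      ring
    rw [e]
    have h2 : (2 : ℂ) ∈ A := by exact_mod_cast g3b_int A 2
    have h3 : (3 : ℂ) ∈ A := by exact_mod_cast g3b_int A 3
    exact g3b_two A (by (repeat' (first | assumption | apply pow_mem | apply add_mem | apply sub_mem | apply neg_mem | apply mul_mem)))
  have h2 : Ms d.L R a (fun z => yh z ^ 8 + yh z ^ 4) = Ms d.L R a (fun z => yh z ^ 8) + Ms d.L R a (fun z => yh z ^ 4) := Ms_add _ _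
  rw [h2] at h1
  have h3 := mom_y4 A hA d hR ha ho
  have h4 := mom_y8 A hA d hR ha ho
  have e : Ms d.L R a (fun z => xw z ^ 12) - (emb d.ζ * Ms d.L R a (fun z => yh z ^ 2) + emb d.ζ * Ms d.L R a yh) =
      ((Ms d.L R a (fun z => xw z ^ 12) - (Ms d.L R a (fun z => yh z ^ 8) + Ms d.L R a (fun z => yh z ^ 4))) +
      (Ms d.L R a (fun z => yh z ^ 8) - emb d.ζ * Ms d.L R a (fun z => yh z ^ 2))) +
      (Ms d.L R a (fun z => yh z ^ 4) - emb d.ζ * Ms d.L R a yh) := by ring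
  rw [e]
  exact g3b_add A (g3b_add A h1 h4) h3

include hA in
/-- [G3.2] `Ms x³ = m₁ + m₂`, `Ms x⁶ ≡ ζ m₁ + m₂`; four cases for `δ` modulo `2`, for example `δ = ω`: `gM = w² x⁶ + x³`. -/
theorem gM_zero (hR : IsR d.L R) (ha : IsA d.L a) (ho : OddO d.L a) :
    A.valuation (emb d.ζ ^ 2 * Ms d.L R a (gM 0 d.δ) - ((emb d.ζ + emb d.δ) ^ 2 * Ms d.L R a yh +
      emb d.δ * emb d.ζ ^ 2 * Ms d.L R a (fun z => yh z ^ 2))) ≤ A.valuation 2 := by
  have h3 := g3b_x3 A hA d hR ha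
  have h6 := g3b_x6 A hA d hR ha ho
  have hm1 : Ms d.L R a yh ∈ A := g3b_mem A hR ha (fun z hz => yh_int A hA hz)
  have hm2 : Ms d.L R a (fun z => yh z ^ 2) ∈ A := g3b_mem A hR ha (fun z hz => by
    rw [map_pow]; exact pow_le_one₀ zero_le (yh_int A hA hz))
  have hz : emb d.ζ ∈ A := g3b_emb A _
  have hw := g3b_w A
  have hw2 := CUL.w2
  have hz3 : emb d.ζ ^ 3 = 1 := by rw [← map_pow, d.hζ, map_one]
  obtain ⟨m1, e1⟩ : ∃ m, m = Ms d.L R a yh := ⟨_, rfl⟩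
  obtain ⟨m2, e2⟩ : ∃ m, m = Ms d.L R a (fun z => yh z ^ 2) := ⟨_, rfl⟩
  obtain ⟨M6, e6⟩ : ∃ m, m = Ms d.L R a (fun z => xw z ^ 6) := ⟨_, rfl⟩
  obtain ⟨Z, eZ⟩ : ∃ m, m = emb d.ζ := ⟨_, rfl⟩
  rw [← e1, ← e2] at h3
  rw [← e1] at hm1
  rw [← e2] at hm2
  rw [← e1, ← e2, ← e6, ← eZ] at h6
  rw [← eZ] at hz hz3
  rw [← e1, ← e2, ← eZ]
  have h1A : (1 : ℂ) ∈ A := one_mem A
  have h2A : (2 : ℂ) ∈ A := by exact_mod_cast g3b_int A 2
  rcases g3b_del A d.δ with ⟨hd, k, hk, hδ⟩ | ⟨hd, hd1, k, hk, hδ⟩ | ⟨hd, hd1, hd2, k, hk, hδ⟩ | ⟨hd, hd1, hd2, k, hk, hδ⟩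
  · have hg : Ms d.L R a (gM 0 d.δ) = m1 := by
      rw [e1]
      congr 1
      funext z
      unfold gM
      rw [if_pos rfl, if_pos hd]
    rw [hg, hδ]
    have e : Z ^ 2 * m1 - ((Z + 2 * k) ^ 2 * m1 + 2 * k * Z ^ 2 * m2) = 2 * (-(2 * Z * k + 2 * k ^ 2) * m1 - k * Z ^ 2 * m2) := by ring
    rw [e]
    exact g3b_two A (by (repeat' (first | assumption | apply pow_mem | apply add_mem | apply sub_mem | apply neg_mem | apply mul_mem)))
  · have hg : Ms d.L R a (gM 0 d.δ) = m1 + M6 := by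
      rw [e1, e6, ← Ms_add]
      congr 1
      funext z
      unfold gM
      rw [if_pos rfl, if_neg hd, if_pos hd1]
    rw [hg, hδ]
    have e : Z ^ 2 * (m1 + M6) - ((Z + (1 + 2 * k)) ^ 2 * m1 + (1 + 2 * k) * Z ^ 2 * m2) =
        Z ^ 2 * (M6 - (Z * m1 + m2)) + 2 * (-(Z + 2 * Z * k + 2 * k + 2 * k ^ 2) * m1 - k * Z ^ 2 * m2) := by
      linear_combination m1 * hz3
    rw [e]
    exact g3b_add A (g3b_mul A (by (repeat' (first | assumption | apply pow_mem | apply add_mem | apply sub_mem | apply neg_mem | apply mul_mem))) h6) (g3b_two A (by (repeat' (first | assumption | apply pow_mem | apply add_mem | apply sub_mem | apply neg_mem | apply mul_mem))))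
  · have hg : Ms d.L R a (gM 0 d.δ) = w ^ 2 * M6 + (m1 + m2) := by
      rw [← h3, e6, ← Ms_smul, ← Ms_add]
      congr 1
      funext z
      unfold gM
      rw [if_pos rfl, if_neg hd, if_neg hd1, if_pos hd2]
    rw [hg, hδ]
    have e : Z ^ 2 * (w ^ 2 * M6 + (m1 + m2)) - ((Z + (w + 2 * k)) ^ 2 * m1 + (w + 2 * k) * Z ^ 2 * m2) =
        (Z ^ 2 * w ^ 2) * (M6 - (Z * m1 + m2)) + 2 * (-(Z * w + 2 * Z * k + 2 * w * k + 2 * k ^ 2) * m1 - (w + k) * Z ^ 2 * m2) := by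
      linear_combination w ^ 2 * m1 * hz3 + Z ^ 2 * m2 * hw2
    rw [e]
    exact g3b_add A (g3b_mul A (by (repeat' (first | assumption | apply pow_mem | apply add_mem | apply sub_mem | apply neg_mem | apply mul_mem))) h6) (g3b_two A (by (repeat' (first | assumption | apply pow_mem | apply add_mem | apply sub_mem | apply neg_mem | apply mul_mem))))
  · have hg : Ms d.L R a (gM 0 d.δ) = w * M6 + (m1 + m2) := by
      rw [← h3, e6, ← Ms_smul, ← Ms_add]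
      congr 1
      funext z
      unfold gM
      rw [if_pos rfl, if_neg hd, if_neg hd1, if_neg hd2]
    rw [hg, hδ]
    have hw3 := CUL.w3
    have e : Z ^ 2 * (w * M6 + (m1 + m2)) - ((Z + (w ^ 2 + 2 * k)) ^ 2 * m1 + (w ^ 2 + 2 * k) * Z ^ 2 * m2) =
        (Z ^ 2 * w) * (M6 - (Z * m1 + m2)) + 2 * (-(Z * w ^ 2 + 2 * Z * k + 2 * w ^ 2 * k + 2 * k ^ 2) * m1 - (w ^ 2 + k) * Z ^ 2 * m2) := by
      linear_combination w * m1 * hz3 + Z ^ 2 * m2 * hw2 - w * m1 * hw3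
    rw [e]
    exact g3b_add A (g3b_mul A (by (repeat' (first | assumption | apply pow_mem | apply add_mem | apply sub_mem | apply neg_mem | apply mul_mem))) h6) (g3b_two A (by (repeat' (first | assumption | apply pow_mem | apply add_mem | apply sub_mem | apply neg_mem | apply mul_mem))))

include hA in
theorem gM_three (hR : IsR d.L R) (ha : IsA d.L a) (ho : OddO d.L a) :
    A.valuation (Ms d.L R a (gM 3 d.δ) - (1 + emb d.ζ) * Ms d.L R a (fun z => yh z ^ 2)) ≤ A.valuation 2 := by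
  have h6 := g3b_x6 A hA d hR ha ho
  have h12 := g3b_x12 A hA d hR ha ho
  have hm1 : Ms d.L R a yh ∈ A := g3b_mem A hR ha (fun z hz => yh_int A hA hz)
  have hz : emb d.ζ ∈ A := g3b_emb A _
  have hg : Ms d.L R a (gM 3 d.δ) = Ms d.L R a (fun z => xw z ^ 6) + Ms d.L R a (fun z => xw z ^ 12) := by
    rw [← Ms_add]
    congr 1
  have e : Ms d.L R a (gM 3 d.δ) - (1 + emb d.ζ) * Ms d.L R a (fun z => yh z ^ 2) =
      (Ms d.L R a (fun z => xw z ^ 6) - (emb d.ζ * Ms d.L R a yh + Ms d.L R a (fun z => yh z ^ 2))) +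
      (Ms d.L R a (fun z => xw z ^ 12) - (emb d.ζ * Ms d.L R a (fun z => yh z ^ 2) + emb d.ζ * Ms d.L R a yh)) +
      2 * (emb d.ζ * Ms d.L R a yh) := by
    rw [hg]
    ring
  rw [e]
  exact g3b_add A (g3b_add A h6 h12) (g3b_two A (mul_mem hz hm1))

include hA in
theorem gM_two (hR : IsR d.L R) (ha : IsA d.L a) :
    A.valuation (Ms d.L R a (gM 2 d.δ) - (1 + emb d.ζ * emb d.δ) * Ms d.L R a xw) ≤ A.valuation 2 := by
  have h4 := mom_x4 A hA d hR ha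
  have hm : Ms d.L R a xw ∈ A := g3b_mem A hR ha (fun z hz => x_int A hA hz)
  have hz : emb d.ζ ∈ A := g3b_emb A _
  have hw := g3b_w A
  obtain ⟨m, e1⟩ : ∃ m, m = Ms d.L R a xw := ⟨_, rfl⟩
  obtain ⟨M4, e4⟩ : ∃ m, m = Ms d.L R a (fun z => xw z ^ 4) := ⟨_, rfl⟩
  obtain ⟨Z, eZ⟩ : ∃ m, m = emb d.ζ := ⟨_, rfl⟩
  rw [← e1, ← e4, ← eZ] at h4
  rw [← e1] at hm
  rw [← eZ] at hz
  rw [← e1, ← eZ]
  rcases g3b_del A d.δ with ⟨hd, k, hk, hδ⟩ | ⟨hd, hd1, k, hk, hδ⟩ | ⟨hd, hd1, hd2, k, hk, hδ⟩ | ⟨hd, hd1, hd2, k, hk, hδ⟩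
  · have hg : Ms d.L R a (gM 2 d.δ) = m := by
      rw [e1]
      congr 1
      funext z
      unfold gM
      rw [if_neg (by norm_num), if_neg (by norm_num), if_pos rfl, if_pos hd]
    rw [hg, hδ]
    have e : m - (1 + Z * (2 * k)) * m = 2 * (-(Z * k * m)) := by ring
    rw [e]
    exact g3b_two A (by (repeat' (first | assumption | apply pow_mem | apply add_mem | apply sub_mem | apply neg_mem | apply mul_mem)))
  · have hg : Ms d.L R a (gM 2 d.δ) = m + M4 := by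
      rw [e1, e4, ← Ms_add]
      congr 1
      funext z
      unfold gM
      rw [if_neg (by norm_num), if_neg (by norm_num), if_pos rfl, if_neg hd, if_pos hd1]
    rw [hg, hδ]
    have e : m + M4 - (1 + Z * (1 + 2 * k)) * m = (M4 - Z * m) + 2 * (-(Z * k * m)) := by ring
    rw [e]
    exact g3b_add A h4 (g3b_two A (by (repeat' (first | assumption | apply pow_mem | apply add_mem | apply sub_mem | apply neg_mem | apply mul_mem))))
  · have hg : Ms d.L R a (gM 2 d.δ) = m + w * M4 := by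
      rw [e1, e4, ← Ms_smul, ← Ms_add]
      congr 1
      funext z
      unfold gM
      rw [if_neg (by norm_num), if_neg (by norm_num), if_pos rfl, if_neg hd, if_neg hd1, if_pos hd2]
    rw [hg, hδ]
    have e : m + w * M4 - (1 + Z * (w + 2 * k)) * m = w * (M4 - Z * m) + 2 * (-(Z * k * m)) := by ring
    rw [e]
    exact g3b_add A (g3b_mul A hw h4) (g3b_two A (by (repeat' (first | assumption | apply pow_mem | apply add_mem | apply sub_mem | apply neg_mem | apply mul_mem))))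
  · have hg : Ms d.L R a (gM 2 d.δ) = m + w ^ 2 * M4 := by
      rw [e1, e4, ← Ms_smul, ← Ms_add]
      congr 1
      funext z
      unfold gM
      rw [if_neg (by norm_num), if_neg (by norm_num), if_pos rfl, if_neg hd, if_neg hd1, if_neg hd2]
    rw [hg, hδ]
    have e : m + w ^ 2 * M4 - (1 + Z * (w ^ 2 + 2 * k)) * m = w ^ 2 * (M4 - Z * m) + 2 * (-(Z * k * m)) := by ring
    rw [e]
    exact g3b_add A (g3b_mul A (by (repeat' (first | assumption | apply pow_mem | apply add_mem | apply sub_mem | apply neg_mem | apply mul_mem))) h4) (g3b_two A (by (repeat' (first | assumption | apply pow_mem | apply add_mem | apply sub_mem | apply neg_mem | apply mul_mem))))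

include hA in
theorem gM_five (hR : IsR d.L R) (ha : IsA d.L a) :
    A.valuation (Ms d.L R a (gM 5 d.δ) - emb d.ζ * Ms d.L R a xw) ≤ A.valuation 2 := by
  exact mom_x4 A hA d hR ha

theorem gM_four : gM 4 d.δ = fun z => xw z ^ 2 := by
  funext z
  unfold gM
  norm_num

/-- the functional for `v = 1` -/
noncomputable def lam1 (ζ δ : Eis) (z : ℂ) : ℂ :=
  xw z ^ 20 + xw z ^ 14 + xw z ^ 8 + xw z ^ 5 + xw z ^ 2 + (1 + emb δ + emb ζ * emb δ ^ 2) * xw z ^ 2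

include hA in
theorem gM_one (hR : IsR d.L R) (ha : IsA d.L a) :
    A.valuation (Ms d.L R a (gM 1 d.δ) - Ms d.L R a (lam1 d.ζ d.δ)) ≤ A.valuation 2 := by
  have h8 := mom_x8 A hA d hR ha
  have hm : Ms d.L R a (fun z => xw z ^ 2) ∈ A := g3b_mem A hR ha (fun z hz => by
    rw [map_pow]; exact pow_le_one₀ zero_le (x_int A hA hz))
  have hz : emb d.ζ ∈ A := g3b_emb A _
  have hw := g3b_w A
  have h1A : (1 : ℂ) ∈ A := one_mem A
  have h2A : (2 : ℂ) ∈ A := by exact_mod_cast g3b_int A 2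
  have hw2 := CUL.w2
  have hw3 := CUL.w3
  have hlam : Ms d.L R a (lam1 d.ζ d.δ) = Ms d.L R a (fun z => xw z ^ 20) + Ms d.L R a (fun z => xw z ^ 14) +
      Ms d.L R a (fun z => xw z ^ 8) + Ms d.L R a (fun z => xw z ^ 5) + Ms d.L R a (fun z => xw z ^ 2) +
      (1 + emb d.δ + emb d.ζ * emb d.δ ^ 2) * Ms d.L R a (fun z => xw z ^ 2) := by
    rw [← Ms_smul, ← Ms_add, ← Ms_add, ← Ms_add, ← Ms_add, ← Ms_add]
    rfl
  rw [hlam]
  obtain ⟨m, e1⟩ : ∃ m, m = Ms d.L R a (fun z => xw z ^ 2) := ⟨_, rfl⟩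
  obtain ⟨M5, e5⟩ : ∃ m, m = Ms d.L R a (fun z => xw z ^ 5) := ⟨_, rfl⟩
  obtain ⟨M8, e8⟩ : ∃ m, m = Ms d.L R a (fun z => xw z ^ 8) := ⟨_, rfl⟩
  obtain ⟨M14, e14⟩ : ∃ m, m = Ms d.L R a (fun z => xw z ^ 14) := ⟨_, rfl⟩
  obtain ⟨M20, e20⟩ : ∃ m, m = Ms d.L R a (fun z => xw z ^ 20) := ⟨_, rfl⟩
  obtain ⟨Z, eZ⟩ : ∃ m, m = emb d.ζ := ⟨_, rfl⟩
  rw [← e1, ← e8, ← eZ] at h8
  rw [← e1] at hm
  rw [← eZ] at hz
  rw [← e1, ← e5, ← e8, ← e14, ← e20, ← eZ]
  rcases g3b_del A d.δ with ⟨hd, k, hk, hδ⟩ | ⟨hd, hd1, k, hk, hδ⟩ | ⟨hd, hd1, hd2, k, hk, hδ⟩ | ⟨hd, hd1, hd2, k, hk, hδ⟩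
  · have hg : Ms d.L R a (gM 1 d.δ) = M5 + M8 + M14 + M20 := by
      rw [e5, e8, e14, e20, ← Ms_add, ← Ms_add, ← Ms_add]
      congr 1
      funext z
      unfold gM
      rw [if_neg (by norm_num), if_pos rfl, if_pos hd]
    rw [hg, hδ]
    have e : M5 + M8 + M14 + M20 - (M20 + M14 + M8 + M5 + m + (1 + 2 * k + Z * (2 * k) ^ 2) * m) =
        2 * (-((1 + k + Z * (k ^ 2 + k ^ 2)) * m)) := by ring
    rw [e]
    exact g3b_two A (by (repeat' (first | assumption | apply pow_mem | apply add_mem | apply sub_mem | apply neg_mem | apply mul_mem)))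
  · have hg : Ms d.L R a (gM 1 d.δ) = m + M5 + M14 + M20 := by
      rw [e1, e5, e14, e20, ← Ms_add, ← Ms_add, ← Ms_add]
      congr 1
      funext z
      unfold gM
      rw [if_neg (by norm_num), if_pos rfl, if_neg hd, if_pos hd1]
    rw [hg, hδ]
    have e : m + M5 + M14 + M20 - (M20 + M14 + M8 + M5 + m + (1 + (1 + 2 * k) + Z * (1 + 2 * k) ^ 2) * m) =
        (-1) * (M8 - Z * m) + 2 * (-((1 + k + Z + 2 * k * Z + 2 * (Z * k ^ 2)) * m)) := by ring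
    rw [e]
    exact g3b_add A (g3b_mul A (neg_mem h1A) h8) (g3b_two A (by (repeat' (first | assumption | apply pow_mem | apply add_mem | apply sub_mem | apply neg_mem | apply mul_mem))))
  · have hg : Ms d.L R a (gM 1 d.δ) = w * m + M5 + w * M8 + M14 + M20 := by
      rw [e1, e5, e8, e14, e20, ← Ms_smul, ← Ms_smul, ← Ms_add, ← Ms_add, ← Ms_add, ← Ms_add]
      congr 1
      funext z
      unfold gM
      rw [if_neg (by norm_num), if_pos rfl, if_neg hd, if_neg hd1, if_pos hd2]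
    rw [hg, hδ]
    have e : w * m + M5 + w * M8 + M14 + M20 - (M20 + M14 + M8 + M5 + m + (1 + (w + 2 * k) + Z * (w + 2 * k) ^ 2) * m) =
        (w - 1) * (M8 - Z * m) + 2 * ((Z * w - 1 - k - 2 * (Z * w * k) - 2 * (Z * k ^ 2)) * m) := by
      linear_combination (-(Z * m)) * hw2
    rw [e]
    exact g3b_add A (g3b_mul A (by (repeat' (first | assumption | apply pow_mem | apply add_mem | apply sub_mem | apply neg_mem | apply mul_mem))) h8) (g3b_two A (by (repeat' (first | assumption | apply pow_mem | apply add_mem | apply sub_mem | apply neg_mem | apply mul_mem))))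
  · have hg : Ms d.L R a (gM 1 d.δ) = w ^ 2 * m + M5 + w ^ 2 * M8 + M14 + M20 := by
      rw [e1, e5, e8, e14, e20, ← Ms_smul, ← Ms_smul, ← Ms_add, ← Ms_add, ← Ms_add, ← Ms_add]
      congr 1
      funext z
      unfold gM
      rw [if_neg (by norm_num), if_pos rfl, if_neg hd, if_neg hd1, if_neg hd2]
    rw [hg, hδ]
    have e : w ^ 2 * m + M5 + w ^ 2 * M8 + M14 + M20 -
        (M20 + M14 + M8 + M5 + m + (1 + (w ^ 2 + 2 * k) + Z * (w ^ 2 + 2 * k) ^ 2) * m) =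
        (w ^ 2 - 1) * (M8 - Z * m) + 2 * ((-(Z * (1 + w)) - 1 - k - 2 * (Z * w ^ 2 * k) - 2 * (Z * k ^ 2)) * m) := by
      linear_combination (Z * m) * hw2 - (Z * m * w) * hw3
    rw [e]
    exact g3b_add A (g3b_mul A (by (repeat' (first | assumption | apply pow_mem | apply add_mem | apply sub_mem | apply neg_mem | apply mul_mem))) h8) (g3b_two A (by (repeat' (first | assumption | apply pow_mem | apply add_mem | apply sub_mem | apply neg_mem | apply mul_mem))))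

/-! ### helpers of row G3c -/

theorem g3c_prod (A : ValuationSubring ℂ) (R : Finset Eis) (x : Eis → ℂ) (hx : ∀ c ∈ R, x c ∈ A) :
    ∃ J ∈ A, ∏ c ∈ R, (1 + 2 * x c) = 1 + 2 * ∑ c ∈ R, x c + 4 * J := by
  classical
  induction R using Finset.induction_on with
  | empty => exact ⟨0, zero_mem A, by simp⟩
  | insert c R hc ih =>
    obtain ⟨J, hJ, h⟩ := ih (fun b hb => hx b (Finset.mem_insert_of_mem hb))
    have hxc := hx c (Finset.mem_insert_self _ _)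
    have hS : ∑ b ∈ R, x b ∈ A := sum_mem (fun b hb => hx b (Finset.mem_insert_of_mem hb))
    refine ⟨J + x c * ∑ b ∈ R, x b + 2 * (x c * J), ?_, ?_⟩
    · have h2A : (2 : ℂ) ∈ A := by exact_mod_cast g3b_int A 2
      exact add_mem (add_mem hJ (mul_mem hxc hS)) (mul_mem h2A (mul_mem hxc hJ))
    · rw [Finset.prod_insert hc, Finset.sum_insert hc, h]
      ring

theorem g3c_sq (A : ValuationSubring ℂ) (R : Finset Eis) (x : Eis → ℂ) (hx : ∀ c ∈ R, x c ∈ A) :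
    ∃ J ∈ A, (∑ c ∈ R, x c) ^ 2 = ∑ c ∈ R, x c ^ 2 + 2 * J := by
  classical
  induction R using Finset.induction_on with
  | empty => exact ⟨0, zero_mem A, by simp⟩
  | insert c R hc ih =>
    obtain ⟨J, hJ, h⟩ := ih (fun b hb => hx b (Finset.mem_insert_of_mem hb))
    have hxc := hx c (Finset.mem_insert_self _ _)
    have hS : ∑ b ∈ R, x b ∈ A := sum_mem (fun b hb => hx b (Finset.mem_insert_of_mem hb))
    refine ⟨J + x c * ∑ b ∈ R, x b, add_mem hJ (mul_mem hxc hS), ?_⟩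
    rw [Finset.sum_insert hc, Finset.sum_insert hc]
    linear_combination h

theorem g3c_ot {L : Lv} {R : Finset Eis} {a : Eis} (hR : IsR L R) (ha : IsA L a) (i : ℕ) {c : Eis} (hc : c ∈ R) : OT (pt L (a ^ i * c)) :=
  ot_pt L (IsCoprime.mul_left (ha.1.pow_left) (hR.1 c hc).1)

include hA in
theorem g3c_yh {L : Lv} {R : Finset Eis} {a : Eis} (hR : IsR L R) (ha : IsA L a) (i : ℕ) {c : Eis} (hc : c ∈ R) :
    yh (pt L (a ^ i * c)) ∈ A := (ValuationSubring.valuation_le_one_iff A _).1 (yh_int A hA (g3c_ot hR ha i hc))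

theorem g3c_four (A : ValuationSubring ℂ) {J : ℂ} (hJ : J ∈ A) : A.valuation (4 * J) ≤ A.valuation 4 := by
  rw [map_mul]
  calc A.valuation 4 * A.valuation J ≤ A.valuation 4 * 1 := mul_le_mul' le_rfl ((ValuationSubring.valuation_le_one_iff A _).2 hJ)
    _ = A.valuation 4 := mul_one _

include hA in
theorem g3c_prod_yw {L : Lv} {R : Finset Eis} {a : Eis} (hR : IsR L R) (ha : IsA L a) (i : ℕ) :
    ∃ J ∈ A, ∏ c ∈ R, yw (pt L (a ^ i * c)) = 1 + 2 * ∑ c ∈ R, yh (pt L (a ^ i * c)) + 4 * J := by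
  obtain ⟨J, hJ, h⟩ := g3c_prod A R (fun c => yh (pt L (a ^ i * c))) (fun c hc => g3c_yh A hA hR ha i hc)
  refine ⟨J, hJ, ?_⟩
  rw [← h]
  refine Finset.prod_congr rfl (fun c _ => ?_)
  unfold yh
  ring

theorem g3c_inv (A : ValuationSubring ℂ) {x : ℂ} (h : A.valuation x = 1) : x⁻¹ ∈ A := by
  rw [← ValuationSubring.valuation_le_one_iff, map_inv₀, h, inv_one]

/-- division by `2` -/
theorem g3c_half (A : ValuationSubring ℂ) {x : ℂ} (h : A.valuation (2 * x) ≤ A.valuation 4) : A.valuation x ≤ A.valuation 2 := by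
  have e4 : (4 : ℂ) = 2 * 2 := by norm_num
  rw [e4, map_mul, map_mul] at h
  have h2 : 0 < A.valuation 2 := zero_lt_iff.2 ((Valuation.ne_zero_iff _).2 two_ne_zero)
  exact (mul_le_mul_iff_right₀ h2).1 h

/-- the squares of congruent integral elements are congruent -/
theorem g3c_sq_cong (A : ValuationSubring ℂ) {x y : ℂ} (hx : x ∈ A) (hy : y ∈ A) (h : A.valuation (x - y) ≤ A.valuation 2) :
    A.valuation (x ^ 2 - y ^ 2) ≤ A.valuation 2 := by
  have e : x ^ 2 - y ^ 2 = (x + y) * (x - y) := by ring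
  rw [e]
  exact g3b_mul A (add_mem hx hy) h

/-- `x ≡ y mod 2`, `y` integral: `x` is integral -/
theorem g3c_int (A : ValuationSubring ℂ) (hA : A.valuation 2 < 1) {x y : ℂ} (hy : y ∈ A) (h : A.valuation (x - y) ≤ A.valuation 2) : x ∈ A := by
  have h1 : x - y ∈ A := (ValuationSubring.valuation_le_one_iff A _).1 (h.trans hA.le)
  have e : x = (x - y) + y := by ring
  rw [e]
  exact add_mem h1 hy

/-- `3 x ≡ y mod 2` -/
theorem g3c_three (A : ValuationSubring ℂ) (hA : A.valuation 2 < 1) {x y : ℂ} (hy : y ∈ A) (h : A.valuation (3 * x - y) ≤ A.valuation 2) :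
    x ∈ A ∧ A.valuation (x - y) ≤ A.valuation 2 := by
  have h1 : 3 * x ∈ A := g3c_int A hA hy h
  have hx : x ∈ A := by
    rw [← ValuationSubring.valuation_le_one_iff] at h1 ⊢
    rwa [map_mul, Q3V.v_three A hA, one_mul] at h1
  refine ⟨hx, ?_⟩
  have e : x - y = (3 * x - y) + 2 * (-x) := by ring
  rw [e]
  exact g3b_add A h (g3b_two A (neg_mem hx))

theorem g3c_sig_emb {σ : ℂ ≃+* ℂ} (hσ : σ w = w) (q : Eis) : σ (emb q) = emb q := by
  have h : emb q = (q.re : ℂ) + (q.im : ℂ) * w := by rw [emb_apply]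
  rw [h, map_add, map_mul, hσ, map_intCast, map_intCast]

include hA in
/-- [G3.3] `∏ (1 + 2 yh) ≡ 1 + 2 ∑ yh mod 4` -/
theorem prod_yw {L : Lv} {R : Finset Eis} {a : Eis} (hR : IsR L R) (ha : IsA L a) (i : ℕ) :
    A.valuation (∏ c ∈ R, yw (pt L (a ^ i * c)) - (1 + 2 * ∑ c ∈ R, yh (pt L (a ^ i * c)))) ≤ A.valuation 4 := by
  obtain ⟨J, hJ, h⟩ := g3c_prod_yw A hA hR ha i
  have e : ∏ c ∈ R, yw (pt L (a ^ i * c)) - (1 + 2 * ∑ c ∈ R, yh (pt L (a ^ i * c))) = 4 * J := by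
    rw [h]
    ring
  rw [e]
  exact g3c_four A hJ

include hA in
/-- `((1 + 2 X)/(1 + 2 Y))^63 ≡ 1 + 2 (X + Y) mod 4` -/
theorem e63 {L : Lv} {R : Finset Eis} {a : Eis} (hR : IsR L R) (ha : IsA L a) (hj : L.j = 1) (i k : ℕ) :
    A.valuation ((gE L R a i / gE L R a k) ^ 63 -
      (1 + 2 * (∑ c ∈ R, yh (pt L (a ^ i * c)) + ∑ c ∈ R, yh (pt L (a ^ k * c))))) ≤ A.valuation 4 := by
  have hg : ∀ i, gE L R a i = ∏ c ∈ R, yw (pt L (a ^ i * c)) := by
    intro i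
    unfold gE
    refine Finset.prod_congr rfl (fun c _ => ?_)
    unfold Ph
    rw [if_pos hj]
  obtain ⟨J, hJ, h1⟩ := g3c_prod_yw A hA hR ha i
  obtain ⟨K, hK, h2⟩ := g3c_prod_yw A hA hR ha k
  rw [← hg] at h1 h2
  have hX : ∑ c ∈ R, yh (pt L (a ^ i * c)) ∈ A := sum_mem (fun c hc => g3c_yh A hA hR ha i hc)
  have hY : ∑ c ∈ R, yh (pt L (a ^ k * c)) ∈ A := sum_mem (fun c hc => g3c_yh A hA hR ha k hc)
  obtain ⟨X, eX⟩ : ∃ X, X = ∑ c ∈ R, yh (pt L (a ^ i * c)) := ⟨_, rfl⟩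
  obtain ⟨Y, eY⟩ : ∃ Y, Y = ∑ c ∈ R, yh (pt L (a ^ k * c)) := ⟨_, rfl⟩
  rw [← eX] at h1 hX
  rw [← eY] at h2 hY
  rw [← eX, ← eY]
  have hv : A.valuation (gE L R a k) = 1 := by
    rw [hg, map_prod]
    exact Finset.prod_eq_one (fun c hc => y_val A hA (g3c_ot hR ha k hc))
  have hk0 : gE L R a k ≠ 0 := by
    intro h
    rw [h, map_zero] at hv
    exact zero_ne_one hv
  have hinv := g3c_inv A hv
  have h1A : (1 : ℂ) ∈ A := one_mem A
  have h2A : (2 : ℂ) ∈ A := by exact_mod_cast g3b_int A 2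
  obtain ⟨G, eG⟩ : ∃ G, G = (gE L R a k)⁻¹ := ⟨_, rfl⟩
  rw [← eG] at hinv
  obtain ⟨u, hu⟩ : ∃ u, u = gE L R a i / gE L R a k := ⟨_, rfl⟩
  rw [← hu]
  -- `u = 1 + 2 (X + Y) + 4 N`
  obtain ⟨N, hN, hun⟩ : ∃ N ∈ A, u = 1 + 2 * (X + Y) + 4 * N := by
    refine ⟨G * (J - Y - X * Y - Y ^ 2 - K * (1 + 2 * (X + Y))), by (repeat' (first | assumption | apply pow_mem | apply add_mem | apply sub_mem | apply neg_mem | apply mul_mem)), ?_⟩
    have hGk : G * gE L R a k = 1 := by rw [eG]; exact inv_mul_cancel₀ hk0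
    have hui : u = G * gE L R a i := by rw [hu, eG, div_eq_mul_inv, mul_comm]
    rw [hui]
    have e1 : G * gE L R a i = G * gE L R a i + (1 + 2 * (X + Y)) * (1 - G * gE L R a k) := by
      rw [hGk]
      ring
    rw [e1, h1, h2]
    ring
  have huA : u ∈ A := by
    rw [hun]
    have h4A : (4 : ℂ) ∈ A := by exact_mod_cast g3b_int A 4
    (repeat' (first | assumption | apply pow_mem | apply add_mem | apply sub_mem | apply neg_mem | apply mul_mem))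
  have hpow : u ^ 63 - u = 4 * (u * ((X + Y) + (X + Y) ^ 2 + 2 * N + 4 * ((X + Y) * N) + 4 * N ^ 2) * ∑ i ∈ Finset.range 31, (u ^ 2) ^ i) := by
    have h3 := mul_geom_sum (u ^ 2) 31
    have h4 : u ^ 2 - 1 = 4 * ((X + Y) + (X + Y) ^ 2 + 2 * N + 4 * ((X + Y) * N) + 4 * N ^ 2) := by
      rw [hun]
      ring
    rw [h4] at h3
    linear_combination (-u) * h3
  have hS : ∑ i ∈ Finset.range 31, (u ^ 2) ^ i ∈ A := sum_mem (fun i _ => pow_mem (pow_mem huA 2) i)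
  have e2 : u ^ 63 - (1 + 2 * (X + Y)) =
      4 * (u * ((X + Y) + (X + Y) ^ 2 + 2 * N + 4 * ((X + Y) * N) + 4 * N ^ 2) * ∑ i ∈ Finset.range 31, (u ^ 2) ^ i + N) := by
    linear_combination hpow + hun
  rw [e2]
  have h4A : (4 : ℂ) ∈ A := by exact_mod_cast g3b_int A 4
  refine g3c_four A ?_
  (repeat' (first | assumption | apply pow_mem | apply add_mem | apply sub_mem | apply neg_mem | apply mul_mem))

include hA in
/-- [G3.4] The digits: `hi` and its conjugates (`exists_sig`, `sig_rep`; `emb q` is fixed) give `Y_i + Y_{i+1} ≡ q₁ w^i s' + q₂ (w^i s')² mod 2` (`Y_3 = Y_0`);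
`∑ w^(2i)`: `3 q₁ s' ≡ (1 + w) m₁`; `∑ w^i`: `3 q₂ s'² ≡ (1 + w²) ∑ w^i Y_i`, squared (`Y_i² ≡ ∑ yh²`): `(q₂ s'²)² ≡ w² m₂`. -/
theorem dig_val (hc : ¬ ∃ x : Eis, x ^ 3 = D) (hj : d.L.j = 1) (hR : IsR d.L R) (ha : IsA d.L a)
    (he : EUn D (gE d.L R a 0 / gE d.L R a 1) (gE d.L R a 1 / gE d.L R a 2) (gE d.L R a 2 / gE d.L R a 0)) {m : ℕ} {q₁ q₂ : Eis}
    (hi : IsIntegral ℤ (((gE d.L R a 0 / gE d.L R a 1) ^ 63 - 1 -
      2 * (emb q₁ * (JT.cD D / 2 ^ m) + emb q₂ * (JT.cD D / 2 ^ m) ^ 2)) / 4)) :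
    A.valuation (emb q₁ * (JT.cD D / 2 ^ m) - w ^ 2 * Ms d.L R a yh) ≤ A.valuation 2 ∧
    A.valuation ((emb q₂ * (JT.cD D / 2 ^ m) ^ 2) ^ 2 - w ^ 2 * Ms d.L R a (fun z => yh z ^ 2)) ≤ A.valuation 2 := by
  obtain ⟨σ, hσ, hs⟩ := exists_sig hc
  obtain ⟨u₀, u₁, u₂, h0, h1, h2, r0, r1, r2⟩ := he.rep
  have hσe : σ (gE d.L R a 0 / gE d.L R a 1) = gE d.L R a 1 / gE d.L R a 2 := by
    rw [← r0, ← r1, sig_rep hσ (i := 1) (by rw [hs, pow_one]) h0 h1 h2, pow_one]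
  have hσσ : (σ.trans σ) w = w := by
    show σ (σ w) = w
    rw [hσ, hσ]
  have hσs : (σ.trans σ) (JT.cD D) = w ^ 2 * JT.cD D := by
    show σ (σ (JT.cD D)) = _
    rw [hs, map_mul, hσ, hs]
    ring
  have hσσe : (σ.trans σ) (gE d.L R a 0 / gE d.L R a 1) = gE d.L R a 2 / gE d.L R a 0 := by
    rw [← r0, ← r2, sig_rep hσσ (i := 2) hσs h0 h1 h2]
  obtain ⟨t, et⟩ : ∃ t, t = JT.cD D / 2 ^ m := ⟨_, rfl⟩
  have ht1 : σ t = w * t := by
    rw [et, map_div₀, hs, map_pow, map_ofNat, mul_div_assoc]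
  have ht2 : (σ.trans σ) t = w ^ 2 * t := by
    rw [et, map_div₀, hσs, map_pow, map_ofNat, mul_div_assoc]
  rw [← et] at hi ⊢
  obtain ⟨Y, eY⟩ : ∃ Y : ℕ → ℂ, Y = fun i => ∑ c ∈ R, yh (pt d.L (a ^ i * c)) := ⟨_, rfl⟩
  have hYi : ∀ i, ∑ c ∈ R, yh (pt d.L (a ^ i * c)) = Y i := fun i => by rw [eY]
  have hYA : ∀ i, Y i ∈ A := fun i => by
    rw [← hYi]
    exact sum_mem (fun c hc => g3c_yh A hA hR ha i hc)
  -- the three congruences
  have key : ∀ (e X T : ℂ), IsIntegral ℤ ((e ^ 63 - 1 - 2 * T) / 4) → A.valuation (e ^ 63 - (1 + 2 * X)) ≤ A.valuation 4 →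
      A.valuation (X - T) ≤ A.valuation 2 := by
    intro e X T h1 h2
    have h3 := val_of_int A h1
    have h4 : A.valuation (e ^ 63 - 1 - 2 * T) ≤ A.valuation 4 := by
      have e1 : e ^ 63 - 1 - 2 * T = 4 * ((e ^ 63 - 1 - 2 * T) / 4) := by ring
      rw [e1]
      exact g3c_four A ((ValuationSubring.valuation_le_one_iff A _).1 h3)
    apply g3c_half A
    have e2 : 2 * (X - T) = (e ^ 63 - 1 - 2 * T) - (e ^ 63 - (1 + 2 * X)) := by ring
    rw [e2]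
    exact (Valuation.map_sub A.valuation _ _).trans (max_le h4 h2)
  have i1 : IsIntegral ℤ (((gE d.L R a 1 / gE d.L R a 2) ^ 63 - 1 - 2 * (emb q₁ * (w * t) + emb q₂ * (w * t) ^ 2)) / 4) := by
    have h3 := map_isIntegral_int (σ : ℂ →+* ℂ) hi
    have e1 : (σ : ℂ →+* ℂ) (((gE d.L R a 0 / gE d.L R a 1) ^ 63 - 1 - 2 * (emb q₁ * t + emb q₂ * t ^ 2)) / 4) =
        ((gE d.L R a 1 / gE d.L R a 2) ^ 63 - 1 - 2 * (emb q₁ * (w * t) + emb q₂ * (w * t) ^ 2)) / 4 := by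
      show σ (((gE d.L R a 0 / gE d.L R a 1) ^ 63 - 1 - 2 * (emb q₁ * t + emb q₂ * t ^ 2)) / 4) = _
      rw [map_div₀, map_sub, map_sub, map_pow, hσe, map_one, map_mul, map_add, map_mul, map_mul, map_pow, ht1,
        g3c_sig_emb hσ, g3c_sig_emb hσ, map_ofNat, map_ofNat]
    rwa [e1] at h3
  have i2 : IsIntegral ℤ (((gE d.L R a 2 / gE d.L R a 0) ^ 63 - 1 - 2 * (emb q₁ * (w ^ 2 * t) + emb q₂ * (w ^ 2 * t) ^ 2)) / 4) := by
    have h3 := map_isIntegral_int ((σ.trans σ) : ℂ →+* ℂ) hi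
    have e1 : ((σ.trans σ : ℂ ≃+* ℂ) : ℂ →+* ℂ) (((gE d.L R a 0 / gE d.L R a 1) ^ 63 - 1 - 2 * (emb q₁ * t + emb q₂ * t ^ 2)) / 4) =
        ((gE d.L R a 2 / gE d.L R a 0) ^ 63 - 1 - 2 * (emb q₁ * (w ^ 2 * t) + emb q₂ * (w ^ 2 * t) ^ 2)) / 4 := by
      show (σ.trans σ) (((gE d.L R a 0 / gE d.L R a 1) ^ 63 - 1 - 2 * (emb q₁ * t + emb q₂ * t ^ 2)) / 4) = _
      rw [map_div₀, map_sub, map_sub, map_pow, hσσe, map_one, map_mul, map_add, map_mul, map_mul, map_pow, ht2,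
        g3c_sig_emb hσσ, g3c_sig_emb hσσ, map_ofNat, map_ofNat]
    rwa [e1] at h3
  have k0 := key _ _ _ hi (e63 A hA hR ha hj 0 1)
  have k1 := key _ _ _ i1 (e63 A hA hR ha hj 1 2)
  have k2 := key _ _ _ i2 (e63 A hA hR ha hj 2 0)
  simp only [hYi] at k0 k1 k2
  have hw := g3b_w A
  have hw2 := CUL.w2
  have hw3 := CUL.w3
  have hm1 : Ms d.L R a yh = Y 0 + w ^ 2 * Y 1 + w * Y 2 := by
    have e1 : Ms d.L R a yh = ∑ i ∈ Finset.range 3, w ^ (2 * i) * Y i := by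
      unfold Ms
      simp only [hYi]
    rw [e1, Finset.sum_range_succ, Finset.sum_range_succ, Finset.sum_range_succ, Finset.sum_range_zero]
    linear_combination (w * Y 2) * hw3
  constructor
  · have h3 : A.valuation (3 * (emb q₁ * t) - (-w ^ 2) * Ms d.L R a yh) ≤ A.valuation 2 := by
      have e1 : 3 * (emb q₁ * t) - (-w ^ 2) * Ms d.L R a yh =
          (-1) * (Y 0 + Y 1 - (emb q₁ * t + emb q₂ * t ^ 2)) +
          (-w ^ 2) * (Y 1 + Y 2 - (emb q₁ * (w * t) + emb q₂ * (w * t) ^ 2)) +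
          (-w) * (Y 2 + Y 0 - (emb q₁ * (w ^ 2 * t) + emb q₂ * (w ^ 2 * t) ^ 2)) := by
        rw [hm1]
        linear_combination (Y 2 + w * Y 1 - 2 * emb q₁ * t - emb q₂ * t ^ 2 * w - emb q₂ * t ^ 2 * (w ^ 2)) * hw3 +
          (Y 0 + Y 1 + Y 2 - emb q₂ * t ^ 2) * hw2
      rw [e1]
      exact g3b_add A (g3b_add A (g3b_mul A (neg_mem (one_mem A)) k0) (g3b_mul A (neg_mem (pow_mem hw 2)) k1))
        (g3b_mul A (neg_mem hw) k2)
    have hmA : Ms d.L R a yh ∈ A := by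
      rw [hm1]
      exact add_mem (add_mem (hYA 0) (mul_mem (pow_mem hw 2) (hYA 1))) (mul_mem hw (hYA 2))
    have h4 := (g3c_three A hA (mul_mem (neg_mem (pow_mem hw 2)) hmA) h3).2
    have e2 : emb q₁ * t - w ^ 2 * Ms d.L R a yh = (emb q₁ * t - (-w ^ 2) * Ms d.L R a yh) + 2 * (-(w ^ 2 * Ms d.L R a yh)) := by ring
    rw [e2]
    exact g3b_add A h4 (g3b_two A (neg_mem (mul_mem (pow_mem hw 2) hmA)))
  · have hNA : Y 0 + w * Y 1 + w ^ 2 * Y 2 ∈ A :=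
      add_mem (add_mem (hYA 0) (mul_mem hw (hYA 1))) (mul_mem (pow_mem hw 2) (hYA 2))
    have h3 : A.valuation (3 * (emb q₂ * t ^ 2) - (-w) * (Y 0 + w * Y 1 + w ^ 2 * Y 2)) ≤ A.valuation 2 := by
      have e1 : 3 * (emb q₂ * t ^ 2) - (-w) * (Y 0 + w * Y 1 + w ^ 2 * Y 2) =
          (-1) * (Y 0 + Y 1 - (emb q₁ * t + emb q₂ * t ^ 2)) +
          (-w) * (Y 1 + Y 2 - (emb q₁ * (w * t) + emb q₂ * (w * t) ^ 2)) +
          (-w ^ 2) * (Y 2 + Y 0 - (emb q₁ * (w ^ 2 * t) + emb q₂ * (w ^ 2 * t) ^ 2)) := by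
        linear_combination (Y 2 - emb q₂ * t ^ 2 * (2 + w ^ 3) - emb q₁ * t * w) * hw3 +
          (Y 0 + Y 1 + Y 2 - emb q₁ * t) * hw2
      rw [e1]
      exact g3b_add A (g3b_add A (g3b_mul A (neg_mem (one_mem A)) k0) (g3b_mul A (neg_mem hw) k1))
        (g3b_mul A (neg_mem (pow_mem hw 2)) k2)
    obtain ⟨hqA, h4⟩ := g3c_three A hA (mul_mem (neg_mem hw) hNA) h3
    have h5 := g3c_sq_cong A hqA (mul_mem (neg_mem hw) hNA) h4
    have hsq : ∀ i, ∃ J ∈ A, Y i ^ 2 = ∑ c ∈ R, yh (pt d.L (a ^ i * c)) ^ 2 + 2 * J := fun i => by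
      rw [← hYi]
      exact g3c_sq A R (fun c => yh (pt d.L (a ^ i * c))) (fun c hc => g3c_yh A hA hR ha i hc)
    obtain ⟨J0, hJ0, s0⟩ := hsq 0
    obtain ⟨J1, hJ1, s1⟩ := hsq 1
    obtain ⟨J2, hJ2, s2⟩ := hsq 2
    have hm2 : Ms d.L R a (fun z => yh z ^ 2) = ∑ c ∈ R, yh (pt d.L (a ^ 0 * c)) ^ 2 + w ^ 2 * ∑ c ∈ R, yh (pt d.L (a ^ 1 * c)) ^ 2 +
        w * ∑ c ∈ R, yh (pt d.L (a ^ 2 * c)) ^ 2 := by
      unfold Ms
      rw [Finset.sum_range_succ, Finset.sum_range_succ, Finset.sum_range_succ, Finset.sum_range_zero]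
      linear_combination (w * ∑ c ∈ R, yh (pt d.L (a ^ 2 * c)) ^ 2) * hw3
    have e2 : (emb q₂ * t ^ 2) ^ 2 - w ^ 2 * Ms d.L R a (fun z => yh z ^ 2) =
        ((emb q₂ * t ^ 2) ^ 2 - ((-w) * (Y 0 + w * Y 1 + w ^ 2 * Y 2)) ^ 2) +
        2 * (w ^ 2 * (J0 + w ^ 2 * J1 + w * J2 + w * (Y 0 * Y 1) + w ^ 2 * (Y 0 * Y 2) + Y 1 * Y 2)) := by
      rw [hm2]
      linear_combination w ^ 2 * s0 + w ^ 4 * s1 + w ^ 3 * s2 + (w ^ 2 * (w * Y 2 ^ 2) + 2 * w ^ 2 * (Y 1 * Y 2)) * hw3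
    rw [e2]
    exact g3b_add A h5 (g3b_two A (mul_mem (pow_mem hw 2) (add_mem (add_mem (add_mem (add_mem (add_mem hJ0 (mul_mem (pow_mem hw 2) hJ1))
      (mul_mem hw hJ2)) (mul_mem hw (mul_mem (hYA 0) (hYA 1)))) (mul_mem (pow_mem hw 2) (mul_mem (hYA 0) (hYA 2))))
      (mul_mem (hYA 1) (hYA 2)))))

end J2L
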