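import Pool.Agent.J2L.G3

/-!
# [J2L-G4] the elliptic unit is the class of a local point at `2` iff the moment is `0` modulo the maximal ideal: `v₂(D) = 0, 3`
-/

set_option autoImplicit false

open scoped Classical

namespace J2L

open CM27
open CU (om)
open CUL (Nl ez IsRep rp cr zw)
open Q3V (OT)

variable {D : Eis}

/-! ### helpers of rows G4a, G4b -/

/-- `ℤ[ω] / 2` -/
abbrev g4a_Q := QuadraticAlgebra (ZMod 2) (-1) (-1)

instance : Fintype g4a_Q := Fintype.ofEquiv (ZMod 2 × ZMod 2) (QuadraticAlgebra.equivProd (-1 : ZMod 2) (-1)).symm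

/-- reduction modulo `2` -/
def g4a_rd : Eis →+* g4a_Q where
  toFun x := ⟨(x.re : ZMod 2), (x.im : ZMod 2)⟩
  map_one' := by
    apply QuadraticAlgebra.ext <;> simp [QuadraticAlgebra.re_one, QuadraticAlgebra.im_one]
  map_mul' x y := by
    apply QuadraticAlgebra.ext
    · simp only [QuadraticAlgebra.re_mul]
      push_cast
      ring
    · simp only [QuadraticAlgebra.im_mul]
      push_cast
      ring
  map_zero' := by
    apply QuadraticAlgebra.ext <;> simp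
  map_add' x y := by
    apply QuadraticAlgebra.ext <;> simp

theorem g4a_dvd (x : Eis) : (2 : Eis) ∣ x ↔ g4a_rd x = 0 := by
  have e1 : (2 : Eis).re = 2 := rfl
  have e2 : (2 : Eis).im = 0 := rfl
  constructor
  · rintro ⟨k, rfl⟩
    rw [map_mul]
    have : g4a_rd (2 : Eis) = 0 := by decide
    rw [this, zero_mul]
  · intro h
    have h1 : ((x.re : ZMod 2) : ZMod 2) = 0 := congrArg QuadraticAlgebra.re h
    have h2 : ((x.im : ZMod 2) : ZMod 2) = 0 := congrArg QuadraticAlgebra.im h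
    rw [ZMod.intCast_zmod_eq_zero_iff_dvd] at h1 h2
    obtain ⟨u, hu⟩ := h1
    obtain ⟨v, hv⟩ := h2
    refine ⟨⟨u, v⟩, ?_⟩
    apply QuadraticAlgebra.ext
    · rw [QuadraticAlgebra.re_mul, e1, e2, hu]
      push_cast
      ring
    · rw [QuadraticAlgebra.im_mul, e1, e2, hv]
      push_cast
      ring

theorem g4a_fin : ∀ z d p q : g4a_Q, z ^ 3 = 1 →
    ((∃ a : g4a_Q, p - a * d = 0 ∧ q - a ^ 2 * (d + z) = 0) ↔ (z + d) ^ 2 * p + d * q ^ 2 = 0) := by decide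

theorem g4a_surj : ∀ x : g4a_Q, x = g4a_rd 0 ∨ x = g4a_rd 1 ∨ x = g4a_rd om ∨ x = g4a_rd (om ^ 2) := by decide

theorem g4a_ex (x : g4a_Q) : ∃ a, JT.R4 a ∧ g4a_rd a = x := by
  rcases g4a_surj x with h | h | h | h
  · exact ⟨0, Or.inl rfl, h.symm⟩
  · exact ⟨1, Or.inr (Or.inl rfl), h.symm⟩
  · exact ⟨om, Or.inr (Or.inr (Or.inl rfl)), h.symm⟩
  · exact ⟨om ^ 2, Or.inr (Or.inr (Or.inr rfl)), h.symm⟩

theorem g4a_zeta {ζ : Eis} (h : ζ ^ 3 = 1) : ζ = 1 ∨ ζ = om ∨ ζ = om ^ 2 := by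
  have hu : IsUnit ζ := IsUnit.of_mul_eq_one (ζ ^ 2) (by rw [← h]; ring)
  rcases CUL.unit_cases hu with rfl | rfl | rfl | rfl | rfl | rfl
  · exact Or.inl rfl
  · exact absurd h (by decide)
  · exact Or.inr (Or.inl rfl)
  · exact absurd h (by decide)
  · exact Or.inr (Or.inr rfl)
  · exact absurd h (by decide)

/-- [G4.1] `F_4`-algebra: for `ζ³ = 1`, `(q₁, q₂²)` is a multiple of `(δ, (ζ + δ)²)` iff `(ζ + δ)² q₁ + δ q₂² = 0`. (All modulo `2`; finite check over the representatives `R4`,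
every element of `ℤ[ω]` is congruent to one of them.) -/
theorem line_iff {ζ δ q₁ q₂ : Eis} (hζ : ζ ^ 3 = 1) :
    (∃ a : Eis, JT.R4 a ∧ (2 : Eis) ∣ q₁ - a * δ ∧ (2 : Eis) ∣ q₂ - a ^ 2 * (δ + ζ)) ↔ (2 : Eis) ∣ (ζ + δ) ^ 2 * q₁ + δ * q₂ ^ 2 := by
  have hz : (g4a_rd ζ) ^ 3 = 1 := by rw [← map_pow, hζ, map_one]
  rw [g4a_dvd, map_add, map_mul, map_mul, map_pow, map_pow, map_add, ← g4a_fin _ _ _ _ hz]
  constructor
  · rintro ⟨a, -, h1, h2⟩
    refine ⟨g4a_rd a, ?_, ?_⟩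
    · rw [g4a_dvd, map_sub, map_mul] at h1
      exact h1
    · rw [g4a_dvd, map_sub, map_mul, map_pow, map_add] at h2
      exact h2
  · rintro ⟨b, h1, h2⟩
    obtain ⟨a, ha, rfl⟩ := g4a_ex b
    refine ⟨a, ha, ?_, ?_⟩
    · rw [g4a_dvd, map_sub, map_mul]
      exact h1
    · rw [g4a_dvd, map_sub, map_mul, map_pow, map_add]
      exact h2

theorem r4_exists (x : Eis) : ∃ a, JT.R4 a ∧ (2 : Eis) ∣ x - a := by
  obtain ⟨a, ha, h⟩ := g4a_ex (g4a_rd x)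
  refine ⟨a, ha, ?_⟩
  rw [g4a_dvd, map_sub, h, sub_self]

theorem r4_unique {a b : Eis} (ha : JT.R4 a) (hb : JT.R4 b) (h : (2 : Eis) ∣ a - b) : a = b := by
  rw [g4a_dvd, map_sub, sub_eq_zero] at h
  rcases ha with rfl | rfl | rfl | rfl <;> rcases hb with rfl | rfl | rfl | rfl <;>
    first | rfl | exact absurd h (by decide)

/-- [G4.2] the representatives in `W2`: `D₀ ≡ ζ (1 + 2 δ) ≡ e (1 + 2 d) mod 4`, `e`, `d` in `R4`, gives `e = ζ`, `d ≡ δ mod 2`; and such `e`, `d` exist. -/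
theorem w2_zero_iff {D' ζ δ q₁ q₂ : Eis} (hζ : ζ ^ 3 = 1) (hδ : (4 : Eis) ∣ D' - ζ * (1 + 2 * δ)) :
    JT.W2 0 D' q₁ q₂ ↔ (2 : Eis) ∣ (ζ + δ) ^ 2 * q₁ + δ * q₂ ^ 2 := by
  have hzr : JT.R4 ζ := by
    rcases g4a_zeta hζ with h | h | h
    · exact Or.inr (Or.inl h)
    · exact Or.inr (Or.inr (Or.inl h))
    · exact Or.inr (Or.inr (Or.inr h))
  have h24 : ∀ x : Eis, (4 : Eis) ∣ x → (2 : Eis) ∣ x := fun x hx => dvd_trans ⟨2, by norm_num⟩ hx
  constructor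
  · rintro (⟨-, e, dd, a, he, hd, ha, h4, h1, h2⟩ | ⟨h, -⟩)
    · have h5 : (4 : Eis) ∣ e * (1 + 2 * dd) - ζ * (1 + 2 * δ) := by
        have := dvd_sub hδ h4
        have e5 : D' - ζ * (1 + 2 * δ) - (D' - e * (1 + 2 * dd)) = e * (1 + 2 * dd) - ζ * (1 + 2 * δ) := by ring
        rwa [e5] at this
      have h6 : (2 : Eis) ∣ e - ζ := by
        have h7 := h24 _ h5
        have e6 : e - ζ = e * (1 + 2 * dd) - ζ * (1 + 2 * δ) - 2 * (e * dd - ζ * δ) := by ring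
        rw [e6]
        exact dvd_sub h7 ⟨_, rfl⟩
      have h7 : e = ζ := r4_unique he hzr h6
      subst h7
      have h8 : (2 : Eis) ∣ dd - δ := by
        obtain ⟨k, hk⟩ := h5
        refine ⟨e ^ 2 * k, ?_⟩
        have e7 : 2 * (e * (dd - δ)) = 2 * (2 * k) := by linear_combination hk
        have e8 : e * (dd - δ) = 2 * k := by
          have h2 : (2 : Eis) ≠ 0 := by decide
          have hdom : IsDomain Eis := eis_isDomain
          exact mul_left_cancel₀ h2 e7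
        linear_combination (e ^ 2) * e8 - (dd - δ) * hζ
      refine (line_iff hζ).1 ⟨a, ha, ?_, ?_⟩
      · have e9 : q₁ - a * δ = (q₁ - a * dd) + a * (dd - δ) := by ring
        rw [e9]
        exact dvd_add h1 (h8.mul_left _)
      · have e9 : q₂ - a ^ 2 * (δ + e) = (q₂ - a ^ 2 * (dd + e)) + a ^ 2 * (dd - δ) := by ring
        rw [e9]
        exact dvd_add h2 (h8.mul_left _)
    · exact absurd h (by norm_num)
  · intro h
    obtain ⟨a, ha, h1, h2⟩ := (line_iff hζ).2 h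
    obtain ⟨dd, hd, h3⟩ := r4_exists δ
    left
    refine ⟨rfl, ζ, dd, a, hzr, hd, ha, ?_, ?_, ?_⟩
    · have e9 : D' - ζ * (1 + 2 * dd) = (D' - ζ * (1 + 2 * δ)) + ζ * (2 * (δ - dd)) := by ring
      rw [e9]
      refine dvd_add hδ (Dvd.dvd.mul_left ?_ _)
      obtain ⟨k, hk⟩ := h3
      exact ⟨k, by rw [hk]; ring⟩
    · have e9 : q₁ - a * dd = (q₁ - a * δ) + a * (δ - dd) := by ring
      rw [e9]
      exact dvd_add h1 (h3.mul_left _)
    · have e9 : q₂ - a ^ 2 * (dd + ζ) = (q₂ - a ^ 2 * (δ + ζ)) + a ^ 2 * (δ - dd) := by ring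
      rw [e9]
      exact dvd_add h2 (h3.mul_left _)

theorem g4b_iff {A : ValuationSubring ℂ} (hA : A.valuation 2 < 1) {x y : ℂ} (h : A.valuation (x - y) ≤ A.valuation 2) :
    A.valuation x < 1 ↔ A.valuation y < 1 := by
  constructor
  · intro hx
    have e : y = x - (x - y) := by ring
    rw [e]
    exact lt_of_le_of_lt (Valuation.map_sub A.valuation _ _) (max_lt hx (lt_of_le_of_lt h hA))
  · intro hy
    have e : x = (x - y) + y := by ring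
    rw [e]
    exact lt_of_le_of_lt (Valuation.map_add A.valuation _ _) (max_lt (lt_of_le_of_lt h hA) hy)

theorem g4b_unit {A : ValuationSubring ℂ} {c x : ℂ} (hc : A.valuation c = 1) : A.valuation (c * x) < 1 ↔ A.valuation x < 1 := by
  rw [map_mul, hc, one_mul]

theorem g4b_emb_unit {A : ValuationSubring ℂ} (hA : A.valuation 2 < 1) {x : Eis} (hx : ¬ (2 : Eis) ∣ x) : A.valuation (emb x) = 1 := by
  rcases lt_or_eq_of_le ((ValuationSubring.valuation_le_one_iff A _).2 (g3b_emb A x)) with h | h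
  · exact absurd ((emb_lt A hA x).1 h) hx
  · exact h

theorem g4b_root {A : ValuationSubring ℂ} {x : ℂ} {n : ℕ} (hn : n ≠ 0) (h : A.valuation (x ^ n) = 1) : A.valuation x = 1 := by
  rw [map_pow] at h
  exact Q3V.root_eq A hn (by rw [h, one_pow])

theorem g4b_N1 {e₀ e₁ e₂ : ℂ} (he : EUn D e₀ e₁ e₂) : N1 D e₀ := by
  obtain ⟨u₀, u₁, u₂, h0, h1, h2, r0, r1, r2⟩ := he.rep
  refine ⟨he.int0.1, u₀, u₁, u₂, h0, h1, h2, r0.symm, ?_⟩
  rw [r0, r1, r2]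
  exact he.prod

/-- `3 ∤` exponents: the exact power of `2` in `D` -/
theorem g4b_pow {a b : ℕ} {x y : Eis} (h : (2 : Eis) ^ a * x = 2 ^ b * y) (hx : ¬ (2 : Eis) ∣ x) (hy : ¬ (2 : Eis) ∣ y) : a = b ∧ x = y := by
  have hdom : IsDomain Eis := eis_isDomain
  have h2 : (2 : Eis) ≠ 0 := by decide
  have key : ∀ (a b : ℕ) (x y : Eis), (2 : Eis) ^ a * x = 2 ^ b * y → ¬ (2 : Eis) ∣ x → a < b → False := by
    intro a b x y h hx hab
    obtain ⟨k, rfl⟩ : ∃ k, b = a + (k + 1) := ⟨b - a - 1, by omega⟩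
    rw [pow_add, mul_assoc] at h
    have h3 := mul_left_cancel₀ (pow_ne_zero a h2) h
    apply hx
    rw [h3, pow_succ]
    exact ⟨2 ^ k * y, by ring⟩
  rcases lt_trichotomy a b with h1 | h1 | h1
  · exact absurd (key a b x y h hx h1) id
  · subst h1
    exact ⟨rfl, mul_left_cancel₀ (pow_ne_zero a h2) h⟩
  · exact absurd (key b a y x h.symm hy h1) id

/-- the comparison at one valuation ring, `v = 0` -/
theorem g4b_zero (A : ValuationSubring ℂ) (hA : A.valuation 2 < 1) (hc : ¬ ∃ x : Eis, x ^ 3 = D) (d : Dt D) (hv : d.v = 0) {R : Finset Eis} {a : Eis} (hR : IsR d.L R)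
    (ha : IsA d.L a) (ho : OddO d.L a)
    (he : EUn D (gE d.L R a 0 / gE d.L R a 1) (gE d.L R a 1 / gE d.L R a 2) (gE d.L R a 2 / gE d.L R a 0)) {q₁ q₂ : Eis}
    (hi : IsIntegral ℤ (((gE d.L R a 0 / gE d.L R a 1) ^ 63 - 1 -
      2 * (emb q₁ * (JT.cD D / 2 ^ 0) + emb q₂ * (JT.cD D / 2 ^ 0) ^ 2)) / 4)) :
    A.valuation (Ms d.L R a (gM d.v d.δ)) < 1 ↔ (2 : Eis) ∣ (d.ζ + d.δ) ^ 2 * q₁ + d.δ * q₂ ^ 2 := by
  have hj : d.L.j = 1 := by
    rw [d.hj, hv]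
    simp
  obtain ⟨k1, k2⟩ := dig_val A hA d hc hj hR ha he hi
  have k3 := gM_zero A hA d hR ha ho
  rw [pow_zero, div_one] at k1 k2
  rw [hv]
  obtain ⟨s, es⟩ : ∃ s, s = JT.cD D := ⟨_, rfl⟩
  obtain ⟨m1, e1⟩ : ∃ m, m = Ms d.L R a yh := ⟨_, rfl⟩
  obtain ⟨m2, e2⟩ : ∃ m, m = Ms d.L R a (fun z => yh z ^ 2) := ⟨_, rfl⟩
  obtain ⟨M, eM⟩ : ∃ m, m = Ms d.L R a (gM 0 d.δ) := ⟨_, rfl⟩
  rw [← es, ← e1] at k1
  rw [← es, ← e2] at k2
  rw [← e1, ← e2, ← eM] at k3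
  rw [← eM]
  have hs3 : s ^ 3 = emb D := by rw [es]; exact JT.cD_cube D
  have hD0 : D = d.D₀ := by
    have := d.hD
    rwa [hv, pow_zero, one_mul] at this
  have hDodd : ¬ (2 : Eis) ∣ D := by rw [hD0]; exact d.hD₀
  have hvs : A.valuation s = 1 := g4b_root (n := 3) (by norm_num) (by rw [hs3]; exact g4b_emb_unit hA hDodd)
  have hsA : s ∈ A := (ValuationSubring.valuation_le_one_iff A _).1 hvs.le
  have hZ : emb d.ζ ∈ A := g3b_emb A _
  have hDl : emb d.δ ∈ A := g3b_emb A _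
  have hq1 : emb q₁ ∈ A := g3b_emb A _
  have hq2 : emb q₂ ∈ A := g3b_emb A _
  have hw := g3b_w A
  have hw3 := CUL.w3
  have hz3 : emb d.ζ ^ 3 = 1 := by rw [← map_pow, d.hζ, map_one]
  have hvZ : A.valuation (emb d.ζ) = 1 := g4b_root (n := 3) (by norm_num) (by rw [hz3, map_one])
  obtain ⟨J, hJ⟩ := d.hδ
  have hDe : emb D = emb d.ζ * (1 + 2 * emb d.δ) + 4 * emb J := by
    have h1 : D = d.ζ * (1 + 2 * d.δ) + 4 * J := by linear_combination hD0 + hJ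
    have h2 := congrArg emb h1
    rw [map_add, map_mul, map_add, map_mul, map_mul, map_one, map_ofNat, map_ofNat] at h2
    exact h2
  have hJA : emb J ∈ A := g3b_emb A _
  have h2A : (2 : ℂ) ∈ A := by exact_mod_cast g3b_int A 2
  -- `w² ζ² M ≡ s Q`
  have hcon : A.valuation (w ^ 2 * emb d.ζ ^ 2 * M - s * emb ((d.ζ + d.δ) ^ 2 * q₁ + d.δ * q₂ ^ 2)) ≤ A.valuation 2 := by
    have e : w ^ 2 * emb d.ζ ^ 2 * M - s * emb ((d.ζ + d.δ) ^ 2 * q₁ + d.δ * q₂ ^ 2) =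
        w ^ 2 * (emb d.ζ ^ 2 * M - ((emb d.ζ + emb d.δ) ^ 2 * m1 + emb d.δ * emb d.ζ ^ 2 * m2)) +
        (-(emb d.ζ + emb d.δ) ^ 2) * (emb q₁ * s - w ^ 2 * m1) +
        (-(emb d.δ * emb d.ζ ^ 2)) * ((emb q₂ * s ^ 2) ^ 2 - w ^ 2 * m2) +
        2 * (emb d.δ * emb q₂ ^ 2 * s * emb d.ζ ^ 2 * (emb d.ζ * emb d.δ + 2 * emb J)) := by
      rw [map_add, map_mul, map_mul, map_pow, map_pow, map_add]
      linear_combination (emb d.δ * emb d.ζ ^ 2 * emb q₂ ^ 2 * s) * hs3 + (emb d.δ * emb d.ζ ^ 2 * emb q₂ ^ 2 * s) * hDe +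
        (emb d.δ * emb q₂ ^ 2 * s) * hz3
    rw [e]
    refine g3b_add A (g3b_add A (g3b_add A (g3b_mul A (pow_mem hw 2) k3) (g3b_mul A (by (repeat' (first | assumption | apply pow_mem | apply add_mem | apply sub_mem | apply neg_mem | apply mul_mem))) k1)) (g3b_mul A (by (repeat' (first | assumption | apply pow_mem | apply add_mem | apply sub_mem | apply neg_mem | apply mul_mem))) k2)) (g3b_two A (by (repeat' (first | assumption | apply pow_mem | apply add_mem | apply sub_mem | apply neg_mem | apply mul_mem))))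
  have hu : A.valuation (w ^ 2 * emb d.ζ ^ 2) = 1 := by
    rw [map_mul, map_pow, map_pow, hvZ, Q3V.v_w, one_pow, one_mul]
  rw [← g4b_unit hu, g4b_iff hA hcon, g4b_unit hvs]
  exact emb_lt A hA _

/-- the comparison at one valuation ring, `v = 3` -/
theorem g4b_three (A : ValuationSubring ℂ) (hA : A.valuation 2 < 1) (h : JT.Cl2 D) (d : Dt D) (hv : d.v = 3) {R : Finset Eis} {a : Eis} (hR : IsR d.L R)
    (ha : IsA d.L a) (ho : OddO d.L a)
    (he : EUn D (gE d.L R a 0 / gE d.L R a 1) (gE d.L R a 1 / gE d.L R a 2) (gE d.L R a 2 / gE d.L R a 0)) {q₁ q₂ : Eis}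
    (hi : IsIntegral ℤ (((gE d.L R a 0 / gE d.L R a 1) ^ 63 - 1 -
      2 * (emb q₁ * (JT.cD D / 2 ^ 1) + emb q₂ * (JT.cD D / 2 ^ 1) ^ 2)) / 4)) :
    A.valuation (Ms d.L R a (gM d.v d.δ)) < 1 ↔ (2 : Eis) ∣ q₂ := by
  have hj : d.L.j = 1 := by
    rw [d.hj, hv]
    decide
  obtain ⟨-, k2⟩ := dig_val A hA d h.ncube hj hR ha he hi
  have k3 := gM_three A hA d hR ha ho
  rw [hv]
  have hD8 : D = 8 * d.D₀ := by
    have := d.hD
    rw [hv] at this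
    exact this.trans (by norm_num)
  have hζ1 : d.ζ ≠ 1 := by
    intro h1
    have h2 := d.hδ
    rw [h1] at h2
    obtain ⟨k, hk⟩ := h2
    exact h.two3 d.D₀ hD8 ⟨2 * k + d.δ, by linear_combination hk⟩
  have hz3 : emb d.ζ ^ 3 = 1 := by rw [← map_pow, d.hζ, map_one]
  have hvZ : A.valuation (emb d.ζ) = 1 := g4b_root (n := 3) (by norm_num) (by rw [hz3, map_one])
  have hz1 : emb d.ζ - 1 ≠ 0 := by
    intro h1
    apply hζ1
    apply emb_injective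
    rw [map_one]
    exact sub_eq_zero.1 h1
  have hz2 : emb d.ζ ^ 2 + emb d.ζ + 1 = 0 := by
    have e : (emb d.ζ - 1) * (emb d.ζ ^ 2 + emb d.ζ + 1) = 0 := by linear_combination hz3
    exact (mul_eq_zero.1 e).resolve_left hz1
  have hu1 : A.valuation (1 + emb d.ζ) = 1 := by
    have e : 1 + emb d.ζ = -(emb d.ζ ^ 2) := by linear_combination hz2
    rw [e, Valuation.map_neg, map_pow, hvZ, one_pow]
  have hs3 : (JT.cD D / 2 ^ 1) ^ 3 = emb d.D₀ := by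
    have e8 : emb D = 8 * emb d.D₀ := by
      have := congrArg emb hD8
      rwa [map_mul, map_ofNat] at this
    rw [div_pow, JT.cD_cube, pow_one, e8]
    norm_num
  have hvs : A.valuation (JT.cD D / 2 ^ 1) = 1 :=
    g4b_root (n := 3) (by norm_num) (by rw [hs3]; exact g4b_emb_unit hA d.hD₀)
  have hvw : A.valuation (w ^ 2) = 1 := by rw [map_pow, Q3V.v_w, one_pow]
  rw [g4b_iff hA k3, g4b_unit hu1, ← g4b_unit hvw, ← g4b_iff hA k2, mul_pow, map_mul, ← pow_mul, map_pow _ (JT.cD D / 2 ^ 1), hvs, one_pow, mul_one,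
    map_pow, pow_lt_one_iff_of_nonneg zero_le two_ne_zero]
  exact emb_lt A hA _

/-- [G4.3] `v = 0`: in `On2` only the first alternative with `m = 0`, `D' = D₀ = D` is possible. `s = cD D`, `s³ = D ≡ ζ mod 2`. `dig_val`, `gM_zero`:
`s ((ζ + δ)² q₁ + δ q₂²) ≡ (ζ + δ)² w² m₁ + δ ζ² w² m₂ ≡ w² ζ² Ms (gM 0 δ) mod 2` (`q₂² s = (q₂ s²)² s⁻³`, `ζ⁻¹ = ζ²`), `s`, `w`, `ζ` are units; `emb_lt`.
Existence of `q₁, q₂`: `dig_exists`. -/
theorem on2_zero (h : JT.Cl2 D) (d : Dt D) (hv : d.v = 0) {R : Finset Eis} {a : Eis} (hR : IsR d.L R) (ha : IsA d.L a) (ho : OddO d.L a)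
    (he : EUn D (gE d.L R a 0 / gE d.L R a 1) (gE d.L R a 1 / gE d.L R a 2) (gE d.L R a 2 / gE d.L R a 0)) :
    JT.On2 D (JT.cD D) (gE d.L R a 0 / gE d.L R a 1) ↔
      ∀ A : ValuationSubring ℂ, A.valuation 2 < 1 → A.valuation (Ms d.L R a (gM d.v d.δ)) < 1 := by
  have hD0 : D = d.D₀ := by
    have := d.hD
    rwa [hv, pow_zero, one_mul] at this
  have hDodd : ¬ (2 : Eis) ∣ D := by rw [hD0]; exact d.hD₀
  have hδ : (4 : Eis) ∣ D - d.ζ * (1 + 2 * d.δ) := by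
    obtain ⟨J, hJ⟩ := d.hδ
    exact ⟨J, by linear_combination hD0 + hJ⟩
  constructor
  · rintro (⟨m, D', q₁, q₂, hm, hD, hD', hW, hi⟩ | ⟨k, D', hk, hD, hD', -⟩ | ⟨D', hD, hD', -⟩) A hA
    · have h8 : (8 : Eis) ^ m = 2 ^ (3 * m) := by rw [pow_mul]; norm_num
      have h1 : (2 : Eis) ^ 0 * D = 2 ^ (3 * m) * D' := by rw [pow_zero, one_mul, ← h8]; exact hD
      obtain ⟨h2, h3⟩ := g4b_pow h1 hDodd hD'
      have hm0 : m = 0 := by omega
      subst hm0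
      rw [← h3] at hW
      exact (g4b_zero A hA h.ncube d hv hR ha ho he hi).2 ((w2_zero_iff d.hζ hδ).1 hW)
    · exfalso
      apply hDodd
      rw [hD]
      rcases hk with rfl | rfl | rfl
      · exact ⟨2 * D', by ring⟩
      · exact ⟨8 * D', by ring⟩
      · exact ⟨16 * D', by ring⟩
    · exact absurd ⟨D', hD⟩ hDodd
  · intro hM
    obtain ⟨A, hA⟩ := exists_A
    have hD1 : D = 8 ^ 0 * D := by rw [pow_zero, one_mul]
    obtain ⟨q₁, q₂, hi⟩ := dig_exists h.ncube (m := 0) (D' := D) (by norm_num) hD1 hDodd (g4b_N1 he)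
    left
    exact ⟨0, D, q₁, q₂, by norm_num, hD1, hDodd,
      (w2_zero_iff d.hζ hδ).2 ((g4b_zero A hA h.ncube d hv hR ha ho he hi).1 (hM A hA)), hi⟩

/-- [G4.4] `v = 3`: `D = 8 D₀`, `m = 1`, `s' = s/2`, `s'³ = D₀`; `W2 1 D' q₁ q₂` means `2 ∣ q₂`; `(q₂ s'²)² ≡ w² m₂`, `Ms (gM 3 δ) ≡ (1 + ζ) m₂` and `ζ ≠ 1`
(`Cl2.two3`), `1 + ζ` is a unit (`- ζ²`). -/
theorem on2_three (h : JT.Cl2 D) (d : Dt D) (hv : d.v = 3) {R : Finset Eis} {a : Eis} (hR : IsR d.L R) (ha : IsA d.L a) (ho : OddO d.L a)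
    (he : EUn D (gE d.L R a 0 / gE d.L R a 1) (gE d.L R a 1 / gE d.L R a 2) (gE d.L R a 2 / gE d.L R a 0)) :
    JT.On2 D (JT.cD D) (gE d.L R a 0 / gE d.L R a 1) ↔
      ∀ A : ValuationSubring ℂ, A.valuation 2 < 1 → A.valuation (Ms d.L R a (gM d.v d.δ)) < 1 := by
  have hD3 : D = 2 ^ 3 * d.D₀ := by
    have := d.hD
    rwa [hv] at this
  have hD8 : D = 8 ^ 1 * d.D₀ := hD3.trans (by norm_num)
  constructor
  · rintro (⟨m, D', q₁, q₂, hm, hD, hD', hW, hi⟩ | ⟨k, D', hk, hD, hD', -⟩ | ⟨D', hD, hD', -⟩) A hA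
    · have h8 : (8 : Eis) ^ m = 2 ^ (3 * m) := by rw [pow_mul]; norm_num
      have h1 : (2 : Eis) ^ 3 * d.D₀ = 2 ^ (3 * m) * D' := by rw [← h8, ← hD]; exact hD3.symm
      obtain ⟨h2, h3⟩ := g4b_pow h1 d.hD₀ hD'
      have hm0 : m = 1 := by omega
      subst hm0
      rcases hW with ⟨h4, -⟩ | ⟨-, h4⟩
      · exact absurd h4 (by norm_num)
      · exact (g4b_three A hA h d hv hR ha ho he hi).2 h4
    · exfalso
      have h1 : (2 : Eis) ^ 3 * d.D₀ = 2 ^ k * D' := by rw [← hD]; exact hD3.symm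
      obtain ⟨h2, -⟩ := g4b_pow h1 d.hD₀ hD'
      omega
    · exfalso
      have h1 : (2 : Eis) ^ 3 * d.D₀ = 2 ^ 1 * D' := by rw [pow_one, ← hD]; exact hD3.symm
      obtain ⟨h2, -⟩ := g4b_pow h1 d.hD₀ hD'
      omega
  · intro hM
    obtain ⟨A, hA⟩ := exists_A
    obtain ⟨q₁, q₂, hi⟩ := dig_exists h.ncube (m := 1) (D' := d.D₀) le_rfl hD8 d.hD₀ (g4b_N1 he)
    left
    exact ⟨1, d.D₀, q₁, q₂, le_rfl, hD8, d.hD₀, Or.inr ⟨rfl, (g4b_three A hA h d hv hR ha ho he hi).1 (hM A hA)⟩, hi⟩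

end J2L
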