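import Pool.Agent.J2L.G3

/-!
# [J2L-G6] the case `v₂(D) = 2, 4, 5`

`e = ∏ hT(c/f)/∏ hT(a c/f)`, `ϕ y hT = D₂(ϕ, x) ≡ 1 + ϕ x² mod ϕ²`. `S_i = ∑_{c ∈ R} x(a^i c/f)²`.
-/

set_option autoImplicit false

open scoped Classical

namespace J2L

open CM27
open CU (om)
open CUL (Nl ez IsRep rp cr zw)
open Q3V (OT)

variable {D : Eis} (A : ValuationSubring ℂ) (hA : A.valuation 2 < 1)

theorem g6a_le {x : ℂ} (h : x ∈ A) : A.valuation x ≤ 1 := (ValuationSubring.valuation_le_one_iff A x).2 h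

theorem g6a_of_le {x : ℂ} (h : A.valuation x ≤ 1) : x ∈ A := (ValuationSubring.valuation_le_one_iff A x).1 h

/-- divide by `ϕ²` -/
theorem g6a_div {x : ℂ} (h : A.valuation x ≤ A.valuation ph ^ 2) : ∃ F ∈ A, x = ph ^ 2 * F := by
  have hp : ph ^ 2 ≠ 0 := pow_ne_zero 2 ph_ne
  refine ⟨x / ph ^ 2, ?_, by rw [← mul_div_assoc, mul_div_cancel_left₀ _ hp]⟩
  apply g6a_of_le
  rw [map_div₀, map_pow]
  exact div_le_one_of_le₀ h zero_le

theorem g6a_mul {F : ℂ} (h : F ∈ A) : A.valuation (ph ^ 2 * F) ≤ A.valuation ph ^ 2 := by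
  rw [map_mul, map_pow]
  calc A.valuation ph ^ 2 * A.valuation F ≤ A.valuation ph ^ 2 * 1 := mul_le_mul' le_rfl (g6a_le A h)
    _ = _ := mul_one _

include hA in
theorem g6a_ph : ph ∈ A := g6a_of_le A (ph_lt A hA).le

theorem g6a_ot {L : Lv} {R : Finset Eis} {a : Eis} (hR : IsR L R) (ha : IsA L a) (i : ℕ) {c : Eis} (hc : c ∈ R) :
    OT (pt L (a ^ i * c)) := ot_pt L (ha.1.pow_left.mul_left (hR.1 c hc).1)

include hA in
/-- products modulo `ϕ²` -/
theorem g6a_prod {ι : Type} (R : Finset ι) (f g : ι → ℂ) (hg : ∀ c ∈ R, g c ∈ A)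
    (hf : ∀ c ∈ R, A.valuation (f c - (1 + ph * g c)) ≤ A.valuation ph ^ 2) :
    A.valuation (∏ c ∈ R, f c - (1 + ph * ∑ c ∈ R, g c)) ≤ A.valuation ph ^ 2 := by
  induction R using Finset.induction_on with
  | empty => simp
  | insert c R hc ih =>
    have h1 := ih (fun c' hc' => hg c' (Finset.mem_insert_of_mem hc')) (fun c' hc' => hf c' (Finset.mem_insert_of_mem hc'))
    have hG : ∑ c ∈ R, g c ∈ A := sum_mem (fun c' hc' => hg c' (Finset.mem_insert_of_mem hc'))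
    have hgc := hg c (Finset.mem_insert_self c R)
    obtain ⟨F, hF, e⟩ := g6a_div A h1
    obtain ⟨F', hF', e'⟩ := g6a_div A (hf c (Finset.mem_insert_self c R))
    have hp := g6a_ph A hA
    rw [Finset.prod_insert hc, Finset.sum_insert hc]
    generalize ∏ c ∈ R, f c = P at e
    generalize ∑ c ∈ R, g c = G at e hG
    have h2 : f c * P - (1 + ph * (g c + G)) =
        ph ^ 2 * (g c * G + F' * (1 + ph * G + ph ^ 2 * F) + (1 + ph * g c) * F) := by
      have e1 : f c = 1 + ph * g c + ph ^ 2 * F' := by linear_combination e'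
      have e2 : P = 1 + ph * G + ph ^ 2 * F := by linear_combination e
      rw [e1, e2]
      ring
    rw [h2]
    apply g6a_mul
    repeat (first | assumption | apply add_mem | apply sub_mem | apply mul_mem | apply pow_mem | apply neg_mem | exact one_mem _ | exact ofNat_mem _ _)

include hA in
/-- [G6.1] `ϕ hT = D₂/y ≡ 1 + ϕ x² mod ϕ²` -/
theorem hT_cong {z : ℂ} (h : OT z) : A.valuation (ph * hT z - (1 + ph * xw z ^ 2)) ≤ A.valuation ph ^ 2 := by
  have hx : xw z ∈ A := g6a_of_le A (x_int A hA h)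
  have hy : yh z ∈ A := g6a_of_le A (yh_int A hA h)
  have hyv := y_val A hA h
  have hy0 : yw z ≠ 0 := Q3V.off_y h.two.1
  have hp := g6a_ph A hA
  have hp0 := ph_ne
  have e1 : yw z = 1 + 2 * yh z := by unfold yh; ring
  have e2 : ph * hT z - (1 + ph * xw z ^ 2) = ph ^ 2 * (-xw z + ph * (1 + ph * xw z ^ 2) * yh z) / yw z := by
    rw [hT_eq h.two.1, eq_div_iff hy0]
    unfold D2
    have h3 := ph_cube
    field_simp
    rw [e1]
    linear_combination (-(yh z * (1 + ph * xw z ^ 2))) * h3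
  rw [e2, map_div₀, hyv, div_one]
  apply g6a_mul
  repeat (first | assumption | apply add_mem | apply sub_mem | apply mul_mem | apply pow_mem | apply neg_mem | exact one_mem _ | exact ofNat_mem _ _)

include hA in
/-- products -/
theorem prod_hT {L : Lv} {R : Finset Eis} {a : Eis} (hR : IsR L R) (ha : IsA L a) (i : ℕ) :
    A.valuation (∏ c ∈ R, (ph * hT (pt L (a ^ i * c))) - (1 + ph * ∑ c ∈ R, xw (pt L (a ^ i * c)) ^ 2)) ≤ A.valuation ph ^ 2 := by
  refine g6a_prod A hA R (fun c => ph * hT (pt L (a ^ i * c))) (fun c => xw (pt L (a ^ i * c)) ^ 2) ?_ ?_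
  · intro c hc
    exact pow_mem (g6a_of_le A (x_int A hA (g6a_ot hR ha i hc))) 2
  · intro c hc
    exact hT_cong A hA (g6a_ot hR ha i hc)

theorem g6a_gE {L : Lv} {R : Finset Eis} {a : Eis} (hj : L.j ≠ 1) (i : ℕ) :
    ph ^ R.card * gE L R a i = ∏ c ∈ R, (ph * hT (pt L (a ^ i * c))) := by
  unfold gE
  rw [Finset.prod_mul_distrib, Finset.prod_const]
  congr 1
  refine Finset.prod_congr rfl (fun c _ => ?_)
  unfold Ph
  rw [if_neg hj]

include hA in
theorem g6a_S {L : Lv} {R : Finset Eis} {a : Eis} (hR : IsR L R) (ha : IsA L a) (i : ℕ) :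
    ∑ c ∈ R, xw (pt L (a ^ i * c)) ^ 2 ∈ A :=
  sum_mem (fun _ hc => pow_mem (g6a_of_le A (x_int A hA (g6a_ot hR ha i hc))) 2)

include hA in
/-- [G6.2] `e³ ≡ 1 + ϕ (S_0 + S_1) mod ϕ²` (`2 ~ ϕ³`) -/
theorem e3_cong {L : Lv} {R : Finset Eis} {a : Eis} (hR : IsR L R) (ha : IsA L a) (hj : L.j ≠ 1) :
    A.valuation ((gE L R a 0 / gE L R a 1) ^ 3 -
      (1 + ph * (∑ c ∈ R, xw (pt L c) ^ 2 + ∑ c ∈ R, xw (pt L (a * c)) ^ 2))) ≤ A.valuation ph ^ 2 := by
  have hp := g6a_ph A hA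
  have hp0 := ph_ne
  have s0 := g6a_S A hA hR ha 0
  have s1 := g6a_S A hA hR ha 1
  obtain ⟨F0, hF0, e0⟩ := g6a_div A (prod_hT A hA hR ha 0)
  obtain ⟨F1, hF1, e1⟩ := g6a_div A (prod_hT A hA hR ha 1)
  rw [← g6a_gE hj] at e0 e1
  simp only [pow_zero, one_mul] at e0 s0
  simp only [pow_one] at e1 s1
  generalize ∑ c ∈ R, xw (pt L c) ^ 2 = S0 at *
  generalize ∑ c ∈ R, xw (pt L (a * c)) ^ 2 = S1 at *
  set P0 := ph ^ R.card * gE L R a 0 with hP0
  set P1 := ph ^ R.card * gE L R a 1 with hP1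
  have h1 : P1 = 1 + ph * (S1 + ph * F1) := by linear_combination e1
  have h0 : P0 = 1 + ph * (S0 + ph * F0) := by linear_combination e0
  have hv1 : A.valuation P1 = 1 := by
    have hm : S1 + ph * F1 ∈ A := by repeat (first | assumption | apply add_mem | apply sub_mem | apply mul_mem | apply pow_mem | apply neg_mem | exact one_mem _ | exact ofNat_mem _ _)
    have h2 : A.valuation (ph * (S1 + ph * F1)) < A.valuation 1 := by
      rw [map_one, map_mul]
      calc A.valuation ph * A.valuation (S1 + ph * F1) ≤ A.valuation ph * 1 := mul_le_mul' le_rfl (g6a_le A hm)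
        _ = A.valuation ph := mul_one _
        _ < 1 := ph_lt A hA
    rw [h1, Valuation.map_add_eq_of_lt_left _ h2, map_one]
  have hP1' : P1 ≠ 0 := by
    intro h2
    rw [h2, map_zero] at hv1
    exact zero_ne_one hv1
  have hq : gE L R a 0 / gE L R a 1 = P0 / P1 := by
    rw [hP0, hP1, mul_div_mul_left _ _ (pow_ne_zero _ hp0)]
  have h3 := ph_cube
  have e2 : (gE L R a 0 / gE L R a 1) ^ 3 - (1 + ph * (S0 + S1)) =
      ph ^ 2 * (3 * (F0 - F1) - ph ^ 2 * (S0 - 2 * S1) + 3 * (S0 + ph * F0) ^ 2 - 3 * (S1 + ph * F1) ^ 2 +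
        ph * (S0 + ph * F0) ^ 3 - ph * (S1 + ph * F1) ^ 3 -
        (S0 + S1) * (3 * (S1 + ph * F1) + 3 * ph * (S1 + ph * F1) ^ 2 + ph ^ 2 * (S1 + ph * F1) ^ 3)) / P1 ^ 3 := by
    rw [hq, eq_div_iff (pow_ne_zero 3 hP1'), div_pow, sub_mul, div_mul_cancel₀ _ (pow_ne_zero 3 hP1'), h0, h1]
    linear_combination (ph * (S0 - 2 * S1)) * h3
  rw [e2, map_div₀, map_pow, hv1, one_pow, div_one]
  apply g6a_mul
  repeat (first | assumption | apply add_mem | apply sub_mem | apply mul_mem | apply pow_mem | apply neg_mem | exact one_mem _ | exact ofNat_mem _ _)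

theorem g6b_per {l : ℕ} : Per (fun z => xw z ^ l) := fun z e => by
  show xw (z + emb e) ^ l = xw z ^ l
  rw [xw_add]

theorem g6b_even (l : ℕ) (z : ℂ) : xw (-z) ^ l = xw z ^ l := by rw [xw_neg]

theorem g6b_wl (l : ℕ) (z : ℂ) : xw (w * z) ^ l = w ^ l * xw z ^ l := by rw [CM27.xw_w, mul_pow]

theorem g6b_w : A.valuation w = 1 := w_val A

include hA in
/-- `e³ ≡ 1 + ϕ u S mod ϕ²`, `u` a unit -/
theorem g6b_lt {E S u : ℂ} (hu : A.valuation u = 1) (h : A.valuation (E - (1 + ph * (u * S))) ≤ A.valuation ph ^ 2)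
    (_hS : A.valuation S ≤ 1) : A.valuation (E - 1) < A.valuation ph ↔ A.valuation S < 1 := by
  have hp := ph_lt A hA
  have hp0 : 0 < A.valuation ph := zero_lt_iff.2 ((Valuation.ne_zero_iff _).2 ph_ne)
  have h2 : A.valuation ph ^ 2 < A.valuation ph := by
    rw [pow_two]
    calc A.valuation ph * A.valuation ph < A.valuation ph * 1 := mul_lt_mul_of_pos_left hp hp0
      _ = A.valuation ph := mul_one _
  have h3 : A.valuation (E - (1 + ph * (u * S))) < A.valuation ph := lt_of_le_of_lt h h2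
  have h4 : A.valuation (ph * (u * S)) = A.valuation ph * A.valuation S := by rw [map_mul, map_mul, hu, one_mul]
  constructor
  · intro h5
    have h6 : A.valuation (ph * (u * S)) < A.valuation ph := by
      have e : ph * (u * S) = (E - 1) - (E - (1 + ph * (u * S))) := by ring
      rw [e]
      exact Valuation.map_sub_lt _ h5 h3
    rw [h4] at h6
    by_contra h7
    rw [not_lt] at h7
    have h8 : A.valuation ph * 1 ≤ A.valuation ph * A.valuation S := mul_le_mul' le_rfl h7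
    rw [mul_one] at h8
    exact absurd h6 (not_lt.2 h8)
  · intro h5
    have h6 : A.valuation (ph * (u * S)) < A.valuation ph := by
      rw [h4]
      calc A.valuation ph * A.valuation S < A.valuation ph * 1 := mul_lt_mul_of_pos_left h5 hp0
        _ = A.valuation ph := mul_one _
    have e : E - 1 = (E - (1 + ph * (u * S))) + ph * (u * S) := by ring
    rw [e]
    exact Valuation.map_add_lt _ h3 h6

theorem g6b_sq {ι : Type} (R : Finset ι) (f : ι → ℂ) (hf : ∀ c ∈ R, f c ∈ A) :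
    ∃ F ∈ A, (∑ c ∈ R, f c) ^ 2 = ∑ c ∈ R, f c ^ 2 + 2 * F := by
  induction R using Finset.induction_on with
  | empty => exact ⟨0, zero_mem _, by simp⟩
  | insert c R hc ih =>
    obtain ⟨F, hF, e⟩ := ih (fun c' hc' => hf c' (Finset.mem_insert_of_mem hc'))
    have h1 : ∑ c ∈ R, f c ∈ A := sum_mem (fun c' hc' => hf c' (Finset.mem_insert_of_mem hc'))
    have h2 := hf c (Finset.mem_insert_self c R)
    refine ⟨F + f c * ∑ c ∈ R, f c, by repeat (first | assumption | apply add_mem | apply sub_mem | apply mul_mem | apply pow_mem | apply neg_mem | exact one_mem _ | exact ofNat_mem _ _), ?_⟩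
    rw [Finset.sum_insert hc, Finset.sum_insert hc]
    linear_combination e

include hA in
theorem g6b_three (T : ℂ) : A.valuation (3 * T) < 1 ↔ A.valuation T < 1 := by
  rw [map_mul, Q3V.v_three A hA, one_mul]

include hA in
/-- [G6.3] `S_1 = w S_0` (`j = 0`, `rot_zero` with `l = 2`), `w² S_0` (`j = 2`, `rot_two` with `l = 2`); `Ms x² = 3 S_0` (`j = 0`), `Ms x = 3 T_0`, `S_0 ≡ T_0² mod 2` (`j = 2`),
`T_0 = ∑ x(c/f)`. So `e³ ≢ 1 mod` (the ideal of `ϕ` times the maximal ideal) iff the moment is a unit. -/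
theorem e3_lt {L : Lv} {R : Finset Eis} {a : Eis} (hR : IsR L R) (ha : IsA L a) (hj : L.j = 0) :
    A.valuation ((gE L R a 0 / gE L R a 1) ^ 3 - 1) < A.valuation ph ↔ A.valuation (Ms L R a (fun z => xw z ^ 2)) < 1 := by
  have h1 := e3_cong A hA hR ha (by rw [hj]; decide)
  have h2 := rot_zero hR ha hj (g6b_per (l := 2)) (g6b_even 2) (g6b_wl 2) 0
  have h3 := Ms_zero hR ha hj (g6b_per (l := 2)) (g6b_even 2) (g6b_wl 2)
  have h4 := g6a_S A hA hR ha 0
  simp only [zero_add, pow_zero, pow_one, one_mul] at h2 h4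
  rw [h3, g6b_three A hA]
  rw [h2] at h1
  refine g6b_lt A hA (u := 1 + w ^ (2 * 2)) ?_ ?_ (g6a_le A h4)
  · have e : 1 + w ^ (2 * 2) = -w ^ 2 := by linear_combination w * CUL.w3 + CUL.w2
    rw [e, Valuation.map_neg, map_pow, g6b_w, one_pow]
  · refine le_of_eq_of_le ?_ h1
    congr 1
    ring

include hA in
theorem e3_lt2 {L : Lv} {R : Finset Eis} {a : Eis} (hR : IsR L R) (ha : IsA L a) (hj : L.j = 2) :
    A.valuation ((gE L R a 0 / gE L R a 1) ^ 3 - 1) < A.valuation ph ↔ A.valuation (Ms L R a xw) < 1 := by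
  have h1 := e3_cong A hA hR ha (by rw [hj]; decide)
  have h2 := rot_two hR ha hj (g6b_per (l := 2)) (g6b_even 2) (g6b_wl 2) 0
  have h3 := Ms_j2 hR ha hj (φ := xw) (fun z e => xw_add z e) xw_neg (fun z => CM27.xw_w z)
  have h4 := g6a_S A hA hR ha 0
  have h5 : ∀ c ∈ R, xw (pt L c) ∈ A := fun c hc => by
    have h6 := g6a_ot hR ha 0 hc
    rw [pow_zero, one_mul] at h6
    exact g6a_of_le A (x_int A hA h6)
  obtain ⟨F, hF, e⟩ := g6b_sq A R (fun c => xw (pt L c)) h5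
  have h7 : ∑ c ∈ R, xw (pt L c) ∈ A := sum_mem h5
  simp only [zero_add, pow_zero, pow_one, one_mul] at h2 h4
  rw [h3, g6b_three A hA]
  rw [h2] at h1
  rw [g6b_lt A hA (u := 1 + w ^ 2) (S := ∑ c ∈ R, xw (pt L c) ^ 2) ?_ ?_ (g6a_le A h4)]
  · -- `S₀ ≡ T₀²`
    have h8 : A.valuation (2 * F) < 1 := by
      rw [map_mul]
      calc A.valuation 2 * A.valuation F ≤ A.valuation 2 * 1 := mul_le_mul' le_rfl (g6a_le A hF)
        _ = A.valuation 2 := mul_one _
        _ < 1 := hA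
    have h9 : A.valuation ((∑ c ∈ R, xw (pt L c)) ^ 2) < 1 ↔ A.valuation (∑ c ∈ R, xw (pt L c)) < 1 := by
      rw [map_pow]
      exact pow_lt_one_iff two_ne_zero
    rw [← h9, e]
    constructor
    · intro h10
      exact Valuation.map_add_lt _ h10 h8
    · intro h10
      have e2 : ∑ c ∈ R, xw (pt L c) ^ 2 = (∑ c ∈ R, xw (pt L c) ^ 2 + 2 * F) - 2 * F := by ring
      rw [e2]
      exact Valuation.map_sub_lt _ h10 h8
  · have e : 1 + w ^ 2 = -w := by linear_combination CUL.w2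
    rw [e, Valuation.map_neg, g6b_w]
  · refine le_of_eq_of_le ?_ h1
    congr 1
    ring

include hA in
/-- a unit multiple, modulo `2` -/
theorem g6b_congr {x y u : ℂ} (hu : A.valuation u = 1) (h : A.valuation (x - u * y) ≤ A.valuation 2) :
    A.valuation x < 1 ↔ A.valuation y < 1 := by
  have h1 : A.valuation (x - u * y) < 1 := lt_of_le_of_lt h hA
  have h2 : A.valuation (u * y) = A.valuation y := by rw [map_mul, hu, one_mul]
  rw [← h2]
  constructor
  · intro h3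
    have e : u * y = x - (x - u * y) := by ring
    rw [e]
    exact Valuation.map_sub_lt _ h3 h1
  · intro h3
    have e : x = (x - u * y) + u * y := by ring
    rw [e]
    exact Valuation.map_add_lt _ h1 h3

include hA in
/-- [G6.4] the moment of `gM` for `v = 2, 4, 5`: `gM_two` (`1 + ζ δ` is a unit because of `Cl2.two2`: `D/4 = D₀ ≡ ζ + 2 ζ δ`, and for `ζ δ ≡ 1 mod 2` it is `≡ y² + 2 mod 4` with
`y = ζ²`), `gM_four`, `gM_five`. -/
theorem gM_lt (h : JT.Cl2 D) (d : Dt D) (hv : d.v = 2 ∨ d.v = 4 ∨ d.v = 5) {R : Finset Eis} {a : Eis} (hR : IsR d.L R) (ha : IsA d.L a) :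
    A.valuation (Ms d.L R a (gM d.v d.δ)) < 1 ↔ A.valuation ((gE d.L R a 0 / gE d.L R a 1) ^ 3 - 1) < A.valuation ph := by
  have hζ : A.valuation (emb d.ζ) = 1 := by
    have h1 := congrArg emb d.hζ
    rw [map_pow, map_one] at h1
    have h2 := congrArg A.valuation h1
    rw [map_pow, map_one] at h2
    exact Q3V.root_eq A (k := 3) (by norm_num) (by rw [h2, one_pow])
  have hj := d.hj
  rcases hv with hv | hv | hv
  · have hj2 : d.L.j = 2 := by rw [hj, hv]; decide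
    rw [e3_lt2 A hA hR ha hj2, hv]
    refine g6b_congr A hA (u := 1 + emb d.ζ * emb d.δ) ?_ (gM_two A hA d hR ha)
    have e : 1 + emb d.ζ * emb d.δ = emb (1 + d.ζ * d.δ) := by rw [map_add, map_one, map_mul]
    rw [e]
    refine le_antisymm (val_of_int A (JL.isIntegral_emb _)) ?_
    by_contra h1
    rw [not_le] at h1
    obtain ⟨t, ht⟩ := (emb_lt A hA _).1 h1
    obtain ⟨r, hr⟩ := d.hδ
    have hD : D = 4 * d.D₀ := by
      have := d.hD
      rw [hv] at this
      exact this.trans (by norm_num)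
    refine h.two2 d.D₀ d.hD₀ hD (d.ζ ^ 2) ⟨r + t - 1, ?_⟩
    have h3 := d.hζ
    linear_combination hr + 2 * ht + (-d.ζ) * h3
  · have hj0 : d.L.j = 0 := by rw [hj, hv]; decide
    rw [e3_lt A hA hR ha hj0, hv, gM_four d]
  · have hj2 : d.L.j = 2 := by rw [hj, hv]; decide
    rw [e3_lt2 A hA hR ha hj2, hv]
    exact g6b_congr A hA hζ (gM_five A hA d hR ha)

/-- the exponent of `2` is unique -/
theorem g6c_uniq {v k : ℕ} {x y : Eis} (hx : ¬ (2 : Eis) ∣ x) (hy : ¬ (2 : Eis) ∣ y) (h : (2 : Eis) ^ v * x = 2 ^ k * y) : v = k := by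
  have hdom : IsDomain Eis := eis_isDomain
  have h2 : (2 : Eis) ≠ 0 := Q3V.two_ne_eis
  rcases lt_trichotomy v k with h1 | h1 | h1
  · exfalso
    apply hx
    obtain ⟨j, rfl⟩ : ∃ j, k = v + (j + 1) := ⟨k - v - 1, by omega⟩
    rw [pow_add, mul_assoc] at h
    have h3 := mul_left_cancel₀ (pow_ne_zero v h2) h
    rw [h3, pow_succ]
    exact ⟨2 ^ j * y, by ring⟩
  · exact h1
  · exfalso
    apply hy
    obtain ⟨j, rfl⟩ : ∃ j, v = k + (j + 1) := ⟨v - k - 1, by omega⟩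
    rw [pow_add, mul_assoc] at h
    have h3 := mul_left_cancel₀ (pow_ne_zero k h2) h
    rw [← h3, pow_succ]
    exact ⟨2 ^ j * x, by ring⟩

/-- `A.valuation x ≤ A.valuation 2 ^ 2` after cubing iff `A.valuation x < A.valuation ϕ` -/
theorem g6c_iff (A : ValuationSubring ℂ) (hA : A.valuation 2 < 1) {v : ℕ} {D₀ : Eis} (hD : D = 2 ^ v * D₀) (hD₀ : ¬ (2 : Eis) ∣ D₀)
    (hv : ¬ 3 ∣ v) {x : ℂ} (hx : x ∈ JT.KM D) :
    A.valuation (x ^ 3 / 2 ^ 2) ≤ 1 ↔ A.valuation x < A.valuation ph := by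
  have hv2 : 0 < A.valuation 2 := zero_lt_iff.2 ((Valuation.ne_zero_iff _).2 two_ne_zero)
  have hvp : 0 < A.valuation ph := zero_lt_iff.2 ((Valuation.ne_zero_iff _).2 ph_ne)
  by_cases h0 : x = 0
  · subst h0
    simp only [ne_eq, OfNat.ofNat_ne_zero, not_false_eq_true, zero_pow, zero_div, map_zero]
    exact ⟨fun _ => hvp, fun _ => zero_le⟩
  obtain ⟨n, hn⟩ := val_M A hA hD hD₀ hv hx h0
  have h1 : A.valuation (x ^ 3 / 2 ^ 2) ≤ 1 ↔ A.valuation x ^ 3 ≤ A.valuation 2 ^ (2 : ℤ) := by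
    rw [map_div₀, map_pow, map_pow]
    have h2 : (0 : A.ValueGroup) < A.valuation 2 ^ 2 := pow_pos hv2 2
    rw [div_le_one₀ h2]
    norm_cast
  have h2 : A.valuation x < A.valuation ph ↔ A.valuation x ^ 3 < A.valuation 2 ^ (1 : ℤ) := by
    rw [zpow_one, ← ph_val A]
    exact (pow_lt_pow_iff_left₀ zero_le zero_le (by norm_num)).symm
  rw [h1, h2, hn, (zpow_right_strictAnti₀ hv2 hA).le_iff_ge, (zpow_right_strictAnti₀ hv2 hA).lt_iff_gt]
  omega

/-- [G6.5] `On2`: only the second alternative, with `k = v`. `IsIntegral ((u³ - 1)³/4)` iff for all `A` above `2`: `A.valuation (u³ - 1) ^ 3 ≤ A.valuation 2 ^ 2` (`int_of_val`, `val_of_int`),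
and by `val_M` (`u³ - 1 ∈ KM D`) this is `A.valuation (u³ - 1) < A.valuation ph` (`A.valuation ph ^ 3 = A.valuation 2`). -/
theorem on2_ram (h : JT.Cl2 D) (d : Dt D) (hv : d.v = 2 ∨ d.v = 4 ∨ d.v = 5) {R : Finset Eis} {a : Eis} (hR : IsR d.L R) (ha : IsA d.L a)
    (he : EUn D (gE d.L R a 0 / gE d.L R a 1) (gE d.L R a 1 / gE d.L R a 2) (gE d.L R a 2 / gE d.L R a 0)) :
    JT.On2 D (JT.cD D) (gE d.L R a 0 / gE d.L R a 1) ↔
      ∀ A : ValuationSubring ℂ, A.valuation 2 < 1 → A.valuation (Ms d.L R a (gM d.v d.δ)) < 1 := by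
  have hv3 : ¬ 3 ∣ d.v := by omega
  set u := gE d.L R a 0 / gE d.L R a 1 with hu
  have huM : u ∈ JT.KM D := by
    obtain ⟨u₀, u₁, u₂, h0, h1, h2, e0, -, -⟩ := he.rep
    exact (J2N.mem_KM u).2 ⟨u₀, u₁, u₂, h0, h1, h2, e0.symm⟩
  have hxM : u ^ 3 - 1 ∈ JT.KM D := sub_mem (pow_mem huM 3) (one_mem _)
  have hint : IsIntegral ℤ ((u ^ 3 - 1) ^ 3) := ((he.int0.1.pow 3).sub isIntegral_one).pow 3
  have key : IsIntegral ℤ ((u ^ 3 - 1) ^ 3 / 4) ↔
      ∀ A : ValuationSubring ℂ, A.valuation 2 < 1 → A.valuation (Ms d.L R a (gM d.v d.δ)) < 1 := by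
    have e4 : (u ^ 3 - 1) ^ 3 / 4 = (u ^ 3 - 1) ^ 3 / 2 ^ 2 := by norm_num
    rw [e4]
    constructor
    · intro h1 A hA
      rw [gM_lt A hA h d hv hR ha, ← hu, ← g6c_iff A hA d.hD d.hD₀ hv3 hxM]
      exact val_of_int A h1
    · intro h1
      refine int_of_val hint (fun A hA => ?_)
      rw [g6c_iff A hA d.hD d.hD₀ hv3 hxM]
      have h2 := h1 A hA
      rw [gM_lt A hA h d hv hR ha, ← hu] at h2
      exact h2
  rw [← key]
  unfold JT.On2
  constructor
  · rintro (⟨m, D', q₁, q₂, hm, hD', hD'2, -, -⟩ | ⟨k, D', hk, hD', hD'2, hi⟩ | ⟨D', hD', hD'2, -⟩)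
    · exfalso
      have h1 : (2 : Eis) ^ d.v * d.D₀ = 2 ^ (3 * m) * D' := by
        rw [← d.hD, hD', pow_mul]
        norm_num
      have h2 := g6c_uniq d.hD₀ hD'2 h1
      omega
    · exact hi
    · exfalso
      have h1 : (2 : Eis) ^ d.v * d.D₀ = 2 ^ 1 * D' := by
        rw [← d.hD, pow_one, hD']
      have h2 := g6c_uniq d.hD₀ hD'2 h1
      omega
  · intro hi
    exact Or.inr (Or.inl ⟨d.v, d.D₀, hv, d.hD, d.hD₀, hi⟩)

end J2L
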