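import Pool.Agent.J2L.A0

/-!
# [J2L-G7a] units modulo squares in `Ω + Ω ϕ + Ω ϕ²` modulo `4`, `ϕ³ = -2`, `Ω` unramified

Elementary replacement of Witt vectors. `A` is a valuation ring of `ℂ` above `2`, `Ω` a subring of `A` such that for `t ∈ Ω`: `t ≡ t^q + 2 t' mod 4` with `t' ∈ Ω`
(`q = 4^(k+1)`; `[t] := t^q` is the Teichmüller representative modulo `4`, it only depends on `t` modulo `2`). So `t^q ≡ t mod 2`, every `t ∈ Ω` has the square root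
`t^(q/2)` modulo `2`, and `A.valuation t < 1` implies `A.valuation t ≤ A.valuation 2`.
All formulas are checked by computer in a Galois ring.
-/

set_option autoImplicit false

open scoped Classical

namespace J2L

/-- `Ω` is unramified modulo `4` -/
structure Unr (A : ValuationSubring ℂ) (q : ℕ) (Ω : Subring ℂ) : Prop where
  q4 : ∃ k : ℕ, q = 4 ^ (k + 1)
  le : ∀ t ∈ Ω, A.valuation t ≤ 1
  fr : ∀ t ∈ Ω, ∃ t' ∈ Ω, A.valuation (t - t ^ q - 2 * t') ≤ A.valuation 4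

variable {A : ValuationSubring ℂ} (hA : A.valuation 2 < 1) {q : ℕ} {Ω : Subring ℂ}

theorem g7aa_dvd (x y : A) : A.valuation (x : ℂ) ≤ A.valuation (y : ℂ) ↔ y ∣ x := by
  constructor
  · intro h
    by_cases hy : (y : ℂ) = 0
    · rw [hy, map_zero, le_zero_iff, map_eq_zero] at h
      exact ⟨0, Subtype.ext (by rw [h]; simp)⟩
    · refine ⟨⟨x / y, (A.valuation_le_one_iff _).1 ?_⟩, Subtype.ext ?_⟩
      · rw [map_div₀]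
        exact div_le_one_of_le₀ h zero_le
      · change (x : ℂ) = y * (x / y)
        field_simp
  · rintro ⟨z, rfl⟩
    change A.valuation ((y : ℂ) * z) ≤ _
    rw [map_mul]
    exact mul_le_of_le_one_right' (A.valuation_le_one z)

theorem g7aa_lift {x : ℂ} (h : A.valuation x ≤ 1) : ∃ y : A, (y : ℂ) = x :=
  ⟨⟨x, (A.valuation_le_one_iff x).1 h⟩, rfl⟩

theorem g7aa_unit (x : A) : A.valuation (x : ℂ) = 1 ↔ IsUnit x := by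
  rw [ValuationSubring.valuation_eq_one_iff]

/-- [G7a.1] congruences modulo `2` and `4` for integral elements -/
theorem sq_congr {a b : ℂ} (ha : A.valuation a ≤ 1) (hb : A.valuation b ≤ 1) (h : A.valuation (a - b) ≤ A.valuation 2) :
    A.valuation (a ^ 2 - b ^ 2) ≤ A.valuation 4 := by
  obtain ⟨a, rfl⟩ := g7aa_lift ha
  obtain ⟨b, rfl⟩ := g7aa_lift hb
  obtain ⟨c, hc⟩ := (g7aa_dvd (a - b) 2).1 h
  exact (g7aa_dvd (a ^ 2 - b ^ 2) 4).2 ⟨c * (b + c), by linear_combination (a + b) * hc + 2 * c * hc⟩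

theorem teich_congr {k : ℕ} {a b : ℂ} (ha : A.valuation a ≤ 1) (hb : A.valuation b ≤ 1) (h : A.valuation (a - b) ≤ A.valuation 2) :
    A.valuation (a ^ (4 ^ (k + 1)) - b ^ (4 ^ (k + 1))) ≤ A.valuation 4 := by
  have h2 := sq_congr ha hb h
  obtain ⟨a, rfl⟩ := g7aa_lift ha
  obtain ⟨b, rfl⟩ := g7aa_lift hb
  have h3 := (g7aa_dvd (a ^ 2 - b ^ 2) 4).1 h2
  have e : 4 ^ (k + 1) = 2 * (2 * 4 ^ k) := by ring
  refine (g7aa_dvd (a ^ (4 ^ (k + 1)) - b ^ (4 ^ (k + 1))) 4).2 ?_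
  rw [e, pow_mul a, pow_mul b]
  exact h3.trans (sub_dvd_pow_sub_pow _ _ _)

/-- `(a + b)^q ≡ a^q + b^q + 2 (a b)^(q/2) mod 4`, `q = 2^n`, `n ≥ 1`: induction on `n`, squaring. -/
theorem teich_add {n : ℕ} {a b : ℂ} (ha : A.valuation a ≤ 1) (hb : A.valuation b ≤ 1) :
    A.valuation ((a + b) ^ (2 ^ (n + 1)) - (a ^ (2 ^ (n + 1)) + b ^ (2 ^ (n + 1)) + 2 * (a * b) ^ (2 ^ n))) ≤ A.valuation 4 := by
  obtain ⟨a, rfl⟩ := g7aa_lift ha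
  obtain ⟨b, rfl⟩ := g7aa_lift hb
  refine (g7aa_dvd ((a + b) ^ (2 ^ (n + 1)) - (a ^ (2 ^ (n + 1)) + b ^ (2 ^ (n + 1)) + 2 * (a * b) ^ (2 ^ n))) 4).2 ?_
  induction n with
  | zero => exact ⟨0, by ring⟩
  | succ n ih =>
    obtain ⟨r, hr⟩ := ih
    have e : ∀ x : A, x ^ (2 ^ (n + 1 + 1)) = (x ^ (2 ^ (n + 1))) ^ 2 := fun x => by rw [← pow_mul, ← pow_succ]
    have e' : (a * b) ^ (2 ^ (n + 1)) = ((a * b) ^ (2 ^ n)) ^ 2 := by rw [← pow_mul, ← pow_succ]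
    have e'' : a ^ (2 ^ (n + 1)) * b ^ (2 ^ (n + 1)) = ((a * b) ^ (2 ^ n)) ^ 2 := by rw [← mul_pow, e']
    rw [e, e a, e b, e']
    refine ⟨((a * b) ^ (2 ^ n)) ^ 2 + (a ^ (2 ^ (n + 1)) + b ^ (2 ^ (n + 1))) * (a * b) ^ (2 ^ n) +
      2 * r * (a ^ (2 ^ (n + 1)) + b ^ (2 ^ (n + 1)) + 2 * (a * b) ^ (2 ^ n)) + 4 * r ^ 2, ?_⟩
    generalize (a + b) ^ (2 ^ (n + 1)) = X at hr ⊢
    generalize a ^ (2 ^ (n + 1)) = Y at hr e'' ⊢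
    generalize b ^ (2 ^ (n + 1)) = Z at hr e'' ⊢
    generalize (a * b) ^ (2 ^ n) = W at hr e'' ⊢
    linear_combination (X + (Y + Z + 2 * W) + 4 * r) * hr + 2 * e''

theorem Unr.fr2 (h : Unr A q Ω) {t : ℂ} (ht : t ∈ Ω) : A.valuation (t ^ q - t) ≤ A.valuation 2 := by
  obtain ⟨t', ht', h1⟩ := h.fr t ht
  have h2 := h.le t ht
  have h3 := h.le t' ht'
  obtain ⟨t, rfl⟩ := g7aa_lift h2
  obtain ⟨t', rfl⟩ := g7aa_lift h3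
  obtain ⟨r, hr⟩ := (g7aa_dvd (t - t ^ q - 2 * t') 4).1 h1
  exact (g7aa_dvd (t ^ q - t) 2).2 ⟨-t' - 2 * r, by linear_combination -hr⟩

/-- `(t^(q/2))² = t^q ≡ t mod 2` -/
theorem Unr.sqrt (h : Unr A q Ω) {t : ℂ} (ht : t ∈ Ω) : A.valuation ((t ^ (q / 2)) ^ 2 - t) ≤ A.valuation 2 := by
  obtain ⟨k, hk⟩ := h.q4
  have e : q / 2 * 2 = q := by
    rw [hk, pow_succ]
    omega
  rw [← pow_mul, e]
  exact h.fr2 ht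

/-- `x² ≡ y² mod 2` implies `x ≡ y mod 2` for `x, y ∈ Ω` -/
theorem Unr.sq_inj (h : Unr A q Ω) (hA : A.valuation 2 < 1) {x y : ℂ} (hx : x ∈ Ω) (hy : y ∈ Ω) (h2 : A.valuation (x ^ 2 - y ^ 2) ≤ A.valuation 2) :
    A.valuation (x - y) ≤ A.valuation 2 := by
  obtain ⟨k, hk⟩ := h.q4
  have hx2 := h.fr2 hx
  have hy2 := h.fr2 hy
  have h5 := h.le x hx
  have h6 := h.le y hy
  obtain ⟨x, rfl⟩ := g7aa_lift h5
  obtain ⟨y, rfl⟩ := g7aa_lift h6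
  obtain ⟨r, hr⟩ := (g7aa_dvd (x ^ q - x) 2).1 hx2
  obtain ⟨s, hs⟩ := (g7aa_dvd (y ^ q - y) 2).1 hy2
  have h3 : (2 : A) ∣ x ^ 2 - y ^ 2 := (g7aa_dvd (x ^ 2 - y ^ 2) 2).1 h2
  have e : q = 2 * (2 * 4 ^ k) := by rw [hk]; ring
  have h4 : (2 : A) ∣ x ^ q - y ^ q := by
    rw [e, pow_mul x, pow_mul y]
    exact h3.trans (sub_dvd_pow_sub_pow _ _ _)
  obtain ⟨t, ht⟩ := h4
  exact (g7aa_dvd (x - y) 2).2 ⟨t - r + s, by linear_combination ht - hr + hs⟩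

include hA in
/-- [G7a.2] `A.valuation (t ^ q) < A.valuation t` if `A.valuation t < 1`, `t ≠ 0` -/
theorem Unr.lt (h : Unr A q Ω) {t : ℂ} (ht : t ∈ Ω) (h1 : A.valuation t < 1) : A.valuation t ≤ A.valuation 2 := by
  obtain ⟨k, hk⟩ := h.q4
  have h2 := h.fr2 ht
  have h5 := h.le t ht
  obtain ⟨t, rfl⟩ := g7aa_lift h5
  obtain ⟨r, hr⟩ := (g7aa_dvd (t ^ q - t) 2).1 h2
  have hq : q = q - 1 + 1 := by
    have : 0 < 4 ^ (k + 1) := by positivity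
    omega
  have hnu : ¬ IsUnit t := fun hu => by
    have h6 := (g7aa_unit t).2 hu
    rw [h6] at h1
    exact lt_irrefl _ h1
  have hu : IsUnit (1 - t ^ (q - 1)) := by
    by_contra hcon
    have h7 : (1 - t ^ (q - 1)) ∈ IsLocalRing.maximalIdeal A := (IsLocalRing.mem_maximalIdeal _).2 hcon
    have h8 : t ^ (q - 1) ∈ IsLocalRing.maximalIdeal A := by
      refine Ideal.pow_mem_of_mem _ ((IsLocalRing.mem_maximalIdeal _).2 hnu) _ ?_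
      have : 4 ^ 1 ≤ 4 ^ (k + 1) := Nat.pow_le_pow_right (by norm_num) (by omega)
      omega
    have h9 := Ideal.add_mem _ h7 h8
    rw [sub_add_cancel] at h9
    exact (IsLocalRing.mem_maximalIdeal _).1 h9 isUnit_one
  obtain ⟨v, hv⟩ := hu.exists_right_inv
  refine (g7aa_dvd t 2).2 ⟨-r * v, ?_⟩
  have e : t ^ q = t * t ^ (q - 1) := by
    conv_lhs => rw [hq]
    ring
  rw [e] at hr
  linear_combination -t * hv - v * hr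

theorem g7aa_ph : A.valuation ph ≤ 1 := by
  have h1 : A.valuation ph ^ 3 = A.valuation 2 := by
    rw [← map_pow, ph_cube, Valuation.map_neg]
  by_contra hcon
  rw [not_le] at hcon
  have h2 := one_lt_pow₀ hcon three_ne_zero
  rw [h1] at h2
  exact absurd (A.valuation_le_one 2) (not_le.2 h2)

include hA in
/-- [G7a.3] independence of `1, ϕ, ϕ²` (`A.valuation ph ^ 3 = A.valuation 2`). -/
theorem Unr.indep2 (h : Unr A q Ω) {x y z : ℂ} (hx : x ∈ Ω) (hy : y ∈ Ω) (hz : z ∈ Ω)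
    (h1 : A.valuation (x + y * ph + z * ph ^ 2) ≤ A.valuation 2) :
    A.valuation x ≤ A.valuation 2 ∧ A.valuation y ≤ A.valuation 2 ∧ A.valuation z ≤ A.valuation 2 := by
  have hx1 := h.le x hx
  have hy1 := h.le y hy
  have hz1 := h.le z hz
  have hlt : ∀ t : A, (t : ℂ) ∈ Ω → ¬ IsUnit t → (2 : A) ∣ t := by
    intro t ht hu
    refine (g7aa_dvd t 2).1 (Unr.lt hA h ht ?_)
    exact lt_of_le_of_ne (A.valuation_le_one t) (fun h => hu ((g7aa_unit t).1 h))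
  have h2u : ¬ IsUnit (2 : A) := fun hu => by
    have h6 := (g7aa_unit 2).2 hu
    exact absurd h6 hA.ne
  obtain ⟨p, hp⟩ := g7aa_lift (g7aa_ph (A := A))
  obtain ⟨x, rfl⟩ := g7aa_lift hx1
  obtain ⟨y, rfl⟩ := g7aa_lift hy1
  obtain ⟨z, rfl⟩ := g7aa_lift hz1
  have hp3 : p ^ 3 = -2 := Subtype.ext (by
    change (p : ℂ) ^ 3 = -2
    rw [hp]; exact ph_cube)
  have hpu : ¬ IsUnit p := fun hu => h2u (by
    have := (hu.pow 3)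
    rw [hp3] at this
    exact (IsUnit.neg_iff _).1 this)
  have hp0 : p ≠ 0 := by
    rintro rfl
    apply ph_ne
    rw [← hp]
    rfl
  rw [← hp] at h1
  obtain ⟨r, hr⟩ := (g7aa_dvd (x + y * p + z * p ^ 2) 2).1 h1
  obtain ⟨x', hx'⟩ := hlt x hx (fun hu => hpu (isUnit_of_dvd_unit ⟨-y - z * p - p ^ 2 * r, by linear_combination hr + r * hp3⟩ hu))
  have hr2 : y + z * p + p ^ 2 * (r - x') = 0 := by
    apply mul_left_cancel₀ hp0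
    linear_combination hr - hx' + (r - x') * hp3
  obtain ⟨y', hy'⟩ := hlt y hy (fun hu => hpu (isUnit_of_dvd_unit ⟨-z - p * (r - x'), by linear_combination hr2⟩ hu))
  have hr3 : z + p * (r - x') - p ^ 2 * y' = 0 := by
    apply mul_left_cancel₀ hp0
    linear_combination hr2 - hy' - y' * hp3
  obtain ⟨z', hz'⟩ := hlt z hz (fun hu => hpu (isUnit_of_dvd_unit ⟨-(r - x') + p * y', by linear_combination hr3⟩ hu))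
  exact ⟨(g7aa_dvd x 2).2 ⟨x', hx'⟩, (g7aa_dvd y 2).2 ⟨y', hy'⟩, (g7aa_dvd z 2).2 ⟨z', hz'⟩⟩

include hA in
/-- from `indep2`: `x ≡ x^q + 2 x'`, `x^q ≡ 0 mod 4`, so `x ≡ 2 x'`, and `indep2` for `x', y', z'`. -/
theorem Unr.indep4 (h : Unr A q Ω) {x y z : ℂ} (hx : x ∈ Ω) (hy : y ∈ Ω) (hz : z ∈ Ω)
    (h1 : A.valuation (x + y * ph + z * ph ^ 2) ≤ A.valuation 4) :
    A.valuation x ≤ A.valuation 4 ∧ A.valuation y ≤ A.valuation 4 ∧ A.valuation z ≤ A.valuation 4 := by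
  have h42 : A.valuation 4 ≤ A.valuation 2 := (g7aa_dvd 4 2).2 ⟨2, by norm_num⟩
  obtain ⟨hx2, hy2, hz2⟩ := Unr.indep2 hA h hx hy hz (h1.trans h42)
  have key : ∀ t ∈ Ω, A.valuation t ≤ A.valuation 2 → ∃ t' ∈ Ω, A.valuation (t - 2 * t') ≤ A.valuation 4 := by
    intro t ht ht2
    obtain ⟨k, hk⟩ := h.q4
    obtain ⟨t', ht', h3⟩ := h.fr t ht
    refine ⟨t', ht', ?_⟩
    have h4 := h.le t ht
    have h5 := h.le t' ht'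
    obtain ⟨t, rfl⟩ := g7aa_lift h4
    obtain ⟨t', rfl⟩ := g7aa_lift h5
    obtain ⟨r, hr⟩ := (g7aa_dvd (t - t ^ q - 2 * t') 4).1 h3
    obtain ⟨s, hs⟩ := (g7aa_dvd t 2).1 ht2
    obtain ⟨v, hv⟩ : (4 : A) ∣ t ^ q := by
      have e : q = 2 * (2 * 4 ^ k) := by rw [hk]; ring
      have h6 : (4 : A) ∣ t ^ 2 := ⟨s ^ 2, by rw [hs]; ring⟩
      rw [e, pow_mul]
      exact h6.trans (dvd_pow_self _ (by positivity))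
    exact (g7aa_dvd (t - 2 * t') 4).2 ⟨r + v, by linear_combination hr + hv⟩
  obtain ⟨x', hx', kx⟩ := key x hx hx2
  obtain ⟨y', hy', ky⟩ := key y hy hy2
  obtain ⟨z', hz', kz⟩ := key z hz hz2
  have ex := h.le x hx
  have ey := h.le y hy
  have ez := h.le z hz
  have ex' := h.le x' hx'
  have ey' := h.le y' hy'
  have ez' := h.le z' hz'
  have hph := g7aa_ph (A := A)
  have h20 : (2 : A) ≠ 0 := by
    intro h0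
    have h7 := congrArg (fun t : A => (t : ℂ)) h0
    exact two_ne_zero h7
  have h9 : A.valuation (x' + y' * ph + z' * ph ^ 2) ≤ A.valuation 2 := by
    obtain ⟨p, hp⟩ := g7aa_lift hph
    rw [← hp] at h1 ⊢
    obtain ⟨x, rfl⟩ := g7aa_lift ex
    obtain ⟨y, rfl⟩ := g7aa_lift ey
    obtain ⟨z, rfl⟩ := g7aa_lift ez
    obtain ⟨x', rfl⟩ := g7aa_lift ex'
    obtain ⟨y', rfl⟩ := g7aa_lift ey'
    obtain ⟨z', rfl⟩ := g7aa_lift ez'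
    obtain ⟨r, hr⟩ := (g7aa_dvd (x + y * p + z * p ^ 2) 4).1 h1
    obtain ⟨rx, hrx⟩ := (g7aa_dvd (x - 2 * x') 4).1 kx
    obtain ⟨ry, hry⟩ := (g7aa_dvd (y - 2 * y') 4).1 ky
    obtain ⟨rz, hrz⟩ := (g7aa_dvd (z - 2 * z') 4).1 kz
    refine (g7aa_dvd (x' + y' * p + z' * p ^ 2) 2).2 ⟨r - rx - ry * p - rz * p ^ 2, ?_⟩
    apply mul_left_cancel₀ h20
    linear_combination hr - hrx - p * hry - p ^ 2 * hrz
  obtain ⟨fx, fy, fz⟩ := Unr.indep2 hA h hx' hy' hz' h9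
  have fin : ∀ t t' : ℂ, A.valuation t ≤ 1 → A.valuation t' ≤ 1 → A.valuation (t - 2 * t') ≤ A.valuation 4 →
      A.valuation t' ≤ A.valuation 2 → A.valuation t ≤ A.valuation 4 := by
    intro t t' h1 h2 h3 h4
    obtain ⟨t, rfl⟩ := g7aa_lift h1
    obtain ⟨t', rfl⟩ := g7aa_lift h2
    obtain ⟨r, hr⟩ := (g7aa_dvd (t - 2 * t') 4).1 h3
    obtain ⟨s, hs⟩ := (g7aa_dvd t' 2).1 h4
    exact (g7aa_dvd t 4).2 ⟨r + s, by linear_combination hr + 2 * hs⟩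
  exact ⟨fin x x' ex ex' kx fx, fin y y' ey ey' ky fy, fin z z' ez ez' kz fz⟩

/-- `Λ = Ω + Ω ϕ + Ω ϕ²` -/
def InL (Ω : Subring ℂ) (x : ℂ) : Prop := ∃ c₀ ∈ Ω, ∃ c₁ ∈ Ω, ∃ c₂ ∈ Ω, x = c₀ + c₁ * ph + c₂ * ph ^ 2

theorem InL.mul {x y : ℂ} (hx : InL Ω x) (hy : InL Ω y) : InL Ω (x * y) := by
  obtain ⟨c₀, h₀, c₁, h₁, c₂, h₂, rfl⟩ := hx
  obtain ⟨d₀, k₀, d₁, k₁, d₂, k₂, rfl⟩ := hy
  have h2 : (2 : ℂ) ∈ Ω := ofNat_mem Ω 2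
  refine ⟨c₀ * d₀ - 2 * (c₁ * d₂ + c₂ * d₁), Ω.sub_mem (Ω.mul_mem h₀ k₀) (Ω.mul_mem h2 (Ω.add_mem (Ω.mul_mem h₁ k₂) (Ω.mul_mem h₂ k₁))),
    c₀ * d₁ + c₁ * d₀ - 2 * (c₂ * d₂), Ω.sub_mem (Ω.add_mem (Ω.mul_mem h₀ k₁) (Ω.mul_mem h₁ k₀)) (Ω.mul_mem h2 (Ω.mul_mem h₂ k₂)),
    c₀ * d₂ + c₁ * d₁ + c₂ * d₀, Ω.add_mem (Ω.add_mem (Ω.mul_mem h₀ k₂) (Ω.mul_mem h₁ k₁)) (Ω.mul_mem h₂ k₀), ?_⟩
  linear_combination (c₁ * d₂ + c₂ * d₁ + c₂ * d₂ * ph) * ph_cube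

theorem InL.add {x y : ℂ} (hx : InL Ω x) (hy : InL Ω y) : InL Ω (x + y) := by
  obtain ⟨c₀, h₀, c₁, h₁, c₂, h₂, rfl⟩ := hx
  obtain ⟨d₀, k₀, d₁, k₁, d₂, k₂, rfl⟩ := hy
  exact ⟨c₀ + d₀, Ω.add_mem h₀ k₀, c₁ + d₁, Ω.add_mem h₁ k₁, c₂ + d₂, Ω.add_mem h₂ k₂, by ring⟩

theorem InL.of {x : ℂ} (hx : x ∈ Ω) : InL Ω x := by
  exact ⟨x, hx, 0, Ω.zero_mem, 0, Ω.zero_mem, by ring⟩

/-- `u ≡ (1 + [a] ϕ + 2 B ϕ²) mod 4` up to squares of units of `Λ` and units of `Ω` -/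
def NF (A : ValuationSubring ℂ) (q : ℕ) (Ω : Subring ℂ) (u a B : ℂ) : Prop :=
  a ∈ Ω ∧ B ∈ Ω ∧ ∃ T T' C C' : ℂ, T ∈ Ω ∧ T' ∈ Ω ∧ InL Ω C ∧ InL Ω C' ∧ A.valuation T = 1 ∧ A.valuation T' = 1 ∧
    A.valuation C = 1 ∧ A.valuation C' = 1 ∧
    A.valuation (u * T * C ^ 2 - (1 + a ^ q * ph + 2 * B * ph ^ 2) * T' * C' ^ 2) ≤ A.valuation 4

/-- [G7a.4] -/
theorem NF.congr (h : Unr A q Ω) {u a B a' B' : ℂ} (hn : NF A q Ω u a B) (ha' : a' ∈ Ω) (hB' : B' ∈ Ω)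
    (h1 : A.valuation (a - a') ≤ A.valuation 2) (h2 : A.valuation (B - B') ≤ A.valuation 2) : NF A q Ω u a' B' := by
  obtain ⟨k, hk⟩ := h.q4
  obtain ⟨ha, hB, T, T', C, C', hT, hT', hC, hC', vT, vT', vC, vC', hc⟩ := hn
  refine ⟨ha', hB', T, T', C, C', hT, hT', hC, hC', vT, vT', vC, vC', ?_⟩
  have h3 : A.valuation (a ^ q - a' ^ q) ≤ A.valuation 4 := by
    rw [hk]
    exact teich_congr (h.le a ha) (h.le a' ha') h1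
  have e : u * T * C ^ 2 - (1 + a' ^ q * ph + 2 * B' * ph ^ 2) * T' * C' ^ 2 =
      (u * T * C ^ 2 - (1 + a ^ q * ph + 2 * B * ph ^ 2) * T' * C' ^ 2) +
        ((a ^ q - a' ^ q) * (ph * T' * C' ^ 2) + 2 * (B - B') * (ph ^ 2 * T' * C' ^ 2)) := by ring
  rw [e]
  have v4 : A.valuation (2 * (B - B')) ≤ A.valuation 4 := by
    rw [show (4 : ℂ) = 2 * 2 by norm_num, map_mul, map_mul]
    exact mul_le_mul_right h2 _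
  have hph := g7aa_ph (A := A)
  refine A.valuation.map_add_le hc (A.valuation.map_add_le ?_ ?_)
  · rw [map_mul]
    refine (mul_le_of_le_one_right' ?_).trans h3
    rw [map_mul, map_mul, map_pow, vT', vC', one_pow, mul_one, mul_one]
    exact hph
  · rw [map_mul]
    refine (mul_le_of_le_one_right' ?_).trans v4
    rw [map_mul, map_mul, map_pow, map_pow, vT', vC', one_pow, mul_one, mul_one]
    exact pow_le_one' hph 2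

theorem NF.congr_u (h : Unr A q Ω) {u u' a B : ℂ} (hn : NF A q Ω u a B) (h1 : A.valuation (u - u') ≤ A.valuation 4) : NF A q Ω u' a B := by
  obtain ⟨ha, hB, T, T', C, C', hT, hT', hC, hC', vT, vT', vC, vC', hc⟩ := hn
  refine ⟨ha, hB, T, T', C, C', hT, hT', hC, hC', vT, vT', vC, vC', ?_⟩
  have e : u' * T * C ^ 2 - (1 + a ^ q * ph + 2 * B * ph ^ 2) * T' * C' ^ 2 =
      (u * T * C ^ 2 - (1 + a ^ q * ph + 2 * B * ph ^ 2) * T' * C' ^ 2) - (u - u') * (T * C ^ 2) := by ring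
  rw [e]
  refine A.valuation.map_sub_le hc ?_
  rw [map_mul, map_mul, map_pow, vT, vC, one_pow, mul_one, mul_one]
  exact h1

theorem NF.const (h : Unr A q Ω) {u : ℂ} (hu : u ∈ Ω) (h1 : A.valuation u = 1) : NF A q Ω u 0 0 := by
  obtain ⟨k, hk⟩ := h.q4
  have hq : q ≠ 0 := by
    rw [hk]
    positivity
  refine ⟨Ω.zero_mem, Ω.zero_mem, 1, u, 1, 1, Ω.one_mem, hu, InL.of Ω.one_mem, InL.of Ω.one_mem, map_one _, h1, map_one _, map_one _, ?_⟩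
  rw [zero_pow hq, show u * 1 * (1 : ℂ) ^ 2 - (1 + 0 * ph + 2 * 0 * ph ^ 2) * u * 1 ^ 2 = 0 by ring, map_zero]
  exact zero_le

/-- multiply by a unit of `Ω` and by the square of a unit of `Λ`, in both directions -/
theorem NF.mul_sq (h : Unr A q Ω) {u t c a B : ℂ} (hn : NF A q Ω u a B) (ht : t ∈ Ω) (ht1 : A.valuation t = 1) (hc : InL Ω c)
    (hc1 : A.valuation c = 1) : NF A q Ω (u * t * c ^ 2) a B := by
  obtain ⟨ha, hB, T, T', C, C', hT, hT', hC, hC', vT, vT', vC, vC', hh⟩ := hn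
  refine ⟨ha, hB, T, T' * t, C, C' * c, hT, Ω.mul_mem hT' ht, hC, InL.mul hC' hc, vT, by rw [map_mul, vT', ht1, one_mul], vC,
    by rw [map_mul, vC', hc1, one_mul], ?_⟩
  have e : u * t * c ^ 2 * T * C ^ 2 - (1 + a ^ q * ph + 2 * B * ph ^ 2) * (T' * t) * (C' * c) ^ 2 =
      (u * T * C ^ 2 - (1 + a ^ q * ph + 2 * B * ph ^ 2) * T' * C' ^ 2) * (t * c ^ 2) := by ring
  rw [e, map_mul, map_mul, map_pow, ht1, hc1, one_pow, mul_one, mul_one]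
  exact hh

theorem NF.of_mul_sq (h : Unr A q Ω) {u t c a B : ℂ} (hn : NF A q Ω (u * t * c ^ 2) a B) (ht : t ∈ Ω) (ht1 : A.valuation t = 1) (hc : InL Ω c)
    (hc1 : A.valuation c = 1) : NF A q Ω u a B := by
  obtain ⟨ha, hB, T, T', C, C', hT, hT', hC, hC', vT, vT', vC, vC', hh⟩ := hn
  refine ⟨ha, hB, t * T, T', c * C, C', Ω.mul_mem ht hT, hT', InL.mul hc hC, hC', by rw [map_mul, vT, ht1, one_mul], vT',
    by rw [map_mul, vC, hc1, one_mul], vC', ?_⟩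
  have e : u * (t * T) * (c * C) ^ 2 - (1 + a ^ q * ph + 2 * B * ph ^ 2) * T' * C' ^ 2 =
      u * t * c ^ 2 * T * C ^ 2 - (1 + a ^ q * ph + 2 * B * ph ^ 2) * T' * C' ^ 2 := by ring
  rw [e]
  exact hh

theorem g7ab_ph : (hA : A.valuation 2 < 1) → A.valuation ph < 1 := by
  intro hA
  have h1 : A.valuation ph ^ 3 = A.valuation 2 := by
    rw [← map_pow, ph_cube, Valuation.map_neg]
  by_contra hcon
  rw [not_lt] at hcon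
  have h2 := one_le_pow₀ hcon (n := 3)
  rw [h1] at h2
  exact absurd hA (not_lt.2 h2)

theorem g7ab_id {R : Type} [CommRing R] {p : R} (hp : p ^ 3 = -2) (S s g E : R) :
    ∃ Z : R, (1 + (S + 2 * s - 2 * g) * p + (g ^ 2 + 2 * E) * p ^ 2) * (1 + 2 * S * g ^ 2) *
      (1 + g * p + (g ^ 2 + S * g) * p ^ 2) ^ 2 -
      (1 + (S + 2 * s) * p + 2 * (E + S * (g ^ 4 + S ^ 2 * g ^ 2)) * p ^ 2) = 4 * Z := by
  refine ⟨-p ^ 2 * S ^ 4 * g ^ 4 - 2 * p ^ 2 * S ^ 3 * s * g ^ 4 - p ^ 2 * S ^ 3 * g ^ 2 - 4 * p ^ 2 * S ^ 2 * s * g ^ 5 - p ^ 2 * S ^ 2 * s * g ^ 2 + p ^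
    2 * S ^ 2 * g ^ 6 - 4 * p ^ 2 * S ^ 2 * g ^ 4 * E + 2 * p ^ 2 * S ^ 2 * g ^ 3 - 2 * p ^ 2 * S * s * g ^ 6 - 4 * p ^ 2 * S * g ^ 5 * E - p ^ 2 * S
    * g ^ 2 * E + p ^ 2 * S * g - p ^ 2 * s * g ^ 4 + p ^ 2 * s * g - 2 * p ^ 2 * g ^ 3 * E - 3 * p * S ^ 3 * g ^ 4 - 4 * p * S ^ 2 * s * g ^ 4 - 2 *
    p * S ^ 2 * g ^ 5 - 4 * p * S ^ 2 * g ^ 3 * E - p * S ^ 2 * g ^ 2 - 4 * p * S * s * g ^ 5 - p * S * s * g ^ 2 - 6 * p * S * g ^ 4 * E - p * S * g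
    ^ 3 - 2 * p * S * g * E - 2 * p * s * g ^ 3 - 3 * p * g ^ 2 * E + 2 * S ^ 3 * g ^ 6 + 4 * S ^ 3 * g ^ 4 * E - 2 * S ^ 3 * g ^ 3 - 4 * S ^ 2 * s *
    g ^ 3 + 4 * S ^ 2 * g ^ 7 + 8 * S ^ 2 * g ^ 5 * E + 2 * S ^ 2 * g ^ 2 * E - S ^ 2 * g - 6 * S * s * g ^ 4 - 2 * S * s * g + 2 * S * g ^ 8 + 4 * S
    * g ^ 6 * E + 4 * S * g ^ 5 - 3 * s * g ^ 2 + g ^ 6 + 2 * g ^ 4 * E + g ^ 3 - 2 * g * E, ?_⟩
  linear_combination (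
    2 * p ^ 3 * S ^ 3 * g ^ 6 + 4 * p ^ 3 * S ^ 3 * g ^ 4 * E + 4 * p ^ 3 * S ^ 2 * g ^ 7 + 8 * p ^ 3 * S ^ 2 * g ^ 5 * E + p ^ 3 * S ^ 2 * g ^ 4 + 2
    * p ^ 3 * S ^ 2 * g ^ 2 * E + 2 * p ^ 3 * S * g ^ 8 + 4 * p ^ 3 * S * g ^ 6 * E + 2 * p ^ 3 * S * g ^ 5 + 4 * p ^ 3 * S * g ^ 3 * E + p ^ 3 * g ^
    6 + 2 * p ^ 3 * g ^ 4 * E + 2 * p ^ 2 * S ^ 4 * g ^ 4 + 4 * p ^ 2 * S ^ 3 * s * g ^ 4 + p ^ 2 * S ^ 3 * g ^ 2 + 8 * p ^ 2 * S ^ 2 * s * g ^ 5 + 2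
    * p ^ 2 * S ^ 2 * s * g ^ 2 - 2 * p ^ 2 * S ^ 2 * g ^ 6 + 8 * p ^ 2 * S ^ 2 * g ^ 4 * E + 4 * p ^ 2 * S * s * g ^ 6 + 4 * p ^ 2 * S * s * g ^ 3 +
    8 * p ^ 2 * S * g ^ 5 * E - p ^ 2 * S * g ^ 4 + 4 * p ^ 2 * S * g ^ 2 * E + 2 * p ^ 2 * s * g ^ 4 + 4 * p ^ 2 * g ^ 3 * E + 6 * p * S ^ 3 * g ^ 4
    + 8 * p * S ^ 2 * s * g ^ 4 + 4 * p * S ^ 2 * g ^ 5 + 8 * p * S ^ 2 * g ^ 3 * E + 3 * p * S ^ 2 * g ^ 2 + 8 * p * S * s * g ^ 5 + 4 * p * S * s *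
    g ^ 2 + 12 * p * S * g ^ 4 * E + 2 * p * S * g ^ 3 + 4 * p * S * g * E + 4 * p * s * g ^ 3 + 6 * p * g ^ 2 * E - 4 * S ^ 3 * g ^ 6 - 8 * S ^ 3 *
    g ^ 4 * E + 4 * S ^ 3 * g ^ 3 + 8 * S ^ 2 * s * g ^ 3 - 8 * S ^ 2 * g ^ 7 - 16 * S ^ 2 * g ^ 5 * E - 4 * S ^ 2 * g ^ 2 * E + 2 * S ^ 2 * g + 12 *
    S * s * g ^ 4 + 4 * S * s * g - 4 * S * g ^ 8 - 8 * S * g ^ 6 * E - 8 * S * g ^ 5 + S * g ^ 2 + 6 * s * g ^ 2 - 2 * g ^ 6 - 4 * g ^ 4 * E - 2 * g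
    ^ 3 + 4 * g * E) * hp

theorem g7ab_law {R : Type} [CommRing R] {p : R} (hp : p ^ 3 = -2) {a a' B B' X Y x₁ y₁ g r σ : R} (hX : X - a = 2 * x₁)
    (hY : Y - a' = 2 * y₁) (hg : g ^ 2 = X * Y) (hσ : σ - (X + Y + 2 * g) = 4 * r) :
    ∃ Z : R, (1 + X * p + 2 * B * p ^ 2) * (1 + Y * p + 2 * B' * p ^ 2) * (1 + 2 * (a + a') * g ^ 2) *
      (1 + g * p + (g ^ 2 + (a + a') * g) * p ^ 2) ^ 2 -
      (1 + σ * p + 2 * (B + B' + a * a' * (a ^ 3 + a' ^ 3)) * p ^ 2) = 4 * Z := by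
  obtain ⟨Z, hZ⟩ := g7ab_id hp (a + a') (x₁ + y₁ + g) g (B + B')
  obtain ⟨K, hK⟩ : ∃ K, K = (1 + 2 * (a + a') * g ^ 2) * (1 + g * p + (g ^ 2 + (a + a') * g) * p ^ 2) ^ 2 := ⟨_, rfl⟩
  obtain rfl : X = a + 2 * x₁ := by linear_combination hX
  obtain rfl : Y = a' + 2 * y₁ := by linear_combination hY
  obtain rfl : σ = a + 2 * x₁ + (a' + 2 * y₁) + 2 * g + 4 * r := by linear_combination hσ
  rw [mul_assoc, ← hK] at hZ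
  rw [mul_assoc ((1 + (a + 2 * x₁) * p + 2 * B * p ^ 2) * (1 + (a' + 2 * y₁) * p + 2 * B' * p ^ 2)), ← hK]
  clear hK hX hY hσ
  refine ⟨Z + (B * B' * p ^ 4 - ((a + 2 * x₁) * B' + (a' + 2 * y₁) * B)) * K - r * p + (2 * (a * a') ^ 2 * (a + a') +
    2 * (a + a') * (a * y₁ + a' * x₁ + 2 * x₁ * y₁) * (a * a') + 2 * (a + a') * (a * y₁ + a' * x₁ + 2 * x₁ * y₁) ^ 2 +
    (a + a') ^ 3 * (a * y₁ + a' * x₁ + 2 * x₁ * y₁)) * p ^ 2, ?_⟩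
  linear_combination hZ + 2 * ((a + 2 * x₁) * B' + (a' + 2 * y₁) * B) * K * hp +
    (-p ^ 2 * K + 2 * p ^ 2 * (a + a') * (g ^ 2 + (a + 2 * x₁) * (a' + 2 * y₁) + (a + a') ^ 2)) * hg

include hA in
/-- [G7a.5] THE GROUP LAW. With `g = (a a')^(q/2)`, `S = a + a'`, `c = 1 + g ϕ + (g² + S g) ϕ²`, `τ = 1 + 2 S g²`:
`(1 + [a] ϕ + 2 B ϕ²)(1 + [a'] ϕ + 2 B' ϕ²) τ c² ≡ 1 + [S] ϕ + 2 (B + B' + a a' (a³ + a'³)) ϕ² mod 4`: expand with `ϕ³ = -2`; `[a] + [a'] ≡ [S] - 2 g` (`teich_add`),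
`[a][a'] = g²`, modulo `2`: `[a] ≡ a`, `g² ≡ a a'`. -/
theorem NF.mul (h : Unr A q Ω) {u u' a a' B B' : ℂ} (hu : A.valuation u ≤ 1) (hu' : A.valuation u' ≤ 1) (hn : NF A q Ω u a B)
    (hn' : NF A q Ω u' a' B') : NF A q Ω (u * u') (a + a') (B + B' + a * a' * (a ^ 3 + a' ^ 3)) := by
  obtain ⟨k, hk⟩ := h.q4
  obtain ⟨ha, hB, T, T', C, C', hT, hT', hC, hC', vT, vT', vC, vC', hc⟩ := hn
  obtain ⟨ha', hB', T₁, T₁', C₁, C₁', hT₁, hT₁', hC₁, hC₁', vT₁, vT₁', vC₁, vC₁', hc'⟩ := hn'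
  have h2Ω : (2 : ℂ) ∈ Ω := ofNat_mem Ω 2
  have hSΩ : a + a' ∈ Ω := Ω.add_mem ha ha'
  have hgΩ : (a * a') ^ (q / 2) ∈ Ω := Ω.pow_mem (Ω.mul_mem ha ha') _
  have vph : A.valuation ph < 1 := g7ab_ph hA
  have vS : A.valuation (a + a') ≤ 1 := h.le _ hSΩ
  have vg : A.valuation ((a * a') ^ (q / 2)) ≤ 1 := h.le _ hgΩ
  have vτ : A.valuation (1 + 2 * (a + a') * ((a * a') ^ (q / 2)) ^ 2) = 1 := by
    refine Valuation.map_one_add_of_lt _ ?_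
    rw [map_mul, map_mul, map_pow]
    exact lt_of_le_of_lt ((mul_le_of_le_one_right' (pow_le_one' vg 2)).trans (mul_le_of_le_one_right' vS)) hA
  have vc : A.valuation (1 + (a * a') ^ (q / 2) * ph + (((a * a') ^ (q / 2)) ^ 2 + (a + a') * (a * a') ^ (q / 2)) * ph ^ 2) = 1 := by
    rw [add_assoc]
    refine Valuation.map_one_add_of_lt _ (Valuation.map_add_lt _ ?_ ?_)
    · rw [map_mul]
      exact lt_of_le_of_lt (mul_le_of_le_one_left' vg) vph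
    · rw [map_mul, map_pow]
      refine lt_of_le_of_lt (mul_le_of_le_one_left' (A.valuation.map_add_le ?_ ?_)) (pow_lt_one₀ zero_le vph two_ne_zero)
      · rw [map_pow]
        exact pow_le_one' vg 2
      · rw [map_mul]
        exact mul_le_one' vS vg
  refine ⟨hSΩ, Ω.add_mem (Ω.add_mem hB hB') (Ω.mul_mem (Ω.mul_mem ha ha') (Ω.add_mem (Ω.pow_mem ha 3) (Ω.pow_mem ha' 3))),
    T * T₁ * (1 + 2 * (a + a') * ((a * a') ^ (q / 2)) ^ 2), T' * T₁',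
    C * C₁ * (1 + (a * a') ^ (q / 2) * ph + (((a * a') ^ (q / 2)) ^ 2 + (a + a') * (a * a') ^ (q / 2)) * ph ^ 2), C' * C₁',
    Ω.mul_mem (Ω.mul_mem hT hT₁) (Ω.add_mem Ω.one_mem (Ω.mul_mem (Ω.mul_mem h2Ω hSΩ) (Ω.pow_mem hgΩ 2))), Ω.mul_mem hT' hT₁',
    InL.mul (InL.mul hC hC₁) ⟨1, Ω.one_mem, _, hgΩ, _, Ω.add_mem (Ω.pow_mem hgΩ 2) (Ω.mul_mem hSΩ hgΩ), rfl⟩, InL.mul hC' hC₁',
    by rw [map_mul, map_mul, vT, vT₁, vτ, one_mul, one_mul], by rw [map_mul, vT', vT₁', one_mul],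
    by rw [map_mul, map_mul, vC, vC₁, vc, one_mul, one_mul], by rw [map_mul, vC', vC₁', one_mul], ?_⟩
  have hadd := teich_add (n := 2 * k + 1) (h.le a ha) (h.le a' ha')
  have e1 : 2 ^ (2 * k + 1 + 1) = q := by
    rw [hk, show 4 = 2 ^ 2 by norm_num, ← pow_mul]
    congr 1
  have e2 : 2 ^ (2 * k + 1) = q / 2 := by
    rw [← e1, pow_succ 2 (2 * k + 1)]
    omega
  rw [e1, e2] at hadd
  have fa := h.fr2 ha
  have fa' := h.fr2 ha'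
  have hqq : q / 2 * 2 = q := by
    rw [← e2, ← pow_succ, e1]
  have la := h.le a ha
  have la' := h.le a' ha'
  have lB := h.le B hB
  have lB' := h.le B' hB'
  obtain ⟨p, hp⟩ := g7aa_lift (g7aa_ph (A := A))
  have hp3 : p ^ 3 = -2 := Subtype.ext (by
    change (p : ℂ) ^ 3 = -2
    rw [hp]; exact ph_cube)
  rw [← hp] at hc hc' ⊢
  obtain ⟨a, rfl⟩ := g7aa_lift la
  obtain ⟨a', rfl⟩ := g7aa_lift la'
  obtain ⟨B, rfl⟩ := g7aa_lift lB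
  obtain ⟨B', rfl⟩ := g7aa_lift lB'
  obtain ⟨u, rfl⟩ := g7aa_lift hu
  obtain ⟨u', rfl⟩ := g7aa_lift hu'
  obtain ⟨T, rfl⟩ := g7aa_lift vT.le
  obtain ⟨T', rfl⟩ := g7aa_lift vT'.le
  obtain ⟨C, rfl⟩ := g7aa_lift vC.le
  obtain ⟨C', rfl⟩ := g7aa_lift vC'.le
  obtain ⟨T₁, rfl⟩ := g7aa_lift vT₁.le
  obtain ⟨T₁', rfl⟩ := g7aa_lift vT₁'.le
  obtain ⟨C₁, rfl⟩ := g7aa_lift vC₁.le
  obtain ⟨C₁', rfl⟩ := g7aa_lift vC₁'.le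
  obtain ⟨x₁, hx₁⟩ := (g7aa_dvd (a ^ q - a) 2).1 fa
  obtain ⟨y₁, hy₁⟩ := (g7aa_dvd (a' ^ q - a') 2).1 fa'
  obtain ⟨r, hr⟩ := (g7aa_dvd ((a + a') ^ q - (a ^ q + a' ^ q + 2 * (a * a') ^ (q / 2))) 4).1 hadd
  have hg : ((a * a') ^ (q / 2)) ^ 2 = a ^ q * a' ^ q := by
    rw [← pow_mul, hqq, mul_pow]
  obtain ⟨Z, hZ⟩ := g7ab_law hp3 (B := B) (B' := B') hx₁ hy₁ hg hr
  obtain ⟨r₁, hr₁⟩ := (g7aa_dvd (u * T * C ^ 2 - (1 + a ^ q * p + 2 * B * p ^ 2) * T' * C' ^ 2) 4).1 hc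
  obtain ⟨r₂, hr₂⟩ := (g7aa_dvd (u' * T₁ * C₁ ^ 2 - (1 + a' ^ q * p + 2 * B' * p ^ 2) * T₁' * C₁' ^ 2) 4).1 hc'
  refine (g7aa_dvd (u * u' * (T * T₁ * (1 + 2 * (a + a') * ((a * a') ^ (q / 2)) ^ 2)) *
    (C * C₁ * (1 + (a * a') ^ (q / 2) * p + (((a * a') ^ (q / 2)) ^ 2 + (a + a') * (a * a') ^ (q / 2)) * p ^ 2)) ^ 2 -
    (1 + (a + a') ^ q * p + 2 * (B + B' + a * a' * (a ^ 3 + a' ^ 3)) * p ^ 2) * (T' * T₁') * (C' * C₁') ^ 2) 4).2 ?_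
  generalize (a * a') ^ (q / 2) = g at *
  generalize (a + a') ^ q = σ at *
  generalize a ^ q = X at *
  generalize a' ^ q = Y at *
  refine ⟨Z * (T' * T₁' * (C' * C₁') ^ 2) + (r₁ * (u' * T₁ * C₁ ^ 2) + r₂ * ((1 + X * p + 2 * B * p ^ 2) * T' * C' ^ 2)) *
    ((1 + 2 * (a + a') * g ^ 2) * (1 + g * p + (g ^ 2 + (a + a') * g) * p ^ 2) ^ 2), ?_⟩
  generalize 1 + g * p + (g ^ 2 + (a + a') * g) * p ^ 2 = c at *
  generalize 1 + 2 * (a + a') * g ^ 2 = τ at *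
  generalize 1 + X * p + 2 * B * p ^ 2 = P at *
  generalize 1 + Y * p + 2 * B' * p ^ 2 = P' at *
  generalize 1 + σ * p + 2 * (B + B' + a * a' * (a ^ 3 + a' ^ 3)) * p ^ 2 = Q at *
  linear_combination (u' * T₁ * C₁ ^ 2 * (τ * c ^ 2)) * hr₁ + (P * T' * C' ^ 2 * (τ * c ^ 2)) * hr₂ + (T' * T₁' * (C' * C₁') ^ 2) * hZ

include hA in
/-- [G7a.6] THE CORE: `(1 + [a] ϕ + 2 B ϕ²) T C² ≡ T' C'² mod 4` implies `a ≡ B ≡ 0 mod 2`.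
First make `C` a constant: write `C = c₀ + c₁ ϕ + c₂ ϕ²`, `c₀` a unit; `C^8 ≡ c₀^8 mod 4` (`C = c₀ (1 + ϕ X)`, `X ∈ A`; `(1 + ϕ X)^8 ≡ 1 mod ϕ^6`), multiply the congruence by `C^6`:
`(1 + ..) T c₀^8 ≡ T' (C' C³)²`. So `(1 + [a] ϕ + 2 B ϕ²) T ≡ T' (d₀ + d₁ ϕ + d₂ ϕ²)²`, and
`(d₀ + d₁ ϕ + d₂ ϕ²)² = d₀² - 4 d₁ d₂ + (2 d₀ d₁ - 2 d₂²) ϕ + (d₁² + 2 d₀ d₂) ϕ²`. Compare coefficients (`indep4`): `T [a] ≡ 2 T' (d₀ d₁ - d₂²)`, so `[a] ≡ a ≡ 0 mod 2`, `[a] ≡ 0 mod 4`,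
`d₀ d₁ ≡ d₂² mod 2`; `2 T B ≡ T' (d₁² + 2 d₀ d₂)`, so `d₁² ≡ 0 mod 2`, `d₁ ≡ 0 mod 2` (`Unr.lt`), `d₁² ≡ 0 mod 4`, `d₂ ≡ 0 mod 2`, `T B ≡ T' d₀ d₂ ≡ 0 mod 2`. -/
theorem nf_core (h : Unr A q Ω) {a B T T' C C' : ℂ} (ha : a ∈ Ω) (hB : B ∈ Ω) (hT : T ∈ Ω) (hT' : T' ∈ Ω) (hC : InL Ω C) (hC' : InL Ω C')
    (vT : A.valuation T = 1) (vT' : A.valuation T' = 1) (vC : A.valuation C = 1) (vC' : A.valuation C' = 1)
    (hc : A.valuation ((1 + a ^ q * ph + 2 * B * ph ^ 2) * T * C ^ 2 - T' * C' ^ 2) ≤ A.valuation 4) :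
    A.valuation a ≤ A.valuation 2 ∧ A.valuation B ≤ A.valuation 2 := by
  obtain ⟨k, hk⟩ := h.q4
  obtain ⟨c₀, hc₀, c₁, hc₁, c₂, hc₂, hCe⟩ := hC
  obtain ⟨d₀, hd₀, d₁, hd₁, d₂, hd₂, hDe⟩ := InL.mul hC' (InL.mul (InL.mul ⟨c₀, hc₀, c₁, hc₁, c₂, hc₂, hCe⟩ ⟨c₀, hc₀, c₁, hc₁, c₂, hc₂, hCe⟩)
    ⟨c₀, hc₀, c₁, hc₁, c₂, hc₂, hCe⟩)
  have h2Ω : (2 : ℂ) ∈ Ω := ofNat_mem Ω 2
  have h4Ω : (4 : ℂ) ∈ Ω := ofNat_mem Ω 4
  have haq : a ^ q ∈ Ω := Ω.pow_mem ha q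
  have fa := h.fr2 ha
  have la := h.le a ha
  have lB := h.le B hB
  have lc₀ := h.le c₀ hc₀
  have lc₁ := h.le c₁ hc₁
  have lc₂ := h.le c₂ hc₂
  have ld₀ := h.le d₀ hd₀
  have ld₁ := h.le d₁ hd₁
  have ld₂ := h.le d₂ hd₂
  have hlt : ∀ t : A, (t : ℂ) ∈ Ω → ∀ m : A, t ^ 2 = 2 * m → ∃ t' : A, t = 2 * t' := by
    intro t ht m hm
    have h1 : ¬ IsUnit t := by
      intro hu
      have h2 : IsUnit (2 : A) := isUnit_of_dvd_unit ⟨m, hm⟩ (hu.pow 2)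
      exact absurd ((g7aa_unit 2).2 h2) hA.ne
    exact (g7aa_dvd t 2).1 (Unr.lt hA h ht (lt_of_le_of_ne (A.valuation_le_one t) (fun h => h1 ((g7aa_unit t).1 h))))
  have h20 : (2 : A) ≠ 0 := by
    intro h0
    have h7 := congrArg (fun t : A => (t : ℂ)) h0
    exact two_ne_zero h7
  have hpp := g7aa_ph (A := A)
  have hpl := g7ab_ph hA
  -- the coefficients
  have key : A.valuation (a ^ q * (T * c₀ ^ 8) - T' * (2 * (d₀ * d₁) - 2 * d₂ ^ 2)) ≤ A.valuation 4 ∧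
      A.valuation (2 * B * (T * c₀ ^ 8) - T' * (d₁ ^ 2 + 2 * (d₀ * d₂))) ≤ A.valuation 4 := by
    have h8 : T * c₀ ^ 8 ∈ Ω := Ω.mul_mem hT (Ω.pow_mem hc₀ 8)
    refine (Unr.indep4 hA h (x := T * c₀ ^ 8 - T' * (d₀ ^ 2 - 4 * (d₁ * d₂))) (y := a ^ q * (T * c₀ ^ 8) - T' * (2 * (d₀ * d₁) - 2 * d₂ ^ 2))
      (z := 2 * B * (T * c₀ ^ 8) - T' * (d₁ ^ 2 + 2 * (d₀ * d₂)))
      (Ω.sub_mem h8 (Ω.mul_mem hT' (Ω.sub_mem (Ω.pow_mem hd₀ 2) (Ω.mul_mem h4Ω (Ω.mul_mem hd₁ hd₂)))))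
      (Ω.sub_mem (Ω.mul_mem haq h8) (Ω.mul_mem hT' (Ω.sub_mem (Ω.mul_mem h2Ω (Ω.mul_mem hd₀ hd₁)) (Ω.mul_mem h2Ω (Ω.pow_mem hd₂ 2)))))
      (Ω.sub_mem (Ω.mul_mem (Ω.mul_mem h2Ω hB) h8) (Ω.mul_mem hT' (Ω.add_mem (Ω.pow_mem hd₁ 2) (Ω.mul_mem h2Ω (Ω.mul_mem hd₀ hd₂)))))
      ?_).2
    obtain ⟨p, hp⟩ := g7aa_lift hpp
    have hp3 : p ^ 3 = -2 := Subtype.ext (by
      change (p : ℂ) ^ 3 = -2
      rw [hp]; exact ph_cube)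
    rw [← hp] at hc hCe hDe ⊢
    obtain ⟨a, rfl⟩ := g7aa_lift la
    obtain ⟨B, rfl⟩ := g7aa_lift lB
    obtain ⟨c₀, rfl⟩ := g7aa_lift lc₀
    obtain ⟨c₁, rfl⟩ := g7aa_lift lc₁
    obtain ⟨c₂, rfl⟩ := g7aa_lift lc₂
    obtain ⟨d₀, rfl⟩ := g7aa_lift ld₀
    obtain ⟨d₁, rfl⟩ := g7aa_lift ld₁
    obtain ⟨d₂, rfl⟩ := g7aa_lift ld₂
    obtain ⟨T, rfl⟩ := g7aa_lift vT.le
    obtain ⟨T', rfl⟩ := g7aa_lift vT'.le
    obtain ⟨C, rfl⟩ := g7aa_lift vC.le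
    obtain ⟨C', rfl⟩ := g7aa_lift vC'.le
    obtain ⟨r, hr⟩ := (g7aa_dvd ((1 + a ^ q * p + 2 * B * p ^ 2) * T * C ^ 2 - T' * C' ^ 2) 4).1 hc
    have hC : C = c₀ + c₁ * p + c₂ * p ^ 2 := Subtype.ext hCe
    have hD : C' * (C * C * C) = d₀ + d₁ * p + d₂ * p ^ 2 := Subtype.ext hDe
    obtain ⟨w, hw⟩ : ∃ w : A, C ^ 8 - c₀ ^ 8 = 4 * w := by
      obtain ⟨Y, hY⟩ : ∃ Y, Y = c₁ + c₂ * p := ⟨_, rfl⟩
      have hC2 : C = c₀ + p * Y := by rw [hC, hY]; ring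
      rw [hC2]
      exact ⟨2 * c₀ ^ 7 * p * Y + 7 * c₀ ^ 6 * p ^ 2 * Y ^ 2 + 14 * c₀ ^ 5 * p ^ 3 * Y ^ 3 - 35 * p * c₀ ^ 4 * Y ^ 4 +
        14 * c₀ ^ 3 * p ^ 5 * Y ^ 5 + 7 * c₀ ^ 2 * p ^ 6 * Y ^ 6 + 2 * c₀ * p ^ 7 * Y ^ 7 + p ^ 2 * Y ^ 8, by
          linear_combination (70 * c₀ ^ 4 * p * Y ^ 4 + p ^ 2 * Y ^ 8 * (p ^ 3 - 2)) * hp3⟩
    refine (g7aa_dvd (T * c₀ ^ 8 - T' * (d₀ ^ 2 - 4 * (d₁ * d₂)) + (a ^ q * (T * c₀ ^ 8) - T' * (2 * (d₀ * d₁) - 2 * d₂ ^ 2)) * p +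
      (2 * B * (T * c₀ ^ 8) - T' * (d₁ ^ 2 + 2 * (d₀ * d₂))) * p ^ 2) 4).2
      ⟨r * C ^ 6 - (1 + a ^ q * p + 2 * B * p ^ 2) * T * w, ?_⟩
    generalize a ^ q = X at *
    linear_combination C ^ 6 * hr - (1 + X * p + 2 * B * p ^ 2) * T * hw +
      T' * (C' * (C * C * C) + (d₀ + d₁ * p + d₂ * p ^ 2)) * hD + T' * (2 * d₁ * d₂ + d₂ ^ 2 * p) * hp3
  have uc₀ : A.valuation c₀ = 1 := by
    refine le_antisymm lc₀ (not_lt.1 fun hlt0 => ?_)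
    have h1 : A.valuation C < 1 := by
      rw [hCe]
      refine Valuation.map_add_lt _ (Valuation.map_add_lt _ hlt0 ?_) ?_
      · rw [map_mul]
        exact lt_of_le_of_lt (mul_le_of_le_one_left' lc₁) hpl
      · rw [map_mul, map_pow]
        exact lt_of_le_of_lt (mul_le_of_le_one_left' lc₂) (pow_lt_one₀ zero_le hpl two_ne_zero)
    rw [vC] at h1
    exact lt_irrefl _ h1
  obtain ⟨k1, k2⟩ := key
  clear hCe hDe hc hC' hc₁ hc₂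
  obtain ⟨a, rfl⟩ := g7aa_lift la
  obtain ⟨B, rfl⟩ := g7aa_lift lB
  obtain ⟨c₀, rfl⟩ := g7aa_lift lc₀
  obtain ⟨d₀, rfl⟩ := g7aa_lift ld₀
  obtain ⟨d₁, rfl⟩ := g7aa_lift ld₁
  obtain ⟨d₂, rfl⟩ := g7aa_lift ld₂
  obtain ⟨T, rfl⟩ := g7aa_lift vT.le
  obtain ⟨T', rfl⟩ := g7aa_lift vT'.le
  have hTu : IsUnit (T * c₀ ^ 8) := ((g7aa_unit T).1 vT).mul (((g7aa_unit c₀).1 uc₀).pow 8)
  obtain ⟨s, hs⟩ := hTu.exists_right_inv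
  obtain ⟨s', hs'⟩ := ((g7aa_unit T').1 vT').exists_right_inv
  obtain ⟨ry, hry⟩ := (g7aa_dvd (a ^ q * (T * c₀ ^ 8) - T' * (2 * (d₀ * d₁) - 2 * d₂ ^ 2)) 4).1 k1
  obtain ⟨rz, hrz⟩ := (g7aa_dvd (2 * B * (T * c₀ ^ 8) - T' * (d₁ ^ 2 + 2 * (d₀ * d₂))) 4).1 k2
  obtain ⟨x₁, hx₁⟩ := (g7aa_dvd (a ^ q - a) 2).1 fa
  generalize T * c₀ ^ 8 = U at *
  obtain ⟨X₁, hX₁⟩ : ∃ X₁ : A, a ^ q = 2 * X₁ :=
    ⟨s * (2 * ry + T' * (d₀ * d₁ - d₂ ^ 2)), by linear_combination -a ^ q * hs + s * hry⟩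
  have ha2 : a = 2 * (X₁ - x₁) := by linear_combination hX₁ - hx₁
  obtain ⟨X₂, hX₂⟩ : (4 : A) ∣ a ^ q := by
    have e : q = 2 * (2 * 4 ^ k) := by rw [hk]; ring
    have h6 : (4 : A) ∣ a ^ 2 := ⟨(X₁ - x₁) ^ 2, by rw [ha2]; ring⟩
    rw [e, pow_mul]
    exact h6.trans (dvd_pow_self _ (by positivity))
  have e1 : T' * (d₀ * d₁ - d₂ ^ 2) = 2 * (X₂ * U - ry) := by
    apply mul_left_cancel₀ h20
    linear_combination -hry + U * hX₂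
  have e2 : d₀ * d₁ - d₂ ^ 2 = 2 * (s' * (X₂ * U - ry)) := by linear_combination s' * e1 - (d₀ * d₁ - d₂ ^ 2) * hs'
  obtain ⟨d₁', hd₁'⟩ := hlt d₁ hd₁ (s' * (B * U - 2 * rz) - d₀ * d₂) (by
    linear_combination -s' * hrz - (d₁ ^ 2 + 2 * (d₀ * d₂)) * hs')
  obtain ⟨d₂', hd₂'⟩ := hlt d₂ hd₂ (d₀ * d₁' - s' * (X₂ * U - ry)) (by linear_combination -e2 + d₀ * hd₁')
  refine ⟨(g7aa_dvd a 2).2 ⟨_, ha2⟩, (g7aa_dvd B 2).2 ⟨s * (T' * (d₁' ^ 2 + d₀ * d₂') + rz), ?_⟩⟩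
  apply mul_left_cancel₀ h20
  linear_combination -2 * B * hs + s * hrz + s * T' * (d₁ + 2 * d₁') * hd₁' + 2 * s * T' * d₀ * hd₂'

theorem g7ad_P {a B : ℂ} (h : Unr A q Ω) (hA : A.valuation 2 < 1) (ha : a ∈ Ω) (hB : B ∈ Ω) :
    InL Ω (1 + a ^ q * ph + 2 * B * ph ^ 2) ∧ A.valuation (1 + a ^ q * ph + 2 * B * ph ^ 2) = 1 := by
  have h2Ω : (2 : ℂ) ∈ Ω := ofNat_mem Ω 2
  have hpl := g7ab_ph hA
  refine ⟨⟨1, Ω.one_mem, _, Ω.pow_mem ha q, _, Ω.mul_mem h2Ω hB, rfl⟩, ?_⟩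
  rw [add_assoc]
  refine Valuation.map_one_add_of_lt _ (Valuation.map_add_lt _ ?_ ?_)
  · rw [map_mul]
    exact lt_of_le_of_lt (mul_le_of_le_one_left' (h.le _ (Ω.pow_mem ha q))) hpl
  · rw [map_mul, map_pow]
    exact lt_of_le_of_lt (mul_le_of_le_one_left' (h.le _ (Ω.mul_mem h2Ω hB))) (pow_lt_one₀ zero_le hpl two_ne_zero)

theorem g7ad_self {a B : ℂ} (ha : a ∈ Ω) (hB : B ∈ Ω) : NF A q Ω (1 + a ^ q * ph + 2 * B * ph ^ 2) a B := by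
  refine ⟨ha, hB, 1, 1, 1, 1, Ω.one_mem, Ω.one_mem, InL.of Ω.one_mem, InL.of Ω.one_mem, map_one _, map_one _, map_one _, map_one _, ?_⟩
  rw [sub_self, map_zero]
  exact zero_le

include hA in
/-- [G7a.7] uniqueness: from `u T C² ≡ v T' C'²`, `u T₁ C₁² ≡ v' T₁' C₁'²`: `v T' T₁ (C' C₁)² ≡ v' T₁' T (C₁' C)²`, multiply by `v'`: `(v v') T' T₁ (C' C₁)² ≡ T₁' T (v' C₁' C)²`;
`NF.mul` for `v v'` (`NF A q Ω v a B` trivially), then `nf_core`: `a + a' ≡ 0`, `B + B' + a a' (a³ + a'³) ≡ 0`, and `a' ≡ a`, `2 a⁵ ≡ 0`. -/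
theorem NF.uniq (h : Unr A q Ω) {u a a' B B' : ℂ} (hu : A.valuation u = 1) (hn : NF A q Ω u a B) (hn' : NF A q Ω u a' B') :
    A.valuation (a - a') ≤ A.valuation 2 ∧ A.valuation (B - B') ≤ A.valuation 2 := by
  obtain ⟨ha, hB, T, T', C, C', hT, hT', hC, hC', vT, vT', vC, vC', hc⟩ := hn
  obtain ⟨ha', hB', T₁, T₁', C₁, C₁', hT₁, hT₁', hC₁, hC₁', vT₁, vT₁', vC₁, vC₁', hc'⟩ := hn'
  obtain ⟨iv, vv⟩ := g7ad_P h hA ha hB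
  obtain ⟨iv', vv'⟩ := g7ad_P h hA ha' hB'
  obtain ⟨hS, hBB, T₂, T₂', C₂, C₂', hT₂, hT₂', hC₂, hC₂', vT₂, vT₂', vC₂, vC₂', hc₂⟩ :=
    NF.mul hA h vv.le vv'.le (g7ad_self ha hB) (g7ad_self ha' hB')
  obtain ⟨k1, k2⟩ := nf_core hA h (T := T₂' * (T' * T₁)) (T' := T₂ * (T₁' * T)) (C := C₂' * (C' * C₁))
    (C' := C₂ * ((1 + a' ^ q * ph + 2 * B' * ph ^ 2) * (C₁' * C))) hS hBB
    (Ω.mul_mem hT₂' (Ω.mul_mem hT' hT₁)) (Ω.mul_mem hT₂ (Ω.mul_mem hT₁' hT)) (InL.mul hC₂' (InL.mul hC' hC₁))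
    (InL.mul hC₂ (InL.mul iv' (InL.mul hC₁' hC))) (by rw [map_mul, map_mul, vT₂', vT', vT₁, one_mul, one_mul])
    (by rw [map_mul, map_mul, vT₂, vT₁', vT, one_mul, one_mul]) (by rw [map_mul, map_mul, vC₂', vC', vC₁, one_mul, one_mul])
    (by rw [map_mul, map_mul, map_mul, vC₂, vv', vC₁', vC, one_mul, one_mul, one_mul]) (by
      obtain ⟨v, hv⟩ := g7aa_lift vv.le
      obtain ⟨v', hv'⟩ := g7aa_lift vv'.le
      have lw : A.valuation (1 + (a + a') ^ q * ph + 2 * (B + B' + a * a' * (a ^ 3 + a' ^ 3)) * ph ^ 2) = 1 := (g7ad_P h hA hS hBB).2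
      obtain ⟨w, hw⟩ := g7aa_lift lw.le
      rw [← hv, ← hv', ← hw] at hc₂
      rw [← hv] at hc
      rw [← hv'] at hc'
      rw [← hv', ← hw]
      obtain ⟨u, rfl⟩ := g7aa_lift hu.le
      obtain ⟨T, rfl⟩ := g7aa_lift vT.le
      obtain ⟨T', rfl⟩ := g7aa_lift vT'.le
      obtain ⟨C, rfl⟩ := g7aa_lift vC.le
      obtain ⟨C', rfl⟩ := g7aa_lift vC'.le
      obtain ⟨T₁, rfl⟩ := g7aa_lift vT₁.le
      obtain ⟨T₁', rfl⟩ := g7aa_lift vT₁'.le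
      obtain ⟨C₁, rfl⟩ := g7aa_lift vC₁.le
      obtain ⟨C₁', rfl⟩ := g7aa_lift vC₁'.le
      obtain ⟨T₂, rfl⟩ := g7aa_lift vT₂.le
      obtain ⟨T₂', rfl⟩ := g7aa_lift vT₂'.le
      obtain ⟨C₂, rfl⟩ := g7aa_lift vC₂.le
      obtain ⟨C₂', rfl⟩ := g7aa_lift vC₂'.le
      obtain ⟨r, hr⟩ := (g7aa_dvd (u * T * C ^ 2 - v * T' * C' ^ 2) 4).1 hc
      obtain ⟨r₁, hr₁⟩ := (g7aa_dvd (u * T₁ * C₁ ^ 2 - v' * T₁' * C₁' ^ 2) 4).1 hc'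
      obtain ⟨r₂, hr₂⟩ := (g7aa_dvd (v * v' * T₂ * C₂ ^ 2 - w * T₂' * C₂' ^ 2) 4).1 hc₂
      refine (g7aa_dvd (w * (T₂' * (T' * T₁)) * (C₂' * (C' * C₁)) ^ 2 - T₂ * (T₁' * T) * (C₂ * (v' * (C₁' * C))) ^ 2) 4).2
        ⟨-r₂ * (T' * T₁ * (C' * C₁) ^ 2) - r * (v' * T₂ * C₂ ^ 2 * (T₁ * C₁ ^ 2)) + r₁ * (v' * T₂ * C₂ ^ 2 * (T * C ^ 2)), ?_⟩
      linear_combination (-(T' * T₁ * (C' * C₁) ^ 2)) * hr₂ - (v' * T₂ * C₂ ^ 2 * (T₁ * C₁ ^ 2)) * hr +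
        (v' * T₂ * C₂ ^ 2 * (T * C ^ 2)) * hr₁)
  have la := h.le a ha
  have la' := h.le a' ha'
  have lB := h.le B hB
  have lB' := h.le B' hB'
  obtain ⟨a, rfl⟩ := g7aa_lift la
  obtain ⟨a', rfl⟩ := g7aa_lift la'
  obtain ⟨B, rfl⟩ := g7aa_lift lB
  obtain ⟨B', rfl⟩ := g7aa_lift lB'
  obtain ⟨x, hx⟩ := (g7aa_dvd (a + a') 2).1 k1
  obtain ⟨y, hy⟩ := (g7aa_dvd (B + B' + a * a' * (a ^ 3 + a' ^ 3)) 2).1 k2
  exact ⟨(g7aa_dvd (a - a') 2).2 ⟨x - a', by linear_combination hx⟩,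
    (g7aa_dvd (B - B') 2).2 ⟨y - B' - a * a' * x * (a ^ 2 - a * a' + a' ^ 2), by
      linear_combination hy - a * a' * (a ^ 2 - a * a' + a' ^ 2) * hx⟩⟩

include hA in
/-- [G7a.8] the additive coordinates of a product are `∑ a`, `∑ (B + a⁵)`: `(a + a')⁵ ≡ a⁵ + a'⁵ + a a' (a³ + a'³) mod 2`. -/
theorem NF.prod (h : Unr A q Ω) {ι : Type} (R : Finset ι) {u a B : ι → ℂ} (hu : ∀ c ∈ R, A.valuation (u c) ≤ 1)
    (hn : ∀ c ∈ R, NF A q Ω (u c) (a c) (B c)) :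
    ∃ B', NF A q Ω (∏ c ∈ R, u c) (∑ c ∈ R, a c) B' ∧
      A.valuation ((B' + (∑ c ∈ R, a c) ^ 5) - ∑ c ∈ R, (B c + a c ^ 5)) ≤ A.valuation 2 := by
  have key : ∀ R : Finset ι, (∀ c ∈ R, A.valuation (u c) ≤ 1) → (∀ c ∈ R, NF A q Ω (u c) (a c) (B c)) →
      A.valuation (∏ c ∈ R, u c) ≤ 1 ∧ (∑ c ∈ R, a c) ∈ Ω ∧ (∑ c ∈ R, (B c + a c ^ 5)) ∈ Ω ∧
      ∃ B', NF A q Ω (∏ c ∈ R, u c) (∑ c ∈ R, a c) B' ∧
      A.valuation ((B' + (∑ c ∈ R, a c) ^ 5) - ∑ c ∈ R, (B c + a c ^ 5)) ≤ A.valuation 2 := by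
    intro R
    induction R using Finset.induction_on with
    | empty =>
      intro _ _
      refine ⟨by rw [Finset.prod_empty, map_one], by rw [Finset.sum_empty]; exact Ω.zero_mem, by rw [Finset.sum_empty]; exact Ω.zero_mem, 0, ?_, ?_⟩
      · rw [Finset.prod_empty, Finset.sum_empty]
        exact NF.const h Ω.one_mem (map_one _)
      · rw [Finset.sum_empty, Finset.sum_empty, zero_pow (by norm_num), add_zero, sub_zero, map_zero]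
        exact zero_le
    | insert i R hi ih =>
      intro hu hn
      obtain ⟨h1, h2, h3, B', h4, h5⟩ := ih (fun c hc => hu c (Finset.mem_insert_of_mem hc)) (fun c hc => hn c (Finset.mem_insert_of_mem hc))
      have hui := hu i (Finset.mem_insert_self i R)
      have hni := hn i (Finset.mem_insert_self i R)
      rw [Finset.prod_insert hi, Finset.sum_insert hi, Finset.sum_insert hi]
      refine ⟨by rw [map_mul]; exact mul_le_one' hui h1, Ω.add_mem hni.1 h2, Ω.add_mem (Ω.add_mem hni.2.1 (Ω.pow_mem hni.1 5)) h3,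
        B i + B' + a i * (∑ c ∈ R, a c) * (a i ^ 3 + (∑ c ∈ R, a c) ^ 3), NF.mul hA h hui h1 hni h4, ?_⟩
      have lB := h.le _ hni.2.1
      have la := h.le _ hni.1
      have lS := h.le _ h2
      have lE := h.le _ h3
      have lB' := h.le _ h4.2.1
      revert h5 lB la lS lE lB'
      generalize (∑ c ∈ R, a c) = S
      generalize (∑ c ∈ R, (B c + a c ^ 5)) = E
      generalize a i = x
      generalize B i = b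
      intro h5 lB la lS lE lB'
      obtain ⟨S, rfl⟩ := g7aa_lift lS
      obtain ⟨E, rfl⟩ := g7aa_lift lE
      obtain ⟨x, rfl⟩ := g7aa_lift la
      obtain ⟨b, rfl⟩ := g7aa_lift lB
      obtain ⟨B', rfl⟩ := g7aa_lift lB'
      obtain ⟨r, hr⟩ := (g7aa_dvd (B' + S ^ 5 - E) 2).1 h5
      exact (g7aa_dvd (b + B' + x * S * (x ^ 3 + S ^ 3) + (x + S) ^ 5 - (b + x ^ 5 + E)) 2).2
        ⟨r + 3 * x ^ 4 * S + 5 * x ^ 3 * S ^ 2 + 5 * x ^ 2 * S ^ 3 + 3 * x * S ^ 4, by linear_combination hr⟩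
  exact (key R hu hn).2.2.2

end J2L
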