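import Pool.Agent.J2L.S1

/-!
# [J2L-I0] congruences modulo `2` and `4` at a valuation ring above `2`

Everything modulo `2 ~ ϕ³`. Tools: `Q3V.v_x1`, `Q3V.r_two` (or directly `A.valuation ph ^ 3 = A.valuation 2` from `ph_cube`), `xw_two_eq`, `yw_two'`.
-/

set_option autoImplicit false

open scoped Classical

namespace J2L

open CM27
open CUL (Nl ez)
open Q3V (OT)

variable (A : ValuationSubring ℂ) (hA : A.valuation 2 < 1)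


/-! ### tools -/

theorem i0a_mul_two {a : ℂ} (h : A.valuation a ≤ 1) : A.valuation (2 * a) ≤ A.valuation 2 := by
  rw [map_mul]
  calc A.valuation 2 * A.valuation a ≤ A.valuation 2 * 1 := mul_le_mul' le_rfl h
    _ = A.valuation 2 := mul_one _

theorem i0a_two {a : ℂ} {q : A} (h : a = 2 * A.subtype q) : A.valuation a ≤ A.valuation 2 := by
  rw [h]
  exact i0a_mul_two A (A.valuation_le_one q)

theorem i0a_mem {a : ℂ} (h : A.valuation a ≤ 1) : ∃ b : A, (b : ℂ) = a :=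
  ⟨⟨a, (A.valuation_le_one_iff a).1 h⟩, rfl⟩

include hA in
theorem i0a_two_mem {a : ℂ} (h : A.valuation a ≤ A.valuation 2) : ∃ b : A, a = 2 * (b : ℂ) := by
  have h2 : (2 : ℂ) ≠ 0 := two_ne_zero
  have h3 : A.valuation (a / 2) ≤ 1 := by
    rw [map_div₀]
    have h4 : 0 < A.valuation 2 := by
      rw [zero_lt_iff, Valuation.ne_zero_iff]
      exact h2
    exact (div_le_one₀ h4).2 h
  obtain ⟨b, hb⟩ := i0a_mem A h3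
  exact ⟨b, by rw [hb]; field_simp⟩

theorem i0a_div {N tgt W : ℂ} (hW : A.valuation W = 1) (h : A.valuation (N - tgt * W) ≤ A.valuation 2) :
    A.valuation (N / W - tgt) ≤ A.valuation 2 := by
  have hW0 : W ≠ 0 := by
    intro h0
    rw [h0, map_zero] at hW
    exact zero_ne_one hW
  have e : N / W - tgt = (N - tgt * W) / W := by field_simp
  rw [e, map_div₀, hW, div_one]
  exact h

theorem i0a_Z (p x c : A) (hp : (p : ℂ) ^ 3 = -2) :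
    A.valuation (D2 p x * ((x : ℂ) ^ 4 + 2 * c) -
      ((x : ℂ) ^ 4 + p * ((x : ℂ) ^ 6 + (x : ℂ) ^ 12) + (p : ℂ) ^ 2 * ((x : ℂ) ^ 5 + (x : ℂ) ^ 8 + (x : ℂ) ^ 14 + (x : ℂ) ^ 20)) *
      ((1 + 4 * (x : ℂ) ^ 3) * D2 p ((x : ℂ) ^ 4 + 2 * c))) ≤ A.valuation 2 := by
  refine i0a_two A (q := -4 * p ^ 2 * x ^ 23 - p ^ 2 * x ^ 20 - 8 * p ^ 2 * x ^ 19 * c - 4 * p ^ 2 * x ^ 17 - 2 * p ^ 2 * x ^ 16 * c
      - 8 * p ^ 2 * x ^ 15 * c ^ 2 - p ^ 2 * x ^ 14 - 8 * p ^ 2 * x ^ 13 * c - 2 * p ^ 2 * x ^ 12 * c ^ 2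
      - 2 * p ^ 2 * x ^ 10 * c - 8 * p ^ 2 * x ^ 9 * c ^ 2 - 2 * p ^ 2 * x ^ 8 + 4 * p ^ 2 * x ^ 7 * c
      - 2 * p ^ 2 * x ^ 6 * c ^ 2 - p ^ 2 * x ^ 5 + p ^ 2 * x ^ 4 * c - p ^ 2 * x * c - 4 * p * x ^ 27
      - p * x ^ 24 - 8 * p * x ^ 23 * c - 4 * p * x ^ 21 - 2 * p * x ^ 20 * c - p * x ^ 18
      - 8 * p * x ^ 17 * c - 8 * p * x ^ 15 - 2 * p * x ^ 14 * c - 6 * p * x ^ 12 - 16 * p * x ^ 11 * c
      - 3 * p * x ^ 9 - 12 * p * x ^ 8 * c - 8 * p * x ^ 7 * c ^ 2 - 2 * p * x ^ 5 * c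
      - 2 * p * x ^ 4 * c ^ 2 + p * x ^ 2 * c + 4 * x ^ 31 + x ^ 28 + 16 * x ^ 27 * c + 4 * x ^ 25
      + 4 * x ^ 24 * c + 16 * x ^ 23 * c ^ 2 + x ^ 22 + 16 * x ^ 21 * c + 4 * x ^ 20 * c ^ 2 + 4 * x ^ 18 * c
      + 16 * x ^ 17 * c ^ 2 + 4 * x ^ 16 + 8 * x ^ 15 * c + 4 * x ^ 14 * c ^ 2 - 3 * x ^ 13 + 18 * x ^ 12 * c
      + 16 * x ^ 11 * c ^ 2 - x ^ 10 - 4 * x ^ 9 * c + 20 * x ^ 8 * c ^ 2 - 2 * x ^ 7 - 2 * x ^ 6 * c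
      + 4 * x ^ 5 * c ^ 2 + c) ?_
  simp only [map_add, map_sub, map_neg, map_mul, map_pow, map_ofNat, map_one, ValuationSubring.subtype_apply]
  unfold D2
  linear_combination (4 * p * x ^ 27 + p * x ^ 24 + 8 * p * x ^ 23 * c + 4 * p * x ^ 21 + 2 * p * x ^ 20 * c + p * x ^ 18
      + 8 * p * x ^ 17 * c + 4 * p * x ^ 15 + 2 * p * x ^ 14 * c + 5 * p * x ^ 12 + 8 * p * x ^ 11 * c
      + p * x ^ 9 + 10 * p * x ^ 8 * c + 2 * p * x ^ 5 * c - 4 * x ^ 31 - x ^ 28 - 16 * x ^ 27 * c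
      - 4 * x ^ 25 - 4 * x ^ 24 * c - 16 * x ^ 23 * c ^ 2 - x ^ 22 - 16 * x ^ 21 * c - 4 * x ^ 20 * c ^ 2
      - 4 * x ^ 18 * c - 16 * x ^ 17 * c ^ 2 - 4 * x ^ 16 - 8 * x ^ 15 * c - 4 * x ^ 14 * c ^ 2 + 3 * x ^ 13
      - 18 * x ^ 12 * c - 16 * x ^ 11 * c ^ 2 + x ^ 10 + 4 * x ^ 9 * c - 20 * x ^ 8 * c ^ 2 + 2 * x ^ 6 * c
      - 4 * x ^ 5 * c ^ 2) * hp

theorem i0a_O (p x c : A) (hp : (p : ℂ) ^ 3 = -2) :
    A.valuation (D2 p x * ((x : ℂ) ^ 4 + 2 * c + p) -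
      ((x : ℂ) ^ 4 + p * ((x : ℂ) ^ 6 + (x : ℂ) ^ 12 + 1) + (p : ℂ) ^ 2 * ((x : ℂ) ^ 2 + (x : ℂ) ^ 5 + (x : ℂ) ^ 14 + (x : ℂ) ^ 20)) *
      ((1 + 4 * (x : ℂ) ^ 3) * D2 p ((x : ℂ) ^ 4 + 2 * c))) ≤ A.valuation 2 := by
  refine i0a_two A (q := -4 * p ^ 2 * x ^ 23 - p ^ 2 * x ^ 20 - 8 * p ^ 2 * x ^ 19 * c - 4 * p ^ 2 * x ^ 17 - 2 * p ^ 2 * x ^ 16 * c
      - 8 * p ^ 2 * x ^ 15 * c ^ 2 - p ^ 2 * x ^ 14 - 8 * p ^ 2 * x ^ 13 * c - 2 * p ^ 2 * x ^ 12 * c ^ 2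
      - 2 * p ^ 2 * x ^ 10 * c - 8 * p ^ 2 * x ^ 9 * c ^ 2 - 2 * p ^ 2 * x ^ 8 - 4 * p ^ 2 * x ^ 7 * c
      - 2 * p ^ 2 * x ^ 6 * c ^ 2 - 3 * p ^ 2 * x ^ 5 - p ^ 2 * x ^ 4 * c - 8 * p ^ 2 * x ^ 3 * c ^ 2
      - p ^ 2 * x * c - 2 * p ^ 2 * c ^ 2 - 4 * p * x ^ 27 - p * x ^ 24 - 8 * p * x ^ 23 * c - 4 * p * x ^ 21
      - 2 * p * x ^ 20 * c - p * x ^ 18 - 8 * p * x ^ 17 * c - 4 * p * x ^ 15 - 2 * p * x ^ 14 * c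
      - 5 * p * x ^ 12 - 8 * p * x ^ 11 * c - 7 * p * x ^ 9 - 10 * p * x ^ 8 * c - 8 * p * x ^ 7 * c ^ 2
      - p * x ^ 6 - 10 * p * x ^ 5 * c - 2 * p * x ^ 4 * c ^ 2 - 2 * p * x ^ 3 - p * x ^ 2 * c + 4 * x ^ 31
      + x ^ 28 + 16 * x ^ 27 * c + 4 * x ^ 25 + 4 * x ^ 24 * c + 16 * x ^ 23 * c ^ 2 + x ^ 22
      + 16 * x ^ 21 * c + 4 * x ^ 20 * c ^ 2 - 4 * x ^ 19 + 4 * x ^ 18 * c + 16 * x ^ 17 * c ^ 2 + 3 * x ^ 16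
      - 8 * x ^ 15 * c + 4 * x ^ 14 * c ^ 2 + x ^ 13 + 14 * x ^ 12 * c + 12 * x ^ 9 * c + 16 * x ^ 8 * c ^ 2
      - 6 * x ^ 7 + 2 * x ^ 6 * c + 20 * x ^ 5 * c ^ 2 - x ^ 4 - 8 * x ^ 3 * c + 4 * x ^ 2 * c ^ 2 + x - c) ?_
  simp only [map_add, map_sub, map_neg, map_mul, map_pow, map_ofNat, map_one, ValuationSubring.subtype_apply]
  unfold D2
  linear_combination (4 * p * x ^ 27 + p * x ^ 24 + 8 * p * x ^ 23 * c + 4 * p * x ^ 21 + 2 * p * x ^ 20 * c + p * x ^ 18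
      + 8 * p * x ^ 17 * c + 2 * p * x ^ 14 * c + 4 * p * x ^ 12 + 5 * p * x ^ 9 + 8 * p * x ^ 8 * c
      + p * x ^ 6 + 10 * p * x ^ 5 * c + 2 * p * x ^ 2 * c - 4 * x ^ 31 - x ^ 28 - 16 * x ^ 27 * c
      - 4 * x ^ 25 - 4 * x ^ 24 * c - 16 * x ^ 23 * c ^ 2 - x ^ 22 - 16 * x ^ 21 * c - 4 * x ^ 20 * c ^ 2
      + 4 * x ^ 19 - 4 * x ^ 18 * c - 16 * x ^ 17 * c ^ 2 - 3 * x ^ 16 + 8 * x ^ 15 * c - 4 * x ^ 14 * c ^ 2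
      - x ^ 13 - 14 * x ^ 12 * c - 12 * x ^ 9 * c - 16 * x ^ 8 * c ^ 2 + 4 * x ^ 7 - 2 * x ^ 6 * c
      - 20 * x ^ 5 * c ^ 2 + x ^ 4 + 8 * x ^ 3 * c - 4 * x ^ 2 * c ^ 2 - x + 2 * c) * hp

theorem i0a_W (p x c t : A) (hp : (p : ℂ) ^ 3 = -2) :
    A.valuation ((1 - p * (x : ℂ) ^ 2 + (p : ℂ) ^ 2 * x + (p : ℂ) ^ 3 * (x : ℂ) ^ 3 + (p : ℂ) ^ 2 * (x : ℂ) ^ 4 + (p : ℂ) ^ 4 * (x : ℂ) ^ 2) *
      ((x : ℂ) ^ 4 + 2 * c + t * p) -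
      ((x : ℂ) ^ 4 + p * ((x : ℂ) ^ 6 + (x : ℂ) ^ 12 + t) +
        (p : ℂ) ^ 2 * (t * (x : ℂ) ^ 2 + (x : ℂ) ^ 5 + t * (x : ℂ) ^ 8 + (x : ℂ) ^ 14 + (x : ℂ) ^ 20)) *
      ((1 + 4 * (x : ℂ) ^ 3) * D2 p ((x : ℂ) ^ 4 + 2 * c))) ≤ A.valuation 2 := by
  refine i0a_two A (q := -4 * p ^ 2 * x ^ 23 - p ^ 2 * x ^ 20 - 8 * p ^ 2 * x ^ 19 * c - 4 * p ^ 2 * x ^ 17 - 2 * p ^ 2 * x ^ 16 * c
      - 8 * p ^ 2 * x ^ 15 * c ^ 2 - p ^ 2 * x ^ 14 - 8 * p ^ 2 * x ^ 13 * c - 2 * p ^ 2 * x ^ 12 * c ^ 2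
      - 4 * p ^ 2 * x ^ 11 * t + 2 * p ^ 2 * x ^ 11 - 2 * p ^ 2 * x ^ 10 * c - 8 * p ^ 2 * x ^ 9 * c ^ 2
      - p ^ 2 * x ^ 8 * t - p ^ 2 * x ^ 8 - 8 * p ^ 2 * x ^ 7 * c * t + 4 * p ^ 2 * x ^ 7 * c
      - 2 * p ^ 2 * x ^ 6 * c ^ 2 - 2 * p ^ 2 * x ^ 5 * t - 2 * p ^ 2 * x ^ 4 * c * t + 2 * p ^ 2 * x ^ 4 * c
      - 8 * p ^ 2 * x ^ 3 * c ^ 2 * t - 2 * p ^ 2 * x ^ 2 * t + p ^ 2 * x * c - 2 * p ^ 2 * c ^ 2 * t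
      - 4 * p * x ^ 27 - p * x ^ 24 - 8 * p * x ^ 23 * c - 4 * p * x ^ 21 - 2 * p * x ^ 20 * c - p * x ^ 18
      - 8 * p * x ^ 17 * c - 4 * p * x ^ 15 * t - 4 * p * x ^ 15 - 2 * p * x ^ 14 * c - p * x ^ 12 * t
      - 5 * p * x ^ 12 - 8 * p * x ^ 11 * c * t - 8 * p * x ^ 11 * c - 4 * p * x ^ 9 * t - 3 * p * x ^ 9
      - 2 * p * x ^ 8 * c * t - 10 * p * x ^ 8 * c - 8 * p * x ^ 7 * c ^ 2 - p * x ^ 6 * t - 2 * p * x ^ 6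
      - 8 * p * x ^ 5 * c * t - 2 * p * x ^ 5 * c - 2 * p * x ^ 4 * c ^ 2 - 3 * p * x ^ 3 * t
      - 2 * p * x ^ 2 * c * t - 3 * p * x ^ 2 * c + 4 * x ^ 31 + x ^ 28 + 16 * x ^ 27 * c + 4 * x ^ 25
      + 4 * x ^ 24 * c + 16 * x ^ 23 * c ^ 2 + x ^ 22 + 16 * x ^ 21 * c + 4 * x ^ 20 * c ^ 2 + 4 * x ^ 19 * t
      - 4 * x ^ 19 + 4 * x ^ 18 * c + 16 * x ^ 17 * c ^ 2 + x ^ 16 * t + 3 * x ^ 16 + 16 * x ^ 15 * c * t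
      - 8 * x ^ 15 * c + 4 * x ^ 14 * c ^ 2 + 4 * x ^ 13 * t - 3 * x ^ 13 + 4 * x ^ 12 * c * t
      + 14 * x ^ 12 * c + 16 * x ^ 11 * c ^ 2 * t + x ^ 10 * t - x ^ 10 + 16 * x ^ 9 * c * t - 4 * x ^ 9 * c
      + 4 * x ^ 8 * c ^ 2 * t + 16 * x ^ 8 * c ^ 2 - 4 * x ^ 7 * t - 3 * x ^ 7 + 4 * x ^ 6 * c * t
      - 2 * x ^ 6 * c + 16 * x ^ 5 * c ^ 2 * t + 4 * x ^ 5 * c ^ 2 - 2 * x ^ 4 * t - 8 * x ^ 3 * c * t
      - 2 * x ^ 3 * c + 4 * x ^ 2 * c ^ 2 * t - x * t - 2 * c * t + c) ?_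
  simp only [map_add, map_sub, map_neg, map_mul, map_pow, map_ofNat, map_one, ValuationSubring.subtype_apply]
  unfold D2
  linear_combination (p ^ 2 * x ^ 2 * t + 4 * p * x ^ 27 + p * x ^ 24 + 8 * p * x ^ 23 * c + 4 * p * x ^ 21 + 2 * p * x ^ 20 * c
      + p * x ^ 18 + 8 * p * x ^ 17 * c + 4 * p * x ^ 15 * t + 2 * p * x ^ 14 * c + p * x ^ 12 * t
      + 4 * p * x ^ 12 + 8 * p * x ^ 11 * c * t + 4 * p * x ^ 9 * t + p * x ^ 9 + 2 * p * x ^ 8 * c * t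
      + 8 * p * x ^ 8 * c + p * x ^ 6 * t + p * x ^ 6 + 8 * p * x ^ 5 * c * t + 2 * p * x ^ 5 * c
      + p * x ^ 3 * t + 2 * p * x ^ 2 * c * t + 2 * p * x ^ 2 * c - 4 * x ^ 31 - x ^ 28 - 16 * x ^ 27 * c
      - 4 * x ^ 25 - 4 * x ^ 24 * c - 16 * x ^ 23 * c ^ 2 - x ^ 22 - 16 * x ^ 21 * c - 4 * x ^ 20 * c ^ 2
      - 4 * x ^ 19 * t + 4 * x ^ 19 - 4 * x ^ 18 * c - 16 * x ^ 17 * c ^ 2 - x ^ 16 * t - 3 * x ^ 16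
      - 16 * x ^ 15 * c * t + 8 * x ^ 15 * c - 4 * x ^ 14 * c ^ 2 - 4 * x ^ 13 * t + 3 * x ^ 13
      - 4 * x ^ 12 * c * t - 14 * x ^ 12 * c - 16 * x ^ 11 * c ^ 2 * t - x ^ 10 * t + x ^ 10
      - 16 * x ^ 9 * c * t + 4 * x ^ 9 * c - 4 * x ^ 8 * c ^ 2 * t - 16 * x ^ 8 * c ^ 2 + 4 * x ^ 7 * t
      + x ^ 7 - 4 * x ^ 6 * c * t + 2 * x ^ 6 * c - 16 * x ^ 5 * c ^ 2 * t - 4 * x ^ 5 * c ^ 2
      + 2 * x ^ 4 * t + 8 * x ^ 3 * c * t + 2 * x ^ 3 * c - 4 * x ^ 2 * c ^ 2 * t + x * t + 2 * c * t) * hp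

/-- [I0.1] -/
theorem ph_val : A.valuation ph ^ 3 = A.valuation 2 := by
  rw [← map_pow, ph_cube, Valuation.map_neg]

include hA in
theorem ph_lt : A.valuation ph < 1 := by
  by_contra h
  rw [not_lt] at h
  have h1 := ph_val A
  have h2 : 1 ≤ A.valuation ph ^ 3 := one_le_pow₀ h
  rw [h1] at h2
  exact absurd h2 (not_le.2 hA)

theorem w_val : A.valuation w = 1 := CUL.w_w A

/-- [I0.2] duplication: `x(2z) = (x⁴ - 2x)/(4x³ + 1)`, `y(2z) = (2x⁶ + 10x³ - 1)/y³`, `(y - 1)/2 = yh`: `yh² + yh = x³`. -/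
theorem yh_sq {z : ℂ} (h : OT z) : yh z ^ 2 + yh z = xw z ^ 3 := by
  have h1 := weq z h.1
  unfold yh
  linear_combination (1 / 4 : ℂ) * h1

include hA in
theorem x2_four {z : ℂ} (h : OT z) : A.valuation (xw (2 * z) - (xw z ^ 4 - 2 * xw z)) ≤ A.valuation 4 := by
  have h1 := xw_two_eq h.two.1
  have h2 := weq z h.1
  have h3 : yw z ^ 2 ≠ 0 := pow_ne_zero 2 (Q3V.off_y h.two.1)
  rw [eq_div_iff h3] at h1
  have h4 : xw (2 * z) - (xw z ^ 4 - 2 * xw z) = 4 * -(xw (2 * z) * xw z ^ 3) := by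
    linear_combination h1 - xw (2 * z) * h2
  have h5 : A.valuation (-(xw (2 * z) * xw z ^ 3)) ≤ 1 := by
    rw [Valuation.map_neg, map_mul, map_pow]
    exact mul_le_one' (x_int A hA h.two) (pow_le_one₀ zero_le (x_int A hA h))
  rw [h4, map_mul]
  calc A.valuation 4 * A.valuation (-(xw (2 * z) * xw z ^ 3)) ≤ A.valuation 4 * 1 := mul_le_mul' le_rfl h5
    _ = A.valuation 4 := mul_one _

include hA in
theorem x2_two {z : ℂ} (h : OT z) : A.valuation (xw (2 * z) - xw z ^ 4) ≤ A.valuation 2 := by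
  have h1 := x2_four A hA h
  have h4 : A.valuation 4 ≤ A.valuation 2 := by
    rw [show (4 : ℂ) = 2 * 2 by norm_num]
    exact i0a_mul_two A hA.le
  have e : xw (2 * z) - xw z ^ 4 = (xw (2 * z) - (xw z ^ 4 - 2 * xw z)) - 2 * xw z := by ring
  rw [e]
  exact (A.valuation.map_sub _ _).trans (max_le (h1.trans h4) (i0a_mul_two A (x_int A hA h)))

include hA in
/-- `(y³ yh(2z)) = x⁶ + 3x³ - 1 - yh - 4 x³ yh`, `y ≡ 1 mod 2`, `x³ = yh² + yh` -/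
theorem yh2_two {z : ℂ} (h : OT z) : A.valuation (yh (2 * z) - (yh z ^ 4 + 1)) ≤ A.valuation 2 := by
  have h1 := TH.yw_two' z h.two.1
  have h3 : yw z ^ 3 ≠ 0 := pow_ne_zero 3 (Q3V.off_y h.two.1)
  rw [eq_div_iff h3] at h1
  obtain ⟨k, hk⟩ := i0a_mem A (yh_int A hA h)
  obtain ⟨K, hK⟩ := i0a_mem A (yh_int A hA h.two)
  have h4 := yh_sq h
  have h5 : yw z = 1 + 2 * (k : ℂ) := by rw [hk, yh]; ring
  have h6 : yw (2 * z) = 1 + 2 * (K : ℂ) := by rw [hK, yh]; ring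
  rw [← hk] at h4
  rw [h5, h6] at h1
  refine i0a_two A (q := -k ^ 3 + k - 1 - (3 * k + 6 * k ^ 2 + 4 * k ^ 3) * K) ?_
  rw [← hk, ← hK]
  simp only [map_add, map_sub, map_neg, map_mul, map_pow, map_ofNat, map_one, ValuationSubring.subtype_apply]
  linear_combination (1 / 2 : ℂ) * h1 - ((k : ℂ) ^ 2 + k + xw z ^ 3 + 5) * h4

/-- [I0.3] `D₂` and its inverse, `T³ = -2`, `X` integral. -/
theorem D2_int {T X : ℂ} (hT : T ^ 3 = -2) (hX : A.valuation X ≤ 1) : A.valuation (D2 T X) ≤ 1 := by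
  have h2 : A.valuation 2 ≤ 1 := by
    have h := A.valuation_le_one 2
    exact_mod_cast h
  have hT1 : A.valuation T ≤ 1 := by
    by_contra hc
    rw [not_le] at hc
    have h1 : 1 < A.valuation T ^ 3 := one_lt_pow₀ hc (by norm_num)
    rw [← map_pow, hT, Valuation.map_neg] at h1
    exact absurd h2 (not_le.2 h1)
  obtain ⟨x, rfl⟩ := i0a_mem A hX
  obtain ⟨t, rfl⟩ := i0a_mem A hT1
  have e : D2 (t : ℂ) x = ((1 + t * x ^ 2 - t ^ 2 * x : A) : ℂ) := by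
    unfold D2
    push_cast
    ring
  rw [e]
  exact A.valuation_le_one _

include hA in
theorem D2_val {T X : ℂ} (hT : T ^ 3 = -2) (hX : A.valuation X ≤ 1) : A.valuation (D2 T X) = 1 := by
  have hT1 : A.valuation T < 1 := by
    by_contra hc
    rw [not_lt] at hc
    have h1 : 1 ≤ A.valuation T ^ 3 := one_le_pow₀ hc
    rw [← map_pow, hT, Valuation.map_neg] at h1
    exact absurd h1 (not_le.2 hA)
  have h3 : A.valuation (X ^ 2 - T * X) ≤ 1 := by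
    obtain ⟨x, rfl⟩ := i0a_mem A hX
    obtain ⟨t, rfl⟩ := i0a_mem A hT1.le
    have e : (x : ℂ) ^ 2 - t * x = ((x ^ 2 - t * x : A) : ℂ) := by push_cast; ring
    rw [e]
    exact A.valuation_le_one _
  have h4 : A.valuation (T * (X ^ 2 - T * X)) < 1 := by
    rw [map_mul]
    calc A.valuation T * A.valuation (X ^ 2 - T * X) ≤ A.valuation T * 1 := mul_le_mul' le_rfl h3
      _ = A.valuation T := mul_one _
      _ < 1 := hT1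
  have e : D2 T X = 1 + T * (X ^ 2 - T * X) := by unfold D2; ring
  rw [e, Valuation.map_add_eq_of_lt_left _ (by rwa [map_one]), map_one]

include hA in
/-- `D₂ (1 + T X² + T² (X + X⁴)) ≡ 1 mod 2` -/
theorem D2_inv {T X : ℂ} (hT : T ^ 3 = -2) (hX : A.valuation X ≤ 1) :
    A.valuation ((D2 T X)⁻¹ - (1 + T * X ^ 2 + T ^ 2 * (X + X ^ 4))) ≤ A.valuation 2 := by
  have hD := D2_val A hA hT hX
  have hT1 : A.valuation T ≤ 1 := by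
    by_contra hc
    rw [not_le] at hc
    have h1 : 1 < A.valuation T ^ 3 := one_lt_pow₀ hc (by norm_num)
    rw [← map_pow, hT, Valuation.map_neg] at h1
    exact absurd hA.le (not_le.2 h1)
  rw [← one_div]
  refine i0a_div A hD ?_
  obtain ⟨x, rfl⟩ := i0a_mem A hX
  obtain ⟨t, rfl⟩ := i0a_mem A hT1
  refine i0a_two A (q := -2 * t * x ^ 2 - t ^ 2 * x ^ 4 + x ^ 6 - t * x ^ 5) ?_
  simp only [map_add, map_sub, map_neg, map_mul, map_pow, map_ofNat, map_one, ValuationSubring.subtype_apply]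
  unfold D2
  linear_combination (-(x : ℂ) ^ 6 + t * (x : ℂ) ^ 5 + t * (x : ℂ) ^ 2) * hT

include hA in
theorem i0c_data {z : ℂ} (h : OT z) : A.valuation (yw z ^ 2 * D2 ph (xw (2 * z))) = 1 ∧ ∃ p x c : A, (p : ℂ) = ph ∧ (x : ℂ) = xw z ∧
    D2 ph (xw (2 * z)) = D2 ph (xw z ^ 4 + 2 * c) ∧ xw (2 * z) = xw z ^ 4 + 2 * c ∧ yw z ^ 2 = 1 + 4 * xw z ^ 3 := by
  obtain ⟨p, hp⟩ := i0a_mem A (ph_lt A hA).le
  obtain ⟨x, hx⟩ := i0a_mem A (x_int A hA h)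
  obtain ⟨c, hc⟩ := i0a_two_mem A hA (x2_two A hA h)
  have h1 : xw (2 * z) = xw z ^ 4 + 2 * c := by linear_combination hc
  refine ⟨?_, p, x, c, hp, hx, by rw [h1], h1, ?_⟩
  · rw [map_mul, map_pow, y_val A hA h, one_pow, one_mul]
    exact D2_val A hA ph_cube (x_int A hA h.two)
  · rw [weq z h.1]
    ring

theorem i0c_norm (T X : ℂ) : D2 (w * T) X * D2 (w ^ 2 * T) X =
    1 - T * X ^ 2 + T ^ 2 * X + T ^ 3 * X ^ 3 + T ^ 2 * X ^ 4 + T ^ 4 * X ^ 2 := by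
  unfold D2
  have hw2 : w ^ 2 = -1 - w := CUL.w2
  have h3 : w ^ 3 = 1 := CUL.w3
  have e4 : w ^ 4 = w := by linear_combination w * h3
  have e5 : w ^ 5 = -1 - w := by linear_combination w ^ 2 * h3 + hw2
  have e6 : w ^ 6 = 1 := by linear_combination (w ^ 3 + 1) * h3
  ring_nf
  simp only [e4, e5, e6, h3, hw2]
  ring

include hA in
/-- [I0.4] the expansions of the values for `n = 3`: `X = x(z)`, `X₂ = x(2z) ≡ X⁴ mod 2`, `y² ≡ 1 mod 4` -/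
theorem T3_zero {z : ℂ} (h : OT z) :
    A.valuation (D2 ph (xw z) * xw (2 * z) / (yw z ^ 2 * D2 ph (xw (2 * z))) -
      (xw z ^ 4 + ph * (xw z ^ 6 + xw z ^ 12) + ph ^ 2 * (xw z ^ 5 + xw z ^ 8 + xw z ^ 14 + xw z ^ 20))) ≤ A.valuation 2 := by
  obtain ⟨W0, p, x, c, hp, hx, h1, h2, h3⟩ := i0c_data A hA h
  refine i0a_div A W0 ?_
  rw [h3, h2, ← hx, ← hp]
  exact i0a_Z A p x c (by rw [hp]; exact ph_cube)

include hA in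
theorem T3_one {z : ℂ} (h : OT z) :
    A.valuation (D2 ph (xw z) * (xw (2 * z) + ph) / (yw z ^ 2 * D2 ph (xw (2 * z))) -
      (xw z ^ 4 + ph * (xw z ^ 6 + xw z ^ 12 + 1) + ph ^ 2 * (xw z ^ 2 + xw z ^ 5 + xw z ^ 14 + xw z ^ 20))) ≤ A.valuation 2 := by
  obtain ⟨W0, p, x, c, hp, hx, h1, h2, h3⟩ := i0c_data A hA h
  refine i0a_div A W0 ?_
  rw [h3, h2, ← hx, ← hp]
  exact i0a_O A p x c (by rw [hp]; exact ph_cube)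

include hA in
/-- `t = w` or `t = w²` (`t³ = 1`) -/
theorem T3_w {z : ℂ} (h : OT z) {t : ℂ} (ht : t ^ 3 = 1) :
    A.valuation (D2 (w * ph) (xw z) * D2 (w ^ 2 * ph) (xw z) * (xw (2 * z) + t * ph) / (yw z ^ 2 * D2 ph (xw (2 * z))) -
      (xw z ^ 4 + ph * (xw z ^ 6 + xw z ^ 12 + t) +
        ph ^ 2 * (t * xw z ^ 2 + xw z ^ 5 + t * xw z ^ 8 + xw z ^ 14 + xw z ^ 20))) ≤ A.valuation 2 := by
  obtain ⟨W0, p, x, c, hp, hx, h1, h2, h3⟩ := i0c_data A hA h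
  have ht1 : A.valuation t ≤ 1 := by
    by_contra hc
    rw [not_le] at hc
    have h1 : 1 < A.valuation t ^ 3 := one_lt_pow₀ hc (by norm_num)
    rw [← map_pow, ht, map_one] at h1
    exact lt_irrefl _ h1
  obtain ⟨t', ht'⟩ := i0a_mem A ht1
  refine i0a_div A W0 ?_
  rw [h3, h2, ← hx, ← hp, ← ht', i0c_norm]
  exact i0a_W A p x c t' (by rw [hp]; exact ph_cube)

theorem i0b_ne (X : ℂ) (hN : 1 - 10 * X ^ 3 - 2 * X ^ 6 ≠ 0) : D2 ph X ≠ 0 := by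
  intro h0
  have h1 := D2_norm X
  rw [h0, zero_mul] at h1
  exact hN h1.symm

/-- [I0.5] the exact weight decompositions for `n = 2`, `N = 1 - 10 X³ - 2 X⁶` (`D2_norm`) -/
theorem D2_split (X : ℂ) (hN : 1 - 10 * X ^ 3 - 2 * X ^ 6 ≠ 0) :
    (D2 ph X)⁻¹ = ((1 - 2 * X ^ 3) + ph * (-3 * X ^ 2) + ph ^ 2 * (X ^ 4 + X)) / (1 - 10 * X ^ 3 - 2 * X ^ 6) := by
  have hD : D2 ph X ≠ 0 := i0b_ne X hN
  rw [← one_div, div_eq_div_iff hD hN]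
  unfold D2
  linear_combination (ph * X ^ 5 + ph * X ^ 2 - X ^ 6 - 4 * X ^ 3) * ph_cube

theorem D2_split_w (X : ℂ) (hN : 1 - 10 * X ^ 3 - 2 * X ^ 6 ≠ 0) {t : ℂ} (ht : t ^ 2 + t + 1 = 0) :
    D2 (t * ph) X / D2 ph X = ((1 - 2 * t * X ^ 6 - 4 * t ^ 2 * X ^ 3) + (t - 1) * ph * ((1 - 2 * t ^ 2) * X ^ 2 + 2 * t * X ^ 5) +
      (1 - t) * ph ^ 2 * ((1 - 2 * t) * X ^ 4 - t ^ 2 * X)) / (1 - 10 * X ^ 3 - 2 * X ^ 6) := by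
  have hD : D2 ph X ≠ 0 := i0b_ne X hN
  rw [div_eq_div_iff hD hN]
  unfold D2
  linear_combination (2 * ph * X ^ 5 * t ^ 2 - 3 * ph * X ^ 5 * t + ph * X ^ 5 + ph * X ^ 2 * t ^ 3 - ph * X ^ 2 * t ^ 2 +
    X ^ 6 * t - X ^ 6 - 3 * X ^ 3 * t ^ 3 + 3 * X ^ 3 * t ^ 2 + X ^ 3 * t - X ^ 3) * ph_cube +
    (2 * ph ^ 2 * X ^ 4 * t - ph ^ 2 * X * t + ph ^ 2 * X - 2 * ph * X ^ 5 + 6 * X ^ 3 * t - 8 * X ^ 3) * ht

include hA in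
/-- `N ≡ 1 mod 2` -/
theorem N_val {X : ℂ} (hX : A.valuation X ≤ 1) : A.valuation (1 - 10 * X ^ 3 - 2 * X ^ 6) = 1 := by
  obtain ⟨x, rfl⟩ := i0a_mem A hX
  have e : 1 - 10 * (x : ℂ) ^ 3 - 2 * (x : ℂ) ^ 6 = 1 - 2 * A.subtype (5 * x ^ 3 + x ^ 6) := by
    simp only [map_add, map_mul, map_pow, map_ofNat, ValuationSubring.subtype_apply]
    ring
  have h1 : A.valuation (2 * A.subtype (5 * x ^ 3 + x ^ 6)) < 1 :=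
    lt_of_le_of_lt (i0a_mul_two A (A.valuation_le_one (5 * x ^ 3 + x ^ 6))) hA
  rw [e, Valuation.map_sub_eq_of_lt_left _ (by rwa [map_one]), map_one]

end J2L
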