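import Pool.Agent.J2L.G7a
import Pool.Agent.J2L.I0

/-!
# [J2L-G7b] the normal forms of `D₂(ϕ, x)` and of `1 + α s + α³ D + 2 b s²`

Model: `1 + α ϕ + β ϕ²` with `α ≡ [a] + 2 a'`, `β ≡ [b] + 2 b'` times `τ c²`, `c = 1 + c₁ ϕ + c₂ ϕ²`, `c₁ = b^(q/2)`, `c₂² ≡ a' + √b + b² + a² b mod 2`, `τ = 1 + 2 a b`, is
`1 + [a] ϕ + 2 B ϕ²`, `B = b' + b + c₂ + a a' + a b² + a³ b`.
-/

set_option autoImplicit false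

open scoped Classical

namespace J2L

open CM27

variable {A : ValuationSubring ℂ} (hA : A.valuation 2 < 1) {q : ℕ} {Ω : Subring ℂ}

/-! ### tools -/

theorem g7ba_dvd {c x : ℂ} (hc : c ≠ 0) (h : A.valuation x ≤ A.valuation c) : ∃ y : A, x = c * (y : ℂ) := by
  have h1 : A.valuation (x / c) ≤ 1 := by
    rw [map_div₀]
    exact div_le_one_of_le₀ h zero_le
  exact ⟨⟨x / c, (A.valuation_le_one_iff _).1 h1⟩, by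
    show x = c * (x / c)
    field_simp⟩

theorem g7ba_le {c x : ℂ} (y : A) (h : x = c * (y : ℂ)) : A.valuation x ≤ A.valuation c := by
  rw [h, map_mul]
  exact mul_le_of_le_one_right' (A.valuation_le_one y)

theorem g7ba_lift {x : ℂ} (h : A.valuation x ≤ 1) : ∃ y : A, (y : ℂ) = x :=
  ⟨⟨x, (A.valuation_le_one_iff _).1 h⟩, rfl⟩

theorem g7ba_q (h : Unr A q Ω) (t : ℂ) : (t ^ (q / 2)) ^ 2 = t ^ q := by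
  obtain ⟨n, hn⟩ := h.q4
  rw [← pow_mul, Nat.div_mul_cancel]
  rw [hn, pow_succ]
  exact Dvd.dvd.mul_left (by norm_num) _

theorem g7ba_add {x y : ℂ} {g : A.ValueGroup} (hx : A.valuation x ≤ g) (hy : A.valuation y ≤ g) : A.valuation (x + y) ≤ g :=
  A.valuation.map_add_le hx hy

/-- the polynomial identity for `nf_model` -/
theorem g7ba_id (a b x y c k p e3 e4 e5 : ℂ) (hp : p ^ 3 = -2) (hc : c ^ 2 = b + 2 * e5) (hk : k ^ 2 = x + c + b ^ 2 + a ^ 2 * b + 2 * e3) :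
    (1 + (a + 2 * e4 + 2 * x) * p + (b + 2 * e5 + 2 * y) * p ^ 2) * (1 + 2 * (a * b)) * (1 + c * p + k * p ^ 2) ^ 2 -
      (1 + (a + 2 * e4) * p + 2 * (y + b + k + a * x + a * b ^ 2 + a ^ 3 * b) * p ^ 2) = 4 * (
    -a^4*b^2*p^2 + 2*a^3*b^3 - 2*a^3*b^2*x*p^2 + 4*a^3*b^2*y - 2*a^3*b^2*p^2*e4 - a^3*b^2*p + 4*a^3*b^2*e5 - a^3*b*p^2 - a^2*b^3*p^2 - 2*a^2*b*x*p^2
    + 2*a^2*b*y - 2*a^2*b*c*k*p - 2*a^2*b*k - 2*a^2*b*p^2*e3 - a^2*b*p^2*e4 + 2*a*b^4 - 2*a*b^3*x*p^2 + 4*a*b^3*y - 2*a*b^3*p^2*e4 - 2*a*b^3*p +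
    4*a*b^3*e5 - 2*a*b^2*y*p - 2*a*b^2*c*k*p^2 - 2*a*b^2*k*p - 4*a*b^2*p*e5 + 4*a*b^2*e3 - 2*a*b^2*e4 - 2*a*b*x^2*p^2 + 4*a*b*x*y - 4*a*b*x*c*k*p -
    4*a*b*x*k - 4*a*b*x*p^2*e3 - 2*a*b*x*p^2*e4 - 4*a*b*y*c*k*p^2 - 4*a*b*y*k*p + a*b*y*p^2 - 4*a*b*y*p*e5 + 8*a*b*y*e3 - 4*a*b*c*k*p^2*e5 -
    4*a*b*c*k*p*e4 - 2*a*b*c*k + a*b*k*p^2 - 4*a*b*k*p*e5 - 4*a*b*k*e4 - 4*a*b*p^2*e3*e4 + 2*a*b*p^2*e5 - 2*a*b*p*e3 + a*b*p*e4 - 4*a*b*p*e5^2 +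
    8*a*b*e3*e5 - 4*a*b*e4*e5 - a*x*p^2 - a*c*k*p - a*k - a*p^2*e3 - a*e5 + b^3 - b^2*x*p^2 + 2*b^2*y - b^2*p^2*e4 - b^2*p + 2*b^2*e5 - b*y*p -
    b*c*k*p^2 - b*k*p - 2*b*p*e5 + 2*b*e3 - b*e4 - x^2*p^2 + 2*x*y - 2*x*c*k*p - 2*x*k - 2*x*p^2*e3 - x*p^2*e4 - 2*y*c*k*p^2 - 2*y*k*p - 2*y*p*e5 +
    4*y*e3 - 2*c*k*p^2*e5 - 2*c*k*p*e4 - c*k - 2*k*p*e5 - 2*k*e4 - 2*p^2*e3*e4 + p^2*e5 - p*e3 - 2*p*e5^2 + 4*e3*e5 - 2*e4*e5) := by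
  linear_combination (
    2*a^2*b*c^2 + 4*a^2*b*c*k*p + 2*a^2*b*k^2*p^2 + 4*a^2*b*k + 2*a*b^2*c^2*p + 4*a*b^2*c*k*p^2 + 4*a*b^2*c + 2*a*b^2*k^2*p^3 - 4*a*b^2*k^2 +
    4*a*b^2*k*p + 4*a*b*x*c^2 + 8*a*b*x*c*k*p + 4*a*b*x*k^2*p^2 + 8*a*b*x*k + 4*a*b*y*c^2*p + 8*a*b*y*c*k*p^2 + 8*a*b*y*c + 4*a*b*y*k^2*p^3 -
    8*a*b*y*k^2 + 8*a*b*y*k*p + 4*a*b*c^2*p*e5 + 4*a*b*c^2*e4 + 8*a*b*c*k*p^2*e5 + 8*a*b*c*k*p*e4 + 4*a*b*c*k + 8*a*b*c*e5 + 4*a*b*k^2*p^3*e5 +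
    4*a*b*k^2*p^2*e4 + 2*a*b*k^2*p - 8*a*b*k^2*e5 + 8*a*b*k*p*e5 + 8*a*b*k*e4 + a*c^2 + 2*a*c*k*p + a*k^2*p^2 + 2*a*k + b*c^2*p + 2*b*c*k*p^2 + 2*b*c
    + b*k^2*p^3 - 2*b*k^2 + 2*b*k*p + 2*x*c^2 + 4*x*c*k*p + 2*x*k^2*p^2 + 4*x*k + 2*y*c^2*p + 4*y*c*k*p^2 + 4*y*c + 2*y*k^2*p^3 - 4*y*k^2 + 4*y*k*p +
    2*c^2*p*e5 + 2*c^2*e4 + 4*c*k*p^2*e5 + 4*c*k*p*e4 + 2*c*k + 4*c*e5 + 2*k^2*p^3*e5 + 2*k^2*p^2*e4 + k^2*p - 4*k^2*e5 + 4*k*p*e5 + 4*k*e4) * hp + (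
    -4*a^2*b - 4*a*b^2*p - 8*a*b*x - 8*a*b*y*p + 2*a*b*p^2 - 8*a*b*p*e5 - 8*a*b*e4 - 2*a - 2*b*p - 4*x - 4*y*p + p^2 - 4*p*e5 - 4*e4) * hc + (
    -4*a^2*b*p^2 + 8*a*b^2 - 8*a*b*x*p^2 + 16*a*b*y - 8*a*b*p^2*e4 - 4*a*b*p + 16*a*b*e5 - 2*a*p^2 + 4*b - 4*x*p^2 + 8*y - 4*p^2*e4 - 2*p + 8*e5) * hk

include hA in
/-- [G7b.1] the model -/
theorem nf_model (h : Unr A q Ω) {α β a a' b b' c₂ : ℂ} (hα : α ∈ Ω) (hβ : β ∈ Ω) (ha : a ∈ Ω) (ha' : a' ∈ Ω) (hb : b ∈ Ω) (hb' : b' ∈ Ω)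
    (hc₂ : c₂ ∈ Ω) (h1 : A.valuation (α - (a ^ q + 2 * a')) ≤ A.valuation 4) (h2 : A.valuation (β - (b ^ q + 2 * b')) ≤ A.valuation 4)
    (h3 : A.valuation (c₂ ^ 2 - (a' + b ^ (q / 2) + b ^ 2 + a ^ 2 * b)) ≤ A.valuation 2) :
    NF A q Ω (1 + α * ph + β * ph ^ 2) a (b' + b + c₂ + a * a' + a * b ^ 2 + a ^ 3 * b) := by
  have ia := h.le a ha
  have ia' := h.le a' ha'
  have ib := h.le b hb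
  have ib' := h.le b' hb'
  have ic := h.le c₂ hc₂
  have hc1 : b ^ (q / 2) ∈ Ω := pow_mem hb _
  have icc := h.le _ hc1
  have h2ne : (2 : ℂ) ≠ 0 := two_ne_zero
  obtain ⟨e4, he4⟩ := g7ba_dvd h2ne (h.fr2 ha)
  obtain ⟨e5, he5⟩ := g7ba_dvd h2ne (h.fr2 hb)
  obtain ⟨e3, he3⟩ := g7ba_dvd h2ne h3
  have hph := ph_lt A hA
  obtain ⟨P, hP⟩ := g7ba_lift hph.le
  obtain ⟨a0, ea⟩ := g7ba_lift ia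
  obtain ⟨x0, ex⟩ := g7ba_lift ia'
  obtain ⟨b0, eb⟩ := g7ba_lift ib
  obtain ⟨y0, ey⟩ := g7ba_lift ib'
  obtain ⟨k0, ek⟩ := g7ba_lift ic
  obtain ⟨c0, ec⟩ := g7ba_lift icc
  have hTm : 1 + 2 * (a * b) ∈ Ω := add_mem (one_mem _) (mul_mem (by
    have : (2 : ℂ) = 1 + 1 := by norm_num
    rw [this]
    exact add_mem (one_mem _) (one_mem _)) (mul_mem ha hb))
  have hBm : b' + b + c₂ + a * a' + a * b ^ 2 + a ^ 3 * b ∈ Ω :=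
    add_mem (add_mem (add_mem (add_mem (add_mem hb' hb) hc₂) (mul_mem ha ha')) (mul_mem ha (pow_mem hb 2)))
      (mul_mem (pow_mem ha 3) hb)
  have hT1 : A.valuation (1 + 2 * (a * b)) = 1 := by
    apply Valuation.map_one_add_of_lt
    rw [map_mul, map_mul]
    exact mul_lt_one_of_lt_of_le hA (mul_le_one' ia ib)
  have hC1 : A.valuation (1 + b ^ (q / 2) * ph + c₂ * ph ^ 2) = 1 := by
    rw [add_assoc]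
    apply Valuation.map_one_add_of_lt
    apply Valuation.map_add_lt
    · rw [map_mul, mul_comm]
      exact mul_lt_one_of_lt_of_le hph icc
    · rw [map_mul, map_pow, mul_comm]
      exact mul_lt_one_of_lt_of_le (pow_lt_one₀ zero_le hph two_ne_zero) ic
  have hu' : NF A q Ω (1 + (a ^ q + 2 * a') * ph + (b ^ q + 2 * b') * ph ^ 2) a
      (b' + b + c₂ + a * a' + a * b ^ 2 + a ^ 3 * b) := by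
    refine ⟨ha, hBm, 1 + 2 * (a * b), 1, 1 + b ^ (q / 2) * ph + c₂ * ph ^ 2, 1, hTm, one_mem _,
      ⟨1, one_mem _, _, hc1, _, hc₂, rfl⟩, InL.of (one_mem _), hT1, map_one _, hC1, map_one _, ?_⟩
    have hcc : (b ^ (q / 2)) ^ 2 = b + 2 * (e5 : ℂ) := by
      rw [g7ba_q h]
      linear_combination he5
    have key := g7ba_id a b a' b' (b ^ (q / 2)) c₂ ph e3 e4 e5 ph_cube hcc (by linear_combination he3)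
    have eaq : a ^ q = a + 2 * (e4 : ℂ) := by linear_combination he4
    have ebq : b ^ q = b + 2 * (e5 : ℂ) := by linear_combination he5
    rw [eaq, ebq, mul_one, one_pow, mul_one, key, ← hP, ← ec, ← ea, ← ex, ← eb, ← ey, ← ek]
    apply g7ba_le ((fun a b x y c k p e3 e4 e5 : A =>
      -a^4*b^2*p^2 + 2*a^3*b^3 - 2*a^3*b^2*x*p^2 + 4*a^3*b^2*y - 2*a^3*b^2*p^2*e4 - a^3*b^2*p + 4*a^3*b^2*e5 - a^3*b*p^2 - a^2*b^3*p^2 -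
      2*a^2*b*x*p^2 + 2*a^2*b*y - 2*a^2*b*c*k*p - 2*a^2*b*k - 2*a^2*b*p^2*e3 - a^2*b*p^2*e4 + 2*a*b^4 - 2*a*b^3*x*p^2 + 4*a*b^3*y - 2*a*b^3*p^2*e4 -
      2*a*b^3*p + 4*a*b^3*e5 - 2*a*b^2*y*p - 2*a*b^2*c*k*p^2 - 2*a*b^2*k*p - 4*a*b^2*p*e5 + 4*a*b^2*e3 - 2*a*b^2*e4 - 2*a*b*x^2*p^2 + 4*a*b*x*y -
      4*a*b*x*c*k*p - 4*a*b*x*k - 4*a*b*x*p^2*e3 - 2*a*b*x*p^2*e4 - 4*a*b*y*c*k*p^2 - 4*a*b*y*k*p + a*b*y*p^2 - 4*a*b*y*p*e5 + 8*a*b*y*e3 -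
      4*a*b*c*k*p^2*e5 - 4*a*b*c*k*p*e4 - 2*a*b*c*k + a*b*k*p^2 - 4*a*b*k*p*e5 - 4*a*b*k*e4 - 4*a*b*p^2*e3*e4 + 2*a*b*p^2*e5 - 2*a*b*p*e3 + a*b*p*e4
      - 4*a*b*p*e5^2 + 8*a*b*e3*e5 - 4*a*b*e4*e5 - a*x*p^2 - a*c*k*p - a*k - a*p^2*e3 - a*e5 + b^3 - b^2*x*p^2 + 2*b^2*y - b^2*p^2*e4 - b^2*p +
      2*b^2*e5 - b*y*p - b*c*k*p^2 - b*k*p - 2*b*p*e5 + 2*b*e3 - b*e4 - x^2*p^2 + 2*x*y - 2*x*c*k*p - 2*x*k - 2*x*p^2*e3 - x*p^2*e4 - 2*y*c*k*p^2 -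
      2*y*k*p - 2*y*p*e5 + 4*y*e3 - 2*c*k*p^2*e5 - 2*c*k*p*e4 - c*k - 2*k*p*e5 - 2*k*e4 - 2*p^2*e3*e4 + p^2*e5 - p*e3 - 2*p*e5^2 + 4*e3*e5 - 2*e4*e5) a0 b0 x0 y0 c0 k0 P e3 e4 e5)
    have hsub : ∀ t : A, (t : ℂ) = A.subtype t := fun _ => rfl
    simp only [hsub, map_add, map_sub, map_mul, map_pow, map_neg, map_ofNat]
  refine hu'.congr_u h ?_
  have e : 1 + (a ^ q + 2 * a') * ph + (b ^ q + 2 * b') * ph ^ 2 - (1 + α * ph + β * ph ^ 2) =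
      -((α - (a ^ q + 2 * a')) * ph + (β - (b ^ q + 2 * b')) * ph ^ 2) := by ring
  rw [e, Valuation.map_neg]
  apply g7ba_add
  · rw [map_mul]
    exact (mul_le_of_le_one_right' hph.le).trans h1
  · rw [map_mul, map_pow]
    exact (mul_le_of_le_one_right' (pow_le_one₀ zero_le hph.le)).trans h2

include hA in
/-- [G7b.2] `x ≡ x^q - 2 x'`, `x'⁴ ≡ x`: `α = x²`, `a = x²`, `a' = 0`, `β = - x ≡ [x] + 2 (x + x')`, `c₂ = x' + x + x² x^(q/2)` (`x'² ≡ x^(q/2)` because the squares are `≡`). -/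
theorem nf_D2 (h : Unr A q Ω) {x x' : ℂ} (hx : x ∈ Ω) (hx' : x' ∈ Ω) (h1 : A.valuation (x - x ^ q + 2 * x') ≤ A.valuation 4)
    (h2 : A.valuation (x' ^ 4 - x) ≤ A.valuation 2) :
    NF A q Ω (D2 ph x) (x ^ 2) (x + x ^ 4 + x ^ 7 + x ^ 2 * x ^ (q / 2)) := by
  have ix := h.le x hx
  have ix' := h.le x' hx'
  have hg : x ^ (q / 2) ∈ Ω := pow_mem hx _
  have ig := h.le _ hg
  have h2ne : (2 : ℂ) ≠ 0 := two_ne_zero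
  have h4ne : (4 : ℂ) ≠ 0 := by norm_num
  obtain ⟨e0, he0⟩ := g7ba_dvd h4ne h1
  obtain ⟨P, hP⟩ := g7ba_lift (ph_lt A hA).le
  obtain ⟨x0, ex⟩ := g7ba_lift ix
  obtain ⟨y0, ey⟩ := g7ba_lift ix'
  obtain ⟨g0, eg⟩ := g7ba_lift ig
  have hsub : ∀ t : A, (t : ℂ) = A.subtype t := fun _ => rfl
  have hgq : (x ^ (q / 2)) ^ 2 = x + 2 * x' - 4 * (e0 : ℂ) := by
    rw [g7ba_q h]
    linear_combination -he0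
  -- `x'² ≡ x^(q/2)`
  have hs : A.valuation (x' ^ 2 - x ^ (q / 2)) ≤ A.valuation 2 := by
    apply h.sq_inj hA (pow_mem hx' 2) hg
    have e : (x' ^ 2) ^ 2 - (x ^ (q / 2)) ^ 2 = (x' ^ 4 - x) + (-(2 * x') + 4 * (e0 : ℂ)) := by
      rw [hgq]; ring
    rw [e]
    apply g7ba_add h2
    apply g7ba_le (-y0 + 2 * e0)
    rw [← ey]
    simp only [hsub, map_add, map_mul, map_neg, map_ofNat]
    ring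
  obtain ⟨e1, he1⟩ := g7ba_dvd h2ne hs
  have hc₂ : x' + x + x ^ 2 * x ^ (q / 2) ∈ Ω := add_mem (add_mem hx' hx) (mul_mem (pow_mem hx 2) hg)
  have hm := nf_model hA h (α := x ^ 2) (β := -x) (a := x ^ 2) (a' := 0) (b := x) (b' := x + x')
    (c₂ := x' + x + x ^ 2 * x ^ (q / 2)) (pow_mem hx 2) (neg_mem hx) (pow_mem hx 2) (zero_mem _) hx (add_mem hx hx') hc₂ (by
      apply g7ba_le (-(y0 ^ 2 + 4 * e0 ^ 2 + x0 * y0 - 2 * x0 * e0 - 4 * y0 * e0))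
      have e : (x ^ 2) ^ q = ((x ^ (q / 2)) ^ 2) ^ 2 := by
        rw [g7ba_q h]; ring
      rw [e, hgq, ← ex, ← ey]
      simp only [hsub, map_add, map_mul, map_neg, map_ofNat, map_sub, map_pow]
      ring) (by
      apply g7ba_le (-x0 - y0 + e0)
      rw [← g7ba_q h, hgq, ← ex, ← ey]
      simp only [hsub, map_add, map_mul, map_neg, map_ofNat, map_sub, map_pow]
      ring) (by
      apply g7ba_le (e1 + x0 ^ 4 * (y0 - 2 * e0) + (y0 * x0 + y0 * x0 ^ 2 * g0 + x0 ^ 3 * g0))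
      have e : (x' + x + x ^ 2 * x ^ (q / 2)) ^ 2 - (0 + x ^ (q / 2) + x ^ 2 + (x ^ 2) ^ 2 * x) =
          (x' ^ 2 - x ^ (q / 2)) + x ^ 4 * ((x ^ (q / 2)) ^ 2 - x) + 2 * (x' * x + x' * x ^ 2 * x ^ (q / 2) + x ^ 3 * x ^ (q / 2)) := by ring
      rw [e, he1, hgq, ← eg, ← ex, ← ey]
      simp only [hsub, map_add, map_mul, map_neg, map_ofNat, map_sub, map_pow]
      ring)
  have e : D2 ph x = 1 + x ^ 2 * ph + -x * ph ^ 2 := by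
    unfold D2
    ring
  rw [e]
  refine hm.congr h (pow_mem hx 2) (add_mem (add_mem (add_mem hx (pow_mem hx 4)) (pow_mem hx 7)) (mul_mem (pow_mem hx 2) hg)) ?_ ?_
  · rw [sub_self, map_zero]
    exact zero_le
  · apply g7ba_le (x0 + y0)
    rw [← eg, ← ex, ← ey]
    simp only [hsub, map_add, map_mul, map_neg, map_ofNat, map_sub, map_pow, map_zero]
    ring

theorem g7bb_id (s t b z d c e2 e3 : ℂ) (ht : t ^ 3 = -(z * (1 + 2 * d) + 4 * e2)) (hs : s ^ 4 = s) (hz : z ^ 3 = 1)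
    (hc : c ^ 2 = s * t * (1 + d + z) + 2 * e3) :
    (((b * t ^ 2 + c + s * t * (s * t * (1 + d + z))) + (s * t) ^ 5) ^ 2 + (1 + d + z * d ^ 2) * (s * t)) - z * t * b ^ 2 = 2 * (
    -2*s^2*t^2*z*d*c + s^2*t^2*d*c - 4*s^2*t^2*c*e2 + s^2*t^2*c + 4*s^2*t*b*z^2*d^2 + 2*s^2*t*b*z^2*d - 2*s^2*t*b*z*d^2 + 16*s^2*t*b*z*d*e2 -
    3*s^2*t*b*z*d + 4*s^2*t*b*z*e2 - s^2*t*b*z - 4*s^2*t*b*d*e2 + 16*s^2*t*b*e2^2 - 4*s^2*t*b*e2 + 4*s*t*z^2*d^3 - 24*s*t*z^2*d^2*e2 + 6*s*t*z^2*d^2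
    - 8*s*t*z^2*d*e2 + 2*s*t*z^2*d - s*t*z*d^3 + 16*s*t*z*d^2*e2 - 2*s*t*z*d^2 - 48*s*t*z*d*e2^2 + 20*s*t*z*d*e2 - 2*s*t*z*d - 8*s*t*z*e2^2 +
    4*s*t*z*e2 - 4*s*t*d^3 - 2*s*t*d^2*e2 - 2*s*t*d^2 + 16*s*t*d*e2^2 - 4*s*t*d*e2 + s*t*d - 32*s*t*e2^3 + 16*s*t*e2^2 - 2*s*t*e2 + s*t + t^2*b*c -
    t*b^2*z*d - t*b^2*z - 2*t*b^2*e2 + e3) := by
  linear_combination (
    s^10*t^7 - 2*s^10*t^4*z*d - s^10*t^4*z - 4*s^10*t^4*e2 + 4*s^10*t*z^2*d^2 + 4*s^10*t*z^2*d + s^10*t*z^2 + 16*s^10*t*z*d*e2 + 8*s^10*t*z*e2 +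
    16*s^10*t*e2^2 + 2*s^7*t^4*z + 2*s^7*t^4*d + 2*s^7*t^4 - 4*s^7*t*z^2*d - 2*s^7*t*z^2 - 4*s^7*t*z*d^2 - 6*s^7*t*z*d - 8*s^7*t*z*e2 - 2*s^7*t*z -
    8*s^7*t*d*e2 - 8*s^7*t*e2 + 2*s^5*t^4*b + 2*s^5*t^2*c - 4*s^5*t*b*z*d - 2*s^5*t*b*z - 8*s^5*t*b*e2 + s^4*t*z^2 + 2*s^4*t*z*d + 2*s^4*t*z +
    s^4*t*d^2 + 2*s^4*t*d + s^4*t + 2*s^2*t*b*z + 2*s^2*t*b*d + 2*s^2*t*b + t*b^2) * ht + (
    -8*s^6*t*z^3*d^3 - 12*s^6*t*z^3*d^2 - 6*s^6*t*z^3*d - s^6*t*z^3 - 48*s^6*t*z^2*d^2*e2 - 48*s^6*t*z^2*d*e2 - 12*s^6*t*z^2*e2 - 96*s^6*t*z*d*e2^2 -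
    48*s^6*t*z*e2^2 - 64*s^6*t*e2^3 - 8*s^3*t*z^3*d^3 - 4*s^3*t*z^3*d^2 + 2*s^3*t*z^3*d + s^3*t*z^3 + 8*s^3*t*z^2*d^3 - 48*s^3*t*z^2*d^2*e2 +
    16*s^3*t*z^2*d^2 - 16*s^3*t*z^2*d*e2 + 10*s^3*t*z^2*d + 4*s^3*t*z^2*e2 + 2*s^3*t*z^2 + 32*s^3*t*z*d^2*e2 - 96*s^3*t*z*d*e2^2 + 48*s^3*t*z*d*e2 -
    16*s^3*t*z*e2^2 + 16*s^3*t*z*e2 + 32*s^3*t*d*e2^2 - 64*s^3*t*e2^3 + 32*s^3*t*e2^2 - 4*s*t^2*z*d*c - 2*s*t^2*z*c - 8*s*t^2*c*e2 + 8*s*t*b*z^2*d^2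
    + 8*s*t*b*z^2*d + 2*s*t*b*z^2 + 32*s*t*b*z*d*e2 + 16*s*t*b*z*e2 + 32*s*t*b*e2^2 - 8*t*z^3*d^3 - 4*t*z^3*d^2 + 8*t*z^2*d^3 - 48*t*z^2*d^2*e2 +
    12*t*z^2*d^2 - 16*t*z^2*d*e2 + 4*t*z^2*d - 2*t*z*d^3 + 32*t*z*d^2*e2 - 5*t*z*d^2 - 96*t*z*d*e2^2 + 40*t*z*d*e2 - 4*t*z*d - 16*t*z*e2^2 + 8*t*z*e2
    - t*z - 4*t*d^2*e2 + 32*t*d*e2^2 - 8*t*d*e2 - 64*t*e2^3 + 32*t*e2^2 - 4*t*e2) * hs + (
    -8*s*t*d^3 - 4*s*t*d^2) * hz + (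
    1) * hc

include hA in
/-- [G7b.3] `s = θ ϕ`, `θ³ = - D₀`, `D₀ ≡ ζ (1 + 2 δ) mod 4`, `θ ≡ [θ] + 2 θ (1 + δ)`, `D = 2 D₀`, `α⁴ = α`, `b⁴ = b`:
`F = 1 + α s + α³ D + 2 b s²`; after division by `1 + 2 α³ D₀`: `a = α θ`, `a' = α θ (1 + δ + α³ ζ)`, `β = 2 b θ²`. The additive functional
`(B + a⁵)² + (1 + δ + ζ δ²) a` is `ζ θ b²` (`θ³ ≡ ζ`, `θ⁴ ≡ ζ θ`, `θ^10 ≡ θ`, `α² α^8 = α`). -/
theorem nf_F (h : Unr A q Ω) {θ α b D₀ ζ δ : ℂ} (hθ : θ ∈ Ω) (hα : α ∈ Ω) (hb : b ∈ Ω) (hD : D₀ ∈ Ω) (hζ : ζ ∈ Ω) (hδ : δ ∈ Ω)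
    (h3 : θ ^ 3 = -D₀) (hz : ζ ^ 3 = 1) (hd : A.valuation (D₀ - ζ * (1 + 2 * δ)) ≤ A.valuation 4)
    (ht : A.valuation (θ - θ ^ q - 2 * (θ * (1 + δ))) ≤ A.valuation 4) (hα4 : α ^ 4 = α) (hb4 : b ^ 4 = b) :
    ∃ a B, NF A q Ω (1 + α * (θ * ph) + α ^ 3 * (2 * D₀) + 2 * b * (θ * ph) ^ 2) a B ∧
      A.valuation (((B + a ^ 5) ^ 2 + (1 + δ + ζ * δ ^ 2) * a) - ζ * θ * b ^ 2) ≤ A.valuation 2 := by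
  have iθ := h.le θ hθ
  have iα := h.le α hα
  have ib := h.le b hb
  have iζ := h.le ζ hζ
  have iδ := h.le δ hδ
  have iD := h.le D₀ hD
  have h2ne : (2 : ℂ) ≠ 0 := two_ne_zero
  have h4ne : (4 : ℂ) ≠ 0 := by norm_num
  have h2m : (2 : ℂ) ∈ Ω := by
    have : (2 : ℂ) = 1 + 1 := by norm_num
    rw [this]
    exact add_mem (one_mem _) (one_mem _)
  obtain ⟨e2, he2⟩ := g7ba_dvd h4ne hd
  obtain ⟨e1, he1⟩ := g7ba_dvd h4ne ht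
  obtain ⟨P, hP⟩ := g7ba_lift (ph_lt A hA).le
  obtain ⟨t0, et⟩ := g7ba_lift iθ
  obtain ⟨s0, es⟩ := g7ba_lift iα
  obtain ⟨b0, eb⟩ := g7ba_lift ib
  obtain ⟨z0, ez⟩ := g7ba_lift iζ
  obtain ⟨d0, ed⟩ := g7ba_lift iδ
  obtain ⟨D1, eD⟩ := g7ba_lift iD
  have hsub : ∀ t : A, (t : ℂ) = A.subtype t := fun _ => rfl
  -- `α ^ q = α`
  have hαq : α ^ q = α := by
    obtain ⟨n, hn⟩ := h.q4
    have hk : ∀ k : ℕ, α ^ (4 ^ k) = α := by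
      intro k
      induction k with
      | zero => simp
      | succ k ih => rw [pow_succ, pow_mul, ih, hα4]
    rw [hn, hk]
  have hq0 : q ≠ 0 := by
    obtain ⟨n, hn⟩ := h.q4
    rw [hn]
    positivity
  have hq2 : q / 2 ≠ 0 := by
    obtain ⟨n, hn⟩ := h.q4
    have h1 : 4 ≤ q := by
      rw [hn]
      calc 4 = 4 ^ 1 := by norm_num
        _ ≤ 4 ^ (n + 1) := Nat.pow_le_pow_right (by norm_num) (by omega)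
    omega
  have ham : α * θ ∈ Ω := mul_mem hα hθ
  have ha'm : α * θ * (1 + δ + ζ) ∈ Ω := mul_mem ham (add_mem (add_mem (one_mem _) hδ) hζ)
  have hcm : (α * θ * (1 + δ + ζ)) ^ (q / 2) ∈ Ω := pow_mem ha'm _
  obtain ⟨c0, ec⟩ := g7ba_lift (h.le _ hcm)
  obtain ⟨e3, he3⟩ := g7ba_dvd h2ne (h.fr2 ha'm)
  have htm : 1 - 2 * (α ^ 3 * D₀) ∈ Ω := sub_mem (one_mem _) (mul_mem h2m (mul_mem (pow_mem hα 3) hD))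
  have ht1 : A.valuation (1 - 2 * (α ^ 3 * D₀)) = 1 := by
    rw [sub_eq_add_neg]
    apply Valuation.map_one_add_of_lt
    rw [Valuation.map_neg, map_mul, map_mul, map_pow]
    exact mul_lt_one_of_lt_of_le hA (mul_le_one' (pow_le_one₀ zero_le iα) iD)
  have hcc : ((α * θ * (1 + δ + ζ)) ^ (q / 2)) ^ 2 = α * θ * (1 + δ + ζ) + 2 * (e3 : ℂ) := by
    rw [g7ba_q h]
    linear_combination he3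
  have hm := nf_model hA h (α := α * θ * (1 - 2 * (α ^ 3 * D₀))) (β := 2 * b * θ ^ 2) (a := α * θ) (a' := α * θ * (1 + δ + ζ)) (b := 0)
    (b' := b * θ ^ 2) (c₂ := (α * θ * (1 + δ + ζ)) ^ (q / 2)) (mul_mem ham htm) (mul_mem (mul_mem h2m hb) (pow_mem hθ 2)) ham ha'm
    (zero_mem _) (mul_mem hb (pow_mem hθ 2)) hcm (by
      apply g7ba_le (-(s0 * t0 * (z0 + z0 * d0 + 2 * e2)) + s0 * e1)
      have e : (α * θ) ^ q = α * (θ - 2 * (θ * (1 + δ)) - 4 * (e1 : ℂ)) := by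
        rw [mul_pow, hαq]
        linear_combination (-α) * he1
      have key : α * θ * (1 - 2 * (α ^ 3 * D₀)) - ((α * θ) ^ q + 2 * (α * θ * (1 + δ + ζ))) =
          4 * (-(α * θ * (ζ + ζ * δ + 2 * (e2 : ℂ))) + α * (e1 : ℂ)) := by
        rw [e]
        linear_combination (-2 * α * θ) * he2 - 2 * θ * D₀ * hα4
      rw [key, ← es, ← et, ← ez, ← ed]
      simp only [hsub, map_add, map_mul, map_neg, map_ofNat]) (by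
      rw [zero_pow hq0]
      have e : 2 * b * θ ^ 2 - (0 + 2 * (b * θ ^ 2)) = 0 := by ring
      rw [e, map_zero]
      exact zero_le) (by
      rw [zero_pow hq2, hcc]
      apply g7ba_le e3
      ring)
  have hn : NF A q Ω ((1 + α * (θ * ph) + α ^ 3 * (2 * D₀) + 2 * b * (θ * ph) ^ 2) * (1 - 2 * (α ^ 3 * D₀)) * 1 ^ 2) (α * θ)
      (b * θ ^ 2 + 0 + (α * θ * (1 + δ + ζ)) ^ (q / 2) + α * θ * (α * θ * (1 + δ + ζ)) + α * θ * 0 ^ 2 + (α * θ) ^ 3 * 0) := by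
    refine hm.congr_u h ?_
    apply g7ba_le (s0 ^ 6 * D1 ^ 2 + b0 * t0 ^ 2 * s0 ^ 3 * D1 * P ^ 2)
    have e : 1 + α * θ * (1 - 2 * (α ^ 3 * D₀)) * ph + 2 * b * θ ^ 2 * ph ^ 2 -
        (1 + α * (θ * ph) + α ^ 3 * (2 * D₀) + 2 * b * (θ * ph) ^ 2) * (1 - 2 * (α ^ 3 * D₀)) * 1 ^ 2 =
        4 * (α ^ 6 * D₀ ^ 2 + b * θ ^ 2 * α ^ 3 * D₀ * ph ^ 2) := by ring
    rw [e, ← es, ← et, ← eb, ← eD, ← hP]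
    simp only [hsub, map_add, map_mul, map_pow]
  have h1m : InL Ω (1 : ℂ) := InL.of (one_mem _)
  refine ⟨_, _, hn.of_mul_sq h htm ht1 h1m (map_one _), ?_⟩
  have e5 : b * θ ^ 2 + 0 + (α * θ * (1 + δ + ζ)) ^ (q / 2) + α * θ * (α * θ * (1 + δ + ζ)) + α * θ * 0 ^ 2 + (α * θ) ^ 3 * 0 =
      b * θ ^ 2 + (α * θ * (1 + δ + ζ)) ^ (q / 2) + α * θ * (α * θ * (1 + δ + ζ)) := by ring
  have h3' : θ ^ 3 = -(ζ * (1 + 2 * δ) + 4 * (e2 : ℂ)) := by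
    linear_combination h3 - he2
  rw [e5, g7bb_id α θ b ζ δ _ e2 e3 h3' hα4 hz hcc, ← ec, ← es, ← et, ← eb, ← ez, ← ed]
  apply g7ba_le ((fun s t b z d c e2 e3 : A =>
      -2*s^2*t^2*z*d*c + s^2*t^2*d*c - 4*s^2*t^2*c*e2 + s^2*t^2*c + 4*s^2*t*b*z^2*d^2 + 2*s^2*t*b*z^2*d - 2*s^2*t*b*z*d^2 + 16*s^2*t*b*z*d*e2 -
      3*s^2*t*b*z*d + 4*s^2*t*b*z*e2 - s^2*t*b*z - 4*s^2*t*b*d*e2 + 16*s^2*t*b*e2^2 - 4*s^2*t*b*e2 + 4*s*t*z^2*d^3 - 24*s*t*z^2*d^2*e2 +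
      6*s*t*z^2*d^2 - 8*s*t*z^2*d*e2 + 2*s*t*z^2*d - s*t*z*d^3 + 16*s*t*z*d^2*e2 - 2*s*t*z*d^2 - 48*s*t*z*d*e2^2 + 20*s*t*z*d*e2 - 2*s*t*z*d -
      8*s*t*z*e2^2 + 4*s*t*z*e2 - 4*s*t*d^3 - 2*s*t*d^2*e2 - 2*s*t*d^2 + 16*s*t*d*e2^2 - 4*s*t*d*e2 + s*t*d - 32*s*t*e2^3 + 16*s*t*e2^2 - 2*s*t*e2 +
      s*t + t^2*b*c - t*b^2*z*d - t*b^2*z - 2*t*b^2*e2 + e3) s0 t0 b0 z0 d0 c0 e2 e3)
  simp only [hsub, map_add, map_sub, map_mul, map_pow, map_neg, map_ofNat]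

end J2L
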