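import Pool.Agent.J2L.E1

/-!
# [J2L-N0] units of norm `1` of `ℚ(ω, ∛D)`, the Galois group, valuations of elements of `ℚ(ω, ∛D)` above `2`
-/

set_option autoImplicit false

open NumberField IsDedekindDomain Filter Topology
open scoped Classical ComplexConjugate

namespace J2L

open CM27 JZ
open CU (la eE om)
open CUL (Nl)

variable {D : Eis}

/-- An integral element of norm `1` (a unit) of `ℚ(ω, ∛D)`. -/
def N1 (D : Eis) (u : ℂ) : Prop := IsIntegral ℤ u ∧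
  ∃ u₀ u₁ u₂ : ℂ, u₀ ∈ CF.KK ∧ u₁ ∈ CF.KK ∧ u₂ ∈ CF.KK ∧ u = u₀ + u₁ * JT.cD D + u₂ * JT.cD D ^ 2 ∧
    (u₀ + u₁ * JT.cD D + u₂ * JT.cD D ^ 2) * (u₀ + u₁ * (w * JT.cD D) + u₂ * (w * JT.cD D) ^ 2) *
      (u₀ + u₁ * (w ^ 2 * JT.cD D) + u₂ * (w ^ 2 * JT.cD D) ^ 2) = 1

theorem n0a_sigKK {σ : ℂ ≃+* ℂ} (hσ : σ w = w) {z : ℂ} (hz : z ∈ CF.KK) : σ z = z := by
  obtain ⟨x, y, rfl⟩ := (CUL.mem_KK z).1 hz
  rw [map_add, map_mul, hσ, map_ratCast, map_ratCast]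

theorem n0a_int (σ : ℂ ≃+* ℂ) {z : ℂ} (hz : IsIntegral ℤ z) : IsIntegral ℤ (σ z) :=
  hz.map (σ : ℂ →+* ℂ).toIntAlgHom

theorem n0a_two {σ : ℂ ≃+* ℂ} (hσ : σ w = w) (hs : σ (JT.cD D) = w * JT.cD D) {u₀ u₁ u₂ : ℂ} (h0 : u₀ ∈ CF.KK)
    (h1 : u₁ ∈ CF.KK) (h2 : u₂ ∈ CF.KK) :
    σ (u₀ + u₁ * JT.cD D + u₂ * JT.cD D ^ 2) = u₀ + u₁ * (w * JT.cD D) + u₂ * (w * JT.cD D) ^ 2 ∧
    σ (σ (u₀ + u₁ * JT.cD D + u₂ * JT.cD D ^ 2)) = u₀ + u₁ * (w ^ 2 * JT.cD D) + u₂ * (w ^ 2 * JT.cD D) ^ 2 := by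
  have e1 : σ (u₀ + u₁ * JT.cD D + u₂ * JT.cD D ^ 2) = u₀ + u₁ * (w * JT.cD D) + u₂ * (w * JT.cD D) ^ 2 := by
    rw [map_add, map_add, map_mul, map_mul, map_pow, hs, n0a_sigKK hσ h0, n0a_sigKK hσ h1, n0a_sigKK hσ h2]
  refine ⟨e1, ?_⟩
  rw [e1]
  simp only [map_add, map_mul, map_pow, hs, hσ, n0a_sigKK hσ h0, n0a_sigKK hσ h1, n0a_sigKK hσ h2]
  ring

/-- `-1` is not a square in `ℚ(ω)` -/
theorem n0b_sq {z : ℂ} (hz : z ∈ CF.KK) : z ^ 2 ≠ -1 := by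
  obtain ⟨x, y, rfl⟩ := (CUL.mem_KK z).1 hz
  intro h
  have h1 : (((x ^ 2 - y ^ 2 + 1 : ℚ) : ℝ) : ℂ) + (((2 * x * y - y ^ 2 : ℚ) : ℝ) : ℂ) * w = 0 := by
    push_cast
    linear_combination h - (y : ℂ) ^ 2 * CUL.w2
  have h2 := congrArg Complex.im h1
  have h3 := congrArg Complex.re h1
  rw [Complex.add_im, Complex.ofReal_im, Complex.im_ofReal_mul, w_im, zero_add, Complex.zero_im] at h2
  have h3' : (2 * x * y - y ^ 2 : ℚ) = 0 := by
    rcases mul_eq_zero.1 h2 with h4 | h4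
    · exact_mod_cast h4
    · exfalso
      have : 0 < √3 := by positivity
      linarith
  rw [h3', Rat.cast_zero, Complex.ofReal_zero, zero_mul, add_zero, Complex.ofReal_re, Complex.zero_re] at h3
  have h4 : (x ^ 2 - y ^ 2 + 1 : ℚ) = 0 := by exact_mod_cast h3
  have h5 : y * (2 * x - y) = 0 := by linear_combination h3'
  rcases mul_eq_zero.1 h5 with h6 | h6
  · rw [h6] at h4
    nlinarith [sq_nonneg x]
  · have h7 : (3 * x) ^ 2 = 3 := by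
      have h8 : y = 2 * x := by linarith
      rw [h8] at h4
      linear_combination -3 * h4
    have h9 : Irrational √3 := Nat.prime_three.irrational_sqrt
    apply h9
    refine ⟨|3 * x|, ?_⟩
    have h10 : ((|3 * x| : ℚ) : ℝ) ^ 2 = 3 := by
      rw [← Rat.cast_pow, sq_abs, h7]
      norm_num
    rw [← h10, Real.sqrt_sq]
    exact_mod_cast abs_nonneg (3 * x)

theorem n0b_no {σ : ℂ ≃+* ℂ} (hσ : σ w = w) (hs : σ (JT.cD D) = w * JT.cD D) {Y : ℂ} (hY : Y ∈ JT.KM D)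
    (h : (Y * σ Y * σ (σ Y)) ^ 2 = -1) : False := by
  obtain ⟨u₀, u₁, u₂, h0, h1, h2, hu⟩ := (J2N.mem_KM Y).1 hY
  obtain ⟨e1, e2⟩ := n0a_two hσ hs h0 h1 h2
  rw [← hu] at e1 e2
  refine n0b_sq ?_ h
  have e3 : Y * σ Y * σ (σ Y) = u₀ ^ 3 + u₁ ^ 3 * emb D + u₂ ^ 3 * emb D ^ 2 - 3 * u₀ * u₁ * u₂ * emb D := by
    rw [e2, e1, hu, ← JT.cD_cube D]
    generalize JT.cD D = t
    have hP : w ^ 2 + w + 1 = 0 := by rw [CUL.w2]; ring
    linear_combination (u₀ + u₁ * t + u₂ * t ^ 2) * (u₀ * (u₁ * t) + u₀ * (u₂ * t ^ 2) * (w ^ 2 - w + 1) + (u₁ * t) ^ 2 * (w - 1) +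
      (u₁ * t) * (u₂ * t ^ 2) * (w ^ 3 - w + 1) + (u₂ * t ^ 2) ^ 2 * (w ^ 3 + 1) * (w - 1)) * hP
  have hD : emb D ∈ CF.KK := by
    rw [emb_apply]
    exact add_mem (intCast_mem _ _) (mul_mem (intCast_mem _ _) CF.d2_w_mem)
  rw [e3]
  have h3 : (3 : ℂ) ∈ CF.KK := by exact_mod_cast natCast_mem CF.KK 3
  exact sub_mem (add_mem (add_mem (pow_mem h0 3) (mul_mem (pow_mem h1 3) hD)) (mul_mem (pow_mem h2 3) (pow_mem hD 2)))
    (mul_mem (mul_mem (mul_mem (mul_mem h3 h0) h1) h2) hD)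

theorem n0c_norm_odd {b : Eis} (hb : ¬ (2 : Eis) ∣ b) : ¬ (2 : ℤ) ∣ b.norm := by
  rw [Q3.qr1_two_dvd] at hb
  rw [norm_eq]
  intro h
  apply hb
  obtain ⟨c, hc⟩ := h
  rcases Int.emod_two_eq_zero_or_one b.re with h1 | h1 <;> rcases Int.emod_two_eq_zero_or_one b.im with h2 | h2
  · exact ⟨h1, h2⟩
  · exfalso
    obtain ⟨m, hm⟩ : ∃ m, b.re = 2 * m := ⟨b.re / 2, by omega⟩
    obtain ⟨n, hn⟩ : ∃ n, b.im = 2 * n + 1 := ⟨b.im / 2, by omega⟩
    rw [hm, hn] at hc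
    have : 2 * (2 * m ^ 2 - 2 * m * n - m + 2 * n ^ 2 + 2 * n - c) = -1 := by linear_combination hc
    omega
  · exfalso
    obtain ⟨m, hm⟩ : ∃ m, b.re = 2 * m + 1 := ⟨b.re / 2, by omega⟩
    obtain ⟨n, hn⟩ : ∃ n, b.im = 2 * n := ⟨b.im / 2, by omega⟩
    rw [hm, hn] at hc
    have : 2 * (2 * m ^ 2 + 2 * m - 2 * m * n - n + 2 * n ^ 2 - c) = -1 := by linear_combination hc
    omega
  · exfalso
    obtain ⟨m, hm⟩ : ∃ m, b.re = 2 * m + 1 := ⟨b.re / 2, by omega⟩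
    obtain ⟨n, hn⟩ : ∃ n, b.im = 2 * n + 1 := ⟨b.im / 2, by omega⟩
    rw [hm, hn] at hc
    have : 2 * (2 * m ^ 2 + 2 * m - 2 * m * n - m - n + 2 * n ^ 2 + 2 * n - c) = -1 := by linear_combination hc
    omega

theorem n0c_int (A : ValuationSubring ℂ) (hA : A.valuation 2 < 1) {n : ℕ} (hn : n ≠ 0) :
    A.valuation (n : ℂ) = A.valuation 2 ^ padicValNat 2 n := by
  have hp2 : Fact (Nat.Prime 2) := ⟨Nat.prime_two⟩
  obtain ⟨m, hm⟩ := pow_padicValNat_dvd (p := 2) (n := n)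
  have hm2 : ¬ 2 ∣ m := by
    intro h2
    obtain ⟨c, rfl⟩ := h2
    have h3 : 2 ^ (padicValNat 2 n + 1) ∣ n := ⟨c, by rw [pow_succ, mul_assoc]; exact hm⟩
    have h4 := (padicValNat_dvd_iff_le hn).1 h3
    omega
  have h1 : A.valuation (m : ℂ) = 1 := by
    have h5 := CM27.val_odd A hA (m : ℤ) (by rw [Int.odd_iff]; omega)
    rwa [Int.cast_natCast] at h5
  have h2 : (n : ℂ) = 2 ^ padicValNat 2 n * m := by exact_mod_cast congrArg (Nat.cast : ℕ → ℂ) hm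
  rw [h2, map_mul, h1, mul_one, map_pow]

theorem n0d_val (A : ValuationSubring ℂ) {y : ℂ} (hy : IsIntegral ℤ y) : A.valuation y ≤ 1 := by
  rw [ValuationSubring.valuation_le_one_iff]
  have h1 : IsIntegral A y := hy.tower_top
  obtain ⟨a, ha⟩ := (IsIntegrallyClosed.isIntegral_iff (R := A) (K := ℂ)).1 h1
  rw [← ha]
  exact a.2

/-- [N0.1] an automorphism of `ℂ` with `ω ↦ ω`, `∛D ↦ ω ∛D` (`J2N.exists_Cy`, extended to `ℂ`; or from `J2N.rep_unique`). -/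
theorem exists_sig (hc : ¬ ∃ x : Eis, x ^ 3 = D) : ∃ σ : ℂ ≃+* ℂ, σ w = w ∧ σ (JT.cD D) = w * JT.cD D := by
  obtain ⟨c, -, hc2⟩ := J2N.exists_Cy hc
  have hwm : w ∈ JT.KM D := IntermediateField.subset_adjoin ℚ _ (Set.mem_insert _ _)
  have hsm : JT.cD D ∈ JT.KM D := IntermediateField.subset_adjoin ℚ _ (Set.mem_insert_of_mem _ (Set.mem_singleton _))
  have h1 : ((c.σ ⟨w, hwm⟩ : JT.KM D) : ℂ) = w := by
    have h := hc2 w 0 0 CF.d2_w_mem (zero_mem _) (zero_mem _) ⟨w, hwm⟩ (by simp)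
    rw [h]
    ring
  have h2 : ((c.σ ⟨JT.cD D, hsm⟩ : JT.KM D) : ℂ) = w * JT.cD D := by
    have h := hc2 0 1 0 (zero_mem _) (one_mem _) (zero_mem _) ⟨JT.cD D, hsm⟩ (by simp)
    rw [h]
    ring
  obtain ⟨σ, hσ⟩ := CF.extend_aut (JT.KM D) hwm (c.σ : JT.KM D ≃+* JT.KM D) (Subtype.ext h1)
  refine ⟨σ, ?_, ?_⟩
  · exact (hσ ⟨w, hwm⟩).trans h1
  · exact (hσ ⟨JT.cD D, hsm⟩).trans h2

/-- `σ` fixes `KK`, so it maps `u₀ + u₁ s + u₂ s²` to `u₀ + u₁ (w s) + u₂ (w s)²`. -/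
theorem sig_rep {σ : ℂ ≃+* ℂ} (hσ : σ w = w) {i : ℕ} (hs : σ (JT.cD D) = w ^ i * JT.cD D) {u₀ u₁ u₂ : ℂ} (h0 : u₀ ∈ CF.KK)
    (h1 : u₁ ∈ CF.KK) (h2 : u₂ ∈ CF.KK) : σ (u₀ + u₁ * JT.cD D + u₂ * JT.cD D ^ 2) =
      u₀ + u₁ * (w ^ i * JT.cD D) + u₂ * (w ^ i * JT.cD D) ^ 2 := by
  rw [map_add, map_add, map_mul, map_mul, map_pow, hs, n0a_sigKK hσ h0, n0a_sigKK hσ h1, n0a_sigKK hσ h2]

/-- [N0.2] `N1 D u` iff `u` is an integral element of `KM D` with `u σ(u) σ²(u) = 1`. -/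
theorem n1_iff {σ : ℂ ≃+* ℂ} (hσ : σ w = w) (hs : σ (JT.cD D) = w * JT.cD D) (u : ℂ) :
    N1 D u ↔ IsIntegral ℤ u ∧ u ∈ JT.KM D ∧ u * σ u * σ (σ u) = 1 := by
  constructor
  · rintro ⟨hi, u₀, u₁, u₂, h0, h1, h2, hu, hp⟩
    obtain ⟨e1, e2⟩ := n0a_two hσ hs h0 h1 h2
    refine ⟨hi, (J2N.mem_KM u).2 ⟨u₀, u₁, u₂, h0, h1, h2, hu⟩, ?_⟩
    rw [hu, e2, e1]
    exact hp
  · rintro ⟨hi, hm, hp⟩
    obtain ⟨u₀, u₁, u₂, h0, h1, h2, hu⟩ := (J2N.mem_KM u).1 hm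
    obtain ⟨e1, e2⟩ := n0a_two hσ hs h0 h1 h2
    refine ⟨hi, u₀, u₁, u₂, h0, h1, h2, hu, ?_⟩
    rw [hu, e2, e1] at hp
    exact hp

/-- [N0.3] the units of norm `1` form a group, stable under `σ`; the inverse is `σ(u) σ²(u)`. -/
theorem N1.isU (hc : ¬ ∃ x : Eis, x ^ 3 = D) {u : ℂ} (h : N1 D u) : IsU D u := by
  obtain ⟨σ, hσ, hs⟩ := exists_sig hc
  obtain ⟨hi, hm, hp⟩ := (n1_iff hσ hs u).1 h
  have h0 : u ≠ 0 := by
    intro h0
    rw [h0, zero_mul, zero_mul] at hp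
    exact zero_ne_one hp
  refine ⟨hm, h0, hi, ?_⟩
  rw [mul_assoc] at hp
  rw [inv_eq_of_mul_eq_one_right hp]
  exact (n0a_int σ hi).mul (n0a_int σ (n0a_int σ hi))

theorem N1.mul (hc : ¬ ∃ x : Eis, x ^ 3 = D) {u v : ℂ} (h : N1 D u) (h' : N1 D v) : N1 D (u * v) := by
  obtain ⟨σ, hσ, hs⟩ := exists_sig hc
  obtain ⟨hi, hm, hp⟩ := (n1_iff hσ hs u).1 h
  obtain ⟨hi', hm', hp'⟩ := (n1_iff hσ hs v).1 h'
  refine (n1_iff hσ hs (u * v)).2 ⟨hi.mul hi', mul_mem hm hm', ?_⟩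
  rw [map_mul, map_mul]
  linear_combination (v * σ v * σ (σ v)) * hp + hp'

theorem N1.inv (hc : ¬ ∃ x : Eis, x ^ 3 = D) {u : ℂ} (h : N1 D u) : N1 D u⁻¹ := by
  obtain ⟨σ, hσ, hs⟩ := exists_sig hc
  obtain ⟨hi, hm, hp⟩ := (n1_iff hσ hs u).1 h
  refine (n1_iff hσ hs u⁻¹).2 ⟨(h.isU hc).2.2.2, inv_mem hm, ?_⟩
  rw [map_inv₀, map_inv₀, ← mul_inv, ← mul_inv, hp, inv_one]

theorem N1.zpow (hc : ¬ ∃ x : Eis, x ^ 3 = D) {u : ℂ} (h : N1 D u) (n : ℤ) : N1 D (u ^ n) := by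
  obtain ⟨σ, hσ, hs⟩ := exists_sig hc
  have hpow : ∀ k : ℕ, N1 D (u ^ k) := by
    intro k
    induction k with
    | zero =>
      rw [pow_zero]
      refine (n1_iff hσ hs 1).2 ⟨isIntegral_one, one_mem _, ?_⟩
      rw [map_one, map_one, one_mul, one_mul]
    | succ k ih =>
      rw [pow_succ]
      exact ih.mul hc h
  rcases n with n | n
  · rw [Int.ofNat_eq_natCast, zpow_natCast]
    exact hpow n
  · rw [zpow_negSucc]
    exact (hpow (n + 1)).inv hc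

/-- [N0.4] `norm (z) ^ m = norm (z ^ m)`: a unit `z` of `KM D` with `z ^ (2 m) = 1`, `m` odd, of norm `1` satisfies `z ^ m = 1` (not `-1`: the norm of `-1` is `-1`), so it is
the square of the unit `z ^ ((m + 1)/2)`. -/
theorem root_sq (hc : ¬ ∃ x : Eis, x ^ 3 = D) {z : ℂ} {m : ℕ} (hm : Odd m) (hz : z ^ (2 * m) = 1) (h : N1 D z) :
    ∃ y, IsU D y ∧ z = y ^ 2 := by
  obtain ⟨σ, hσ, hs⟩ := exists_sig hc
  obtain ⟨k, hk⟩ := hm
  have hpw : ∀ n : ℕ, N1 D (z ^ n) := fun n => by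
    have h1 := h.zpow hc (n : ℤ)
    rwa [zpow_natCast] at h1
  have h1 : (z ^ m - 1) * (z ^ m + 1) = 0 := by
    rw [mul_comm 2 m, pow_mul] at hz
    linear_combination hz
  rcases mul_eq_zero.1 h1 with h2 | h2
  · refine ⟨z ^ (k + 1), (hpw _).isU hc, ?_⟩
    rw [← pow_mul, show (k + 1) * 2 = m + 1 by omega, pow_succ, sub_eq_zero.1 h2, one_mul]
  · exfalso
    have h3 := hpw m
    rw [eq_neg_of_add_eq_zero_left h2] at h3
    have h4 := ((n1_iff hσ hs (-1)).1 h3).2.2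
    rw [map_neg, map_one, map_neg, map_one] at h4
    norm_num at h4

/-- `u = z y²` of norm `1`: `z ^ m = ± 1`; `z ^ m = -1` gives `- u = Y²`, so the norm `N(Y) ∈ ℚ(ω)` has square `-1`, impossible. -/
theorem sq_of (hc : ¬ ∃ x : Eis, x ^ 3 = D) {u y z : ℂ} {m : ℕ} (hm : Odd m) (hz : z ^ (2 * m) = 1) (h : N1 D u) (hy : IsU D y)
    (he : u = z * y ^ 2) : ∃ Y, IsU D Y ∧ u = Y ^ 2 := by
  obtain ⟨σ, hσ, hs⟩ := exists_sig hc
  obtain ⟨k, hk⟩ := hm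
  obtain ⟨hym, hy0, hyi, hyi'⟩ := hy
  have hz0 : z ≠ 0 := by
    intro h0
    rw [h0, zero_pow (by omega)] at hz
    exact zero_ne_one hz
  have hzm : z ∈ JT.KM D := by
    have e : z = u * (y ^ 2)⁻¹ := by
      rw [he]
      field_simp
    rw [e]
    exact mul_mem (h.isU hc).1 (inv_mem (pow_mem hym 2))
  have hzi : IsIntegral ℤ z := IsIntegral.of_pow (n := 2 * m) (by omega) (by rw [hz]; exact isIntegral_one)
  have hzi' : IsIntegral ℤ z⁻¹ := IsIntegral.of_pow (n := 2 * m) (by omega) (by rw [inv_pow, hz, inv_one]; exact isIntegral_one)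
  have hY : IsU D (z ^ (k + 1) * y) := by
    refine ⟨mul_mem (pow_mem hzm _) hym, mul_ne_zero (pow_ne_zero _ hz0) hy0, (hzi.pow _).mul hyi, ?_⟩
    rw [mul_inv, ← inv_pow]
    exact (hzi'.pow _).mul hyi'
  have h1 : (z ^ m - 1) * (z ^ m + 1) = 0 := by
    rw [mul_comm 2 m, pow_mul] at hz
    linear_combination hz
  have h5 : (z ^ (k + 1) * y) ^ 2 = z ^ m * (z * y ^ 2) := by
    rw [mul_pow, ← pow_mul, show (k + 1) * 2 = m + 1 by omega, pow_succ]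
    ring
  rcases mul_eq_zero.1 h1 with h2 | h2
  · refine ⟨z ^ (k + 1) * y, hY, ?_⟩
    rw [h5, he, sub_eq_zero.1 h2, one_mul]
  · exfalso
    rw [eq_neg_of_add_eq_zero_left h2, ← he] at h5
    have h6 : u = -(z ^ (k + 1) * y) ^ 2 := by rw [h5]; ring
    have h7 := ((n1_iff hσ hs u).1 h).2.2
    rw [h6, map_neg, map_pow, map_neg, map_pow] at h7
    exact n0b_no hσ hs hY.1 (by linear_combination -h7)

/-- [N0.5] elements of `ℚ(ω)` at a valuation ring above `2` (as `CUL.val_KK`): `2` is inert. -/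
theorem val_KK2 (A : ValuationSubring ℂ) (hA : A.valuation 2 < 1) {z : ℂ} (hz : z ∈ CF.KK) (h0 : z ≠ 0) :
    ∃ (q : ℚ) (n : ℤ), 0 < q ∧ z * conj z = q ∧ padicValRat 2 q = 2 * n ∧ A.valuation z = A.valuation 2 ^ n := by
  have hp2 : Fact (Nat.Prime 2) := ⟨Nat.prime_two⟩
  have hB : A.valuation (emb 2) < 1 := by rw [map_ofNat]; exact hA
  have h1 : ∃ (n : ℕ) (a : Eis), n ≠ 0 ∧ (n : ℂ) * z = emb a := by
    obtain ⟨x, y, rfl⟩ := (CUL.mem_KK z).1 hz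
    refine ⟨x.den * y.den, ⟨x.num * y.den, y.num * x.den⟩,
      mul_ne_zero x.den_nz y.den_nz, ?_⟩
    rw [emb_apply]
    have hx : (x : ℂ) * x.den = x.num := by exact_mod_cast Rat.mul_den_eq_num x
    have hy : (y : ℂ) * y.den = y.num := by exact_mod_cast Rat.mul_den_eq_num y
    push_cast
    rw [← hx, ← hy]
    ring
  obtain ⟨n, a, hn, hna⟩ := h1
  have hnC : (n : ℂ) ≠ 0 := Nat.cast_ne_zero.2 hn
  have hnQ : (n : ℚ) ≠ 0 := Nat.cast_ne_zero.2 hn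
  have hza : z = emb a / n := by rw [← hna]; field_simp
  have ha : a ≠ 0 := by
    rintro rfl
    rw [map_zero, zero_div] at hza
    exact h0 hza
  obtain ⟨k, b, hab, hb⟩ : ∃ (k : ℕ) (b : Eis), a = 2 ^ k * b ∧ ¬ (2 : Eis) ∣ b := by
    have := eis_isDomain
    have := eis_pid
    obtain ⟨b, hb, hnb⟩ := (FiniteMultiplicity.of_prime_left Q3.prime_two ha).exists_eq_pow_mul_and_not_dvd
    exact ⟨_, b, hb, hnb⟩
  have hb0 : b ≠ 0 := by
    rintro rfl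
    exact hb (dvd_zero _)
  have hnorm2 : (2 : Eis).norm = 4 := by
    rw [norm_eq]
    rfl
  have hnorm : a.norm = 4 ^ k * b.norm := by
    rw [hab, map_mul, map_pow, hnorm2]
  have hbn : 0 < b.norm := a1_norm_pos hb0
  have han : 0 < a.norm := a1_norm_pos ha
  have hbu : A.valuation (emb b) = 1 := J2E.U4a_unit Q3.prime_two hB hb
  refine ⟨(a.norm : ℚ) / (n : ℚ) ^ 2, (k : ℤ) - (padicValNat 2 n : ℤ), ?_, ?_, ?_, ?_⟩
  · have h3 : (0 : ℚ) < a.norm := by exact_mod_cast han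
    positivity
  · have h4 : emb a * conj (emb a) = (a.norm : ℂ) := by
      rw [Complex.mul_conj, normSq_emb]
      push_cast
      rfl
    have hc : conj (n : ℂ) = (n : ℂ) := Complex.conj_natCast n
    rw [hza, map_div₀, hc]
    push_cast
    rw [← h4]
    field_simp
  · have hanQ : (a.norm : ℚ) ≠ 0 := by exact_mod_cast han.ne'
    have hbQ : (b.norm : ℚ) ≠ 0 := by exact_mod_cast hbn.ne'
    rw [padicValRat.div hanQ (pow_ne_zero _ hnQ), padicValRat.pow, padicValRat.of_nat]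
    have h7 : padicValRat 2 (a.norm : ℚ) = 2 * k := by
      have h8 : (a.norm : ℚ) = ((2 : ℚ) ^ k) ^ 2 * (b.norm : ℚ) := by
        rw [hnorm]
        push_cast
        rw [← pow_mul, mul_comm k 2, pow_mul]
        norm_num
      have h9 : padicValRat 2 (b.norm : ℚ) = 0 := by
        rw [padicValRat.of_int, padicValInt.eq_zero_of_not_dvd (n0c_norm_odd hb)]
        rfl
      rw [h8, padicValRat.mul (pow_ne_zero _ (pow_ne_zero _ two_ne_zero)) hbQ, h9, add_zero,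
        padicValRat.pow, padicValRat.pow]
      have h10 : padicValRat 2 (2 : ℚ) = 1 := by
        have := padicValRat.self (p := 2) (by norm_num)
        exact_mod_cast this
      rw [h10, mul_one]
      push_cast
      ring
    rw [h7]
    push_cast
    ring
  · have h20 : A.valuation (2 : ℂ) ≠ 0 := (map_ne_zero _).2 two_ne_zero
    rw [hza, map_div₀, hab, map_mul, map_pow, map_mul, hbu, mul_one, map_ofNat, map_pow, n0c_int A hA hn, zpow_sub₀ h20,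
      zpow_natCast, zpow_natCast]

/-- An element `emb b` of `ℤ[ω]` with valuation `< 1` is divisible by `2`. -/
theorem emb_lt (A : ValuationSubring ℂ) (hA : A.valuation 2 < 1) (b : Eis) : A.valuation (emb b) < 1 ↔ (2 : Eis) ∣ b := by
  have hB : A.valuation (emb 2) < 1 := by rw [map_ofNat]; exact hA
  constructor
  · intro h
    by_contra h2
    rw [J2E.U4a_unit Q3.prime_two hB h2] at h
    exact lt_irrefl _ h
  · rintro ⟨c, rfl⟩
    rw [map_mul, map_mul]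
    exact mul_lt_one_of_lt_of_le hB (CF.g4_int A c)

theorem emb_le_two (A : ValuationSubring ℂ) (hA : A.valuation 2 < 1) (b : Eis) : A.valuation (emb b) ≤ A.valuation 2 ↔ (2 : Eis) ∣ b := by
  constructor
  · intro h
    exact (emb_lt A hA b).1 (lt_of_le_of_lt h hA)
  · rintro ⟨c, rfl⟩
    rw [map_mul, map_mul, map_ofNat]
    exact mul_le_of_le_one_right' (CF.g4_int A c)

/-- [N0.6] there is a valuation ring above `2`. -/
theorem exists_A : ∃ A : ValuationSubring ℂ, A.valuation 2 < 1 := by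
  exact CM27.exists_val

/-- [N0.7] integrality can be tested on the valuation rings: an element `x = y / n`, `y` integral, `n ≥ 1` a power of `2`, which lies in all valuation rings above `2` is integral. -/
theorem int_of_val {y : ℂ} (hy : IsIntegral ℤ y) {k : ℕ} (h : ∀ A : ValuationSubring ℂ, A.valuation 2 < 1 → A.valuation (y / 2 ^ k) ≤ 1) :
    IsIntegral ℤ (y / 2 ^ k) := by
  refine J2E.U5_int fun B => ?_
  by_cases hB : B.valuation 2 < 1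
  · exact h B hB
  · have h2 : B.valuation 2 = 1 := by
      refine le_antisymm ?_ (not_lt.1 hB)
      have := i1_val_int B 2
      exact_mod_cast this
    rw [map_div₀, map_pow, h2, one_pow, div_one]
    exact n0d_val B hy

theorem val_of_int (A : ValuationSubring ℂ) {y : ℂ} (hy : IsIntegral ℤ y) : A.valuation y ≤ 1 := by
  exact n0d_val A hy

/-- [N0.8] `3 ∤ v`: the valuations of `x₀`, `x₁ s`, `x₂ s²` are different modulo the valuations of `ℚ(ω)`, so `v(x) = max`. -/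
theorem val_M (A : ValuationSubring ℂ) (hA : A.valuation 2 < 1) {v : ℕ} {D₀ : Eis} (hD : D = 2 ^ v * D₀) (hD₀ : ¬ (2 : Eis) ∣ D₀)
    (hv : ¬ 3 ∣ v) {x : ℂ} (hx : x ∈ JT.KM D) (h0 : x ≠ 0) : ∃ n : ℤ, A.valuation x ^ 3 = A.valuation 2 ^ n := by
  have hB : A.valuation (emb 2) < 1 := by rw [map_ofNat]; exact hA
  have e2 : emb 2 = 2 := map_ofNat emb 2
  have h20 : A.valuation (2 : ℂ) ≠ 0 := (map_ne_zero _).2 two_ne_zero
  obtain ⟨u₀, u₁, u₂, m0, m1, m2, hu⟩ := (J2N.mem_KM x).1 hx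
  have ht : A.valuation (JT.cD D) ^ 3 = A.valuation (emb 2) ^ v := by
    rw [← map_pow, JT.cD_cube, hD, map_mul emb, map_pow emb, map_mul, map_pow, J2E.U4a_unit Q3.prime_two hB hD₀, mul_one]
  have h1 := J2E.ram_val Q3.prime_two hB hv ht m0 m1 m2
  rw [← hu] at h1
  rw [e2] at ht
  have hx0 : A.valuation x ≠ 0 := (map_ne_zero _).2 h0
  have key : ∀ u : ℂ, u ∈ CF.KK → ∀ i : ℕ, A.valuation x = A.valuation u * A.valuation (JT.cD D) ^ i →
      ∃ n : ℤ, A.valuation x ^ 3 = A.valuation 2 ^ n := by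
    intro u hu i hi
    have hu0 : u ≠ 0 := by
      rintro rfl
      rw [map_zero, zero_mul] at hi
      exact hx0 hi
    obtain ⟨n, hn⟩ := J2E.KK_val Q3.prime_two hB hu hu0
    rw [e2] at hn
    refine ⟨3 * n + (v * i : ℕ), ?_⟩
    rw [hi, hn, mul_pow, ← pow_mul, mul_comm i 3, pow_mul, ht, ← pow_mul, zpow_add₀ h20, zpow_natCast, mul_comm 3 n, zpow_mul]
    norm_cast
  rcases max_cases (A.valuation u₀) (max (A.valuation u₁ * A.valuation (JT.cD D)) (A.valuation u₂ * A.valuation (JT.cD D) ^ 2))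
    with ⟨h2, -⟩ | ⟨h2, -⟩
  · exact key u₀ m0 0 (by rw [h1, h2, pow_zero, mul_one])
  · rcases max_cases (A.valuation u₁ * A.valuation (JT.cD D)) (A.valuation u₂ * A.valuation (JT.cD D) ^ 2) with ⟨h3, -⟩ | ⟨h3, -⟩
    · exact key u₁ m1 1 (by rw [h1, h2, h3, pow_one])
    · exact key u₂ m2 2 (by rw [h1, h2, h3])

end J2L
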