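import Pool.Agent.J2L.G7b
import Pool.Agent.J2L.N0

/-!
# [J2L-G7c] the unramified ring `Ω` of the `f`-torsion points, and approximation of elements of `ℚ(ω, ∛D)`, `v₂(D) = 1`
-/

set_option autoImplicit false

open scoped Classical

namespace J2L

open CM27

open CU (om)

open CUL (Nl ez IsRep rp cr zw)

open Q3V (OT)

variable (A : ValuationSubring ℂ) (hA : A.valuation 2 < 1)

theorem g7ca_le {x : ℂ} (h : x ∈ A) : A.valuation x ≤ 1 := (ValuationSubring.valuation_le_one_iff A x).2 h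

theorem g7ca_of_le {x : ℂ} (h : A.valuation x ≤ 1) : x ∈ A := (ValuationSubring.valuation_le_one_iff A x).1 h

theorem g7ca_emb (b : Eis) : A.valuation (emb b) ≤ 1 := val_of_int A (JL.isIntegral_emb b)

theorem g7ca_mul4 {x : ℂ} (h : A.valuation x ≤ 1) : A.valuation (4 * x) ≤ A.valuation 4 := by
  rw [map_mul]
  calc A.valuation 4 * A.valuation x ≤ A.valuation 4 * 1 := mul_le_mul' le_rfl h
    _ = A.valuation 4 := mul_one _

include hA in
/-- [G7c.1] `yh(-2 z) ≡ yh⁴ + 2 (yh³ + yh⁴ + yh⁵) mod 4`: `y(2z) = (2x⁶ + 10x³ - 1)/y³`, `yh(2z) y³ = x⁶ + 3x³ - 1 - yh - 4x³ yh`, `1/y³ ≡ 1 + 2 yh`, `x³ = yh² + yh`;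
so `yh(2z) ≡ yh⁴ - 1 + 2 (yh³ + yh⁵)`, `yh(-z) = -1 - yh(z)`. -/
theorem yh_m2 {z : ℂ} (h : OT z) : A.valuation (yh (-2 * z) - (yh z ^ 4 + 2 * (yh z ^ 3 + yh z ^ 4 + yh z ^ 5))) ≤ A.valuation 4 := by
  have h1 := TH.yw_two' z h.two.1
  have hy : yw z = 1 + 2 * yh z := by unfold yh; ring
  have hx := yh_sq h
  have hyv := y_val A hA h
  have hy0 : yw z ≠ 0 := Q3V.off_y h.two.1
  have hm : yh z ∈ A := g7ca_of_le A (yh_int A hA h)
  have e1 : yh (-2 * z) = (-yw (2 * z) - 1) / 2 := by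
    unfold yh
    rw [show -2 * z = -(2 * z) by ring, yw_neg]
  have e2 : yh (-2 * z) - (yh z ^ 4 + 2 * (yh z ^ 3 + yh z ^ 4 + yh z ^ 5)) =
      4 * (-(2 * yh z + 3 * yh z ^ 2 + 2 * yh z ^ 3 + 4 * yh z ^ 4 + 11 * yh z ^ 5 + 16 * yh z ^ 6 + 12 * yh z ^ 7 +
        4 * yh z ^ 8)) / yw z ^ 3 := by
    rw [e1, h1, eq_div_iff (pow_ne_zero 3 hy0)]
    have hx2 : xw z ^ 6 = (yh z ^ 2 + yh z) ^ 2 := by rw [hx]; ring
    rw [hx2, ← hx]
    field_simp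
    rw [hy]
    ring
  rw [e2, map_div₀, map_pow, hyv, one_pow, div_one]
  apply g7ca_mul4
  apply g7ca_le
  repeat (first | assumption | apply add_mem | apply sub_mem | apply mul_mem | apply pow_mem | apply neg_mem | exact one_mem _ | exact ofNat_mem _ _)

include hA in
/-- `x(-2z) = x(2z) ≡ x⁴ - 2x mod 4` -/
theorem x_m2 {z : ℂ} (h : OT z) : A.valuation (xw (-2 * z) - (xw z ^ 4 - 2 * xw z)) ≤ A.valuation 4 := by
  rw [show -2 * z = -(2 * z) by ring, xw_neg]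
  exact x2_four A hA h

theorem g7ca_cop (L : Lv) (n : ℕ) : IsCoprime ((-2 : Eis) ^ n) L.f := by
  have h1 : IsCoprime (2 : Eis) L.f := by
    obtain ⟨b, ⟨hb1, hb2⟩, u, hu⟩ := Q3.exists_prim L.hf2
    have h2 : Q3V.Odd2 b := by
      refine ⟨⟨b.re / 4 * 2, b.im / 2⟩, ?_⟩
      have e : (2 : Eis) * ⟨b.re / 4 * 2, b.im / 2⟩ = ⟨b.re / 4 * 2, b.im / 2⟩ + ⟨b.re / 4 * 2, b.im / 2⟩ := by ring
      rw [e]
      ext
      · simp only [QuadraticAlgebra.re_add, QuadraticAlgebra.re_one]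
        omega
      · simp only [QuadraticAlgebra.im_add, QuadraticAlgebra.im_one]
        omega
    obtain ⟨x, y, hxy⟩ := h2.cop
    exact ⟨x, y * u, by rw [← hxy, ← hu]; ring⟩
  have h2 : IsCoprime (-2 : Eis) L.f := h1.neg_left
  exact h2.pow_left

/-- [G7c.2] `(-2)^N ≡ 1 mod f` for some `N ≥ 1` divisible by `3`. -/
theorem exists_N (L : Lv) : ∃ N : ℕ, 0 < N ∧ 3 ∣ N ∧ L.f ∣ (-2) ^ N - 1 := by
  have h1 : ∃ n : ℕ, 0 < n ∧ L.f ∣ (-2) ^ n - 1 := by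
    have hrep : ∀ x : Eis, ∃ c ∈ rp L.f, L.f ∣ x - c := by
      intro x
      obtain ⟨c, ⟨hc1, hc2⟩, _⟩ := CUL.rp_spec L.hf x
      exact ⟨c, hc1, hc2⟩
    choose r hr hr2 using hrep
    obtain ⟨m, n, hmn, he⟩ : ∃ m n : ℕ, m < n ∧ r ((-2) ^ m) = r ((-2) ^ n) := by
      have hinf : ¬ Function.Injective (fun n : ℕ => (⟨r ((-2) ^ n), hr _⟩ : (rp L.f : Finset Eis))) := by
        intro h
        exact (Finite.of_injective _ h).false
      simp only [Function.Injective, not_forall] at hinf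
      obtain ⟨m, n, h1, h2⟩ := hinf
      have h1' : r ((-2) ^ m) = r ((-2) ^ n) := congrArg Subtype.val h1
      rcases lt_or_gt_of_ne h2 with h | h
      · exact ⟨m, n, h, h1'⟩
      · exact ⟨n, m, h, h1'.symm⟩
    refine ⟨n - m, by omega, ?_⟩
    have h3 : L.f ∣ (-2 : Eis) ^ n - (-2) ^ m := by
      have h4 := dvd_sub (hr2 ((-2) ^ n)) (hr2 ((-2) ^ m))
      rw [he] at h4
      have h5 : (-2 : Eis) ^ n - r ((-2) ^ n) - ((-2) ^ m - r ((-2) ^ n)) = (-2) ^ n - (-2) ^ m := by ring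
      rwa [h5] at h4
    have h4 : (-2 : Eis) ^ n - (-2) ^ m = (-2) ^ m * ((-2) ^ (n - m) - 1) := by
      rw [mul_sub, mul_one, ← pow_add, Nat.add_sub_cancel' hmn.le]
    rw [h4] at h3
    exact (g7ca_cop L m).symm.dvd_of_dvd_mul_left h3
  obtain ⟨n, hn, hd⟩ := h1
  refine ⟨3 * n, by omega, Dvd.intro _ rfl, dvd_trans hd ?_⟩
  rw [mul_comm, pow_mul]
  exact ⟨((-2) ^ n) ^ 2 + (-2) ^ n + 1, by ring⟩

/-- the generators -/
def genS (L : Lv) (θ : ℂ) : Set ℂ := {t | t = w ∨ t = θ ∨ ∃ c : Eis, IsCoprime c L.f ∧ (t = xw (pt L c) ∨ t = yh (pt L c))}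

/-! helpers of row G7cb -/

theorem g7cb_add {a b : ℂ} {t : A.ValueGroup} (ha : A.valuation a ≤ t) (hb : A.valuation b ≤ t) : A.valuation (a + b) ≤ t :=
  (A.valuation.map_add a b).trans (max_le ha hb)

theorem g7cb_sub {a b : ℂ} {t : A.ValueGroup} (ha : A.valuation a ≤ t) (hb : A.valuation b ≤ t) : A.valuation (a - b) ≤ t :=
  (A.valuation.map_sub a b).trans (max_le ha hb)

theorem g7cb_mulr {a b : ℂ} {t : A.ValueGroup} (ha : A.valuation a ≤ t) (hb : A.valuation b ≤ 1) : A.valuation (a * b) ≤ t := by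
  rw [map_mul]
  calc A.valuation a * A.valuation b ≤ t * 1 := mul_le_mul' ha hb
    _ = t := mul_one t

theorem g7cb_mull {a b : ℂ} {t : A.ValueGroup} (ha : A.valuation a ≤ 1) (hb : A.valuation b ≤ t) : A.valuation (a * b) ≤ t := by
  rw [mul_comm]
  exact g7cb_mulr A hb ha

theorem g7cb_pow {a : ℂ} (ha : A.valuation a ≤ 1) (n : ℕ) : A.valuation (a ^ n) ≤ 1 := by
  rw [map_pow]
  exact pow_le_one' ha n

include hA in
theorem g7cb_42 : A.valuation 4 ≤ A.valuation 2 := by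
  have h : (4 : ℂ) = 2 * 2 := by norm_num
  rw [h]
  exact g7cb_mull A hA.le le_rfl

include hA in
/-- a sequence with `u (n+1) ≡ u n ^ 4 + 2 g n mod 4` -/
theorem g7cb_seq {u g : ℕ → ℂ} (hu : ∀ n, A.valuation (u n) ≤ 1) (hg : ∀ n, A.valuation (g n) ≤ 1)
    (hs : ∀ n, A.valuation (u (n + 1) - (u n ^ 4 + 2 * g n)) ≤ A.valuation 4) (n : ℕ) :
    A.valuation (u (n + 1) - u 0 ^ (4 ^ (n + 1)) - 2 * g n) ≤ A.valuation 4 := by
  have h42 := g7cb_42 A hA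
  have hp : ∀ {a b : ℂ}, A.valuation a ≤ 1 → A.valuation b ≤ 1 → A.valuation (a - b) ≤ A.valuation 2 →
      A.valuation (a ^ 4 - b ^ 4) ≤ A.valuation 4 := by
    intro a b ha hb h
    have h1 := sq_congr ha hb h
    have h2 := sq_congr (g7cb_pow A ha 2) (g7cb_pow A hb 2) (h1.trans h42)
    have e : a ^ 4 - b ^ 4 = (a ^ 2) ^ 2 - (b ^ 2) ^ 2 := by ring
    rw [e]
    exact h2
  have hq : ∀ n, A.valuation (u n ^ 4 - u 0 ^ (4 ^ (n + 1))) ≤ A.valuation 4 ∧ A.valuation (u n - u 0 ^ (4 ^ n)) ≤ A.valuation 2 := by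
    intro n
    induction n with
    | zero =>
      have e1 : u 0 ^ 4 - u 0 ^ (4 ^ (0 + 1)) = 0 := by
        rw [zero_add, pow_one, sub_self]
      have e2 : u 0 - u 0 ^ (4 ^ 0) = 0 := by
        rw [pow_zero, pow_one, sub_self]
      rw [e1, e2, map_zero]
      exact ⟨zero_le, zero_le⟩
    | succ n ih =>
      have h2 : A.valuation (u (n + 1) - u 0 ^ (4 ^ (n + 1))) ≤ A.valuation 2 := by
        have e : u (n + 1) - u 0 ^ (4 ^ (n + 1)) =
            (u (n + 1) - (u n ^ 4 + 2 * g n)) + (u n ^ 4 - u 0 ^ (4 ^ (n + 1))) + 2 * g n := by ring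
        rw [e]
        exact g7cb_add A (g7cb_add A ((hs n).trans h42) (ih.1.trans h42)) (g7cb_mulr A le_rfl (hg n))
      refine ⟨?_, h2⟩
      have h3 := hp (hu (n + 1)) (g7cb_pow A (hu 0) (4 ^ (n + 1))) h2
      rw [← pow_mul, ← pow_succ] at h3
      exact h3
  have e : u (n + 1) - u 0 ^ (4 ^ (n + 1)) - 2 * g n =
      (u (n + 1) - (u n ^ 4 + 2 * g n)) + (u n ^ 4 - u 0 ^ (4 ^ (n + 1))) := by ring
  rw [e]
  exact g7cb_add A (hs n) (hq n).1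

/-- the points `(-2)^n c/f` -/
theorem g7cb_cop (L : Lv) {c : Eis} (hc : IsCoprime c L.f) (n : ℕ) : IsCoprime ((-2) ^ n * c) L.f := by
  have hdom := CM27.eis_isDomain
  have hpid := CM27.eis_pid
  have h2 : IsCoprime (2 : Eis) L.f := (Prime.coprime_iff_not_dvd Q3.prime_two).2 L.hf2
  exact (h2.neg_left.pow_left).mul_left hc

theorem g7cb_pt (L : Lv) (c : Eis) (n : ℕ) : pt L ((-2) ^ (n + 1) * c) = -2 * pt L ((-2) ^ n * c) := by
  unfold pt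
  have e : ((-2 : Eis)) ^ (n + 1) * c = -2 * ((-2) ^ n * c) := by ring
  rw [e, map_mul, map_neg, map_ofNat]
  ring

theorem g7cb_per (L : Lv) (c : Eis) {N : ℕ} (hf : L.f ∣ (-2) ^ N - 1) {g : ℂ → ℂ} (hg : Per g) :
    g (pt L ((-2) ^ N * c)) = g (pt L c) := by
  obtain ⟨k, hk⟩ := hf
  have hne : emb L.f ≠ 0 := (map_ne_zero_iff emb emb_injective).2 L.hf
  have e : pt L ((-2) ^ N * c) = pt L c + emb (k * c) := by
    unfold pt
    have e1 : ((-2 : Eis)) ^ N * c = c + L.f * (k * c) := by linear_combination c * hk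
    rw [e1, map_add, map_mul, add_div, mul_div_cancel_left₀ _ hne]
  rw [e]
  exact hg _ _

theorem g7cb_mem_x (L : Lv) {θ : ℂ} {c : Eis} (hc : IsCoprime c L.f) : xw (pt L c) ∈ Subring.closure (genS L θ) :=
  Subring.subset_closure (Or.inr (Or.inr ⟨c, hc, Or.inl rfl⟩))

theorem g7cb_mem_y (L : Lv) {θ : ℂ} {c : Eis} (hc : IsCoprime c L.f) : yh (pt L c) ∈ Subring.closure (genS L θ) :=
  Subring.subset_closure (Or.inr (Or.inr ⟨c, hc, Or.inr rfl⟩))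

include hA in
theorem g7cb_x (L : Lv) {N : ℕ} (hf : L.f ∣ (-2) ^ (N + 1) - 1) {c : Eis} (hc : IsCoprime c L.f) :
    A.valuation (xw (pt L c) - xw (pt L c) ^ (4 ^ (N + 1)) + 2 * xw (pt L ((-2) ^ N * c))) ≤ A.valuation 4 := by
  have h := g7cb_seq A hA (u := fun n => xw (pt L ((-2) ^ n * c))) (g := fun n => -xw (pt L ((-2) ^ n * c)))
    (fun n => x_int A hA (ot_pt L (g7cb_cop L hc n)))
    (fun n => by
      rw [Valuation.map_neg]
      exact x_int A hA (ot_pt L (g7cb_cop L hc n)))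
    (fun n => by
      have h1 := x_m2 A hA (ot_pt L (g7cb_cop L hc n))
      rw [← g7cb_pt] at h1
      have e : xw (pt L ((-2) ^ (n + 1) * c)) - (xw (pt L ((-2) ^ n * c)) ^ 4 + 2 * -xw (pt L ((-2) ^ n * c))) =
          xw (pt L ((-2) ^ (n + 1) * c)) - (xw (pt L ((-2) ^ n * c)) ^ 4 - 2 * xw (pt L ((-2) ^ n * c))) := by ring
      show A.valuation (xw (pt L ((-2) ^ (n + 1) * c)) - (xw (pt L ((-2) ^ n * c)) ^ 4 + 2 * -xw (pt L ((-2) ^ n * c)))) ≤ _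
      rw [e]
      exact h1) N
  have e0 : xw (pt L ((-2) ^ 0 * c)) = xw (pt L c) := by rw [pow_zero, one_mul]
  have h2 : A.valuation (xw (pt L ((-2) ^ (N + 1) * c)) - xw (pt L ((-2) ^ 0 * c)) ^ (4 ^ (N + 1)) -
      2 * -xw (pt L ((-2) ^ N * c))) ≤ A.valuation 4 := h
  rw [e0, g7cb_per L c hf per_xw] at h2
  have e : xw (pt L c) - xw (pt L c) ^ (4 ^ (N + 1)) + 2 * xw (pt L ((-2) ^ N * c)) =
      xw (pt L c) - xw (pt L c) ^ (4 ^ (N + 1)) - 2 * -xw (pt L ((-2) ^ N * c)) := by ring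
  rw [e]
  exact h2

include hA in
theorem g7cb_y (L : Lv) {N : ℕ} (hf : L.f ∣ (-2) ^ (N + 1) - 1) {c : Eis} (hc : IsCoprime c L.f) :
    A.valuation (yh (pt L c) - yh (pt L c) ^ (4 ^ (N + 1)) - 2 * (yh (pt L ((-2) ^ N * c)) ^ 3 +
      yh (pt L ((-2) ^ N * c)) ^ 4 + yh (pt L ((-2) ^ N * c)) ^ 5)) ≤ A.valuation 4 := by
  have h := g7cb_seq A hA (u := fun n => yh (pt L ((-2) ^ n * c))) (g := fun n => yh (pt L ((-2) ^ n * c)) ^ 3 +
      yh (pt L ((-2) ^ n * c)) ^ 4 + yh (pt L ((-2) ^ n * c)) ^ 5)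
    (fun n => yh_int A hA (ot_pt L (g7cb_cop L hc n)))
    (fun n => by
      have h1 := yh_int A hA (ot_pt L (g7cb_cop L hc n))
      exact g7cb_add A (g7cb_add A (g7cb_pow A h1 3) (g7cb_pow A h1 4)) (g7cb_pow A h1 5))
    (fun n => by
      have h1 := yh_m2 A hA (ot_pt L (g7cb_cop L hc n))
      rw [← g7cb_pt] at h1
      exact h1) N
  have e0 : yh (pt L ((-2) ^ 0 * c)) = yh (pt L c) := by rw [pow_zero, one_mul]
  have h2 : A.valuation (yh (pt L ((-2) ^ (N + 1) * c)) - yh (pt L ((-2) ^ 0 * c)) ^ (4 ^ (N + 1)) -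
      2 * (yh (pt L ((-2) ^ N * c)) ^ 3 +
      yh (pt L ((-2) ^ N * c)) ^ 4 + yh (pt L ((-2) ^ N * c)) ^ 5)) ≤ A.valuation 4 := h
  rw [e0, g7cb_per L c hf per_yh] at h2
  exact h2

theorem g7cb_w_pow (N : ℕ) : w ^ (4 ^ N) = w := by
  have h3 := CUL.w3
  have h : 4 ^ N % 3 = 1 := by
    rw [Nat.pow_mod]
    norm_num
  have e : 4 ^ N = 3 * (4 ^ N / 3) + 1 := by omega
  rw [e, pow_succ, pow_mul, h3, one_pow, one_mul]

include hA in
/-- [G7c.3] Let `q = 4^N`, `Ω` the subring generated by `w`, `θ` and the `x(c/f)`, `yh(c/f)`. `Unr.fr` holds for the generators: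
`w^q = w`; `θ`: hypothesis; `x(c/f)`: `z_n = (-2)^n c/f`, `x(z_{n+1}) ≡ x(z_n)⁴ - 2 x(z_n)`, so by induction `x(z_n) ≡ x(z_0)^(4^n) + 2 β mod 4`, `β ∈ Ω` (`(u + 2β)⁴ ≡ u⁴`), and
`z_N = z_0` modulo the lattice: `x ≡ x^q - 2 x(z_{N-1})`; the same for `yh` with `2 (yh³ + yh⁴ + yh⁵)(z_{N-1})`. The property `t ≡ t^q + 2 t'` is preserved by sums (`teich_add`), products
and `t ↦ - t` (`q` even): `Subring.closure_induction`. -/
theorem unr_closure (L : Lv) {N : ℕ} (hN : 0 < N) (hf : L.f ∣ (-2) ^ N - 1) {θ : ℂ} (hθ : A.valuation θ ≤ 1) {e : ℂ}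
    (he : e ∈ Subring.closure (genS L θ)) (ht : A.valuation (θ - θ ^ (4 ^ N) - 2 * e) ≤ A.valuation 4) :
    Unr A (4 ^ N) (Subring.closure (genS L θ)) := by
  have h42 := g7cb_42 A hA
  have hle : ∀ t ∈ Subring.closure (genS L θ), A.valuation t ≤ 1 := by
    have h : Subring.closure (genS L θ) ≤ A.toSubring := by
      rw [Subring.closure_le]
      rintro t (rfl | rfl | ⟨c, hc, rfl | rfl⟩)
      · exact (A.valuation_le_one_iff _).1 (w_val A).le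
      · exact (A.valuation_le_one_iff _).1 hθ
      · exact (A.valuation_le_one_iff _).1 (x_int A hA (ot_pt L hc))
      · exact (A.valuation_le_one_iff _).1 (yh_int A hA (ot_pt L hc))
    exact fun t ht => (A.valuation_le_one_iff _).2 (h ht)
  obtain ⟨n, rfl⟩ : ∃ n, N = n + 1 := ⟨N - 1, by omega⟩
  refine ⟨⟨n, rfl⟩, hle, ?_⟩
  have hq : (4 : ℕ) ^ (n + 1) = 2 ^ (2 * n + 1 + 1) := by
    have e : (4 : ℕ) = 2 ^ 2 := by norm_num
    rw [e, ← pow_mul]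
    rfl
  have hq0 : (4 : ℕ) ^ (n + 1) ≠ 0 := by positivity
  have hqe : Even ((4 : ℕ) ^ (n + 1)) := ⟨2 * 4 ^ n, by ring⟩
  intro t hmem
  induction hmem using Subring.closure_induction with
  | mem x hx =>
    rcases hx with rfl | rfl | ⟨c, hc, rfl | rfl⟩
    · refine ⟨0, zero_mem _, ?_⟩
      rw [g7cb_w_pow, sub_self, mul_zero, sub_zero, map_zero]
      exact zero_le
    · exact ⟨e, he, ht⟩
    · refine ⟨-xw (pt L ((-2) ^ n * c)), neg_mem (g7cb_mem_x L (g7cb_cop L hc n)), ?_⟩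
      have h1 := g7cb_x A hA L hf hc
      have e1 : xw (pt L c) - xw (pt L c) ^ (4 ^ (n + 1)) - 2 * -xw (pt L ((-2) ^ n * c)) =
          xw (pt L c) - xw (pt L c) ^ (4 ^ (n + 1)) + 2 * xw (pt L ((-2) ^ n * c)) := by ring
      rw [e1]
      exact h1
    · have hy := g7cb_mem_y L (θ := θ) (g7cb_cop L hc n)
      exact ⟨_, add_mem (add_mem (pow_mem hy 3) (pow_mem hy 4)) (pow_mem hy 5), g7cb_y A hA L hf hc⟩
  | zero =>
    refine ⟨0, zero_mem _, ?_⟩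
    rw [zero_pow hq0, sub_self, mul_zero, sub_zero, map_zero]
    exact zero_le
  | one =>
    refine ⟨0, zero_mem _, ?_⟩
    rw [one_pow, sub_self, mul_zero, sub_zero, map_zero]
    exact zero_le
  | add x y hx hy ihx ihy =>
    obtain ⟨x', hx', h1⟩ := ihx
    obtain ⟨y', hy', h2⟩ := ihy
    refine ⟨x' + y' - (x * y) ^ (2 ^ (2 * n + 1)), sub_mem (add_mem hx' hy') (pow_mem (mul_mem hx hy) _), ?_⟩
    have h3 := teich_add (A := A) (n := 2 * n + 1) (hle x hx) (hle y hy)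
    rw [← hq] at h3
    have e1 : x + y - (x + y) ^ (4 ^ (n + 1)) - 2 * (x' + y' - (x * y) ^ (2 ^ (2 * n + 1))) =
        (x - x ^ (4 ^ (n + 1)) - 2 * x') + (y - y ^ (4 ^ (n + 1)) - 2 * y') -
        ((x + y) ^ (4 ^ (n + 1)) - (x ^ (4 ^ (n + 1)) + y ^ (4 ^ (n + 1)) + 2 * (x * y) ^ (2 ^ (2 * n + 1)))) := by ring
    rw [e1]
    exact g7cb_sub A (g7cb_add A h1 h2) h3
  | neg x hx ihx =>
    obtain ⟨x', hx', h1⟩ := ihx
    refine ⟨-x' - x ^ (4 ^ (n + 1)), sub_mem (neg_mem hx') (pow_mem hx _), ?_⟩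
    rw [hqe.neg_pow]
    have e1 : -x - x ^ (4 ^ (n + 1)) - 2 * (-x' - x ^ (4 ^ (n + 1))) = -(x - x ^ (4 ^ (n + 1)) - 2 * x') := by ring
    rw [e1, Valuation.map_neg]
    exact h1
  | mul x y hx hy ihx ihy =>
    obtain ⟨x', hx', h1⟩ := ihx
    obtain ⟨y', hy', h2⟩ := ihy
    refine ⟨x' * y + x ^ (4 ^ (n + 1)) * y', add_mem (mul_mem hx' hy) (mul_mem (pow_mem hx _) hy'), ?_⟩
    rw [mul_pow]
    have e1 : x * y - x ^ (4 ^ (n + 1)) * y ^ (4 ^ (n + 1)) - 2 * (x' * y + x ^ (4 ^ (n + 1)) * y') =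
        (x - x ^ (4 ^ (n + 1)) - 2 * x') * y + x ^ (4 ^ (n + 1)) * (y - y ^ (4 ^ (n + 1)) - 2 * y') := by ring
    rw [e1]
    exact g7cb_add A (g7cb_mulr A h1 (hle y hy)) (g7cb_mull A (g7cb_pow A (hle x hx) _) h2)

include hA in
/-- [G7c.4] `x' = x(z_{N-1})`, `x'⁴ ≡ x(z_N) = x` -/
theorem x_digit (L : Lv) {N : ℕ} (hN : 0 < N) (hf : L.f ∣ (-2) ^ N - 1) {θ : ℂ} {c : Eis} (hc : IsCoprime c L.f) :
    ∃ x' ∈ Subring.closure (genS L θ), A.valuation (xw (pt L c) - xw (pt L c) ^ (4 ^ N) + 2 * x') ≤ A.valuation 4 ∧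
      A.valuation (x' ^ 4 - xw (pt L c)) ≤ A.valuation 2 := by
  obtain ⟨n, rfl⟩ : ∃ n, N = n + 1 := ⟨N - 1, by omega⟩
  refine ⟨xw (pt L ((-2) ^ n * c)), g7cb_mem_x L (g7cb_cop L hc n), g7cb_x A hA L hf hc, ?_⟩
  have h1 := x_m2 A hA (ot_pt L (g7cb_cop L hc n))
  rw [← g7cb_pt, g7cb_per L c hf per_xw] at h1
  have e1 : xw (pt L ((-2) ^ n * c)) ^ 4 - xw (pt L c) =
      2 * xw (pt L ((-2) ^ n * c)) - (xw (pt L c) - (xw (pt L ((-2) ^ n * c)) ^ 4 - 2 * xw (pt L ((-2) ^ n * c)))) := by ring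
  rw [e1]
  exact g7cb_sub A (g7cb_mulr A le_rfl (x_int A hA (ot_pt L (g7cb_cop L hc n)))) (h1.trans (g7cb_42 A hA))

include hA in
/-- [G7c.5] `θ = s/ϕ`, `θ³ = - D₀`, `D₀ ≡ ζ (1 + 2 δ) mod 4`, `3 ∣ N`: `9 ∣ 4^N - 1`, `θ^(q-1) = (- D₀)^((q-1)/3) ≡ - (1 + 2 δ) mod 4` (`(q-1)/3` is odd and divisible by `3`). -/
theorem theta_digit {θ : ℂ} {D₀ ζ δ : Eis} (h3 : θ ^ 3 = -emb D₀) (hζ : ζ ^ 3 = 1) (hd : (4 : Eis) ∣ D₀ - ζ * (1 + 2 * δ))
    {N : ℕ} (hN : 0 < N) (hN3 : 3 ∣ N) : A.valuation (θ - θ ^ (4 ^ N) - 2 * (θ * (1 + emb δ))) ≤ A.valuation 4 := by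
  obtain ⟨M, rfl⟩ := hN3
  have hM : 0 < M := by omega
  obtain ⟨t, ht, ht2⟩ : ∃ t : ℕ, 4 ^ (3 * M) = 3 * (3 * (7 * t)) + 1 ∧ Odd t := by
    have h1 : 63 ∣ 64 ^ M - 1 := by
      have := Nat.sub_dvd_pow_sub_pow 64 1 M
      simpa using this
    obtain ⟨t, ht⟩ := h1
    have h2 : 1 ≤ 64 ^ M := Nat.one_le_pow _ _ (by norm_num)
    refine ⟨t, ?_, ?_⟩
    · rw [pow_mul]
      norm_num
      omega
    · by_contra h3
      rw [Nat.not_odd_iff_even] at h3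
      obtain ⟨r, hr⟩ := h3
      obtain ⟨M', rfl⟩ : ∃ M', M = M' + 1 := ⟨M - 1, by omega⟩
      rw [pow_succ] at ht h2
      omega
  have hK : Odd (3 * (7 * t)) := by
    obtain ⟨r, hr⟩ := ht2
    exact ⟨3 * 7 * r + 10, by rw [hr]; ring⟩
  have h4 : (4 : Eis) ∣ D₀ ^ (3 * (7 * t)) - (1 + 2 * δ) := by
    have e1 : (4 : Eis) ∣ D₀ ^ (3 * (7 * t)) - (ζ * (1 + 2 * δ)) ^ (3 * (7 * t)) := dvd_trans hd (sub_dvd_pow_sub_pow _ _ _)
    have e2 : (ζ * (1 + 2 * δ)) ^ (3 * (7 * t)) = (1 + 2 * δ) ^ (3 * (7 * t)) := by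
      rw [mul_pow, pow_mul ζ, hζ, one_pow, one_mul]
    obtain ⟨m, hm⟩ := hK
    have e3 : (4 : Eis) ∣ (1 + 2 * δ) ^ (3 * (7 * t)) - (1 + 2 * δ) := by
      rw [hm, pow_succ, pow_mul]
      have e4 : (4 : Eis) ∣ ((1 + 2 * δ) ^ 2) ^ m - 1 := by
        have e5 := sub_dvd_pow_sub_pow ((1 + 2 * δ) ^ 2) 1 m
        rw [one_pow] at e5
        exact dvd_trans ⟨δ + δ ^ 2, by ring⟩ e5
      obtain ⟨e, he⟩ := e4
      exact ⟨e * (1 + 2 * δ), by linear_combination (1 + 2 * δ) * he⟩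
    rw [e2] at e1
    have e6 := dvd_add e1 e3
    rwa [sub_add_sub_cancel] at e6
  obtain ⟨e, he⟩ := h4
  have hθ : A.valuation θ ≤ 1 := by
    by_contra hc
    rw [not_le] at hc
    have h5 : 1 < A.valuation θ ^ 3 := one_lt_pow₀ hc (by norm_num)
    rw [← map_pow, h3, Valuation.map_neg] at h5
    exact absurd h5 (not_lt.2 (g7ca_emb A D₀))
  have h6 : θ ^ (4 ^ (3 * M)) = -(emb (D₀ ^ (3 * (7 * t))) * θ) := by
    rw [ht, pow_succ, pow_mul θ 3, h3, hK.neg_pow, map_pow]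
    ring
  have h7 : θ - θ ^ (4 ^ (3 * M)) - 2 * (θ * (1 + emb δ)) = 4 * (emb e * θ) := by
    have h8 := congrArg emb he
    rw [map_sub, map_add, map_one, map_mul, map_mul, map_ofNat, map_ofNat] at h8
    rw [h6]
    linear_combination θ * h8
  rw [h7]
  apply g7ca_mul4
  rw [map_mul]
  exact mul_le_one' (g7ca_emb A e) hθ

include hA in
theorem g7cc_pow_dvd (k : ℕ) : ∀ a : Eis, A.valuation (emb a) ≤ A.valuation 2 ^ k → (2 : Eis) ^ k ∣ a := by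
  induction k with
  | zero => intro a _; rw [pow_zero]; exact one_dvd a
  | succ k ih =>
    intro a h
    have h2 : A.valuation (emb a) ≤ A.valuation 2 := by
      refine h.trans ?_
      rw [pow_succ]
      calc A.valuation 2 ^ k * A.valuation 2 ≤ 1 * A.valuation 2 := mul_le_mul' (pow_le_one₀ zero_le hA.le) le_rfl
        _ = A.valuation 2 := one_mul _
    obtain ⟨b, rfl⟩ := (emb_le_two A hA a).1 h2
    have hv2 : A.valuation 2 ≠ 0 := (Valuation.ne_zero_iff _).2 two_ne_zero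
    have h3 : A.valuation (emb b) ≤ A.valuation 2 ^ k := by
      rw [map_mul, Q3V.emb_two, map_mul, pow_succ'] at h
      exact (mul_le_mul_iff_right₀ (zero_lt_iff.2 hv2)).1 h
    obtain ⟨c, hc⟩ := ih b h3
    exact ⟨c, by rw [hc]; ring⟩

include hA in
theorem g7cc_odd {m : ℕ} (hm : Odd m) : A.valuation (m : ℂ) = 1 := by
  obtain ⟨k, hk⟩ := hm
  have h := Q3V.v_odd A hA (k : ℤ)
  rw [hk]
  push_cast at h ⊢
  exact h

include hA in
/-- [G7c.6] `x ∈ ℚ(ω)` integral at `A` is congruent to an element of `ℤ[ω]` modulo `4`. -/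
theorem KK_approx {x : ℂ} (hx : x ∈ CF.KK) (h1 : A.valuation x ≤ 1) : ∃ γ : Eis, A.valuation (x - emb γ) ≤ A.valuation 4 := by
  obtain ⟨p, q, hpq⟩ := (CUL.mem_KK x).1 hx
  obtain ⟨a, n, hn, hxa⟩ : ∃ (a : Eis) (n : ℕ), n ≠ 0 ∧ x * n = emb a := by
    refine ⟨⟨p.num * q.den, q.num * p.den⟩, p.den * q.den, mul_ne_zero p.den_nz q.den_nz, ?_⟩
    rw [hpq, emb_apply]
    have hp : (p : ℂ) * p.den = p.num := by exact_mod_cast Rat.mul_den_eq_num p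
    have hq : (q : ℂ) * q.den = q.num := by exact_mod_cast Rat.mul_den_eq_num q
    push_cast
    linear_combination (q.den : ℂ) * hp + w * p.den * hq
  obtain ⟨k, m, hm, hnk⟩ := Nat.exists_eq_two_pow_mul_odd hn
  have h2k : (2 : Eis) ^ k ∣ a := by
    apply g7cc_pow_dvd A hA
    rw [← hxa, map_mul, hnk, Nat.cast_mul, Nat.cast_pow, Nat.cast_ofNat, map_mul, map_pow, g7cc_odd A hA hm, mul_one]
    calc A.valuation x * A.valuation 2 ^ k ≤ 1 * A.valuation 2 ^ k := mul_le_mul' h1 le_rfl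
      _ = _ := one_mul _
  obtain ⟨b, hb⟩ := h2k
  have hm0 : (m : ℂ) ≠ 0 := by
    obtain ⟨r, hr⟩ := hm
    exact_mod_cast (by omega : m ≠ 0)
  have hxb : x * m = emb b := by
    have h3 := hxa
    rw [hnk, hb, map_mul, map_pow, Q3V.emb_two, Nat.cast_mul, Nat.cast_pow, Nat.cast_ofNat] at h3
    have h4 : (2 : ℂ) ^ k ≠ 0 := pow_ne_zero k two_ne_zero
    apply mul_left_cancel₀ h4
    linear_combination h3
  obtain ⟨t, ht⟩ : ∃ t : ℕ, m * m = 1 + 4 * t := by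
    obtain ⟨r, hr⟩ := hm
    exact ⟨r * r + r, by rw [hr]; ring⟩
  refine ⟨(m : Eis) * b, ?_⟩
  have h5 : x - emb ((m : Eis) * b) = -(4 * ((t : ℂ) * x)) := by
    rw [map_mul, map_natCast, ← hxb]
    have h6 : (m : ℂ) * m = 1 + 4 * t := by exact_mod_cast ht
    linear_combination (-x) * h6
  rw [h5, Valuation.map_neg]
  apply g7ca_mul4
  rw [map_mul]
  exact mul_le_one' (Q3V.v_nat A t) h1

/-- nonzero terms with different valuations -/
theorem g7cc_two {x y : ℂ} {t : A.ValueGroup} (h : A.valuation (x + y) ≤ t) (hne : x ≠ 0 → y ≠ 0 → A.valuation x ≠ A.valuation y) :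
    A.valuation x ≤ t ∧ A.valuation y ≤ t := by
  by_cases hx : x = 0
  · subst hx
    rw [zero_add] at h
    exact ⟨by rw [map_zero]; exact zero_le, h⟩
  by_cases hy : y = 0
  · subst hy
    rw [add_zero] at h
    exact ⟨h, by rw [map_zero]; exact zero_le⟩
  rcases lt_or_gt_of_ne (hne hx hy) with h1 | h1
  · rw [Valuation.map_add_eq_of_lt_right _ h1] at h
    exact ⟨h1.le.trans h, h⟩
  · rw [Valuation.map_add_eq_of_lt_left _ h1] at h
    exact ⟨h, h1.le.trans h⟩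

theorem g7cc_three {x y z : ℂ} {t : A.ValueGroup} (h : A.valuation (x + y + z) ≤ t)
    (h1 : x ≠ 0 → y ≠ 0 → A.valuation x ≠ A.valuation y) (h2 : x ≠ 0 → z ≠ 0 → A.valuation x ≠ A.valuation z)
    (h3 : y ≠ 0 → z ≠ 0 → A.valuation y ≠ A.valuation z) :
    A.valuation x ≤ t ∧ A.valuation y ≤ t ∧ A.valuation z ≤ t := by
  have h4 : x + y ≠ 0 → z ≠ 0 → A.valuation (x + y) ≠ A.valuation z := by
    intro h5 hz
    by_cases hx : x = 0
    · subst hx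
      rw [zero_add] at h5 ⊢
      exact h3 h5 hz
    by_cases hy : y = 0
    · subst hy
      rw [add_zero] at h5 ⊢
      exact h2 hx hz
    rcases lt_or_gt_of_ne (h1 hx hy) with h6 | h6
    · rw [Valuation.map_add_eq_of_lt_right _ h6]
      exact h3 hy hz
    · rw [Valuation.map_add_eq_of_lt_left _ h6]
      exact h2 hx hz
  obtain ⟨h5, h6⟩ := g7cc_two A h h4
  obtain ⟨h7, h8⟩ := g7cc_two A h5 h1
  exact ⟨h7, h8, h6⟩

include hA in
theorem g7cc_zpow_inj {m n : ℤ} (h : A.valuation 2 ^ m = A.valuation 2 ^ n) : m = n := by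
  have hv2 : 0 < A.valuation 2 := zero_lt_iff.2 ((Valuation.ne_zero_iff _).2 two_ne_zero)
  exact (zpow_right_strictAnti₀ hv2 hA).injective h

include hA in
/-- [G7c.7] `c = c₀ + c₁ s + c₂ s²` with `A.valuation c ≤ 1`, `v₂(D) = 1`: the three terms have different valuations, so `A.valuation (c_i s^i) ≤ 1`, `A.valuation c_i ≤ 1`
(`A.valuation s ^ 3 = A.valuation 2`); `s = θ ϕ`. -/
theorem M_approx {D D₀ : Eis} (hD : D = 2 * D₀) (hD₀ : ¬ (2 : Eis) ∣ D₀) {Ω : Subring ℂ} (hw : w ∈ Ω) {θ : ℂ} (hθ : θ ∈ Ω)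
    (hs : JT.cD D = θ * ph) {c : ℂ} (hc : c ∈ JT.KM D) (h1 : A.valuation c ≤ 1) : ∃ C, InL Ω C ∧ A.valuation (c - C) ≤ A.valuation 4 := by
  obtain ⟨c₀, c₁, c₂, k0, k1, k2, hcc⟩ := (J2N.mem_KM c).1 hc
  have hv2 : 0 < A.valuation 2 := zero_lt_iff.2 ((Valuation.ne_zero_iff _).2 two_ne_zero)
  set s := JT.cD D with hs'
  -- the valuation of `s`
  have hvs : A.valuation s ^ 3 = A.valuation 2 := by
    have h3 : A.valuation (emb D₀) = 1 := by
      refine le_antisymm (g7ca_emb A D₀) ?_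
      by_contra hlt
      rw [not_le] at hlt
      exact hD₀ ((emb_lt A hA D₀).1 hlt)
    rw [← map_pow, hs', JT.cD_cube, hD, map_mul, Q3V.emb_two, map_mul, h3, mul_one]
  have hs1 : A.valuation s ≤ 1 := by
    by_contra h2
    rw [not_le] at h2
    have h3 : 1 < A.valuation s ^ 3 := one_lt_pow₀ h2 (by norm_num)
    rw [hvs] at h3
    exact absurd h3 (not_lt.2 hA.le)
  -- valuations of the terms
  have key : ∀ (x : ℂ) (i : ℕ), x ∈ CF.KK → x ≠ 0 → ∃ n : ℤ, A.valuation x = A.valuation 2 ^ n ∧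
      A.valuation (x * s ^ i) ^ 3 = A.valuation 2 ^ (3 * n + i) := by
    intro x i hx hx0
    obtain ⟨_, n, _, _, _, hn⟩ := val_KK2 A hA hx hx0
    refine ⟨n, hn, ?_⟩
    rw [map_mul, map_pow, mul_pow, hn, ← pow_mul, mul_comm i 3, pow_mul, hvs, zpow_add₀ hv2.ne', zpow_natCast,
      mul_comm (3 : ℤ) n, zpow_mul]
    norm_cast
  have hne : ∀ (x y : ℂ) (i j : ℕ), i < 3 → j < 3 → i ≠ j → x ∈ CF.KK → y ∈ CF.KK → x * s ^ i ≠ 0 → y * s ^ j ≠ 0 →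
      A.valuation (x * s ^ i) ≠ A.valuation (y * s ^ j) := by
    intro x y i j hi hj hij hx hy hx0 hy0 he
    obtain ⟨n, _, hn⟩ := key x i hx (left_ne_zero_of_mul hx0)
    obtain ⟨m, _, hm⟩ := key y j hy (left_ne_zero_of_mul hy0)
    rw [he, hm] at hn
    have := g7cc_zpow_inj A hA hn
    omega
  have h3 : A.valuation (c₀ * s ^ 0 + c₁ * s ^ 1 + c₂ * s ^ 2) ≤ 1 := by
    rw [pow_zero, mul_one, pow_one, ← hcc]
    exact h1
  obtain ⟨b0, b1, b2⟩ := g7cc_three A h3 (hne _ _ 0 1 (by norm_num) (by norm_num) (by norm_num) k0 k1)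
    (hne _ _ 0 2 (by norm_num) (by norm_num) (by norm_num) k0 k2)
    (hne _ _ 1 2 (by norm_num) (by norm_num) (by norm_num) k1 k2)
  have key2 : ∀ (x : ℂ) (i : ℕ), i < 3 → x ∈ CF.KK → A.valuation (x * s ^ i) ≤ 1 → A.valuation x ≤ 1 := by
    intro x i hi hx hle
    by_cases hx0 : x = 0
    · rw [hx0, map_zero]; exact zero_le
    obtain ⟨n, hn, hn3⟩ := key x i hx hx0
    have h4 : A.valuation 2 ^ (3 * n + i) ≤ A.valuation 2 ^ (0 : ℤ) := by
      rw [← hn3, zpow_zero]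
      exact pow_le_one₀ zero_le hle
    have h5 : 0 ≤ 3 * n + i := (zpow_right_strictAnti₀ hv2 hA).le_iff_ge.1 h4
    have h6 : 0 ≤ n := by omega
    rw [hn]
    have h7 := (zpow_right_strictAnti₀ hv2 hA).le_iff_ge.2 h6
    rwa [zpow_zero] at h7
  obtain ⟨γ₀, g0⟩ := KK_approx A hA k0 (key2 c₀ 0 (by norm_num) k0 b0)
  obtain ⟨γ₁, g1⟩ := KK_approx A hA k1 (key2 c₁ 1 (by norm_num) k1 b1)
  obtain ⟨γ₂, g2⟩ := KK_approx A hA k2 (key2 c₂ 2 (by norm_num) k2 b2)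
  have hemb : ∀ γ : Eis, emb γ ∈ Ω := by
    intro γ
    rw [emb_apply]
    exact add_mem (intCast_mem Ω _) (mul_mem (intCast_mem Ω _) hw)
  refine ⟨emb γ₀ + emb γ₁ * θ * ph + emb γ₂ * θ ^ 2 * ph ^ 2, ⟨emb γ₀, hemb _, emb γ₁ * θ, mul_mem (hemb _) hθ,
    emb γ₂ * θ ^ 2, mul_mem (hemb _) (pow_mem hθ 2), rfl⟩, ?_⟩
  have h8 : c - (emb γ₀ + emb γ₁ * θ * ph + emb γ₂ * θ ^ 2 * ph ^ 2) =
      (c₀ - emb γ₀) + (c₁ - emb γ₁) * s + (c₂ - emb γ₂) * s ^ 2 := by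
    rw [hcc, hs]
    ring
  rw [h8]
  refine Valuation.map_add_le _ (Valuation.map_add_le _ g0 ?_) ?_
  · rw [map_mul]
    calc A.valuation (c₁ - emb γ₁) * A.valuation s ≤ A.valuation 4 * 1 := mul_le_mul' g1 hs1
      _ = _ := mul_one _
  · rw [map_mul, map_pow]
    calc A.valuation (c₂ - emb γ₂) * A.valuation s ^ 2 ≤ A.valuation 4 * 1 := mul_le_mul' g2 (pow_le_one₀ zero_le hs1)
      _ = _ := mul_one _

end J2L
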