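import Pool.Agent.J2L.G7c
import Pool.Agent.J2L.G3

/-!
# [J2L-G7d] the case `v₂(D) = 1`
-/

set_option autoImplicit false

open scoped Classical

namespace J2L

open CM27

open CU (om)

open CUL (Nl ez IsRep rp cr zw)

open Q3V (OT)

variable {D : Eis} (A : ValuationSubring ℂ) (hA : A.valuation 2 < 1)

/-! ### tools of row G7da -/

theorem g7da_memx {L : Lv} {θ : ℂ} {c : Eis} (hc : IsCoprime c L.f) : xw (pt L c) ∈ Subring.closure (genS L θ) :=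
  Subring.subset_closure (Or.inr (Or.inr ⟨c, hc, Or.inl rfl⟩))

theorem g7da_memy {L : Lv} {θ : ℂ} {c : Eis} (hc : IsCoprime c L.f) : yh (pt L c) ∈ Subring.closure (genS L θ) :=
  Subring.subset_closure (Or.inr (Or.inr ⟨c, hc, Or.inr rfl⟩))

theorem g7da_cop {L : Lv} {R : Finset Eis} {a : Eis} (hR : IsR L R) (ha : IsA L a) (i : ℕ) {c : Eis} (hc : c ∈ R) :
    IsCoprime (a ^ i * c) L.f :=
  IsCoprime.mul_left (IsCoprime.pow_left ha.1) (hR.1 c hc).1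

theorem g7da_emb (b : Eis) : A.valuation (emb b) ≤ 1 := val_of_int A (JL.isIntegral_emb b)

/-- the square of a sum -/
theorem g7da_sq {ι : Type} (R : Finset ι) (y : ι → A) : ∃ e : A, (∑ c ∈ R, (y c : ℂ)) ^ 2 = ∑ c ∈ R, (y c : ℂ) ^ 2 + 2 * (e : ℂ) := by
  classical
  induction R using Finset.induction_on with
  | empty => exact ⟨0, by simp⟩
  | insert i R hi ih =>
    obtain ⟨e, he⟩ := ih
    refine ⟨e + y i * ∑ c ∈ R, y c, ?_⟩
    have hs : ((∑ c ∈ R, y c : A) : ℂ) = ∑ c ∈ R, (y c : ℂ) := by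
      have hsub : ∀ t : A, (t : ℂ) = A.subtype t := fun _ => rfl
      simp only [hsub, map_sum]
    have h2 : ((e + y i * ∑ c ∈ R, y c : A) : ℂ) = (e : ℂ) + (y i : ℂ) * ∑ c ∈ R, (y c : ℂ) := by
      rw [← hs]
      rfl
    rw [Finset.sum_insert hi, Finset.sum_insert hi, h2]
    linear_combination he

include hA in
/-- [G7d.1] the functional of `∏_{c ∈ R} D₂(ϕ, x(a^i c/f))`: `nf_D2`, `NF.prod`; `(B + (∑ x²)⁵)² ≡ ∑ (x + x⁴ + x⁷ + x² x^(q/2) + x^10)² ≡ ∑ (x² + x⁸ + x¹⁴ + x⁵ + x²⁰) mod 2`. -/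
theorem nf_prodD2 {L : Lv} {R : Finset Eis} {a : Eis} (hR : IsR L R) (ha : IsA L a) (ζ δ : Eis) {N : ℕ} (hN : 0 < N) (hf : L.f ∣ (-2) ^ N - 1)
    {θ : ℂ} (hu : Unr A (4 ^ N) (Subring.closure (genS L θ))) (i : ℕ) :
    ∃ b B, NF A (4 ^ N) (Subring.closure (genS L θ)) (∏ c ∈ R, D2 ph (xw (pt L (a ^ i * c)))) b B ∧
      A.valuation (((B + b ^ 5) ^ 2 + (1 + emb δ + emb ζ * emb δ ^ 2) * b) - ∑ c ∈ R, lam1 ζ δ (pt L (a ^ i * c))) ≤ A.valuation 2 := by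
  classical
  have hc : ∀ c ∈ R, IsCoprime (a ^ i * c) L.f := fun c hc => g7da_cop hR ha i hc
  have hot : ∀ c ∈ R, OT (pt L (a ^ i * c)) := fun c h => ot_pt L (hc c h)
  have h2ne : (2 : ℂ) ≠ 0 := two_ne_zero
  have hx : ∀ c ∈ R, NF A (4 ^ N) (Subring.closure (genS L θ)) (D2 ph (xw (pt L (a ^ i * c)))) (xw (pt L (a ^ i * c)) ^ 2)
      (xw (pt L (a ^ i * c)) + xw (pt L (a ^ i * c)) ^ 4 + xw (pt L (a ^ i * c)) ^ 7 +
        xw (pt L (a ^ i * c)) ^ 2 * xw (pt L (a ^ i * c)) ^ (4 ^ N / 2)) := by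
    intro c h
    obtain ⟨x', hx', h1, h2⟩ := x_digit A hA L hN hf (θ := θ) (hc c h)
    exact nf_D2 hA hu (g7da_memx (hc c h)) hx' h1 h2
  obtain ⟨B, hB, hB2⟩ := NF.prod hA hu R (u := fun c => D2 ph (xw (pt L (a ^ i * c)))) (a := fun c => xw (pt L (a ^ i * c)) ^ 2)
    (B := fun c => xw (pt L (a ^ i * c)) + xw (pt L (a ^ i * c)) ^ 4 + xw (pt L (a ^ i * c)) ^ 7 +
      xw (pt L (a ^ i * c)) ^ 2 * xw (pt L (a ^ i * c)) ^ (4 ^ N / 2))
    (fun c h => D2_int A ph_cube (x_int A hA (hot c h))) hx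
  refine ⟨_, B, hB, ?_⟩
  -- integral lifts
  have hX : ∀ c : Eis, ∃ X : A, c ∈ R → (X : ℂ) = xw (pt L (a ^ i * c)) := by
    intro c
    by_cases h : c ∈ R
    · obtain ⟨X, hX⟩ := g7ba_lift (x_int A hA (hot c h))
      exact ⟨X, fun _ => hX⟩
    · exact ⟨0, fun h' => absurd h' h⟩
  choose X hX using hX
  have hE : ∀ c : Eis, ∃ E : A, c ∈ R → xw (pt L (a ^ i * c)) ^ (4 ^ N) = xw (pt L (a ^ i * c)) + 2 * (E : ℂ) := by
    intro c
    by_cases h : c ∈ R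
    · obtain ⟨E, hE⟩ := g7ba_dvd h2ne (hu.fr2 (g7da_memx (θ := θ) (hc c h)))
      exact ⟨E, fun _ => by linear_combination hE⟩
    · exact ⟨0, fun h' => absurd h' h⟩
  choose E hE using hE
  obtain ⟨e, he⟩ := g7ba_dvd h2ne hB2
  obtain ⟨D1, hD1⟩ := g7ba_lift (g7da_emb A δ)
  obtain ⟨Z1, hZ1⟩ := g7ba_lift (g7da_emb A ζ)
  -- the terms
  set G : Eis → A := fun c => X c ^ (4 ^ N / 2) with hG
  set Y : Eis → A := fun c => X c + X c ^ 4 + X c ^ 7 + X c ^ 2 * G c + (X c ^ 2) ^ 5 with hY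
  have hsub : ∀ t : A, (t : ℂ) = A.subtype t := fun _ => rfl
  have hYc : ∀ c ∈ R, (xw (pt L (a ^ i * c)) + xw (pt L (a ^ i * c)) ^ 4 + xw (pt L (a ^ i * c)) ^ 7 +
      xw (pt L (a ^ i * c)) ^ 2 * xw (pt L (a ^ i * c)) ^ (4 ^ N / 2)) + (xw (pt L (a ^ i * c)) ^ 2) ^ 5 = (Y c : ℂ) := by
    intro c h
    rw [← hX c h, hY, hG]
    simp only [hsub, map_add, map_mul, map_pow]
  obtain ⟨e', he'⟩ := g7da_sq A R Y
  -- the squares
  have hterm : ∀ c ∈ R, ∃ t : A, (Y c : ℂ) ^ 2 + (1 + emb δ + emb ζ * emb δ ^ 2) * xw (pt L (a ^ i * c)) ^ 2 -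
      lam1 ζ δ (pt L (a ^ i * c)) = 2 * (t : ℂ) := by
    intro c h
    have hGq : (G c : ℂ) ^ 2 = xw (pt L (a ^ i * c)) + 2 * (E c : ℂ) := by
      rw [← hE c h, ← g7ba_q hu, ← hX c h, hG]
      simp only [hsub, map_pow]
    refine ⟨X c ^ 4 * E c + (X c * X c ^ 4 + X c * X c ^ 7 + X c * (X c ^ 2 * G c) + X c * X c ^ 10 + X c ^ 4 * X c ^ 7 +
      X c ^ 4 * (X c ^ 2 * G c) + X c ^ 4 * X c ^ 10 + X c ^ 7 * (X c ^ 2 * G c) + X c ^ 7 * X c ^ 10 + X c ^ 2 * G c * X c ^ 10), ?_⟩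
    have hx := hX c h
    unfold lam1
    rw [← hx] at hGq ⊢
    rw [hY]
    simp only [hsub, map_add, map_mul, map_pow] at hGq ⊢
    linear_combination (A.subtype (X c)) ^ 4 * hGq
  have hT : ∀ c : Eis, ∃ t : A, c ∈ R → (Y c : ℂ) ^ 2 + (1 + emb δ + emb ζ * emb δ ^ 2) * xw (pt L (a ^ i * c)) ^ 2 -
      lam1 ζ δ (pt L (a ^ i * c)) = 2 * (t : ℂ) := by
    intro c
    by_cases h : c ∈ R
    · obtain ⟨t, ht⟩ := hterm c h
      exact ⟨t, fun _ => ht⟩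
    · exact ⟨0, fun h' => absurd h' h⟩
  choose T hT using hT
  obtain ⟨S0, hS0⟩ : ∃ S : A, (S : ℂ) = ∑ c ∈ R, (Y c : ℂ) := ⟨∑ c ∈ R, Y c, by simp only [hsub, map_sum]⟩
  apply g7ba_le (2 * e * S0 + 2 * e ^ 2 + e' + ∑ c ∈ R, T c)
  have hsumT : ((∑ c ∈ R, T c : A) : ℂ) = ∑ c ∈ R, (T c : ℂ) := by simp only [hsub, map_sum]
  have h5 : ∑ c ∈ R, (T c : ℂ) * 2 = ∑ c ∈ R, (Y c : ℂ) ^ 2 + (1 + emb δ + emb ζ * emb δ ^ 2) * ∑ c ∈ R, xw (pt L (a ^ i * c)) ^ 2 -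
      ∑ c ∈ R, lam1 ζ δ (pt L (a ^ i * c)) := by
    rw [Finset.mul_sum, ← Finset.sum_add_distrib, ← Finset.sum_sub_distrib]
    apply Finset.sum_congr rfl
    intro c h
    rw [hT c h]
    ring
  have h6 : B + (∑ c ∈ R, xw (pt L (a ^ i * c)) ^ 2) ^ 5 = (S0 : ℂ) + 2 * (e : ℂ) := by
    have h7 : ∑ c ∈ R, ((xw (pt L (a ^ i * c)) + xw (pt L (a ^ i * c)) ^ 4 + xw (pt L (a ^ i * c)) ^ 7 +
      xw (pt L (a ^ i * c)) ^ 2 * xw (pt L (a ^ i * c)) ^ (4 ^ N / 2)) + (xw (pt L (a ^ i * c)) ^ 2) ^ 5) = (S0 : ℂ) := by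
      rw [hS0]
      exact Finset.sum_congr rfl hYc
    rw [← h7]
    linear_combination he
  have h8 : ((2 * e * S0 + 2 * e ^ 2 + e' + ∑ c ∈ R, T c : A) : ℂ) =
      2 * (e : ℂ) * (S0 : ℂ) + 2 * (e : ℂ) ^ 2 + (e' : ℂ) + ∑ c ∈ R, (T c : ℂ) := by
    rw [← hsumT]
    simp only [hsub, map_add, map_mul, map_pow, map_ofNat]
  rw [h8, h6]
  rw [← hS0] at he'
  rw [← Finset.sum_mul] at h5
  linear_combination he' - h5

/-! ### tools of row G7db -/

theorem g7db_two {L : Lv} {θ : ℂ} : (2 : ℂ) ∈ Subring.closure (genS L θ) := by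
  have : (2 : ℂ) = 1 + 1 := by norm_num
  rw [this]
  exact add_mem (one_mem _) (one_mem _)

theorem g7db_yw {L : Lv} {θ : ℂ} {c : Eis} (hc : IsCoprime c L.f) : yw (pt L c) ∈ Subring.closure (genS L θ) := by
  have e : yw (pt L c) = 1 + 2 * yh (pt L c) := by
    unfold yh
    ring
  rw [e]
  exact add_mem (one_mem _) (mul_mem g7db_two (g7da_memy hc))

/-- the polynomial in the additivity of the functional -/
def g7db_pc {S : Type} [CommRing S] (u v r s : S) : S :=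
  3*u^4*v - 5*u^4*r + 5*u^3*v^2 - 20*u^3*v*r + 20*u^3*r^2 + 5*u^2*v^3 - 30*u^2*v^2*r + 60*u^2*v*r^2 - 40*u^2*r^3 + 3*u*v^4 -
    20*u*v^3*r + 60*u*v^2*r^2 - 80*u*v*r^3 + 40*u*r^4 - 5*v^4*r + 20*v^3*r^2 - 40*v^2*r^3 + 40*v*r^4 - 16*r^5 - s

theorem g7db_coe (u v r s : A) : ((g7db_pc u v r s : A) : ℂ) = g7db_pc (u : ℂ) v r s := by
  have hsub : ∀ t : A, (t : ℂ) = A.subtype t := fun _ => rfl
  unfold g7db_pc
  simp only [hsub, map_add, map_mul, map_pow, map_sub, map_ofNat]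

/-- `g_i = ∏ D₂ / (ϕ ^ n ∏ y)` -/
theorem g7db_gE {L : Lv} {R : Finset Eis} {a : Eis} (hR : IsR L R) (ha : IsA L a) (hj : L.j = 0) (i : ℕ) :
    gE L R a i = (∏ c ∈ R, D2 ph (xw (pt L (a ^ i * c)))) / (ph ^ R.card * ∏ c ∈ R, yw (pt L (a ^ i * c))) := by
  have hj1 : L.j ≠ 1 := by
    rw [hj]
    decide
  unfold gE
  rw [← Finset.prod_const, ← Finset.prod_mul_distrib, ← Finset.prod_div_distrib]
  apply Finset.prod_congr rfl
  intro c hc
  unfold Ph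
  rw [if_neg hj1]
  exact hT_eq (ot_pt L (g7da_cop hR ha i hc)).two.1

include hA in
/-- [G7d.2] `e = ∏ hT(c/f)/∏ hT(a c/f)`, `hT = D₂/(ϕ y)`: `e ∏ D₂(x(a c/f)) ∏ y(c/f) = ∏ D₂(x(c/f)) ∏ y(a c/f)`, the `y` are units of `Ω`; `NF.mul`, `NF.uniq`, `NF.const`:
if `NF e b B`, then its functional is the sum of the functionals for `i = 0` and `i = 1`. -/
theorem nf_e {L : Lv} {R : Finset Eis} {a : Eis} (hR : IsR L R) (ha : IsA L a) (hj : L.j = 0) (ζ δ : Eis) {N : ℕ} (hN : 0 < N)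
    (hf : L.f ∣ (-2) ^ N - 1) {θ : ℂ} (hu : Unr A (4 ^ N) (Subring.closure (genS L θ))) {b B : ℂ}
    (hn : NF A (4 ^ N) (Subring.closure (genS L θ)) (gE L R a 0 / gE L R a 1) b B) :
    A.valuation (((B + b ^ 5) ^ 2 + (1 + emb δ + emb ζ * emb δ ^ 2) * b) -
      (∑ c ∈ R, lam1 ζ δ (pt L c) + ∑ c ∈ R, lam1 ζ δ (pt L (a * c)))) ≤ A.valuation 2 := by
  classical
  set Ω := Subring.closure (genS L θ) with hΩ
  obtain ⟨b0, B0, hn0, hF0⟩ := nf_prodD2 A hA hR ha ζ δ hN hf hu 0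
  obtain ⟨b1, B1, hn1, hF1⟩ := nf_prodD2 A hA hR ha ζ δ hN hf hu 1
  set P0 := ∏ c ∈ R, D2 ph (xw (pt L (a ^ 0 * c))) with hP0
  set P1 := ∏ c ∈ R, D2 ph (xw (pt L (a ^ 1 * c))) with hP1
  set Y0 := ∏ c ∈ R, yw (pt L (a ^ 0 * c)) with hY0
  set Y1 := ∏ c ∈ R, yw (pt L (a ^ 1 * c)) with hY1
  have hot : ∀ i : ℕ, ∀ c ∈ R, OT (pt L (a ^ i * c)) := fun i c h => ot_pt L (g7da_cop hR ha i h)
  have vP : ∀ i : ℕ, A.valuation (∏ c ∈ R, D2 ph (xw (pt L (a ^ i * c)))) = 1 := by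
    intro i
    rw [map_prod]
    exact Finset.prod_eq_one fun c h => D2_val A hA ph_cube (x_int A hA (hot i c h))
  have vY : ∀ i : ℕ, A.valuation (∏ c ∈ R, yw (pt L (a ^ i * c))) = 1 := by
    intro i
    rw [map_prod]
    exact Finset.prod_eq_one fun c h => y_val A hA (hot i c h)
  have hYm : ∀ i : ℕ, ∏ c ∈ R, yw (pt L (a ^ i * c)) ∈ Ω := fun i => prod_mem fun c h => g7db_yw (g7da_cop hR ha i h)
  have hne : ∀ x : ℂ, A.valuation x = 1 → x ≠ 0 := by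
    intro x hx h0
    rw [h0, map_zero] at hx
    exact zero_ne_one hx
  have nP0 := hne _ (vP 0)
  have nP1 := hne _ (vP 1)
  have nY0 := hne _ (vY 0)
  have nY1 := hne _ (vY 1)
  rw [← hP0] at nP0
  rw [← hP1] at nP1
  rw [← hY0] at nY0
  rw [← hY1] at nY1
  have hE : gE L R a 0 / gE L R a 1 = P0 * Y1 / (P1 * Y0) := by
    rw [g7db_gE hR ha hj 0, g7db_gE hR ha hj 1, ← hP0, ← hP1, ← hY0, ← hY1]
    have := pow_ne_zero R.card ph_ne
    field_simp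
  rw [hE] at hn
  have vE : A.valuation (P0 * Y1 / (P1 * Y0)) = 1 := by
    rw [map_div₀, map_mul, map_mul, hP0, hP1, hY0, hY1, vP 0, vP 1, vY 0, vY 1]
    simp
  have h1m : InL Ω (1 : ℂ) := InL.of (one_mem _)
  have hm := NF.mul hA hu vE.le (vP 1).le hn hn1
  rw [← hP1] at hm
  have hm1 := hm.mul_sq hu (hYm 0) (vY 0) h1m (map_one _)
  have hm0 := hn0.mul_sq hu (hYm 1) (vY 1) h1m (map_one _)
  rw [← hY0] at hm1
  rw [← hY1] at hm0
  have hee : P0 * Y1 / (P1 * Y0) * P1 * Y0 * 1 ^ 2 = P0 * Y1 * 1 ^ 2 := by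
    field_simp
  rw [hee] at hm1
  have vU : A.valuation (P0 * Y1 * 1 ^ 2) = 1 := by
    rw [one_pow, mul_one, map_mul, hP0, hY1, vP 0, vY 1, one_mul]
  obtain ⟨hu1, hu2⟩ := NF.uniq hA hu vU hm1 hm0
  have h2ne : (2 : ℂ) ≠ 0 := two_ne_zero
  obtain ⟨e1, he1⟩ := g7ba_dvd h2ne hu1
  obtain ⟨e2, he2⟩ := g7ba_dvd h2ne hu2
  obtain ⟨e3, he3⟩ := g7ba_dvd h2ne hF0
  obtain ⟨e4, he4⟩ := g7ba_dvd h2ne hF1
  obtain ⟨β, hβ⟩ := g7ba_lift (hu.le _ hn.1)
  obtain ⟨C, hC⟩ := g7ba_lift (hu.le _ hn.2.1)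
  obtain ⟨β1, hβ1⟩ := g7ba_lift (hu.le _ hn1.1)
  obtain ⟨C1, hC1⟩ := g7ba_lift (hu.le _ hn1.2.1)
  obtain ⟨dd, hdd⟩ := g7ba_lift (g7da_emb A δ)
  obtain ⟨zz, hzz⟩ := g7ba_lift (g7da_emb A ζ)
  have hsub : ∀ t : A, (t : ℂ) = A.subtype t := fun _ => rfl
  have hF1' : ∃ F : A, (F : ℂ) = ∑ c ∈ R, lam1 ζ δ (pt L (a ^ 1 * c)) := by
    refine ⟨(C1 + β1 ^ 5) ^ 2 + (1 + dd + zz * dd ^ 2) * β1 - 2 * e4, ?_⟩
    have h5 : ((((C1 + β1 ^ 5) ^ 2 + (1 + dd + zz * dd ^ 2) * β1 - 2 * e4 : A)) : ℂ) =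
        (B1 + b1 ^ 5) ^ 2 + (1 + emb δ + emb ζ * emb δ ^ 2) * b1 - 2 * (e4 : ℂ) := by
      rw [← hβ1, ← hC1, ← hdd, ← hzz]
      simp only [hsub, map_add, map_mul, map_pow, map_sub, map_ofNat, map_one]
    rw [h5]
    linear_combination he4
  obtain ⟨F, hF⟩ := hF1'
  simp only [pow_zero, one_mul, pow_one] at he3 he4 hF
  -- the polynomial identity
  have eb : b0 = b + b1 - 2 * (e1 : ℂ) := by linear_combination -he1
  have eB : B0 = B + B1 + b * b1 * (b ^ 3 + b1 ^ 3) - 2 * (e2 : ℂ) := by linear_combination -he2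
  have key : ∃ t : A, (B0 + b0 ^ 5) ^ 2 + (1 + emb δ + emb ζ * emb δ ^ 2) * b0 - ((B + b ^ 5) ^ 2 + (1 + emb δ + emb ζ * emb δ ^ 2) * b) -
      ((B1 + b1 ^ 5) ^ 2 + (1 + emb δ + emb ζ * emb δ ^ 2) * b1) = 2 * (t : ℂ) := by
    obtain ⟨t1, ht1⟩ : ∃ t1 : A, B0 + b0 ^ 5 = (B + b ^ 5) + (B1 + b1 ^ 5) + 2 * (t1 : ℂ) := by
      refine ⟨g7db_pc β β1 e1 e2, ?_⟩
      rw [eb, eB, g7db_coe, ← hβ, ← hβ1]
      unfold g7db_pc
      ring
    refine ⟨(C + β ^ 5) * (C1 + β1 ^ 5) + 2 * (C + β ^ 5) * t1 + 2 * (C1 + β1 ^ 5) * t1 + 2 * t1 ^ 2 - (1 + dd + zz * dd ^ 2) * e1, ?_⟩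
    rw [ht1, eb, ← hβ, ← hβ1, ← hC, ← hC1, ← hdd, ← hzz]
    simp only [hsub, map_add, map_mul, map_pow, map_sub, map_ofNat, map_one]
    ring
  obtain ⟨t, ht⟩ := key
  apply g7ba_le (e3 - t - e4 - F)
  simp only [hsub, map_sub]
  rw [← hsub, ← hsub, ← hsub, ← hsub, hF]
  linear_combination he3 - ht - he4

include hA in
/-- [G7d.3] `lam1` has weight `2`: `S_1 = w S_0` (`rot_zero`), `Ms lam1 = 3 S_0` (`Ms_zero`), `S_0 + S_1 = - w² S_0`, `gM_one`. -/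
theorem lam_lt (d : Dt D) (hv : d.v = 1) {R : Finset Eis} {a : Eis} (hR : IsR d.L R) (ha : IsA d.L a) :
    A.valuation (∑ c ∈ R, lam1 d.ζ d.δ (pt d.L c) + ∑ c ∈ R, lam1 d.ζ d.δ (pt d.L (a * c))) < 1 ↔
      A.valuation (Ms d.L R a (gM 1 d.δ)) < 1 := by
  have hj : d.L.j = 0 := by
    rw [d.hj, hv]
    decide
  have hper : Per (lam1 d.ζ d.δ) := by
    intro z e
    unfold lam1
    rw [per_xw z e]
  have hev : ∀ z, lam1 d.ζ d.δ (-z) = lam1 d.ζ d.δ z := by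
    intro z
    unfold lam1
    rw [xw_neg]
  have hw : ∀ z, lam1 d.ζ d.δ (w * z) = w ^ 2 * lam1 d.ζ d.δ z := by
    intro z
    have h3 := CUL.w3
    have e5 : w ^ 5 = w ^ 2 := by linear_combination w ^ 2 * h3
    have e8 : w ^ 8 = w ^ 2 := by linear_combination (w ^ 5 + w ^ 2) * h3
    have e14 : w ^ 14 = w ^ 2 := by linear_combination (w ^ 11 + w ^ 8 + w ^ 5 + w ^ 2) * h3
    have e20 : w ^ 20 = w ^ 2 := by linear_combination (w ^ 17 + w ^ 14 + w ^ 11 + w ^ 8 + w ^ 5 + w ^ 2) * h3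
    unfold lam1
    rw [xw_w, mul_pow, mul_pow, mul_pow, mul_pow, mul_pow, e5, e8, e14, e20]
    ring
  have h1 := rot_zero hR ha hj hper hev hw 0
  have h2 := Ms_zero hR ha hj hper hev hw
  have h3 := gM_one A hA d hR ha
  simp only [pow_zero, one_mul, zero_add, pow_one] at h1
  set S := ∑ c ∈ R, lam1 d.ζ d.δ (pt d.L c) with hS
  have e1 : S + ∑ c ∈ R, lam1 d.ζ d.δ (pt d.L (a * c)) = -(w ^ 2 * S) := by
    rw [h1]
    have h3 := CUL.w3
    have h2 := CUL.w2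
    linear_combination w * S * h3 + S * h2
  have vw : A.valuation w = 1 := w_val A
  have v1 : A.valuation (S + ∑ c ∈ R, lam1 d.ζ d.δ (pt d.L (a * c))) = A.valuation S := by
    rw [e1, Valuation.map_neg, map_mul, map_pow, vw, one_pow, one_mul]
  have v2 : A.valuation (Ms d.L R a (lam1 d.ζ d.δ)) = A.valuation S := by
    rw [h2, map_mul, Q3V.v_three A hA, one_mul]
  rw [v1, ← v2]
  have h4 := h3.trans_lt hA
  constructor
  · intro h
    have e : Ms d.L R a (gM 1 d.δ) = (Ms d.L R a (gM 1 d.δ) - Ms d.L R a (lam1 d.ζ d.δ)) + Ms d.L R a (lam1 d.ζ d.δ) := by ring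
    rw [e]
    exact Valuation.map_add_lt _ h4 h
  · intro h
    have e : Ms d.L R a (lam1 d.ζ d.δ) = Ms d.L R a (gM 1 d.δ) - (Ms d.L R a (gM 1 d.δ) - Ms d.L R a (lam1 d.ζ d.δ)) := by ring
    rw [e]
    exact Valuation.map_sub_lt _ h h4

/-! helpers of row G7dc -/

theorem g7dc_add {a b : ℂ} {t : A.ValueGroup} (ha : A.valuation a ≤ t) (hb : A.valuation b ≤ t) : A.valuation (a + b) ≤ t :=
  (A.valuation.map_add a b).trans (max_le ha hb)

theorem g7dc_sub {a b : ℂ} {t : A.ValueGroup} (ha : A.valuation a ≤ t) (hb : A.valuation b ≤ t) : A.valuation (a - b) ≤ t :=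
  (A.valuation.map_sub a b).trans (max_le ha hb)

theorem g7dc_mulr {a b : ℂ} {t : A.ValueGroup} (ha : A.valuation a ≤ t) (hb : A.valuation b ≤ 1) : A.valuation (a * b) ≤ t := by
  rw [map_mul]
  calc A.valuation a * A.valuation b ≤ t * 1 := mul_le_mul' ha hb
    _ = t := mul_one t

theorem g7dc_mull {a b : ℂ} {t : A.ValueGroup} (ha : A.valuation a ≤ 1) (hb : A.valuation b ≤ t) : A.valuation (a * b) ≤ t := by
  rw [mul_comm]
  exact g7dc_mulr A hb ha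

include hA in
theorem g7dc_42 : A.valuation 4 ≤ A.valuation 2 := by
  have h : (4 : ℂ) = 2 * 2 := by norm_num
  rw [h]
  exact g7dc_mull A hA.le le_rfl

theorem g7dc_emb (x : Eis) : A.valuation (emb x) ≤ 1 := val_of_int A (JL.isIntegral_emb x)

/-- integrality of `x / 4` -/
theorem g7dc_div {x : ℂ} (h : IsIntegral ℤ (x / 4)) : A.valuation x ≤ A.valuation 4 := by
  have h1 := val_of_int A h
  have e : x = x / 4 * 4 := by ring
  rw [e]
  exact g7dc_mull A h1 le_rfl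

/-- `v(x) = 1` if `x ≡ 1` modulo the maximal ideal -/
theorem g7dc_one {x : ℂ} (h : A.valuation (x - 1) < 1) : A.valuation x = 1 := by
  have e : x = 1 + (x - 1) := by ring
  have h1 : A.valuation (1 : ℂ) = 1 := A.valuation.map_one
  rw [e, Valuation.map_add_eq_of_lt_left _ (by rw [h1]; exact h), h1]

theorem g7dc_congr_lt {x y : ℂ} {t : A.ValueGroup} (h : A.valuation (x - y) ≤ t) (ht : t < 1) : A.valuation x < 1 ↔ A.valuation y < 1 := by
  have h1 := h.trans_lt ht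
  constructor
  · intro hx
    have e : y = x - (x - y) := by ring
    rw [e]
    exact (A.valuation.map_sub _ _).trans_lt (max_lt hx h1)
  · intro hy
    have e : x = y + (x - y) := by ring
    rw [e]
    exact (A.valuation.map_add _ _).trans_lt (max_lt hy h1)

include hA in
/-- `e` is a unit -/
theorem g7dc_e {L : Lv} {R : Finset Eis} {a : Eis} (hR : IsR L R) (ha : IsA L a) (hj : L.j = 0) :
    A.valuation (gE L R a 0 / gE L R a 1) = 1 := by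
  have hj1 : L.j ≠ 1 := by
    rw [hj]
    decide
  have hph := ph_ne
  have hv0 : A.valuation ph ≠ 0 := (Valuation.ne_zero_iff _).2 hph
  have hg : ∀ i : ℕ, A.valuation (gE L R a i) = ((A.valuation ph)⁻¹) ^ R.card := by
    intro i
    unfold gE
    rw [map_prod, Finset.prod_congr rfl (g := fun _ => (A.valuation ph)⁻¹), Finset.prod_const]
    intro c hc
    have hcop : IsCoprime (a ^ i * c) L.f := (ha.1.pow_left).mul_left (hR.1 c hc).1
    have hot := ot_pt L hcop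
    unfold Ph
    rw [if_neg hj1, hT_eq hot.otl.off, map_div₀, map_mul, D2_val A hA ph_cube (x_int A hA hot), y_val A hA hot, mul_one, one_div]
  rw [map_div₀, hg, hg]
  exact div_self (pow_ne_zero _ (inv_ne_zero hv0))

theorem g7dc_r4 {x : Eis} (h : JT.R4 x) : emb x ^ 4 = emb x := by
  have h1 : x ^ 4 = x := by
    rcases h with rfl | rfl | rfl | rfl <;> decide
  rw [← map_pow, h1]

include hA in
theorem g7dc_r4_lt {x : Eis} (h : JT.R4 x) : A.valuation (emb x) < 1 ↔ x = 0 := by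
  constructor
  · intro h1
    rw [emb_lt A hA] at h1
    rcases h with rfl | rfl | rfl | rfl
    · rfl
    · exact absurd (isUnit_of_dvd_one h1) Q3.prime_two.not_isUnit
    · exfalso
      have hu : IsUnit (om : Eis) := IsUnit.of_mul_eq_one (om ^ 2) (by decide)
      exact Q3.prime_two.not_isUnit (isUnit_of_dvd_unit h1 hu)
    · exfalso
      have hu : IsUnit (om ^ 2 : Eis) := IsUnit.of_mul_eq_one om (by decide)
      exact Q3.prime_two.not_isUnit (isUnit_of_dvd_unit h1 hu)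
  · rintro rfl
    rw [map_zero, map_zero]
    exact zero_lt_one

/-- `emb x` lies in a subring containing `w` -/
theorem g7dc_mem {Ω : Subring ℂ} (hw : w ∈ Ω) (x : Eis) : emb x ∈ Ω := by
  have e : emb x = (x.re : ℂ) + (x.im : ℂ) * w := emb_apply x
  rw [e]
  exact add_mem (intCast_mem _ _) (mul_mem (intCast_mem _ _) hw)

include hA in
/-- [G7d.4] THE DIGIT: if `e c² ≡ 1 + α s + α³ D + 2 b s² mod 4`, `α, b ∈ R4`, `c ∈ KM D` integral, then the functional of `e` is `≡ ζ θ b²`, so `b = 0` iff the moment is not a unit.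
`exists_N`, `theta_digit`, `unr_closure`, `M_approx` (`c ≡ C`, `A.valuation C = 1`), `nf_F`, `NF.of_mul_sq`, `NF.congr_u`, `nf_e`, `lam_lt`. `JT.R4 b`: `emb b ^ 4 = emb b`, and `A.valuation (emb b) < 1` iff `b = 0`. -/
theorem digit_one (h : JT.Cl2 D) (d : Dt D) (hv : d.v = 1) {R : Finset Eis} {a : Eis} (hR : IsR d.L R) (ha : IsA d.L a) {α b : Eis} {c : ℂ}
    (hα : JT.R4 α) (hb : JT.R4 b) (hc : c ∈ JT.KM D) (hci : IsIntegral ℤ c)
    (hi : IsIntegral ℤ ((gE d.L R a 0 / gE d.L R a 1 * c ^ 2 - 1 - emb α * JT.cD D - emb (α ^ 3 * D) - 2 * emb b * JT.cD D ^ 2) / 4)) :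
    b = 0 ↔ A.valuation (Ms d.L R a (gM d.v d.δ)) < 1 := by
  have hdom := CM27.eis_isDomain
  have h42 := g7dc_42 A hA
  have h41 : A.valuation 4 < 1 := h42.trans_lt hA
  have hD : D = 2 * d.D₀ := by
    have h1 := d.hD
    rw [hv, pow_one] at h1
    exact h1
  have hj : d.L.j = 0 := by
    rw [d.hj, hv]
    decide
  have hs3 := JT.cD_cube D
  have hph := ph_ne
  have hph3 := ph_cube
  obtain ⟨N, hN, hN3, hf⟩ := exists_N d.L
  set θ : ℂ := JT.cD D / ph with hθdef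
  have hs : JT.cD D = θ * ph := by
    rw [hθdef, div_mul_cancel₀ _ hph]
  have h3 : θ ^ 3 = -emb d.D₀ := by
    have h1 : (θ * ph) ^ 3 = emb D := by rw [← hs, hs3]
    rw [mul_pow, hph3, hD, map_mul, map_ofNat] at h1
    linear_combination (-(1 / 2 : ℂ)) * h1
  have hθ1 : A.valuation θ = 1 := by
    have h1 : A.valuation θ ^ 3 = 1 := by
      rw [← map_pow, h3, Valuation.map_neg]
      refine le_antisymm (g7dc_emb A _) (not_lt.1 fun hlt => d.hD₀ ((emb_lt A hA _).1 hlt))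
    exact (pow_eq_one_iff_of_nonneg zero_le (by norm_num)).1 h1
  have hζ1 : A.valuation (emb d.ζ) = 1 := by
    have h1 : A.valuation (emb d.ζ) ^ 3 = 1 := by
      rw [← map_pow, ← map_pow, d.hζ, map_one, map_one]
    exact (pow_eq_one_iff_of_nonneg zero_le (by norm_num)).1 h1
  set Ω : Subring ℂ := Subring.closure (genS d.L θ) with hΩ
  have hwΩ : w ∈ Ω := Subring.subset_closure (Or.inl rfl)
  have hθΩ : θ ∈ Ω := Subring.subset_closure (Or.inr (Or.inl rfl))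
  have ht := theta_digit A hA h3 d.hζ d.hδ hN hN3
  have he : θ * (1 + emb d.δ) ∈ Ω := mul_mem hθΩ (add_mem (one_mem _) (g7dc_mem hwΩ _))
  have hu : Unr A (4 ^ N) Ω := unr_closure A hA d.L hN hf hθ1.le he ht
  have hc1 := val_of_int A hci
  obtain ⟨C, hCL, hC⟩ := M_approx A hA hD d.hD₀ hwΩ hθΩ hs hc hc1
  have he1 : A.valuation (gE d.L R a 0 / gE d.L R a 1) = 1 := g7dc_e A hA hR ha hj
  set e := gE d.L R a 0 / gE d.L R a 1 with hedef
  have hi4 := g7dc_div A hi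
  have hv2 : A.valuation (2 : ℂ) = A.valuation ph ^ 3 := (ph_val A).symm
  have hphlt : A.valuation ph < 1 := ph_lt A hA
  have hslt : A.valuation (JT.cD D) < 1 := by
    rw [hs, map_mul, hθ1, one_mul]
    exact hphlt
  have hDlt : A.valuation (emb D) < 1 := by
    rw [emb_lt A hA, hD]
    exact Dvd.intro _ rfl
  set F : ℂ := 1 + emb α * JT.cD D + emb (α ^ 3 * D) + 2 * emb b * JT.cD D ^ 2 with hF
  have hF1 : A.valuation (F - 1) < 1 := by
    have e1 : F - 1 = (emb α * JT.cD D + emb (α ^ 3) * emb D) + 2 * (emb b * JT.cD D ^ 2) := by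
      rw [hF, map_mul]
      ring
    have lt1 : ∀ {x y : ℂ}, A.valuation x ≤ 1 → A.valuation y < 1 → A.valuation (x * y) < 1 := by
      intro x y hx hy
      rw [map_mul]
      exact (mul_le_mul' hx le_rfl).trans_lt (by rw [one_mul]; exact hy)
    have hb1 : A.valuation (emb b * JT.cD D ^ 2) ≤ 1 := by
      rw [map_mul, map_pow]
      exact mul_le_one' (g7dc_emb A _) (pow_le_one' hslt.le 2)
    rw [e1, mul_comm (2 : ℂ)]
    refine (A.valuation.map_add _ _).trans_lt (max_lt ((A.valuation.map_add _ _).trans_lt (max_lt ?_ ?_)) ?_)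
    · exact lt1 (g7dc_emb A _) hslt
    · exact lt1 (g7dc_emb A _) hDlt
    · exact lt1 hb1 hA
  have hFv : A.valuation F = 1 := g7dc_one A hF1
  have hec : A.valuation (e * c ^ 2 - F) ≤ A.valuation 4 := by
    have e1 : e * c ^ 2 - F = e * c ^ 2 - 1 - emb α * JT.cD D - emb (α ^ 3 * D) - 2 * emb b * JT.cD D ^ 2 := by
      rw [hF]
      ring
    rw [e1]
    exact hi4
  have hcv : A.valuation c = 1 := by
    have h1 : A.valuation (e * c ^ 2) = 1 := by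
      have e1 : e * c ^ 2 = F + (e * c ^ 2 - F) := by ring
      rw [e1, Valuation.map_add_eq_of_lt_left _ (by rw [hFv]; exact hec.trans_lt h41), hFv]
    rw [map_mul, he1, one_mul, map_pow] at h1
    exact (pow_eq_one_iff_of_nonneg zero_le (by norm_num)).1 h1
  have hCv : A.valuation C = 1 := by
    have e1 : C = c - (c - C) := by ring
    rw [e1, Valuation.map_sub_eq_of_lt_left _ (by rw [hcv]; exact hC.trans_lt h41), hcv]
  have heC : A.valuation (F - e * 1 * C ^ 2) ≤ A.valuation 4 := by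
    have e1 : F - e * 1 * C ^ 2 = e * (c + C) * (c - C) - (e * c ^ 2 - F) := by ring
    rw [e1]
    refine g7dc_sub A (g7dc_mull A ?_ hC) hec
    exact g7dc_mulr A he1.le (g7dc_add A hcv.le hCv.le)
  have hd4 : A.valuation (emb d.D₀ - emb d.ζ * (1 + 2 * emb d.δ)) ≤ A.valuation 4 := by
    obtain ⟨m, hm⟩ := d.hδ
    have e1 : emb d.D₀ - emb d.ζ * (1 + 2 * emb d.δ) = 4 * emb m := by
      have h1 := congrArg emb hm
      simp only [map_sub, map_mul, map_add, map_one, map_ofNat] at h1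
      exact h1
    rw [e1]
    exact g7dc_mulr A le_rfl (g7dc_emb A _)
  obtain ⟨a₀, B₀, hn, hfun⟩ := nf_F hA hu hθΩ (g7dc_mem hwΩ α) (g7dc_mem hwΩ b) (g7dc_mem hwΩ d.D₀) (g7dc_mem hwΩ d.ζ)
    (g7dc_mem hwΩ d.δ) h3 (by rw [← map_pow, d.hζ, map_one]) hd4 ht (g7dc_r4 hα) (g7dc_r4 hb)
  have hFe : 1 + emb α * (θ * ph) + emb α ^ 3 * (2 * emb d.D₀) + 2 * emb b * (θ * ph) ^ 2 = F := by
    rw [hF, ← hs, map_mul, map_pow]
    have h1 : emb D = 2 * emb d.D₀ := by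
      rw [congrArg emb hD, map_mul, map_ofNat]
    rw [h1]
  rw [hFe] at hn
  have hn2 : NF A (4 ^ N) Ω (e * 1 * C ^ 2) a₀ B₀ := NF.congr_u hu hn heC
  have hn3 : NF A (4 ^ N) Ω e a₀ B₀ := NF.of_mul_sq hu hn2 (one_mem _) A.valuation.map_one hCL hCv
  have hfe := nf_e A hA hR ha hj d.ζ d.δ hN hf hu hn3
  have hlam := lam_lt A hA d hv hR ha
  rw [hv, ← hlam]
  have hdiff : A.valuation (emb d.ζ * θ * emb b ^ 2 -
      (∑ c ∈ R, lam1 d.ζ d.δ (pt d.L c) + ∑ c ∈ R, lam1 d.ζ d.δ (pt d.L (a * c)))) ≤ A.valuation 2 := by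
    have e1 : emb d.ζ * θ * emb b ^ 2 - (∑ c ∈ R, lam1 d.ζ d.δ (pt d.L c) + ∑ c ∈ R, lam1 d.ζ d.δ (pt d.L (a * c))) =
        (((B₀ + a₀ ^ 5) ^ 2 + (1 + emb d.δ + emb d.ζ * emb d.δ ^ 2) * a₀) -
          (∑ c ∈ R, lam1 d.ζ d.δ (pt d.L c) + ∑ c ∈ R, lam1 d.ζ d.δ (pt d.L (a * c)))) -
        (((B₀ + a₀ ^ 5) ^ 2 + (1 + emb d.δ + emb d.ζ * emb d.δ ^ 2) * a₀) - emb d.ζ * θ * emb b ^ 2) := by ring
    rw [e1]
    exact g7dc_sub A hfe hfun
  rw [← g7dc_congr_lt A hdiff hA, ← g7dc_r4_lt A hA hb, map_mul, map_mul, hζ1, hθ1, one_mul, one_mul, map_pow]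
  exact (pow_lt_one_iff (by norm_num)).symm

/-- [G7d.5] only the third alternative of `On2` is possible (`D = 2 D'`, `D' = D₀`); `nf_exists`. -/
theorem on2_one (h : JT.Cl2 D) (d : Dt D) (hv : d.v = 1) {R : Finset Eis} {a : Eis} (hR : IsR d.L R) (ha : IsA d.L a) (ho : OddO d.L a)
    (he : EUn D (gE d.L R a 0 / gE d.L R a 1) (gE d.L R a 1 / gE d.L R a 2) (gE d.L R a 2 / gE d.L R a 0)) :
    JT.On2 D (JT.cD D) (gE d.L R a 0 / gE d.L R a 1) ↔
      ∀ A : ValuationSubring ℂ, A.valuation 2 < 1 → A.valuation (Ms d.L R a (gM d.v d.δ)) < 1 := by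
  have hdom := CM27.eis_isDomain
  have hD : D = 2 * d.D₀ := by
    have h1 := d.hD
    rw [hv, pow_one] at h1
    exact h1
  have h20 : (2 : Eis) ≠ 0 := Q3.prime_two.ne_zero
  constructor
  · rintro (⟨m, D', q₁, q₂, hm, hDe, hD', -, -⟩ | ⟨k, D', hk, hDe, -, -⟩ | ⟨D', hDe, hD', α, c, hα, hc, hci, hi⟩) A hA
    · exfalso
      have hm2 : m = 0 ∨ m = 1 := by omega
      rcases hm2 with rfl | rfl
      · rw [pow_zero, one_mul] at hDe
        apply hD'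
        rw [← hDe, hD]
        exact Dvd.intro _ rfl
      · apply d.hD₀
        refine ⟨2 * D', ?_⟩
        apply mul_left_cancel₀ h20
        rw [← hD, hDe]
        ring
    · exfalso
      apply d.hD₀
      have hk2 : 2 ≤ k := by omega
      obtain ⟨l, rfl⟩ : ∃ l, k = l + 2 := ⟨k - 2, by omega⟩
      refine ⟨2 ^ l * D', ?_⟩
      apply mul_left_cancel₀ h20
      rw [← hD, hDe]
      ring
    · have hi' : IsIntegral ℤ ((gE d.L R a 0 / gE d.L R a 1 * c ^ 2 - 1 - emb α * JT.cD D - emb (α ^ 3 * D) -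
          2 * emb 0 * JT.cD D ^ 2) / 4) := by
        rw [map_zero, mul_zero, zero_mul, sub_zero]
        exact hi
      exact (digit_one A hA h d hv hR ha hα (Or.inl rfl) hc hci hi').1 rfl
  · intro hall
    obtain ⟨u₀, u₁, u₂, h0, h1, h2, e0, e1, e2⟩ := he.rep
    have hN1 : N1 D (gE d.L R a 0 / gE d.L R a 1) := by
      refine ⟨he.int0.1, u₀, u₁, u₂, h0, h1, h2, e0.symm, ?_⟩
      rw [e0, e1, e2]
      exact he.prod
    obtain ⟨α, b, c, hα, hb, hc, hci, hi⟩ := nf_exists h.ncube hD d.hD₀ hN1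
    obtain ⟨A, hA⟩ := exists_A
    have hb0 : b = 0 := (digit_one A hA h d hv hR ha hα hb hc hci hi).2 (hall A hA)
    refine Or.inr (Or.inr ⟨d.D₀, hD, d.hD₀, α, c, hα, hc, hci, ?_⟩)
    rw [hb0, map_zero, mul_zero, zero_mul, sub_zero] at hi
    exact hi

end J2L
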