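import Pool.Agent.J2L.N0

/-!
# [J2L-JTa] integral elements of `ℚ(ω, ∛D)` modulo `4`
-/

set_option autoImplicit false

open NumberField IsDedekindDomain Filter Topology
open scoped Classical ComplexConjugate

namespace J2L

open CM27 JZ
open CU (la eE om)

variable {D : Eis}

/-- congruence modulo `4` in the algebraic integers -/
def Cg (x y : ℂ) : Prop := IsIntegral ℤ ((x - y) / 4)

theorem Cg.refl (x : ℂ) : Cg x x := by
  unfold Cg; rw [sub_self, zero_div]; exact isIntegral_zero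

theorem Cg.symm {x y : ℂ} (h : Cg x y) : Cg y x := by
  unfold Cg at h ⊢
  have h1 : (y - x) / 4 = -((x - y) / 4) := by ring
  rw [h1]; exact h.neg

theorem Cg.trans {x y z : ℂ} (h : Cg x y) (h' : Cg y z) : Cg x z := by
  unfold Cg at h h' ⊢
  have h1 : (x - z) / 4 = (x - y) / 4 + (y - z) / 4 := by ring
  rw [h1]; exact h.add h'

theorem Cg.add {x y x' y' : ℂ} (h : Cg x y) (h' : Cg x' y') : Cg (x + x') (y + y') := by
  unfold Cg at h h' ⊢
  have h1 : (x + x' - (y + y')) / 4 = (x - y) / 4 + (x' - y') / 4 := by ring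
  rw [h1]; exact h.add h'

theorem jta_int (n : ℤ) : IsIntegral ℤ (n : ℂ) := by
  have h := isIntegral_algebraMap (R := ℤ) (A := ℂ) (x := n)
  simpa using h

theorem Cg.int_left {x y : ℂ} (h : Cg x y) (hy : IsIntegral ℤ y) : IsIntegral ℤ x := by
  have h1 : x = ((4 : ℤ) : ℂ) * ((x - y) / 4) + y := by push_cast; ring
  rw [h1]
  exact ((jta_int 4).mul h).add hy

theorem Cg.mul {x y x' y' : ℂ} (h : Cg x y) (h' : Cg x' y') (hy : IsIntegral ℤ y) (hx' : IsIntegral ℤ x') :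
    Cg (x * x') (y * y') := by
  unfold Cg at h h' ⊢
  have h1 : (x * x' - y * y') / 4 = (x - y) / 4 * x' + y * ((x' - y') / 4) := by ring
  rw [h1]; exact (h.mul hx').add (hy.mul h')

theorem Cg.pow {x y : ℂ} (h : Cg x y) (hx : IsIntegral ℤ x) (hy : IsIntegral ℤ y) (n : ℕ) : Cg (x ^ n) (y ^ n) := by
  induction n with
  | zero => simpa using Cg.refl 1
  | succ n ih => rw [pow_succ, pow_succ]; exact ih.mul h (hy.pow n) hx

theorem Cg.map (σ : ℂ ≃+* ℂ) {x y : ℂ} (h : Cg x y) : Cg (σ x) (σ y) := by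
  unfold Cg at h ⊢
  have h1 : σ ((x - y) / 4) = (σ x - σ y) / 4 := by
    rw [map_div₀, map_sub, map_ofNat]
  rw [← h1]
  exact map_isIntegral_int σ h

theorem jta_emb_int (a : Eis) : IsIntegral ℤ (emb a) := JL.isIntegral_emb a

/-- `emb a / n` integral, `n` an element of `ℤ[ω]`: `n` divides `a`. -/
theorem jta_dvd {a n : Eis} (hn : n ≠ 0) (h : IsIntegral ℤ (emb a / emb n)) : n ∣ a := by
  have hm : emb a / emb n ∈ CF.KK := div_mem (JL.F0_emb_mem a) (JL.F0_emb_mem n)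
  obtain ⟨c, hc⟩ := JL.KK_int hm h
  have hn' : emb n ≠ 0 := fun h0 => hn (emb_injective (h0.trans (map_zero emb).symm))
  refine ⟨c, emb_injective ?_⟩
  rw [map_mul, ← hc]
  field_simp

theorem emb_cg {a b : Eis} : Cg (emb a) (emb b) ↔ (4 : Eis) ∣ a - b := by
  constructor
  · intro h
    apply jta_dvd (by norm_num)
    have h1 : emb (a - b) / emb 4 = (emb a - emb b) / 4 := by
      rw [map_sub, map_ofNat]
    rw [h1]; exact h
  · rintro ⟨c, hc⟩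
    unfold Cg
    have h1 : (emb a - emb b) / 4 = emb c := by
      rw [← map_sub, hc, map_mul, map_ofNat]
      field_simp
    rw [h1]; exact jta_emb_int c

theorem jta_w3 : w ^ 3 = 1 := CUL.w3

theorem jta_ws : 1 + w + w ^ 2 = 0 := by
  have h := w_sq
  linear_combination h

/-- `s' = ∛D / 2^m` -/
theorem jta_s3 {m k : ℕ} {D' : Eis} (hD : D = 2 ^ (3 * m + k) * D') : (JT.cD D / 2 ^ m) ^ 3 = emb (2 ^ k * D') := by
  have h1 := JT.cD_cube D
  have h2 : emb D = 2 ^ (3 * m + k) * emb D' := by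
    conv_lhs => rw [hD]
    rw [map_mul, map_pow, map_ofNat]
  rw [div_pow, h1, h2, map_mul, map_pow, map_ofNat, pow_add, pow_mul, ← pow_mul, ← pow_mul]
  have h3 : (2 : ℂ) ^ (m * 3) ≠ 0 := pow_ne_zero _ (by norm_num)
  rw [mul_comm 3 m]
  field_simp

theorem jta_sint {m k : ℕ} {D' : Eis} (hD : D = 2 ^ (3 * m + k) * D') : IsIntegral ℤ (JT.cD D / 2 ^ m) := by
  refine IsIntegral.of_pow (n := 3) (by norm_num) ?_
  rw [jta_s3 hD]
  exact jta_emb_int _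

/-- `s' = ∛D / 2^m`, `D = 2^(3 m + k) D'`: the integral elements of the field, multiplied by `3 D'`, are polynomials in `s'`. -/
theorem rep3 (hc : ¬ ∃ x : Eis, x ^ 3 = D) {m k : ℕ} {D' : Eis} (hk : k ≤ 1) (hD : D = 2 ^ (3 * m + k) * D') (hD' : ¬ (2 : Eis) ∣ D')
    {x : ℂ} (hx : x ∈ JT.KM D) (hi : IsIntegral ℤ x) : ∃ b₀ b₁ b₂ : Eis,
      x * emb (3 * D') = emb b₀ + emb b₁ * (JT.cD D / 2 ^ m) + emb b₂ * (JT.cD D / 2 ^ m) ^ 2 := by
  have hdom := eis_isDomain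
  obtain ⟨σ, hσ, hs⟩ := exists_sig hc
  obtain ⟨u₀, u₁, u₂, h0, h1, h2, hxe⟩ := (J2N.mem_KM x).1 hx
  set s := JT.cD D / 2 ^ m with hsd
  have h2m : (2 : ℂ) ^ m ≠ 0 := pow_ne_zero _ (by norm_num)
  have hcs : JT.cD D = 2 ^ m * s := by rw [hsd]; field_simp
  have hm2 : (2 : ℂ) ^ m ∈ CF.KK := pow_mem (by
    have := JL.F0_emb_mem 2
    rwa [map_ofNat] at this) m
  obtain ⟨v₁, hv₁⟩ : ∃ v₁, v₁ = u₁ * 2 ^ m := ⟨_, rfl⟩
  obtain ⟨v₂, hv₂⟩ : ∃ v₂, v₂ = u₂ * (2 ^ m) ^ 2 := ⟨_, rfl⟩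
  have hm1 : v₁ ∈ CF.KK := by rw [hv₁]; exact mul_mem h1 hm2
  have hm2' : v₂ ∈ CF.KK := by rw [hv₂]; exact mul_mem h2 (pow_mem hm2 2)
  have hxv : x = u₀ + v₁ * s + v₂ * s ^ 2 := by rw [hxe, hcs, hv₁, hv₂]; ring
  have hse : s ^ 3 = emb (2 ^ k * D') := jta_s3 hD
  have hsi : IsIntegral ℤ s := jta_sint hD
  obtain ⟨E, hE⟩ : ∃ E, E = 2 ^ k * D' := ⟨_, rfl⟩
  rw [← hE] at hse
  have hw3 := jta_w3
  have hws := jta_ws
  have hwi : IsIntegral ℤ w := JL.isIntegral_w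
  -- the conjugates
  have hσx : σ x = u₀ + v₁ * (w * s) + v₂ * (w * s) ^ 2 := by
    rw [hxe, sig_rep (i := 1) hσ (by rw [hs, pow_one]) h0 h1 h2, hcs, hv₁, hv₂]; ring
  have hs2 : σ (σ (JT.cD D)) = w ^ 2 * JT.cD D := by rw [hs, map_mul, hσ, hs]; ring
  have hσσx : σ (σ x) = u₀ + v₁ * (w ^ 2 * s) + v₂ * (w ^ 2 * s) ^ 2 := by
    have := sig_rep (D := D) (σ := σ.trans σ) (i := 2) (by simp [hσ]) (by simpa using hs2) h0 h1 h2
    have e : (σ.trans σ) x = σ (σ x) := rfl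
    rw [← e, hxe, this, hcs, hv₁, hv₂]; ring
  have iσ : IsIntegral ℤ (σ x) := map_isIntegral_int σ hi
  have iσσ : IsIntegral ℤ (σ (σ x)) := map_isIntegral_int σ iσ
  obtain ⟨a₀, ha₀⟩ : ∃ a : Eis, 3 * u₀ = emb a := by
    apply JL.KK_int
    · exact mul_mem (by have := JL.F0_emb_mem 3; rwa [map_ofNat] at this) h0
    · have e : 3 * u₀ = x + σ x + σ (σ x) := by
        rw [hσσx, hσx, hxv]
        linear_combination (-v₁ * s - v₂ * s ^ 2 * (1 + w ^ 2 - w)) * hws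
      rw [e]; exact (hi.add iσ).add iσσ
  obtain ⟨a₁, ha₁⟩ : ∃ a : Eis, 3 * v₁ * emb E = emb a := by
    apply JL.KK_int
    · exact mul_mem (mul_mem (by have := JL.F0_emb_mem 3; rwa [map_ofNat] at this) hm1) (JL.F0_emb_mem E)
    · have e : 3 * v₁ * emb E = (x + w ^ 2 * σ x + w * σ (σ x)) * s ^ 2 := by
        rw [hσσx, hσx, hxv]
        linear_combination (-3 * v₁) * hse + (-u₀ * s ^ 2 - v₂ * s ^ 4) * hws + (-2 * v₁ * s ^ 3 - v₂ * s ^ 4 * (w + w ^ 2)) * hw3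
      rw [e]
      exact ((hi.add ((hwi.pow 2).mul iσ)).add (hwi.mul iσσ)).mul (hsi.pow 2)
  obtain ⟨a₂, ha₂⟩ : ∃ a : Eis, 3 * v₂ * emb E = emb a := by
    apply JL.KK_int
    · exact mul_mem (mul_mem (by have := JL.F0_emb_mem 3; rwa [map_ofNat] at this) hm2') (JL.F0_emb_mem E)
    · have e : 3 * v₂ * emb E = (x + w * σ x + w ^ 2 * σ (σ x)) * s := by
        rw [hσσx, hσx, hxv]
        linear_combination (-3 * v₂) * hse + (-u₀ * s - v₁ * s ^ 2) * hws + (-v₁ * s ^ 2 * w - v₂ * s ^ 3 * (w ^ 3 + 2)) * hw3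
      rw [e]
      exact ((hi.add (hwi.mul iσ)).add ((hwi.pow 2).mul iσσ)).mul hsi
  have hE0 : emb E ≠ 0 := by
    intro h
    have h' : E = 0 := emb_injective (h.trans (map_zero emb).symm)
    rw [hE] at h'
    rcases mul_eq_zero.1 h' with h'' | h''
    · exact pow_ne_zero k (by norm_num) h''
    · exact hD' (h'' ▸ dvd_zero _)
  have hx3 : x * emb (3 * E) = emb (a₀ * E) + emb a₁ * s + emb a₂ * s ^ 2 := by
    rw [map_mul, map_mul, map_ofNat, ← ha₀, ← ha₁, ← ha₂, hxv]; ring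
  rcases Nat.le_one_iff_eq_zero_or_eq_one.1 hk with hk0 | hk1
  · have e : E = D' := by rw [hE, hk0, pow_zero, one_mul]
    rw [e] at hx3
    exact ⟨a₀ * D', a₁, a₂, hx3⟩
  · have e : E = 2 * D' := by rw [hE, hk1, pow_one]
    have hN0 : x * σ x * σ (σ x) = u₀ ^ 3 + v₁ ^ 3 * emb E + v₂ ^ 3 * emb E ^ 2 - 3 * u₀ * v₁ * v₂ * emb E := by
      rw [hσσx, hσx, hxv, ← hse]
      linear_combination ((u₀ + v₁ * s + v₂ * s ^ 2) * (u₀ * (v₁ * s) + u₀ * (v₂ * s ^ 2) * (1 - w + w ^ 2) + (v₁ * s) ^ 2 * (w - 1) +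
        (v₁ * s) * (v₂ * s ^ 2) * (w ^ 3 - w + 1) + (v₂ * s ^ 2) ^ 2 * (w ^ 3 + 1) * (w - 1))) * hws
    obtain ⟨n, hn⟩ : ∃ n : Eis, x * σ x * σ (σ x) = emb n := by
      apply JL.KK_int
      · rw [hN0]
        have h3 : (3 : ℂ) ∈ CF.KK := by have := JL.F0_emb_mem 3; rwa [map_ofNat] at this
        have hEm := JL.F0_emb_mem E
        exact sub_mem (add_mem (add_mem (pow_mem h0 3) (mul_mem (pow_mem hm1 3) hEm)) (mul_mem (pow_mem hm2' 3) (pow_mem hEm 2)))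
          (mul_mem (mul_mem (mul_mem h3 h0) hm1) hm2' |> fun h => mul_mem h hEm)
      · exact (hi.mul iσ).mul iσσ
    have hn1 : 27 * E ^ 2 * n = a₀ ^ 3 * E ^ 2 + a₁ ^ 3 + a₂ ^ 3 * E - 3 * a₀ * a₁ * a₂ * E := by
      apply emb_injective
      simp only [map_add, map_sub, map_mul, map_pow, map_ofNat]
      rw [← hn, hN0, ← ha₀, ← ha₁, ← ha₂]
      ring
    have p2 := Q3.prime_two
    have d1 : (2 : Eis) ∣ a₁ := by
      apply p2.dvd_of_dvd_pow (n := 3)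
      refine ⟨27 * 2 * D' ^ 2 * n - a₀ ^ 3 * 2 * D' ^ 2 - a₂ ^ 3 * D' + 3 * a₀ * a₁ * a₂ * D', ?_⟩
      rw [e] at hn1
      linear_combination -hn1
    obtain ⟨b₁, hb₁⟩ := d1
    have d2 : (2 : Eis) ∣ a₂ := by
      have d3 : (2 : Eis) ∣ D' * a₂ ^ 3 := by
        refine ⟨27 * D' ^ 2 * n - a₀ ^ 3 * D' ^ 2 - 2 * b₁ ^ 3 + 3 * a₀ * b₁ * a₂ * D', ?_⟩
        rw [e, hb₁] at hn1
        have h4 : (2 : Eis) ≠ 0 := by norm_num
        apply mul_left_cancel₀ h4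
        linear_combination -hn1
      exact p2.dvd_of_dvd_pow ((p2.dvd_or_dvd d3).resolve_left hD')
    obtain ⟨b₂, hb₂⟩ := d2
    refine ⟨a₀ * D', b₁, b₂, ?_⟩
    have h2' : (2 : ℂ) ≠ 0 := by norm_num
    apply mul_left_cancel₀ h2'
    rw [e, hb₁, hb₂] at hx3
    simp only [map_mul, map_ofNat] at hx3 ⊢
    linear_combination hx3

theorem jta_inv4 {D' : Eis} (hD' : ¬ (2 : Eis) ∣ D') : ∃ N : Eis, (4 : Eis) ∣ 3 * D' * N - 1 := by
  have hdom := eis_isDomain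
  have hpid : IsPrincipalIdealRing Eis := eis_pid
  have h1 : IsCoprime (3 * D') (2 : Eis) := by
    refine ((Q3.prime_two.irreducible.coprime_iff_not_dvd).2 ?_).symm
    intro h
    rcases Q3.prime_two.dvd_or_dvd h with h | h
    · have h2 : (2 : Eis) ∣ 1 := by
        have e : (1 : Eis) = 3 - 2 * 1 := by norm_num
        rw [e]; exact dvd_sub h ⟨1, rfl⟩
      exact Q3.prime_two.not_isUnit (isUnit_of_dvd_one h2)
    · exact hD' h
  obtain ⟨a, b, hab⟩ := h1.pow_right (n := 2)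
  refine ⟨a, -b, ?_⟩
  linear_combination hab

/-- The integral elements of the field are congruent modulo `4` to polynomials in `s'`. -/
theorem rep4 (hc : ¬ ∃ x : Eis, x ^ 3 = D) {m k : ℕ} {D' : Eis} (hk : k ≤ 1) (hD : D = 2 ^ (3 * m + k) * D') (hD' : ¬ (2 : Eis) ∣ D')
    {x : ℂ} (hx : x ∈ JT.KM D) (hi : IsIntegral ℤ x) : ∃ b₀ b₁ b₂ : Eis,
      Cg x (emb b₀ + emb b₁ * (JT.cD D / 2 ^ m) + emb b₂ * (JT.cD D / 2 ^ m) ^ 2) := by
  obtain ⟨c₀, c₁, c₂, h⟩ := rep3 hc hk hD hD' hx hi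
  obtain ⟨N, hN⟩ := jta_inv4 hD'
  refine ⟨N * c₀, N * c₁, N * c₂, ?_⟩
  unfold Cg
  obtain ⟨t, ht⟩ := hN
  have h1 : (x - (emb (N * c₀) + emb (N * c₁) * (JT.cD D / 2 ^ m) + emb (N * c₂) * (JT.cD D / 2 ^ m) ^ 2)) / 4 = x * emb (-t) := by
    have h2 : emb (3 * D') * emb N - 1 = 4 * emb t := by
      rw [← map_mul, ← map_one emb, ← map_sub, ht, map_mul, map_ofNat]
    simp only [map_mul, map_neg] at h h2 ⊢
    linear_combination (-x / 4) * h2 + (emb N / 4) * h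
  rw [h1]
  exact hi.mul (jta_emb_int _)

/-- congruence modulo `2` in the algebraic integers -/
def C2 (x y : ℂ) : Prop := IsIntegral ℤ ((x - y) / 2)

theorem Cg.c2 {x y : ℂ} (h : Cg x y) : C2 x y := by
  unfold Cg at h; unfold C2
  have h1 : (x - y) / 2 = ((2 : ℤ) : ℂ) * ((x - y) / 4) := by push_cast; ring
  rw [h1]; exact (jta_int 2).mul h

theorem C2.refl (x : ℂ) : C2 x x := by
  unfold C2; rw [sub_self, zero_div]; exact isIntegral_zero

theorem C2.symm {x y : ℂ} (h : C2 x y) : C2 y x := by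
  unfold C2 at h ⊢
  have h1 : (y - x) / 2 = -((x - y) / 2) := by ring
  rw [h1]; exact h.neg

theorem C2.trans {x y z : ℂ} (h : C2 x y) (h' : C2 y z) : C2 x z := by
  unfold C2 at h h' ⊢
  have h1 : (x - z) / 2 = (x - y) / 2 + (y - z) / 2 := by ring
  rw [h1]; exact h.add h'

theorem C2.add {x y x' y' : ℂ} (h : C2 x y) (h' : C2 x' y') : C2 (x + x') (y + y') := by
  unfold C2 at h h' ⊢
  have h1 : (x + x' - (y + y')) / 2 = (x - y) / 2 + (x' - y') / 2 := by ring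
  rw [h1]; exact h.add h'

theorem C2.mul {x y x' y' : ℂ} (h : C2 x y) (h' : C2 x' y') (hy : IsIntegral ℤ y) (hx' : IsIntegral ℤ x') :
    C2 (x * x') (y * y') := by
  unfold C2 at h h' ⊢
  have h1 : (x * x' - y * y') / 2 = (x - y) / 2 * x' + y * ((x' - y') / 2) := by ring
  rw [h1]; exact (h.mul hx').add (hy.mul h')

theorem C2.emb {a b : Eis} (h : (2 : Eis) ∣ a - b) : C2 (emb a) (emb b) := by
  obtain ⟨c, hc⟩ := h
  unfold C2
  have h1 : (CM27.emb a - CM27.emb b) / 2 = CM27.emb c := by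
    rw [← map_sub, hc, map_mul, map_ofNat]
    field_simp
  rw [h1]; exact jta_emb_int c

theorem C2.frob {a b c : ℂ} (ha : IsIntegral ℤ a) (hb : IsIntegral ℤ b) (hc : IsIntegral ℤ c) (n : ℕ) :
    C2 ((a + b + c) ^ (2 ^ n)) (a ^ (2 ^ n) + b ^ (2 ^ n) + c ^ (2 ^ n)) := by
  induction n with
  | zero => simpa using C2.refl _
  | succ n ih =>
    rw [pow_succ 2 n, pow_mul, pow_mul, pow_mul, pow_mul]
    have i1 : IsIntegral ℤ ((a + b + c) ^ (2 ^ n)) := ((ha.add hb).add hc).pow _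
    have i2 : IsIntegral ℤ (a ^ (2 ^ n)) := ha.pow _
    have i3 : IsIntegral ℤ (b ^ (2 ^ n)) := hb.pow _
    have i4 : IsIntegral ℤ (c ^ (2 ^ n)) := hc.pow _
    have h1 := ih.mul ih ((i2.add i3).add i4) i1
    rw [← pow_two, ← pow_two] at h1
    refine h1.trans ?_
    unfold C2
    have h2 : ((a ^ 2 ^ n + b ^ 2 ^ n + c ^ 2 ^ n) ^ 2 - ((a ^ 2 ^ n) ^ 2 + (b ^ 2 ^ n) ^ 2 + (c ^ 2 ^ n) ^ 2)) / 2 =
      a ^ 2 ^ n * b ^ 2 ^ n + a ^ 2 ^ n * c ^ 2 ^ n + b ^ 2 ^ n * c ^ 2 ^ n := by ring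
    rw [h2]
    exact ((i2.mul i3).add (i2.mul i4)).add (i3.mul i4)

theorem jta_two (x : Eis) : (2 : Eis) ∣ x ↔ ((x.re : ZMod 2) = 0 ∧ (x.im : ZMod 2) = 0) := by
  have h3 : (2 : Eis).re = 2 := rfl
  have h4 : (2 : Eis).im = 0 := rfl
  have e1 : ((x.re : ZMod 2) = 0) ↔ (2 : ℤ) ∣ x.re := ZMod.intCast_zmod_eq_zero_iff_dvd _ 2
  have e2 : ((x.im : ZMod 2) = 0) ↔ (2 : ℤ) ∣ x.im := ZMod.intCast_zmod_eq_zero_iff_dvd _ 2
  rw [e1, e2]
  constructor
  · rintro ⟨c, rfl⟩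
    simp only [QuadraticAlgebra.re_mul, QuadraticAlgebra.im_mul, h3, h4]
    exact ⟨⟨c.re, by ring⟩, ⟨c.im, by ring⟩⟩
  · rintro ⟨⟨c, hc⟩, ⟨d, hd⟩⟩
    refine ⟨⟨c, d⟩, ?_⟩
    ext
    · simp only [QuadraticAlgebra.re_mul, h3, h4, hc]; ring
    · simp only [QuadraticAlgebra.im_mul, h3, h4, hd]; ring

theorem jta_r4 (x : Eis) : ∃ a, JT.R4 a ∧ (2 : Eis) ∣ x - a := by
  have h1 : (om : Eis).re = 0 := rfl
  have h2 : (om : Eis).im = 1 := rfl
  have key : (2 : Eis) ∣ x - 0 ∨ (2 : Eis) ∣ x - 1 ∨ (2 : Eis) ∣ x - om ∨ (2 : Eis) ∣ x - om ^ 2 := by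
    obtain ⟨x0, x1⟩ := x
    simp only [jta_two, pow_two, QuadraticAlgebra.re_sub, QuadraticAlgebra.im_sub, QuadraticAlgebra.re_mul,
      QuadraticAlgebra.im_mul, QuadraticAlgebra.re_zero,
      QuadraticAlgebra.im_zero, QuadraticAlgebra.re_one, QuadraticAlgebra.im_one, h1, h2]
    push_cast
    generalize (x0 : ZMod 2) = X0
    generalize (x1 : ZMod 2) = X1
    revert X0 X1
    decide
  rcases key with h | h | h | h
  · exact ⟨0, Or.inl rfl, h⟩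
  · exact ⟨1, Or.inr (Or.inl rfl), h⟩
  · exact ⟨om, Or.inr (Or.inr (Or.inl rfl)), h⟩
  · exact ⟨om ^ 2, Or.inr (Or.inr (Or.inr rfl)), h⟩

theorem jta_four (x : Eis) : (2 : Eis) ∣ x ^ 4 - x := by
  obtain ⟨a, ha, h⟩ := jta_r4 x
  have h1 : (2 : Eis) ∣ x ^ 4 - a ^ 4 := h.trans (sub_dvd_pow_sub_pow x a 4)
  have h2 : a ^ 4 = a := by
    rcases ha with rfl | rfl | rfl | rfl <;> decide
  have e : x ^ 4 - x = (x ^ 4 - a ^ 4) - (x - a) := by rw [h2]; ring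
  rw [e]; exact dvd_sub h1 h

theorem jta_64 (x : Eis) : (2 : Eis) ∣ x ^ 64 - x := by
  have e : x ^ 64 - x = ((x ^ 16) ^ 4 - x ^ 16) + ((x ^ 4) ^ 4 - x ^ 4) + (x ^ 4 - x) := by ring
  rw [e]
  exact dvd_add (dvd_add (jta_four _) (jta_four _)) (jta_four _)

theorem jta_cube {x : Eis} (hx : ¬ (2 : Eis) ∣ x) : (2 : Eis) ∣ x ^ 3 - 1 := by
  have h1 := jta_four x
  have e : x ^ 4 - x = x * (x ^ 3 - 1) := by ring
  rw [e] at h1
  exact (Q3.prime_two.dvd_or_dvd h1).resolve_left hx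

theorem jta_21 {x : Eis} (hx : ¬ (2 : Eis) ∣ x) : (2 : Eis) ∣ x ^ 21 - 1 := by
  have e : x ^ 21 - 1 = (x ^ 3) ^ 7 - 1 ^ 7 := by ring
  rw [e]
  exact (jta_cube hx).trans (sub_dvd_pow_sub_pow _ _ 7)

/-- `3 ∣ v₂(D)`: `u ^ 63 ≡ 1 mod 2` for the units. -/
theorem pow63 (hc : ¬ ∃ x : Eis, x ^ 3 = D) {m : ℕ} {D' : Eis} (hD : D = 8 ^ m * D') (hD' : ¬ (2 : Eis) ∣ D')
    {u : ℂ} (hu : IsU D u) : IsIntegral ℤ ((u ^ 63 - 1) / 2) := by
  have hD2 : D = 2 ^ (3 * m + 0) * D' := by rw [hD, add_zero, pow_mul]; norm_num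
  obtain ⟨b₀, b₁, b₂, hb⟩ := rep4 hc (Nat.zero_le 1) hD2 hD' hu.1 hu.2.2.1
  set s := JT.cD D / 2 ^ m with hsd
  have hse : s ^ 3 = emb D' := by
    have := jta_s3 hD2
    rwa [pow_zero, one_mul] at this
  have hsi : IsIntegral ℤ s := jta_sint hD2
  obtain ⟨y, hy⟩ : ∃ y, y = emb b₀ + emb b₁ * s + emb b₂ * s ^ 2 := ⟨_, rfl⟩
  rw [← hy] at hb
  have hyi : IsIntegral ℤ y := by
    rw [hy]
    exact ((jta_emb_int _).add ((jta_emb_int _).mul hsi)).add ((jta_emb_int _).mul (hsi.pow 2))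
  have e1 : C2 (u ^ 64) (y ^ 64) := (hb.pow hu.2.2.1 hyi 64).c2
  have e2 : C2 (y ^ (2 ^ 6)) (emb b₀ ^ (2 ^ 6) + (emb b₁ * s) ^ (2 ^ 6) + (emb b₂ * s ^ 2) ^ (2 ^ 6)) := by
    rw [hy]
    exact C2.frob (jta_emb_int _) ((jta_emb_int _).mul hsi) ((jta_emb_int _).mul (hsi.pow 2)) 6
  have e3 : C2 (emb b₀ ^ (2 ^ 6) + (emb b₁ * s) ^ (2 ^ 6) + (emb b₂ * s ^ 2) ^ (2 ^ 6)) y := by
    have f : ∀ b : Eis, C2 (emb b ^ 64) (emb b) := fun b => by
      rw [← map_pow]; exact C2.emb (jta_64 b)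
    have g : C2 (s ^ 63) 1 := by
      have : s ^ 63 = emb (D' ^ 21) := by rw [map_pow, ← hse]; ring
      rw [this, ← map_one emb]
      exact C2.emb (jta_21 hD')
    have h1 : C2 ((emb b₁ * s) ^ (2 ^ 6)) (emb b₁ * s) := by
      have e : (emb b₁ * s) ^ (2 ^ 6) = (emb b₁ ^ 64) * (s ^ 63 * s) := by ring
      have e' : emb b₁ * s = emb b₁ * (1 * s) := by ring
      rw [e, e']
      exact (f b₁).mul (g.mul (C2.refl s) isIntegral_one hsi) (jta_emb_int _) ((hsi.pow 63).mul hsi)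
    have h2 : C2 ((emb b₂ * s ^ 2) ^ (2 ^ 6)) (emb b₂ * s ^ 2) := by
      have e : (emb b₂ * s ^ 2) ^ (2 ^ 6) = (emb b₂ ^ 64) * ((s ^ 63 * s ^ 63) * s ^ 2) := by ring
      have e' : emb b₂ * s ^ 2 = emb b₂ * ((1 * 1) * s ^ 2) := by ring
      rw [e, e']
      exact (f b₂).mul (((g.mul g isIntegral_one (hsi.pow 63))).mul (C2.refl _) (isIntegral_one.mul isIntegral_one) (hsi.pow 2)) (jta_emb_int _)
        (((hsi.pow 63).mul (hsi.pow 63)).mul (hsi.pow 2))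
    rw [hy]
    exact ((f b₀).add h1).add h2
  have e4 : C2 (u ^ 64) u := ((e1.trans e2).trans e3).trans hb.c2.symm
  have e5 : (u ^ 63 - 1) / 2 = (u ^ 64 - u) / 2 * u⁻¹ := by
    have h0 := hu.2.1
    field_simp
  rw [e5]
  exact IsIntegral.mul e4 hu.2.2.2

/-- `3 ∤ v₂(D)`: `u ^ 3 ≡ 1 mod π`. -/
theorem pow3 (hc : ¬ ∃ x : Eis, x ^ 3 = D) {v : ℕ} {D' : Eis} (hv : ¬ 3 ∣ v) (hD : D = 2 ^ v * D') (hD' : ¬ (2 : Eis) ∣ D')
    {u : ℂ} (hu : IsU D u) (A : ValuationSubring ℂ) (hA : A.valuation 2 < 1) : A.valuation (u ^ 3 - 1) ^ 3 ≤ A.valuation 2 := by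
  obtain ⟨σ, hσ, hs⟩ := exists_sig hc
  obtain ⟨u₀, u₁, u₂, h0, h1, h2, hxe⟩ := (J2N.mem_KM u).1 hu.1
  set s := JT.cD D with hsd
  have hw3 := jta_w3
  have hws := jta_ws
  have hwi : IsIntegral ℤ w := JL.isIntegral_w
  have hi := hu.2.2.1
  have hσx : σ u = u₀ + u₁ * (w * s) + u₂ * (w * s) ^ 2 := by
    rw [hxe, sig_rep (i := 1) hσ (by rw [hs, pow_one]) h0 h1 h2]; ring
  have hs2 : σ (σ (JT.cD D)) = w ^ 2 * JT.cD D := by rw [hs, map_mul, hσ, hs]; ring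
  have hσσx : σ (σ u) = u₀ + u₁ * (w ^ 2 * s) + u₂ * (w ^ 2 * s) ^ 2 := by
    have := sig_rep (D := D) (σ := σ.trans σ) (i := 2) (by simp [hσ]) (by simpa using hs2) h0 h1 h2
    have e : (σ.trans σ) u = σ (σ u) := rfl
    rw [← e, hxe, this]
  have iσ : IsIntegral ℤ (σ u) := map_isIntegral_int σ hi
  have iσσ : IsIntegral ℤ (σ (σ u)) := map_isIntegral_int σ iσ
  have e0 : 3 * u₀ = u + σ u + σ (σ u) := by
    rw [hσσx, hσx, hxe]
    linear_combination (-u₁ * s - u₂ * s ^ 2 * (1 + w ^ 2 - w)) * hws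
  have e1 : 3 * (u₁ * s) = u + w ^ 2 * σ u + w * σ (σ u) := by
    rw [hσσx, hσx, hxe]
    linear_combination (-u₀ - u₂ * s ^ 2) * hws + (-2 * u₁ * s - u₂ * s ^ 2 * (w + w ^ 2)) * hw3
  have e2 : 3 * (u₂ * s ^ 2) = u + w * σ u + w ^ 2 * σ (σ u) := by
    rw [hσσx, hσx, hxe]
    linear_combination (-u₀ - u₁ * s) * hws + (-u₁ * s * w - u₂ * s ^ 2 * (w ^ 3 + 2)) * hw3
  have v3 : A.valuation 3 = 1 := by
    have e : (3 : ℂ) = 1 + 2 := by norm_num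
    rw [e]
    have h := Valuation.map_add_eq_of_lt_left A.valuation (x := (1 : ℂ)) (y := 2) (by rw [map_one]; exact hA)
    rw [h, map_one]
  have le1 : ∀ z : ℂ, IsIntegral ℤ (3 * z) → A.valuation z ≤ 1 := by
    intro z hz
    have h := val_of_int A hz
    rwa [map_mul, v3, one_mul] at h
  have l0 : A.valuation u₀ ≤ 1 := le1 _ (by rw [e0]; exact (hi.add iσ).add iσσ)
  have l1 : A.valuation (u₁ * s) ≤ 1 := le1 _ (by rw [e1]; exact (hi.add ((hwi.pow 2).mul iσ)).add (hwi.mul iσσ))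
  have l2 : A.valuation (u₂ * s ^ 2) ≤ 1 := le1 _ (by rw [e2]; exact (hi.add (hwi.mul iσ)).add ((hwi.pow 2).mul iσσ))
  have h20 : A.valuation (2 : ℂ) ≠ 0 := (Valuation.ne_zero_iff _).2 (by norm_num)
  have hzp : ∀ n : ℤ, n ≠ 0 → A.valuation (2 : ℂ) ^ n ≠ 1 := by
    intro n hn h
    rcases lt_or_gt_of_ne hn with h' | h'
    · have := one_lt_zpow_of_neg₀ (zero_lt_iff.2 h20) hA h'
      exact this.ne' h
    · have := zpow_lt_one₀ (zero_lt_iff.2 h20) hA h'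
      exact this.ne h
  have vD' : A.valuation (emb D') = 1 := by
    have h1 := val_of_int A (jta_emb_int D')
    exact le_antisymm h1 (not_lt.1 (fun h => hD' ((emb_lt A hA D').1 h)))
  have hs3 : A.valuation s ^ 3 = A.valuation 2 ^ v := by
    have e : s ^ 3 = 2 ^ v * emb D' := by
      rw [hsd, JT.cD_cube]
      conv_lhs => rw [hD]
      rw [map_mul, map_pow, map_ofNat]
    rw [← map_pow, e, map_mul, map_pow, vD', mul_one]
  have lt1 : A.valuation (u₁ * s) < 1 := by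
    refine lt_of_le_of_ne l1 ?_
    intro h
    by_cases hz : u₁ = 0
    · rw [hz, zero_mul, map_zero] at h; exact zero_ne_one h
    obtain ⟨q, n, -, -, -, hn⟩ := val_KK2 A hA h1 hz
    have h3 : A.valuation (u₁ * s) ^ 3 = A.valuation 2 ^ (3 * n + v) := by
      rw [map_mul, mul_pow, hn, hs3, zpow_add₀ h20, zpow_natCast, mul_comm 3 n, zpow_mul]
      norm_cast
    rw [h, one_pow] at h3
    refine hzp (3 * n + v) ?_ h3.symm
    intro h4
    exact hv (by omega)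
  have lt2 : A.valuation (u₂ * s ^ 2) < 1 := by
    refine lt_of_le_of_ne l2 ?_
    intro h
    by_cases hz : u₂ = 0
    · rw [hz, zero_mul, map_zero] at h; exact zero_ne_one h
    obtain ⟨q, n, -, -, -, hn⟩ := val_KK2 A hA h2 hz
    have h3 : A.valuation (u₂ * s ^ 2) ^ 3 = A.valuation 2 ^ (3 * n + v * 2) := by
      have e : (A.valuation s ^ 2) ^ 3 = (A.valuation s ^ 3) ^ 2 := by rw [← pow_mul, ← pow_mul]
      rw [map_mul, map_pow, mul_pow, hn, e, hs3, zpow_add₀ h20, mul_comm 3 n, zpow_mul, zpow_mul]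
      norm_cast
    rw [h, one_pow] at h3
    refine hzp (3 * n + v * 2) ?_ h3.symm
    intro h4
    exact hv (by omega)
  have hu1 : A.valuation u = 1 := by
    have h1 := val_of_int A hi
    have h2 := val_of_int A hu.2.2.2
    rw [map_inv₀] at h2
    have h3 : A.valuation u ≠ 0 := (Valuation.ne_zero_iff _).2 hu.2.1
    refine le_antisymm h1 ?_
    have h4 := (inv_le_one₀ (zero_lt_iff.2 h3)).1 h2
    exact h4
  have ltr : A.valuation (u - u₀) < 1 := by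
    have e : u - u₀ = u₁ * s + u₂ * s ^ 2 := by rw [hxe]; ring
    rw [e]; exact Valuation.map_add_lt _ lt1 lt2
  obtain ⟨b, hb⟩ : ∃ b : Eis, 3 * u₀ = emb b := by
    apply JL.KK_int
    · exact mul_mem (by have := JL.F0_emb_mem 3; rwa [map_ofNat] at this) h0
    · rw [e0]; exact (hi.add iσ).add iσσ
  have hb2 : ¬ (2 : Eis) ∣ b := by
    intro h
    have h3 := (emb_lt A hA b).2 h
    rw [← hb, map_mul, v3, one_mul] at h3
    have h4 : A.valuation u < 1 := by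
      have e : u = (u - u₀) + u₀ := by ring
      rw [e]; exact Valuation.map_add_lt _ ltr h3
    exact h4.ne hu1
  have hlt : A.valuation (u ^ 3 - 1) < 1 := by
    obtain ⟨c, hc'⟩ := jta_cube hb2
    have e27 : A.valuation (27 : ℂ) = 1 := by
      have e : (27 : ℂ) = 3 ^ 3 := by norm_num
      rw [e, map_pow, v3, one_pow]
    have k1 : A.valuation (u ^ 3 - u₀ ^ 3) < 1 := by
      have e : u ^ 3 - u₀ ^ 3 = (u - u₀) * (u ^ 2 + u * u₀ + u₀ ^ 2) := by ring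
      rw [e, map_mul]
      refine lt_of_le_of_lt (mul_le_of_le_one_right' (a := A.valuation (u - u₀)) ?_) ltr
      refine Valuation.map_add_le _ (Valuation.map_add_le _ ?_ ?_) ?_
      · rw [map_pow]; exact pow_le_one' hu1.le 2
      · rw [map_mul]; exact mul_le_one' hu1.le l0
      · rw [map_pow]; exact pow_le_one' l0 2
    have k2 : A.valuation (u₀ ^ 3 - 1) < 1 := by
      have e : 27 * (u₀ ^ 3 - 1) = 2 * (emb c - 13) := by
        have e' : emb b ^ 3 - 1 = 2 * emb c := by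
          rw [← map_pow, ← map_one emb, ← map_sub, hc', map_mul, map_ofNat]
        rw [← hb] at e'
        linear_combination e'
      have e'' : A.valuation (u₀ ^ 3 - 1) = A.valuation 2 * A.valuation (emb c - 13) := by
        rw [← map_mul, ← e, map_mul, e27, one_mul]
      rw [e'']
      refine lt_of_le_of_lt (mul_le_of_le_one_right' (a := A.valuation 2) ?_) hA
      exact val_of_int A ((jta_emb_int c).sub (by simpa using jta_int 13))
    have e : u ^ 3 - 1 = (u ^ 3 - u₀ ^ 3) + (u₀ ^ 3 - 1) := by ring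
    rw [e]; exact Valuation.map_add_lt _ k1 k2
  by_cases hz : u ^ 3 - 1 = 0
  · rw [hz, map_zero]; simp
  obtain ⟨n, hn⟩ := val_M A hA hD hD' hv (x := u ^ 3 - 1) (sub_mem (pow_mem hu.1 3) (one_mem _)) hz
  have hn1 : 1 ≤ n := by
    by_contra hneg
    have h3 : (1 : A.ValueGroup) ≤ A.valuation 2 ^ n := one_le_zpow_of_nonpos₀ (zero_lt_iff.2 h20) hA.le (by omega)
    rw [← hn] at h3
    have h4 : A.valuation (u ^ 3 - 1) ^ 3 < 1 := pow_lt_one' hlt (by norm_num)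
    exact absurd h3 (not_le.2 h4)
  rw [hn]
  have h5 := zpow_le_zpow_right_of_le_one₀ (zero_lt_iff.2 h20) hA.le hn1
  rwa [zpow_one] at h5

end J2L
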