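import Pool.Agent.J2L.JTa

/-!
# [J2L-JTb] the normal form of the units of norm `1` modulo `4` and squares, `v₂(D) = 1` (row R4b)

Proof. `s = cD D`, `s³ = D = 2 D'` (as complex numbers `s ^ 3 = emb D`). By `rep4` (`m = 0`, `k = 1`) `u ≡ b₀ + b₁ s + b₂ s² mod 4`. All the rest happens with triples
`P b₀ b₁ b₂ = emb b₀ + emb b₁ s + emb b₂ s²` modulo `4` (`Cg`):
 * multiplication by `(1 + t s)²`: `P b₀ b₁ b₂ (1 + t s)² = P (b₀ + D (2 t b₂ + t² b₁)) (b₁ + 2 t b₀ + D t² b₂) (b₂ + 2 t b₁ + t² b₀)` (exact identity);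
 * multiplication by `(1 + t s²)²`: `(1 + t s²)² = 1 + D t² s + 2 t s²`, so
   `P b₀ b₁ b₂ (1 + t s²)² = P (b₀ + D (D t² b₂ + 2 t b₁)) (b₁ + D t² b₀ + 2 D t b₂) (b₂ + D t² b₁ + 2 t b₀)`.
 Step 0: the norm `b₀³ + b₁³ D + b₂³ D² - 3 b₀ b₁ b₂ D` is `≡ 1 mod 4` (apply `σ`, `σ²` (`exists_sig`) to the congruence and multiply), so `b₀³ ≡ 1 mod 2`: `2 ∤ b₀`, and
 there is `i` with `b₀ ω^(2 i) ≡ 1 mod 2` (`b₀ ≡ 1, ω, ω² mod 2`); replace `u` by `u (ω^i)²`.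
 Step 1: `t = b₂²`: `b₂ + t² b₀ ≡ b₂ + b₂⁴ ≡ 0 mod 2`; now `b₀ ≡ 1`, `b₂ ≡ 0 mod 2`.
 Step 2: `b₁ ≡ a mod 2`, `a ∈ {0, 1, ω, ω²}` (`JT.R4 a`), `b₁ = a + 2 b`; `t = (b D'²)²`: `b₁ + D t² b₀ + 2 D t b₂ ≡ a + 2 (b + D' t²) ≡ a + 2 (b + D' (b D'²)⁴) ≡ a + 2 (b + D'³ b) ≡ a mod 4`
   (`x⁴ ≡ x mod 2`, `D'³ ≡ 1 mod 2`); the other coordinates keep `b₀ ≡ 1 mod 2`, `b₂ ≡ 0 mod 2`.
 Step 3: now `u c² ≡ P b₀ a (2 b) mod 4`; norms: `n² ≡ b₀³ + a³ D + 8 (..) - 6 b₀ a b D mod 4`, `n = N(c) ∈ ℤ[ω]`, `n² ≡ 1 mod 2` so `n ≡ 1 mod 2`, `n² ≡ 1 mod 4` (`D` is even); with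
   `b₀ = 1 + 2 β`: `b₀³ ≡ 1 + 6 β ≡ 1 + 2 β mod 4`, so `2 β + a³ D ≡ 0 mod 4`, `b₀ ≡ 1 + a³ D mod 4` (`- x ≡ x mod 4` for even `x`). Finally replace `b` by its representative in `R4`
   modulo `2`.
 `c` is integral and in `JT.KM D` all the time (`c = ω^i (1 + t s) (1 + t' s²)`).
-/

set_option autoImplicit false

open NumberField IsDedekindDomain Filter Topology
open scoped Classical ComplexConjugate

namespace J2L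

open CM27 JZ
open CU (la eE om)

variable {D : Eis}

/-- the norm of a polynomial in `s'` -/
theorem jti_norm {σ : ℂ ≃+* ℂ} (hσ : σ w = w) (hs : σ (JT.cD D) = w * JT.cD D) {m k : ℕ} {D' : Eis} (hD : D = 2 ^ (3 * m + k) * D') (b₀ b₁ b₂ : Eis) :
    (emb b₀ + emb b₁ * (JT.cD D / 2 ^ m) + emb b₂ * (JT.cD D / 2 ^ m) ^ 2) *
      σ (emb b₀ + emb b₁ * (JT.cD D / 2 ^ m) + emb b₂ * (JT.cD D / 2 ^ m) ^ 2) *
      σ (σ (emb b₀ + emb b₁ * (JT.cD D / 2 ^ m) + emb b₂ * (JT.cD D / 2 ^ m) ^ 2)) =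
      emb (b₀ ^ 3 + b₁ ^ 3 * (2 ^ k * D') + b₂ ^ 3 * (2 ^ k * D') ^ 2 - 3 * b₀ * b₁ * b₂ * (2 ^ k * D')) := by
  have hKK : ∀ z ∈ CF.KK, σ z = z := by
    intro z hz
    have := sig_rep (D := D) (i := 1) hσ (by rw [hs, pow_one]) hz (zero_mem CF.KK) (zero_mem CF.KK)
    simpa using this
  have hemb : ∀ b : Eis, σ (emb b) = emb b := fun b => hKK _ (JL.F0_emb_mem b)
  have h3 := jta_s3 hD
  set s := JT.cD D / 2 ^ m with hsd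
  have hss : σ s = w * s := by
    rw [hsd, map_div₀, map_pow, map_ofNat, hs]; ring
  have hws := jta_ws
  obtain ⟨E, hE⟩ : ∃ E, E = 2 ^ k * D' := ⟨_, rfl⟩
  rw [← hE] at h3 ⊢
  simp only [map_add, map_sub, map_mul, map_pow, map_ofNat, hemb, hss, hσ]
  rw [← h3]
  linear_combination ((emb b₀ + emb b₁ * s + emb b₂ * s ^ 2) * (emb b₀ * (emb b₁ * s) + emb b₀ * (emb b₂ * s ^ 2) * (1 - w + w ^ 2) + (emb b₁ * s) ^ 2 * (w - 1) +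
        (emb b₁ * s) * (emb b₂ * s ^ 2) * (w ^ 3 - w + 1) + (emb b₂ * s ^ 2) ^ 2 * (w ^ 3 + 1) * (w - 1))) * hws

/-- `b₀ + b₁ s + b₂ s²` -/
noncomputable def PP (D b₀ b₁ b₂ : Eis) : ℂ := emb b₀ + emb b₁ * JT.cD D + emb b₂ * JT.cD D ^ 2

theorem PP_int (b₀ b₁ b₂ : Eis) : IsIntegral ℤ (PP D b₀ b₁ b₂) :=
  ((jta_emb_int _).add ((jta_emb_int _).mul (JT.isIntegral_cD D))).add ((jta_emb_int _).mul ((JT.isIntegral_cD D).pow 2))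

theorem PP_norm {σ : ℂ ≃+* ℂ} (hσ : σ w = w) (hs : σ (JT.cD D) = w * JT.cD D) {D' : Eis} (hD : D = 2 * D') (b₀ b₁ b₂ : Eis) :
    PP D b₀ b₁ b₂ * σ (PP D b₀ b₁ b₂) * σ (σ (PP D b₀ b₁ b₂)) =
      emb (b₀ ^ 3 + b₁ ^ 3 * D + b₂ ^ 3 * D ^ 2 - 3 * b₀ * b₁ * b₂ * D) := by
  have hD2 : D = 2 ^ (3 * 0 + 1) * D' := by rw [hD]; norm_num
  have h := jti_norm hσ hs hD2 b₀ b₁ b₂
  rw [pow_zero, div_one] at h
  unfold PP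
  rw [h]
  congr 1
  rw [hD]; ring

theorem PP_A (b₀ b₁ b₂ t : Eis) : PP D b₀ b₁ b₂ * (1 + emb t * JT.cD D) ^ 2 =
    PP D (b₀ + D * (2 * t * b₂ + t ^ 2 * b₁)) (b₁ + 2 * t * b₀ + D * t ^ 2 * b₂) (b₂ + 2 * t * b₁ + t ^ 2 * b₀) := by
  have h := JT.cD_cube D
  unfold PP
  simp only [map_add, map_mul, map_pow, map_ofNat]
  linear_combination ((2 * emb t * emb b₂ + emb t ^ 2 * emb b₁) + emb t ^ 2 * emb b₂ * JT.cD D) * h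

theorem PP_B (b₀ b₁ b₂ t : Eis) : PP D b₀ b₁ b₂ * (1 + emb t * JT.cD D ^ 2) ^ 2 =
    PP D (b₀ + 2 * t * b₁ * D + t ^ 2 * b₂ * D ^ 2) (b₁ + (2 * t * b₂ + t ^ 2 * b₀) * D) (b₂ + 2 * t * b₀ + t ^ 2 * b₁ * D) := by
  have h := JT.cD_cube D
  unfold PP
  simp only [map_add, map_mul, map_pow, map_ofNat]
  linear_combination (2 * emb t * emb b₁ + (2 * emb t * emb b₂ + emb t ^ 2 * emb b₀) * JT.cD D + emb t ^ 2 * emb b₁ * JT.cD D ^ 2 +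
    emb t ^ 2 * emb b₂ * (JT.cD D ^ 3 + emb D)) * h

theorem PP_smul (b₀ b₁ b₂ r : Eis) : PP D b₀ b₁ b₂ * emb r ^ 2 = PP D (b₀ * r ^ 2) (b₁ * r ^ 2) (b₂ * r ^ 2) := by
  unfold PP
  simp only [map_mul, map_pow]
  ring

theorem PP_cg {b₀ b₁ b₂ c₀ c₁ c₂ : Eis} (h0 : (4 : Eis) ∣ b₀ - c₀) (h1 : (4 : Eis) ∣ b₁ - c₁) (h2 : (4 : Eis) ∣ b₂ - c₂) :
    Cg (PP D b₀ b₁ b₂) (PP D c₀ c₁ c₂) := by
  unfold PP
  exact ((emb_cg.2 h0).add ((emb_cg.2 h1).mul (Cg.refl _) (jta_emb_int _) (JT.isIntegral_cD D))).add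
    ((emb_cg.2 h2).mul (Cg.refl _) (jta_emb_int _) ((JT.isIntegral_cD D).pow 2))

theorem jtb_emb_mem (a : Eis) : emb a ∈ JT.KM D :=
  (J2N.mem_KM _).2 ⟨emb a, 0, 0, JL.F0_emb_mem a, zero_mem _, zero_mem _, by ring⟩

theorem nf_aux {D' : Eis} (hD : D = 2 * D') (hD' : ¬ (2 : Eis) ∣ D') (b₀ b₁ b₂ : Eis) (h0 : (2 : Eis) ∣ b₀ - 1) :
    ∃ (c : ℂ) (y a z : Eis), c ∈ JT.KM D ∧ IsIntegral ℤ c ∧ JT.R4 a ∧ (2 : Eis) ∣ y - 1 ∧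
      Cg (PP D b₀ b₁ b₂ * c ^ 2) (PP D y a (2 * z)) := by
  have hdom := eis_isDomain
  have hcm := J2N.cD_mem_KM D
  have hci := JT.isIntegral_cD D
  obtain ⟨g₀, hg₀⟩ := h0
  -- step 1
  obtain ⟨k₁, hk₁⟩ := jta_four b₂
  obtain ⟨x₀, hx₀⟩ : ∃ x, x = b₀ + D * (2 * b₂ ^ 2 * b₂ + (b₂ ^ 2) ^ 2 * b₁) := ⟨_, rfl⟩
  obtain ⟨x₁, hx₁⟩ : ∃ x, x = b₁ + 2 * b₂ ^ 2 * b₀ + D * (b₂ ^ 2) ^ 2 * b₂ := ⟨_, rfl⟩
  obtain ⟨z₂, hz₂⟩ : ∃ z, z = b₂ ^ 2 * b₁ + b₂ ^ 4 * g₀ + b₂ + k₁ := ⟨_, rfl⟩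
  have hA : PP D b₀ b₁ b₂ * (1 + emb (b₂ ^ 2) * JT.cD D) ^ 2 = PP D x₀ x₁ (2 * z₂) := by
    rw [PP_A, ← hx₀, ← hx₁]
    congr 1
    rw [hz₂]
    linear_combination b₂ ^ 4 * hg₀ + hk₁
  obtain ⟨g, hg⟩ : ∃ g, x₀ = 1 + 2 * g := ⟨g₀ + D' * (2 * b₂ ^ 2 * b₂ + (b₂ ^ 2) ^ 2 * b₁), by
    rw [hx₀, hD]; linear_combination hg₀⟩
  -- step 2
  obtain ⟨a, ha, ⟨b, hb⟩⟩ := jta_r4 x₁
  obtain ⟨t, ht⟩ : ∃ t, t = (b * D' ^ 2) ^ 2 := ⟨_, rfl⟩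
  obtain ⟨k₂, hk₂⟩ := jta_four (b * D' ^ 2)
  obtain ⟨k₃, hk₃⟩ := jta_cube hD'
  have hB := PP_B (D := D) x₀ x₁ (2 * z₂) t
  refine ⟨(1 + emb (b₂ ^ 2) * JT.cD D) * (1 + emb t * JT.cD D ^ 2), x₀ + 2 * t * x₁ * D + t ^ 2 * (2 * z₂) * D ^ 2, a,
    z₂ + t * x₀ + t ^ 2 * x₁ * D', ?_, ?_, ha, ?_, ?_⟩
  · exact mul_mem (add_mem (one_mem _) (mul_mem (jtb_emb_mem _) hcm)) (add_mem (one_mem _) (mul_mem (jtb_emb_mem _) (pow_mem hcm 2)))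
  · exact (isIntegral_one.add ((jta_emb_int _).mul hci)).mul (isIntegral_one.add ((jta_emb_int _).mul (hci.pow 2)))
  · refine ⟨g + t * x₁ * D + t ^ 2 * z₂ * D ^ 2, ?_⟩
    rw [hg]; ring
  · rw [mul_pow, ← mul_assoc, hA, hB]
    refine PP_cg ⟨0, by ring⟩ ⟨b + 2 * t * z₂ * D' + t ^ 2 * g * D' + k₂ * D' + b * k₃, ?_⟩ ⟨0, ?_⟩
    · have e1 : t ^ 2 = b * D' ^ 2 + 2 * k₂ := by
        rw [ht]; linear_combination hk₂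
      have e2 : D' ^ 3 = 1 + 2 * k₃ := by linear_combination hk₃
      have e3 : x₁ = a + 2 * b := by linear_combination hb
      rw [e3, hg, hD]
      linear_combination 2 * D' * e1 + 2 * b * e2
    · rw [hD]; ring

/-- [R4b] the normal form, `v₂(D) = 1` -/
theorem nf_exists (hc : ¬ ∃ x : Eis, x ^ 3 = D) {D' : Eis} (hD : D = 2 * D') (hD' : ¬ (2 : Eis) ∣ D') {u : ℂ} (hu : N1 D u) :
    ∃ (a b : Eis) (c : ℂ), JT.R4 a ∧ JT.R4 b ∧ c ∈ JT.KM D ∧ IsIntegral ℤ c ∧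
      IsIntegral ℤ ((u * c ^ 2 - 1 - emb a * JT.cD D - emb (a ^ 3 * D) - 2 * emb b * JT.cD D ^ 2) / 4) := by
  have hdom := eis_isDomain
  have h2 : (2 : Eis) ≠ 0 := by decide
  obtain ⟨σ, hσ, hs⟩ := exists_sig hc
  have hU := N1.isU hc hu
  have hui := hU.2.2.1
  have hN := ((n1_iff hσ hs u).1 hu).2.2
  have hD2 : D = 2 ^ (3 * 0 + 1) * D' := by rw [hD]; norm_num
  obtain ⟨b₀, b₁, b₂, hb⟩ := rep4 hc le_rfl hD2 hD' hU.1 hui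
  rw [pow_zero, div_one] at hb
  change Cg u (PP D b₀ b₁ b₂) at hb
  -- the norm of a congruence
  have nrm : ∀ {x y : ℂ}, IsIntegral ℤ x → IsIntegral ℤ y → Cg x y → Cg (x * σ x * σ (σ x)) (y * σ y * σ (σ y)) := by
    intro x y hx hy h
    exact (h.mul (h.map σ) hy (map_isIntegral_int σ hx)).mul ((h.map σ).map σ) (hy.mul (map_isIntegral_int σ hy))
      (map_isIntegral_int σ (map_isIntegral_int σ hx))
  have n0 := nrm hui (PP_int b₀ b₁ b₂) hb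
  rw [hN, PP_norm hσ hs hD, ← map_one emb, emb_cg] at n0
  obtain ⟨k, hk⟩ := n0
  have hodd : ¬ (2 : Eis) ∣ b₀ := by
    rintro ⟨c, hc'⟩
    have : (2 : Eis) ∣ 1 := by
      refine ⟨2 * k + 4 * c ^ 3 + b₁ ^ 3 * D' + b₂ ^ 3 * 2 * D' ^ 2 - 6 * c * b₁ * b₂ * D', ?_⟩
      rw [hc', hD] at hk
      linear_combination hk
    exact Q3.prime_two.not_isUnit (isUnit_of_dvd_one this)
  obtain ⟨r, hr, ⟨k', hk'⟩⟩ := jta_r4 b₀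
  have hr0 : r ≠ 0 := by
    rintro rfl
    exact hodd ⟨k', by linear_combination hk'⟩
  have hr3 : r ^ 3 = 1 := by
    rcases hr with rfl | rfl | rfl | rfl
    · exact absurd rfl hr0
    · decide
    · decide
    · decide
  obtain ⟨c, y, a, z, hcm, hci, ha, ⟨β, hβ⟩, hcg⟩ := nf_aux hD hD' (b₀ * r ^ 2) (b₁ * r ^ 2) (b₂ * r ^ 2)
    ⟨k' * r ^ 2, by linear_combination r ^ 2 * hk' + hr3⟩
  obtain ⟨C, hC⟩ : ∃ C, C = emb r * c := ⟨_, rfl⟩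
  have hCi : IsIntegral ℤ C := by rw [hC]; exact (jta_emb_int _).mul hci
  have hCm : C ∈ JT.KM D := by rw [hC]; exact mul_mem (jtb_emb_mem _) hcm
  have hQ : Cg (u * C ^ 2) (PP D y a (2 * z)) := by
    have e1 : PP D b₀ b₁ b₂ * C ^ 2 = PP D (b₀ * r ^ 2) (b₁ * r ^ 2) (b₂ * r ^ 2) * c ^ 2 := by
      rw [hC, ← PP_smul]; ring
    have h1 := hb.mul (Cg.refl (C ^ 2)) (PP_int b₀ b₁ b₂) (hCi.pow 2)
    rw [e1] at h1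
    exact h1.trans hcg
  -- the norm
  obtain ⟨n, hn⟩ : ∃ n : Eis, C * σ C * σ (σ C) = emb n := by
    apply JL.KK_int
    · obtain ⟨v₀, v₁, v₂, hv0, hv1, hv2, he⟩ := (J2N.mem_KM C).1 hCm
      have hσC : σ C = v₀ + v₁ * (w * JT.cD D) + v₂ * (w * JT.cD D) ^ 2 := by
        rw [he, sig_rep (i := 1) hσ (by rw [hs, pow_one]) hv0 hv1 hv2]; ring
      have hs2 : σ (σ (JT.cD D)) = w ^ 2 * JT.cD D := by rw [hs, map_mul, hσ, hs]; ring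
      have hσσC : σ (σ C) = v₀ + v₁ * (w ^ 2 * JT.cD D) + v₂ * (w ^ 2 * JT.cD D) ^ 2 := by
        have := sig_rep (D := D) (σ := σ.trans σ) (i := 2) (by simp [hσ]) (by simpa using hs2) hv0 hv1 hv2
        have e : (σ.trans σ) C = σ (σ C) := rfl
        rw [← e, he, this]
      have hws := jta_ws
      have e : C * σ C * σ (σ C) = v₀ ^ 3 + v₁ ^ 3 * emb D + v₂ ^ 3 * emb D ^ 2 - 3 * v₀ * v₁ * v₂ * emb D := by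
        rw [hσσC, hσC, he, ← JT.cD_cube D]
        linear_combination ((v₀ + v₁ * JT.cD D + v₂ * JT.cD D ^ 2) * (v₀ * (v₁ * JT.cD D) + v₀ * (v₂ * JT.cD D ^ 2) * (1 - w + w ^ 2) +
          (v₁ * JT.cD D) ^ 2 * (w - 1) + (v₁ * JT.cD D) * (v₂ * JT.cD D ^ 2) * (w ^ 3 - w + 1) +
          (v₂ * JT.cD D ^ 2) ^ 2 * (w ^ 3 + 1) * (w - 1))) * hws
      rw [e]
      have h3 : (3 : ℂ) ∈ CF.KK := by have := JL.F0_emb_mem 3; rwa [map_ofNat] at this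
      have hEm := JL.F0_emb_mem D
      exact sub_mem (add_mem (add_mem (pow_mem hv0 3) (mul_mem (pow_mem hv1 3) hEm)) (mul_mem (pow_mem hv2 3) (pow_mem hEm 2)))
        (mul_mem (mul_mem (mul_mem (mul_mem h3 hv0) hv1) hv2) hEm)
    · exact (hCi.mul (map_isIntegral_int σ hCi)).mul (map_isIntegral_int σ (map_isIntegral_int σ hCi))
  have n1 := nrm (hui.mul (hCi.pow 2)) (PP_int y a (2 * z)) hQ
  have e2 : u * C ^ 2 * σ (u * C ^ 2) * σ (σ (u * C ^ 2)) = emb (n ^ 2) := by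
    simp only [map_mul, map_pow]
    rw [← hn]
    linear_combination (C ^ 2 * σ C ^ 2 * σ (σ C) ^ 2) * hN
  rw [e2, PP_norm hσ hs hD, emb_cg] at n1
  obtain ⟨l, hl⟩ := n1
  have hy : y = 1 + 2 * β := by linear_combination hβ
  have hn2 : (2 : Eis) ∣ n - 1 := by
    have h3 : (2 : Eis) ∣ (n - 1) * (n - 1) := by
      refine ⟨2 * l + (3 * β + 6 * β ^ 2 + 4 * β ^ 3) + a ^ 3 * D' + (2 * z) ^ 3 * 2 * D' ^ 2 - 3 * y * a * (2 * z) * D' - n + 1, ?_⟩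
      rw [hD] at hl
      rw [hy] at hl ⊢
      linear_combination hl
    rcases Q3.prime_two.dvd_or_dvd h3 with h | h <;> exact h
  obtain ⟨ν, hν⟩ := hn2
  have hn' : n = 1 + 2 * ν := by linear_combination hν
  have h4 : (4 : Eis) ∣ y - (1 + a ^ 3 * D) := by
    refine ⟨-l - β - 3 * β ^ 2 - 2 * β ^ 3 + ν + ν ^ 2 - 2 * z ^ 3 * D ^ 2 + 3 * y * a * z * D' - a ^ 3 * D', ?_⟩
    rw [hn', hy] at hl
    rw [hy]
    rw [hD] at hl ⊢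
    linear_combination -hl
  obtain ⟨b, hb4, ⟨m, hm⟩⟩ := jta_r4 z
  refine ⟨a, b, C, ha, hb4, hCm, hCi, ?_⟩
  have h5 : Cg (PP D y a (2 * z)) (PP D (1 + a ^ 3 * D) a (2 * b)) :=
    PP_cg h4 ⟨0, by ring⟩ ⟨m, by linear_combination 2 * hm⟩
  have h6 := hQ.trans h5
  unfold Cg PP at h6
  have e3 : (u * C ^ 2 - 1 - emb a * JT.cD D - emb (a ^ 3 * D) - 2 * emb b * JT.cD D ^ 2) / 4 =
      (u * C ^ 2 - (emb (1 + a ^ 3 * D) + emb a * JT.cD D + emb (2 * b) * JT.cD D ^ 2)) / 4 := by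
    simp only [map_add, map_mul, map_one, map_ofNat, map_pow]; ring
  rw [e3]; exact h6

end J2L
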