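import Pool.Agent.J2L.N0
import Pool.Agent.JT.T2

/-!
# [J2L-JTc] products of units of norm `1` satisfying `On2`

`on2_l2`: the condition `On2` for a triple of norm `1` with integral value is the local condition `JT.L2` (`JT.on2_iff`, `JT.on2F_iff`); `JT.L2` is multiplicative (`JT.lc2`).
-/

set_option autoImplicit false

open NumberField IsDedekindDomain Filter Topology
open scoped Classical ComplexConjugate

namespace J2L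

open CM27 CF JZ JD
open CU (la eE om)

variable {D : Eis}

/-- `On2` is the local condition at `2` -/
theorem on2_l2 (h : JT.Cl2 D) {U : CF.KK × CF.KK × CF.KK} (hn : JT.nm (jK D) U = 1)
    (hi : IsIntegral ℤ ((U.1 : ℂ) + (U.2.1 : ℂ) * JT.cD D + (U.2.2 : ℂ) * JT.cD D ^ 2)) :
    JT.On2 D (JT.cD D) ((U.1 : ℂ) + (U.2.1 : ℂ) * JT.cD D + (U.2.2 : ℂ) * JT.cD D ^ 2) ↔ JT.L2 D U := by
  letI := algK (JT.KM D) (JT.w_memM D)
  obtain ⟨σ, hQ⟩ := JT.exists_cubM h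
  have hev := JT.T2b_ev (D := D) U
  have hx : IsIntegral ℤ (JT.ev (JT.mp (algebraMap CF.KK (JT.KM D)) U) (⟨JT.cD D, JT.cD_mem D⟩ : JT.KM D)) :=
    (JT.T2b_int _ _ hev).1 hi
  rw [← JT.on2F_iff h hQ hn hx, ← JT.on2_iff, hev]

/-- the triple of an element of norm `1` -/
theorem n1_tr {u : ℂ} (hu : N1 D u) : ∃ U : CF.KK × CF.KK × CF.KK, JT.nm (jK D) U = 1 ∧
    u = (U.1 : ℂ) + (U.2.1 : ℂ) * JT.cD D + (U.2.2 : ℂ) * JT.cD D ^ 2 := by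
  obtain ⟨-, u₀, u₁, u₂, h0, h1, h2, he, hn⟩ := hu
  refine ⟨((⟨u₀, h0⟩ : CF.KK), (⟨u₁, h1⟩ : CF.KK), (⟨u₂, h2⟩ : CF.KK)), ?_, he⟩
  have hnm := JT.T2b_nm (D := D) ((⟨u₀, h0⟩ : CF.KK), (⟨u₁, h1⟩ : CF.KK), (⟨u₂, h2⟩ : CF.KK))
  apply Subtype.ext
  rw [← hnm]
  exact hn

/-- [R1] -/
theorem on2_mul (h : JT.Cl2 D) {u v : ℂ} (hu : N1 D u) (hv : N1 D v) (h1 : JT.On2 D (JT.cD D) u) (h2 : JT.On2 D (JT.cD D) v) :
    JT.On2 D (JT.cD D) (u * v) := by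
  obtain ⟨U, hU, rfl⟩ := n1_tr hu
  obtain ⟨V, hV, rfl⟩ := n1_tr hv
  have hd : ((jK D : CF.KK) : ℂ) = emb D := CU.eE_coe D
  have e : ((U.1 : ℂ) + (U.2.1 : ℂ) * JT.cD D + (U.2.2 : ℂ) * JT.cD D ^ 2) *
      ((V.1 : ℂ) + (V.2.1 : ℂ) * JT.cD D + (V.2.2 : ℂ) * JT.cD D ^ 2) =
      (((JT.mu (jK D) U V).1 : CF.KK) : ℂ) + (((JT.mu (jK D) U V).2.1 : CF.KK) : ℂ) * JT.cD D +
        (((JT.mu (jK D) U V).2.2 : CF.KK) : ℂ) * JT.cD D ^ 2 := by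
    have h3 := JT.ev_mu (JT.cD_cube D) (JT.mp (algebraMap CF.KK ℂ) U) (JT.mp (algebraMap CF.KK ℂ) V)
    have h4 := JT.mp_mu (algebraMap CF.KK ℂ) (jK D) U V
    have h5 : algebraMap CF.KK ℂ (jK D) = emb D := CU.eE_coe D
    rw [h5] at h4
    rw [← h4] at h3
    exact h3.symm
  have hi := hu.1.mul hv.1
  rw [e] at hi ⊢
  have hn : JT.nm (jK D) (JT.mu (jK D) U V) = 1 := by rw [JT.nm_mu, hU, hV, one_mul]
  rw [on2_l2 h hn hi]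
  letI := algK (JT.KM D) (JT.w_memM D)
  obtain ⟨σ, hQ⟩ := JT.exists_cubM h
  have hL := JT.lc2 h hQ
  refine hL.mul U V ?_ ?_ ?_ ?_ ((on2_l2 h hU hu.1).1 h1) ((on2_l2 h hV hv.1).1 h2)
  · rw [hU]; exact one_ne_zero
  · rw [hU]; exact IsSquare.one
  · rw [hV]; exact one_ne_zero
  · rw [hV]; exact IsSquare.one

end J2L
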