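import Pool.Agent.J2L.JTb

/-!
# [J2L-JTi] interface to the D side: the condition `On2` and the digits of units of norm `1`
-/

set_option autoImplicit false

open NumberField IsDedekindDomain Filter Topology
open scoped Classical ComplexConjugate

namespace J2L

open CM27 JZ
open CU (la eE om)

variable {D : Eis}

theorem jti_om3 : (om : Eis) ^ 3 = 1 := by decide

theorem jti_r4om {a : Eis} (ha : JT.R4 a) : JT.R4 (a * om) := by
  rcases ha with rfl | rfl | rfl | rfl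
  · exact Or.inl (by decide)
  · exact Or.inr (Or.inr (Or.inl (by decide)))
  · exact Or.inr (Or.inr (Or.inr (by decide)))
  · exact Or.inr (Or.inl (by decide))

theorem jti_dec (h : JT.Cl2 D) : ∃ (v : ℕ) (D' : Eis), v < 6 ∧ D = 2 ^ v * D' ∧ ¬ (2 : Eis) ∣ D' := by
  have hdom := eis_isDomain
  have hpid : IsPrincipalIdealRing Eis := eis_pid
  have hD0 : D ≠ 0 := by
    intro h0
    exact h.ncube ⟨0, by rw [h0]; norm_num⟩
  obtain ⟨n, b, hb, he⟩ := WfDvdMonoid.max_power_factor' hD0 Q3.prime_two.not_isUnit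
  refine ⟨n, b, ?_, he, hb⟩
  by_contra hn
  apply h.free 2 Q3.prime_two
  rw [he]
  exact (pow_dvd_pow 2 (not_lt.1 hn)).mul_right b

/-- [R2] -/
theorem on2_sq (h : JT.Cl2 D) {y : ℂ} (hy : IsU D y) : JT.On2 D (JT.cD D) (y ^ 2) := by
  obtain ⟨v, D', hv, hD, hD'⟩ := jti_dec h
  have hc := h.ncube
  have case3 : ∀ m : ℕ, m ≤ 1 → v = 3 * m → (∃ q₁ q₂ : Eis, JT.W2 m D' (2 * q₁) (2 * q₂)) → JT.On2 D (JT.cD D) (y ^ 2) := by
    rintro m hm hvm ⟨q₁, q₂, hW⟩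
    have hD8 : D = 8 ^ m * D' := by rw [hD, hvm, pow_mul]; norm_num
    refine Or.inl ⟨m, D', 2 * q₁, 2 * q₂, hm, hD8, hD', hW, ?_⟩
    have h1 := pow63 hc hD8 hD' hy
    have hsi : IsIntegral ℤ (JT.cD D / 2 ^ m) := jta_sint (k := 0) (by rw [add_zero, ← hvm]; exact hD)
    have e : ((y ^ 2) ^ 63 - 1 - 2 * (emb (2 * q₁) * (JT.cD D / 2 ^ m) + emb (2 * q₂) * (JT.cD D / 2 ^ m) ^ 2)) / 4 =
        (y ^ 63 - 1) / 2 * ((y ^ 63 - 1) / 2 + 1) - (emb q₁ * (JT.cD D / 2 ^ m) + emb q₂ * (JT.cD D / 2 ^ m) ^ 2) := by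
      simp only [map_mul, map_ofNat]; ring
    rw [e]
    exact (h1.mul (h1.add isIntegral_one)).sub (((jta_emb_int _).mul hsi).add ((jta_emb_int _).mul (hsi.pow 2)))
  have caser : v = 2 ∨ v = 4 ∨ v = 5 → JT.On2 D (JT.cD D) (y ^ 2) := by
    intro hv'
    refine Or.inr (Or.inl ⟨v, D', hv', hD, hD', ?_⟩)
    have e4 : (((y ^ 2) ^ 3 - 1) ^ 3 / 4 : ℂ) = ((y ^ 2) ^ 3 - 1) ^ 3 / 2 ^ 2 := by norm_num
    rw [e4]
    refine int_of_val ((((hy.2.2.1.pow 2).pow 3).sub isIntegral_one).pow 3) ?_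
    intro A hA
    have k1 := pow3 hc (v := v) (by omega) hD hD' hy A hA
    have h20 : A.valuation (2 : ℂ) ≠ 0 := (Valuation.ne_zero_iff _).2 (by norm_num)
    have k2 : A.valuation (y ^ 3 + 1) ^ 3 ≤ A.valuation 2 := by
      have e : y ^ 3 + 1 = (y ^ 3 - 1) + 2 := by ring
      rw [e]
      have k3 := Valuation.map_add A.valuation (y ^ 3 - 1) 2
      rcases le_max_iff.1 k3 with k | k
      · exact (pow_le_pow_left' k 3).trans k1
      · refine (pow_le_pow_left' k 3).trans ?_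
        calc A.valuation (2 : ℂ) ^ 3 = A.valuation 2 * A.valuation 2 ^ 2 := by rw [pow_succ', pow_two]
          _ ≤ A.valuation 2 * 1 := mul_le_mul' le_rfl (pow_le_one' hA.le 2)
          _ = A.valuation 2 := mul_one _
    have e6 : (y ^ 2) ^ 3 - 1 = (y ^ 3 - 1) * (y ^ 3 + 1) := by ring
    rw [map_div₀, map_pow, map_pow, e6, map_mul, mul_pow]
    apply div_le_one_of_le₀ _ zero_le'
    rw [pow_two]
    exact mul_le_mul' k1 k2
  interval_cases v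
  · refine case3 0 (by norm_num) rfl ?_
    obtain ⟨e, he, h1⟩ := jta_r4 D'
    obtain ⟨t, ht⟩ := h1
    obtain ⟨d, hd, h2⟩ := jta_r4 (e ^ 2 * t)
    obtain ⟨t', ht'⟩ := h2
    have he0 : e ≠ 0 := by
      rintro rfl
      exact hD' ⟨t, by linear_combination ht⟩
    have he3 : e ^ 3 = 1 := by
      rcases he with rfl | rfl | rfl | rfl
      · exact absurd rfl he0
      · decide
      · decide
      · decide
    refine ⟨0, 0, Or.inl ⟨rfl, e, d, 0, he, hd, Or.inl rfl, ?_, ?_, ?_⟩⟩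
    · refine ⟨e * t', ?_⟩
      linear_combination ht - 2 * t * he3 + 2 * e * ht'
    · simp
    · simp
  · refine Or.inr (Or.inr ⟨D', by rw [hD, pow_one], hD', 0, y⁻¹, Or.inl rfl, inv_mem hy.1, hy.2.2.2, ?_⟩)
    have h0 := hy.2.1
    have e : (y ^ 2 * y⁻¹ ^ 2 - 1 - emb 0 * JT.cD D - emb (0 ^ 3 * D)) / 4 = 0 := by
      have e1 : y ^ 2 * y⁻¹ ^ 2 = 1 := by rw [← mul_pow, mul_inv_cancel₀ h0, one_pow]
      rw [e1]; simp
    rw [e]; exact isIntegral_zero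
  · exact caser (by norm_num)
  · refine case3 1 le_rfl rfl ⟨0, 0, Or.inr ⟨rfl, by simp⟩⟩
  · exact caser (by norm_num)
  · exact caser (by norm_num)

theorem jti_omw : emb om = w := CU.emb_om

/-- [R3] -/
theorem on2_gal (h : JT.Cl2 D) {σ : ℂ ≃+* ℂ} (hσ : σ w = w) (hs : σ (JT.cD D) = w * JT.cD D) {u : ℂ} (hu : JT.On2 D (JT.cD D) u) :
    JT.On2 D (JT.cD D) (σ u) := by
  have hdom := eis_isDomain
  have hKK : ∀ z ∈ CF.KK, σ z = z := by
    intro z hz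
    have := sig_rep (D := D) (i := 1) hσ (by rw [hs, pow_one]) hz (zero_mem CF.KK) (zero_mem CF.KK)
    simpa using this
  have hemb : ∀ b : Eis, σ (emb b) = emb b := fun b => hKK _ (JL.F0_emb_mem b)
  rcases hu with ⟨m, D', q₁, q₂, hm, hD, hD', hW, hi⟩ | ⟨k, D', hk, hD, hD', hi⟩ | ⟨D', hD, hD', a, c, ha, hc, hci, hi⟩
  · refine Or.inl ⟨m, D', q₁ * om, q₂ * om ^ 2, hm, hD, hD', ?_, ?_⟩
    · rcases hW with ⟨hm0, e, d, a, he, hd, ha, h4, ⟨t₁, h1⟩, ⟨t₂, h2⟩⟩ | ⟨hm1, h2⟩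
      · refine Or.inl ⟨hm0, e, d, a * om, he, hd, jti_r4om ha, h4, ⟨om * t₁, ?_⟩, ⟨om ^ 2 * t₂, ?_⟩⟩
        · linear_combination om * h1
        · linear_combination om ^ 2 * h2
      · exact Or.inr ⟨hm1, h2.mul_right _⟩
    · have h1 := map_isIntegral_int σ hi
      simp only [map_div₀, map_sub, map_mul, map_add, map_pow, map_one, map_ofNat, hemb, hs] at h1
      simp only [map_mul, map_pow, jti_omw]
      convert h1 using 1
      ring
  · refine Or.inr (Or.inl ⟨k, D', hk, hD, hD', ?_⟩)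
    have h1 := map_isIntegral_int σ hi
    simpa only [map_div₀, map_sub, map_mul, map_add, map_pow, map_one, map_ofNat] using h1
  · refine Or.inr (Or.inr ⟨D', hD, hD', a * om, σ c, jti_r4om ha, ?_, map_isIntegral_int σ hci, ?_⟩)
    · obtain ⟨u₀, u₁, u₂, h0, h1, h2, he⟩ := (J2N.mem_KM c).1 hc
      rw [he, sig_rep (i := 1) hσ (by rw [hs, pow_one]) h0 h1 h2]
      refine (J2N.mem_KM _).2 ⟨u₀, u₁ * w, u₂ * w ^ 2, h0, mul_mem h1 CF.d2_w_mem, mul_mem h2 (pow_mem CF.d2_w_mem 2), by ring⟩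
    · have h1 := map_isIntegral_int σ hi
      simp only [map_div₀, map_sub, map_mul, map_add, map_pow, map_one, map_ofNat, hemb, hs] at h1
      have e : (a * om) ^ 3 * D = a ^ 3 * D := by rw [mul_pow, jti_om3, mul_one]
      rw [e]
      simp only [map_mul, map_pow, jti_omw]
      convert h1 using 1
      ring

/-- [R4a] the digits, `v₂(D) = 0, 3` -/
theorem dig_exists (hc : ¬ ∃ x : Eis, x ^ 3 = D) {m : ℕ} {D' : Eis} (hm : m ≤ 1) (hD : D = 8 ^ m * D') (hD' : ¬ (2 : Eis) ∣ D') {u : ℂ} (hu : N1 D u) :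
    ∃ q₁ q₂ : Eis, IsIntegral ℤ ((u ^ 63 - 1 - 2 * (emb q₁ * (JT.cD D / 2 ^ m) + emb q₂ * (JT.cD D / 2 ^ m) ^ 2)) / 4) := by
  have hdom := eis_isDomain
  obtain ⟨σ, hσ, hs⟩ := exists_sig hc
  have hU := N1.isU hc hu
  have hN := ((n1_iff hσ hs u).1 hu).2.2
  have hD2 : D = 2 ^ (3 * m + 0) * D' := by rw [hD, add_zero, pow_mul]; norm_num
  have h1 := pow63 hc hD hD' hU
  have hmem : (u ^ 63 - 1) / 2 ∈ JT.KM D := div_mem (sub_mem (pow_mem hU.1 63) (one_mem _)) (by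
    have : ((2 : ℚ) : ℂ) ∈ JT.KM D := (JT.KM D).algebraMap_mem 2
    simpa using this)
  obtain ⟨b₀, b₁, b₂, hb⟩ := rep4 hc (Nat.zero_le 1) hD2 hD' hmem h1
  have hsi : IsIntegral ℤ (JT.cD D / 2 ^ m) := jta_sint hD2
  have hn := jti_norm hσ hs hD2 (1 + 2 * b₀) (2 * b₁) (2 * b₂)
  set s := JT.cD D / 2 ^ m with hsd
  obtain ⟨z, hz⟩ : ∃ z, z = emb (1 + 2 * b₀) + emb (2 * b₁) * s + emb (2 * b₂) * s ^ 2 := ⟨_, rfl⟩
  rw [← hz] at hn
  have hzi : IsIntegral ℤ z := by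
    rw [hz]
    exact ((jta_emb_int _).add ((jta_emb_int _).mul hsi)).add ((jta_emb_int _).mul (hsi.pow 2))
  have hcg : Cg (u ^ 63) z := by
    unfold Cg at hb ⊢
    have e : (u ^ 63 - z) / 4 = ((2 : ℤ) : ℂ) * (((u ^ 63 - 1) / 2 - (emb b₀ + emb b₁ * s + emb b₂ * s ^ 2)) / 4) := by
      rw [hz]; simp only [map_add, map_mul, map_ofNat, map_one]; push_cast; ring
    rw [e]; exact (jta_int 2).mul hb
  have hui := hU.2.2.1.pow 63
  have c1 := hcg.map σ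
  have c2 := c1.map σ
  have c3 := (hcg.mul c1 hzi (map_isIntegral_int σ hui)).mul c2 (hzi.mul (map_isIntegral_int σ hzi)) (map_isIntegral_int σ (map_isIntegral_int σ hui))
  rw [hn] at c3
  have e1 : u ^ 63 * σ (u ^ 63) * σ (σ (u ^ 63)) = emb 1 := by
    rw [map_pow, map_pow, ← mul_pow, ← mul_pow, hN, one_pow, map_one]
  rw [e1, emb_cg] at c3
  obtain ⟨t, ht⟩ := c3
  have d1 : (2 : Eis) ∣ b₀ := by
    refine ⟨-t - b₀ - 3 * b₀ ^ 2 - 2 * b₀ ^ 3 - 2 * b₁ ^ 3 * (2 ^ 0 * D') - 2 * b₂ ^ 3 * (2 ^ 0 * D') ^ 2 + 3 * (1 + 2 * b₀) * b₁ * b₂ * (2 ^ 0 * D'), ?_⟩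
    have h2 : (2 : Eis) ≠ 0 := by decide
    apply mul_left_cancel₀ h2
    linear_combination -ht
  obtain ⟨c₀, hc₀⟩ := d1
  refine ⟨b₁, b₂, ?_⟩
  have e2 : (u ^ 63 - 1 - 2 * (emb b₁ * s + emb b₂ * s ^ 2)) / 4 = (u ^ 63 - z) / 4 + emb c₀ := by
    rw [hz, hc₀]; simp only [map_add, map_mul, map_ofNat, map_one]; ring
  rw [e2]
  exact IsIntegral.add hcg (jta_emb_int _)

end J2L
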