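import Pool.Agent.J2L.A0

/-!
# [J2L-S0] the functional `SF L g = ∑_{c mod f} q(c) k(c) g(c/f)` and half systems
-/

set_option autoImplicit false

open scoped Classical

namespace J2L

open CM27

open CU (om)

open CUL (Nl ez IsRep rp cr zw)

open Q3V (OT)

/-- `∑_{c mod f} q(c) k(c) g(c/f)` -/
noncomputable def SF (L : Lv) (g : ℂ → ℂ) : ℂ := ∑ c ∈ rp L.f, (L.q c : ℂ) * L.k c * g (pt L c)

/-- a function on `ℂ / ℤ[ω]` -/
def Per (g : ℂ → ℂ) : Prop := ∀ (z : ℂ) (e : Eis), g (z + emb e) = g z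

private theorem s0a_one_cop (L : Lv) : IsCoprime (1 : Eis) L.f := isCoprime_one_left

private theorem s0a_k_one (L : Lv) : L.k 1 = 1 := by
  obtain ⟨i, hi⟩ := L.k_cube 1 (s0a_one_cop L)
  have h1 : L.k 1 = L.k 1 * L.k 1 := by
    have := L.k_mul 1 1
    rwa [mul_one] at this
  have h2 : L.k 1 ≠ 0 := by rw [hi]; exact CUL.zw_ne i
  exact mul_left_cancel₀ h2 (by rw [← h1, mul_one])

private theorem s0a_not_unit (L : Lv) : ¬ IsUnit L.f := by
  intro hu
  obtain ⟨x, hx, hx1⟩ := L.k_non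
  apply hx1
  rw [L.k_per x 1 (hu.dvd), s0a_k_one]

private theorem s0a_norm_odd (a : Eis) (h : ¬ (2 : Eis) ∣ a) : Odd a.norm := by
  have hn : a.norm = a.re * a.re + -(a.re * a.im) + a.im * a.im := by
    simp [QuadraticAlgebra.norm_def]
  rcases Int.even_or_odd' a.re with ⟨x, hx | hx⟩ <;> rcases Int.even_or_odd' a.im with ⟨y, hy | hy⟩
  · exfalso
    apply h
    refine ⟨⟨x, y⟩, ?_⟩
    have h2 : (2 : Eis) = ⟨2, 0⟩ := by decide
    rw [h2]
    ext
    · simp [hx]
    · simp [hy]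
  · rw [hn, hx, hy]
    exact ⟨2 * x ^ 2 - x * (2 * y + 1) + 2 * y ^ 2 + 2 * y, by ring⟩
  · rw [hn, hx, hy]
    exact ⟨2 * x ^ 2 + 2 * x - (2 * x + 1) * y + 2 * y ^ 2, by ring⟩
  · rw [hn, hx, hy]
    exact ⟨2 * x ^ 2 + x + 2 * y ^ 2 + y - 2 * x * y, by ring⟩

/-- [S0.1] `f` is not a unit (`k` is not trivial), `f` is odd, so `c/f` is a torsion point of odd order (`N(f) (c/f) = c conj(f)`), not `0`
(`f ∣ c` and `c` prime to `f` imply that `f` is a unit; then `k` is constant by `k_per`, `k 1 = 1` by `k_mul` and `k_cube`, contradiction to `k_non`). -/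
theorem ot_pt (L : Lv) {c : Eis} (hc : IsCoprime c L.f) : OT (pt L c) := by
  have hf0 : emb L.f ≠ 0 := by
    intro h
    exact L.hf (CM27.emb_injective (by rw [h, map_zero]))
  refine ⟨?_, L.f.norm.natAbs, ?_, ?_⟩
  · rw [pt, CUL.nl_div_iff L.hf]
    intro hdvd
    exact s0a_not_unit L (hc.isUnit_of_dvd' hdvd dvd_rfl)
  · rw [Int.natAbs_odd]
    exact s0a_norm_odd L.f L.hf2
  · refine ⟨c * star L.f, ?_⟩
    have h1 : emb (L.f * star L.f) = (L.f.norm : ℂ) := by
      rw [map_mul, emb_star, Complex.mul_conj, CM27.normSq_emb]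
      push_cast
      rfl
    have h2 : ((L.f.norm.natAbs : ℕ) : ℂ) = (L.f.norm : ℂ) := by
      rw [← Int.cast_natCast, Int.natAbs_of_nonneg (CM27.norm_nonneg' _)]
    rw [h2, pt, ← h1, map_mul, map_mul]
    field_simp

/-- [S0.2] `q(c) ≠ 0` means that `c` is prime to `f`. -/
theorem SF_congr (L : Lv) {g g' : ℂ → ℂ} (h : ∀ z, OT z → g z = g' z) : SF L g = SF L g' := by
  unfold SF
  refine Finset.sum_congr rfl fun c _ => ?_
  by_cases hc : IsCoprime c L.f
  · rw [h _ (ot_pt L hc)]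
  · rw [L.q_zero c hc]
    simp

theorem SF_add (L : Lv) (g g' : ℂ → ℂ) : SF L (fun z => g z + g' z) = SF L g + SF L g' := by
  unfold SF
  rw [← Finset.sum_add_distrib]
  exact Finset.sum_congr rfl fun c _ => by ring

theorem SF_smul (L : Lv) (C : ℂ) (g : ℂ → ℂ) : SF L (fun z => C * g z) = C * SF L g := by
  unfold SF
  rw [Finset.mul_sum]
  exact Finset.sum_congr rfl fun c _ => by ring

/-- [S0.3] values of `k` at units: `k 1 = 1`, `k (-1) = 1` (`k (-1) ^ 2 = 1` and `k (-1) ^ 3 = 1`), `q 1 = 1`, `q (-1) = ± 1`. -/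
theorem k_one (L : Lv) : L.k 1 = 1 := s0a_k_one L

private theorem s0a_neg_cop (L : Lv) : IsCoprime (-1 : Eis) L.f := (s0a_one_cop L).neg_left

theorem k_neg (L : Lv) (c : Eis) : L.k (-c) = L.k c := by
  have h1 : L.k (-1) = 1 := by
    obtain ⟨i, hi⟩ := L.k_cube (-1) (s0a_neg_cop L)
    have h2 : L.k (-1) * L.k (-1) = 1 := by
      rw [← L.k_mul, neg_one_mul, neg_neg, k_one]
    have h3 : L.k (-1) ^ 3 = 1 := by
      rw [hi, CUL.zw_pow]
      have : ((3 : ℕ) : ZMod 3) = 0 := by decide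
      rw [this, zero_mul, CUL.zw_zero]
    calc L.k (-1) = L.k (-1) ^ 3 * (L.k (-1) * L.k (-1)) * L.k (-1) := by rw [h3, h2]; ring
      _ = (L.k (-1) * L.k (-1)) ^ 3 := by ring
      _ = 1 := by rw [h2]; ring
  have h2 := L.k_mul (-1) c
  rw [neg_one_mul, h1, one_mul] at h2
  exact h2

theorem q_one (L : Lv) : L.q 1 = 1 := by
  have h1 := L.q_mul 1 1
  rw [mul_one] at h1
  rcases L.q_pm 1 (s0a_one_cop L) with h | h
  · exact h
  · rw [h] at h1
    norm_num at h1

theorem q_neg (L : Lv) (c : Eis) : L.q (-c) = L.q (-1) * L.q c := by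
  rw [← L.q_mul, neg_one_mul]

theorem q_negone (L : Lv) : L.q (-1) = 1 ∨ L.q (-1) = -1 := L.q_pm _ (s0a_neg_cop L)

theorem s0b_zw (l : ℕ) : w ^ l = zw (l : ZMod 3) := by
  induction l with
  | zero => rw [pow_zero, Nat.cast_zero, CUL.zw_zero]
  | succ n ih => rw [pow_succ, ih, Nat.cast_succ, CUL.zw_add, CUL.zw_one]

theorem s0b_one {i : ZMod 3} (h : zw i = 1) : i = 0 := by
  have h0 : w ≠ 1 := by
    intro h
    have := congrArg Complex.re h
    rw [w_re, Complex.one_re] at this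
    norm_num at this
  have h1 : w ^ 2 ≠ 1 := by
    intro h
    have h2 := congrArg Complex.re h
    have e : w ^ 2 = -1 - w := by rw [sq]; exact w_sq
    rw [e, Complex.sub_re, Complex.neg_re, Complex.one_re, w_re] at h2
    norm_num at h2
  fin_cases i
  · rfl
  · exfalso
    apply h0
    rw [← CUL.zw_one]
    exact h
  · exfalso
    apply h1
    rw [s0b_zw]
    exact h

/-- [S0.4] the substitution `c ↦ b c` for `b` prime to `f` (`g` periodic): multiplication by `b` permutes the classes modulo `f`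
(`CUL.IsRep.sum_mul` or the like). -/
theorem SF_mul (L : Lv) {g : ℂ → ℂ} (hg : Per g) {b : Eis} (hb : IsCoprime b L.f) :
    SF L (fun z => g (emb b * z)) * ((L.q b : ℂ) * L.k b) = SF L g := by
  have hf0 : emb L.f ≠ 0 := by
    intro h0
    exact L.hf (emb_injective (by rw [h0, map_zero]))
  have hper : ∀ a c : Eis, L.f ∣ a - c → (L.q a : ℂ) * L.k a * g (pt L a) = (L.q c : ℂ) * L.k c * g (pt L c) := by
    intro a c hac
    rw [L.q_per a c hac, L.k_per a c hac]
    obtain ⟨t, ht⟩ := hac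
    have e1 : pt L a = pt L c + emb t := by
      have e2 : a = c + L.f * t := by linear_combination ht
      unfold pt
      rw [e2, map_add, map_mul]
      field_simp
    rw [e1, hg]
  have h1 := (CUL.rp_spec L.hf).sum_mul hb (fun c => (L.q c : ℂ) * L.k c * g (pt L c)) hper
  unfold SF
  rw [← h1, Finset.sum_mul]
  refine Finset.sum_congr rfl fun c _ => ?_
  have e3 : pt L (b * c) = emb b * pt L c := by
    unfold pt
    rw [map_mul]
    ring
  rw [e3, L.q_mul, L.k_mul]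
  push_cast
  ring

/-- [S0.5] weight: `c ↦ ω c`, `q(ω) = 1`, `k(ω) = zw (1 - j)`. -/
theorem SF_weight (L : Lv) {g : ℂ → ℂ} (hg : Per g) {l : ℕ} (hw : ∀ z, g (w * z) = w ^ l * g z)
    (hl : 1 - L.j + (l : ZMod 3) ≠ 0) : SF L g = 0 := by
  have hom : IsCoprime CU.om L.f := ⟨CU.om ^ 2, 0, by
    have h3 : CU.om ^ 3 = 1 := by decide
    linear_combination h3⟩
  have h1 := SF_mul L hg hom
  rw [CUL.emb_om] at h1
  have h2 : SF L (fun z => g (w * z)) = w ^ l * SF L g := by
    rw [← SF_smul]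
    congr 1
    funext z
    exact hw z
  have h3 : w ^ l = zw (l : ZMod 3) := s0b_zw l
  rw [h2, L.q_om, L.k_om, h3, Int.cast_one, one_mul] at h1
  have h4 : SF L g * (zw (1 - L.j + (l : ZMod 3)) - 1) = 0 := by
    rw [CUL.zw_add]
    linear_combination h1
  rcases mul_eq_zero.1 h4 with h5 | h5
  · exact h5
  · exact absurd (s0b_one (sub_eq_zero.1 h5)) hl

/-- [S0.6] parity: `c ↦ - c`. -/
theorem SF_parity (L : Lv) {g : ℂ → ℂ} (hg : Per g) (hp : ∀ z, g (-z) = -(L.q (-1) : ℂ) * g z) : SF L g = 0 := by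
  have h1 := SF_mul L hg (b := -1) ⟨-1, 0, by ring⟩
  have e : (fun z => g (emb (-1) * z)) = fun z => -(L.q (-1) : ℂ) * g z := by
    funext z
    rw [map_neg, map_one, neg_one_mul, hp]
  rw [e, SF_smul] at h1
  have hk : L.k (-1) = 1 := by rw [k_neg, k_one]
  rw [hk] at h1
  have hq : (L.q (-1) : ℂ) * (L.q (-1) : ℂ) = 1 := by
    rcases q_negone L with h | h <;> rw [h] <;> norm_num
  have h2 : 2 * SF L g = 0 := by linear_combination (-1 : ℂ) * h1 - SF L g * hq
  exact (mul_eq_zero.1 h2).resolve_left two_ne_zero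

/-- [S0.7] constants: `∑ q(c) k(c) = 0`: by `SF_mul` with `b = u ^ 4`, `u` with `k u ≠ 1` (then `q b = 1`, `k b = k u ≠ 1`, `k u` prime to `f`). -/
theorem SF_const (L : Lv) (C : ℂ) : SF L (fun _ => C) = 0 := by
  obtain ⟨u, hu, hku⟩ := L.k_non
  have hg : Per (fun _ => C) := fun z e => rfl
  have h1 := SF_mul L hg (b := u ^ 4) hu.pow_left
  have hq : L.q (u ^ 4) = 1 := by
    have e1 : u ^ 4 = (u * u) * (u * u) := by ring
    rw [e1, L.q_mul, L.q_mul]
    rcases L.q_pm u hu with h | h <;> rw [h] <;> norm_num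
  have hk : L.k (u ^ 4) = L.k u := by
    have e1 : u ^ 4 = u * (u * (u * u)) := by ring
    obtain ⟨i, hi⟩ := L.k_cube u hu
    have e2 : L.k u * (L.k u * L.k u) = 1 := by
      rw [hi, ← CUL.zw_add, ← CUL.zw_add]
      have e3 : i + (i + i) = 0 := by
        have : (3 : ZMod 3) = 0 := by decide
        linear_combination i * this
      rw [e3, CUL.zw_zero]
    rw [e1, L.k_mul, L.k_mul, L.k_mul, e2, mul_one]
  rw [hq, hk, Int.cast_one, one_mul] at h1
  have h2 : SF L (fun _ => C) * (L.k u - 1) = 0 := by linear_combination h1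
  rcases mul_eq_zero.1 h2 with h3 | h3
  · exact h3
  · exact absurd (sub_eq_zero.1 h3) hku

/-- `α ≡ ± c mod f` -/
private def s0c_setoid (f : Eis) : Setoid Eis where
  r a b := f ∣ a - b ∨ f ∣ a + b
  iseqv := by
    refine ⟨fun a => Or.inl (by rw [sub_self]; exact dvd_zero _), ?_, ?_⟩
    · rintro a b (⟨t, ht⟩ | ⟨t, ht⟩)
      · exact Or.inl ⟨-t, by linear_combination -ht⟩
      · exact Or.inr ⟨t, by linear_combination ht⟩
    · rintro a b c (⟨s, hs⟩ | ⟨s, hs⟩) (⟨t, ht⟩ | ⟨t, ht⟩)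
      · exact Or.inl ⟨s + t, by linear_combination hs + ht⟩
      · exact Or.inr ⟨s + t, by linear_combination hs + ht⟩
      · exact Or.inr ⟨s - t, by linear_combination hs - ht⟩
      · exact Or.inl ⟨s - t, by linear_combination hs - ht⟩

private theorem s0c_out (f a : Eis) : (s0c_setoid f) (Quotient.out (Quotient.mk (s0c_setoid f) a)) a :=
  Quotient.exact (Quotient.out_eq _)

private theorem s0c_cop {f a b : Eis} (h : f ∣ a - b ∨ f ∣ a + b) (hb : IsCoprime b f) : IsCoprime a f := by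
  obtain ⟨u, v, huv⟩ := hb
  rcases h with ⟨t, ht⟩ | ⟨t, ht⟩
  · exact ⟨u, v - u * t, by linear_combination huv + u * ht⟩
  · exact ⟨-u, v + u * t, by linear_combination huv - u * ht⟩

private theorem s0c_k (L : Lv) {a b : Eis} (h : L.f ∣ a - b ∨ L.f ∣ a + b) : L.k a = L.k b := by
  rcases h with h | h
  · exact L.k_per _ _ h
  · rw [← k_neg L b]
    exact L.k_per _ _ (by rw [sub_neg_eq_add]; exact h)

/-- [S0.8] there is a half system `R` of the kernel of `k` modulo `± 1`. -/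
theorem exists_R (L : Lv) : ∃ R, IsR L R := by
  set st := s0c_setoid L.f with hst
  have hrel : ∀ a b : Eis, st a b ↔ (L.f ∣ a - b ∨ L.f ∣ a + b) := fun a b => Iff.rfl
  set o : Eis → Eis := fun c => Quotient.out (Quotient.mk st c) with ho
  have ho1 : ∀ c, st (o c) c := fun c => s0c_out L.f c
  refine ⟨((rp L.f).filter fun c => IsCoprime c L.f ∧ L.k c = 1).image o, ?_, ?_⟩
  · intro c hc
    obtain ⟨d, hd, rfl⟩ := Finset.mem_image.1 hc
    obtain ⟨-, hd1, hd2⟩ := Finset.mem_filter.1 hd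
    have h1 := (hrel _ _).1 (ho1 d)
    exact ⟨s0c_cop h1 hd1, by rw [s0c_k L h1, hd2]⟩
  · intro α hα hk
    obtain ⟨c, ⟨hc, hd⟩, -⟩ := CUL.rp_spec L.hf α
    have hcr : st α c := (hrel _ _).2 (Or.inl hd)
    have hca : st c α := Setoid.symm hcr
    refine ⟨o c, ⟨Finset.mem_image_of_mem _ (Finset.mem_filter.2 ⟨hc, s0c_cop ((hrel _ _).1 hca) hα, ?_⟩), ?_⟩, ?_⟩
    · rw [s0c_k L ((hrel _ _).1 hca), hk]
    · exact (hrel _ _).1 (Setoid.trans hcr (Setoid.symm (ho1 c)))
    · rintro c' ⟨hc', hd'⟩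
      obtain ⟨d, -, rfl⟩ := Finset.mem_image.1 hc'
      have h2 : st c d := Setoid.trans hca (Setoid.trans ((hrel _ _).2 hd') (ho1 d))
      have h3 : Quotient.mk st c = Quotient.mk st d := Quotient.sound h2
      simp only [ho, h3]

private theorem s0c_order {f u : Eis} (hf : f ≠ 0) (hu : IsCoprime u f) : ∃ N : ℕ, 0 < N ∧ f ∣ u ^ N - 1 := by
  choose r hr _ using CUL.rp_spec hf
  obtain ⟨m, n, hmn, he⟩ := Finite.exists_ne_map_eq_of_infinite
    (fun n : ℕ => (⟨r (u ^ n), (hr (u ^ n)).1⟩ : {x // x ∈ rp f}))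
  have key : ∀ m n : ℕ, m < n → r (u ^ m) = r (u ^ n) → ∃ N : ℕ, 0 < N ∧ f ∣ u ^ N - 1 := by
    intro m n hlt he
    refine ⟨n - m, by omega, ?_⟩
    have h1 := (hr (u ^ m)).2
    have h2 := (hr (u ^ n)).2
    rw [← he] at h2
    have h3 : f ∣ u ^ m * (u ^ (n - m) - 1) := by
      have h4 : u ^ m * (u ^ (n - m) - 1) = (u ^ n - r (u ^ m)) - (u ^ m - r (u ^ m)) := by
        rw [mul_sub, ← pow_add, show m + (n - m) = n by omega]
        ring
      rw [h4]
      exact dvd_sub h2 h1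
    exact (hu.pow_left (m := m)).symm.dvd_of_dvd_mul_left h3
  have he' : r (u ^ m) = r (u ^ n) := congrArg Subtype.val he
  rcases Nat.lt_or_gt_of_ne hmn with h | h
  · exact key m n h he'
  · exact key n m h he'.symm

private theorem s0c_two : (2 : ZMod 3) ≠ 0 := by decide

private theorem s0c_cases : ∀ j : ZMod 3, j ≠ 0 → j = 1 ∨ j = 2 := by decide

private theorem s0c_kpow (L : Lv) (u : Eis) (n : ℕ) : L.k (u ^ n) = L.k u ^ n := by
  induction n with
  | zero => rw [pow_zero, pow_zero, k_one]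
  | succ n ih => rw [pow_succ, pow_succ, L.k_mul, ih]

private theorem s0c_qpow (L : Lv) (u : Eis) (n : ℕ) : L.q (u ^ n) = L.q u ^ n := by
  induction n with
  | zero => rw [pow_zero, pow_zero, q_one]
  | succ n ih => rw [pow_succ, pow_succ, L.q_mul, ih]

/-- [S0.9] there is `a` with `k a = ω²`, `q a = 1`, of odd order modulo `f`: some `u` with `k u = ω` or `ω²` (`k_non`), `u ^ 4` or `u ^ 2` has
`q = 1` and `k = ω²`; take the power with exponent `≡ 1 mod 3` which is divisible by the `2`-part of the order of `(ℤ[ω]/f)^*`. -/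
theorem exists_a (L : Lv) : ∃ a, IsA L a ∧ ∃ n : ℕ, Odd n ∧ L.f ∣ a ^ n - 1 := by
  obtain ⟨u, hu, hku⟩ := L.k_non
  obtain ⟨N, hN, hd⟩ := s0c_order L.hf hu
  obtain ⟨s, m, hm, hNm⟩ := Nat.exists_eq_two_pow_mul_odd hN.ne'
  set b := u ^ (2 ^ s) with hb
  have hbc : IsCoprime b L.f := hu.pow_left
  have hbm : L.f ∣ b ^ m - 1 := by
    rw [hb, ← pow_mul, ← hNm]
    exact hd
  obtain ⟨i, hi⟩ := L.k_cube u hu
  have hi0 : i ≠ 0 := by
    rintro rfl
    rw [CUL.zw_zero] at hi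
    exact hku hi
  have hkb : L.k b = zw ((2 : ZMod 3) ^ s * i) := by
    rw [hb, s0c_kpow, hi, CUL.zw_pow]
    congr 2
    push_cast
    rfl
  set j : ZMod 3 := (2 : ZMod 3) ^ s * i with hj
  have hj0 : j ≠ 0 := mul_ne_zero (pow_ne_zero s s0c_two) hi0
  have hq2 : ∀ e : ℕ, L.q (b ^ (2 * e)) = 1 := by
    intro e
    rw [s0c_qpow, pow_mul]
    rcases L.q_pm b hbc with h | h <;> rw [h] <;> norm_num
  have hfin : ∀ e : ℕ, L.k (b ^ (2 * e)) = zw 2 → ∃ a, IsA L a ∧ ∃ n : ℕ, Odd n ∧ L.f ∣ a ^ n - 1 := by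
    intro e he
    refine ⟨b ^ (2 * e), ⟨hbc.pow_left, he, hq2 e⟩, m, hm, ?_⟩
    rw [← pow_mul, mul_comm (2 * e) m, pow_mul]
    exact hbm.trans (sub_one_dvd_pow_sub_one _ _)
  have hj12 : j = 1 ∨ j = 2 := s0c_cases j hj0
  rcases hj12 with h | h
  · refine hfin 1 ?_
    rw [s0c_kpow, hkb, CUL.zw_pow, h]
    congr 1
  · refine hfin 2 ?_
    rw [s0c_kpow, hkb, CUL.zw_pow, h]
    congr 1

/-- [S0.10] The classes prime to `f` are represented by `± a^i c`, `i < 3`, `c ∈ R`, without repetitions; `q (± a^i c) k (± a^i c) = (q(-1)) q(c) ω^(2 i)`. -/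
theorem SF_half (L : Lv) {R : Finset Eis} {a : Eis} (hR : IsR L R) (ha : IsA L a) {g : ℂ → ℂ} (hg : Per g)
    (hp : ∀ z, g (-z) = (L.q (-1) : ℂ) * g z) :
    SF L g = 2 * ∑ i ∈ Finset.range 3, w ^ (2 * i) * ∑ c ∈ R, (L.q c : ℂ) * g (pt L (a ^ i * c)) := by
  obtain ⟨hac, hak, haq⟩ := ha
  obtain ⟨hR1, hR2⟩ := hR
  set F : Eis → ℂ := fun c => (L.q c : ℂ) * L.k c * g (pt L c) with hF
  have hf0 : emb L.f ≠ 0 := by
    intro h
    exact L.hf ((map_eq_zero_iff emb emb_injective).1 h)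
  have hFper : ∀ x y : Eis, L.f ∣ x - y → F x = F y := by
    intro x y h
    simp only [hF]
    rw [L.q_per x y h, L.k_per x y h]
    obtain ⟨t, ht⟩ := h
    have h1 : pt L x = pt L y + emb t := by
      unfold pt
      have h2 : x = y + L.f * t := by linear_combination ht
      rw [h2, map_add, map_mul, add_div, mul_div_cancel_left₀ _ hf0]
    rw [h1, hg]
  have hF0 : ∀ x : Eis, ¬ IsCoprime x L.f → F x = 0 := by
    intro x hx
    simp only [hF]
    rw [L.q_zero x hx]
    simp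
  have hq1 : (L.q (-1) : ℂ) * (L.q (-1) : ℂ) = 1 := by
    rcases q_negone L with h | h <;> rw [h] <;> norm_num
  have hFneg : ∀ x : Eis, F (-x) = F x := by
    intro x
    simp only [hF]
    have h1 : pt L (-x) = - pt L x := by
      unfold pt
      rw [map_neg, neg_div]
    rw [q_neg, k_neg, h1, hp]
    push_cast
    linear_combination ((L.q x : ℂ) * L.k x * g (pt L x)) * hq1
  have hkpow : ∀ n : ℕ, L.k (a ^ n) = w ^ (2 * n) := by
    intro n
    induction n with
    | zero => rw [pow_zero, k_one, mul_zero, pow_zero]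
    | succ n ih =>
      rw [pow_succ, L.k_mul, ih, hak, CUL.zw_two, ← pow_add]
      congr 1
  have hqpow : ∀ n : ℕ, L.q (a ^ n) = 1 := by
    intro n
    induction n with
    | zero => rw [pow_zero, q_one]
    | succ n ih => rw [pow_succ, L.q_mul, ih, haq, one_mul]
  have hFa : ∀ i : ℕ, ∀ c ∈ R, F (a ^ i * c) = w ^ (2 * i) * ((L.q c : ℂ) * g (pt L (a ^ i * c))) := by
    intro i c hc
    simp only [hF]
    rw [L.q_mul, L.k_mul, hqpow, hkpow, (hR1 c hc).2]
    push_cast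
    ring
  -- the right hand side
  set τ := (({1, -1} : Finset Eis) ×ˢ (Finset.range 3 ×ˢ R)) with hτ
  set φ : Eis × ℕ × Eis → Eis := fun x => x.1 * (a ^ x.2.1 * x.2.2) with hφ
  have hne : (1 : Eis) ≠ -1 := by
    intro h
    have h1 := congrArg QuadraticAlgebra.re h
    have h2 : (1 : ℤ) = -1 := h1
    omega
  have hRHS : 2 * ∑ i ∈ Finset.range 3, w ^ (2 * i) * ∑ c ∈ R, (L.q c : ℂ) * g (pt L (a ^ i * c)) =
      ∑ x ∈ τ, F (φ x) := by
    rw [hτ, Finset.sum_product, Finset.sum_pair hne]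
    have e1 : ∀ ε : Eis, (∀ y : Eis, F (ε * y) = F y) → ∑ y ∈ Finset.range 3 ×ˢ R, F (φ (ε, y)) =
        ∑ i ∈ Finset.range 3, w ^ (2 * i) * ∑ c ∈ R, (L.q c : ℂ) * g (pt L (a ^ i * c)) := by
      intro ε hε
      rw [Finset.sum_product]
      refine Finset.sum_congr rfl fun i _ => ?_
      rw [Finset.mul_sum]
      refine Finset.sum_congr rfl fun c hc => ?_
      simp only [hφ]
      rw [hε, hFa i c hc]
    rw [e1 1 (fun y => by rw [one_mul]), e1 (-1) (fun y => by rw [neg_one_mul, hFneg])]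
    ring
  rw [hRHS]
  -- coprimality
  have hfu : ¬ IsUnit L.f := by
    intro h
    obtain ⟨x, hx, hkx⟩ := L.k_non
    apply hkx
    rw [← k_one L]
    exact L.k_per _ _ (h.dvd)
  have hf2 : IsCoprime L.f 2 := by
    have hdom := eis_isDomain
    have hpid : IsPrincipalIdealRing Eis := eis_pid
    have h2 : Irreducible (2 : Eis) := Q3.prime_two.irreducible
    exact ((h2.coprime_iff_not_dvd).2 L.hf2).symm
  have hφc : ∀ x ∈ τ, IsCoprime (φ x) L.f := by
    rintro ⟨ε, i, c⟩ hx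
    simp only [hτ, Finset.mem_product, Finset.mem_insert, Finset.mem_singleton, Finset.mem_range] at hx
    obtain ⟨hε, hi, hc⟩ := hx
    have h1 : IsCoprime (a ^ i * c) L.f := (hac.pow_left).mul_left (hR1 c hc).1
    simp only [hφ]
    rcases hε with rfl | rfl
    · rw [one_mul]; exact h1
    · rw [neg_one_mul]; exact h1.neg_left
  have hkε : ∀ ε : Eis, (ε = 1 ∨ ε = -1) → ∀ y, L.k (ε * y) = L.k y := by
    rintro ε (rfl | rfl) y
    · rw [one_mul]
    · rw [neg_one_mul, k_neg]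
  have hφinj : ∀ x ∈ τ, ∀ y ∈ τ, L.f ∣ φ x - φ y → x = y := by
    rintro ⟨ε, i, c⟩ hx ⟨ε', i', c'⟩ hy hd
    simp only [hτ, Finset.mem_product, Finset.mem_insert, Finset.mem_singleton, Finset.mem_range] at hx hy
    obtain ⟨hε, hi, hc⟩ := hx
    obtain ⟨hε', hi', hc'⟩ := hy
    simp only [hφ] at hd
    have h1 := L.k_per _ _ hd
    rw [hkε ε hε, hkε ε' hε', L.k_mul, L.k_mul, (hR1 c hc).2, (hR1 c' hc').2, hkpow, hkpow, mul_one, mul_one] at h1
    have h2 : zw ((2 * i : ℕ) : ZMod 3) = zw ((2 * i' : ℕ) : ZMod 3) := by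
      rw [← mul_one ((2 * i : ℕ) : ZMod 3), ← mul_one ((2 * i' : ℕ) : ZMod 3), ← CUL.zw_pow, ← CUL.zw_pow,
        CUL.zw_one]
      exact h1
    have h3 := CUL.zw_inj h2
    have h4 : i = i' := by
      interval_cases i <;> interval_cases i' <;> first | rfl | (exfalso; revert h3; decide)
    subst h4
    have h5 : L.f ∣ ε * c - ε' * c' := by
      have h6 : ε * (a ^ i * c) - ε' * (a ^ i * c') = a ^ i * (ε * c - ε' * c') := by ring
      rw [h6] at hd
      exact (hac.pow_left (m := i)).symm.dvd_of_dvd_mul_left hd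
    have h6 : L.f ∣ c - c' ∨ L.f ∣ c + c' := by
      rcases hε with rfl | rfl <;> rcases hε' with rfl | rfl
      · left; simpa using h5
      · right; simpa using h5
      · right
        have := (dvd_neg).2 h5
        have e : -(-1 * c - 1 * c') = c + c' := by ring
        rwa [e] at this
      · left
        have := (dvd_neg).2 h5
        have e : -(-1 * c - -1 * c') = c - c' := by ring
        rwa [e] at this
    have h7 : c = c' := by
      refine (hR2 c (hR1 c hc).1 (hR1 c hc).2).unique ⟨hc, Or.inl ?_⟩ ⟨hc', h6⟩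
      rw [sub_self]
      exact dvd_zero _
    subst h7
    have h8 : ε = ε' := by
      by_contra hcon
      have h9 : L.f ∣ 2 * c := by
        rcases hε with rfl | rfl <;> rcases hε' with rfl | rfl
        · exact absurd rfl hcon
        · have e : (1 : Eis) * c - -1 * c = 2 * c := by ring
          rwa [e] at h5
        · have e : (-1 : Eis) * c - 1 * c = -(2 * c) := by ring
          rw [e, dvd_neg] at h5
          exact h5
        · exact absurd rfl hcon
      have h10 : L.f ∣ 2 := (hR1 c hc).1.symm.dvd_of_dvd_mul_right h9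
      exact hfu (hf2.isUnit_of_dvd' dvd_rfl h10)
    rw [h8]
  have hφsurj : ∀ d : Eis, IsCoprime d L.f → ∃ x ∈ τ, L.f ∣ d - φ x := by
    intro d hd
    obtain ⟨j, hj⟩ := L.k_cube d hd
    obtain ⟨i, hi, hij⟩ : ∃ i : ℕ, i < 3 ∧ ((2 * i : ℕ) : ZMod 3) = j := by
      revert j
      have : ∀ j : ZMod 3, ∃ i : ℕ, i < 3 ∧ ((2 * i : ℕ) : ZMod 3) = j := by decide
      intro j _
      exact this j
    obtain ⟨u, v, huv⟩ := (hac.pow_left (m := i))
    -- `α = u d`
    have h1 : L.f ∣ d - a ^ i * (u * d) := ⟨v * d, by linear_combination (-d) * huv⟩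
    have h2 : L.k (a ^ i * (u * d)) = L.k d := (L.k_per _ _ h1).symm
    have hzi : L.k (a ^ i) = L.k d := by
      rw [hkpow, hj, ← hij, ← mul_one ((2 * i : ℕ) : ZMod 3), ← CUL.zw_pow, CUL.zw_one]
    have hkd : L.k d ≠ 0 := by
      rw [hj]
      exact CUL.zw_ne j
    have h3 : L.k (u * d) = 1 := by
      rw [L.k_mul, hzi] at h2
      exact mul_left_cancel₀ hkd (by rw [h2, mul_one])
    have h4 : IsCoprime (u * d) L.f := by
      refine IsCoprime.mul_left ⟨a ^ i, v, by linear_combination huv⟩ hd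
    obtain ⟨c, ⟨hc, h5⟩, -⟩ := hR2 (u * d) h4 h3
    rcases h5 with h5 | h5
    · refine ⟨(1, i, c), ?_, ?_⟩
      · rw [hτ]
        exact Finset.mk_mem_product (by simp) (Finset.mk_mem_product (Finset.mem_range.2 hi) hc)
      · simp only [hφ]
        obtain ⟨s, hs⟩ := h1
        obtain ⟨t, ht⟩ := h5
        exact ⟨s + a ^ i * t, by linear_combination hs + a ^ i * ht⟩
    · refine ⟨(-1, i, c), ?_, ?_⟩
      · rw [hτ]
        exact Finset.mk_mem_product (by simp) (Finset.mk_mem_product (Finset.mem_range.2 hi) hc)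
      · simp only [hφ]
        obtain ⟨s, hs⟩ := h1
        obtain ⟨t, ht⟩ := h5
        exact ⟨s + a ^ i * t, by linear_combination hs + a ^ i * ht⟩
  -- the bijection
  have hSF : SF L g = ∑ c ∈ (rp L.f).filter (fun c => IsCoprime c L.f), F c := by
    unfold SF
    rw [Finset.sum_filter_of_ne]
    intro x _ hx
    by_contra h
    exact hx (hF0 x h)
  rw [hSF]
  have hrep := CUL.rp_spec L.hf
  choose r hr1 hr2 using hrep
  symm
  refine Finset.sum_bij (fun x _ => r (φ x)) ?_ ?_ ?_ ?_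
  · intro x hx
    refine Finset.mem_filter.2 ⟨(hr1 (φ x)).1, ?_⟩
    obtain ⟨u, v, huv⟩ := hφc x hx
    obtain ⟨t, ht⟩ := (hr1 (φ x)).2
    exact ⟨u, v + u * t, by linear_combination huv - u * ht⟩
  · intro x hx y hy hxy
    refine hφinj x hx y hy ?_
    have h1 := (hr1 (φ x)).2
    have h2 := (hr1 (φ y)).2
    rw [← hxy] at h2
    have h3 := dvd_sub h1 h2
    have e : φ x - r (φ x) - (φ y - r (φ x)) = φ x - φ y := by ring
    rwa [e] at h3
  · intro d hd
    obtain ⟨hd1, hd2⟩ := Finset.mem_filter.1 hd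
    obtain ⟨x, hx, hxd⟩ := hφsurj d hd2
    refine ⟨x, hx, ?_⟩
    refine (hr2 (φ x) d ⟨hd1, ?_⟩).symm
    rw [← dvd_neg, neg_sub]
    exact hxd
  · intro x hx
    exact hFper _ _ (hr1 (φ x)).2

end J2L
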