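import Pool.Agent.J2L.S0

/-!
# [J2L-S1] the functional `SF` at a valuation ring `A` above `2`: reduction to the moments `Ms`

Useful from `Q3V/A4`, `A3`: `x_le_one`, `y_one`, `y_unit` (for `OTl`, `OT.otl`), `v_int`, `v_three`, `v_w`. `A.valuation (w ^ n) = 1`.
-/

set_option autoImplicit false

open scoped Classical

namespace J2L

open CM27
open CU (om)
open CUL (Nl ez IsRep rp cr zw)
open Q3V (OT)

variable (A : ValuationSubring ℂ) (hA : A.valuation 2 < 1)

/-- [S1.0] the functions `x`, `y`, `(y - 1)/2` are periodic and integral at the torsion points of odd order (`yh`: from `y_one`). -/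
theorem per_xw : Per xw := fun z e => CM27.xw_add z e

theorem per_yw : Per yw := fun z e => CM27.yw_add z e

theorem per_yh : Per yh := fun z e => by
  unfold yh
  rw [per_yw z e]

include hA in
theorem x_int {z : ℂ} (h : OT z) : A.valuation (xw z) ≤ 1 := Q3V.x_le_one A hA h.otl

include hA in
theorem yh_int {z : ℂ} (h : OT z) : A.valuation (yh z) ≤ 1 := by
  have h2 : A.valuation 2 ≠ 0 := (Valuation.ne_zero_iff _).2 two_ne_zero
  unfold yh
  rw [map_div₀]
  exact div_le_one_of_le₀ (Q3V.y_one A hA h.otl) zero_le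


include hA in
theorem y_val {z : ℂ} (h : OT z) : A.valuation (yw z) = 1 := Q3V.y_unit A hA h.otl

theorem s1a_ot {L : Lv} {R : Finset Eis} {a : Eis} (hR : IsR L R) (ha : IsA L a) {c : Eis} (hc : c ∈ R) (i : ℕ) :
    OT (pt L (a ^ i * c)) := ot_pt L ((ha.1.pow_left).mul_left (hR.1 c hc).1)

theorem s1a_mul {x y t : A.ValueGroup} (h1 : x ≤ t) (h2 : y ≤ 1) : x * y ≤ t :=
  (mul_le_mul' h1 h2).trans (mul_one t).le

/-- valuation of the double sum -/
theorem s1a_sum (R : Finset Eis) (F : ℕ → Eis → ℂ) {t : A.ValueGroup}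
    (h : ∀ i, ∀ c ∈ R, A.valuation (F i c) ≤ t) :
    A.valuation (∑ i ∈ Finset.range 3, w ^ (2 * i) * ∑ c ∈ R, F i c) ≤ t := by
  refine Valuation.map_sum_le _ fun i _ => ?_
  rw [map_mul, map_pow, Q3V.v_w, one_pow, one_mul]
  exact Valuation.map_sum_le _ fun c hc => h i c hc

theorem s1a_zero (C : ℂ) : ∑ i ∈ Finset.range 3, w ^ (2 * i) * C = 0 := by
  rw [Finset.sum_range_succ, Finset.sum_range_succ, Finset.sum_range_succ, Finset.sum_range_zero]
  have h2 := CUL.w2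
  have h3 := CUL.w3
  linear_combination (C * h2) + C * w * h3

/-- [S1.1] a moment of an integral function is integral. -/
theorem Ms_int {L : Lv} {R : Finset Eis} {a : Eis} (hR : IsR L R) (ha : IsA L a) {g : ℂ → ℂ} {t : A.ValueGroup}
    (hi : ∀ z, OT z → A.valuation (g z) ≤ t) : A.valuation (Ms L R a g) ≤ t :=
  s1a_sum A R (fun i c => g (pt L (a ^ i * c))) fun i _ hc => hi _ (s1a_ot hR ha hc i)

theorem Ms_add {L : Lv} {R : Finset Eis} {a : Eis} (g g' : ℂ → ℂ) :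
    Ms L R a (fun z => g z + g' z) = Ms L R a g + Ms L R a g' := by
  unfold Ms
  rw [← Finset.sum_add_distrib]
  refine Finset.sum_congr rfl fun i _ => ?_
  rw [Finset.sum_add_distrib, mul_add]

theorem Ms_smul {L : Lv} {R : Finset Eis} {a : Eis} (C : ℂ) (g : ℂ → ℂ) : Ms L R a (fun z => C * g z) = C * Ms L R a g := by
  unfold Ms
  rw [Finset.mul_sum]
  refine Finset.sum_congr rfl fun i _ => ?_
  rw [← Finset.mul_sum]
  ring

theorem Ms_const {L : Lv} {R : Finset Eis} {a : Eis} (C : ℂ) : Ms L R a (fun _ => C) = 0 := by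
  unfold Ms
  exact s1a_zero _

theorem Ms_congr {L : Lv} {R : Finset Eis} {a : Eis} (hR : IsR L R) (ha : IsA L a) {g g' : ℂ → ℂ} (h : ∀ z, OT z → g z = g' z) :
    Ms L R a g = Ms L R a g' := by
  unfold Ms
  refine Finset.sum_congr rfl fun i _ => ?_
  rw [Finset.sum_congr rfl fun c hc => h _ (s1a_ot hR ha hc i)]

theorem s1b_q {L : Lv} {R : Finset Eis} (hR : IsR L R) {c : Eis} (hc : c ∈ R) : L.q c = 1 ∨ L.q c = -1 :=
  L.q_pm c (hR.1 c hc).1

theorem s1b_qv {L : Lv} {R : Finset Eis} (hR : IsR L R) {c : Eis} (hc : c ∈ R) :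
    A.valuation ((L.q c : ℂ) - 1) ≤ A.valuation 2 := by
  rcases s1b_q hR hc with h | h
  · rw [h, Int.cast_one, sub_self, map_zero]
    exact zero_le
  · rw [h, Int.cast_neg, Int.cast_one, show (-1 - 1 : ℂ) = -2 by norm_num, Valuation.map_neg]

/-- [S1.2] even functions, `q(-1) = 1`: `SF_half`, `q(c) ≡ 1 mod 2`. -/
theorem SF_even {L : Lv} {R : Finset Eis} {a : Eis} (hR : IsR L R) (ha : IsA L a) (hq : L.q (-1) = 1) {g : ℂ → ℂ} (hg : Per g)
    (he : ∀ z, g (-z) = g z) (hi : ∀ z, OT z → A.valuation (g z) ≤ 1) :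
    ∃ E, A.valuation E ≤ A.valuation 2 ∧ SF L g = 2 * (Ms L R a g + E) := by
  refine ⟨∑ i ∈ Finset.range 3, w ^ (2 * i) * ∑ c ∈ R, ((L.q c : ℂ) - 1) * g (pt L (a ^ i * c)), ?_, ?_⟩
  · refine s1a_sum A R (fun i c => ((L.q c : ℂ) - 1) * g (pt L (a ^ i * c))) fun i c hc => ?_
    rw [map_mul]
    exact s1a_mul A (s1b_qv A hR hc) (hi _ (s1a_ot hR ha hc i))
  · rw [SF_half L hR ha hg (fun z => by rw [he z, hq, Int.cast_one, one_mul])]
    unfold Ms
    rw [← Finset.sum_add_distrib]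
    congr 1
    refine Finset.sum_congr rfl fun i _ => ?_
    rw [← mul_add, ← Finset.sum_add_distrib]
    congr 1
    exact Finset.sum_congr rfl fun c _ => by ring

include hA in
theorem s1b_qy {L : Lv} {R : Finset Eis} (hR : IsR L R) {c : Eis} (hc : c ∈ R) {z : ℂ} (hz : OT z) :
    A.valuation ((L.q c : ℂ) * yw z - 1) ≤ A.valuation 2 := by
  have h1 := Q3V.y_one A hA hz.otl
  rcases s1b_q hR hc with h | h
  · rw [h, Int.cast_one, one_mul]
    exact h1
  · rw [h, Int.cast_neg, Int.cast_one, show -1 * yw z - 1 = -(yw z - 1) - 2 by ring]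
    refine (Valuation.map_sub _ _ _).trans (max_le ?_ le_rfl)
    rw [Valuation.map_neg]
    exact h1

include hA in
/-- [S1.3] odd functions `y g`, `g` even, `q(-1) = -1`: `q(c) y ≡ 1 mod 2`. -/
theorem SF_odd {L : Lv} {R : Finset Eis} {a : Eis} (hR : IsR L R) (ha : IsA L a) (hq : L.q (-1) = -1) {g : ℂ → ℂ} (hg : Per g)
    (he : ∀ z, g (-z) = g z) (hi : ∀ z, OT z → A.valuation (g z) ≤ 1) :
    ∃ E, A.valuation E ≤ A.valuation 2 ∧ SF L (fun z => yw z * g z) = 2 * (Ms L R a g + E) := by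
  refine ⟨∑ i ∈ Finset.range 3, w ^ (2 * i) *
    ∑ c ∈ R, ((L.q c : ℂ) * yw (pt L (a ^ i * c)) - 1) * g (pt L (a ^ i * c)), ?_, ?_⟩
  · refine s1a_sum A R (fun i c => ((L.q c : ℂ) * yw (pt L (a ^ i * c)) - 1) * g (pt L (a ^ i * c))) fun i c hc => ?_
    rw [map_mul]
    exact s1a_mul A (s1b_qy A hA hR hc (s1a_ot hR ha hc i)) (hi _ (s1a_ot hR ha hc i))
  · have hp : Per (fun z => yw z * g z) := fun z e => by
      show yw (z + emb e) * g (z + emb e) = yw z * g z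
      rw [per_yw z e, hg z e]
    rw [SF_half L hR ha hp (fun z => by rw [he z, hq, CM27.yw_neg, Int.cast_neg, Int.cast_one]; ring)]
    unfold Ms
    rw [← Finset.sum_add_distrib]
    congr 1
    refine Finset.sum_congr rfl fun i _ => ?_
    rw [← mul_add, ← Finset.sum_add_distrib]
    congr 1
    exact Finset.sum_congr rfl fun c _ => by ring

include hA in
/-- [S1.4] `g = y`, `q(-1) = -1`: `q(c) y(z) = y(q(c) z) = 1 + 2 yh(q(c) z)`, `yh(-z) = -1 - yh(z)`, `∑ ω^(2 i) = 0` (`q(a^i c) = q(c)`). -/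
theorem SF_y {L : Lv} {R : Finset Eis} {a : Eis} (hR : IsR L R) (ha : IsA L a) (hq : L.q (-1) = -1) :
    ∃ E, A.valuation E ≤ A.valuation 2 ∧ SF L yw = 4 * (Ms L R a yh + E) := by
  refine ⟨∑ i ∈ Finset.range 3, w ^ (2 * i) * ∑ c ∈ R, ((L.q c : ℂ) - 1) * yh (pt L (a ^ i * c)), ?_, ?_⟩
  · refine s1a_sum A R (fun i c => ((L.q c : ℂ) - 1) * yh (pt L (a ^ i * c))) fun i c hc => ?_
    rw [map_mul]
    exact s1a_mul A (s1b_qv A hR hc) (yh_int A hA (s1a_ot hR ha hc i))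
  · have h0 := s1a_zero (∑ c ∈ R, (L.q c : ℂ))
    rw [SF_half L hR ha per_yw (fun z => by rw [hq, CM27.yw_neg, Int.cast_neg, Int.cast_one]; ring)]
    unfold Ms
    rw [← Finset.sum_add_distrib]
    have e1 : ∀ i ∈ Finset.range 3, w ^ (2 * i) * ∑ c ∈ R, (L.q c : ℂ) * yw (pt L (a ^ i * c)) =
        w ^ (2 * i) * (∑ c ∈ R, (L.q c : ℂ)) + 2 * (w ^ (2 * i) * ∑ c ∈ R, yh (pt L (a ^ i * c)) +
          w ^ (2 * i) * ∑ c ∈ R, ((L.q c : ℂ) - 1) * yh (pt L (a ^ i * c))) := by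
      intro i _
      rw [← mul_add, ← Finset.sum_add_distrib, ← mul_assoc, mul_comm (2 : ℂ) (w ^ (2 * i)), mul_assoc, Finset.mul_sum (a := (2 : ℂ)),
        ← mul_add, ← Finset.sum_add_distrib]
      congr 1
      refine Finset.sum_congr rfl fun c _ => ?_
      unfold yh
      ring
    rw [Finset.sum_congr rfl e1, Finset.sum_add_distrib, h0, zero_add, ← Finset.mul_sum]
    ring

include hA in
/-- [S1.5] `g = 1/y`, `q(-1) = -1`: `1/y = 1 - 2 yh + 4 yh²/y`. -/
theorem SF_yinv {L : Lv} {R : Finset Eis} {a : Eis} (hR : IsR L R) (ha : IsA L a) (hq : L.q (-1) = -1) :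
    ∃ E, A.valuation E ≤ A.valuation 2 ∧ SF L (fun z => (yw z)⁻¹) = 4 * (Ms L R a yh + E) := by
  refine ⟨∑ i ∈ Finset.range 3, w ^ (2 * i) * ∑ c ∈ R, (-((L.q c : ℂ) + 1) * yh (pt L (a ^ i * c)) +
    2 * (L.q c : ℂ) * (yh (pt L (a ^ i * c)) ^ 2 * (yw (pt L (a ^ i * c)))⁻¹)), ?_, ?_⟩
  · refine s1a_sum A R (fun i c => (-((L.q c : ℂ) + 1) * yh (pt L (a ^ i * c)) +
      2 * (L.q c : ℂ) * (yh (pt L (a ^ i * c)) ^ 2 * (yw (pt L (a ^ i * c)))⁻¹))) fun i c hc => ?_
    have hz := s1a_ot hR ha hc i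
    have h1 := yh_int A hA hz
    have h2 := y_val A hA hz
    have hq1 : A.valuation (-((L.q c : ℂ) + 1)) ≤ A.valuation 2 := by
      rcases s1b_q hR hc with h | h
      · rw [h, Int.cast_one, show (-(1 + 1) : ℂ) = -2 by norm_num, Valuation.map_neg]
      · rw [h, Int.cast_neg, Int.cast_one, show (-(-1 + 1) : ℂ) = 0 by norm_num, map_zero]
        exact zero_le
    have hq2 : A.valuation (L.q c : ℂ) ≤ 1 := Q3V.v_int A (L.q c)
    refine (Valuation.map_add _ _ _).trans (max_le ?_ ?_)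
    · rw [map_mul]
      exact s1a_mul A hq1 h1
    · rw [map_mul, map_mul, map_mul, map_pow, map_inv₀, h2, inv_one, mul_one, mul_assoc]
      exact s1a_mul A le_rfl (mul_le_one' hq2 (pow_le_one' h1 2))
  · have h0 := s1a_zero (∑ c ∈ R, (L.q c : ℂ))
    have hp : Per (fun z => (yw z)⁻¹) := fun z e => by
      show (yw (z + emb e))⁻¹ = (yw z)⁻¹
      rw [per_yw z e]
    rw [SF_half L hR ha hp (fun z => by rw [hq, CM27.yw_neg, Int.cast_neg, Int.cast_one, inv_neg]; ring)]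
    unfold Ms
    rw [← Finset.sum_add_distrib]
    have e1 : ∀ i ∈ Finset.range 3, w ^ (2 * i) * ∑ c ∈ R, (L.q c : ℂ) * (yw (pt L (a ^ i * c)))⁻¹ =
        w ^ (2 * i) * (∑ c ∈ R, (L.q c : ℂ)) + 2 * (w ^ (2 * i) * ∑ c ∈ R, yh (pt L (a ^ i * c)) +
          w ^ (2 * i) * ∑ c ∈ R, (-((L.q c : ℂ) + 1) * yh (pt L (a ^ i * c)) +
    2 * (L.q c : ℂ) * (yh (pt L (a ^ i * c)) ^ 2 * (yw (pt L (a ^ i * c)))⁻¹))) := by
      intro i _
      rw [← mul_add, ← Finset.sum_add_distrib, ← mul_assoc, mul_comm (2 : ℂ) (w ^ (2 * i)), mul_assoc, Finset.mul_sum (a := (2 : ℂ)),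
        ← mul_add, ← Finset.sum_add_distrib]
      congr 1
      refine Finset.sum_congr rfl fun c hc => ?_
      have h2 := y_val A hA (s1a_ot hR ha hc i)
      have h3 : yw (pt L (a ^ i * c)) ≠ 0 := by
        intro h
        rw [h, map_zero] at h2
        exact zero_ne_one h2
      unfold yh
      field_simp
      ring
    rw [Finset.sum_congr rfl e1, Finset.sum_add_distrib, h0, zero_add, ← Finset.mul_sum]
    ring

end J2L
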