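import Pool.Agent.J2L.S0

/-!
# [J2L-S2] the value `V` as `3 SF`: summation over `d mod 2 ^ n` through `d = ω^i u`, `u ≡ 1 mod 2`, and `c = ω^i c'`

For `d = ω^i u`: `x1 d = u`, `q2 (ω^i u) = q2 u`, `cr (-2) d = w^i`, so `r2 (ω^i u) = q2(u) w^(i j)`; `q(ω^i c') k(ω^i c') = q(c') k(c') w^(i (1 - j))`,
`ez (w^i z) = w^(2 i) ez z`: all three `i` give the same sum.
-/

set_option autoImplicit false

open scoped Classical

namespace J2L

open CM27
open CU (om)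
open CUL (Nl ez IsRep rp cr zw)
open Q3V (OT kq)

/-! auxiliary lemmas -/

theorem S2_two_mul (b : Eis) : (2 : Eis) * b = ⟨2 * b.re, 2 * b.im⟩ := by
  have e : (2 : Eis) * b = b + b := by ring
  rw [e]
  refine QuadraticAlgebra.ext ?_ ?_
  · rw [QuadraticAlgebra.re_add]
    ring
  · rw [QuadraticAlgebra.im_add]
    ring

theorem S2_dvd (a : Eis) : (2 : Eis) ∣ a ↔ (2 : ℤ) ∣ a.re ∧ (2 : ℤ) ∣ a.im := by
  constructor
  · rintro ⟨b, rfl⟩
    rw [S2_two_mul]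
    exact ⟨⟨b.re, rfl⟩, ⟨b.im, rfl⟩⟩
  · rintro ⟨⟨x, hx⟩, ⟨y, hy⟩⟩
    refine ⟨⟨x, y⟩, ?_⟩
    rw [S2_two_mul]
    exact QuadraticAlgebra.ext hx hy

theorem S2_pow_dvd (n : ℕ) (a : Eis) : (2 : Eis) ^ n ∣ a ↔ (2 : ℤ) ^ n ∣ a.re ∧ (2 : ℤ) ^ n ∣ a.im := by
  induction n generalizing a with
  | zero => simp
  | succ n ih =>
    constructor
    · rintro ⟨b, rfl⟩
      have e : (2 : Eis) ^ (n + 1) * b = 2 * (2 ^ n * b) := by ring
      obtain ⟨⟨x, hx⟩, ⟨y, hy⟩⟩ := (ih (2 ^ n * b)).1 (dvd_mul_right _ _)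
      rw [e, S2_two_mul]
      refine ⟨⟨x, ?_⟩, ⟨y, ?_⟩⟩
      · change 2 * ((2 : Eis) ^ n * b).re = _
        rw [hx]; ring
      · change 2 * ((2 : Eis) ^ n * b).im = _
        rw [hy]; ring
    · rintro ⟨⟨x, hx⟩, ⟨y, hy⟩⟩
      obtain ⟨c, hc⟩ := (ih ⟨2 ^ n * x, 2 ^ n * y⟩).2 ⟨dvd_mul_right _ _, dvd_mul_right _ _⟩
      refine ⟨c, ?_⟩
      have e : (2 : Eis) ^ (n + 1) * c = 2 * (2 ^ n * c) := by ring
      rw [e, ← hc, S2_two_mul]
      refine QuadraticAlgebra.ext ?_ ?_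
      · rw [hx]
        change _ = 2 * (2 ^ n * x)
        ring
      · rw [hy]
        change _ = 2 * (2 ^ n * y)
        ring

theorem S2_om (u : Eis) : om * u = ⟨-u.im, u.re - u.im⟩ := by
  refine QuadraticAlgebra.ext ?_ ?_
  · rw [QuadraticAlgebra.re_mul]
    simp only [om]
    ring
  · rw [QuadraticAlgebra.im_mul]
    simp only [om]
    ring

theorem S2_om2 (u : Eis) : om ^ 2 * u = ⟨u.im - u.re, -u.re⟩ := by
  have e : om ^ 2 * u = om * (om * u) := by ring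
  rw [e, S2_om, S2_om]
  refine QuadraticAlgebra.ext ?_ ?_
  · simp only
    ring
  · simp only
    ring

theorem S2_om3 : om ^ 3 = 1 := by decide

/-- `x ≡ 1 mod 2` in coordinates -/
theorem S2_odd {u : Eis} : (2 : Eis) ∣ u - 1 ↔ u.re % 2 = 1 ∧ u.im % 2 = 0 := by
  rw [S2_dvd, QuadraticAlgebra.re_sub, QuadraticAlgebra.im_sub, QuadraticAlgebra.re_one, QuadraticAlgebra.im_one]
  omega

theorem S2_x1_0 {u : Eis} (hu : (2 : Eis) ∣ u - 1) : x1 u = u := by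
  unfold x1
  rw [if_pos hu]

theorem S2_x1_1 {u : Eis} (hu : (2 : Eis) ∣ u - 1) : x1 (om * u) = u := by
  have h1 : ¬ (2 : Eis) ∣ om * u - 1 := by
    rw [S2_odd] at hu
    rw [S2_dvd, QuadraticAlgebra.re_sub, QuadraticAlgebra.im_sub, QuadraticAlgebra.re_one, QuadraticAlgebra.im_one, S2_om]
    simp only
    omega
  have h2 : (2 : Eis) ∣ om * u - om := by
    have e : om * u - om = (u - 1) * om := by ring
    rw [e]
    exact hu.mul_right _
  unfold x1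
  rw [if_neg h1, if_pos h2, ← mul_assoc]
  have e : (CU.om ^ 2 * om : Eis) = 1 := by decide
  rw [e, one_mul]

theorem S2_x1_2 {u : Eis} (hu : (2 : Eis) ∣ u - 1) : x1 (om ^ 2 * u) = u := by
  rw [S2_odd] at hu
  have h1 : ¬ (2 : Eis) ∣ om ^ 2 * u - 1 := by
    rw [S2_dvd, QuadraticAlgebra.re_sub, QuadraticAlgebra.im_sub, QuadraticAlgebra.re_one, QuadraticAlgebra.im_one, S2_om2]
    simp only
    omega
  have h2 : ¬ (2 : Eis) ∣ om ^ 2 * u - om := by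
    rw [S2_dvd, QuadraticAlgebra.re_sub, QuadraticAlgebra.im_sub, S2_om2]
    simp only [om]
    omega
  unfold x1
  rw [if_neg h1, if_neg h2, ← mul_assoc]
  have e : (CU.om * om ^ 2 : Eis) = 1 := by decide
  rw [e, one_mul]

/-- every odd element is `ω^i u`, `u ≡ 1 mod 2` -/
theorem S2_cases (d : Eis) : (2 : Eis) ∣ d ∨ ∃ u : Eis, (2 : Eis) ∣ u - 1 ∧ (d = u ∨ d = om * u ∨ d = om ^ 2 * u) := by
  have h3 : ∀ x : Eis, om * (om ^ 2 * x) = x := fun x => by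
    have e : om * (om ^ 2 * x) = om ^ 3 * x := by ring
    rw [e, S2_om3, one_mul]
  by_cases h0 : (2 : Eis) ∣ d
  · exact Or.inl h0
  right
  rw [S2_dvd] at h0
  by_cases h1 : (2 : Eis) ∣ d - 1
  · exact ⟨d, h1, Or.inl rfl⟩
  by_cases h2 : (2 : Eis) ∣ om ^ 2 * d - 1
  · exact ⟨om ^ 2 * d, h2, Or.inr (Or.inl (h3 d).symm)⟩
  refine ⟨om * d, ?_, Or.inr (Or.inr ?_)⟩
  · rw [S2_odd] at h1 h2 ⊢
    rw [S2_om2] at h2
    rw [S2_om]
    simp only at h2 ⊢
    omega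
  · have e : om ^ 2 * (om * d) = om ^ 3 * d := by ring
    rw [e, S2_om3, one_mul]

theorem S2_not {u : Eis} (hu : (2 : Eis) ∣ u - 1) : ¬ (2 : Eis) ∣ u ∧ ¬ (2 : Eis) ∣ om * u ∧ ¬ (2 : Eis) ∣ om ^ 2 * u := by
  rw [S2_odd] at hu
  rw [S2_dvd, S2_dvd, S2_dvd, S2_om, S2_om2]
  simp only
  omega

theorem S2_norm_om (u : Eis) : (om * u).norm = u.norm ∧ (om ^ 2 * u).norm = u.norm := by
  rw [norm_eq, norm_eq, norm_eq, S2_om, S2_om2]
  simp only
  constructor <;> ring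

theorem S2_s8_congr {x y : Eis} (h : x.norm % 8 = y.norm % 8) : s8 x = s8 y := by
  unfold s8
  rw [h]

/-- the value of `q2` -/
theorem S2_q2_0 (v : ℕ) (δ : Eis) {u : Eis} (hu : (2 : Eis) ∣ u - 1) :
    q2 v δ u = s8 u ^ v * sT (⟨u.re / 2, u.im / 2⟩ * δ) := by
  unfold q2 y1
  rw [if_neg (S2_not hu).1, S2_x1_0 hu]

theorem S2_q2_1 (v : ℕ) (δ : Eis) {u : Eis} (hu : (2 : Eis) ∣ u - 1) : q2 v δ (om * u) = q2 v δ u := by
  rw [S2_q2_0 v δ hu]
  unfold q2 y1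
  rw [if_neg (S2_not hu).2.1, S2_x1_1 hu, S2_s8_congr (x := om * u) (y := u) (by rw [(S2_norm_om u).1])]

theorem S2_q2_2 (v : ℕ) (δ : Eis) {u : Eis} (hu : (2 : Eis) ∣ u - 1) : q2 v δ (om ^ 2 * u) = q2 v δ u := by
  rw [S2_q2_0 v δ hu]
  unfold q2 y1
  rw [if_neg (S2_not hu).2.2, S2_x1_2 hu, S2_s8_congr (x := om ^ 2 * u) (y := u) (by rw [(S2_norm_om u).2])]

theorem S2_q2_even (v : ℕ) (δ : Eis) {d : Eis} (hd : (2 : Eis) ∣ d) : q2 v δ d = 0 := by
  unfold q2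
  rw [if_pos hd]

theorem S2_sT_congr {x y : Eis} (h : x.im % 2 = y.im % 2) : sT x = sT y := by
  unfold sT
  by_cases h1 : (2 : ℤ) ∣ x.im
  · rw [if_pos h1, if_pos (by omega)]
  · rw [if_neg h1, if_neg (by omega)]

theorem S2_sT_add (x y : Eis) : sT (x + y) = sT x * sT y := by
  unfold sT
  rw [QuadraticAlgebra.im_add]
  by_cases h1 : (2 : ℤ) ∣ x.im
  · by_cases h2 : (2 : ℤ) ∣ y.im
    · rw [if_pos h1, if_pos h2, if_pos (by omega), mul_one]
    · rw [if_pos h1, if_neg h2, if_neg (by omega), one_mul]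
  · by_cases h2 : (2 : ℤ) ∣ y.im
    · rw [if_neg h1, if_pos h2, if_neg (by omega), mul_one]
    · rw [if_neg h1, if_neg h2, if_pos (by omega)]
      norm_num

theorem S2_s8_sq (x : Eis) : s8 x ^ 2 = 1 := by
  unfold s8
  split_ifs <;> norm_num

theorem S2_s8_even {v : ℕ} (hv : v % 2 = 0) (x : Eis) : s8 x ^ v = 1 := by
  obtain ⟨k, hk⟩ : ∃ k, v = 2 * k := ⟨v / 2, by omega⟩
  rw [hk, pow_mul, S2_s8_sq, one_pow]

theorem S2_p2 : Prime (-2 : Eis) := Q3.prime_two.neg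

theorem S2_P2 : Primary (-2 : Eis) := by
  unfold Primary
  exact ⟨-1, by decide⟩

theorem S2_cr_om : cr (-2) om = w := by
  have h1 : ¬ (-2 : Eis) ∣ om := by
    rw [neg_dvd, S2_dvd]
    simp only [om]
    omega
  have h2 : CU.sy om (-2) = 1 := by
    have hn : ((-2 : Eis).norm.natAbs - 1) / 3 = 1 := by
      rw [norm_eq]
      decide
    unfold CU.sy
    rw [hn, pow_one, sub_self, if_pos (dvd_zero _)]
  unfold cr
  rw [if_neg h1, h2, CUL.zw_one]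

/-- [S2.0] the cubic residue symbol modulo `2` -/
theorem cr_two {d : Eis} {i : ℕ} (h : (2 : Eis) ∣ d - om ^ i) : cr (-2) d = w ^ i := by
  have h1 : (-2 : Eis) ∣ d - om ^ i := (neg_dvd).2 h
  rw [CUL.cr_congr S2_p2 S2_P2 h1, CUL.cr_pow S2_p2 S2_P2, S2_cr_om]

theorem cr_two_zero {d : Eis} (h : (2 : Eis) ∣ d) : cr (-2) d = 0 := by
  unfold cr
  rw [if_pos ((neg_dvd).2 h)]

/-- [S2.1] properties of `q2` -/
theorem q2_om (v : ℕ) (δ d : Eis) : q2 v δ (om * d) = q2 v δ d := by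
  rcases S2_cases d with h | ⟨u, hu, rfl | rfl | rfl⟩
  · rw [S2_q2_even v δ h, S2_q2_even v δ (h.mul_left _)]
  · exact S2_q2_1 v δ hu
  · have e : om * (om * u) = om ^ 2 * u := by ring
    rw [e, S2_q2_2 v δ hu, S2_q2_1 v δ hu]
  · have e : om * (om ^ 2 * u) = om ^ 3 * u := by ring
    rw [e, S2_om3, one_mul, S2_q2_2 v δ hu]

theorem q2_per (v : ℕ) (δ : Eis) {d d' : Eis} (h : (2 : Eis) ^ n2 v δ ∣ d - d') (hn : n2 v δ ≠ 0) : q2 v δ d = q2 v δ d' := by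
  have key : ∀ u u' : Eis, (2 : Eis) ∣ u - 1 → (2 : Eis) ^ n2 v δ ∣ u - u' → q2 v δ u = q2 v δ u' := by
    intro u u' hu huu
    have hu' : (2 : Eis) ∣ u' - 1 := by
      have e : u' - 1 = (u - 1) - (u - u') := by ring
      rw [e]
      exact dvd_sub hu ((dvd_pow_self 2 hn).trans huu)
    rw [S2_q2_0 v δ hu, S2_q2_0 v δ hu']
    rw [S2_pow_dvd, QuadraticAlgebra.re_sub, QuadraticAlgebra.im_sub] at huu
    rw [S2_odd] at hu hu'
    obtain ⟨a, b⟩ := u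
    obtain ⟨a', b'⟩ := u'
    obtain ⟨x, y⟩ := δ
    simp only at huu hu hu' ⊢
    -- imaginary part of the product
    have him : ∀ c d : ℤ, ((⟨c, d⟩ : Eis) * ⟨x, y⟩).im = c * y + d * x - d * y := by
      intro c d
      rw [QuadraticAlgebra.im_mul]
      simp only
      ring
    unfold n2 at huu hn
    by_cases hv : v % 2 = 1
    · rw [if_pos hv] at huu
      obtain ⟨⟨s, hs⟩, ⟨t, ht⟩⟩ := huu
      have e1 : s8 (⟨a, b⟩ : Eis) = s8 (⟨a', b'⟩ : Eis) := by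
        apply S2_s8_congr
        rw [norm_eq, norm_eq]
        simp only
        have e2 : a ^ 2 - a * b + b ^ 2 = (a' ^ 2 - a' * b' + b' ^ 2) +
            8 * (2 * a' * s + 8 * s ^ 2 - a' * t - b' * s - 8 * s * t + 2 * b' * t + 8 * t ^ 2) := by
          have ha : a = a' + 8 * s := by linarith
          have hb : b = b' + 8 * t := by linarith
          rw [ha, hb]
          ring
        rw [e2]
        omega
      have e3 : sT (⟨a / 2, b / 2⟩ * (⟨x, y⟩ : Eis)) = sT (⟨a' / 2, b' / 2⟩ * (⟨x, y⟩ : Eis)) := by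
        apply S2_sT_congr
        rw [him, him]
        have ha : a / 2 = a' / 2 + 4 * s := by omega
        have hb : b / 2 = b' / 2 + 4 * t := by omega
        rw [ha, hb]
        have e4 : (a' / 2 + 4 * s) * y + (b' / 2 + 4 * t) * x - (b' / 2 + 4 * t) * y =
          (a' / 2 * y + b' / 2 * x - b' / 2 * y) + 2 * (2 * s * y + 2 * t * x - 2 * t * y) := by ring
        rw [e4]
        omega
      rw [e1, e3]
    · rw [if_neg hv] at huu hn
      rw [S2_s8_even (by omega), S2_s8_even (by omega), one_mul, one_mul]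
      apply S2_sT_congr
      rw [him, him]
      by_cases hδ : (2 : Eis) ∣ (⟨x, y⟩ : Eis)
      · rw [S2_dvd] at hδ
        obtain ⟨⟨x', hx⟩, ⟨y', hy⟩⟩ := hδ
        simp only at hx hy
        rw [hx, hy]
        have e5 : ∀ c d : ℤ, c * (2 * y') + d * (2 * x') - d * (2 * y') = 2 * (c * y' + d * x' - d * y') := by
          intro c d; ring
        rw [e5, e5]
        omega
      · rw [if_neg hδ] at huu
        obtain ⟨⟨s, hs⟩, ⟨t, ht⟩⟩ := huu
        have ha : a / 2 = a' / 2 + 2 * s := by omega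
        have hb : b / 2 = b' / 2 + 2 * t := by omega
        rw [ha, hb]
        have e4 : (a' / 2 + 2 * s) * y + (b' / 2 + 2 * t) * x - (b' / 2 + 2 * t) * y =
          (a' / 2 * y + b' / 2 * x - b' / 2 * y) + 2 * (s * y + t * x - t * y) := by ring
        rw [e4]
        omega
  have h2 : (2 : Eis) ∣ d - d' := (dvd_pow_self 2 hn).trans h
  rcases S2_cases d with hd | ⟨u, hu, hd⟩
  · have hd' : (2 : Eis) ∣ d' := by
      have e : d' = d - (d - d') := by ring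
      rw [e]
      exact dvd_sub hd h2
    rw [S2_q2_even v δ hd, S2_q2_even v δ hd']
  · have hom : ∀ x : Eis, q2 v δ (om ^ 2 * x) = q2 v δ x := by
      intro x
      have e : om ^ 2 * x = om * (om * x) := by ring
      rw [e, q2_om, q2_om]
    have h3 : ∀ x : Eis, om ^ 2 * (om * x) = x := fun x => by
      have e : om ^ 2 * (om * x) = om ^ 3 * x := by ring
      rw [e, S2_om3, one_mul]
    have h3' : ∀ x : Eis, om * (om ^ 2 * x) = x := fun x => by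
      have e : om * (om ^ 2 * x) = om ^ 3 * x := by ring
      rw [e, S2_om3, one_mul]
    rcases hd with rfl | rfl | rfl
    · exact key _ _ hu h
    · rw [q2_om, ← hom d']
      apply key _ _ hu
      have e : u - om ^ 2 * d' = om ^ 2 * (om * u - d') := by rw [mul_sub, h3]
      rw [e]
      exact h.mul_left _
    · rw [hom, ← q2_om v δ d']
      apply key _ _ hu
      have e : u - om * d' = om * (om ^ 2 * u - d') := by rw [mul_sub, h3']
      rw [e]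
      exact h.mul_left _

theorem q2_one (v : ℕ) (δ : Eis) : q2 v δ 1 = 1 := by
  rw [S2_q2_0 v δ (by rw [sub_self]; exact dvd_zero _)]
  have e1 : s8 1 = 1 := by
    unfold s8
    rw [norm_eq]
    decide
  have e2 : ((⟨(1 : Eis).re / 2, (1 : Eis).im / 2⟩ : Eis) * δ) = 0 := by
    have e3 : (⟨(1 : Eis).re / 2, (1 : Eis).im / 2⟩ : Eis) = 0 := by decide
    rw [e3, zero_mul]
  rw [e1, e2, one_pow, one_mul]
  unfold sT
  rw [QuadraticAlgebra.im_zero, if_pos (dvd_zero _)]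

/-- [S2.2] the values: `sT z = (-1) ^ Tr z`, `u = 1 + 2 y`: `q2 u = s8(u)^v sT(y δ)`, `N(1 + 2 ω) = 3`, `s8 = -1` there -/
theorem q2_neg (v : ℕ) (δ : Eis) : q2 v δ (-1) = sT δ := by
  rw [S2_q2_0 v δ (by rw [S2_odd]; decide)]
  have e1 : s8 (-1) = 1 := by
    unfold s8
    rw [norm_eq]
    decide
  have e3 : (⟨(-1 : Eis).re / 2, (-1 : Eis).im / 2⟩ : Eis) = -1 := by decide
  rw [e1, e3, one_pow, one_mul]
  apply S2_sT_congr
  rw [neg_one_mul, QuadraticAlgebra.im_neg]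
  omega

theorem q2_r (v : ℕ) (δ : Eis) : q2 v δ (1 + 2 * om) = (-1) ^ v * sT (om * δ) := by
  rw [S2_q2_0 v δ (by rw [S2_odd]; decide)]
  have e1 : s8 (1 + 2 * om) = -1 := by
    unfold s8
    rw [norm_eq]
    decide
  have e3 : (⟨(1 + 2 * om : Eis).re / 2, (1 + 2 * om : Eis).im / 2⟩ : Eis) = om := by decide
  rw [e1, e3]

theorem q2_negr (v : ℕ) (δ : Eis) : q2 v δ (-(1 + 2 * om)) = q2 v δ (-1) * q2 v δ (1 + 2 * om) := by
  rw [S2_q2_0 v δ (by rw [S2_odd]; decide), q2_neg, q2_r]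
  have e1 : s8 (-(1 + 2 * om)) = -1 := by
    unfold s8
    rw [norm_eq]
    decide
  have e3 : (⟨(-(1 + 2 * om) : Eis).re / 2, (-(1 + 2 * om) : Eis).im / 2⟩ : Eis) = -1 - om := by decide
  rw [e1, e3]
  have e4 : sT ((-1 - om) * δ) = sT (δ + om * δ) := by
    apply S2_sT_congr
    have e5 : (-1 - om) * δ = -(δ + om * δ) := by ring
    rw [e5, QuadraticAlgebra.im_neg]
    omega
  rw [e4, S2_sT_add]
  ring

/-- `q2 (u + 4 t) = sT(t) ^ v q2 u` for `u ≡ 1 mod 2` -/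
theorem q2_add4 (v : ℕ) (δ : Eis) {u : Eis} (hu : (2 : Eis) ∣ u - 1) (t : Eis) : q2 v δ (u + 4 * t) = sT t ^ v * q2 v δ u := by
  have hu' : (2 : Eis) ∣ u + 4 * t - 1 := by
    have e : u + 4 * t - 1 = (u - 1) + 2 * (2 * t) := by ring
    rw [e]
    exact dvd_add hu (dvd_mul_right _ _)
  rw [S2_q2_0 v δ hu, S2_q2_0 v δ hu']
  rw [S2_odd] at hu
  have e4 : (4 : Eis) * t = ⟨4 * t.re, 4 * t.im⟩ := by
    have e : (4 : Eis) * t = 2 * (2 * t) := by ring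
    rw [e, S2_two_mul, S2_two_mul]
    refine QuadraticAlgebra.ext ?_ ?_
    · simp only
      ring
    · simp only
      ring
  have e5 : u + 4 * t = ⟨u.re + 4 * t.re, u.im + 4 * t.im⟩ := by
    rw [e4]
    refine QuadraticAlgebra.ext ?_ ?_
    · rw [QuadraticAlgebra.re_add]
    · rw [QuadraticAlgebra.im_add]
  rw [e5]
  obtain ⟨a, b⟩ := u
  obtain ⟨c, e⟩ := t
  obtain ⟨x, y⟩ := δ
  simp only at hu ⊢
  have him : ∀ c d : ℤ, ((⟨c, d⟩ : Eis) * ⟨x, y⟩).im = c * y + d * x - d * y := by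
    intro c d
    rw [QuadraticAlgebra.im_mul]
    simp only
    ring
  have f1 : sT (⟨(a + 4 * c) / 2, (b + 4 * e) / 2⟩ * (⟨x, y⟩ : Eis)) = sT (⟨a / 2, b / 2⟩ * (⟨x, y⟩ : Eis)) := by
    apply S2_sT_congr
    rw [him, him]
    have ha : (a + 4 * c) / 2 = a / 2 + 2 * c := by omega
    have hb : (b + 4 * e) / 2 = b / 2 + 2 * e := by omega
    rw [ha, hb]
    have e4 : (a / 2 + 2 * c) * y + (b / 2 + 2 * e) * x - (b / 2 + 2 * e) * y =
      (a / 2 * y + b / 2 * x - b / 2 * y) + 2 * (c * y + e * x - e * y) := by ring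
    rw [e4]
    omega
  have f2 : s8 (⟨a + 4 * c, b + 4 * e⟩ : Eis) = sT (⟨c, e⟩ : Eis) * s8 (⟨a, b⟩ : Eis) := by
    unfold s8 sT
    rw [norm_eq, norm_eq]
    simp only
    obtain ⟨k, hk⟩ : ∃ k, a = 2 * k + 1 := ⟨a / 2, by omega⟩
    obtain ⟨l, hl⟩ : ∃ l, b = 2 * l := ⟨b / 2, by omega⟩
    have e2 : (a + 4 * c) ^ 2 - (a + 4 * c) * (b + 4 * e) + (b + 4 * e) ^ 2 =
        (a ^ 2 - a * b + b ^ 2) + 4 * e + 8 * (a * c + 2 * c ^ 2 - k * e - e - l * c - 2 * c * e + b * e + 2 * e ^ 2) := by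
      rw [hk, hl]
      ring
    rw [e2]
    have hodd : (a ^ 2 - a * b + b ^ 2) % 2 = 1 := by
      have e6 : a ^ 2 - a * b + b ^ 2 = 2 * (2 * k ^ 2 + 2 * k - (2 * k + 1) * l + 2 * l ^ 2) + 1 := by
        rw [hk, hl]
        ring
      rw [e6]
      omega
    generalize a ^ 2 - a * b + b ^ 2 = N at hodd ⊢
    generalize (a * c + 2 * c ^ 2 - k * e - e - l * c - 2 * c * e + b * e + 2 * e ^ 2) = M
    by_cases he : (2 : ℤ) ∣ e
    · rw [if_pos he, one_mul]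
      by_cases hN : N % 8 = 1 ∨ N % 8 = 7
      · rw [if_pos hN, if_pos (by omega)]
      · rw [if_neg hN, if_neg (by omega)]
    · rw [if_neg he]
      by_cases hN : N % 8 = 1 ∨ N % 8 = 7
      · rw [if_pos hN, if_neg (by omega)]
        norm_num
      · rw [if_neg hN, if_pos (by omega)]
        norm_num
  rw [f1, f2, mul_pow]
  ring

/-! auxiliary lemmas of row S2b -/

theorem S2b_om_mod {i j : ℕ} (hi : i < 3) (hj : j < 3) {u u' : Eis} (hu : (2 : Eis) ∣ u - 1) (hu' : (2 : Eis) ∣ u' - 1)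
    (h : (2 : Eis) ∣ om ^ i * u - om ^ j * u') : i = j := by
  rw [S2_odd] at hu hu'
  have e : ∀ x y : Eis, (2 : Eis) ∣ x - y ↔ (2 : ℤ) ∣ x.re - y.re ∧ (2 : ℤ) ∣ x.im - y.im := by
    intro x y
    rw [S2_dvd, QuadraticAlgebra.re_sub, QuadraticAlgebra.im_sub]
  rw [e] at h
  interval_cases i <;> interval_cases j
  · rfl
  · exfalso
    rw [pow_zero, one_mul, pow_one, S2_om] at h
    simp only at h
    omega
  · exfalso
    rw [pow_zero, one_mul, S2_om2] at h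
    simp only at h
    omega
  · exfalso
    rw [pow_zero, one_mul, pow_one, S2_om] at h
    simp only at h
    omega
  · rfl
  · exfalso
    rw [pow_one, S2_om, S2_om2] at h
    simp only at h
    omega
  · exfalso
    rw [pow_zero, one_mul, S2_om2] at h
    simp only at h
    omega
  · exfalso
    rw [pow_one, S2_om, S2_om2] at h
    simp only at h
    omega
  · rfl

theorem S2b_cop (i : ℕ) (f : Eis) : IsCoprime (om ^ i) f := by
  have h1 : IsUnit (om ^ i) := (IsUnit.of_mul_eq_one (om ^ 2) (by decide)).pow i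
  obtain ⟨b, hb⟩ := h1.exists_left_inv
  exact ⟨b, 0, by rw [hb]; ring⟩

theorem S2b_dvd_unit {n i : ℕ} {x : Eis} (h : (2 : Eis) ^ n ∣ om ^ i * x) : (2 : Eis) ^ n ∣ x :=
  (IsCoprime.dvd_of_dvd_mul_left (S2b_cop i ((2 : Eis) ^ n)).symm h)

/-- sum over the classes modulo `2 ^ n` of a function which vanishes at the even elements -/
theorem S2b_sum {n : ℕ} (hn : n ≠ 0) {U : Finset Eis} (hU : ∀ u ∈ U, (2 : Eis) ∣ u - 1)
    (hU' : ∀ α : Eis, (2 : Eis) ∣ α - 1 → ∃! u, u ∈ U ∧ (2 : Eis) ^ n ∣ α - u) (G : Eis → ℂ)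
    (hG : ∀ a b, (2 : Eis) ^ n ∣ a - b → G a = G b) (hG0 : ∀ a, (2 : Eis) ∣ a → G a = 0) :
    ∑ d ∈ rp (2 ^ n), G d = ∑ i ∈ Finset.range 3, ∑ u ∈ U, G (om ^ i * u) := by
  have h20 : (2 : Eis) ^ n ≠ 0 := by
    have := eis_isDomain
    exact pow_ne_zero n Q3V.two_ne_eis
  have hrp : IsRep (2 ^ n) (rp (2 ^ n)) := CUL.rp_spec h20
  have h2n : ∀ a : Eis, (2 : Eis) ^ n ∣ a → (2 : Eis) ∣ a := fun a ha => (dvd_pow_self 2 hn).trans ha
  let E := (rp ((2 : Eis) ^ n)).filter (fun d => (2 : Eis) ∣ d)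
  let I := (Finset.range 3 ×ˢ U).image (fun p : ℕ × Eis => om ^ p.1 * p.2)
  have hI : ∀ c ∈ I, ¬ (2 : Eis) ∣ c := by
    intro c hc
    obtain ⟨⟨i, u⟩, hp, rfl⟩ := Finset.mem_image.1 hc
    rw [Finset.mem_product, Finset.mem_range] at hp
    intro h
    have h1 := (S2_not (hU u hp.2))
    obtain ⟨hi, -⟩ := hp
    simp only at hi h
    interval_cases i
    · rw [pow_zero, one_mul] at h
      exact h1.1 h
    · rw [pow_one] at h
      exact h1.2.1 h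
    · exact h1.2.2 h
  have hdisj : Disjoint E I := by
    rw [Finset.disjoint_left]
    intro c hc hc'
    exact hI c hc' (Finset.mem_filter.1 hc).2
  have hrep : IsRep (2 ^ n) (E ∪ I) := by
    intro a
    by_cases ha : (2 : Eis) ∣ a
    · obtain ⟨c, ⟨hc, hd⟩, huniq⟩ := hrp a
      refine ⟨c, ⟨Finset.mem_union_left _ (Finset.mem_filter.2 ⟨hc, ?_⟩), hd⟩, ?_⟩
      · have e : c = a - (a - c) := by ring
        rw [e]
        exact dvd_sub ha (h2n _ hd)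
      · rintro c' ⟨hc', hd'⟩
        rcases Finset.mem_union.1 hc' with h | h
        · exact huniq c' ⟨(Finset.mem_filter.1 h).1, hd'⟩
        · exfalso
          apply hI c' h
          have e : c' = a - (a - c') := by ring
          rw [e]
          exact dvd_sub ha (h2n _ hd')
    · -- odd
      obtain ⟨i, hi, α, hα, rfl⟩ : ∃ i < 3, ∃ α : Eis, (2 : Eis) ∣ α - 1 ∧ a = om ^ i * α := by
        rcases S2_cases a with h | ⟨u, hu, rfl | rfl | rfl⟩
        · exact absurd h ha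
        · exact ⟨0, by norm_num, a, hu, by rw [pow_zero, one_mul]⟩
        · exact ⟨1, by norm_num, u, hu, by rw [pow_one]⟩
        · exact ⟨2, by norm_num, u, hu, rfl⟩
      obtain ⟨u, ⟨hu, hd⟩, huniq⟩ := hU' α hα
      refine ⟨om ^ i * u, ⟨Finset.mem_union_right _ (Finset.mem_image.2 ⟨(i, u), Finset.mem_product.2
        ⟨Finset.mem_range.2 hi, hu⟩, rfl⟩), ?_⟩, ?_⟩
      · rw [← mul_sub]
        exact hd.mul_left _
      · rintro c' ⟨hc', hd'⟩
        rcases Finset.mem_union.1 hc' with h | h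
        · exfalso
          apply ha
          have e : om ^ i * α = c' + (om ^ i * α - c') := by ring
          rw [e]
          exact dvd_add (Finset.mem_filter.1 h).2 (h2n _ hd')
        · obtain ⟨⟨j, u'⟩, hp, rfl⟩ := Finset.mem_image.1 h
          rw [Finset.mem_product, Finset.mem_range] at hp
          obtain ⟨hj, hu'⟩ := hp
          simp only at hj hu' hd' ⊢
          have hij : i = j := S2b_om_mod hi hj hα (hU u' hu') (h2n _ hd')
          subst hij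
          rw [← mul_sub] at hd'
          rw [huniq u' ⟨hu', S2b_dvd_unit hd'⟩]
  rw [IsRep.sum_eq hrp hrep G hG, Finset.sum_union hdisj]
  have hE : ∑ x ∈ E, G x = 0 := Finset.sum_eq_zero fun x hx => hG0 x (Finset.mem_filter.1 hx).2
  have hinj : Set.InjOn (fun p : ℕ × Eis => om ^ p.1 * p.2) ((Finset.range 3 ×ˢ U : Finset (ℕ × Eis)) : Set (ℕ × Eis)) := by
    rintro ⟨i, u⟩ hp ⟨j, u'⟩ hq he
    rw [Finset.mem_coe, Finset.mem_product, Finset.mem_range] at hp hq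
    obtain ⟨hi, hu⟩ := hp
    obtain ⟨hj, hu'⟩ := hq
    simp only at hi hu hj hu' he
    have hij : i = j := S2b_om_mod hi hj (hU u hu) (hU u' hu') (by rw [he, sub_self]; exact dvd_zero _)
    subst hij
    have h1 : om ^ (3 * i) * u = om ^ (3 * i) * u' := by
      have e : ∀ x : Eis, om ^ (3 * i) * x = om ^ (2 * i) * (om ^ i * x) := fun x => by ring
      rw [e, e, he]
    rw [pow_mul, S2_om3, one_pow, one_mul, one_mul] at h1
    rw [h1]
  rw [hE, zero_add, Finset.sum_image hinj, Finset.sum_product]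

theorem S2b_r2 (v : ℕ) (δ : Eis) (j : ZMod 3) {i : ℕ} (hi : i < 3) {u : Eis} (hu : (2 : Eis) ∣ u - 1) :
    r2 v δ j (om ^ i * u) = (q2 v δ u : ℂ) * (w ^ i) ^ j.val := by
  have h1 : cr (-2) (om ^ i * u) = w ^ i := by
    apply cr_two
    have e : om ^ i * u - om ^ i = (u - 1) * om ^ i := by ring
    rw [e]
    exact hu.mul_right _
  have h2 : q2 v δ (om ^ i * u) = q2 v δ u := by
    interval_cases i
    · rw [pow_zero, one_mul]
    · rw [pow_one]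
      exact S2_q2_1 v δ hu
    · exact S2_q2_2 v δ hu
  unfold r2
  rw [h1, h2]

theorem S2b_pt (L : Lv) {a b : Eis} (h : L.f ∣ a - b) : ∃ t : Eis, pt L a = pt L b + emb t := by
  obtain ⟨t, ht⟩ := h
  have hf : emb L.f ≠ 0 := by
    rw [Ne, ← map_zero emb, emb_injective.eq_iff]
    exact L.hf
  refine ⟨t, ?_⟩
  have e : a = b + L.f * t := by rw [← ht]; ring
  unfold pt
  rw [e, map_add, map_mul]
  field_simp

theorem S2b_w (z : ℂ) (i : ℕ) : ez (w ^ i * z) = w ^ (2 * i) * ez z := by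
  induction i with
  | zero => simp
  | succ i ih =>
    have e : w ^ (i + 1) * z = w * (w ^ i * z) := by ring
    rw [e, CUL.ez_w, ih]
    ring

theorem S2b_one (L : Lv) : L.q 1 = 1 ∧ L.k 1 = 1 := ⟨q_one L, k_one L⟩

/-- `q(ω^i c) k(ω^i c) = w^(i (1 - j)) q(c) k(c)` -/
theorem S2b_qk (L : Lv) (i : ℕ) (c : Eis) : (L.q (om ^ i * c) : ℂ) * L.k (om ^ i * c) =
    zw (1 - L.j) ^ i * ((L.q c : ℂ) * L.k c) := by
  induction i with
  | zero => simp
  | succ i ih =>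
    have e : om ^ (i + 1) * c = om * (om ^ i * c) := by ring
    rw [e, L.q_mul, L.k_mul, L.q_om, L.k_om]
    push_cast
    rw [pow_succ]
    linear_combination zw (1 - L.j) * ih

theorem S2b_fac (j : ZMod 3) (i : ℕ) : (w ^ i) ^ j.val * (zw (1 - j) ^ i * w ^ (2 * i)) = 1 := by
  have h1 : w ^ j.val * zw (1 - j) * w ^ 2 = 1 := by
    have e : w ^ j.val = zw j := rfl
    rw [e, ← CUL.zw_add, ← CUL.zw_two, ← CUL.zw_add]
    have e2 : j + (1 - j) + 2 = (0 : ZMod 3) := by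
      have e3 : j + (1 - j) + 2 = (3 : ZMod 3) := by ring
      rw [e3]
      rfl
    rw [e2, CUL.zw_zero]
  have e : (w ^ i) ^ j.val * (zw (1 - j) ^ i * w ^ (2 * i)) = (w ^ j.val * zw (1 - j) * w ^ 2) ^ i := by
    rw [mul_pow, mul_pow, ← pow_mul, ← pow_mul, ← pow_mul, mul_comm i j.val]
    ring
  rw [e, h1, one_pow]

/-- [S2.3] the general reduction: `U` a system of representatives modulo `2 ^ n` of the classes `≡ 1 mod 2`. -/
theorem V_red {L : Lv} {v : ℕ} {δ : Eis} (hn : n2 v δ ≠ 0) {U : Finset Eis} (hU : ∀ u ∈ U, (2 : Eis) ∣ u - 1)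
    (hU' : ∀ α : Eis, (2 : Eis) ∣ α - 1 → ∃! u, u ∈ U ∧ (2 : Eis) ^ n2 v δ ∣ α - u) :
    V L v δ = 3 * SF L (fun z => ∑ u ∈ U, (q2 v δ u : ℂ) * ez (z + emb u / 2 ^ n2 v δ)) := by
  have hf : emb L.f ≠ 0 := by
    rw [Ne, ← map_zero emb, emb_injective.eq_iff]
    exact L.hf
  have h2C : (2 : ℂ) ^ n2 v δ ≠ 0 := pow_ne_zero _ two_ne_zero
  unfold V
  rw [if_neg hn]
  -- the inner sum
  have hin : ∀ z : ℂ, ∑ d ∈ rp (2 ^ n2 v δ), r2 v δ L.j d * ez (z + emb d / 2 ^ n2 v δ) =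
      ∑ i ∈ Finset.range 3, ∑ u ∈ U, (q2 v δ u : ℂ) * (w ^ i) ^ L.j.val * ez (z + w ^ i * (emb u / 2 ^ n2 v δ)) := by
    intro z
    rw [S2b_sum hn hU hU']
    · refine Finset.sum_congr rfl fun i hi => Finset.sum_congr rfl fun u hu => ?_
      rw [S2b_r2 v δ L.j (Finset.mem_range.1 hi) (hU u hu), map_mul, map_pow, CUL.emb_om, mul_div_assoc]
    · intro a b hab
      have h1 : r2 v δ L.j a = r2 v δ L.j b := by
        unfold r2
        rw [q2_per v δ hab hn, CUL.cr_congr S2_p2 S2_P2 ((neg_dvd).2 ((dvd_pow_self 2 hn).trans hab))]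
      obtain ⟨t, ht⟩ := hab
      have h2 : z + emb a / 2 ^ n2 v δ = z + emb b / 2 ^ n2 v δ + emb t := by
        have e : a = b + 2 ^ n2 v δ * t := by rw [← ht]; ring
        rw [e, map_add, map_mul, map_pow, Q3V.emb_two]
        field_simp
        ring
      rw [h1, h2, CUL.ez_add_emb]
    · intro a ha
      unfold r2
      rw [S2_q2_even v δ ha]
      push_cast
      ring
  -- one of the three sums
  have hone : ∀ i : ℕ, ∑ c ∈ rp L.f, (L.q c : ℂ) * L.k c * ∑ u ∈ U, (q2 v δ u : ℂ) * (w ^ i) ^ L.j.val *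
      ez (pt L c + w ^ i * (emb u / 2 ^ n2 v δ)) =
      SF L (fun z => ∑ u ∈ U, (q2 v δ u : ℂ) * ez (z + emb u / 2 ^ n2 v δ)) := by
    intro i
    have hper : ∀ a b : Eis, L.f ∣ a - b → (L.q a : ℂ) * L.k a * ∑ u ∈ U, (q2 v δ u : ℂ) * (w ^ i) ^ L.j.val *
        ez (pt L a + w ^ i * (emb u / 2 ^ n2 v δ)) = (L.q b : ℂ) * L.k b * ∑ u ∈ U, (q2 v δ u : ℂ) * (w ^ i) ^ L.j.val *
        ez (pt L b + w ^ i * (emb u / 2 ^ n2 v δ)) := by
      intro a b hab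
      rw [L.q_per a b hab, L.k_per a b hab]
      obtain ⟨t, ht⟩ := S2b_pt L hab
      congr 1
      refine Finset.sum_congr rfl fun u _ => ?_
      have e : pt L a + w ^ i * (emb u / 2 ^ n2 v δ) = pt L b + w ^ i * (emb u / 2 ^ n2 v δ) + emb t := by
        rw [ht]; ring
      rw [e, CUL.ez_add_emb]
    rw [← IsRep.sum_mul (CUL.rp_spec L.hf) (S2b_cop i L.f) _ hper]
    unfold SF
    refine Finset.sum_congr rfl fun c _ => ?_
    rw [S2b_qk, Finset.mul_sum, Finset.mul_sum]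
    refine Finset.sum_congr rfl fun u _ => ?_
    have e : pt L (om ^ i * c) + w ^ i * (emb u / 2 ^ n2 v δ) = w ^ i * (pt L c + emb u / 2 ^ n2 v δ) := by
      unfold pt
      rw [map_mul, map_pow, CUL.emb_om]
      ring
    rw [e, S2b_w]
    have h1 := S2b_fac L.j i
    linear_combination ((L.q c : ℂ) * L.k c * (q2 v δ u : ℂ) * ez (pt L c + emb u / 2 ^ n2 v δ)) * h1
  have hfin : ∑ c ∈ rp L.f, (L.q c : ℂ) * L.k c * ∑ d ∈ rp (2 ^ n2 v δ), r2 v δ L.j d * ez (pt L c + emb d / 2 ^ n2 v δ) =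
      ∑ i ∈ Finset.range 3, ∑ c ∈ rp L.f, (L.q c : ℂ) * L.k c * ∑ u ∈ U, (q2 v δ u : ℂ) * (w ^ i) ^ L.j.val *
      ez (pt L c + w ^ i * (emb u / 2 ^ n2 v δ)) := by
    rw [Finset.sum_comm]
    refine Finset.sum_congr rfl fun c _ => ?_
    rw [hin, Finset.mul_sum]
  rw [hfin, Finset.sum_congr rfl fun i _ => hone i]
  rw [Finset.sum_const, Finset.card_range]
  simp

/-- [S2.4] `n = 1`: `U = {1}` -/
theorem V_one {L : Lv} {v : ℕ} {δ : Eis} (hn : n2 v δ = 1) : V L v δ = 3 * SF L (fun z => ez (z + 1 / 2)) := by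
  have hn0 : n2 v δ ≠ 0 := by rw [hn]; norm_num
  rw [V_red hn0 (U := {1}) ?_ ?_]
  · congr 1
    have e : (fun z => ∑ u ∈ ({1} : Finset Eis), (q2 v δ u : ℂ) * ez (z + emb u / 2 ^ n2 v δ)) = fun z => ez (z + 1 / 2) := by
      funext z
      rw [Finset.sum_singleton, q2_one, hn, map_one]
      push_cast
      ring_nf
    rw [e]
  · intro u hu
    rw [Finset.mem_singleton.1 hu, sub_self]
    exact dvd_zero _
  · intro α hα
    rw [hn, pow_one]
    exact ⟨1, ⟨Finset.mem_singleton_self _, hα⟩, fun y hy => Finset.mem_singleton.1 hy.1⟩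

/-- the classes `≡ 1 mod 2` modulo `4` -/
theorem S2c_mem (c : Eis) : c ∈ ({1, -1, 1 + 2 * om, -(1 + 2 * om)} : Finset Eis) ↔
    (c.re = 1 ∧ c.im = 0) ∨ (c.re = -1 ∧ c.im = 0) ∨ (c.re = 1 ∧ c.im = 2) ∨ (c.re = -1 ∧ c.im = -2) := by
  have e1 : (1 + 2 * om : Eis) = ⟨1, 2⟩ := by decide
  have e2 : (-(1 + 2 * om) : Eis) = ⟨-1, -2⟩ := by decide
  have e3 : (-1 : Eis) = ⟨-1, 0⟩ := by decide
  rw [e2, e1, e3]
  simp only [Finset.mem_insert, Finset.mem_singleton, QuadraticAlgebra.ext_iff,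
    QuadraticAlgebra.re_one, QuadraticAlgebra.im_one]

theorem S2c_odd : ∀ u ∈ ({1, -1, 1 + 2 * om, -(1 + 2 * om)} : Finset Eis), (2 : Eis) ∣ u - 1 := by
  intro u hu
  rw [S2c_mem] at hu
  rw [S2_odd]
  omega

theorem S2c_four (α : Eis) (hα : (2 : Eis) ∣ α - 1) :
    ∃! u, u ∈ ({1, -1, 1 + 2 * om, -(1 + 2 * om)} : Finset Eis) ∧ (2 : Eis) ^ 2 ∣ α - u := by
  rw [S2_odd] at hα
  refine ⟨⟨if α.im % 4 = 0 then (if α.re % 4 = 1 then 1 else -1) else (if α.re % 4 = 1 then 1 else -1),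
    if α.im % 4 = 0 then 0 else (if α.re % 4 = 1 then 2 else -2)⟩, ⟨?_, ?_⟩, ?_⟩
  · rw [S2c_mem]
    simp only
    split_ifs <;> omega
  · rw [S2_pow_dvd, QuadraticAlgebra.re_sub, QuadraticAlgebra.im_sub]
    simp only
    norm_num
    split_ifs <;> omega
  · rintro c ⟨hc, hd⟩
    rw [S2c_mem] at hc
    rw [S2_pow_dvd, QuadraticAlgebra.re_sub, QuadraticAlgebra.im_sub] at hd
    norm_num at hd
    refine QuadraticAlgebra.ext ?_ ?_
    · simp only
      split_ifs <;> omega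
    · simp only
      split_ifs <;> omega

theorem S2c_sum (F : Eis → ℂ) : ∑ u ∈ ({1, -1, 1 + 2 * om, -(1 + 2 * om)} : Finset Eis), F u =
    F 1 + F (-1) + F (1 + 2 * om) + F (-(1 + 2 * om)) := by
  rw [Finset.sum_insert (by decide), Finset.sum_insert (by decide), Finset.sum_insert (by decide), Finset.sum_singleton]
  ring

/-- [S2.5] `n = 2`: `U = {1, -1, r, -r}`, `r = 1 + 2 ω` -/
theorem V_two {L : Lv} {v : ℕ} {δ : Eis} (hn : n2 v δ = 2) : V L v δ = 3 * SF L (fun z => ez (z + 1 / 4) +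
    (q2 v δ (-1) : ℂ) * ez (z - 1 / 4) + (q2 v δ (1 + 2 * om) : ℂ) * ez (z + (1 + 2 * w) / 4) +
    (q2 v δ (-1) : ℂ) * (q2 v δ (1 + 2 * om) : ℂ) * ez (z - (1 + 2 * w) / 4)) := by
  have hn0 : n2 v δ ≠ 0 := by rw [hn]; norm_num
  rw [V_red hn0 S2c_odd (by rw [hn]; exact S2c_four)]
  congr 1
  have e : (fun z => ∑ u ∈ ({1, -1, 1 + 2 * om, -(1 + 2 * om)} : Finset Eis), (q2 v δ u : ℂ) * ez (z + emb u / 2 ^ n2 v δ)) =
      fun z => ez (z + 1 / 4) + (q2 v δ (-1) : ℂ) * ez (z - 1 / 4) +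
        (q2 v δ (1 + 2 * om) : ℂ) * ez (z + (1 + 2 * w) / 4) +
        (q2 v δ (-1) : ℂ) * (q2 v δ (1 + 2 * om) : ℂ) * ez (z - (1 + 2 * w) / 4) := by
    funext z
    have e1 : z + 1 / 2 ^ 2 = z + 1 / 4 := by norm_num
    have e2 : z + -1 / 2 ^ 2 = z - 1 / 4 := by ring
    have e3 : z + (1 + 2 * w) / 2 ^ 2 = z + (1 + 2 * w) / 4 := by ring
    have e4 : z + -(1 + 2 * w) / 2 ^ 2 = z - (1 + 2 * w) / 4 := by ring
    rw [S2c_sum, q2_one, q2_negr, hn, map_neg, map_neg, map_one, map_add, map_mul, CUL.emb_om, Q3V.emb_two, map_one,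
      e1, e2, e3, e4]
    push_cast
    ring
  rw [e]

theorem S2c_T (F : Eis → ℂ) : ∑ t ∈ ({0, 1, om, om * om} : Finset Eis), F t = F 0 + F 1 + F om + F (om * om) := by
  rw [Finset.sum_insert (by decide), Finset.sum_insert (by decide), Finset.sum_insert (by decide), Finset.sum_singleton]
  ring

theorem S2c_uniq {α u u' t t' : Eis} (hu : u ∈ ({1, -1, 1 + 2 * om, -(1 + 2 * om)} : Finset Eis))
    (hu' : u' ∈ ({1, -1, 1 + 2 * om, -(1 + 2 * om)} : Finset Eis)) (ht : t ∈ ({0, 1, om, om * om} : Finset Eis))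
    (ht' : t' ∈ ({0, 1, om, om * om} : Finset Eis)) (h1 : (2 : Eis) ^ 3 ∣ α - (u + 4 * t))
    (h2 : (2 : Eis) ^ 3 ∣ α - (u' + 4 * t')) : u = u' ∧ t = t' := by
  have e8 : (2 : Eis) ^ 3 = 4 * 2 := by norm_num
  have e4 : (2 : Eis) ^ 2 = 4 := by norm_num
  have h40 : (4 : Eis) ≠ 0 := by decide
  have hdom := eis_isDomain
  have h3 : (2 : Eis) ∣ α - 1 := by
    have h4 := S2c_odd u hu
    have e : α - 1 = (α - (u + 4 * t)) + (u - 1) + 2 * (2 * t) := by ring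
    rw [e]
    exact dvd_add (dvd_add ((dvd_pow_self 2 (by norm_num)).trans h1) h4) (dvd_mul_right _ _)
  have h5 : ∀ u t : Eis, (2 : Eis) ^ 3 ∣ α - (u + 4 * t) → (2 : Eis) ^ 2 ∣ α - u := by
    intro u t h
    have e : α - u = (α - (u + 4 * t)) + 2 ^ 2 * t := by rw [e4]; ring
    rw [e]
    exact dvd_add ((pow_dvd_pow 2 (by norm_num)).trans h) (dvd_mul_right _ _)
  have h6 : u = u' := (S2c_four α h3).unique ⟨hu, h5 u t h1⟩ ⟨hu', h5 u' t' h2⟩
  subst h6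
  obtain ⟨s, hs⟩ := h5 u t h1
  rw [e4] at hs
  have h7 : ∀ t : Eis, (2 : Eis) ^ 3 ∣ α - (u + 4 * t) → (2 : Eis) ∣ s - t := by
    intro t h
    have e : α - (u + 4 * t) = 4 * (s - t) := by rw [mul_sub, ← hs]; ring
    rw [e, e8] at h
    exact (mul_dvd_mul_iff_left h40).1 h
  exact ⟨rfl, (Q3V.rep_two s).unique ⟨ht, h7 t h1⟩ ⟨ht', h7 t' h2⟩⟩

/-- the classes `≡ 1 mod 2` modulo `8` -/
noncomputable def S2c_U : Finset Eis :=
  (({1, -1, 1 + 2 * om, -(1 + 2 * om)} : Finset Eis) ×ˢ ({0, 1, om, om * om} : Finset Eis)).image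
    (fun p : Eis × Eis => p.1 + 4 * p.2)

theorem S2c_Umem {c : Eis} (hc : c ∈ S2c_U) : ∃ u ∈ ({1, -1, 1 + 2 * om, -(1 + 2 * om)} : Finset Eis),
    ∃ t ∈ ({0, 1, om, om * om} : Finset Eis), c = u + 4 * t := by
  unfold S2c_U at hc
  obtain ⟨⟨u, t⟩, hp, hc⟩ := Finset.mem_image.1 hc
  rw [Finset.mem_product] at hp
  exact ⟨u, hp.1, t, hp.2, hc.symm⟩

theorem S2c_Uodd : ∀ u ∈ S2c_U, (2 : Eis) ∣ u - 1 := by
  intro c hc
  obtain ⟨u, hu, t, -, rfl⟩ := S2c_Umem hc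
  have h4 := S2c_odd u hu
  have e : u + 4 * t - 1 = (u - 1) + 2 * (2 * t) := by ring
  rw [e]
  exact dvd_add h4 (dvd_mul_right _ _)

theorem S2c_Urep (α : Eis) (hα : (2 : Eis) ∣ α - 1) : ∃! u, u ∈ S2c_U ∧ (2 : Eis) ^ 3 ∣ α - u := by
  have e8 : (2 : Eis) ^ 3 = 4 * 2 := by norm_num
  have e4 : (2 : Eis) ^ 2 = 4 := by norm_num
  obtain ⟨u, ⟨hu, s, hs⟩, -⟩ := S2c_four α hα
  rw [e4] at hs
  obtain ⟨t, ⟨ht, r, hr⟩, -⟩ := Q3V.rep_two s
  have h1 : (2 : Eis) ^ 3 ∣ α - (u + 4 * t) := by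
    refine ⟨r, ?_⟩
    rw [e8, mul_assoc, ← hr, mul_sub, ← hs]
    ring
  refine ⟨u + 4 * t, ⟨?_, h1⟩, ?_⟩
  · unfold S2c_U
    exact Finset.mem_image.2 ⟨(u, t), Finset.mem_product.2 ⟨hu, ht⟩, rfl⟩
  · rintro c ⟨hc, hd⟩
    obtain ⟨u', hu', t', ht', rfl⟩ := S2c_Umem hc
    obtain ⟨h2, h3⟩ := S2c_uniq hu hu' ht ht' h1 hd
    rw [h2, h3]

theorem S2c_Usum (F : Eis → ℂ) : ∑ c ∈ S2c_U, F c = ∑ u ∈ ({1, -1, 1 + 2 * om, -(1 + 2 * om)} : Finset Eis),
    ∑ t ∈ ({0, 1, om, om * om} : Finset Eis), F (u + 4 * t) := by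
  unfold S2c_U
  rw [Finset.sum_image, Finset.sum_product]
  rintro ⟨u, t⟩ hp ⟨u', t'⟩ hq he
  rw [Finset.mem_coe, Finset.mem_product] at hp hq
  have he' : u + 4 * t = u' + 4 * t' := he
  obtain ⟨h2, h3⟩ := S2c_uniq (α := u + 4 * t) hp.1 hq.1 hp.2 hq.2 (by rw [sub_self]; exact dvd_zero _)
    (by rw [he', sub_self]; exact dvd_zero _)
  have h2' : u = u' := h2
  have h3' : t = t' := h3
  rw [h2', h3']

theorem S2c_inner {v : ℕ} (hv : v % 2 = 1) (δ : Eis) (z : ℂ) {u : Eis}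
    (hu : u ∈ ({1, -1, 1 + 2 * om, -(1 + 2 * om)} : Finset Eis)) :
    ∑ t ∈ ({0, 1, om, om * om} : Finset Eis), (q2 v δ (u + 4 * t) : ℂ) * ez (z + emb (u + 4 * t) / 2 ^ 3) =
      (q2 v δ u : ℂ) * kq (z + emb u / 8) := by
  have hs : ∀ t : Eis, sT t ^ v = sT t := by
    intro t
    obtain ⟨k, hk⟩ : ∃ k, v = 2 * k + 1 := ⟨v / 2, by omega⟩
    have h1 : sT t ^ 2 = 1 := by
      unfold sT
      split_ifs <;> norm_num
    rw [hk, pow_succ, pow_mul, h1, one_pow, one_mul]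
  have hq : ∀ t : Eis, (q2 v δ (u + 4 * t) : ℂ) * ez (z + emb (u + 4 * t) / 2 ^ 3) =
      (q2 v δ u : ℂ) * ((sT t : ℂ) * ez ((z + emb u / 8) + emb t / 2)) := by
    intro t
    have e1 : z + emb (u + 4 * t) / 2 ^ 3 = (z + emb u / 8) + emb t / 2 := by
      rw [map_add, map_mul, map_ofNat]
      ring
    rw [q2_add4 v δ (S2c_odd u hu) t, hs, e1]
    push_cast
    ring
  have s0 : sT 0 = 1 := by decide
  have s1 : sT 1 = 1 := by decide
  have s2 : sT om = -1 := by decide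
  have s3 : sT (om * om) = -1 := by decide
  have e1 : z + emb u / 8 + 0 / 2 = z + emb u / 8 := by ring
  have e2 : w * w = w ^ 2 := by ring
  rw [Finset.sum_congr rfl fun t _ => hq t, ← Finset.mul_sum, S2c_T, s0, s1, s2, s3, map_zero, map_one, map_mul,
    CUL.emb_om, e1, e2]
  unfold kq
  push_cast
  ring

/-- [S2.6] `n = 3` (`v` odd): `U = {± 1, ± r} + 4 {0, 1, ω, ω²}`, `q2 (u + 4 t) = sT(t) q2 u`, `kq z = ez z + ez (z + 1/2) - ez (z + ω/2) - ez (z + ω²/2)` -/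
theorem V_three {L : Lv} {v : ℕ} {δ : Eis} (hn : n2 v δ = 3) : V L v δ = 3 * SF L (fun z => kq (z + 1 / 8) +
    (q2 v δ (-1) : ℂ) * kq (z - 1 / 8) + (q2 v δ (1 + 2 * om) : ℂ) * kq (z + (1 + 2 * w) / 8) +
    (q2 v δ (-1) : ℂ) * (q2 v δ (1 + 2 * om) : ℂ) * kq (z - (1 + 2 * w) / 8)) := by
  have hn0 : n2 v δ ≠ 0 := by rw [hn]; norm_num
  have hv : v % 2 = 1 := by
    unfold n2 at hn
    by_contra hcon
    rw [if_neg hcon] at hn
    split_ifs at hn <;> omega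
  rw [V_red hn0 S2c_Uodd (by rw [hn]; exact S2c_Urep)]
  congr 1
  have e : (fun z => ∑ u ∈ S2c_U, (q2 v δ u : ℂ) * ez (z + emb u / 2 ^ n2 v δ)) =
      fun z => kq (z + 1 / 8) + (q2 v δ (-1) : ℂ) * kq (z - 1 / 8) +
        (q2 v δ (1 + 2 * om) : ℂ) * kq (z + (1 + 2 * w) / 8) +
        (q2 v δ (-1) : ℂ) * (q2 v δ (1 + 2 * om) : ℂ) * kq (z - (1 + 2 * w) / 8) := by
    funext z
    rw [hn, S2c_Usum, Finset.sum_congr rfl fun u hu => S2c_inner hv δ z hu]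
    rw [S2c_sum, q2_one, q2_negr, map_neg, map_neg, map_one, map_add, map_mul, CUL.emb_om, Q3V.emb_two, map_one]
    have e2 : z + -1 / 8 = z - 1 / 8 := by ring
    have e4 : z + -(1 + 2 * w) / 8 = z - (1 + 2 * w) / 8 := by ring
    rw [e2, e4]
    push_cast
    ring
  rw [e]

/-- [S2.7] `n = 0`: `c ↦ 2 c` and `ez (2 z) = 2 ez z + 3 x²/y` (`Q3V.ez_two`) -/
theorem V_zero {L : Lv} {v : ℕ} {δ : Eis} (hn : n2 v δ = 0) :
    (1 - 2 * ((L.q 2 : ℂ) * L.k 2)) * V L v δ = 3 * ((L.q 2 : ℂ) * L.k 2) * SF L (fun z => yw z * (xw z ^ 2 / yw z ^ 2)) := by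
  have h2f : IsCoprime 2 L.f := by
    have := eis_isDomain
    have := eis_pid
    exact (Q3.prime_two.irreducible.coprime_iff_not_dvd).2 L.hf2
  have hV : V L v δ = SF L ez := by
    unfold V
    rw [if_pos hn]
    rfl
  have hper : Per ez := fun z e => CUL.ez_add_emb z e
  have h1 := SF_mul L hper h2f
  have hoff : ∀ z, OT z → Nl (2 * z) := fun z hz => (Q3V.OT.otl hz).off
  have h2 : SF L (fun z => ez (emb 2 * z)) = SF L (fun z => 2 * ez z + 3 * (yw z * (xw z ^ 2 / yw z ^ 2))) := by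
    apply SF_congr
    intro z hz
    have hy := Q3V.off_y (hoff z hz)
    rw [Q3V.emb_two, Q3V.ez_two (hoff z hz)]
    congr 1
    rw [pow_two (yw z)]
    field_simp
  have h3 : SF L (fun z => 2 * ez z + 3 * (yw z * (xw z ^ 2 / yw z ^ 2))) =
      2 * SF L ez + 3 * SF L (fun z => yw z * (xw z ^ 2 / yw z ^ 2)) := by
    rw [SF_add L (fun z => 2 * ez z) (fun z => 3 * (yw z * (xw z ^ 2 / yw z ^ 2))), SF_smul, SF_smul]
  rw [h2, h3] at h1
  rw [hV]
  linear_combination -h1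

end J2L
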