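import Pool.Agent.J2L.I0

/-!
# [J2L-S3] the leading term of `SF L G` for `G ≡ T₀ + ϕ T₁ + ϕ² T₂ mod 2`, `T_i` of different weights
-/

set_option autoImplicit false

open scoped Classical

namespace J2L

open CM27
open CU (om)
open CUL (Nl ez)
open Q3V (OT)

variable (A : ValuationSubring ℂ) (hA : A.valuation 2 < 1)

/-- integral, even, periodic functions -/
structure Gd (g : ℂ → ℂ) : Prop where
  per : Per g
  even : ∀ z, g (-z) = g z
  int : ∀ z, OT z → A.valuation (g z) ≤ 1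

theorem Gd.add {g g' : ℂ → ℂ} (h : Gd A g) (h' : Gd A g') : Gd A (fun z => g z + g' z) := by
  refine ⟨fun z e => ?_, fun z => ?_, fun z hz => ?_⟩
  · rw [h.per, h'.per]
  · rw [h.even, h'.even]
  · exact Valuation.map_add_le _ (h.int z hz) (h'.int z hz)

theorem Gd.mul {g g' : ℂ → ℂ} (h : Gd A g) (h' : Gd A g') : Gd A (fun z => g z * g' z) := by
  refine ⟨fun z e => ?_, fun z => ?_, fun z hz => ?_⟩
  · rw [h.per, h'.per]
  · rw [h.even, h'.even]
  · rw [map_mul]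
    exact mul_le_one' (h.int z hz) (h'.int z hz)

theorem Gd.const {C : ℂ} (h : A.valuation C ≤ 1) : Gd A (fun _ => C) := by
  exact ⟨fun _ _ => rfl, fun _ => rfl, fun _ _ => h⟩

include hA in
theorem Gd.xw : Gd A xw := by
  exact ⟨per_xw, fun z => xw_neg z, fun z hz => x_int A hA hz⟩

theorem Gd.pow {g : ℂ → ℂ} (h : Gd A g) (n : ℕ) : Gd A (fun z => g z ^ n) := by
  refine ⟨fun z e => ?_, fun z => ?_, fun z hz => ?_⟩
  · rw [h.per]
  · rw [h.even]
  · rw [map_pow]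
    exact pow_le_one' (h.int z hz) n

/-- the common part: `Y` is periodic and of weight `0` -/
private theorem s3a_lead (hA : A.valuation 2 < 1) {L : Lv} {R : Finset Eis} {a : Eis} (hR : IsR L R)
    (ha : IsA L a) {Y : ℂ → ℂ} (hY : Per Y) (hYw : ∀ z, Y (w * z) = Y z)
    (H : ∀ g : ℂ → ℂ, Gd A g → ∃ E, A.valuation E ≤ A.valuation 2 ∧
      SF L (fun z => Y z * g z) = 2 * (Ms L R a g + E)) {G : ℂ → ℂ} (hG : Gd A G)
    {T : ℕ → ℂ → ℂ} (hT : ∀ i < 3, Gd A (T i)) {l : ℕ → ℕ}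
    (hw : ∀ i < 3, ∀ z, T i (w * z) = w ^ l i * T i z) {k : ℕ} (hk : k < 3)
    (hl : ∀ i < 3, i ≠ k → 1 - L.j + (l i : ZMod 3) ≠ 0)
    (hc : ∀ z, OT z → A.valuation (G z - (T 0 z + ph * T 1 z + ph ^ 2 * T 2 z)) ≤ A.valuation 2) :
    ∃ E, A.valuation E < 1 ∧ SF L (fun z => Y z * G z) = 2 * ph ^ k * (Ms L R a (T k) + E) := by
  have h20 : A.valuation 2 ≠ 0 := (Valuation.ne_zero_iff _).2 two_ne_zero
  have hph : A.valuation ph < 1 := ph_lt A hA
  set S : ℂ → ℂ := fun z => T 0 z + ph * T 1 z + ph ^ 2 * T 2 z with hS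
  set I : ℂ → ℂ := fun z => (G z - S z) / 2 with hI
  have hIg : Gd A I := by
    refine ⟨fun z e => ?_, fun z => ?_, fun z hz => ?_⟩
    · simp only [hI, hS]
      rw [hG.per, (hT 0 (by norm_num)).per, (hT 1 (by norm_num)).per, (hT 2 (by norm_num)).per]
    · simp only [hI, hS]
      rw [hG.even, (hT 0 (by norm_num)).even, (hT 1 (by norm_num)).even, (hT 2 (by norm_num)).even]
    · simp only [hI]
      rw [map_div₀]
      exact (div_le_one₀ (zero_lt_iff.2 h20)).2 (hc z hz)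
  have hzero : ∀ i < 3, i ≠ k → SF L (fun z => Y z * T i z) = 0 := by
    intro i hi hik
    refine SF_weight L (l := l i) ?_ ?_ (hl i hi hik)
    · intro z e
      change Y (z + emb e) * T i (z + emb e) = Y z * T i z
      rw [hY, (hT i hi).per]
    · intro z
      rw [hYw, hw i hi]
      ring
  obtain ⟨E1, hE1, hS1⟩ := H (T k) (hT k hk)
  obtain ⟨E2, hE2, hS2⟩ := H I hIg
  have hdec : SF L (fun z => Y z * G z) = SF L (fun z => Y z * T 0 z) + ph * SF L (fun z => Y z * T 1 z) +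
      ph ^ 2 * SF L (fun z => Y z * T 2 z) + 2 * SF L (fun z => Y z * I z) := by
    rw [← SF_smul, ← SF_smul, ← SF_smul, ← SF_add, ← SF_add, ← SF_add]
    congr 1
    funext z
    simp only [hI, hS]
    ring
  have hmain : SF L (fun z => Y z * G z) = ph ^ k * (2 * (Ms L R a (T k) + E1)) +
      2 * (2 * (Ms L R a I + E2)) := by
    rw [hdec, hS2]
    congr 1
    interval_cases k
    · rw [hzero 1 (by norm_num) (by norm_num), hzero 2 (by norm_num) (by norm_num), hS1]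
      ring
    · rw [hzero 0 (by norm_num) (by norm_num), hzero 2 (by norm_num) (by norm_num), hS1]
      ring
    · rw [hzero 0 (by norm_num) (by norm_num), hzero 1 (by norm_num) (by norm_num), hS1]
      ring
  have h4 : ph ^ k * ph ^ (3 - k) = -2 := by
    rw [← pow_add, show k + (3 - k) = 3 by omega, ph_cube]
  refine ⟨E1 - ph ^ (3 - k) * (Ms L R a I + E2), ?_, ?_⟩
  · refine Valuation.map_sub_lt _ (lt_of_le_of_lt hE1 hA) ?_
    rw [map_mul, map_pow]
    have h5 : A.valuation (Ms L R a I + E2) ≤ 1 :=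
      Valuation.map_add_le _ (Ms_int A hR ha hIg.int) (hE2.trans hA.le)
    have h6 : A.valuation ph ^ (3 - k) < 1 := pow_lt_one₀ zero_le hph (by omega)
    exact mul_lt_one_of_lt_of_le h6 h5
  · rw [hmain]
    linear_combination (2 * (Ms L R a I + E2)) * h4

/-- [S3.1] `I := (G - ∑ ϕ^i T_i)/2` is good; `SF (y G) = ∑ ϕ^i SF (y T_i) + 2 SF (y I)`, `SF (y T_i) = 0` for `i ≠ k` (`SF_weight`; `yw (w z) = yw z`), `SF_odd`,
`4 = - 2 ϕ^k ϕ^(3 - k)`. -/
theorem lead_odd {L : Lv} {R : Finset Eis} {a : Eis} (hR : IsR L R) (ha : IsA L a) (hq : L.q (-1) = -1) {G : ℂ → ℂ} (hG : Gd A G)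
    {T : ℕ → ℂ → ℂ} (hT : ∀ i < 3, Gd A (T i)) {l : ℕ → ℕ} (hw : ∀ i < 3, ∀ z, T i (w * z) = w ^ l i * T i z) {k : ℕ} (hk : k < 3)
    (hl : ∀ i < 3, i ≠ k → 1 - L.j + (l i : ZMod 3) ≠ 0)
    (hc : ∀ z, OT z → A.valuation (G z - (T 0 z + ph * T 1 z + ph ^ 2 * T 2 z)) ≤ A.valuation 2) (hA : A.valuation 2 < 1) :
    ∃ E, A.valuation E < 1 ∧ SF L (fun z => yw z * G z) = 2 * ph ^ k * (Ms L R a (T k) + E) := by
  exact s3a_lead A hA hR ha per_yw yw_w (fun g hg => SF_odd A hA hR ha hq hg.per hg.even hg.int)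
    hG hT hw hk hl hc

theorem lead_even {L : Lv} {R : Finset Eis} {a : Eis} (hR : IsR L R) (ha : IsA L a) (hq : L.q (-1) = 1) {G : ℂ → ℂ} (hG : Gd A G)
    {T : ℕ → ℂ → ℂ} (hT : ∀ i < 3, Gd A (T i)) {l : ℕ → ℕ} (hw : ∀ i < 3, ∀ z, T i (w * z) = w ^ l i * T i z) {k : ℕ} (hk : k < 3)
    (hl : ∀ i < 3, i ≠ k → 1 - L.j + (l i : ZMod 3) ≠ 0)
    (hc : ∀ z, OT z → A.valuation (G z - (T 0 z + ph * T 1 z + ph ^ 2 * T 2 z)) ≤ A.valuation 2) (hA : A.valuation 2 < 1) :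
    ∃ E, A.valuation E < 1 ∧ SF L G = 2 * ph ^ k * (Ms L R a (T k) + E) := by
  have h1 : ∀ g : ℂ → ℂ, (fun z : ℂ => (fun _ : ℂ => (1 : ℂ)) z * g z) = g := fun g => by
    funext z
    exact one_mul _
  have h := s3a_lead A hA hR ha (Y := fun _ => 1) (fun _ _ => rfl) (fun _ => rfl)
    (fun g hg => by
      rw [h1]
      exact SF_even A hR ha hq hg.per hg.even hg.int) hG hT hw hk hl hc
  rw [h1] at h
  exact h

end J2L
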