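import Pool.Agent.J2L.S2
import Pool.Agent.J2L.S3
import Pool.Agent.J2L.C3

/-!
# [J2L-V4] the leading term of the value `V` at a valuation ring above `2`

`V = 3 SF(W)` (`V_one`, `V_two`, `V_three`), `W = C y G` or `C G` with the closed forms of C2, C3, then `lead_odd`, `lead_even`.
Valuations: `A.valuation ph ^ 3 = A.valuation 2`, odd integers and `w`, `1 - w`, `1 + 2 w` are units (`(1 - w)(1 - w²) = 3`, `(1 + 2w)² = -3`).
-/

set_option autoImplicit false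

open scoped Classical

namespace J2L

open CM27

open CU (om)

open CUL (Nl ez)

open Q3V (OT)

/-- the statement on the leading term -/
def Lead (A : ValuationSubring ℂ) (L : Lv) (v : ℕ) (δ : Eis) (R : Finset Eis) (a : Eis) : Prop :=
  ∃ C E : ℂ, V L v δ = C * (Ms L R a (gM v δ) + E) ∧ A.valuation E < 1 ∧
    A.valuation C ^ 6 = A.valuation 2 ^ (6 * n2 v δ + (if n2 v δ = 0 then 6 else 0) + 4 - v)

theorem v4a_two_dvd (x : Eis) : (2 : Eis) ∣ x ↔ (2 : ℤ) ∣ x.re ∧ (2 : ℤ) ∣ x.im := by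
  have e1 : (2 : Eis).re = 2 := rfl
  have e2 : (2 : Eis).im = 0 := rfl
  constructor
  · rintro ⟨k, rfl⟩
    rw [QuadraticAlgebra.re_mul, QuadraticAlgebra.im_mul, e1, e2]
    constructor <;> omega
  · rintro ⟨⟨u, hu⟩, ⟨v, hv⟩⟩
    refine ⟨⟨u, v⟩, ?_⟩
    apply QuadraticAlgebra.ext
    · rw [QuadraticAlgebra.re_mul, e1, e2, hu]
      ring
    · rw [QuadraticAlgebra.im_mul, e1, e2, hv]
      ring

theorem v4a_om2 : (om : Eis) ^ 2 = ⟨-1, -1⟩ := by decide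

theorem v4a_cases (δ : Eis) : (2 : Eis) ∣ δ ∨ (2 : Eis) ∣ δ - 1 ∨ (2 : Eis) ∣ δ - om ∨ (2 : Eis) ∣ δ - om ^ 2 := by
  rw [v4a_om2, v4a_two_dvd, v4a_two_dvd, v4a_two_dvd, v4a_two_dvd]
  simp only [QuadraticAlgebra.re_sub, QuadraticAlgebra.im_sub]
  have e1 : (1 : Eis).re = 1 := rfl
  have e2 : (1 : Eis).im = 0 := rfl
  have e3 : (om : Eis).re = 0 := rfl
  have e4 : (om : Eis).im = 1 := rfl
  rw [e1, e2, e3, e4]
  omega

theorem v4a_cop (L : Lv) : IsCoprime (2 : Eis) L.f := by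
  have h1 : (om : Eis) ^ 3 = 1 := by decide
  have key : ∀ u : Eis, u ^ 3 = 1 → (2 : Eis) ∣ L.f - u → IsCoprime (2 : Eis) L.f := by
    rintro u hu ⟨k, hk⟩
    refine ⟨-(k * u ^ 2), u ^ 2, ?_⟩
    have e : L.f = u + 2 * k := by rw [← hk]; ring
    rw [e]
    have e2 : -(k * u ^ 2) * 2 + u ^ 2 * (u + 2 * k) = u ^ 3 := by ring
    rw [e2, hu]
  rcases v4a_cases L.f with h | h | h | h
  · exact absurd h L.hf2
  · exact key 1 (one_pow 3) h
  · exact key om h1 h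
  · exact key (om ^ 2) (by rw [← pow_mul, mul_comm, pow_mul, h1, one_pow]) h

theorem v4a_sT_even {δ : Eis} (h : (2 : Eis) ∣ δ ∨ (2 : Eis) ∣ δ - 1) : sT δ = 1 := by
  unfold sT
  rw [if_pos]
  rcases h with h | h
  · exact ((v4a_two_dvd _).1 h).2
  · have := ((v4a_two_dvd _).1 h).2
    rw [QuadraticAlgebra.im_sub] at this
    have e2 : (1 : Eis).im = 0 := rfl
    rwa [e2, sub_zero] at this

theorem v4a_sT_odd {δ : Eis} (h : (2 : Eis) ∣ δ - om ∨ (2 : Eis) ∣ δ - om ^ 2) : sT δ = -1 := by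
  unfold sT
  rw [if_neg]
  rcases h with h | h
  · have := ((v4a_two_dvd _).1 h).2
    rw [QuadraticAlgebra.im_sub] at this
    have e2 : (om : Eis).im = 1 := rfl
    rw [e2] at this
    omega
  · rw [v4a_om2] at h
    have := ((v4a_two_dvd _).1 h).2
    rw [QuadraticAlgebra.im_sub] at this
    dsimp only at this
    omega

theorem v4a_even_x (z : ℂ) : xw (-z) = xw z := xw_neg z

theorem v4a_y2_even (z : ℂ) : yw (-z) ^ 2 = yw z ^ 2 := by
  rw [yw_neg]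
  ring

theorem v4a_kval (A : ValuationSubring ℂ) (L : Lv) : A.valuation (L.k 2) = 1 := by
  obtain ⟨i, hi⟩ := L.k_cube 2 (v4a_cop L)
  rw [hi]
  show A.valuation (w ^ i.val) = 1
  rw [map_pow, Q3V.v_w, one_pow]

theorem v4a_qval (A : ValuationSubring ℂ) (L : Lv) : A.valuation ((L.q 2 : ℤ) : ℂ) = 1 := by
  rcases L.q_pm 2 (v4a_cop L) with h | h
  · rw [h, Int.cast_one, map_one]
  · rw [h, Int.cast_neg, Int.cast_one, Valuation.map_neg, map_one]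

/-- `y² - 1 = 4 x³` -/
theorem v4a_y2 {z : ℂ} (h : OT z) : yw z ^ 2 = 4 * xw z ^ 3 + 1 := weq z h.1

theorem v4a_y_ne {z : ℂ} (h : OT z) : yw z ≠ 0 := Q3V.off_y (ot_nl2 h)

theorem v4a_n0 {δ : Eis} (hδ : (2 : Eis) ∣ δ) : n2 4 δ = 0 := by
  unfold n2
  rw [if_neg (by norm_num), if_pos hδ, if_pos rfl]

theorem v4a_v_lt_mul (A : ValuationSubring ℂ) {a b : ℂ} (ha : A.valuation a < 1) (hb : A.valuation b ≤ 1) :
    A.valuation (a * b) < 1 := by
  rw [map_mul]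
  calc A.valuation a * A.valuation b ≤ A.valuation a * 1 := mul_le_mul' le_rfl hb
    _ = A.valuation a := mul_one _
    _ < 1 := ha

variable (A : ValuationSubring ℂ) (hA : A.valuation 2 < 1)

/-- [V4.0] parity: `q2 v δ (-1) = sT δ` -/
theorem par_pos {L : Lv} {v : ℕ} {δ : Eis} (hq : L.q (-1) * q2 v δ (-1) = -1) (h : (2 : Eis) ∣ δ ∨ (2 : Eis) ∣ δ - 1) : L.q (-1) = -1 := by
  rw [q2_neg, v4a_sT_even h, mul_one] at hq
  exact hq

theorem par_neg {L : Lv} {v : ℕ} {δ : Eis} (hq : L.q (-1) * q2 v δ (-1) = -1) (h : (2 : Eis) ∣ δ - om ∨ (2 : Eis) ∣ δ - om ^ 2) :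
    L.q (-1) = 1 := by
  rw [q2_neg, v4a_sT_odd h] at hq
  omega

theorem cases_two (δ : Eis) : (2 : Eis) ∣ δ ∨ (2 : Eis) ∣ δ - 1 ∨ (2 : Eis) ∣ δ - om ∨ (2 : Eis) ∣ δ - om ^ 2 := by
  exact v4a_cases δ

/-! auxiliary lemmas of the rows V4d, V4e, V4f, V4g -/

theorem v4d_sT {z z' : Eis} (h : (2 : Eis) ∣ z - z') : sT z = sT z' := by
  obtain ⟨t, ht⟩ := h
  have h1 : z.im - z'.im = 2 * t.im := by
    rw [two_mul] at ht
    have := congrArg QuadraticAlgebra.im ht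
    rw [two_mul]
    simpa using this
  unfold sT
  by_cases h2 : (2 : ℤ) ∣ z'.im
  · have h3 : (2 : ℤ) ∣ z.im := by omega
    rw [if_pos h2, if_pos h3]
  · have h3 : ¬ (2 : ℤ) ∣ z.im := by omega
    rw [if_neg h2, if_neg h3]

theorem v4d_sT_om {z z' : Eis} (h : (2 : Eis) ∣ z - z') : sT (om * z) = sT (om * z') := by
  refine v4d_sT ?_
  rw [← mul_sub]
  exact h.mul_left _

theorem v4d_v0 : sT 0 = 1 ∧ sT 1 = 1 ∧ sT om = -1 ∧ sT (om ^ 2) = -1 ∧ sT (om * 0) = 1 ∧ sT (om * 1) = -1 ∧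
    sT (om * om) = -1 ∧ sT (om * om ^ 2) = 1 := by
  refine ⟨?_, ?_, ?_, ?_, ?_, ?_, ?_, ?_⟩ <;> decide

theorem v4d_ph_ne : A.valuation ph ≠ 0 := (Valuation.ne_zero_iff _).2 ph_ne

theorem v4d_mk {L : Lv} {v : ℕ} {δ : Eis} {R : Finset Eis} {a : Eis} {c u M E : ℂ} (hV : V L v δ = c * (M + E))
    (hM : M = u * Ms L R a (gM v δ)) (hu : A.valuation u = 1) (hE : A.valuation E < 1)
    (hc : A.valuation c ^ 6 = A.valuation 2 ^ (6 * n2 v δ + (if n2 v δ = 0 then 6 else 0) + 4 - v)) : Lead A L v δ R a := by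
  have hu0 : u ≠ 0 := by
    rintro rfl
    rw [map_zero] at hu
    exact zero_ne_one hu
  refine ⟨c * u, E / u, ?_, ?_, ?_⟩
  · rw [hV, hM]
    field_simp
  · rw [map_div₀, hu, div_one]
    exact hE
  · rw [map_mul, hu, mul_one]
    exact hc

include hA in
theorem v4d_val {C : ℂ} {N k : ℕ} (hC : A.valuation C ^ 6 = A.valuation 2 ^ N) :
    A.valuation (3 * C * (2 * ph ^ k)) ^ 6 = A.valuation 2 ^ (N + 6 + 2 * k) := by
  have h3 := Q3V.v_three A hA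
  rw [map_mul, map_mul, map_mul, map_pow, h3, one_mul, mul_pow, mul_pow, hC, ← pow_mul, pow_add, pow_add, pow_mul,
    ← ph_val A, ← pow_mul, ← pow_mul, ← pow_mul]
  rw [mul_assoc]
  congr 2
  rw [← pow_mul]
  ring_nf

theorem v4d_n3 {v : ℕ} {δ : Eis} (hv : v = 1 ∨ v = 3 ∨ v = 5) : n2 v δ = 3 := by
  unfold n2
  rcases hv with rfl | rfl | rfl <;> simp

theorem v4d_n2 {v : ℕ} {δ : Eis} (hv : v = 0 ∨ v = 2 ∨ v = 4) (hδ : ¬ (2 : Eis) ∣ δ) : n2 v δ = 2 := by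
  unfold n2
  rcases hv with rfl | rfl | rfl <;> simp [hδ]

theorem v4d_nd {δ δ' : Eis} (h : (2 : Eis) ∣ δ - δ') (h' : ¬ (2 : Eis) ∣ δ') : ¬ (2 : Eis) ∣ δ := by
  intro h1
  refine h' ?_
  have := dvd_sub h1 h
  rwa [sub_sub_cancel] at this

theorem v4d_dvd {z : Eis} (h : (2 : Eis) ∣ z) : (2 : ℤ) ∣ z.re ∧ (2 : ℤ) ∣ z.im := by
  obtain ⟨t, rfl⟩ := h
  exact ⟨⟨t.re, by rw [two_mul, two_mul]; simp⟩, ⟨t.im, by rw [two_mul, two_mul]; simp⟩⟩

theorem v4d_nd1 : ¬ (2 : Eis) ∣ 1 := by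
  intro h
  have h1 := (v4d_dvd h).1
  revert h1
  decide

theorem v4d_ndom : ¬ (2 : Eis) ∣ om := by
  intro h
  have h1 := (v4d_dvd h).2
  revert h1
  decide

theorem v4d_ndom2 : ¬ (2 : Eis) ∣ om ^ 2 := by
  intro h
  have h1 := (v4d_dvd h).2
  revert h1
  decide

theorem v4d_ndom1 : ¬ (2 : Eis) ∣ om - 1 := by
  intro h
  have h1 := (v4d_dvd h).2
  revert h1
  decide

theorem v4d_ndom21 : ¬ (2 : Eis) ∣ om ^ 2 - 1 := by
  intro h
  have h1 := (v4d_dvd h).2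
  revert h1
  decide

theorem v4d_ndom2om : ¬ (2 : Eis) ∣ om ^ 2 - om := by
  intro h
  have h1 := (v4d_dvd h).1
  revert h1
  decide

/-- the weights -/
def v4d_l3 (i : ℕ) : ℕ := if i = 0 then 1 else if i = 1 then 0 else 2

def v4d_l2 (i : ℕ) : ℕ := if i = 0 then 0 else if i = 1 then 2 else 1

include hA in
theorem v4d_three {L : Lv} {v : ℕ} {δ : Eis} {R : Finset Eis} {a : Eis} (hv : v = 1 ∨ v = 3 ∨ v = 5)
    (hj : L.j = 1 - (v : ZMod 3)) {S C : ℂ} (hV : V L v δ = 3 * (C * S)) (hC : A.valuation C ^ 6 = A.valuation 2 ^ 11)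
    {T : ℕ → ℂ → ℂ} (hlead : ∀ k < 3, (∀ i < 3, i ≠ k → 1 - L.j + (v4d_l3 i : ZMod 3) ≠ 0) →
      ∃ E, A.valuation E < 1 ∧ S = 2 * ph ^ k * (Ms L R a (T k) + E))
    (hM : ∀ k, (v = 5 ∧ k = 0) ∨ (v = 3 ∧ k = 1) ∨ (v = 1 ∧ k = 2) → Ms L R a (T k) = Ms L R a (gM v δ)) :
    Lead A L v δ R a := by
  obtain ⟨k, hk, hvk, hl⟩ : ∃ k, k < 3 ∧ ((v = 5 ∧ k = 0) ∨ (v = 3 ∧ k = 1) ∨ (v = 1 ∧ k = 2)) ∧
      (∀ i < 3, i ≠ k → 1 - L.j + (v4d_l3 i : ZMod 3) ≠ 0) := by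
    rw [hj]
    rcases hv with rfl | rfl | rfl
    · exact ⟨2, by norm_num, by norm_num, by decide⟩
    · exact ⟨1, by norm_num, by norm_num, by decide⟩
    · exact ⟨0, by norm_num, by norm_num, by decide⟩
  obtain ⟨E, hE, hS⟩ := hlead k hk hl
  refine v4d_mk A (c := 3 * C * (2 * ph ^ k)) (u := 1) (M := Ms L R a (T k)) (E := E) ?_ ?_ (map_one _) hE ?_
  · rw [hV, hS]
    ring
  · rw [one_mul]
    exact hM k hvk
  · rw [v4d_val A hA hC, v4d_n3 hv]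
    rcases hvk with ⟨rfl, rfl⟩ | ⟨rfl, rfl⟩ | ⟨rfl, rfl⟩ <;> norm_num

include hA in
theorem v4d_two {L : Lv} {v : ℕ} {δ : Eis} {R : Finset Eis} {a : Eis} (hv : v = 2 ∨ v = 4) (hn : n2 v δ = 2)
    (hj : L.j = 1 - (v : ZMod 3)) {S C : ℂ} (hV : V L v δ = 3 * (C * S)) (hC : A.valuation C ^ 6 = A.valuation 2 ^ 4)
    {T : ℕ → ℂ → ℂ} (hlead : ∀ k < 3, (∀ i < 3, i ≠ k → 1 - L.j + (v4d_l2 i : ZMod 3) ≠ 0) →
      ∃ E, A.valuation E < 1 ∧ S = 2 * ph ^ k * (Ms L R a (T k) + E))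
    (hM : ∀ k, (v = 4 ∧ k = 1) ∨ (v = 2 ∧ k = 2) →
      ∃ u : ℂ, A.valuation u = 1 ∧ Ms L R a (T k) = u * Ms L R a (gM v δ)) :
    Lead A L v δ R a := by
  obtain ⟨k, hk, hvk, hl⟩ : ∃ k, k < 3 ∧ ((v = 4 ∧ k = 1) ∨ (v = 2 ∧ k = 2)) ∧
      (∀ i < 3, i ≠ k → 1 - L.j + (v4d_l2 i : ZMod 3) ≠ 0) := by
    rw [hj]
    rcases hv with rfl | rfl
    · exact ⟨2, by norm_num, by norm_num, by decide⟩
    · exact ⟨1, by norm_num, by norm_num, by decide⟩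
  obtain ⟨E, hE, hS⟩ := hlead k hk hl
  obtain ⟨u, hu, hMu⟩ := hM k hvk
  refine v4d_mk A (c := 3 * C * (2 * ph ^ k)) (u := u) (M := Ms L R a (T k)) (E := E) ?_ hMu hu hE ?_
  · rw [hV, hS]
    ring
  · rw [v4d_val A hA hC, hn]
    rcases hvk with ⟨rfl, rfl⟩ | ⟨rfl, rfl⟩ <;> norm_num

theorem v4d_emb2 (z : ℂ) (e : Eis) : 2 * (z + emb e) = 2 * z + emb (2 * e) := by
  rw [map_mul, mul_add]
  congr 1
  congr 1
  rw [map_ofNat]

include hA in
theorem v4d_x2 : Gd A (fun z => xw (2 * z)) := by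
  refine ⟨fun z e => ?_, fun z => ?_, fun z hz => x_int A hA hz.two⟩
  · show xw (2 * (z + emb e)) = xw (2 * z)
    rw [v4d_emb2]
    exact per_xw _ _
  · show xw (2 * -z) = xw (2 * z)
    rw [mul_neg, xw_neg]

include hA in
theorem v4d_D2 {T : ℂ} (hT : T ^ 3 = -2) : Gd A (fun z => D2 T (xw z)) := by
  refine ⟨fun z e => ?_, fun z => ?_, fun z hz => D2_int A hT (x_int A hA hz)⟩
  · show D2 T (xw (z + emb e)) = D2 T (xw z)
    rw [per_xw z e]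
  · show D2 T (xw (-z)) = D2 T (xw z)
    rw [xw_neg]

include hA in
theorem v4d_gd3 {N : ℂ → ℂ} (hN : Gd A N) : Gd A (fun z => N z / (yw z ^ 2 * D2 ph (xw (2 * z)))) := by
  refine ⟨fun z e => ?_, fun z => ?_, fun z hz => ?_⟩
  · show N (z + emb e) / (yw (z + emb e) ^ 2 * D2 ph (xw (2 * (z + emb e)))) = N z / (yw z ^ 2 * D2 ph (xw (2 * z)))
    rw [hN.per z e, per_yw z e, v4d_emb2, per_xw]
  · show N (-z) / (yw (-z) ^ 2 * D2 ph (xw (2 * -z))) = N z / (yw z ^ 2 * D2 ph (xw (2 * z)))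
    rw [hN.even, mul_neg, xw_neg, yw_neg, neg_sq]
  · show A.valuation (N z / (yw z ^ 2 * D2 ph (xw (2 * z)))) ≤ 1
    rw [map_div₀, map_mul, map_pow, y_val A hA hz, D2_val A hA ph_cube (x_int A hA hz.two), one_pow, one_mul, div_one]
    exact hN.int z hz

include hA in
theorem v4d_gd2 {N : ℂ → ℂ} (hN : Gd A N) : Gd A (fun z => N z / D2 ph (xw z)) := by
  refine ⟨fun z e => ?_, fun z => ?_, fun z hz => ?_⟩
  · show N (z + emb e) / D2 ph (xw (z + emb e)) = N z / D2 ph (xw z)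
    rw [hN.per z e, per_xw]
  · show N (-z) / D2 ph (xw (-z)) = N z / D2 ph (xw z)
    rw [hN.even, xw_neg]
  · show A.valuation (N z / D2 ph (xw z)) ≤ 1
    rw [map_div₀, D2_val A hA ph_cube (x_int A hA hz), div_one]
    exact hN.int z hz

include hA in
theorem v4d_pow (n : ℕ) : Gd A (fun z => xw z ^ n) := Gd.pow A (Gd.xw A hA) n

theorem v4d_wt : A.valuation w = 1 := w_val A

theorem v4d_wn {n : ℕ} {i : ℕ} (hn : n % 3 = i) (z : ℂ) : xw (w * z) ^ n = w ^ i * xw z ^ n := by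
  have h3 := CUL.w3
  have h1 : w ^ n = w ^ i := by
    conv_lhs => rw [← Nat.div_add_mod n 3, pow_add, pow_mul, h3, one_pow, one_mul, hn]
  rw [xw_w, mul_pow, h1]

include hA in
/-- the functions `T i` for `n = 3` -/
theorem v4d_T3 {c₁ : ℂ} (hc : A.valuation c₁ ≤ 1) {T₂ : ℂ → ℂ} (hT : Gd A T₂) (hTw : ∀ z, T₂ (w * z) = w ^ 2 * T₂ z) :
    (∀ i < 3, Gd A ((fun i z => if i = 0 then xw z ^ 4 else if i = 1 then xw z ^ 6 + xw z ^ 12 + c₁ else T₂ z :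
      ℕ → ℂ → ℂ) i)) ∧
    (∀ i < 3, ∀ z, (fun i z => if i = 0 then xw z ^ 4 else if i = 1 then xw z ^ 6 + xw z ^ 12 + c₁ else T₂ z :
      ℕ → ℂ → ℂ) i (w * z) = w ^ v4d_l3 i * (fun i z => if i = 0 then xw z ^ 4 else
        if i = 1 then xw z ^ 6 + xw z ^ 12 + c₁ else T₂ z : ℕ → ℂ → ℂ) i z) := by
  constructor
  · intro i hi
    interval_cases i
    · exact v4d_pow A hA 4
    · exact Gd.add A (Gd.add A (v4d_pow A hA 6) (v4d_pow A hA 12)) (Gd.const A hc)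
    · exact hT
  · intro i hi z
    interval_cases i
    · show xw (w * z) ^ 4 = w ^ 1 * xw z ^ 4
      exact v4d_wn (by norm_num) z
    · show xw (w * z) ^ 6 + xw (w * z) ^ 12 + c₁ = w ^ 0 * (xw z ^ 6 + xw z ^ 12 + c₁)
      rw [v4d_wn (i := 0) (by norm_num) z, v4d_wn (i := 0) (by norm_num) z]
      ring
    · exact hTw z

theorem v4d_sq1 {x : ℂ} (h : A.valuation (x ^ 2) = 1) : A.valuation x = 1 := by
  rw [map_pow] at h
  exact (pow_eq_one_iff_of_nonneg zero_le two_ne_zero).1 h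

include hA in
theorem v4d_units : A.valuation (1 + 2 * w) = 1 ∧ A.valuation (1 - w) = 1 ∧ A.valuation (1 - w ^ 2) = 1 := by
  have h3 := Q3V.v_three A hA
  have hw := w_val A
  have h2 := CUL.w2
  have hw3 := CUL.w3
  refine ⟨v4d_sq1 A ?_, v4d_sq1 A ?_, v4d_sq1 A ?_⟩
  · have e : (1 + 2 * w) ^ 2 = -3 := by linear_combination 4 * h2
    rw [e, Valuation.map_neg, h3]
  · have e : (1 - w) ^ 2 = -(3 * w) := by linear_combination h2
    rw [e, Valuation.map_neg, map_mul, h3, hw, one_mul]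
  · have e : (1 - w ^ 2) ^ 2 = -(3 * w ^ 2) := by linear_combination w * hw3 + h2
    rw [e, Valuation.map_neg, map_mul, map_pow, h3, hw, one_mul, one_pow]

theorem v4d_C3 {C m : ℂ} (h : C ^ 2 = 8 * m * ph ^ 2) (hm : A.valuation m = 1) :
    A.valuation C ^ 6 = A.valuation 2 ^ 11 := by
  have e8 : (8 : ℂ) = 2 ^ 3 := by norm_num
  have h1 : A.valuation C ^ 2 = A.valuation 2 ^ 3 * A.valuation ph ^ 2 := by
    rw [← map_pow, h, e8, map_mul, map_mul, hm, map_pow, map_pow, mul_one]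
  calc A.valuation C ^ 6 = (A.valuation C ^ 2) ^ 3 := by rw [← pow_mul]
    _ = A.valuation 2 ^ 9 * (A.valuation ph ^ 3) ^ 2 := by
        rw [h1, mul_pow, ← pow_mul, ← pow_mul, ← pow_mul]
    _ = A.valuation 2 ^ 11 := by rw [ph_val A, ← pow_add]

theorem v4d_C3w {C m : ℂ} (h : C ^ 2 * ph = 16 * m) (hm : A.valuation m = 1) :
    A.valuation C ^ 6 = A.valuation 2 ^ 11 := by
  have e16 : (16 : ℂ) = 2 ^ 4 := by norm_num
  have h1 : A.valuation C ^ 2 * A.valuation ph = A.valuation 2 ^ 4 := by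
    rw [← map_pow, ← map_mul, h, e16, map_mul, hm, map_pow, mul_one]
  have h2 : A.valuation C ^ 6 * A.valuation 2 = A.valuation 2 ^ 11 * A.valuation 2 := by
    calc A.valuation C ^ 6 * A.valuation 2 = (A.valuation C ^ 2 * A.valuation ph) ^ 3 := by
          rw [mul_pow, ← pow_mul, ph_val A]
      _ = A.valuation 2 ^ 12 := by rw [h1, ← pow_mul]
      _ = A.valuation 2 ^ 11 * A.valuation 2 := by rw [pow_succ]
  have h20 : A.valuation (2 : ℂ) ≠ 0 := (Valuation.ne_zero_iff _).2 two_ne_zero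
  exact mul_right_cancel₀ h20 h2

theorem v4d_C2 {C m : ℂ} (h : C ^ 2 = ph ^ 4 * m) (hm : A.valuation m = 1) :
    A.valuation C ^ 6 = A.valuation 2 ^ 4 := by
  calc A.valuation C ^ 6 = (A.valuation C ^ 2) ^ 3 := by rw [← pow_mul]
    _ = (A.valuation ph ^ 3) ^ 4 := by
        rw [← map_pow, h, map_mul, hm, mul_one, map_pow, ← pow_mul, ← pow_mul]
    _ = A.valuation 2 ^ 4 := by rw [ph_val A]

theorem v4d_q1 {v : ℕ} {δ : Eis} {s : ℤ} (h : sT δ = s) : (q2 v δ (-1) : ℂ) = s := by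
  rw [q2_neg, h]

theorem v4d_q3 {v : ℕ} {δ : Eis} {s : ℤ} (hv : v = 1 ∨ v = 3 ∨ v = 5) (h : sT (om * δ) = s) :
    (q2 v δ (1 + 2 * om) : ℂ) = -s := by
  rw [q2_r, h]
  rcases hv with rfl | rfl | rfl <;> norm_num

theorem v4d_q3e {v : ℕ} {δ : Eis} {s : ℤ} (hv : v = 0 ∨ v = 2 ∨ v = 4) (h : sT (om * δ) = s) :
    (q2 v δ (1 + 2 * om) : ℂ) = s := by
  rw [q2_r, h]
  rcases hv with rfl | rfl | rfl <;> norm_num

theorem v4d_t {t : ℂ} (ht3 : t ^ 3 = 1) : A.valuation t = 1 := by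
  have h1 : A.valuation t ^ 3 = 1 := by rw [← map_pow, ht3, map_one]
  exact (pow_eq_one_iff_of_nonneg zero_le three_ne_zero).1 h1

include hA in
/-- the functions `T i` for `n = 2` -/
theorem v4d_T2 {c₁ c₂ c₃ : ℂ} (h1 : A.valuation c₁ ≤ 1) (h2 : A.valuation c₂ ≤ 1) (h3 : A.valuation c₃ ≤ 1) :
    (∀ i < 3, Gd A ((fun i z => if i = 0 then 1 else if i = 1 then c₁ * xw z ^ 2 else c₂ * xw z + c₃ * xw z ^ 4 :
      ℕ → ℂ → ℂ) i)) ∧
    (∀ i < 3, ∀ z, (fun i z => if i = 0 then 1 else if i = 1 then c₁ * xw z ^ 2 else c₂ * xw z + c₃ * xw z ^ 4 :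
      ℕ → ℂ → ℂ) i (w * z) = w ^ v4d_l2 i * (fun i z => if i = 0 then 1 else
        if i = 1 then c₁ * xw z ^ 2 else c₂ * xw z + c₃ * xw z ^ 4 : ℕ → ℂ → ℂ) i z) := by
  constructor
  · intro i hi
    interval_cases i
    · exact Gd.const A (map_one _).le
    · exact Gd.mul A (Gd.const A h1) (v4d_pow A hA 2)
    · exact Gd.add A (Gd.mul A (Gd.const A h2) (Gd.xw A hA)) (Gd.mul A (Gd.const A h3) (v4d_pow A hA 4))
  · intro i hi z
    interval_cases i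
    · show (1 : ℂ) = w ^ 0 * 1
      norm_num
    · show c₁ * xw (w * z) ^ 2 = w ^ 2 * (c₁ * xw z ^ 2)
      rw [v4d_wn (i := 2) (by norm_num) z]
      ring
    · show c₂ * xw (w * z) + c₃ * xw (w * z) ^ 4 = w ^ 1 * (c₂ * xw z + c₃ * xw z ^ 4)
      rw [v4d_wn (n := 4) (i := 1) (by norm_num) z, xw_w]
      ring

include hA in
/-- the expansion of `D₂(t ϕ, x)/D₂(ϕ, x)` modulo `2` -/
theorem v4d_exp {X : ℂ} (hX : A.valuation X ≤ 1) {t : ℂ} (ht : t ^ 2 + t + 1 = 0) :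
    A.valuation (D2 (t * ph) X / D2 ph X - (1 + ph * (t ^ 2 * X ^ 2) + ph ^ 2 * (t * X + t ^ 2 * X ^ 4))) ≤ A.valuation 2 := by
  have ht3 : t ^ 3 = 1 := by linear_combination (t - 1) * ht
  have hvt := v4d_t A ht3
  have hT : (t * ph) ^ 3 = -2 := by rw [mul_pow, ht3, one_mul, ph_cube]
  have hp : A.valuation ph ≤ 1 := (ph_lt A hA).le
  have key : D2 (t * ph) X / D2 ph X - (1 + ph * (t ^ 2 * X ^ 2) + ph ^ 2 * (t * X + t ^ 2 * X ^ 4)) =
      D2 (t * ph) X * ((D2 ph X)⁻¹ - (1 + ph * X ^ 2 + ph ^ 2 * (X + X ^ 4))) +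
      2 * (-t ^ 2 * ph * X ^ 2 + ph ^ 2 * (X - t ^ 2 * X ^ 4) - t * (X ^ 3 + X ^ 6) + t ^ 2 * X ^ 3 +
        t ^ 2 * ph * (X ^ 2 + X ^ 5)) := by
    have e : D2 (t * ph) X = 1 + t * ph * X ^ 2 - (t * ph) ^ 2 * X := rfl
    rw [div_eq_mul_inv, mul_sub]
    rw [e]
    linear_combination (ph * X ^ 2 + ph ^ 2 * (X ^ 4 - X)) * ht +
      (t * (X ^ 3 + X ^ 6) - t ^ 2 * X ^ 3 - t ^ 2 * ph * (X ^ 2 + X ^ 5)) * ph_cube
  rw [key]
  refine Valuation.map_add_le _ ?_ ?_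
  · rw [map_mul]
    exact (mul_le_of_le_one_left' (D2_int A hT hX)).trans (D2_inv A hA ph_cube hX)
  · rw [map_mul]
    refine mul_le_of_le_one_right' ?_
    have m1 : X ∈ A := (A.valuation_le_one_iff _).1 hX
    have m2 : ph ∈ A := (A.valuation_le_one_iff _).1 hp
    have m3 : t ∈ A := (A.valuation_le_one_iff _).1 hvt.le
    refine (A.valuation_le_one_iff _).2 ?_
    refine add_mem (add_mem (sub_mem (add_mem (mul_mem (mul_mem (neg_mem (pow_mem m3 2)) m2) (pow_mem m1 2))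
      (mul_mem (pow_mem m2 2) (sub_mem m1 (mul_mem (pow_mem m3 2) (pow_mem m1 4)))))
      (mul_mem m3 (add_mem (pow_mem m1 3) (pow_mem m1 6)))) (mul_mem (pow_mem m3 2) (pow_mem m1 3)))
      (mul_mem (mul_mem (pow_mem m3 2) m2) (add_mem (pow_mem m1 2) (pow_mem m1 5)))

include hA in
/-- the case `v = 0`, `n = 2`, `t = w` or `t = w²` -/
theorem v4d_zero {L : Lv} {R : Finset Eis} {a : Eis} (hR : IsR L R) (ha : IsA L a) (hj : L.j = 1) (hq : L.q (-1) = 1)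
    {t : ℂ} (ht : t ^ 2 + t + 1 = 0) {g : ℂ → ℂ} (hg : ∀ z, g z = t ^ 2 * xw z ^ 6 + xw z ^ 3) :
    ∃ E, A.valuation E < 1 ∧ SF L (fun z => D2 (t * ph) (xw z) / D2 ph (xw z)) = 4 * (Ms L R a g + E) := by
  have ht3 : t ^ 3 = 1 := by linear_combination (t - 1) * ht
  have hvt := v4d_t A ht3
  have hN0 : ∀ z, OT z → 1 - 10 * xw z ^ 3 - 2 * xw z ^ 6 ≠ 0 := by
    intro z hz h0
    have h1 := N_val A hA (x_int A hA hz)
    rw [h0, map_zero] at h1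
    exact zero_ne_one h1
  have hN1 : ∀ z, 1 - 10 * xw (w * z) ^ 3 - 2 * xw (w * z) ^ 6 = 1 - 10 * xw z ^ 3 - 2 * xw z ^ 6 := by
    intro z
    rw [v4d_wn (i := 0) (by norm_num) z, v4d_wn (i := 0) (by norm_num) z, pow_zero, one_mul, one_mul]
  set P0 : ℂ → ℂ := fun z => (1 - 2 * t * xw z ^ 6 - 4 * t ^ 2 * xw z ^ 3) / (1 - 10 * xw z ^ 3 - 2 * xw z ^ 6) with hP0
  set P1 : ℂ → ℂ := fun z => ((t - 1) * ph * ((1 - 2 * t ^ 2) * xw z ^ 2 + 2 * t * xw z ^ 5)) /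
    (1 - 10 * xw z ^ 3 - 2 * xw z ^ 6) with hP1
  set P2 : ℂ → ℂ := fun z => ((1 - t) * ph ^ 2 * ((1 - 2 * t) * xw z ^ 4 - t ^ 2 * xw z)) /
    (1 - 10 * xw z ^ 3 - 2 * xw z ^ 6) with hP2
  set g0 : ℂ → ℂ := fun z => ((1 - t) * xw z ^ 6 + (5 - 2 * t ^ 2) * xw z ^ 3) / (1 - 10 * xw z ^ 3 - 2 * xw z ^ 6) with hg0
  have h1 : SF L (fun z => D2 (t * ph) (xw z) / D2 ph (xw z)) = SF L P0 + SF L P1 + SF L P2 := by
    rw [← SF_add, ← SF_add]
    refine SF_congr L fun z hz => ?_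
    show D2 (t * ph) (xw z) / D2 ph (xw z) = P0 z + P1 z + P2 z
    rw [D2_split_w (xw z) (hN0 z hz) ht, add_div, add_div]
  have hP1z : SF L P1 = 0 := by
    refine SF_weight L (l := 2) ?_ ?_ ?_
    · intro z e
      simp only [hP1]
      rw [per_xw z e]
    · intro z
      simp only [hP1]
      rw [hN1, v4d_wn (i := 2) (by norm_num) z, v4d_wn (i := 2) (by norm_num) z]
      ring
    · rw [hj]
      decide
  have hP2z : SF L P2 = 0 := by
    refine SF_weight L (l := 1) ?_ ?_ ?_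
    · intro z e
      simp only [hP2]
      rw [per_xw z e]
    · intro z
      simp only [hP2]
      rw [hN1, v4d_wn (n := 4) (i := 1) (by norm_num) z, xw_w]
      ring
    · rw [hj]
      decide
  have hP0z : SF L P0 = 2 * SF L g0 := by
    have h2 : SF L P0 = SF L (fun z => (1 : ℂ) + 2 * g0 z) := by
      refine SF_congr L fun z hz => ?_
      have hn := hN0 z hz
      simp only [hP0, hg0]
      rw [div_eq_iff hn, add_mul, mul_assoc 2 _ (1 - 10 * xw z ^ 3 - 2 * xw z ^ 6), div_mul_cancel₀ _ hn]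
      ring
    rw [h2, SF_add L (fun _ => (1 : ℂ)) (fun z => 2 * g0 z), SF_const, zero_add, SF_smul]
  have hint : ∀ z, OT z → A.valuation (g0 z) ≤ 1 := by
    intro z hz
    have hx := x_int A hA hz
    have m1 : xw z ∈ A := (A.valuation_le_one_iff _).1 hx
    have m3 : t ∈ A := (A.valuation_le_one_iff _).1 hvt.le
    have m2 : (2 : ℂ) ∈ A := (A.valuation_le_one_iff _).1 hA.le
    have m5 : (5 : ℂ) ∈ A := ofNat_mem A 5
    simp only [hg0]
    rw [map_div₀, N_val A hA hx, div_one]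
    refine (A.valuation_le_one_iff _).2 ?_
    exact add_mem (mul_mem (sub_mem (one_mem _) m3) (pow_mem m1 6)) (mul_mem (sub_mem m5 (mul_mem m2 (pow_mem m3 2))) (pow_mem m1 3))
  obtain ⟨E, hE, hS⟩ := SF_even A hR ha hq (g := g0) (fun z e => by
      simp only [hg0]
      rw [per_xw z e]) (fun z => by
      simp only [hg0]
      rw [xw_neg]) hint
  have hM : Ms L R a g0 = Ms L R a g + Ms L R a (fun z => g0 z - g z) := by
    rw [← Ms_add]
    congr 1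
    funext z
    ring
  have hd : A.valuation (Ms L R a (fun z => g0 z - g z)) ≤ A.valuation 2 := by
    refine Ms_int A hR ha fun z hz => ?_
    have hx := x_int A hA hz
    have hn := hN0 z hz
    have m1 : xw z ∈ A := (A.valuation_le_one_iff _).1 hx
    have m3 : t ∈ A := (A.valuation_le_one_iff _).1 hvt.le
    have m2 : (2 : ℂ) ∈ A := (A.valuation_le_one_iff _).1 hA.le
    have m5 : (5 : ℂ) ∈ A := ofNat_mem A 5
    have e : g0 z - g z = 2 * (xw z ^ 6 + (2 - t ^ 2) * xw z ^ 3 + (t ^ 2 * xw z ^ 6 + xw z ^ 3) * (5 * xw z ^ 3 + xw z ^ 6)) /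
        (1 - 10 * xw z ^ 3 - 2 * xw z ^ 6) := by
      rw [hg z]
      simp only [hg0]
      rw [div_sub' hn]
      congr 1
      linear_combination (-xw z ^ 6) * ht
    rw [e, map_div₀, N_val A hA hx, div_one, map_mul]
    refine mul_le_of_le_one_right' ?_
    refine (A.valuation_le_one_iff _).2 ?_
    exact add_mem (add_mem (pow_mem m1 6) (mul_mem (sub_mem m2 (pow_mem m3 2)) (pow_mem m1 3)))
      (mul_mem (add_mem (mul_mem (pow_mem m3 2) (pow_mem m1 6)) (pow_mem m1 3)) (add_mem (mul_mem m5 (pow_mem m1 3)) (pow_mem m1 6)))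
  refine ⟨Ms L R a (fun z => g0 z - g z) + E, lt_of_le_of_lt (Valuation.map_add_le _ hd hE) hA, ?_⟩
  rw [h1, hP1z, hP2z, hP0z, hS, hM]
  ring

include hA in
theorem v4d_lead0 {L : Lv} {δ : Eis} {R : Finset Eis} {a : Eis} (hn : n2 0 δ = 2) {S C E : ℂ} (hV : V L 0 δ = 3 * (C * S))
    (hC : A.valuation C ^ 6 = A.valuation 2 ^ 4) (hE : A.valuation E < 1) (hS : S = 4 * (Ms L R a (gM 0 δ) + E)) :
    Lead A L 0 δ R a := by
  refine v4d_mk A (c := 3 * C * 4) (u := 1) (M := Ms L R a (gM 0 δ)) (E := E) ?_ (one_mul _).symm (map_one _) hE ?_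
  · rw [hV, hS]
    ring
  · have h3 := Q3V.v_three A hA
    have e4 : (4 : ℂ) = 2 ^ 2 := by norm_num
    rw [e4, map_mul, map_mul, h3, one_mul, mul_pow, hC, map_pow, ← pow_mul, ← pow_add, hn]
    norm_num

/-- the comparison of the moments for `n = 3` -/
theorem v4d_M3 {L : Lv} {v : ℕ} {δ : Eis} {R : Finset Eis} {a : Eis} {c₁ : ℂ} {T₂ : ℂ → ℂ}
    (h1 : v = 1 → ∀ z, gM v δ z = T₂ z) (k : ℕ) (hk : (v = 5 ∧ k = 0) ∨ (v = 3 ∧ k = 1) ∨ (v = 1 ∧ k = 2)) :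
    Ms L R a ((fun i z => if i = 0 then xw z ^ 4 else if i = 1 then xw z ^ 6 + xw z ^ 12 + c₁ else T₂ z :
      ℕ → ℂ → ℂ) k) = Ms L R a (gM v δ) := by
  rcases hk with ⟨rfl, rfl⟩ | ⟨rfl, rfl⟩ | ⟨rfl, rfl⟩
  · congr 1
  · have e1 : ((fun i z => if i = 0 then xw z ^ 4 else if i = 1 then xw z ^ 6 + xw z ^ 12 + c₁ else T₂ z :
      ℕ → ℂ → ℂ) 1) = fun z => (xw z ^ 6 + xw z ^ 12) + c₁ := by
      funext z
      simp
    rw [e1, Ms_add (fun z => xw z ^ 6 + xw z ^ 12) (fun _ => c₁), Ms_const, add_zero]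
    congr 1
  · have e1 : ((fun i z => if i = 0 then xw z ^ 4 else if i = 1 then xw z ^ 6 + xw z ^ 12 + c₁ else T₂ z :
      ℕ → ℂ → ℂ) 2) = gM 1 δ := by
      funext z
      rw [h1 rfl z]
      simp
    rw [e1]

include hA in
/-- [V4.1] `n = 0`: `V_zero`; `q(2) = ± 1`, `k(2)` a cube root of unity (`2` is prime to `f`), `SF_odd` with `g = x²/y²`, `y² ≡ 1 mod 4`; `1 - 2 q(2) k(2)` is a unit. -/
theorem lead0 {L : Lv} {R : Finset Eis} {a : Eis} (hR : IsR L R) (ha : IsA L a) {δ : Eis} (hj : L.j = 1 - ((4 : ℕ) : ZMod 3))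
    (hq : L.q (-1) * q2 4 δ (-1) = -1) (hδ : (2 : Eis) ∣ δ) : Lead A L 4 δ R a := by
  have hqn := par_pos hq (Or.inl hδ)
  have hn := v4a_n0 hδ
  have hg : Per (fun z => xw z ^ 2 / yw z ^ 2) := by
    intro z e
    show xw (z + emb e) ^ 2 / yw (z + emb e) ^ 2 = xw z ^ 2 / yw z ^ 2
    rw [xw_add, yw_add]
  have he : ∀ z, (fun z => xw z ^ 2 / yw z ^ 2) (-z) = (fun z => xw z ^ 2 / yw z ^ 2) z := by
    intro z
    show xw (-z) ^ 2 / yw (-z) ^ 2 = xw z ^ 2 / yw z ^ 2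
    rw [xw_neg, v4a_y2_even]
  have hi : ∀ z, OT z → A.valuation ((fun z => xw z ^ 2 / yw z ^ 2) z) ≤ 1 := by
    intro z hz
    show A.valuation (xw z ^ 2 / yw z ^ 2) ≤ 1
    rw [map_div₀, map_pow, map_pow, y_val A hA hz, one_pow, div_one]
    exact pow_le_one₀ zero_le (x_int A hA hz)
  obtain ⟨E0, hE0, hSF⟩ := SF_odd A hA hR ha hqn hg he hi
  have hV := V_zero (L := L) hn
  have hV' : (1 - 2 * ((L.q 2 : ℂ) * L.k 2)) * V L 4 δ =
      3 * ((L.q 2 : ℂ) * L.k 2) * (2 * (Ms L R a (fun z => xw z ^ 2 / yw z ^ 2) + E0)) := by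
    rw [hV, ← hSF]
  have hM : Ms L R a (fun z => xw z ^ 2 / yw z ^ 2) = Ms L R a (gM 4 δ) +
      Ms L R a (fun z => -(4 * xw z ^ 5 / yw z ^ 2)) := by
    rw [← Ms_add]
    refine Ms_congr hR ha (fun z hz => ?_)
    have hy := v4a_y_ne hz
    have hy2 := v4a_y2 hz
    have h4 : gM 4 δ z = xw z ^ 2 := by
      unfold gM
      norm_num
    rw [h4]
    field_simp
    rw [hy2]
    ring
  have hD : A.valuation (Ms L R a (fun z => -(4 * xw z ^ 5 / yw z ^ 2))) < 1 := by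
    refine lt_of_le_of_lt (Ms_int A hR ha (t := A.valuation 2) (fun z hz => ?_)) hA
    rw [Valuation.map_neg, map_div₀, map_pow, y_val A hA hz, one_pow, div_one, map_mul, map_pow]
    have e4 : (4 : ℂ) = 2 * 2 := by norm_num
    rw [e4, map_mul]
    calc A.valuation 2 * A.valuation 2 * A.valuation (xw z) ^ 5 ≤ A.valuation 2 * 1 * 1 :=
          mul_le_mul' (mul_le_mul' le_rfl hA.le) (pow_le_one₀ zero_le (x_int A hA hz))
      _ = A.valuation 2 := by rw [mul_one, mul_one]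
  have hu : A.valuation (1 - 2 * ((L.q 2 : ℂ) * L.k 2)) = 1 := by
    have h1 : A.valuation (2 * ((L.q 2 : ℂ) * L.k 2)) < 1 := by
      refine v4a_v_lt_mul A hA ?_
      rw [map_mul, v4a_qval, v4a_kval, mul_one]
    have h2 : A.valuation (-(2 * ((L.q 2 : ℂ) * L.k 2))) < A.valuation 1 := by
      rw [Valuation.map_neg, map_one]
      exact h1
    rw [sub_eq_add_neg, Valuation.map_add_eq_of_lt_left A.valuation h2, map_one]
  have hu0 : (1 - 2 * ((L.q 2 : ℂ) * L.k 2)) ≠ 0 := by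
    intro h
    rw [h, map_zero] at hu
    exact zero_ne_one hu
  refine ⟨6 * ((L.q 2 : ℂ) * L.k 2) / (1 - 2 * ((L.q 2 : ℂ) * L.k 2)),
    Ms L R a (fun z => -(4 * xw z ^ 5 / yw z ^ 2)) + E0, ?_, ?_, ?_⟩
  · rw [eq_comm, div_mul_eq_mul_div, div_eq_iff hu0]
    rw [hM] at hV'
    linear_combination -hV'
  · exact lt_of_le_of_lt (Valuation.map_add A.valuation _ _) (max_lt hD (lt_of_le_of_lt hE0 hA))
  · rw [hn, if_pos rfl, map_div₀, hu, div_one]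
    have e6 : (6 : ℂ) * ((L.q 2 : ℂ) * L.k 2) = 2 * (3 * ((L.q 2 : ℂ) * L.k 2)) := by ring
    rw [e6, map_mul, map_mul, map_mul, Q3V.v_three A hA, v4a_qval, v4a_kval, one_mul, mul_one, mul_one]

/-- valuation of `6 ϕ^k C`, `v(C)^6 = v(2)^m` -/
theorem v4b_val {A : ValuationSubring ℂ} (hA : A.valuation 2 < 1) {C : ℂ} {m : ℕ} (hC : A.valuation C ^ 6 = A.valuation 2 ^ m)
    (k : ℕ) : A.valuation (6 * (ph ^ k * C)) ^ 6 = A.valuation 2 ^ (6 + 2 * k + m) := by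
  have e6 : (6 : ℂ) * (ph ^ k * C) = 2 * (3 * (ph ^ k * C)) := by ring
  rw [e6, map_mul, map_mul, map_mul, Q3V.v_three A hA, one_mul, mul_pow, mul_pow, hC, map_pow]
  have e7 : (A.valuation ph ^ k) ^ 6 = A.valuation 2 ^ (2 * k) := by
    rw [← ph_val, ← pow_mul, ← pow_mul]
    congr 1
    ring
  rw [e7, ← pow_add, ← pow_add]
  congr 1
  ring

theorem v4b_one (A : ValuationSubring ℂ) : A.valuation (1 : ℂ) ^ 6 = A.valuation 2 ^ 0 := by
  rw [map_one, one_pow, pow_zero]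

/-- congruence of moments -/
theorem v4b_Ms (A : ValuationSubring ℂ) {L : Lv} {R : Finset Eis} {a : Eis} (hR : IsR L R) (ha : IsA L a) {g g' : ℂ → ℂ}
    (h : ∀ z, OT z → A.valuation (g z - g' z) ≤ A.valuation 2) :
    ∃ E, A.valuation E ≤ A.valuation 2 ∧ Ms L R a g = Ms L R a g' + E := by
  refine ⟨Ms L R a (fun z => g z - g' z), Ms_int A hR ha h, ?_⟩
  rw [← Ms_add]
  exact Ms_congr hR ha (fun z _ => by ring)

theorem v4b_n1 {v : ℕ} {δ : Eis} (hv : v = 0 ∨ v = 2) (hδ : (2 : Eis) ∣ δ) : n2 v δ = 1 := by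
  unfold n2
  rcases hv with rfl | rfl
  · rw [if_neg (by norm_num), if_pos hδ, if_neg (by norm_num)]
  · rw [if_neg (by norm_num), if_pos hδ, if_neg (by norm_num)]

theorem v4b_w1 (L : Lv) {v l : ℕ} (hj : L.j = 1 - (v : ZMod 3)) (h : ((v + l : ℕ) : ZMod 3) ≠ 0) : 1 - L.j + (l : ZMod 3) ≠ 0 := by
  intro h1
  apply h
  rw [hj] at h1
  push_cast
  linear_combination h1

/-- `n = 1`: the reduction -/
theorem v4b_V {L : Lv} {v : ℕ} {δ : Eis} (hn : n2 v δ = 1) :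
    V L v δ = 3 * (SF L (fun z => ez z + 2 * xw z ^ 2 / yw z) + 2 * e2 * SF L (fun z => xw z / yw z) +
      2 * e2 ^ 2 * SF L (fun z => (yw z)⁻¹)) := by
  rw [V_one hn]
  congr 1
  rw [← SF_smul, ← SF_smul, ← SF_add, ← SF_add]
  exact SF_congr L (fun z hz => ez_half (ot_nl2 hz))

theorem v4b_per1 : Per (fun z => ez z + 2 * xw z ^ 2 / yw z) := by
  intro z e
  show ez (z + emb e) + 2 * xw (z + emb e) ^ 2 / yw (z + emb e) = ez z + 2 * xw z ^ 2 / yw z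
  rw [xw_add, yw_add, CUL.ez_add_emb]

theorem v4b_per2 : Per (fun z => xw z / yw z) := by
  intro z e
  show xw (z + emb e) / yw (z + emb e) = xw z / yw z
  rw [xw_add, yw_add]

theorem v4b_per3 : Per (fun z => (yw z)⁻¹) := by
  intro z e
  show (yw (z + emb e))⁻¹ = (yw z)⁻¹
  rw [yw_add]

theorem v4b_wt1 (z : ℂ) : (fun z => ez z + 2 * xw z ^ 2 / yw z) (w * z) = w ^ 2 * (fun z => ez z + 2 * xw z ^ 2 / yw z) z := by
  show ez (w * z) + 2 * xw (w * z) ^ 2 / yw (w * z) = w ^ 2 * (ez z + 2 * xw z ^ 2 / yw z)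
  rw [CUL.ez_w, xw_w, yw_w]
  ring

theorem v4b_wt2 (z : ℂ) : (fun z => xw z / yw z) (w * z) = w ^ 1 * (fun z => xw z / yw z) z := by
  show xw (w * z) / yw (w * z) = w ^ 1 * (xw z / yw z)
  rw [xw_w, yw_w]
  ring

theorem v4b_wt3 (z : ℂ) : (fun z => (yw z)⁻¹) (w * z) = w ^ 0 * (fun z => (yw z)⁻¹) z := by
  show (yw (w * z))⁻¹ = w ^ 0 * (yw z)⁻¹
  rw [yw_w, pow_zero, one_mul]

include hA in
/-- [V4.2] `n = 1`: `W = (ez z + 2 x²/y) + 2 e x/y + 2 e²/y` (`ez_half`), weights `2, 1, 0`. `v = 0` (`j = 1`): `V = 6 e² SF(1/y)`, `SF_yinv`;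
`v = 2` (`j = 2`): `V = 6 e SF(y (x/y²))`, `SF_odd`. -/
theorem lead1 {L : Lv} {R : Finset Eis} {a : Eis} (hR : IsR L R) (ha : IsA L a) {v : ℕ} {δ : Eis} (hv : v = 0 ∨ v = 2)
    (hj : L.j = 1 - (v : ZMod 3)) (hq : L.q (-1) * q2 v δ (-1) = -1) (hδ : (2 : Eis) ∣ δ) : Lead A L v δ R a := by
  have hqn := par_pos hq (Or.inl hδ)
  have hn := v4b_n1 hv hδ
  have hV := v4b_V (L := L) hn
  rcases hv with rfl | rfl
  · have h1 : SF L (fun z => ez z + 2 * xw z ^ 2 / yw z) = 0 :=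
      SF_weight L v4b_per1 v4b_wt1 (v4b_w1 L hj (by decide))
    have h2 : SF L (fun z => xw z / yw z) = 0 := SF_weight L v4b_per2 v4b_wt2 (v4b_w1 L hj (by decide))
    obtain ⟨E, hE, h3⟩ := SF_yinv A hA hR ha hqn
    rw [h1, h2, h3] at hV
    have hg : gM 0 δ = yh := by
      funext z
      unfold gM
      rw [if_pos rfl, if_pos hδ]
    refine ⟨6 * (ph ^ 2 * 1), E, ?_, lt_of_le_of_lt hE hA, ?_⟩
    · rw [hV, hg]
      unfold ph
      ring
    · rw [v4b_val hA (v4b_one A), hn, if_neg one_ne_zero]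
  · have h1 : SF L (fun z => ez z + 2 * xw z ^ 2 / yw z) = 0 :=
      SF_weight L v4b_per1 v4b_wt1 (v4b_w1 L hj (by decide))
    have h3 : SF L (fun z => (yw z)⁻¹) = 0 := SF_weight L v4b_per3 v4b_wt3 (v4b_w1 L hj (by decide))
    have h2 : SF L (fun z => xw z / yw z) = SF L (fun z => yw z * (fun z => xw z / yw z ^ 2) z) :=
      SF_congr L (fun z hz => by
        have hy := v4a_y_ne hz
        show xw z / yw z = yw z * (xw z / yw z ^ 2)
        field_simp)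
    obtain ⟨E0, hE0, h4⟩ := SF_odd A hA hR ha hqn (g := fun z => xw z / yw z ^ 2)
      (by
        intro z e
        show xw (z + emb e) / yw (z + emb e) ^ 2 = xw z / yw z ^ 2
        rw [xw_add, yw_add])
      (by
        intro z
        show xw (-z) / yw (-z) ^ 2 = xw z / yw z ^ 2
        rw [xw_neg, v4a_y2_even])
      (by
        intro z hz
        show A.valuation (xw z / yw z ^ 2) ≤ 1
        rw [map_div₀, map_pow, y_val A hA hz, one_pow, div_one]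
        exact x_int A hA hz)
    obtain ⟨E1, hE1, h5⟩ := v4b_Ms A hR ha (g := fun z => xw z / yw z ^ 2) (g' := gM 2 δ) (by
      intro z hz
      have hy := v4a_y_ne hz
      have hy2 := v4a_y2 hz
      have hg : gM 2 δ z = xw z := by
        unfold gM
        rw [if_neg (by norm_num), if_neg (by norm_num), if_pos rfl, if_pos hδ]
      rw [hg]
      have e1 : xw z / yw z ^ 2 - xw z = -(2 * (2 * xw z ^ 4 / yw z ^ 2)) := by
        field_simp
        rw [hy2]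
        ring
      rw [e1, Valuation.map_neg, map_mul, map_div₀, map_pow A.valuation (yw z), y_val A hA hz, one_pow, div_one, map_mul, map_pow]
      calc A.valuation 2 * (A.valuation 2 * A.valuation (xw z) ^ 4) ≤ A.valuation 2 * (1 * 1) :=
            mul_le_mul' le_rfl (mul_le_mul' hA.le (pow_le_one₀ zero_le (x_int A hA hz)))
        _ = A.valuation 2 := by rw [mul_one, mul_one])
    rw [h1, h2, h3, h4, h5] at hV
    refine ⟨6 * (ph ^ 1 * 1), E1 + E0, ?_, ?_, ?_⟩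
    · rw [hV]
      unfold ph
      ring
    · exact lt_of_le_of_lt (Valuation.map_add A.valuation _ _) (max_lt (lt_of_le_of_lt hE1 hA) (lt_of_le_of_lt hE0 hA))
    · rw [v4b_val hA (v4b_one A), hn, if_neg one_ne_zero]

theorem v4c_not_two {δ : Eis} (hδ : (2 : Eis) ∣ δ - 1) : ¬ (2 : Eis) ∣ δ := by
  intro h
  rw [v4a_two_dvd] at h hδ
  rw [QuadraticAlgebra.re_sub] at hδ
  have e1 : (1 : Eis).re = 1 := rfl
  rw [e1] at hδ
  omega

theorem v4c_q2r {v : ℕ} {δ : Eis} (hv : Even v) (hδ : (2 : Eis) ∣ δ - 1) : q2 v δ (1 + 2 * om) = -1 := by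
  rw [q2_r, hv.neg_one_pow, one_mul]
  apply v4a_sT_odd
  left
  have e : om * δ - om = om * (δ - 1) := by ring
  rw [e]
  exact hδ.mul_left _

theorem v4c_V {A : ValuationSubring ℂ} (hA : A.valuation 2 < 1) (L : Lv) {v : ℕ} {δ : Eis} (hv : Even v) (hn : n2 v δ = 2)
    (hδ : (2 : Eis) ∣ δ - 1) : ∃ C : ℂ, A.valuation C ^ 6 = A.valuation 2 ^ 4 ∧
      V L v δ = 3 * (C * SF L (fun z => yw z * (D2 ph (xw z))⁻¹)) := by
  obtain ⟨C, hC, hW⟩ := W2_one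
  refine ⟨C, ?_, ?_⟩
  · have h1 : A.valuation C ^ 2 = A.valuation ph ^ 4 := by
      rw [← map_pow, hC, map_mul, map_pow, Q3V.v_three A hA, one_mul]
    have e1 : A.valuation C ^ 6 = (A.valuation C ^ 2) ^ 3 := by rw [← pow_mul]
    rw [e1, h1, ← ph_val, ← pow_mul, ← pow_mul]
  · rw [V_two hn]
    congr 1
    rw [← SF_smul]
    refine SF_congr L (fun z hz => ?_)
    rw [← hW z (ot_nl4 hz), v4c_q2r hv hδ, q2_neg, v4a_sT_even (Or.inr hδ)]
    push_cast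
    ring

theorem v4c_gd {A : ValuationSubring ℂ} (hA : A.valuation 2 < 1) {T : ℂ} (hT : T ^ 3 = -2) : Gd A (fun z => (D2 T (xw z))⁻¹) := by
  refine ⟨?_, ?_, ?_⟩
  · intro z e
    show (D2 T (xw (z + emb e)))⁻¹ = (D2 T (xw z))⁻¹
    rw [xw_add]
  · intro z
    show (D2 T (xw (-z)))⁻¹ = (D2 T (xw z))⁻¹
    rw [xw_neg]
  · intro z hz
    show A.valuation (D2 T (xw z))⁻¹ ≤ 1
    rw [map_inv₀, D2_val A hA hT (x_int A hA hz), inv_one]

/-- the three weights -/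
def v4c_l (i : ℕ) : ℕ := if i = 0 then 0 else if i = 1 then 2 else 1

noncomputable def v4c_T (i : ℕ) (z : ℂ) : ℂ := if i = 0 then 1 else if i = 1 then xw z ^ 2 else xw z + xw z ^ 4

theorem v4c_Tgd {A : ValuationSubring ℂ} (hA : A.valuation 2 < 1) : ∀ i < 3, Gd A (v4c_T i) := by
  intro i hi
  interval_cases i
  · have h : v4c_T 0 = fun _ => 1 := by funext z; rfl
    rw [h]
    exact Gd.const A (by rw [map_one])
  · have h : v4c_T 1 = fun z => xw z ^ 2 := by funext z; rfl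
    rw [h]
    exact Gd.pow A (Gd.xw A hA) 2
  · have h : v4c_T 2 = fun z => xw z + (fun z => xw z ^ 4) z := by funext z; rfl
    rw [h]
    exact Gd.add A (Gd.xw A hA) (Gd.pow A (Gd.xw A hA) 4)

theorem v4c_Tw : ∀ i < 3, ∀ z, v4c_T i (w * z) = w ^ v4c_l i * v4c_T i z := by
  intro i hi z
  interval_cases i
  · show (1 : ℂ) = w ^ 0 * 1
    rw [pow_zero, one_mul]
  · show xw (w * z) ^ 2 = w ^ 2 * xw z ^ 2
    rw [xw_w]
    ring
  · show xw (w * z) + xw (w * z) ^ 4 = w ^ 1 * (xw z + xw z ^ 4)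
    rw [xw_w]
    have h3 := CUL.w3
    linear_combination (w * xw z ^ 4) * h3

include hA in
/-- [V4.3] `n = 2`, `δ = 1`, `v = 2, 4`: `W = C y/D₂(x)` (`W2_one`; `q2 (-1) = 1`, `q2 (1 + 2 ω) = -1`), `D2_inv`: `1/D₂ ≡ 1 + ϕ x² + ϕ² (x + x⁴)`, weights `0, 2, 1`;
`v = 4`: `k = 1`, `v = 2`: `k = 2`. -/
theorem lead2_one {L : Lv} {R : Finset Eis} {a : Eis} (hR : IsR L R) (ha : IsA L a) {v : ℕ} {δ : Eis} (hv : v = 2 ∨ v = 4)
    (hj : L.j = 1 - (v : ZMod 3)) (hq : L.q (-1) * q2 v δ (-1) = -1) (hδ : (2 : Eis) ∣ δ - 1) : Lead A L v δ R a := by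
  have hqn := par_pos hq (Or.inr hδ)
  have h2 := v4c_not_two hδ
  have hn : n2 v δ = 2 := by
    unfold n2
    rcases hv with rfl | rfl
    · rw [if_neg (by norm_num), if_neg h2]
    · rw [if_neg (by norm_num), if_neg h2]
  have hev : Even v := by
    rcases hv with rfl | rfl
    · decide
    · decide
  obtain ⟨C, hC, hV⟩ := v4c_V hA L hev hn hδ
  have hc : ∀ z, OT z → A.valuation ((fun z => (D2 ph (xw z))⁻¹) z - (v4c_T 0 z + ph * v4c_T 1 z + ph ^ 2 * v4c_T 2 z)) ≤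
      A.valuation 2 := fun z hz => D2_inv A hA ph_cube (x_int A hA hz)
  have key : ∀ k < 3, (∀ i < 3, i ≠ k → 1 - L.j + (v4c_l i : ZMod 3) ≠ 0) → gM v δ = v4c_T k → 6 + 2 * k + 4 = 16 - v →
      Lead A L v δ R a := by
    intro k hk hl hg hkv
    obtain ⟨E, hE, hS⟩ := lead_odd A hR ha hqn (v4c_gd hA ph_cube) (v4c_Tgd hA) v4c_Tw hk hl hc hA
    refine ⟨6 * (ph ^ k * C), E, ?_, hE, ?_⟩
    · rw [hV, hS, hg]
      ring
    · rw [v4b_val hA hC, hn, if_neg two_ne_zero]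
      congr 1
  rcases hv with rfl | rfl
  · refine key 2 (by norm_num) ?_ ?_ (by norm_num)
    · intro i hi hi2
      refine v4b_w1 L hj ?_
      interval_cases i
      · decide
      · decide
      · exact absurd rfl hi2
    · funext z
      unfold gM v4c_T
      rw [if_neg (by norm_num), if_neg (by norm_num), if_pos rfl, if_neg h2, if_pos hδ, if_neg (by norm_num), if_neg (by norm_num)]
  · refine key 1 (by norm_num) ?_ ?_ (by norm_num)
    · intro i hi hi2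
      refine v4b_w1 L hj ?_
      interval_cases i
      · decide
      · exact absurd rfl hi2
      · decide
    · funext z
      unfold gM v4c_T
      rw [if_neg (by norm_num), if_neg (by norm_num), if_neg (by norm_num), if_neg (by norm_num), if_pos rfl,
        if_neg (by norm_num), if_pos rfl]

include hA in
/-- [V4.4] `n = 2`, `δ = 1`, `v = 0` (`j = 1`): `D2_split`: `SF(y/D₂) = SF(y (1 - 2x³)/N)` (the other parts have weights `2`, `1`), `(1 - 2x³)/N = 1 + 2 x⁶ + 4 I`, `I` integral: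
`SF_y`, `SF_odd`. -/
theorem lead2_one0 {L : Lv} {R : Finset Eis} {a : Eis} (hR : IsR L R) (ha : IsA L a) {δ : Eis}
    (hj : L.j = 1 - ((0 : ℕ) : ZMod 3)) (hq : L.q (-1) * q2 0 δ (-1) = -1) (hδ : (2 : Eis) ∣ δ - 1) : Lead A L 0 δ R a := by
  have hqn := par_pos hq (Or.inr hδ)
  have h2 := v4c_not_two hδ
  have hn : n2 0 δ = 2 := by
    unfold n2
    rw [if_neg (by norm_num), if_neg h2]
  obtain ⟨C, hC, hV⟩ := v4c_V hA L (v := 0) (by decide) hn hδ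
  have h3 := CUL.w3
  have hNw : ∀ X : ℂ, 1 - 10 * (w * X) ^ 3 - 2 * (w * X) ^ 6 = 1 - 10 * X ^ 3 - 2 * X ^ 6 := by
    intro X
    linear_combination (-10 * X ^ 3 - 2 * X ^ 6 * (w ^ 3 + 1)) * h3
  have hN0 : ∀ z, OT z → 1 - 10 * xw z ^ 3 - 2 * xw z ^ 6 ≠ 0 := by
    intro z hz h
    have := N_val A hA (x_int A hA hz)
    rw [h, map_zero] at this
    exact zero_ne_one this
  have hs : SF L (fun z => yw z * (D2 ph (xw z))⁻¹) =
      SF L (fun z => yw z) + 2 * SF L (fun z => yw z * (fun z => xw z ^ 6) z) +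
      4 * SF L (fun z => yw z * (fun z => (2 * xw z ^ 3 + 5 * xw z ^ 9 + xw z ^ 12) / (1 - 10 * xw z ^ 3 - 2 * xw z ^ 6)) z) +
      ph * SF L (fun z => yw z * (-3 * xw z ^ 2) / (1 - 10 * xw z ^ 3 - 2 * xw z ^ 6)) +
      ph ^ 2 * SF L (fun z => yw z * (xw z ^ 4 + xw z) / (1 - 10 * xw z ^ 3 - 2 * xw z ^ 6)) := by
    rw [← SF_smul, ← SF_smul, ← SF_smul, ← SF_smul, ← SF_add, ← SF_add, ← SF_add, ← SF_add]
    refine SF_congr L (fun z hz => ?_)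
    have hN := hN0 z hz
    show yw z * (D2 ph (xw z))⁻¹ = yw z + 2 * (yw z * xw z ^ 6) +
      4 * (yw z * ((2 * xw z ^ 3 + 5 * xw z ^ 9 + xw z ^ 12) / (1 - 10 * xw z ^ 3 - 2 * xw z ^ 6))) +
      ph * (yw z * (-3 * xw z ^ 2) / (1 - 10 * xw z ^ 3 - 2 * xw z ^ 6)) +
      ph ^ 2 * (yw z * (xw z ^ 4 + xw z) / (1 - 10 * xw z ^ 3 - 2 * xw z ^ 6))
    rw [D2_split _ hN]
    obtain ⟨N, hNd⟩ : ∃ N, N = 1 - 10 * xw z ^ 3 - 2 * xw z ^ 6 := ⟨_, rfl⟩
    rw [← hNd] at hN ⊢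
    field_simp
    rw [hNd]
    ring
  have hper : ∀ g : ℂ → ℂ, Per (fun z => yw z * g (xw z) / (1 - 10 * xw z ^ 3 - 2 * xw z ^ 6)) := by
    intro g z e
    show yw (z + emb e) * g (xw (z + emb e)) / (1 - 10 * xw (z + emb e) ^ 3 - 2 * xw (z + emb e) ^ 6) =
      yw z * g (xw z) / (1 - 10 * xw z ^ 3 - 2 * xw z ^ 6)
    rw [xw_add, yw_add]
  have hz1 : SF L (fun z => yw z * (-3 * xw z ^ 2) / (1 - 10 * xw z ^ 3 - 2 * xw z ^ 6)) = 0 := by
    refine SF_weight L (hper (fun X => -3 * X ^ 2)) (l := 2) ?_ (v4b_w1 L hj (by decide))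
    intro z
    rw [xw_w, yw_w, hNw]
    ring
  have hz2 : SF L (fun z => yw z * (xw z ^ 4 + xw z) / (1 - 10 * xw z ^ 3 - 2 * xw z ^ 6)) = 0 := by
    refine SF_weight L (hper (fun X => X ^ 4 + X)) (l := 1) ?_ (v4b_w1 L hj (by decide))
    intro z
    rw [xw_w, yw_w, hNw]
    have e : (w * xw z) ^ 4 + w * xw z = w ^ 1 * (xw z ^ 4 + xw z) := by
      linear_combination (w * xw z ^ 4) * h3
    rw [e]
    ring
  obtain ⟨E1, hE1, hS1⟩ := SF_y A hA hR ha hqn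
  have hx6 : Gd A (fun z => xw z ^ 6) := Gd.pow A (Gd.xw A hA) 6
  obtain ⟨E2, hE2, hS2⟩ := SF_odd A hA hR ha hqn hx6.per hx6.even hx6.int
  have hI : Gd A (fun z => (2 * xw z ^ 3 + 5 * xw z ^ 9 + xw z ^ 12) / (1 - 10 * xw z ^ 3 - 2 * xw z ^ 6)) := by
    refine ⟨?_, ?_, ?_⟩
    · intro z e
      simp only [xw_add]
    · intro z
      simp only [xw_neg]
    · intro z hz
      show A.valuation ((2 * xw z ^ 3 + 5 * xw z ^ 9 + xw z ^ 12) / (1 - 10 * xw z ^ 3 - 2 * xw z ^ 6)) ≤ 1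
      rw [map_div₀, N_val A hA (x_int A hA hz), div_one, ValuationSubring.valuation_le_one_iff]
      have hx : xw z ∈ A := (ValuationSubring.valuation_le_one_iff A _).1 (x_int A hA hz)
      have h2m : (2 : ℂ) ∈ A := (ValuationSubring.valuation_le_one_iff A _).1 hA.le
      have h5m : (5 : ℂ) ∈ A := by
        have := natCast_mem A 5
        exact_mod_cast this
      exact add_mem (add_mem (mul_mem h2m (pow_mem hx 3)) (mul_mem h5m (pow_mem hx 9))) (pow_mem hx 12)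
  obtain ⟨E3, hE3, hS3⟩ := SF_odd A hA hR ha hqn hI.per hI.even hI.int
  have hMI := Ms_int A hR ha (t := 1) hI.int
  have hy1 : SF L (fun z => yw z) = SF L yw := rfl
  rw [hs, hy1, hz1, hz2, hS1, hS2, hS3] at hV
  have hg : Ms L R a (gM 0 δ) = Ms L R a yh + Ms L R a (fun z => xw z ^ 6) := by
    rw [← Ms_add]
    refine Ms_congr hR ha (fun z _ => ?_)
    unfold gM
    rw [if_pos rfl, if_neg h2, if_pos hδ]
  refine ⟨6 * (ph ^ 0 * (2 * C)), E1 + E2 +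
    2 * (Ms L R a (fun z => (2 * xw z ^ 3 + 5 * xw z ^ 9 + xw z ^ 12) / (1 - 10 * xw z ^ 3 - 2 * xw z ^ 6)) + E3), ?_, ?_, ?_⟩
  · rw [hV, hg]
    ring
  · have t1 := lt_of_le_of_lt hE1 hA
    have t2 := lt_of_le_of_lt hE2 hA
    have t3 : A.valuation (2 * (Ms L R a (fun z => (2 * xw z ^ 3 + 5 * xw z ^ 9 + xw z ^ 12) /
        (1 - 10 * xw z ^ 3 - 2 * xw z ^ 6)) + E3)) < 1 := by
      refine v4a_v_lt_mul A hA ?_
      exact (Valuation.map_add A.valuation _ _).trans (max_le hMI (lt_of_le_of_lt hE3 hA).le)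
    exact lt_of_le_of_lt (Valuation.map_add A.valuation _ _)
      (max_lt (lt_of_le_of_lt (Valuation.map_add A.valuation _ _) (max_lt t1 t2)) t3)
  · have h2C : A.valuation (2 * C) ^ 6 = A.valuation 2 ^ 10 := by
      rw [map_mul, mul_pow, hC, ← pow_add]
    rw [v4b_val hA h2C, hn, if_neg two_ne_zero]

include hA in
/-- [V4.5] `n = 2`, `δ = ω`, `v = 2, 4`: `W = C D₂(w ϕ, x)/D₂(ϕ, x)` (`W2_w`; `q2 (-1) = -1`, `q2 (1 + 2 ω) = -1`), `≡ 1 + w² ϕ x² + w ϕ² (x + w x⁴)`. -/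
theorem lead2_w {L : Lv} {R : Finset Eis} {a : Eis} (hR : IsR L R) (ha : IsA L a) {v : ℕ} {δ : Eis} (hv : v = 2 ∨ v = 4)
    (hj : L.j = 1 - (v : ZMod 3)) (hq : L.q (-1) * q2 v δ (-1) = -1) (hδ : (2 : Eis) ∣ δ - om) : Lead A L v δ R a := by
  have hnd : ¬ (2 : Eis) ∣ δ := v4d_nd hδ v4d_ndom
  have hnd1 : ¬ (2 : Eis) ∣ δ - 1 := by
    intro h1
    refine v4d_ndom1 ?_
    have := dvd_sub h1 hδ
    have e : δ - 1 - (δ - om) = om - 1 := by ring
    rwa [e] at this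
  have hn := v4d_n2 (δ := δ) (hv.elim (fun h => Or.inr (Or.inl h)) (fun h => Or.inr (Or.inr h))) hnd
  have hqn : L.q (-1) = 1 := par_neg hq (Or.inl hδ)
  have q1 := v4d_q1 (v := v) ((v4d_sT hδ).trans v4d_v0.2.2.1)
  have q3 := v4d_q3e (v := v) (hv.elim (fun h => Or.inr (Or.inl h)) (fun h => Or.inr (Or.inr h)))
    ((v4d_sT_om hδ).trans v4d_v0.2.2.2.2.2.2.1)
  obtain ⟨C, hC2, hC⟩ := W2_w
  have hV : V L v δ = 3 * (C * SF L (fun z => D2 (w * ph) (xw z) / D2 ph (xw z))) := by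
    rw [V_two hn]
    congr 1
    rw [← SF_smul]
    refine SF_congr L fun z hz => ?_
    show _ = C * (D2 (w * ph) (xw z) / D2 ph (xw z))
    rw [← hC z (ot_nl4 hz), q1, q3]
    push_cast
    ring
  have hG : Gd A (fun z => D2 (w * ph) (xw z) / D2 ph (xw z)) := v4d_gd2 A hA (v4d_D2 A hA wph_cube)
  obtain ⟨hT, hw⟩ := v4d_T2 A hA (c₁ := w ^ 2) (c₂ := w) (c₃ := w ^ 2) (by rw [map_pow, w_val A, one_pow]) (w_val A).le
    (by rw [map_pow, w_val A, one_pow])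
  refine v4d_two A hA hv hn hj hV (v4d_C2 A (m := 1 - w) hC2 (v4d_units A hA).2.1)
    (fun k hk hl => lead_even A hR ha hqn hG hT hw hk hl ?_ hA) ?_
  · intro z hz
    exact v4d_exp A hA (x_int A hA hz) (t := w) (by linear_combination CUL.w2)
  · rintro k (⟨rfl, rfl⟩ | ⟨rfl, rfl⟩)
    · refine ⟨w ^ 2, by rw [map_pow, w_val A, one_pow], ?_⟩
      rw [← Ms_smul]
      congr 1
    · refine ⟨w, w_val A, ?_⟩
      rw [← Ms_smul]
      congr 1
      funext z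
      simp [gM, hδ, hnd, hnd1]
      ring

include hA in
/-- [V4.6] `n = 2`, `δ = ω`, `v = 0`: `D2_split_w` with `t = w`: the part of weight `0` is `(1 - 2 w x⁶ - 4 w² x³)/N = 1 + 2 (x³ + w² x⁶) + 4 I`; `SF_const`, `SF_even`. -/
theorem lead2_w0 {L : Lv} {R : Finset Eis} {a : Eis} (hR : IsR L R) (ha : IsA L a) {δ : Eis}
    (hj : L.j = 1 - ((0 : ℕ) : ZMod 3)) (hq : L.q (-1) * q2 0 δ (-1) = -1) (hδ : (2 : Eis) ∣ δ - om) : Lead A L 0 δ R a := by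
  have hnd : ¬ (2 : Eis) ∣ δ := v4d_nd hδ v4d_ndom
  have hnd1 : ¬ (2 : Eis) ∣ δ - 1 := by
    intro h1
    refine v4d_ndom1 ?_
    have := dvd_sub h1 hδ
    have e : δ - 1 - (δ - om) = om - 1 := by ring
    rwa [e] at this
  have hn := v4d_n2 (δ := δ) (Or.inl rfl) hnd
  have hqn : L.q (-1) = 1 := par_neg hq (Or.inl hδ)
  have q1 := v4d_q1 (v := 0) ((v4d_sT hδ).trans v4d_v0.2.2.1)
  have q3 := v4d_q3e (v := 0) (Or.inl rfl) ((v4d_sT_om hδ).trans v4d_v0.2.2.2.2.2.2.1)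
  obtain ⟨C, hC2, hC⟩ := W2_w
  have hV : V L 0 δ = 3 * (C * SF L (fun z => D2 (w * ph) (xw z) / D2 ph (xw z))) := by
    rw [V_two hn]
    congr 1
    rw [← SF_smul]
    refine SF_congr L fun z hz => ?_
    show _ = C * (D2 (w * ph) (xw z) / D2 ph (xw z))
    rw [← hC z (ot_nl4 hz), q1, q3]
    push_cast
    ring
  obtain ⟨E, hE, hS⟩ := v4d_zero A hA hR ha (by rw [hj]; decide) hqn (t := w) (by linear_combination CUL.w2) (g := gM 0 δ)
    (fun z => by simp [gM, hδ, hnd, hnd1])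
  exact v4d_lead0 A hA hn hV (v4d_C2 A (m := 1 - w) hC2 (v4d_units A hA).2.1) hE hS

include hA in
/-- [V4.7] `n = 2`, `δ = ω²`, `v = 2, 4`: `W2_w2` (`q2 (-1) = -1`, `q2 (1 + 2 ω) = 1`), `≡ 1 + w ϕ x² + w² ϕ² (x + w² x⁴)`. -/
theorem lead2_w2 {L : Lv} {R : Finset Eis} {a : Eis} (hR : IsR L R) (ha : IsA L a) {v : ℕ} {δ : Eis} (hv : v = 2 ∨ v = 4)
    (hj : L.j = 1 - (v : ZMod 3)) (hq : L.q (-1) * q2 v δ (-1) = -1) (hδ : (2 : Eis) ∣ δ - om ^ 2) : Lead A L v δ R a := by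
  have hnd : ¬ (2 : Eis) ∣ δ := v4d_nd hδ v4d_ndom2
  have hnd1 : ¬ (2 : Eis) ∣ δ - 1 := by
    intro h1
    refine v4d_ndom21 ?_
    have := dvd_sub h1 hδ
    have e : δ - 1 - (δ - om ^ 2) = om ^ 2 - 1 := by ring
    rwa [e] at this
  have hnd2 : ¬ (2 : Eis) ∣ δ - om := by
    intro h1
    refine v4d_ndom2om ?_
    have := dvd_sub h1 hδ
    have e : δ - om - (δ - om ^ 2) = om ^ 2 - om := by ring
    rwa [e] at this
  have hn := v4d_n2 (δ := δ) (hv.elim (fun h => Or.inr (Or.inl h)) (fun h => Or.inr (Or.inr h))) hnd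
  have hqn : L.q (-1) = 1 := par_neg hq (Or.inr hδ)
  have q1 := v4d_q1 (v := v) ((v4d_sT hδ).trans v4d_v0.2.2.2.1)
  have q3 := v4d_q3e (v := v) (hv.elim (fun h => Or.inr (Or.inl h)) (fun h => Or.inr (Or.inr h)))
    ((v4d_sT_om hδ).trans v4d_v0.2.2.2.2.2.2.2)
  obtain ⟨C, hC2, hC⟩ := W2_w2
  have hV : V L v δ = 3 * (C * SF L (fun z => D2 (w ^ 2 * ph) (xw z) / D2 ph (xw z))) := by
    rw [V_two hn]
    congr 1
    rw [← SF_smul]
    refine SF_congr L fun z hz => ?_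
    show _ = C * (D2 (w ^ 2 * ph) (xw z) / D2 ph (xw z))
    rw [← hC z (ot_nl4 hz), q1, q3]
    push_cast
    ring
  have hG : Gd A (fun z => D2 (w ^ 2 * ph) (xw z) / D2 ph (xw z)) := v4d_gd2 A hA (v4d_D2 A hA w2ph_cube)
  have hw2 : A.valuation (w ^ 2) = 1 := by rw [map_pow, w_val A, one_pow]
  have hw4 : A.valuation ((w ^ 2) ^ 2) = 1 := by rw [map_pow, hw2, one_pow]
  obtain ⟨hT, hw⟩ := v4d_T2 A hA (c₁ := (w ^ 2) ^ 2) (c₂ := w ^ 2) (c₃ := (w ^ 2) ^ 2) hw4.le hw2.le hw4.le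
  refine v4d_two A hA hv hn hj hV (v4d_C2 A (m := 1 - w ^ 2) hC2 (v4d_units A hA).2.2)
    (fun k hk hl => lead_even A hR ha hqn hG hT hw hk hl ?_ hA) ?_
  · intro z hz
    exact v4d_exp A hA (x_int A hA hz) (t := w ^ 2) (by linear_combination w * CUL.w3 + CUL.w2)
  · rintro k (⟨rfl, rfl⟩ | ⟨rfl, rfl⟩)
    · refine ⟨(w ^ 2) ^ 2, hw4, ?_⟩
      rw [← Ms_smul]
      congr 1
    · refine ⟨w ^ 2, hw2, ?_⟩
      rw [← Ms_smul]
      congr 1
      funext z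
      simp [gM, hnd, hnd1, hnd2]
      ring

include hA in
/-- [V4.8] `n = 2`, `δ = ω²`, `v = 0`: `D2_split_w` with `t = w²`: `(1 - 2 w² x⁶ - 4 w x³)/N = 1 + 2 (x³ + w x⁶) + 4 I`. -/
theorem lead2_w20 {L : Lv} {R : Finset Eis} {a : Eis} (hR : IsR L R) (ha : IsA L a) {δ : Eis}
    (hj : L.j = 1 - ((0 : ℕ) : ZMod 3)) (hq : L.q (-1) * q2 0 δ (-1) = -1) (hδ : (2 : Eis) ∣ δ - om ^ 2) : Lead A L 0 δ R a := by
  have hnd : ¬ (2 : Eis) ∣ δ := v4d_nd hδ v4d_ndom2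
  have hnd1 : ¬ (2 : Eis) ∣ δ - 1 := by
    intro h1
    refine v4d_ndom21 ?_
    have := dvd_sub h1 hδ
    have e : δ - 1 - (δ - om ^ 2) = om ^ 2 - 1 := by ring
    rwa [e] at this
  have hnd2 : ¬ (2 : Eis) ∣ δ - om := by
    intro h1
    refine v4d_ndom2om ?_
    have := dvd_sub h1 hδ
    have e : δ - om - (δ - om ^ 2) = om ^ 2 - om := by ring
    rwa [e] at this
  have hn := v4d_n2 (δ := δ) (Or.inl rfl) hnd
  have hqn : L.q (-1) = 1 := par_neg hq (Or.inr hδ)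
  have q1 := v4d_q1 (v := 0) ((v4d_sT hδ).trans v4d_v0.2.2.2.1)
  have q3 := v4d_q3e (v := 0) (Or.inl rfl) ((v4d_sT_om hδ).trans v4d_v0.2.2.2.2.2.2.2)
  obtain ⟨C, hC2, hC⟩ := W2_w2
  have hV : V L 0 δ = 3 * (C * SF L (fun z => D2 (w ^ 2 * ph) (xw z) / D2 ph (xw z))) := by
    rw [V_two hn]
    congr 1
    rw [← SF_smul]
    refine SF_congr L fun z hz => ?_
    show _ = C * (D2 (w ^ 2 * ph) (xw z) / D2 ph (xw z))
    rw [← hC z (ot_nl4 hz), q1, q3]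
    push_cast
    ring
  obtain ⟨E, hE, hS⟩ := v4d_zero A hA hR ha (by rw [hj]; decide) hqn (t := w ^ 2) (by linear_combination w * CUL.w3 + CUL.w2)
    (g := gM 0 δ) (fun z => by
      have e : (w ^ 2) ^ 2 = w := by linear_combination w * CUL.w3
      rw [e]
      simp [gM, hnd, hnd1, hnd2])
  exact v4d_lead0 A hA hn hV (v4d_C2 A (m := 1 - w ^ 2) hC2 (v4d_units A hA).2.2) hE hS

include hA in
/-- [V4.9] `n = 3`, `δ = 0`: `q2 (-1) = 1`, `q2 (1 + 2 ω) = -1`; `W3_zero`, `T3_zero`; `T₀ = x⁴` (weight `1`), `T₁ = x⁶ + x¹²` (`0`), `T₂` (`2`); `v = 5, 3, 1`: `k = 0, 1, 2`. -/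
theorem lead3_zero {L : Lv} {R : Finset Eis} {a : Eis} (hR : IsR L R) (ha : IsA L a) {v : ℕ} {δ : Eis} (hv : v = 1 ∨ v = 3 ∨ v = 5)
    (hj : L.j = 1 - (v : ZMod 3)) (hq : L.q (-1) * q2 v δ (-1) = -1) (hδ : (2 : Eis) ∣ δ) : Lead A L v δ R a := by
  have hn := v4d_n3 (δ := δ) hv
  have h0 : (2 : Eis) ∣ δ - 0 := by rwa [sub_zero]
  have hqn : L.q (-1) = -1 := par_pos hq (Or.inl hδ)
  have q1 := v4d_q1 (v := v) ((v4d_sT h0).trans v4d_v0.1)
  have q3 := v4d_q3 hv ((v4d_sT_om h0).trans v4d_v0.2.2.2.2.1)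
  obtain ⟨C, hC2, hC⟩ := W3_zero
  have hV : V L v δ = 3 * (C * SF L (fun z => yw z * (D2 ph (xw z) * xw (2 * z) / (yw z ^ 2 * D2 ph (xw (2 * z)))))) := by
    rw [V_three hn]
    congr 1
    rw [← SF_smul]
    refine SF_congr L fun z hz => ?_
    show _ = C * (yw z * (D2 ph (xw z) * xw (2 * z) / (yw z ^ 2 * D2 ph (xw (2 * z)))))
    rw [← hC z (ot_nl8 hz), q1, q3]
    push_cast
    ring
  have hG : Gd A (fun z => D2 ph (xw z) * xw (2 * z) / (yw z ^ 2 * D2 ph (xw (2 * z)))) :=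
    v4d_gd3 A hA (Gd.mul A (v4d_D2 A hA ph_cube) (v4d_x2 A hA))
  have hT2 : Gd A (fun z => xw z ^ 5 + xw z ^ 8 + xw z ^ 14 + xw z ^ 20) :=
    Gd.add A (Gd.add A (Gd.add A (v4d_pow A hA 5) (v4d_pow A hA 8)) (v4d_pow A hA 14)) (v4d_pow A hA 20)
  obtain ⟨hT, hw⟩ := v4d_T3 A hA (c₁ := 0) (by rw [map_zero]; exact zero_le) hT2 (fun z => by
    show xw (w * z) ^ 5 + xw (w * z) ^ 8 + xw (w * z) ^ 14 + xw (w * z) ^ 20 =
      w ^ 2 * (xw z ^ 5 + xw z ^ 8 + xw z ^ 14 + xw z ^ 20)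
    rw [v4d_wn (i := 2) (by norm_num) z, v4d_wn (i := 2) (by norm_num) z, v4d_wn (i := 2) (by norm_num) z,
      v4d_wn (i := 2) (by norm_num) z]
    ring)
  refine v4d_three A hA hv hj hV (v4d_C3 A (m := 9) (by rw [hC2]; ring) ?_)
    (fun k hk hl => lead_odd A hR ha hqn hG hT hw hk hl ?_ hA) (fun k hk => v4d_M3 ?_ k hk)
  · have h3 := Q3V.v_three A hA
    have e : (9 : ℂ) = 3 * 3 := by norm_num
    rw [e, map_mul, h3, one_mul]
  · intro z hz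
    simpa using T3_zero A hA hz
  · rintro rfl z
    simp [gM, hδ]

include hA in
/-- [V4.10] `n = 3`, `δ = 1`: `q2 (-1) = 1`, `q2 (1 + 2 ω) = 1`; `W3_one`, `T3_one`; `Ms 1 = 0`. -/
theorem lead3_one {L : Lv} {R : Finset Eis} {a : Eis} (hR : IsR L R) (ha : IsA L a) {v : ℕ} {δ : Eis} (hv : v = 1 ∨ v = 3 ∨ v = 5)
    (hj : L.j = 1 - (v : ZMod 3)) (hq : L.q (-1) * q2 v δ (-1) = -1) (hδ : (2 : Eis) ∣ δ - 1) : Lead A L v δ R a := by
  have hn := v4d_n3 (δ := δ) hv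
  have hnd : ¬ (2 : Eis) ∣ δ := v4d_nd hδ v4d_nd1
  have hqn : L.q (-1) = -1 := par_pos hq (Or.inr hδ)
  have q1 := v4d_q1 (v := v) ((v4d_sT hδ).trans v4d_v0.2.1)
  have q3 := v4d_q3 hv ((v4d_sT_om hδ).trans v4d_v0.2.2.2.2.2.1)
  obtain ⟨C, hC2, hC⟩ := W3_one
  have hV : V L v δ = 3 * (C * SF L (fun z => yw z * (D2 ph (xw z) * (xw (2 * z) + ph) / (yw z ^ 2 * D2 ph (xw (2 * z)))))) := by
    rw [V_three hn]
    congr 1
    rw [← SF_smul]
    refine SF_congr L fun z hz => ?_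
    show _ = C * (yw z * (D2 ph (xw z) * (xw (2 * z) + ph) / (yw z ^ 2 * D2 ph (xw (2 * z)))))
    rw [← hC z (ot_nl8 hz), q1, q3]
    push_cast
    ring
  have hG : Gd A (fun z => D2 ph (xw z) * (xw (2 * z) + ph) / (yw z ^ 2 * D2 ph (xw (2 * z)))) :=
    v4d_gd3 A hA (Gd.mul A (v4d_D2 A hA ph_cube) (Gd.add A (v4d_x2 A hA) (Gd.const A (ph_lt A hA).le)))
  have hT2 : Gd A (fun z => xw z ^ 2 + xw z ^ 5 + xw z ^ 14 + xw z ^ 20) :=
    Gd.add A (Gd.add A (Gd.add A (v4d_pow A hA 2) (v4d_pow A hA 5)) (v4d_pow A hA 14)) (v4d_pow A hA 20)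
  obtain ⟨hT, hw⟩ := v4d_T3 A hA (c₁ := 1) (by rw [map_one]) hT2 (fun z => by
    show xw (w * z) ^ 2 + xw (w * z) ^ 5 + xw (w * z) ^ 14 + xw (w * z) ^ 20 =
      w ^ 2 * (xw z ^ 2 + xw z ^ 5 + xw z ^ 14 + xw z ^ 20)
    rw [v4d_wn (i := 2) (by norm_num) z, v4d_wn (i := 2) (by norm_num) z, v4d_wn (i := 2) (by norm_num) z,
      v4d_wn (i := 2) (by norm_num) z]
    ring)
  refine v4d_three A hA hv hj hV (v4d_C3 A (m := 3) (by rw [hC2]; ring) (Q3V.v_three A hA))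
    (fun k hk hl => lead_odd A hR ha hqn hG hT hw hk hl ?_ hA) (fun k hk => v4d_M3 ?_ k hk)
  · intro z hz
    simpa using T3_one A hA hz
  · rintro rfl z
    simp [gM, hδ, hnd]

include hA in
/-- [V4.11] `n = 3`, `δ = ω`: `q2 (-1) = -1`, `q2 (1 + 2 ω) = 1`; `W3_w`, `T3_w` with `t = w`. -/
theorem lead3_w {L : Lv} {R : Finset Eis} {a : Eis} (hR : IsR L R) (ha : IsA L a) {v : ℕ} {δ : Eis} (hv : v = 1 ∨ v = 3 ∨ v = 5)
    (hj : L.j = 1 - (v : ZMod 3)) (hq : L.q (-1) * q2 v δ (-1) = -1) (hδ : (2 : Eis) ∣ δ - om) : Lead A L v δ R a := by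
  have hn := v4d_n3 (δ := δ) hv
  have hnd : ¬ (2 : Eis) ∣ δ := v4d_nd hδ v4d_ndom
  have hnd1 : ¬ (2 : Eis) ∣ δ - 1 := by
    intro h1
    refine v4d_ndom1 ?_
    have := dvd_sub h1 hδ
    have e : δ - 1 - (δ - om) = om - 1 := by ring
    rwa [e] at this
  have hqn : L.q (-1) = 1 := par_neg hq (Or.inl hδ)
  have q1 := v4d_q1 (v := v) ((v4d_sT hδ).trans v4d_v0.2.2.1)
  have q3 := v4d_q3 hv ((v4d_sT_om hδ).trans v4d_v0.2.2.2.2.2.2.1)
  obtain ⟨C, hC2, hC⟩ := W3_w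
  have hV : V L v δ = 3 * (C * SF L (fun z => D2 (w * ph) (xw z) * D2 (w ^ 2 * ph) (xw z) * (xw (2 * z) + w * ph) /
      (yw z ^ 2 * D2 ph (xw (2 * z))))) := by
    rw [V_three hn]
    congr 1
    rw [← SF_smul]
    refine SF_congr L fun z hz => ?_
    show _ = C * (D2 (w * ph) (xw z) * D2 (w ^ 2 * ph) (xw z) * (xw (2 * z) + w * ph) /
      (yw z ^ 2 * D2 ph (xw (2 * z))))
    rw [← hC z (ot_nl8 hz), q1, q3]
    push_cast
    ring
  have ht1 : A.valuation w = 1 := w_val A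
  have hG : Gd A (fun z => D2 (w * ph) (xw z) * D2 (w ^ 2 * ph) (xw z) * (xw (2 * z) + w * ph) /
      (yw z ^ 2 * D2 ph (xw (2 * z)))) :=
    v4d_gd3 A hA (Gd.mul A (Gd.mul A (v4d_D2 A hA wph_cube) (v4d_D2 A hA w2ph_cube)) (Gd.add A (v4d_x2 A hA)
      (Gd.const A (by rw [map_mul, ht1, one_mul]; exact (ph_lt A hA).le))))
  have hT2 : Gd A (fun z => w * xw z ^ 2 + xw z ^ 5 + w * xw z ^ 8 + xw z ^ 14 + xw z ^ 20) :=
    Gd.add A (Gd.add A (Gd.add A (Gd.add A (Gd.mul A (Gd.const A ht1.le) (v4d_pow A hA 2)) (v4d_pow A hA 5))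
      (Gd.mul A (Gd.const A ht1.le) (v4d_pow A hA 8))) (v4d_pow A hA 14)) (v4d_pow A hA 20)
  obtain ⟨hT, hw⟩ := v4d_T3 A hA (c₁ := w) ht1.le hT2 (fun z => by
    show w * xw (w * z) ^ 2 + xw (w * z) ^ 5 + w * xw (w * z) ^ 8 + xw (w * z) ^ 14 + xw (w * z) ^ 20 =
      w ^ 2 * (w * xw z ^ 2 + xw z ^ 5 + w * xw z ^ 8 + xw z ^ 14 + xw z ^ 20)
    rw [v4d_wn (i := 2) (by norm_num) z, v4d_wn (i := 2) (by norm_num) z, v4d_wn (i := 2) (by norm_num) z,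
      v4d_wn (i := 2) (by norm_num) z, v4d_wn (i := 2) (by norm_num) z]
    ring)
  refine v4d_three A hA hv hj hV (v4d_C3w A (m := -(1 + 2 * w)) (by rw [hC2]; ring) (by rw [Valuation.map_neg]; exact (v4d_units A hA).1))
    (fun k hk hl => lead_even A hR ha hqn hG hT hw hk hl ?_ hA) (fun k hk => v4d_M3 ?_ k hk)
  · intro z hz
    simpa using T3_w A hA hz (t := w) CUL.w3
  · rintro rfl z
    simp [gM, hδ, hnd, hnd1]

include hA in
/-- [V4.12] `n = 3`, `δ = ω²`: `q2 (-1) = -1`, `q2 (1 + 2 ω) = -1`; `W3_w2`, `T3_w` with `t = w²`. -/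
theorem lead3_w2 {L : Lv} {R : Finset Eis} {a : Eis} (hR : IsR L R) (ha : IsA L a) {v : ℕ} {δ : Eis} (hv : v = 1 ∨ v = 3 ∨ v = 5)
    (hj : L.j = 1 - (v : ZMod 3)) (hq : L.q (-1) * q2 v δ (-1) = -1) (hδ : (2 : Eis) ∣ δ - om ^ 2) : Lead A L v δ R a := by
  have hn := v4d_n3 (δ := δ) hv
  have hnd : ¬ (2 : Eis) ∣ δ := v4d_nd hδ v4d_ndom2
  have hnd1 : ¬ (2 : Eis) ∣ δ - 1 := by
    intro h1
    refine v4d_ndom21 ?_
    have := dvd_sub h1 hδ
    have e : δ - 1 - (δ - om ^ 2) = om ^ 2 - 1 := by ring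
    rwa [e] at this
  have hnd2 : ¬ (2 : Eis) ∣ δ - om := by
    intro h1
    refine v4d_ndom2om ?_
    have := dvd_sub h1 hδ
    have e : δ - om - (δ - om ^ 2) = om ^ 2 - om := by ring
    rwa [e] at this
  have hqn : L.q (-1) = 1 := par_neg hq (Or.inr hδ)
  have q1 := v4d_q1 (v := v) ((v4d_sT hδ).trans v4d_v0.2.2.2.1)
  have q3 := v4d_q3 hv ((v4d_sT_om hδ).trans v4d_v0.2.2.2.2.2.2.2)
  obtain ⟨C, hC2, hC⟩ := W3_w2
  have hV : V L v δ = 3 * (C * SF L (fun z => D2 (w * ph) (xw z) * D2 (w ^ 2 * ph) (xw z) * (xw (2 * z) + w ^ 2 * ph) /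
      (yw z ^ 2 * D2 ph (xw (2 * z))))) := by
    rw [V_three hn]
    congr 1
    rw [← SF_smul]
    refine SF_congr L fun z hz => ?_
    show _ = C * (D2 (w * ph) (xw z) * D2 (w ^ 2 * ph) (xw z) * (xw (2 * z) + w ^ 2 * ph) /
      (yw z ^ 2 * D2 ph (xw (2 * z))))
    rw [← hC z (ot_nl8 hz), q1, q3]
    push_cast
    ring
  have ht1 : A.valuation (w ^ 2) = 1 := by rw [map_pow, w_val A, one_pow]
  have hG : Gd A (fun z => D2 (w * ph) (xw z) * D2 (w ^ 2 * ph) (xw z) * (xw (2 * z) + w ^ 2 * ph) /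
      (yw z ^ 2 * D2 ph (xw (2 * z)))) :=
    v4d_gd3 A hA (Gd.mul A (Gd.mul A (v4d_D2 A hA wph_cube) (v4d_D2 A hA w2ph_cube)) (Gd.add A (v4d_x2 A hA)
      (Gd.const A (by rw [map_mul, ht1, one_mul]; exact (ph_lt A hA).le))))
  have hT2 : Gd A (fun z => w ^ 2 * xw z ^ 2 + xw z ^ 5 + w ^ 2 * xw z ^ 8 + xw z ^ 14 + xw z ^ 20) :=
    Gd.add A (Gd.add A (Gd.add A (Gd.add A (Gd.mul A (Gd.const A ht1.le) (v4d_pow A hA 2)) (v4d_pow A hA 5))
      (Gd.mul A (Gd.const A ht1.le) (v4d_pow A hA 8))) (v4d_pow A hA 14)) (v4d_pow A hA 20)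
  obtain ⟨hT, hw⟩ := v4d_T3 A hA (c₁ := w ^ 2) ht1.le hT2 (fun z => by
    show w ^ 2 * xw (w * z) ^ 2 + xw (w * z) ^ 5 + w ^ 2 * xw (w * z) ^ 8 + xw (w * z) ^ 14 + xw (w * z) ^ 20 =
      w ^ 2 * (w ^ 2 * xw z ^ 2 + xw z ^ 5 + w ^ 2 * xw z ^ 8 + xw z ^ 14 + xw z ^ 20)
    rw [v4d_wn (i := 2) (by norm_num) z, v4d_wn (i := 2) (by norm_num) z, v4d_wn (i := 2) (by norm_num) z,
      v4d_wn (i := 2) (by norm_num) z, v4d_wn (i := 2) (by norm_num) z]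
    ring)
  refine v4d_three A hA hv hj hV (v4d_C3w A (m := 1 + 2 * w) hC2 (v4d_units A hA).1)
    (fun k hk hl => lead_even A hR ha hqn hG hT hw hk hl ?_ hA) (fun k hk => v4d_M3 ?_ k hk)
  · intro z hz
    simpa using T3_w A hA hz (t := w ^ 2) (by linear_combination (w ^ 3 + 1) * CUL.w3)
  · rintro rfl z
    simp [gM, hnd, hnd1, hnd2]

include hA in
/-- [V4.13] all cases -/
theorem lead_all {L : Lv} {R : Finset Eis} {a : Eis} (hR : IsR L R) (ha : IsA L a) {v : ℕ} {δ : Eis} (hv : v < 6)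
    (hj : L.j = 1 - (v : ZMod 3)) (hq : L.q (-1) * q2 v δ (-1) = -1) : Lead A L v δ R a := by
  rcases cases_two δ with h | h | h | h
  · interval_cases v
    · exact lead1 A hA hR ha (Or.inl rfl) hj hq h
    · exact lead3_zero A hA hR ha (Or.inl rfl) hj hq h
    · exact lead1 A hA hR ha (Or.inr rfl) hj hq h
    · exact lead3_zero A hA hR ha (Or.inr (Or.inl rfl)) hj hq h
    · exact lead0 A hA hR ha hj hq h
    · exact lead3_zero A hA hR ha (Or.inr (Or.inr rfl)) hj hq h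
  · interval_cases v
    · exact lead2_one0 A hA hR ha hj hq h
    · exact lead3_one A hA hR ha (Or.inl rfl) hj hq h
    · exact lead2_one A hA hR ha (Or.inl rfl) hj hq h
    · exact lead3_one A hA hR ha (Or.inr (Or.inl rfl)) hj hq h
    · exact lead2_one A hA hR ha (Or.inr rfl) hj hq h
    · exact lead3_one A hA hR ha (Or.inr (Or.inr rfl)) hj hq h
  · interval_cases v
    · exact lead2_w0 A hA hR ha hj hq h
    · exact lead3_w A hA hR ha (Or.inl rfl) hj hq h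
    · exact lead2_w A hA hR ha (Or.inl rfl) hj hq h
    · exact lead3_w A hA hR ha (Or.inr (Or.inl rfl)) hj hq h
    · exact lead2_w A hA hR ha (Or.inr rfl) hj hq h
    · exact lead3_w A hA hR ha (Or.inr (Or.inr rfl)) hj hq h
  · interval_cases v
    · exact lead2_w20 A hA hR ha hj hq h
    · exact lead3_w2 A hA hR ha (Or.inl rfl) hj hq h
    · exact lead2_w2 A hA hR ha (Or.inl rfl) hj hq h
    · exact lead3_w2 A hA hR ha (Or.inr (Or.inl rfl)) hj hq h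
    · exact lead2_w2 A hA hR ha (Or.inr rfl) hj hq h
    · exact lead3_w2 A hA hR ha (Or.inr (Or.inr rfl)) hj hq h

end J2L
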