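import Pool.Agent.J2L.V4
import Pool.Agent.J2L.G4
import Pool.Agent.J2L.G6
import Pool.Agent.J2L.G7d
import Pool.Agent.J2L.JTc
import Pool.Agent.J2D.Z

/-!
# [J2L-Z] the central value modulo `2`
-/

set_option autoImplicit false

open NumberField IsDedekindDomain Filter Topology

open scoped Classical ComplexConjugate

namespace J2L

open CM27 JZ

open CU (la eE om)

open CUL (Nl ez IsRep rp cr zw)

variable {D : Eis}

theorem on2_iff (h : JT.Cl2 D) (d : Dt D) {R : Finset Eis} {a : Eis} (hR : IsR d.L R) (ha : IsA d.L a) (ho : OddO d.L a) :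
    JT.On2 D (JT.cD D) (gE d.L R a 0 / gE d.L R a 1) ↔
      ∀ A : ValuationSubring ℂ, A.valuation 2 < 1 → A.valuation (Ms d.L R a (gM d.v d.δ)) < 1 := by
  have he := unit_main h d hR ha ho
  have h1 : d.v = 0 ∨ d.v = 1 ∨ (d.v = 2 ∨ d.v = 4 ∨ d.v = 5) ∨ d.v = 3 := by
    have := d.hv
    omega
  rcases h1 with h1 | h1 | h1 | h1
  · exact on2_zero h d h1 hR ha ho he
  · exact on2_one h d h1 hR ha ho he
  · exact on2_ram h d h1 hR ha he
  · exact on2_three h d h1 hR ha ho he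

theorem za_w3 : w ^ 3 = 1 := CUL.w3

theorem za_w_mem : w ∈ CF.KK := IntermediateField.subset_adjoin ℚ _ (Set.mem_singleton w)

theorem za_n0 {e₀ e₁ e₂ : ℂ} (he : EUn D e₀ e₁ e₂) : N1 D e₀ := by
  obtain ⟨u₀, u₁, u₂, h0, h1, h2, r0, r1, r2⟩ := he.rep
  refine ⟨he.int0.1, u₀, u₁, u₂, h0, h1, h2, r0.symm, ?_⟩
  rw [r0, r1, r2]
  exact he.prod

theorem za_n1 {e₀ e₁ e₂ : ℂ} (he : EUn D e₀ e₁ e₂) : N1 D e₁ := by
  obtain ⟨u₀, u₁, u₂, h0, h1, h2, r0, r1, r2⟩ := he.rep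
  have hw := za_w3
  have q0 : u₀ + u₁ * w * JT.cD D + u₂ * w ^ 2 * JT.cD D ^ 2 = e₁ := by rw [← r1]; ring
  have q1 : u₀ + u₁ * w * (w * JT.cD D) + u₂ * w ^ 2 * (w * JT.cD D) ^ 2 = e₂ := by rw [← r2]; ring
  have q2 : u₀ + u₁ * w * (w ^ 2 * JT.cD D) + u₂ * w ^ 2 * (w ^ 2 * JT.cD D) ^ 2 = e₀ := by
    rw [← r0]
    linear_combination (u₁ * JT.cD D + u₂ * JT.cD D ^ 2 * (w ^ 3 + 1)) * hw
  refine ⟨he.int1.1, u₀, u₁ * w, u₂ * w ^ 2, h0, mul_mem h1 za_w_mem, mul_mem h2 (pow_mem za_w_mem 2), q0.symm, ?_⟩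
  rw [q0, q1, q2]
  linear_combination he.prod

theorem za_one (h : JT.Cl2 D) : IsU D 1 := by
  refine ⟨one_mem _, one_ne_zero, isIntegral_one, ?_⟩
  rw [inv_one]
  exact isIntegral_one

theorem za_inv {u : ℂ} (h : IsU D u) : IsU D u⁻¹ := by
  obtain ⟨h1, h2, h3, h4⟩ := h
  exact ⟨inv_mem h1, inv_ne_zero h2, h4, by rwa [inv_inv]⟩

theorem za_on2_inv (h : JT.Cl2 D) {u : ℂ} (hu : N1 D u) (h1 : JT.On2 D (JT.cD D) u) : JT.On2 D (JT.cD D) u⁻¹ := by
  have hU := hu.isU h.ncube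
  have hne := hU.2.1
  have e : u⁻¹ = u * (u⁻¹) ^ 2 := by field_simp
  have h2 : N1 D ((u⁻¹) ^ 2) := by
    have := (hu.inv h.ncube).mul h.ncube (hu.inv h.ncube)
    rwa [← pow_two] at this
  rw [e]
  exact on2_mul h hu h2 h1 (on2_sq h (za_inv hU))

theorem za_npow (h : JT.Cl2 D) {u : ℂ} (hu : N1 D u) (n : ℕ) : N1 D (u ^ n) := by
  have := hu.zpow h.ncube (n : ℤ)
  rwa [zpow_natCast] at this

theorem za_on2_npow (h : JT.Cl2 D) {u : ℂ} (hu : N1 D u) (h1 : JT.On2 D (JT.cD D) u) (n : ℕ) :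
    JT.On2 D (JT.cD D) (u ^ n) := by
  induction n with
  | zero =>
    rw [pow_zero]
    have h2 := on2_sq h (za_one h)
    rwa [one_pow] at h2
  | succ n ih =>
    rw [pow_succ]
    exact on2_mul h (za_npow h hu n) hu ih h1

theorem za_on2_zpow (h : JT.Cl2 D) {u : ℂ} (hu : N1 D u) (h1 : JT.On2 D (JT.cD D) u) (n : ℤ) :
    JT.On2 D (JT.cD D) (u ^ n) := by
  obtain ⟨k, rfl | rfl⟩ := n.eq_nat_or_neg
  · rw [zpow_natCast]
    exact za_on2_npow h hu h1 k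
  · rw [zpow_neg, zpow_natCast]
    exact za_on2_inv h (za_npow h hu k) (za_on2_npow h hu h1 k)

theorem za_uc (D : Eis) : JT.UC2 D ↔ Odd (classNumber (JT.KM D)) ∧ ∃ u, N1 D u ∧ ¬ JT.On2 D (JT.cD D) u := by
  unfold JT.UC2 N1
  constructor
  · rintro ⟨ho, u₀, u₁, u₂, h0, h1, h2, hn, hi, hu⟩
    exact ⟨ho, _, ⟨hi, u₀, u₁, u₂, h0, h1, h2, rfl, hn⟩, hu⟩
  · rintro ⟨ho, u, ⟨hi, u₀, u₁, u₂, h0, h1, h2, rfl, hn⟩, hu⟩
    exact ⟨ho, u₀, u₁, u₂, h0, h1, h2, hn, hi, hu⟩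

/-- [Z.1] `e = g₀/g₁`, `e' = g₁/g₂`. If the moment is a unit at some `A`: `e` is not in `On2` (`on2_iff`); the class number is odd, since otherwise `e = z y² = Y²` (`sq_of`) and `on2_sq`;
so `UC2`. Conversely, let `u` be as in `UC2` and `e` in `On2`: `e' = σ(e)` in `On2` (`on2_gal`, `sig_rep`), `u^n = z e^b e'^c`; `z` has norm `1`, so it is a square (`root_sq`); `On2` is closed under
products and inverses (`e⁻¹ = e (e⁻¹)²`), so `u^n` and `u = u^n (u^(-(n-1)/2))²` are in `On2`, contradiction. -/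
theorem uc2_iff (h : JT.Cl2 D) (d : Dt D) {R : Finset Eis} {a : Eis} (hR : IsR d.L R) (ha : IsA d.L a) (ho : OddO d.L a) :
    JT.UC2 D ↔ ¬ ∀ A : ValuationSubring ℂ, A.valuation 2 < 1 → A.valuation (Ms d.L R a (gM d.v d.δ)) < 1 := by
  have he := unit_main h d hR ha ho
  have hon := on2_iff h d hR ha ho
  have n0 := za_n0 he
  have n1 := za_n1 he
  rw [← hon, za_uc]
  constructor
  · rintro ⟨hodd, u, hu, hno⟩ h0
    apply hno
    obtain ⟨σ, hσ, hs⟩ := exists_sig (D := D) h.ncube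
    have h1 : JT.On2 D (JT.cD D) (gE d.L R a 1 / gE d.L R a 2) := by
      obtain ⟨u₀, u₁, u₂, k0, k1, k2, r0, r1, r2⟩ := he.rep
      have h2 := on2_gal h hσ hs h0
      rw [← r0, sig_rep hσ (i := 1) (by rw [pow_one]; exact hs) k0 k1 k2, pow_one, r1] at h2
      exact h2
    have hU := hu.isU h.ncube
    have hU0 := n0.isU h.ncube
    have hU1 := n1.isU h.ncube
    obtain ⟨n, m, b, c, z, hn, hm, hz, hzv⟩ := he.odd hodd u hU
    have hz1 : z = u ^ n * (gE d.L R a 0 / gE d.L R a 1) ^ (-b) * (gE d.L R a 1 / gE d.L R a 2) ^ (-c) := by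
      rw [hzv, zpow_neg, zpow_neg]
      have q0 := zpow_ne_zero b hU0.2.1
      have q1 := zpow_ne_zero c hU1.2.1
      rw [mul_assoc, mul_assoc, mul_assoc, mul_comm ((gE d.L R a 1 / gE d.L R a 2) ^ c), mul_assoc, inv_mul_cancel₀ q1,
        mul_one, mul_inv_cancel₀ q0, mul_one]
    have hzN : N1 D z := by
      rw [hz1]
      exact ((za_npow h hu n).mul h.ncube (n0.zpow h.ncube _)).mul h.ncube (n1.zpow h.ncube _)
    obtain ⟨y, hy, hzy⟩ := root_sq h.ncube hm hz hzN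
    have hz2 : JT.On2 D (JT.cD D) z := by rw [hzy]; exact on2_sq h hy
    have hb := za_on2_zpow h n0 h0 b
    have hc := za_on2_zpow h n1 h1 c
    have hun : JT.On2 D (JT.cD D) (u ^ n) := by
      rw [hzv]
      exact on2_mul h (hzN.mul h.ncube (n0.zpow h.ncube _)) (n1.zpow h.ncube _)
        (on2_mul h hzN (n0.zpow h.ncube _) hz2 hb) hc
    obtain ⟨k, hk⟩ := hn
    have hui := hu.inv h.ncube
    have e : u = u ^ n * (u⁻¹ ^ k) ^ 2 := by
      rw [hk, pow_add, pow_one, inv_pow, mul_comm 2 k, pow_mul]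
      have q := pow_ne_zero k hU.2.1
      field_simp
    rw [e]
    refine on2_mul h (za_npow h hu n) (za_npow h (za_npow h hui k) 2) hun (on2_sq h ?_)
    exact (za_npow h hui k).isU h.ncube
  · intro hno
    refine ⟨?_, _, n0, hno⟩
    by_contra hodd
    obtain ⟨y, z, m, hy, hm, hz, hzy⟩ := he.even hodd
    obtain ⟨Y, hY, hYe⟩ := sq_of h.ncube hm hz n0 hy hzy
    apply hno
    rw [hYe]
    exact on2_sq h hY

theorem zb_gM_int (A : ValuationSubring ℂ) (hA : A.valuation 2 < 1) (v : ℕ) (δ : Eis) {z : ℂ} (h : Q3V.OT z) :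
    A.valuation (gM v δ z) ≤ 1 := by
  have hx : xw z ∈ A := (ValuationSubring.valuation_le_one_iff A _).1 (x_int A hA h)
  have hy : yh z ∈ A := (ValuationSubring.valuation_le_one_iff A _).1 (yh_int A hA h)
  have hw : w ∈ A := (ValuationSubring.valuation_le_one_iff A _).1 (Q3V.v_w A).le
  rw [ValuationSubring.valuation_le_one_iff]
  unfold gM
  have hxp : ∀ n : ℕ, xw z ^ n ∈ A := fun n => pow_mem hx n
  have hwp : w ^ 2 ∈ A := pow_mem hw 2
  split_ifs <;>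
    repeat' (first | exact hx | exact hy | exact hw | exact hxp _ | exact hwp | refine add_mem ?_ ?_ | refine mul_mem ?_ ?_)

theorem zb_D (d : Dt D) (A : ValuationSubring ℂ) (hA : A.valuation 2 < 1) : A.valuation (emb D) = A.valuation 2 ^ d.v := by
  have h1 : A.valuation (emb d.D₀) = 1 := by
    refine le_antisymm (val_of_int A (JL.isIntegral_emb _)) ?_
    exact not_lt.1 fun h => d.hD₀ ((emb_lt A hA _).1 h)
  have h2 : emb D = 2 ^ d.v * emb d.D₀ := by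
    have h3 := congrArg emb d.hD
    rw [map_mul, map_pow, map_ofNat] at h3
    exact h3
  rw [h2, map_mul, map_pow, h1, mul_one]

theorem zb_main (d : Dt D) {R : Finset Eis} {a : Eis} (hR : IsR d.L R) (ha : IsA d.L a) {s t : ℂ} (hs : s ^ 2 = emb D)
    (ht : t ^ 3 = emb (4 * D)) (hb : V d.L d.v d.δ * s / t ∈ CF.KK) (h0 : V d.L d.v d.δ ≠ 0) (A : ValuationSubring ℂ)
    (hA : A.valuation 2 < 1) : ∃ (q : ℚ) (m : ℤ), 0 < q ∧
      (V d.L d.v d.δ * s / t) * conj (V d.L d.v d.δ * s / t) = q ∧ padicValRat 2 q = 2 * m ∧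
      ((n2 d.v d.δ : ℤ) + if n2 d.v d.δ = 0 then 1 else 0) ≤ m ∧
      (m = ((n2 d.v d.δ : ℤ) + if n2 d.v d.δ = 0 then 1 else 0) ↔
        ¬ A.valuation (Ms d.L R a (gM d.v d.δ)) < 1) := by
  obtain ⟨C, E, hV, hE, hC⟩ := lead_all A hA hR ha d.hv d.hj d.hq
  have hτ0 : A.valuation (2 : ℂ) ≠ 0 := (Valuation.ne_zero_iff _).2 two_ne_zero
  have hτp : 0 < A.valuation (2 : ℂ) := zero_lt_iff.2 hτ0
  have hD1 := zb_D d A hA
  have hDv : A.valuation (emb D) ≠ 0 := by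
    rw [hD1]
    exact pow_ne_zero _ hτ0
  have hD0 : emb D ≠ 0 := (Valuation.ne_zero_iff _).1 hDv
  have hs0 : s ≠ 0 := by
    rintro rfl
    apply hD0
    rw [← hs]
    ring
  have h4 : emb (4 * D) = 2 ^ 2 * emb D := by
    rw [map_mul, map_ofNat]
    norm_num
  have ht0 : t ≠ 0 := by
    rintro rfl
    rw [h4] at ht
    have h5 : (2 : ℂ) ^ 2 * emb D = 0 := by
      rw [← ht]
      ring
    exact (mul_ne_zero (pow_ne_zero 2 two_ne_zero) hD0) h5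
  have hb0 : V d.L d.v d.δ * s / t ≠ 0 := div_ne_zero (mul_ne_zero h0 hs0) ht0
  obtain ⟨q, m, hq0, hq, hqm, hbv⟩ := val_KK2 A hA hb hb0
  have hMs : A.valuation (Ms d.L R a (gM d.v d.δ)) ≤ 1 :=
    Ms_int A hR ha (fun z hz => zb_gM_int A hA d.v d.δ hz)
  refine ⟨q, m, hq0, hq, hqm, ?_⟩
  obtain ⟨X, hX⟩ : ∃ X, X = A.valuation (Ms d.L R a (gM d.v d.δ) + E) := ⟨_, rfl⟩
  have hX1 : X ≤ 1 := by
    rw [hX]
    exact A.valuation.map_add_le hMs hE.le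
  have hXiff : X = 1 ↔ ¬ A.valuation (Ms d.L R a (gM d.v d.δ)) < 1 := by
    constructor
    · intro h1 h2
      have h3 : X < 1 := by
        rw [hX]
        exact A.valuation.map_add_lt h2 hE
      exact absurd h1 h3.ne
    · intro h1
      have h2 : A.valuation (Ms d.L R a (gM d.v d.δ)) = 1 := le_antisymm hMs (not_lt.1 h1)
      rw [hX, Valuation.map_add_eq_of_lt_left, h2]
      rw [h2]
      exact hE
  obtain ⟨N, hN⟩ : ∃ N : ℕ, N = n2 d.v d.δ + if n2 d.v d.δ = 0 then 1 else 0 := ⟨_, rfl⟩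
  have hNz : ((n2 d.v d.δ : ℤ) + if n2 d.v d.δ = 0 then 1 else 0) = (N : ℤ) := by
    rw [hN]
    split_ifs <;> push_cast <;> ring
  rw [hNz]
  have hv6 := d.hv
  have hexp : 6 * n2 d.v d.δ + (if n2 d.v d.δ = 0 then 6 else 0) + 4 - d.v + 3 * d.v = 6 * N + (4 + 2 * d.v) := by
    rw [hN]
    split_ifs with h6
    · rw [h6]
      omega
    · omega
  have hV6 : A.valuation (V d.L d.v d.δ) ^ 6 =
      A.valuation 2 ^ (6 * n2 d.v d.δ + (if n2 d.v d.δ = 0 then 6 else 0) + 4 - d.v) * X ^ 6 := by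
    rw [hV, map_mul, mul_pow, hC, hX]
  have hs6 : A.valuation s ^ 6 = A.valuation 2 ^ (3 * d.v) := by
    have h7 : A.valuation s ^ 6 = A.valuation (s ^ 2) ^ 3 := by
      rw [map_pow, ← pow_mul]
    rw [h7, hs, hD1, ← pow_mul, mul_comm]
  have ht6 : A.valuation t ^ 6 = A.valuation 2 ^ (4 + 2 * d.v) := by
    have h7 : A.valuation t ^ 6 = A.valuation (t ^ 3) ^ 2 := by
      rw [map_pow, ← pow_mul]
    rw [h7, ht, h4, map_mul, map_pow, hD1, ← pow_add, ← pow_mul]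
    congr 1
    ring
  have hb6 : (A.valuation 2 ^ m) ^ 6 * A.valuation t ^ 6 = A.valuation (V d.L d.v d.δ) ^ 6 * A.valuation s ^ 6 := by
    rw [← hbv, ← mul_pow, ← mul_pow, ← map_mul, ← map_mul, div_mul_cancel₀ _ ht0]
  have key : A.valuation (2 : ℂ) ^ (6 * (m - N)) = X ^ 6 := by
    have h8 : (A.valuation (2 : ℂ) ^ m) ^ 6 = A.valuation 2 ^ (6 * N) * X ^ 6 := by
      have h9 : A.valuation (2 : ℂ) ^ (4 + 2 * d.v) ≠ 0 := pow_ne_zero _ hτ0
      apply mul_right_cancel₀ h9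
      rw [← ht6, hb6, hV6, hs6, ht6, mul_right_comm, ← pow_add, hexp, pow_add, mul_right_comm]
    have h10 : (A.valuation (2 : ℂ) ^ m) ^ 6 = A.valuation (2 : ℂ) ^ (6 * m) := by
      rw [mul_comm, zpow_mul]
      rfl
    have h11 : A.valuation (2 : ℂ) ^ (6 * N) = A.valuation (2 : ℂ) ^ (6 * (N : ℤ)) := by
      rw [← zpow_natCast]
      push_cast
      rfl
    rw [h10, h11] at h8
    rw [mul_sub, zpow_sub₀ hτ0, h8, mul_comm, mul_div_assoc, div_self (zpow_ne_zero _ hτ0), mul_one]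
  have hanti := zpow_right_strictAnti₀ hτp hA
  have hle : (N : ℤ) ≤ m := by
    have h12 : A.valuation (2 : ℂ) ^ (6 * (m - N)) ≤ A.valuation (2 : ℂ) ^ (0 : ℤ) := by
      rw [key, zpow_zero]
      exact pow_le_one' hX1 6
    have h13 := hanti.le_iff_ge.1 h12
    omega
  refine ⟨hle, ?_⟩
  rw [← hXiff]
  constructor
  · intro h14
    rw [h14, sub_self, mul_zero, zpow_zero] at key
    exact (pow_eq_one_iff.1 key.symm).resolve_right (by norm_num)
  · intro h14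
    rw [h14, one_pow, ← zpow_zero (A.valuation (2 : ℂ))] at key
    have h15 := hanti.injective key
    omega

/-- [Z.2] `b = V s/t`: `A.valuation b ^ 6 = A.valuation (Ms + E) ^ 6 A.valuation 2 ^ (6 (n + [n = 0]))` (`lead_all`, `s² = D`, `t³ = 4 D`, `A.valuation D = A.valuation 2 ^ v`), `Ms` is integral (`Ms_int`,
the values of `gM` are integral), `val_KK2`. -/
theorem val_q (h : JT.Cl2 D) (d : Dt D) {R : Finset Eis} {a : Eis} (hR : IsR d.L R) (ha : IsA d.L a) {s t : ℂ} (hs : s ^ 2 = emb D)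
    (ht : t ^ 3 = emb (4 * D)) (hb : V d.L d.v d.δ * s / t ∈ CF.KK) (h0 : V d.L d.v d.δ ≠ 0) :
    ∃ q : ℚ, 0 < q ∧ (V d.L d.v d.δ * s / t) * conj (V d.L d.v d.δ * s / t) = q ∧
      2 * ((n2 d.v d.δ : ℤ) + if n2 d.v d.δ = 0 then 1 else 0) ≤ padicValRat 2 q ∧
      (padicValRat 2 q = 2 * ((n2 d.v d.δ : ℤ) + if n2 d.v d.δ = 0 then 1 else 0) ↔
        ¬ ∀ A : ValuationSubring ℂ, A.valuation 2 < 1 → A.valuation (Ms d.L R a (gM d.v d.δ)) < 1) := by
  obtain ⟨A₀, hA₀⟩ := exists_A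
  obtain ⟨q, m, hq0, hq, hqm, hle, hiff⟩ := zb_main d hR ha hs ht hb h0 A₀ hA₀
  refine ⟨q, hq0, hq, ?_, ?_⟩
  · rw [hqm]
    omega
  · constructor
    · intro h1 h2
      have h3 : m = ((n2 d.v d.δ : ℤ) + if n2 d.v d.δ = 0 then 1 else 0) := by
        rw [hqm] at h1
        exact mul_left_cancel₀ (by norm_num : (2 : ℤ) ≠ 0) h1
      exact hiff.1 h3 (h2 A₀ hA₀)
    · intro h1
      rw [not_forall] at h1
      obtain ⟨A, h2⟩ := h1
      rw [Classical.not_imp] at h2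
      obtain ⟨q', m', hq0', hq', hqm', hle', hiff'⟩ := zb_main d hR ha hs ht hb h0 A h2.1
      have h3 : q' = q := by
        have h4 : (q' : ℂ) = (q : ℂ) := by rw [← hq, ← hq']
        exact_mod_cast h4
      rw [← h3, hqm', hiff'.2 h2.2]

/-- `V = 0`: then `Ms = - E` in `lead_all` (`C ≠ 0`). -/
theorem val_zero (d : Dt D) {R : Finset Eis} {a : Eis} (hR : IsR d.L R) (ha : IsA d.L a) (h0 : V d.L d.v d.δ = 0) :
    ∀ A : ValuationSubring ℂ, A.valuation 2 < 1 → A.valuation (Ms d.L R a (gM d.v d.δ)) < 1 := by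
  intro A hA
  obtain ⟨C, E, hV, hE, hC⟩ := lead_all A hA hR ha d.hv d.hj d.hq
  have hτ0 : A.valuation (2 : ℂ) ≠ 0 := (Valuation.ne_zero_iff _).2 two_ne_zero
  have hC0 : C ≠ 0 := by
    rintro rfl
    rw [map_zero, zero_pow (by norm_num)] at hC
    exact (pow_ne_zero _ hτ0) hC.symm
  rw [h0] at hV
  have h1 : Ms d.L R a (gM d.v d.δ) + E = 0 := (mul_eq_zero.1 hV.symm).resolve_left hC0
  rw [eq_neg_of_add_eq_zero_left h1, Valuation.map_neg]
  exact hE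

theorem zc_pow {v : ℕ} {x y : Eis} (hx : ¬ (2 : Eis) ∣ x) (hy : ¬ (2 : Eis) ∣ y) (h : 2 ^ v * x = 2 ^ 4 * y) : v = 4 ∧ x = y := by
  have := CM27.eis_isDomain
  have h20 : (2 : Eis) ≠ 0 := Q3.prime_two.ne_zero
  rcases lt_trichotomy v 4 with hv | hv | hv
  · exfalso
    obtain ⟨k, hk⟩ : ∃ k, 4 = v + (k + 1) := ⟨3 - v, by omega⟩
    apply hx
    rw [hk, pow_add, mul_assoc] at h
    have h1 := mul_left_cancel₀ (pow_ne_zero v h20) h
    exact ⟨2 ^ k * y, by rw [h1]; ring⟩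
  · subst hv
    exact ⟨rfl, mul_left_cancel₀ (pow_ne_zero 4 h20) h⟩
  · exfalso
    obtain ⟨k, hk⟩ : ∃ k, v = 4 + (k + 1) := ⟨v - 5, by omega⟩
    apply hy
    rw [hk, pow_add, mul_assoc] at h
    have h1 := mul_left_cancel₀ (pow_ne_zero 4 h20) h
    exact ⟨2 ^ k * x, by rw [← h1]; ring⟩

theorem zc_cube {x : Eis} (h : JT.R4 x) (h0 : x ≠ 0) : x ^ 3 = 1 := by
  rcases h with rfl | rfl | rfl | rfl
  · exact absurd rfl h0
  · decide
  · decide
  · decide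

theorem zc_zeta {ζ : Eis} (hζ : ζ ^ 3 = 1) : ζ = 1 ∨ ζ = om ∨ ζ = om ^ 2 := by
  have := CM27.eis_isDomain
  have h1 : (ζ - 1) * ((ζ - om) * (ζ - om ^ 2)) = 0 := by
    have h2 : (om : Eis) ^ 2 + om + 1 = 0 := by decide
    have h3 : (om : Eis) ^ 3 = 1 := by decide
    linear_combination hζ + (-ζ ^ 2 + ζ) * h2 - h3 + ζ * h3
  rcases mul_eq_zero.1 h1 with h | h
  · exact Or.inl (sub_eq_zero.1 h)
  · rcases mul_eq_zero.1 h with h | h
    · exact Or.inr (Or.inl (sub_eq_zero.1 h))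
    · exact Or.inr (Or.inr (sub_eq_zero.1 h))

theorem zc_r4 {x : Eis} (h : x ^ 3 = 1) : JT.R4 x := by
  rcases zc_zeta h with h | h | h
  · exact Or.inr (Or.inl h)
  · exact Or.inr (Or.inr (Or.inl h))
  · exact Or.inr (Or.inr (Or.inr h))

/-- [Z.3] `D = 2^v D₀`, `D₀ ≡ ζ (1 + 2 δ) mod 4` is a square modulo `4` iff `2 ∣ δ` (`ζ = (ζ²)²`; an odd `y ≡ ζ² (1 + 2t)` has `y² ≡ ζ mod 4`). -/
theorem good2_iff (d : Dt D) : JG.Good2 D ↔ n2 d.v d.δ = 0 := by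
  have := CM27.eis_isDomain
  have h20 : (2 : Eis) ≠ 0 := Q3.prime_two.ne_zero
  have hn : n2 d.v d.δ = 0 ↔ d.v = 4 ∧ (2 : Eis) ∣ d.δ := by
    unfold n2
    split_ifs with h1 h2 h3
    · constructor
      · intro h; exact absurd h (by norm_num)
      · rintro ⟨h, -⟩; omega
    · exact ⟨fun _ => ⟨h3, h2⟩, fun _ => rfl⟩
    · constructor
      · intro h; exact absurd h (by norm_num)
      · rintro ⟨h, -⟩; exact absurd h h3
    · constructor
      · intro h; exact absurd h (by norm_num)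
      · rintro ⟨-, h⟩; exact absurd h h2
  rw [hn]
  obtain ⟨c', hc'⟩ := d.hδ
  constructor
  · rintro ⟨s, c, hs, hD⟩
    have hs2 : ¬ (2 : Eis) ∣ s ^ 2 + 4 * c := by
      rintro ⟨t, ht⟩
      apply hs
      exact Q3.prime_two.dvd_of_dvd_pow (n := 2) ⟨t - 2 * c, by linear_combination ht⟩
    have h1 : (2 : Eis) ^ d.v * d.D₀ = 2 ^ 4 * (s ^ 2 + 4 * c) := by
      rw [← d.hD, hD]
      norm_num
    obtain ⟨hv, hD0⟩ := zc_pow d.hD₀ hs2 h1
    refine ⟨hv, ?_⟩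
    obtain ⟨ξ, hξ, t, ht⟩ := r4_exists s
    have hξ0 : ξ ≠ 0 := by
      rintro rfl
      exact hs ⟨t, by linear_combination ht⟩
    have hξ3 := zc_cube hξ hξ0
    have hs' : s = ξ + 2 * t := by linear_combination ht
    have h2 : (2 : Eis) ∣ ξ ^ 2 - d.ζ := by
      refine ⟨2 * c' + d.ζ * d.δ - 2 * (ξ * t + t ^ 2 + c), ?_⟩
      rw [hD0, hs'] at hc'
      linear_combination hc'
    have h3 : ξ ^ 2 = d.ζ := by
      apply r4_unique (zc_r4 _) (zc_r4 d.hζ) h2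
      rw [← pow_mul, mul_comm, pow_mul, hξ3, one_pow]
    have h4 : 2 * (d.ζ * d.δ) = 2 * (2 * (ξ * t + t ^ 2 + c - c')) := by
      rw [hD0, hs'] at hc'
      linear_combination h3 - hc'
    have h5 := mul_left_cancel₀ h20 h4
    refine ⟨d.ζ ^ 2 * (ξ * t + t ^ 2 + c - c'), ?_⟩
    linear_combination d.ζ ^ 2 * h5 - d.δ * d.hζ
  · rintro ⟨hv, δ', hδ'⟩
    refine ⟨d.ζ ^ 2, d.ζ * δ' + c', ?_, ?_⟩
    · rintro ⟨t, ht⟩
      apply Q3.prime_two.not_isUnit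
      apply IsUnit.of_mul_eq_one (t * d.ζ)
      linear_combination d.hζ - d.ζ * ht
    · have hD := d.hD
      rw [hv] at hD
      rw [hδ'] at hc'
      linear_combination hD + 16 * hc' - 16 * d.ζ * d.hζ

/-- the factor of the period -/
theorem zc_kap (d : Dt D) : JG.kap D = 4 ^ (if n2 d.v d.δ = 0 then 1 else 0) * (if JG.GoodL D then 3 else 1) := by
  unfold JG.kap
  have h := good2_iff d
  by_cases h0 : n2 d.v d.δ = 0
  · rw [if_pos (h.2 h0), if_pos h0]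
    rfl
  · rw [if_neg (fun h1 => h0 (h.1 h1)), if_neg h0]
    rfl

theorem zc_norm_odd (L : Lv) : ¬ 2 ∣ L.f.norm.natAbs := by
  intro h9
  have h10 : (2 : ℤ) ∣ L.f.norm := by exact_mod_cast Int.natCast_dvd.2 h9
  have hodd : Odd L.f.norm := by
    by_contra h1
    exact L.hf2 (b7_even_dvd _ h1)
  obtain ⟨k, hk⟩ := hodd
  omega

theorem zc_norm_pos (L : Lv) : (0 : ℝ) < (L.f.norm : ℝ) := by
  have h1 := norm_emb_sq L.f
  have h2 : 0 < ‖emb L.f‖ := by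
    rw [norm_pos_iff, Ne, map_eq_zero_iff emb emb_injective]
    exact L.hf
  rw [← h1]
  positivity

/-- the `2`-adic valuation of the denominator -/
theorem zc_den (d : Dt D) : ∃ q₀ : ℚ, 0 < q₀ ∧ q₀ = 9 * 4 ^ n2 d.v d.δ * (d.L.f.norm : ℚ) * (JG.kap D : ℚ) ∧
    padicValRat 2 q₀ = 2 * ((n2 d.v d.δ : ℤ) + if n2 d.v d.δ = 0 then 1 else 0) := by
  have hN : (d.L.f.norm : ℚ) = ((d.L.f.norm.natAbs : ℕ) : ℚ) := by
    have h1 : ((d.L.f.norm.natAbs : ℕ) : ℤ) = d.L.f.norm := by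
      apply Int.natAbs_of_nonneg
      have := zc_norm_pos d.L
      have h2 : (0 : ℤ) < d.L.f.norm := by exact_mod_cast this
      exact h2.le
    rw [← Int.cast_natCast (R := ℚ) d.L.f.norm.natAbs, h1]
  have hodd := zc_norm_odd d.L
  obtain ⟨N, hNdef⟩ : ∃ N : ℕ, N = d.L.f.norm.natAbs := ⟨_, rfl⟩
  obtain ⟨e, he⟩ : ∃ e : ℕ, e = if n2 d.v d.δ = 0 then 1 else 0 := ⟨_, rfl⟩
  obtain ⟨t, ht, htt⟩ : ∃ t : ℕ, t = (if JG.GoodL D then 3 else 1) ∧ ¬ 2 ∣ t := by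
    refine ⟨_, rfl, ?_⟩
    split_ifs <;> norm_num
  have hM : ¬ 2 ∣ 9 * N * t := by
    intro h
    rcases (Nat.Prime.dvd_mul Nat.prime_two).1 h with h | h
    · rcases (Nat.Prime.dvd_mul Nat.prime_two).1 h with h | h
      · omega
      · exact hodd (by rwa [← hNdef])
    · exact htt h
  have hM0 : 9 * N * t ≠ 0 := by
    intro h; rw [h] at hM; exact hM (dvd_zero _)
  have hMq : (0 : ℚ) < ((9 * N * t : ℕ) : ℚ) := by exact_mod_cast Nat.pos_of_ne_zero hM0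
  have he2 : (if n2 d.v d.δ = 0 then (1 : ℤ) else 0) = (e : ℤ) := by
    rw [he]; split_ifs <;> rfl
  refine ⟨4 ^ (n2 d.v d.δ + e) * ((9 * N * t : ℕ) : ℚ), by positivity, ?_, ?_⟩
  · rw [zc_kap d, ← he, ← ht, hN, ← hNdef]
    push_cast
    ring
  · have h2 : Fact (Nat.Prime 2) := ⟨Nat.prime_two⟩
    have h4 : padicValRat 2 (4 : ℚ) = 2 := by
      have : (4 : ℚ) = ((2 : ℕ) : ℚ) ^ 2 := by norm_num
      rw [this, padicValRat.pow, padicValRat.self (by norm_num)]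
      norm_num
    rw [padicValRat.mul (by positivity) hMq.ne', padicValRat.pow, h4, padicValRat.of_nat,
      padicValNat.eq_zero_of_not_dvd hM, he2]
    push_cast
    ring

/-- the square of the absolute value of the central value -/
theorem zc_abs {x u V' : ℂ} (hu : ‖u‖ = 1) (n : ℕ) (L : Lv) (h : x = u * OmC / (6 * 2 ^ n * emb L.f) * V') :
    ‖x‖ ^ 2 = Om ^ 2 * ‖V'‖ ^ 2 / (36 * 4 ^ n * (L.f.norm : ℝ)) := by
  have hO : ‖OmC‖ ^ 2 = Om ^ 2 := by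
    unfold OmC
    rw [norm_mul, Complex.norm_I, one_mul, Complex.norm_real, Real.norm_eq_abs, sq_abs]
  have h4 : (4 : ℝ) ^ n = (2 ^ n) ^ 2 := by rw [← pow_mul, mul_comm, pow_mul]; norm_num
  rw [h, norm_mul, norm_div, norm_mul, hu, one_mul, norm_mul, norm_mul, mul_pow, div_pow, hO, mul_pow, mul_pow,
    norm_emb_sq, norm_pow, Complex.norm_ofNat, Complex.norm_ofNat, h4]
  have := zc_norm_pos L
  field_simp
  ring

/-- [Z.4] `J2D.main`, `exists_R`, `exists_a`; `q = |b|² / (9 4^n N(f) kap)`, `b = V s/t`, `|s|² = |D|`, `|t|³ = |4 D|`; `N(f)` is odd. -/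
theorem lval2 (h : JT.Cl2 D) : JT.LVal2 D := by
  have hdom := CM27.eis_isDomain
  obtain ⟨d, ⟨p₂, pl, hp2, hpl, Φ, hΦ, hL, u, hu, hΦ1⟩, hbt⟩ := J2D.main h
  obtain ⟨R, hR⟩ := exists_R d.L
  obtain ⟨a, ha, ho⟩ := exists_a d.L
  refine ⟨p₂, pl, hp2, hpl, Φ, hΦ, hL, ?_⟩
  have hD0 : D ≠ 0 := fun h' => h.free 2 Q3.prime_two (by rw [h']; exact dvd_zero _)
  have h4D : (4 * D : Eis) ≠ 0 := mul_ne_zero (by decide) hD0
  have hX : 0 < ‖emb (4 * D)‖ := by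
    rw [norm_pos_iff, Ne, map_eq_zero_iff emb emb_injective]
    exact h4D
  -- cube root of `|4 D|`
  obtain ⟨X, hX0, hX3, hXr⟩ : ∃ X : ℝ, 0 < X ∧ X ^ 3 = ‖emb (4 * D)‖ ∧ ‖emb (4 * D)‖ ^ ((1 : ℝ) / 3) = X := by
    refine ⟨_, Real.rpow_pos_of_pos hX _, ?_, rfl⟩
    rw [← Real.rpow_natCast, ← Real.rpow_mul hX.le]
    norm_num
  have hΦn := zc_abs hu _ d.L hΦ1
  have hNpos := zc_norm_pos d.L
  have hmc : Φ 1 * conj (Φ 1) = ((‖Φ 1‖ ^ 2 : ℝ) : ℂ) := by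
    rw [Complex.mul_conj, Complex.normSq_eq_norm_sq]
  by_cases hV0 : V d.L d.v d.δ = 0
  · refine ⟨0, ?_, Or.inl rfl, ?_⟩
    · rw [hmc, hΦn, hV0, norm_zero]
      simp
    · constructor
      · rintro ⟨h1, -⟩
        exact absurd rfl h1
      · intro h1
        exact absurd (val_zero d hR ha hV0) ((uc2_iff h d hR ha ho).1 h1)
  · obtain ⟨s, hs⟩ := IsAlgClosed.exists_pow_nat_eq (emb D) (n := 2) (by norm_num)
    obtain ⟨t, ht⟩ := IsAlgClosed.exists_pow_nat_eq (emb (4 * D)) (n := 3) (by norm_num)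
    obtain ⟨q', hq'0, hq', hle, hiff⟩ := val_q h d hR ha hs ht (hbt s t hs ht) hV0
    obtain ⟨q₀, hq₀, hq₀e, hval⟩ := zc_den d
    have h2 : Fact (Nat.Prime 2) := ⟨Nat.prime_two⟩
    have hvq : padicValRat 2 (q' / q₀) = padicValRat 2 q' - 2 * ((n2 d.v d.δ : ℤ) + if n2 d.v d.δ = 0 then 1 else 0) := by
      rw [padicValRat.div hq'0.ne' hq₀.ne', hval]
    refine ⟨q' / q₀, ?_, Or.inr ?_, ?_⟩
    · have hs2 : ‖s‖ ^ 2 = ‖emb D‖ := by rw [← norm_pow, hs]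
      have ht2 : ‖t‖ = X := by
        have h3 : ‖t‖ ^ 3 = X ^ 3 := by rw [← norm_pow, ht, hX3]
        exact (pow_left_inj₀ (norm_nonneg t) hX0.le (by norm_num)).1 h3
      have hD4 : X ^ 3 = 4 * ‖emb D‖ := by
        rw [hX3, map_mul, norm_mul, map_ofNat, Complex.norm_ofNat]
      have hq2 : (q' : ℝ) = ‖V d.L d.v d.δ‖ ^ 2 * X / 4 := by
        have h5 : ((‖V d.L d.v d.δ * s / t‖ ^ 2 : ℝ) : ℂ) = ((q' : ℝ) : ℂ) := by
          rw [← Complex.normSq_eq_norm_sq, ← Complex.mul_conj, hq']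
          push_cast
          rfl
        have h6 : ‖V d.L d.v d.δ * s / t‖ ^ 2 = (q' : ℝ) := by exact_mod_cast h5
        rw [← h6, norm_div, norm_mul, div_pow, mul_pow, hs2, ht2]
        field_simp
        rw [hD4]
        ring
      rw [hmc, hΦn, hXr]
      have h7 : Om ^ 2 * ‖V d.L d.v d.δ‖ ^ 2 / (36 * 4 ^ n2 d.v d.δ * (d.L.f.norm : ℝ)) =
          (((q' / q₀ : ℚ) : ℝ) * (JG.kap D : ℝ) / X) * Om ^ 2 := by
        have hk : (0 : ℝ) < (JG.kap D : ℝ) := by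
          rw [zc_kap d]
          split_ifs <;> norm_num
        have h8 : ((q₀ : ℚ) : ℝ) = 9 * 4 ^ n2 d.v d.δ * (d.L.f.norm : ℝ) * (JG.kap D : ℝ) := by
          rw [hq₀e]; push_cast; rfl
        rw [Rat.cast_div, h8, hq2]
        field_simp
        ring
      rw [h7]
      push_cast
      ring
    · rw [hvq]
      linarith
    · rw [uc2_iff h d hR ha ho, ← hiff, hvq]
      constructor
      · rintro ⟨-, h1⟩
        linarith
      · intro h1
        exact ⟨(div_pos hq'0 hq₀).ne', by rw [h1]; ring⟩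

end J2L
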